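import Mathlib

set_option autoImplicit false

/-!
OBW: decompositions of dense regular graphs into 2-factors (MP_767178_co).
Basic objects: items (edges and vertex-colour pairs), pieces (coloured cycles), systems of items.
-/

namespace Pool.Agent.OBW

/-- An item: an edge `Sum.inl s(u,v)` or a pair `Sum.inr (v,c)`. -/
abbrev Item (V C : Type) := Sym2 V ⊕ (V × C)

section
variable {V C : Type} [Fintype V] [DecidableEq V] [Fintype C] [DecidableEq C]

/-- The items of the cycle `z 0, …, z (ℓ-1)` in colour `c`. -/
def cyc (ℓ : ℕ) (z : ℕ → V) (c : C) : Finset (Item V C) :=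
  (Finset.range ℓ).image (fun i => (Sum.inl s(z i, z ((i + 1) % ℓ)) : Item V C)) ∪
  (Finset.range ℓ).image (fun i => (Sum.inr (z i, c) : Item V C))

/-- `p` is the item set of a cycle of length `ℓ ≥ 3` in colour `c`. -/
def IsPiece (ℓ : ℕ) (c : C) (p : Finset (Item V C)) : Prop :=
  3 ≤ ℓ ∧ ∃ z : ℕ → V, Set.InjOn z (Set.Iio ℓ) ∧ p = cyc ℓ z c

/-- neighbours of `v` in the system `S` -/
def nb (S : Finset (Item V C)) (v : V) : Finset V :=
  Finset.univ.filter (fun u => (Sum.inl s(v, u) : Item V C) ∈ S)

/-- colours available at `v` in the system `S` -/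
def cl (S : Finset (Item V C)) (v : V) : Finset C :=
  Finset.univ.filter (fun c => (Sum.inr (v, c) : Item V C) ∈ S)

/-- vertices at which the colour `c` is available in the system `S` -/
def vt (S : Finset (Item V C)) (c : C) : Finset V :=
  Finset.univ.filter (fun v => (Sum.inr (v, c) : Item V C) ∈ S)

/-- all items live on the vertex set `U` and the colour set `D`, and there are no loops -/
def Inside (U : Finset V) (D : Finset C) (S : Finset (Item V C)) : Prop :=
  (∀ u v, (Sum.inl s(u, v) : Item V C) ∈ S → u ≠ v ∧ u ∈ U ∧ v ∈ U) ∧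
  (∀ v c, (Sum.inr (v, c) : Item V C) ∈ S → v ∈ U ∧ c ∈ D)

/-- balanced: degree = twice the number of colours, at every vertex; `ℓ` divides every colour class -/
def Bal (ℓ : ℕ) (S : Finset (Item V C)) : Prop :=
  (∀ v, (nb S v).card = 2 * (cl S v).card) ∧ ∀ c, ℓ ∣ (vt S c).card

/-- pairwise disjoint family of item sets -/
def PD (F : Finset (Finset (Item V C))) : Prop :=
  ∀ p ∈ F, ∀ q ∈ F, p ≠ q → Disjoint p q

/-- union of a family of item sets -/
def un (F : Finset (Finset (Item V C))) : Finset (Item V C) := F.biUnion id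

/-- `S` is a disjoint union of pieces of length `ℓ` (in any colours). -/
def Dec (ℓ : ℕ) (S : Finset (Item V C)) : Prop :=
  ∃ F : Finset (Finset (Item V C)), (∀ p ∈ F, ∃ c, IsPiece ℓ c p) ∧ PD F ∧ un F = S

/-- number of the pieces of length `ℓ` and colour `c` in the family `F` -/
noncomputable def cnt (F : Finset (Finset (Item V C))) (ℓ : ℕ) (c : C) : ℕ := by
  classical exact (F.filter (fun p => IsPiece ℓ c p)).card

/-- all the items of a graph `G` with the colour set `C` -/
noncomputable def full (C : Type) [Fintype C] [DecidableEq C] (G : SimpleGraph V) : Finset (Item V C) := by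
  classical exact Finset.univ.filter (fun i => match i with
    | Sum.inl e => e ∈ G.edgeSet
    | Sum.inr _ => True)

end

end Pool.Agent.OBW
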