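import Mathlib
import Pool.Agent.OBW.Defs

set_option autoImplicit false
set_option linter.unusedSectionVars false

/-! Basic API for OBW: membership, unions, differences, pieces, disjoint families. -/

namespace Pool.Agent.OBW

open Finset

section
variable {V C : Type} [Fintype V] [DecidableEq V] [Fintype C] [DecidableEq C]

@[simp] theorem mem_nb (S : Finset (Item V C)) (v u : V) :
    u ∈ nb S v ↔ (Sum.inl s(v, u) : Item V C) ∈ S := by simp [nb]

theorem mem_nb' (S : Finset (Item V C)) (v u : V) :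
    u ∈ nb S v ↔ (Sum.inl s(u, v) : Item V C) ∈ S := by rw [mem_nb, Sym2.eq_swap]

theorem nb_comm (S : Finset (Item V C)) (v u : V) : u ∈ nb S v ↔ v ∈ nb S u := by
  rw [mem_nb, mem_nb']

@[simp] theorem mem_cl (S : Finset (Item V C)) (v : V) (c : C) :
    c ∈ cl S v ↔ (Sum.inr (v, c) : Item V C) ∈ S := by simp [cl]

@[simp] theorem mem_vt (S : Finset (Item V C)) (v : V) (c : C) :
    v ∈ vt S c ↔ (Sum.inr (v, c) : Item V C) ∈ S := by simp [vt]

theorem nb_mono {S T : Finset (Item V C)} (h : S ⊆ T) (v : V) : nb S v ⊆ nb T v := by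
  intro u hu; rw [mem_nb] at *; exact h hu

theorem cl_mono {S T : Finset (Item V C)} (h : S ⊆ T) (v : V) : cl S v ⊆ cl T v := by
  intro u hu; rw [mem_cl] at *; exact h hu

theorem vt_mono {S T : Finset (Item V C)} (h : S ⊆ T) (c : C) : vt S c ⊆ vt T c := by
  intro u hu; rw [mem_vt] at *; exact h hu

theorem nb_union (S T : Finset (Item V C)) (v : V) : nb (S ∪ T) v = nb S v ∪ nb T v := by
  ext u; simp [mem_nb]

theorem cl_union (S T : Finset (Item V C)) (v : V) : cl (S ∪ T) v = cl S v ∪ cl T v := by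
  ext u; simp [mem_cl]

theorem vt_union (S T : Finset (Item V C)) (c : C) : vt (S ∪ T) c = vt S c ∪ vt T c := by
  ext u; simp [mem_vt]

theorem nb_sdiff (S T : Finset (Item V C)) (v : V) : nb (S \ T) v = nb S v \ nb T v := by
  ext u; simp [mem_nb]

theorem cl_sdiff (S T : Finset (Item V C)) (v : V) : cl (S \ T) v = cl S v \ cl T v := by
  ext u; simp [mem_cl]

theorem vt_sdiff (S T : Finset (Item V C)) (c : C) : vt (S \ T) c = vt S c \ vt T c := by
  ext u; simp [mem_vt]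

theorem nb_inter (S T : Finset (Item V C)) (v : V) : nb (S ∩ T) v = nb S v ∩ nb T v := by
  ext u; simp [mem_nb]

theorem cl_inter (S T : Finset (Item V C)) (v : V) : cl (S ∩ T) v = cl S v ∩ cl T v := by
  ext u; simp [mem_cl]

theorem vt_inter (S T : Finset (Item V C)) (c : C) : vt (S ∩ T) c = vt S c ∩ vt T c := by
  ext u; simp [mem_vt]

@[simp] theorem nb_empty (v : V) : nb (∅ : Finset (Item V C)) v = ∅ := by ext u; simp [mem_nb]
@[simp] theorem cl_empty (v : V) : cl (∅ : Finset (Item V C)) v = ∅ := by ext u; simp [mem_cl]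
@[simp] theorem vt_empty (c : C) : vt (∅ : Finset (Item V C)) c = ∅ := by ext u; simp [mem_vt]

theorem nb_disj {S T : Finset (Item V C)} (h : Disjoint S T) (v : V) : Disjoint (nb S v) (nb T v) := by
  rw [Finset.disjoint_left] at *
  intro u hu hu'
  rw [mem_nb] at *
  exact h hu hu'

theorem cl_disj {S T : Finset (Item V C)} (h : Disjoint S T) (v : V) : Disjoint (cl S v) (cl T v) := by
  rw [Finset.disjoint_left] at *
  intro u hu hu'
  rw [mem_cl] at *
  exact h hu hu'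

theorem vt_disj {S T : Finset (Item V C)} (h : Disjoint S T) (c : C) : Disjoint (vt S c) (vt T c) := by
  rw [Finset.disjoint_left] at *
  intro u hu hu'
  rw [mem_vt] at *
  exact h hu hu'

theorem nb_sdiff_card {S T : Finset (Item V C)} (h : T ⊆ S) (v : V) :
    (nb (S \ T) v).card + (nb T v).card = (nb S v).card := by
  rw [nb_sdiff, Finset.card_sdiff_add_card_eq_card (nb_mono h v)]

theorem cl_sdiff_card {S T : Finset (Item V C)} (h : T ⊆ S) (v : V) :
    (cl (S \ T) v).card + (cl T v).card = (cl S v).card := by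
  rw [cl_sdiff, Finset.card_sdiff_add_card_eq_card (cl_mono h v)]

theorem vt_sdiff_card {S T : Finset (Item V C)} (h : T ⊆ S) (c : C) :
    (vt (S \ T) c).card + (vt T c).card = (vt S c).card := by
  rw [vt_sdiff, Finset.card_sdiff_add_card_eq_card (vt_mono h c)]

/-! unions of families -/

theorem mem_un {F : Finset (Finset (Item V C))} {i : Item V C} : i ∈ un F ↔ ∃ p ∈ F, i ∈ p := by
  simp [un]

@[simp] theorem un_empty : un (∅ : Finset (Finset (Item V C))) = ∅ := by simp [un]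

theorem un_union (F G : Finset (Finset (Item V C))) : un (F ∪ G) = un F ∪ un G := by
  ext i; simp only [mem_un, Finset.mem_union]
  constructor
  · rintro ⟨p, hp | hp, hi⟩
    · exact Or.inl ⟨p, hp, hi⟩
    · exact Or.inr ⟨p, hp, hi⟩
  · rintro (⟨p, hp, hi⟩ | ⟨p, hp, hi⟩)
    · exact ⟨p, Or.inl hp, hi⟩
    · exact ⟨p, Or.inr hp, hi⟩

theorem un_insert (p : Finset (Item V C)) (F : Finset (Finset (Item V C))) :
    un (insert p F) = p ∪ un F := by
  simp [un, Finset.biUnion_insert]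

theorem subset_un {F : Finset (Finset (Item V C))} {p : Finset (Item V C)} (hp : p ∈ F) : p ⊆ un F := by
  intro i hi; exact mem_un.2 ⟨p, hp, hi⟩

theorem un_subset {F : Finset (Finset (Item V C))} {S : Finset (Item V C)} (h : ∀ p ∈ F, p ⊆ S) :
    un F ⊆ S := by
  intro i hi; obtain ⟨p, hp, hi⟩ := mem_un.1 hi; exact h p hp hi

theorem un_mono {F G : Finset (Finset (Item V C))} (h : F ⊆ G) : un F ⊆ un G :=
  un_subset fun _ hp => subset_un (h hp)

theorem PD.union {F G : Finset (Finset (Item V C))} (hF : PD F) (hG : PD G)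
    (h : Disjoint (un F) (un G)) : PD (F ∪ G) := by
  intro p hp q hq hpq
  rw [Finset.mem_union] at hp hq
  rcases hp with hp | hp <;> rcases hq with hq | hq
  · exact hF p hp q hq hpq
  · exact Finset.disjoint_of_subset_left (subset_un hp) (Finset.disjoint_of_subset_right (subset_un hq) h)
  · exact (Finset.disjoint_of_subset_left (subset_un hq) (Finset.disjoint_of_subset_right (subset_un hp) h)).symm
  · exact hG p hp q hq hpq

theorem PD.insert {F : Finset (Finset (Item V C))} {p : Finset (Item V C)} (hF : PD F)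
    (h : Disjoint p (un F)) : PD (insert p F) := by
  intro q hq r hr hqr
  rw [Finset.mem_insert] at hq hr
  rcases hq with hq | hq <;> rcases hr with hr | hr
  · exact absurd (hq.trans hr.symm) hqr
  · subst hq; exact Finset.disjoint_of_subset_right (subset_un hr) h
  · subst hr; exact (Finset.disjoint_of_subset_right (subset_un hq) h).symm
  · exact hF q hq r hr hqr

theorem PD.subset {F G : Finset (Finset (Item V C))} (hG : PD G) (h : F ⊆ G) : PD F :=
  fun p hp q hq hpq => hG p (h hp) q (h hq) hpq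

theorem nb_un_card {F : Finset (Finset (Item V C))} (hF : PD F) (v : V) :
    (nb (un F) v).card = ∑ p ∈ F, (nb p v).card := by
  have : nb (un F) v = F.biUnion (fun p => nb p v) := by
    ext u
    simp only [mem_nb, mem_un, Finset.mem_biUnion]
  rw [this, Finset.card_biUnion]
  intro p hp q hq hpq
  exact nb_disj (hF p hp q hq hpq) v

theorem cl_un_card {F : Finset (Finset (Item V C))} (hF : PD F) (v : V) :
    (cl (un F) v).card = ∑ p ∈ F, (cl p v).card := by
  have : cl (un F) v = F.biUnion (fun p => cl p v) := by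
    ext u
    simp only [mem_cl, mem_un, Finset.mem_biUnion]
  rw [this, Finset.card_biUnion]
  intro p hp q hq hpq
  exact cl_disj (hF p hp q hq hpq) v

theorem vt_un_card {F : Finset (Finset (Item V C))} (hF : PD F) (c : C) :
    (vt (un F) c).card = ∑ p ∈ F, (vt p c).card := by
  have : vt (un F) c = F.biUnion (fun p => vt p c) := by
    ext u
    simp only [mem_vt, mem_un, Finset.mem_biUnion]
  rw [this, Finset.card_biUnion]
  intro p hp q hq hpq
  exact vt_disj (hF p hp q hq hpq) c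

/-! pieces -/

theorem mem_cyc {ℓ : ℕ} {z : ℕ → V} {c : C} {i : Item V C} :
    i ∈ cyc ℓ z c ↔ (∃ k < ℓ, i = Sum.inl s(z k, z ((k + 1) % ℓ))) ∨ (∃ k < ℓ, i = Sum.inr (z k, c)) := by
  unfold cyc
  rw [Finset.mem_union, Finset.mem_image, Finset.mem_image]
  constructor
  · rintro (⟨k, hk, rfl⟩ | ⟨k, hk, rfl⟩)
    · exact Or.inl ⟨k, Finset.mem_range.1 hk, rfl⟩
    · exact Or.inr ⟨k, Finset.mem_range.1 hk, rfl⟩
  · rintro (⟨k, hk, rfl⟩ | ⟨k, hk, rfl⟩)
    · exact Or.inl ⟨k, Finset.mem_range.2 hk, rfl⟩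
    · exact Or.inr ⟨k, Finset.mem_range.2 hk, rfl⟩

theorem inl_mem_cyc {ℓ : ℕ} {z : ℕ → V} {c : C} {e : Sym2 V} :
    (Sum.inl e : Item V C) ∈ cyc ℓ z c ↔ ∃ k < ℓ, e = s(z k, z ((k + 1) % ℓ)) := by
  rw [mem_cyc]
  constructor
  · rintro (⟨k, hk, h⟩ | ⟨k, hk, h⟩)
    · exact ⟨k, hk, Sum.inl.inj h⟩
    · simp at h
  · rintro ⟨k, hk, rfl⟩
    exact Or.inl ⟨k, hk, rfl⟩

theorem inr_mem_cyc {ℓ : ℕ} {z : ℕ → V} {c c' : C} {v : V} :
    (Sum.inr (v, c') : Item V C) ∈ cyc ℓ z c ↔ c' = c ∧ ∃ k < ℓ, v = z k := by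
  rw [mem_cyc]
  constructor
  · rintro (⟨k, hk, h⟩ | ⟨k, hk, h⟩)
    · simp at h
    · have := Sum.inr.inj h
      exact ⟨(Prod.ext_iff.1 this).2, k, hk, (Prod.ext_iff.1 this).1⟩
  · rintro ⟨rfl, k, hk, rfl⟩
    exact Or.inr ⟨k, hk, rfl⟩

theorem vt_cyc {ℓ : ℕ} {z : ℕ → V} {c : C} : vt (cyc ℓ z c) c = (Finset.range ℓ).image z := by
  ext v
  rw [mem_vt, inr_mem_cyc, Finset.mem_image]
  constructor
  · rintro ⟨_, k, hk, rfl⟩; exact ⟨k, Finset.mem_range.2 hk, rfl⟩
  · rintro ⟨k, hk, rfl⟩; exact ⟨rfl, k, Finset.mem_range.1 hk, rfl⟩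

theorem vt_cyc_ne {ℓ : ℕ} {z : ℕ → V} {c c' : C} (h : c' ≠ c) : vt (cyc ℓ z c) c' = ∅ := by
  ext v
  rw [mem_vt, inr_mem_cyc]
  simp [h]

theorem cyc_ne {ℓ : ℕ} (hℓ : 3 ≤ ℓ) {z : ℕ → V} (hz : Set.InjOn z (Set.Iio ℓ)) {k : ℕ} (hk : k < ℓ) :
    z k ≠ z ((k + 1) % ℓ) := by
  intro h
  have h1 : (k + 1) % ℓ < ℓ := Nat.mod_lt _ (by omega)
  have h2 := hz (Set.mem_Iio.2 hk) (Set.mem_Iio.2 h1) h
  rcases Nat.lt_or_ge (k + 1) ℓ with h3 | h3
  · rw [Nat.mod_eq_of_lt h3] at h2; omega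
  · have : k + 1 = ℓ := by omega
    rw [this, Nat.mod_self] at h2; omega

theorem nb_cyc {ℓ : ℕ} (hℓ : 3 ≤ ℓ) {z : ℕ → V} (hz : Set.InjOn z (Set.Iio ℓ)) {c : C} {k : ℕ}
    (hk : k < ℓ) :
    nb (cyc ℓ z c) (z k) = {z ((k + 1) % ℓ), z ((k + ℓ - 1) % ℓ)} := by
  ext u
  rw [mem_nb, inl_mem_cyc, Finset.mem_insert, Finset.mem_singleton]
  constructor
  · rintro ⟨j, hj, h⟩
    rw [Sym2.eq_iff] at h
    have hj1 : (j + 1) % ℓ < ℓ := Nat.mod_lt _ (by omega)
    rcases h with ⟨h1, h2⟩ | ⟨h1, h2⟩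
    · have := hz (Set.mem_Iio.2 hk) (Set.mem_Iio.2 hj) h1
      subst this
      exact Or.inl h2
    · have := hz (Set.mem_Iio.2 hk) (Set.mem_Iio.2 hj1) h1
      right
      rw [h2]
      congr 1
      rcases Nat.lt_or_ge (j + 1) ℓ with h3 | h3
      · rw [Nat.mod_eq_of_lt h3] at this
        subst this
        have : j + 1 + ℓ - 1 = j + ℓ := by omega
        rw [this, Nat.add_mod_right, Nat.mod_eq_of_lt hj]
      · have h4 : j + 1 = ℓ := by omega
        rw [h4, Nat.mod_self] at this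
        subst this
        rw [Nat.mod_eq_of_lt (by omega)]
        omega
  · rintro (rfl | rfl)
    · exact ⟨k, hk, rfl⟩
    · refine ⟨(k + ℓ - 1) % ℓ, Nat.mod_lt _ (by omega), ?_⟩
      rw [Sym2.eq_swap]
      congr 2
      rcases Nat.eq_zero_or_pos k with h0 | h0
      · subst h0
        rw [Nat.mod_eq_of_lt (show 0 + ℓ - 1 < ℓ by omega)]
        have : 0 + ℓ - 1 + 1 = ℓ := by omega
        rw [this, Nat.mod_self]
      · have h5 : k + ℓ - 1 = (k - 1) + ℓ := by omega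
        rw [h5, Nat.add_mod_right, Nat.mod_eq_of_lt (show k - 1 < ℓ by omega)]
        have : k - 1 + 1 = k := by omega
        rw [this, Nat.mod_eq_of_lt hk]

theorem nb_cyc_card {ℓ : ℕ} (hℓ : 3 ≤ ℓ) {z : ℕ → V} (hz : Set.InjOn z (Set.Iio ℓ)) {c : C} {k : ℕ}
    (hk : k < ℓ) : (nb (cyc ℓ z c) (z k)).card = 2 := by
  rw [nb_cyc hℓ hz hk, Finset.card_pair]
  intro h
  have h1 : (k + 1) % ℓ < ℓ := Nat.mod_lt _ (by omega)
  have h2 : (k + ℓ - 1) % ℓ < ℓ := Nat.mod_lt _ (by omega)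
  have h3 := hz (Set.mem_Iio.2 h1) (Set.mem_Iio.2 h2) h
  rcases Nat.eq_zero_or_pos k with h0 | h0
  · subst h0
    rw [Nat.mod_eq_of_lt (show 0 + 1 < ℓ by omega), Nat.mod_eq_of_lt (show 0 + ℓ - 1 < ℓ by omega)] at h3
    omega
  · have h5 : k + ℓ - 1 = (k - 1) + ℓ := by omega
    rw [h5, Nat.add_mod_right, Nat.mod_eq_of_lt (show k - 1 < ℓ by omega)] at h3
    rcases Nat.lt_or_ge (k + 1) ℓ with h6 | h6
    · rw [Nat.mod_eq_of_lt h6] at h3; omega
    · have : k + 1 = ℓ := by omega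
      rw [this, Nat.mod_self] at h3; omega

theorem nb_cyc_empty {ℓ : ℕ} (hℓ : 3 ≤ ℓ) {z : ℕ → V} {c : C} {v : V}
    (hv : ∀ k < ℓ, v ≠ z k) : nb (cyc ℓ z c) v = ∅ := by
  ext u
  rw [mem_nb, inl_mem_cyc]
  constructor
  · rintro ⟨j, hj, h⟩
    rw [Sym2.eq_iff] at h
    have hj1 : (j + 1) % ℓ < ℓ := Nat.mod_lt _ (by omega)
    rcases h with ⟨h1, h2⟩ | ⟨h1, h2⟩
    · exact absurd h1 (hv j hj)
    · exact absurd h1 (hv _ hj1)
  · intro h; simp at h

theorem IsPiece.three {ℓ : ℕ} {c : C} {p : Finset (Item V C)} (h : IsPiece ℓ c p) : 3 ≤ ℓ := h.1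

theorem isPiece_cyc {ℓ : ℕ} (hℓ : 3 ≤ ℓ) {z : ℕ → V} (hz : Set.InjOn z (Set.Iio ℓ)) (c : C) :
    IsPiece ℓ c (cyc ℓ z c) := ⟨hℓ, z, hz, rfl⟩

theorem IsPiece.vt_card {ℓ : ℕ} {c : C} {p : Finset (Item V C)} (h : IsPiece ℓ c p) :
    (vt p c).card = ℓ := by
  obtain ⟨hℓ, z, hz, rfl⟩ := h
  rw [vt_cyc, Finset.card_image_of_injOn, Finset.card_range]
  intro a ha b hb hab
  exact hz (by simpa using ha) (by simpa using hb) hab

theorem IsPiece.vt_ne {ℓ : ℕ} {c c' : C} {p : Finset (Item V C)} (h : IsPiece ℓ c p) (hc : c' ≠ c) :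
    vt p c' = ∅ := by
  obtain ⟨hℓ, z, hz, rfl⟩ := h
  exact vt_cyc_ne hc

/-- at every vertex a piece has 2 edges and 1 colour, or nothing -/
theorem IsPiece.bal {ℓ : ℕ} {c : C} {p : Finset (Item V C)} (h : IsPiece ℓ c p) (v : V) :
    (nb p v).card = 2 * (cl p v).card := by
  obtain ⟨hℓ, z, hz, rfl⟩ := h
  by_cases hv : ∃ k < ℓ, v = z k
  · obtain ⟨k, hk, rfl⟩ := hv
    rw [nb_cyc_card hℓ hz hk]
    have : cl (cyc ℓ z c) (z k) = {c} := by
      ext c'
      rw [mem_cl, inr_mem_cyc, Finset.mem_singleton]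
      exact ⟨fun h => h.1, fun h => ⟨h, k, hk, rfl⟩⟩
    rw [this]; rfl
  · push Not at hv
    rw [nb_cyc_empty hℓ hv]
    have : cl (cyc ℓ z c) v = ∅ := by
      ext c'
      rw [mem_cl, inr_mem_cyc]
      constructor
      · rintro ⟨_, k, hk, h⟩; exact absurd h (hv k hk)
      · intro h; simp at h
    rw [this]; rfl

theorem IsPiece.cl_card_le {ℓ : ℕ} {c : C} {p : Finset (Item V C)} (h : IsPiece ℓ c p) (v : V) :
    (cl p v).card ≤ 1 := by
  obtain ⟨hℓ, z, hz, rfl⟩ := h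
  have : cl (cyc ℓ z c) v ⊆ {c} := by
    intro c' hc'
    rw [mem_cl, inr_mem_cyc] at hc'
    rw [Finset.mem_singleton]; exact hc'.1
  exact (Finset.card_le_card this).trans (by simp)

theorem IsPiece.nb_card_le {ℓ : ℕ} {c : C} {p : Finset (Item V C)} (h : IsPiece ℓ c p) (v : V) :
    (nb p v).card ≤ 2 := by
  have h1 := h.bal v
  have h2 := h.cl_card_le v
  omega

theorem IsPiece.nonempty {ℓ : ℕ} {c : C} {p : Finset (Item V C)} (h : IsPiece ℓ c p) : p.Nonempty := by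
  obtain ⟨hℓ, z, hz, rfl⟩ := h
  exact ⟨Sum.inr (z 0, c), inr_mem_cyc.2 ⟨rfl, 0, by omega, rfl⟩⟩

theorem IsPiece.card_le {ℓ : ℕ} {c : C} {p : Finset (Item V C)} (h : IsPiece ℓ c p) :
    p.card ≤ 2 * ℓ := by
  obtain ⟨hℓ, z, hz, rfl⟩ := h
  unfold cyc
  refine (Finset.card_union_le _ _).trans ?_
  have h1 := Finset.card_image_le (s := Finset.range ℓ) (f := fun i => (Sum.inl s(z i, z ((i+1) % ℓ)) : Item V C))
  have h2 := Finset.card_image_le (s := Finset.range ℓ) (f := fun i => (Sum.inr (z i, c) : Item V C))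
  rw [Finset.card_range] at h1 h2
  omega

theorem IsPiece.uniq {ℓ ℓ' : ℕ} {c c' : C} {p : Finset (Item V C)} (h : IsPiece ℓ c p)
    (h' : IsPiece ℓ' c' p) : ℓ = ℓ' ∧ c = c' := by
  have hc : c = c' := by
    by_contra hne
    have h1 := h'.vt_card
    have h2 := h.vt_ne (c' := c') (fun e => hne e.symm)
    rw [h2] at h1
    have := h'.three
    simp at h1; omega
  subst hc
  exact ⟨h.vt_card.symm.trans h'.vt_card, rfl⟩

theorem IsPiece.colour {ℓ : ℕ} {c c' : C} {v : V} {p : Finset (Item V C)} (h : IsPiece ℓ c p)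
    (hi : (Sum.inr (v, c') : Item V C) ∈ p) : c' = c := by
  obtain ⟨hℓ, z, hz, rfl⟩ := h
  exact (inr_mem_cyc.1 hi).1

theorem IsPiece.ne {ℓ : ℕ} {c : C} {u v : V} {p : Finset (Item V C)} (h : IsPiece ℓ c p)
    (hi : (Sum.inl s(u, v) : Item V C) ∈ p) : u ≠ v := by
  obtain ⟨hℓ, z, hz, rfl⟩ := h
  obtain ⟨k, hk, hh⟩ := inl_mem_cyc.1 hi
  have := cyc_ne hℓ hz hk
  rw [Sym2.eq_iff] at hh
  rcases hh with ⟨rfl, rfl⟩ | ⟨rfl, rfl⟩
  · exact this
  · exact this.symm

/-- an edge of a piece has both of its ends coloured -/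
theorem IsPiece.ends {ℓ : ℕ} {c : C} {u v : V} {p : Finset (Item V C)} (h : IsPiece ℓ c p)
    (hi : (Sum.inl s(u, v) : Item V C) ∈ p) : (Sum.inr (u, c) : Item V C) ∈ p ∧ (Sum.inr (v, c) : Item V C) ∈ p := by
  obtain ⟨hℓ, z, hz, rfl⟩ := h
  obtain ⟨k, hk, hh⟩ := inl_mem_cyc.1 hi
  have hk1 : (k + 1) % ℓ < ℓ := Nat.mod_lt _ (by omega)
  rw [Sym2.eq_iff] at hh
  rcases hh with ⟨rfl, rfl⟩ | ⟨rfl, rfl⟩
  · exact ⟨inr_mem_cyc.2 ⟨rfl, k, hk, rfl⟩, inr_mem_cyc.2 ⟨rfl, _, hk1, rfl⟩⟩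
  · exact ⟨inr_mem_cyc.2 ⟨rfl, _, hk1, rfl⟩, inr_mem_cyc.2 ⟨rfl, k, hk, rfl⟩⟩

/-! families of pieces -/

theorem un_bal {F : Finset (Finset (Item V C))} (hF : PD F) (hp : ∀ p ∈ F, ∃ l c, IsPiece l c p) (v : V) :
    (nb (un F) v).card = 2 * (cl (un F) v).card := by
  rw [nb_un_card hF, cl_un_card hF, Finset.mul_sum]
  refine Finset.sum_congr rfl ?_
  intro p hpF
  obtain ⟨l, c, h⟩ := hp p hpF
  exact h.bal v

open scoped Classical in
theorem cnt_eq (F : Finset (Finset (Item V C))) (l : ℕ) (c : C) :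
    cnt F l c = (F.filter (fun p => IsPiece l c p)).card := by
  unfold cnt
  rfl

open scoped Classical in
theorem vt_un_card_cnt {F : Finset (Finset (Item V C))} (hF : PD F) {L : ℕ}
    (hp : ∀ p ∈ F, ∃ l ∈ Finset.Icc 3 L, ∃ c, IsPiece l c p) (c : C) :
    (vt (un F) c).card = ∑ l ∈ Finset.Icc 3 L, l * cnt F l c := by
  have h1 : (vt (un F) c).card = ∑ p ∈ F, ∑ l ∈ Finset.Icc 3 L, if IsPiece l c p then l else 0 := by
    rw [vt_un_card hF]
    refine Finset.sum_congr rfl ?_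
    intro p hpF
    obtain ⟨l, hl, c', h⟩ := hp p hpF
    by_cases hc : c' = c
    · subst hc
      rw [h.vt_card, Finset.sum_eq_single l]
      · rw [if_pos h]
      · intro l' _ hne
        rw [if_neg]
        intro h'
        exact hne (h'.uniq h).1
      · intro hl'; exact absurd hl hl'
    · rw [h.vt_ne (fun e => hc e.symm), Finset.card_empty, Finset.sum_eq_zero]
      intro l' _
      rw [if_neg]
      intro h'
      exact hc (h.uniq h').2
  rw [h1, Finset.sum_comm]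
  refine Finset.sum_congr rfl ?_
  intro l _
  rw [cnt_eq, Finset.card_filter, Finset.mul_sum]
  refine Finset.sum_congr rfl ?_
  intro p _
  split_ifs <;> simp

open scoped Classical in
theorem cnt_union {F G : Finset (Finset (Item V C))} (h : Disjoint (un F) (un G))
    (l : ℕ) (c : C) : cnt (F ∪ G) l c = cnt F l c + cnt G l c := by
  rw [cnt_eq, cnt_eq, cnt_eq, Finset.filter_union, Finset.card_union_of_disjoint]
  rw [Finset.disjoint_left]
  intro p hp hq
  rw [Finset.mem_filter] at hp hq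
  obtain ⟨i, hi⟩ := hp.2.nonempty
  rw [Finset.disjoint_left] at h
  exact h (subset_un hp.1 hi) (subset_un hq.1 hi)

theorem Inside.mono {U : Finset V} {D : Finset C} {S T : Finset (Item V C)} (h : Inside U D S) (hT : T ⊆ S) :
    Inside U D T := ⟨fun u v hi => h.1 u v (hT hi), fun v c hi => h.2 v c (hT hi)⟩

theorem Inside.nb_sub {U : Finset V} {D : Finset C} {S : Finset (Item V C)} (h : Inside U D S) (v : V) :
    nb S v ⊆ U := by
  intro u hu; rw [mem_nb] at hu; exact (h.1 _ _ hu).2.2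

theorem Inside.cl_sub {U : Finset V} {D : Finset C} {S : Finset (Item V C)} (h : Inside U D S) (v : V) :
    cl S v ⊆ D := by
  intro u hu; rw [mem_cl] at hu; exact (h.2 _ _ hu).2

theorem Inside.vt_sub {U : Finset V} {D : Finset C} {S : Finset (Item V C)} (h : Inside U D S) (c : C) :
    vt S c ⊆ U := by
  intro u hu; rw [mem_vt] at hu; exact (h.2 _ _ hu).1

theorem Inside.nb_out {U : Finset V} {D : Finset C} {S : Finset (Item V C)} (h : Inside U D S) {v : V}
    (hv : v ∉ U) : nb S v = ∅ := by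
  ext u; rw [mem_nb]
  constructor
  · intro hu; exact absurd (h.1 _ _ hu).2.1 hv
  · intro hu; simp at hu

theorem Inside.cl_out {U : Finset V} {D : Finset C} {S : Finset (Item V C)} (h : Inside U D S) {v : V}
    (hv : v ∉ U) : cl S v = ∅ := by
  ext u; rw [mem_cl]
  constructor
  · intro hu; exact absurd (h.2 _ _ hu).1 hv
  · intro hu; simp at hu

theorem Inside.vt_out {U : Finset V} {D : Finset C} {S : Finset (Item V C)} (h : Inside U D S) {c : C}
    (hc : c ∉ D) : vt S c = ∅ := by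
  ext u; rw [mem_vt]
  constructor
  · intro hu; exact absurd (h.2 _ _ hu).2 hc
  · intro hu; simp at hu

theorem Inside.not_self {U : Finset V} {D : Finset C} {S : Finset (Item V C)} (h : Inside U D S) (v : V) :
    v ∉ nb S v := by
  intro hv; rw [mem_nb] at hv; exact (h.1 _ _ hv).1 rfl

theorem Dec.empty (l : ℕ) : Dec l (∅ : Finset (Item V C)) :=
  ⟨∅, by simp, by intro p hp; simp at hp, by simp⟩

theorem Dec.union {l : ℕ} {S T : Finset (Item V C)} (hS : Dec l S) (hT : Dec l T) (h : Disjoint S T) :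
    Dec l (S ∪ T) := by
  obtain ⟨F, hF1, hF2, hF3⟩ := hS
  obtain ⟨G, hG1, hG2, hG3⟩ := hT
  refine ⟨F ∪ G, ?_, hF2.union hG2 (by rw [hF3, hG3]; exact h), by rw [un_union, hF3, hG3]⟩
  intro p hp
  rcases Finset.mem_union.1 hp with hp | hp
  · exact hF1 p hp
  · exact hG1 p hp

end

end Pool.Agent.OBW
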