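import Mathlib
import Pool.Agent.OBW.Defs

set_option autoImplicit false

/-!
OBW interface statements (each is a `Prop`; the parts prove them; the assembly uses them).
Order of the constants: ε, α, L  ≫  μ  ≫  η  ≫  p (reserve density)  ≫  θ, ζ, ξ  ≫  γ  ≫  1/m₀.
-/

namespace Pool.Agent.OBW

open Finset

/-! ### Tools -/

/-- HF: Hoeffding for product spaces with disjoint blocks. -/
def HfStmt : Prop :=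
  ∀ (Γ Ω I κ : Type) [Fintype Γ] [DecidableEq Γ] [Fintype Ω] [DecidableEq Ω] [Fintype I] [DecidableEq κ]
    (p : Γ → Ω → ℝ) (Js : I → Finset κ) (B : I → κ → Finset Γ) (f : I → κ → (Γ → Ω) → ℝ) (M ξ : ℝ),
    (∀ g a, 0 ≤ p g a) → (∀ g, ∑ a, p g a = 1) →
    (∀ i, ∀ j ∈ Js i, ∀ j' ∈ Js i, j ≠ j' → Disjoint (B i j) (B i j')) →
    (∀ i, ∀ j ∈ Js i, ∀ ω ω' : Γ → Ω, (∀ g ∈ B i j, ω g = ω' g) → f i j ω = f i j ω') →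
    (∀ i j ω, 0 ≤ f i j ω ∧ f i j ω ≤ 1) →
    (∀ i, ((Js i).card : ℝ) ≤ M) → 0 < M → 0 < ξ →
    2 * (Fintype.card I : ℝ) * Real.exp (-(ξ ^ 2 * M / 2)) < 1 →
    ∃ ω : Γ → Ω, (∀ g, 0 < p g (ω g)) ∧
      ∀ i, |∑ j ∈ Js i, f i j ω - ∑ j ∈ Js i, ∑ ω' : Γ → Ω, (∏ g, p g (ω' g)) * f i j ω'| ≤ ξ * M

/-- RS: random subset with independent inclusion probabilities `q`, tests counting disjoint blocks. -/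
def RsStmt : Prop :=
  ∀ (Ω I κ : Type) [Fintype Ω] [DecidableEq Ω] [Fintype I] [DecidableEq κ]
    (q : Ω → ℝ) (Js : I → Finset κ) (B : I → κ → Finset Ω) (M ξ : ℝ),
    (∀ a, 0 ≤ q a ∧ q a ≤ 1) →
    (∀ i, ∀ j ∈ Js i, ∀ j' ∈ Js i, j ≠ j' → Disjoint (B i j) (B i j')) →
    (∀ i, ((Js i).card : ℝ) ≤ M) → 0 < M → 0 < ξ →
    2 * (Fintype.card I : ℝ) * Real.exp (-(ξ ^ 2 * M / 2)) < 1 →
    ∃ S : Finset Ω, (∀ a ∈ S, 0 < q a) ∧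
      ∀ i, |(((Js i).filter (fun j => B i j ⊆ S)).card : ℝ) - ∑ j ∈ Js i, ∏ a ∈ B i j, q a| ≤ ξ * M

/-- PART: exact equipartition of `W` (`|W| = l k`) into `l` classes of size `k`, with test sets. -/
def PartStmt : Prop :=
  ∀ (V I : Type) [DecidableEq V] [Fintype I] (W : Finset V) (l k : ℕ) (T : I → Finset V) (ξ : ℝ),
    0 < l → 0 < k → W.card = l * k → 0 < ξ →
    2 * (l : ℝ) * (Fintype.card I : ℝ) * Real.exp (-(ξ ^ 2 * k / 2)) < 1 →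
    ∃ f : V → ℕ, (∀ v ∈ W, f v < l) ∧ (∀ a < l, (W.filter (fun v => f v = a)).card = k) ∧
      ∀ i, ∀ a < l, |((W.filter (fun v => f v = a ∧ v ∈ T i)).card : ℝ) - ((W ∩ T i).card : ℝ) / l| ≤ ξ * k

/-- SUB: subset `W'` of `W` of exact size `⌊|W|/g⌋`, with test sets. -/
def SubStmt : Prop :=
  ∀ (V I : Type) [DecidableEq V] [Fintype I] (W : Finset V) (g : ℕ) (T : I → Finset V) (ξ : ℝ),
    0 < g → 0 < ξ → (g : ℝ) / ξ ≤ ((W.card / g : ℕ) : ℝ) →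
    2 * (Fintype.card I : ℝ) * Real.exp (-(ξ ^ 2 * ((W.card / g : ℕ) : ℝ) / 2)) < 1 →
    ∃ W' : Finset V, W' ⊆ W ∧ W'.card = W.card / g ∧
      ∀ i, |((W' ∩ T i).card : ℝ) - ((W ∩ T i).card : ℝ) / g| ≤ 2 * ξ * W'.card

/-- AGL: average greedy. `acc i` is the (state dependent) accumulated average of `load i`. -/
def AglStmt : Prop :=
  ∀ (σ I : Type) [Fintype I] (T : ℕ) (Inv : ℕ → σ → Prop) (load acc : I → σ → ℝ) (B : I → ℝ) (s₀ : σ),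
    Inv 0 s₀ → (∀ i, load i s₀ = 0) → (∀ i, acc i s₀ = 0) →
    (∀ τ ≤ T, ∀ s, Inv τ s → ∀ i, Real.log (Fintype.card I) + 2 * acc i s ≤ B i) →
    (∀ τ < T, ∀ s, Inv τ s → (∀ i, load i s ≤ B i) →
      ∃ (n : ℕ) (o : Fin n → σ) (q : I → ℝ), 0 < n ∧ (∀ a, Inv (τ + 1) (o a)) ∧
        (∀ a i, 0 ≤ load i (o a) - load i s ∧ load i (o a) - load i s ≤ 1) ∧
        (∀ i, ∑ a, (load i (o a) - load i s) ≤ q i * n) ∧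
        (∀ a i, q i ≤ acc i (o a) - acc i s)) →
    ∃ s, Inv T s ∧ ∀ i, load i s ≤ B i

/-- PM: a bipartite graph on `k + k` vertices with min degree `≥ (1/2+ε) k` has `≥ ε k`
edge-disjoint perfect matchings. -/
def PmStmt : Prop :=
  ∀ (α β : Type) [DecidableEq α] [DecidableEq β] (A : Finset α) (B : Finset β) (R : α → β → Prop)
    [DecidableRel R] (k : ℕ) (ε : ℝ), 0 < ε → A.card = k → B.card = k →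
    (∀ a ∈ A, (1/2 + ε) * (k : ℝ) ≤ ((B.filter (fun b => R a b)).card : ℝ)) →
    (∀ b ∈ B, (1/2 + ε) * (k : ℝ) ≤ ((A.filter (fun a => R a b)).card : ℝ)) →
    ∃ (n : ℕ) (f : Fin n → α → β), ε * k ≤ n ∧ (∀ i, ∀ a ∈ A, f i a ∈ B ∧ R a (f i a)) ∧
      (∀ i, Set.InjOn (f i) A) ∧ (∀ i j, ∀ a ∈ A, i ≠ j → f i a ≠ f j a)

/-! ### N: nibble with tests -/

/-- NIB -/
def NibStmt : Prop :=
  ∀ (k : ℕ) (γ A : ℝ), 0 < γ → ∃ δ₀ : ℝ, 0 < δ₀ ∧ ∀ δ : ℝ, 0 < δ → δ ≤ δ₀ →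
    ∀ (ι J Θ : Type) [Fintype ι] [DecidableEq ι] [Fintype J] [DecidableEq J] [Fintype Θ]
      (E : J → Finset ι) (w : J → ℝ) (t : Θ → ι → ℝ),
      (∀ j, (E j).Nonempty ∧ (E j).card ≤ k) → (∀ j, 0 ≤ w j) →
      (∀ x, ∑ j with x ∈ E j, w j ≤ 1) →
      (∀ x y, x ≠ y → ∑ j with (x ∈ E j ∧ y ∈ E j), w j ≤ δ) →
      (Fintype.card ι : ℝ) ≤ δ ^ (-A) → (Fintype.card Θ : ℝ) ≤ δ ^ (-A) →
      (∀ θ x, 0 ≤ t θ x ∧ t θ x ≤ 1) →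
      ∃ M : Finset J, (∀ j ∈ M, 0 < w j) ∧
        (∀ i ∈ M, ∀ j ∈ M, i ≠ j → Disjoint (E i) (E j)) ∧
        ∀ θ, ∑ x with (∀ j ∈ M, x ∉ E j), t θ x ≤
          ∑ x, t θ x * (1 - ∑ j with x ∈ E j, w j) + γ * (∑ x, t θ x + δ ^ (-(1/2) : ℝ))

/-! ### F: fractional mixtures -/

/-- total weight of the item set `p` -/
noncomputable def tot {V C : Type} (L ls : ℕ) (N : ℕ → ℕ) (W : ℕ → Finset (Item V C) → ℝ)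
    (p : Finset (Item V C)) : ℝ :=
  W ls p + ∑ l ∈ (Icc 3 L).erase ls, (N l : ℝ) * W l p

open scoped Classical in
/-- MIX -/
def MixStmt : Prop :=
  ∀ (ε α : ℝ), 0 < ε → 0 < α → ∃ η₀ : ℝ, 0 < η₀ ∧ ∀ L : ℕ,
    ∃ β₀ K : ℝ, 0 < β₀ ∧ 0 < K ∧ ∃ m₀ : ℕ,
    ∀ (V C : Type) [Fintype V] [DecidableEq V] [Fintype C] [DecidableEq C]
      (U : Finset V) (D : Finset C) (S : Finset (Item V C)) (β : ℝ) (ls : ℕ) (N : ℕ → ℕ),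
      m₀ ≤ U.card → Inside U D S →
      (3/8 + ε) * (U.card : ℝ) ≤ D.card → D.card ≤ U.card →
      (∀ v ∈ U, ((D \ cl S v).card : ℝ) ≤ η₀ * U.card) →
      (∀ c ∈ D, ((U \ vt S c).card : ℝ) ≤ η₀ * U.card) →
      0 ≤ β → β ≤ β₀ →
      (∀ v ∈ U, |((nb S v).card : ℝ) - 2 * ((cl S v).card : ℝ)| ≤ β * U.card) →
      3 ≤ ls → ls ≤ L →
      (∑ l ∈ (Icc 3 L).erase ls, (l : ℝ) * (N l : ℝ) ≤ (1 - α) * U.card) →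
      ∃ W : ℕ → Finset (Item V C) → ℝ,
        (∀ l p, 0 ≤ W l p) ∧
        (∀ l p, W l p ≠ 0 → l ∈ Icc 3 L ∧ p ⊆ S ∧ ∃ c ∈ D, IsPiece l c p) ∧
        (∀ l ∈ (Icc 3 L).erase ls, ∀ c ∈ D, ∑ p with IsPiece l c p, W l p = 1) ∧
        (∀ i ∈ S, 1 - K * (β + 1 / U.card) ≤ ∑ p with i ∈ p, tot L ls N W p ∧
          ∑ p with i ∈ p, tot L ls N W p ≤ 1) ∧
        (∀ i j, i ≠ j → ∑ p with (i ∈ p ∧ j ∈ p), tot L ls N W p ≤ K / U.card) ∧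
        (∀ l ∈ (Icc 3 L).erase ls, ∀ c ∈ D, ∀ i, ∑ p with (i ∈ p ∧ IsPiece l c p), W l p ≤ K / U.card)

/-- APPROX: approximate decomposition (= MIX + NIB), with small leftover at every vertex and colour. -/
def ApproxStmt : Prop :=
  ∀ (ε α : ℝ), 0 < ε → 0 < α → ∃ η₀ : ℝ, 0 < η₀ ∧ ∀ (L : ℕ) (γ : ℝ), 0 < γ → ∃ β₀ : ℝ, 0 < β₀ ∧ ∃ m₀ : ℕ,
    ∀ (V C : Type) [Fintype V] [DecidableEq V] [Fintype C] [DecidableEq C]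
      (U : Finset V) (D : Finset C) (S : Finset (Item V C)) (ls : ℕ) (N : ℕ → ℕ),
      m₀ ≤ U.card → Inside U D S →
      (3/8 + ε) * (U.card : ℝ) ≤ D.card → D.card ≤ U.card →
      (∀ v ∈ U, ((D \ cl S v).card : ℝ) ≤ η₀ * U.card) →
      (∀ c ∈ D, ((U \ vt S c).card : ℝ) ≤ η₀ * U.card) →
      (∀ v ∈ U, |((nb S v).card : ℝ) - 2 * ((cl S v).card : ℝ)| ≤ β₀ * U.card) →
      3 ≤ ls → ls ≤ L →
      (∑ l ∈ (Icc 3 L).erase ls, (l : ℝ) * (N l : ℝ) ≤ (1 - α) * U.card) →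
      ∃ F : Finset (Finset (Item V C)),
        (∀ p ∈ F, p ⊆ S ∧ ∃ l ∈ Icc 3 L, ∃ c ∈ D, IsPiece l c p) ∧ PD F ∧
        (∀ c ∈ D, ∀ l ∈ (Icc 3 L).erase ls, cnt F l c ≤ N l ∧ (N l : ℝ) ≤ cnt F l c + γ * U.card) ∧
        (∀ v ∈ U, ((nb (S \ un F) v).card : ℝ) ≤ γ * U.card ∧ ((cl (S \ un F) v).card : ℝ) ≤ γ * U.card) ∧
        (∀ c ∈ D, ((vt (S \ un F) c).card : ℝ) ≤ γ * U.card)

/-! ### A: absorbers -/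

/-- ABS: one absorbing set `R` for all balanced systems inside the constant-size `(U, CJ)`. -/
def AbsStmt : Prop :=
  ∀ (ε : ℝ) (l M : ℕ), 0 < ε → 3 ≤ l → ∃ n₀ B : ℕ,
    ∀ (V C : Type) [Fintype V] [DecidableEq V] [Fintype C] [DecidableEq C]
      (G : SimpleGraph V) [DecidableRel G.Adj] (U₁ U : Finset V) (C₁ CJ : Finset C),
      n₀ ≤ Fintype.card V →
      (∀ v, (3/4 + ε) * (Fintype.card V : ℝ) ≤ ((univ.filter (fun u => G.Adj v u)).card : ℝ)) →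
      (U₁.card : ℝ) ≤ ε * Fintype.card V →
      (Fintype.card V : ℝ) / 4 ≤ ((univ \ C₁ : Finset C).card : ℝ) →
      U ⊆ U₁ → CJ ⊆ C₁ → U.card ≤ M → CJ.card ≤ M →
      ∃ R : Finset (Item V C), R.card ≤ B ∧
        (∀ u v, (Sum.inl s(u, v) : Item V C) ∈ R → G.Adj u v ∧ ¬ (u ∈ U₁ ∧ v ∈ U₁)) ∧
        (∀ v c, (Sum.inr (v, c) : Item V C) ∈ R → ¬ (v ∈ U₁ ∧ c ∈ C₁)) ∧
        (∀ Lo : Finset (Item V C), Inside U CJ Lo → Bal l Lo →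
          (∀ u v, (Sum.inl s(u, v) : Item V C) ∈ Lo → G.Adj u v) → Dec l (R ∪ Lo))

/-! ### C: cover down -/

/-- Input of one stage of the vortex. -/
structure Stage {V C : Type} [Fintype V] [DecidableEq V] [Fintype C] [DecidableEq C]
    (δ ε η ξ μ : ℝ) (U U' : Finset V) (D D' : Finset C) (S : Finset (Item V C)) : Prop where
  subU : U' ⊆ U
  subD : D' ⊆ D
  ins : Inside U D S
  δlo : 3/8 + ε ≤ δ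
  δhi : δ ≤ 1/2
  dD : |(D.card : ℝ) - δ * U.card| ≤ 1
  dD' : |(D'.card : ℝ) - δ * U'.card| ≤ 1
  Ulo : μ * U.card - 1 ≤ U'.card
  Uhi : (U'.card : ℝ) ≤ μ * U.card
  missV : ∀ v ∈ U, ((D \ cl S v).card : ℝ) ≤ η * U.card
  missV' : ∀ v ∈ U, ((D' \ cl S v).card : ℝ) ≤ η * U'.card
  missC : ∀ c ∈ D, ((U \ vt S c).card : ℝ) ≤ η * U.card
  missC' : ∀ c ∈ D, ((U' \ vt S c).card : ℝ) ≤ η * U'.card
  degU' : ∀ v ∈ U, (3/4 + ε) * (U'.card : ℝ) ≤ ((nb S v ∩ U').card : ℝ)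
  comp : ∀ v ∈ U', ∀ c ∈ D', (Sum.inr (v, c) : Item V C) ∈ S
  reg : ∀ v ∈ U', |((nb S v ∩ U').card : ℝ) - 2 * (D'.card : ℝ)| ≤ ξ * U'.card

/-- CDL: cover down lemma. -/
def CdlStmt : Prop :=
  ∀ (ε α : ℝ) (L : ℕ), 0 < ε → 0 < α → ∃ μ₀ : ℝ, 0 < μ₀ ∧ ∀ μ : ℝ, 0 < μ → μ ≤ μ₀ →
    ∃ η₀ : ℝ, 0 < η₀ ∧ ∀ η : ℝ, 0 < η → η ≤ η₀ → ∃ ξ : ℝ, 0 < ξ ∧ ∃ m₀ : ℕ,
    ∀ (V C : Type) [Fintype V] [DecidableEq V] [Fintype C] [DecidableEq C]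
      (δ : ℝ) (U U' U'' : Finset V) (D D' D'' : Finset C) (S : Finset (Item V C)) (ls : ℕ) (N : ℕ → ℕ),
      m₀ ≤ U.card → Stage δ ε η ξ μ U U' D D' S → (∀ v, (nb S v).card = 2 * (cl S v).card) →
      U'' ⊆ U' → D'' ⊆ D' → (U''.card : ℝ) ≤ μ * U'.card → (D''.card : ℝ) ≤ μ * U'.card →
      3 ≤ ls → ls ≤ L →
      (∑ l ∈ (Icc 3 L).erase ls, (l : ℝ) * (N l : ℝ) ≤ (1 - α) * U.card) →
      (∀ c ∈ D, ∃ k : ℕ, (vt S c).card = ls * k + ∑ l ∈ (Icc 3 L).erase ls, l * N l) →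
      ∃ F : Finset (Finset (Item V C)),
        (∀ p ∈ F, p ⊆ S ∧ ∃ l ∈ Icc 3 L, ∃ c ∈ D, IsPiece l c p) ∧ PD F ∧
        (∀ c ∈ D, ∀ l ∈ (Icc 3 L).erase ls, cnt F l c = N l) ∧
        Inside U' D' (S \ un F) ∧
        (∀ v ∈ U', ((nb (un F) v ∩ U').card : ℝ) ≤ η * μ * U'.card / 2) ∧
        (∀ v ∈ U', ((cl (un F) v ∩ D').card : ℝ) ≤ η * μ * U'.card / 2) ∧
        (∀ c ∈ D', ((vt (un F) c ∩ U').card : ℝ) ≤ η * μ * U'.card / 2) ∧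
        (∀ u ∈ U'', ∀ v ∈ U'', (Sum.inl s(u, v) : Item V C) ∉ un F) ∧
        (∀ u ∈ U'', ∀ c ∈ D'', (Sum.inr (u, c) : Item V C) ∉ un F)

/-- Reserves: random-like reserve `R` of density `p`; error `ζ`. -/
structure Res {V C : Type} [Fintype V] [DecidableEq V] [Fintype C] [DecidableEq C]
    (p ζ μ : ℝ) (U U' U'' : Finset V) (D D' D'' : Finset C) (S R : Finset (Item V C)) : Prop where
  sub : R ⊆ S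
  kE : ∀ u v, (Sum.inl s(u, v) : Item V C) ∈ R → (u ∈ U' ∧ v ∉ U') ∨ (v ∈ U' ∧ u ∉ U')
  kP : ∀ v c, (Sum.inr (v, c) : Item V C) ∈ R → (v ∉ U' ∧ c ∈ D') ∨ (v ∈ U' ∧ c ∉ D')
  bx : ∀ x ∈ U \ U', |((nb R x).card : ℝ) - 2 * ((cl R x).card : ℝ)| ≤ ζ * U'.card
  nx : ∀ x ∈ U \ U', |((nb R x).card : ℝ) - p * ((nb S x ∩ U').card : ℝ)| ≤ ζ * U'.card
  wc : ∀ c ∈ D \ D', |((vt R c).card : ℝ) - p * ((vt S c ∩ U').card : ℝ)| ≤ ζ * U'.card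
  nu : ∀ u ∈ U', |((nb R u).card : ℝ) - p * ((nb S u \ U').card : ℝ)| ≤ ζ * U.card
  cu : ∀ u ∈ U', |((cl R u).card : ℝ) - p * ((cl S u \ D').card : ℝ)| ≤ ζ * U.card
  xc : ∀ c ∈ D', ((vt R c).card : ℝ) ≤ 2 * p * U.card
  nn : ∀ x ∈ U \ U', ∀ y ∈ U \ U', x ≠ y →
    p ^ 2 / 3 * (U'.card : ℝ) ≤ (((nb R x ∩ nb R y) \ U'').card : ℝ) ∧
    ((nb R x ∩ nb R y).card : ℝ) ≤ 2 * p ^ 2 * U'.card
  cc : ∀ x ∈ U \ U', ∀ y ∈ U \ U', x ≠ y →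
    p ^ 2 / 8 * (U'.card : ℝ) ≤ ((cl R x ∩ cl R y).card : ℝ) ∧
    ((cl R x ∩ cl R y).card : ℝ) ≤ 2 * p ^ 2 * U'.card
  ww : ∀ c ∈ D \ D', ∀ c' ∈ D \ D', c ≠ c' → ((vt R c ∩ vt R c').card : ℝ) ≤ 2 * p ^ 2 * U'.card
  nw : ∀ x ∈ U \ U', ∀ c ∈ D \ D', ((nb R x ∩ vt R c).card : ℝ) ≤ 2 * p ^ 2 * U'.card
  uw : ∀ u ∈ U', ∀ c ∈ D \ D',
    p * ((nb S u ∩ vt S c ∩ U').card : ℝ) - ζ * U'.card ≤ ((nb S u ∩ vt R c).card : ℝ)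
  un : ∀ u ∈ U', ∀ x ∈ U \ U',
    p * ((nb S u ∩ nb S x ∩ U').card : ℝ) - ζ * U'.card ≤ ((nb S u ∩ nb R x).card : ℝ)
  n2 : ∀ x ∈ U \ U', ((nb R x ∩ U'').card : ℝ) ≤ 2 * μ * p * U'.card
  w2 : ∀ c ∈ D \ D', ((vt R c ∩ U'').card : ℝ) ≤ 2 * μ * p * U'.card
  c2 : ∀ x ∈ U \ U', ((cl R x ∩ D'').card : ℝ) ≤ 2 * μ * p * U'.card
  unw : ∀ u ∈ U', ∀ x ∈ U \ U', ∀ c ∈ D \ D',
    p ^ 2 / 4 * (U'.card : ℝ) ≤ (((nb S u ∩ nb R x ∩ vt R c) \ U'').card : ℝ)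
  uuw : ∀ u ∈ U', ∀ v ∈ U', ∀ c ∈ D \ D',
    p / 4 * (U'.card : ℝ) ≤ (((nb S u ∩ nb S v ∩ vt R c) \ U'').card : ℝ)

/-- RES: existence of the reserves. -/
def ResStmt : Prop :=
  ∀ ε : ℝ, 0 < ε → ∃ μ₀ : ℝ, 0 < μ₀ ∧ ∀ μ : ℝ, 0 < μ → μ ≤ μ₀ →
    ∀ η : ℝ, 0 < η → η ≤ μ₀ → ∀ p : ℝ, 0 < p → p ≤ 1/4 → ∀ ζ : ℝ, 0 < ζ → ∃ m₀ : ℕ,
    ∀ (V C : Type) [Fintype V] [DecidableEq V] [Fintype C] [DecidableEq C]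
      (δ ξ : ℝ) (U U' U'' : Finset V) (D D' D'' : Finset C) (S : Finset (Item V C)),
      m₀ ≤ U.card → Stage δ ε η ξ μ U U' D D' S →
      U'' ⊆ U' → D'' ⊆ D' → (U''.card : ℝ) ≤ μ * U'.card → (D''.card : ℝ) ≤ μ * U'.card →
      ∃ R : Finset (Item V C), Res p ζ μ U U' U'' D D' D'' S R

/-- items inside `(U', D')` that the greedy step may use -/
def insOK {V C : Type} [Fintype V] [DecidableEq V] [Fintype C] [DecidableEq C]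
    (U' U'' : Finset V) (D' : Finset C) (S : Finset (Item V C)) (i : Item V C) : Prop :=
  i ∈ S ∧ ((∃ u ∈ U', ∃ v ∈ U' \ U'', i = Sum.inl s(u, v)) ∨ (∃ u ∈ U' \ U'', ∃ c ∈ D', i = Sum.inr (u, c)))

/-- GRD: greedy steps S0, S1, S2. -/
def GrdStmt : Prop :=
  ∀ (ε : ℝ) (L : ℕ), 0 < ε → ∃ μ₀ : ℝ, 0 < μ₀ ∧ ∀ μ : ℝ, 0 < μ → μ ≤ μ₀ →
    ∀ η : ℝ, 0 < η → η ≤ μ₀ → ∀ p : ℝ, 0 < p → p ≤ 1/4 → ∀ θ : ℝ, 0 < θ →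
    ∃ γ : ℝ, 0 < γ ∧ ∃ m₀ : ℕ,
    ∀ (V C : Type) [Fintype V] [DecidableEq V] [Fintype C] [DecidableEq C]
      (δ ξ ζ : ℝ) (U U' U'' : Finset V) (D D' D'' : Finset C) (S R Lo : Finset (Item V C))
      (ls : ℕ) (s : C → ℕ → ℕ),
      m₀ ≤ U.card → Stage δ ε η ξ μ U U' D D' S →
      U'' ⊆ U' → D'' ⊆ D' → (U''.card : ℝ) ≤ μ * U'.card → (D''.card : ℝ) ≤ μ * U'.card →
      Res p ζ μ U U' U'' D D' D'' S R → 0 ≤ ζ → ζ ≤ p / 100 → 3 ≤ ls → ls ≤ L →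
      Lo ⊆ S → Disjoint Lo R →
      (∀ v ∈ U, ((nb Lo v).card : ℝ) ≤ γ * U.card ∧ ((cl Lo v).card : ℝ) ≤ γ * U.card) →
      (∀ c ∈ D, ((vt Lo c).card : ℝ) ≤ γ * U.card) →
      (∀ u v, (Sum.inl s(u, v) : Item V C) ∈ Lo → ¬ (u ∈ U' ∧ v ∈ U')) →
      (∀ v c, (Sum.inr (v, c) : Item V C) ∈ Lo → ¬ (v ∈ U' ∧ c ∈ D')) →
      (∀ c l, (s c l : ℝ) ≤ γ * U.card) →
      ∃ F : Finset (Finset (Item V C)),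
        (∀ q ∈ F, (∀ i ∈ q, i ∈ Lo ∨ i ∈ R ∨ insOK U' U'' D' S i) ∧
          ∃ l ∈ Icc 3 L, ∃ c ∈ D, IsPiece l c q) ∧ PD F ∧
        (∀ x ∈ U \ U', ∀ y ∈ U \ U', (Sum.inl s(x, y) : Item V C) ∈ Lo → Sum.inl s(x, y) ∈ un F) ∧
        (∀ x ∈ U \ U', ∀ c ∈ D \ D', (Sum.inr (x, c) : Item V C) ∈ Lo → Sum.inr (x, c) ∈ un F) ∧
        (∀ c ∈ D, ∀ l ∈ (Icc 3 L).erase ls, cnt F l c = s c l) ∧
        (∀ q ∈ F, ∀ l ∈ (Icc 3 L).erase ls, ∀ c, IsPiece l c q →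
          (∀ u v, (Sum.inl s(u, v) : Item V C) ∈ q → u ∈ U' ∧ v ∈ U') ∧
          (∀ v c', (Sum.inr (v, c') : Item V C) ∈ q → v ∈ U')) ∧
        (4 ≤ ls → ∀ q ∈ F, ∃ u ∈ U', ∃ v ∈ U', (Sum.inl s(u, v) : Item V C) ∈ q) ∧
        (∀ v ∈ U, ((nb (un F) v).card : ℝ) ≤ θ * U.card ∧ ((cl (un F) v).card : ℝ) ≤ θ * U.card) ∧
        (∀ c ∈ D, ((vt (un F) c).card : ℝ) ≤ θ * U.card)

/-- Hypotheses of LINK (`T` = current system: everything except uncovered reserves and few leftovers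
is inside `(U', D')`). -/
structure LinkHyp {V C : Type} [Fintype V] [DecidableEq V] [Fintype C] [DecidableEq C]
    (p ε μ : ℝ) (ls : ℕ) (U U' U'' : Finset V) (D D' D'' : Finset C) (T : Finset (Item V C)) : Prop where
  subU : U' ⊆ U
  subD : D' ⊆ D
  subU'' : U'' ⊆ U'
  subD'' : D'' ⊆ D'
  Ulo : μ * U.card - 1 ≤ U'.card
  Dhi : D.card ≤ U.card
  ins : Inside U D T
  eX : ∀ x ∈ U \ U', ∀ y ∈ U \ U', (Sum.inl s(x, y) : Item V C) ∉ T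
  cX : ∀ x ∈ U \ U', ∀ c ∈ D \ D', (Sum.inr (x, c) : Item V C) ∉ T
  nx : ∀ x ∈ U \ U', p / 4 * (U'.card : ℝ) ≤ ((nb T x).card : ℝ) ∧ ((nb T x).card : ℝ) ≤ 2 * p * U'.card
  wc : ∀ c ∈ D \ D', p / 4 * (U'.card : ℝ) ≤ ((vt T c).card : ℝ) ∧ ((vt T c).card : ℝ) ≤ 2 * p * U'.card
  nu : ∀ u ∈ U', ((nb T u \ U').card : ℝ) ≤ 2 * p * U.card
  cu : ∀ u ∈ U', ((cl T u \ D').card : ℝ) ≤ 2 * p * U.card
  xc : ∀ c ∈ D', ((vt T c \ U').card : ℝ) ≤ 3 * p * U.card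
  nn : ∀ x ∈ U \ U', ∀ y ∈ U \ U', x ≠ y → ((nb T x ∩ nb T y).card : ℝ) ≤ 3 * p ^ 2 * U'.card
  cc : ∀ x ∈ U \ U', ∀ y ∈ U \ U', x ≠ y → ((cl T x ∩ cl T y).card : ℝ) ≤ 3 * p ^ 2 * U'.card
  ww : ∀ c ∈ D \ D', ∀ c' ∈ D \ D', c ≠ c' → ((vt T c ∩ vt T c').card : ℝ) ≤ 3 * p ^ 2 * U'.card
  nw : ∀ x ∈ U \ U', ∀ c ∈ D \ D', ((nb T x ∩ vt T c).card : ℝ) ≤ 3 * p ^ 2 * U'.card
  uw : ∀ u ∈ U', ∀ c ∈ D \ D',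
    (3/4 + ε) * ((vt T c).card : ℝ) ≤ (((nb T u ∩ vt T c) \ U'').card : ℝ)
  un : ∀ u ∈ U', ∀ x ∈ U \ U',
    (13/20 : ℝ) * ((nb T x).card : ℝ) ≤ (((nb T u ∩ nb T x) \ U'').card : ℝ)
  uc : ∀ u ∈ U', ∀ x ∈ U \ U',
    (((cl T x).filter (fun c => (Sum.inr (u, c) : Item V C) ∉ T ∨ (u ∈ U'' ∧ c ∈ D''))).card : ℝ)
      ≤ (1/100 : ℝ) * ((cl T x).card : ℝ)
  cn : ∀ c ∈ D', ∀ x ∈ U \ U',
    (((nb T x).filter (fun u => (Sum.inr (u, c) : Item V C) ∉ T ∨ (u ∈ U'' ∧ c ∈ D''))).card : ℝ)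
      ≤ (1/100 : ℝ) * ((nb T x).card : ℝ)
  uu : ∀ u ∈ U', ∀ v ∈ U', (U'.card : ℝ) / 2 ≤ (((nb T u ∩ nb T v ∩ U') \ U'').card : ℝ)
  cU : ∀ c ∈ D', ((U' \ vt T c).card : ℝ) ≤ (U'.card : ℝ) / 100
  bx : ∀ x ∈ U \ U', (nb T x).card = 2 * (cl T x).card
  dv : ∀ c ∈ D \ D', ls ∣ (vt T c).card

/-- LINK: steps S3, S4. -/
def LinkStmt : Prop :=
  ∀ (ε : ℝ) (ls : ℕ), 0 < ε → 3 ≤ ls → ∃ K : ℝ, 0 < K ∧ ∀ μ : ℝ, 0 < μ → μ ≤ 1 →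
    ∃ p₀ : ℝ, 0 < p₀ ∧ ∀ p : ℝ, 0 < p → p ≤ p₀ → ∃ m₀ : ℕ,
    ∀ (V C : Type) [Fintype V] [DecidableEq V] [Fintype C] [DecidableEq C]
      (U U' U'' : Finset V) (D D' D'' : Finset C) (T : Finset (Item V C)),
      m₀ ≤ U.card → LinkHyp p ε μ ls U U' U'' D D' D'' T →
      ∃ F : Finset (Finset (Item V C)),
        (∀ q ∈ F, q ⊆ T ∧ ∃ c ∈ D, IsPiece ls c q) ∧ PD F ∧
        Inside U' D' (T \ un F) ∧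
        (∀ u ∈ U', ((nb (un F) u ∩ U').card : ℝ) ≤ K * p * U.card) ∧
        (∀ u ∈ U', ((cl (un F) u ∩ D').card : ℝ) ≤ K * p * U.card) ∧
        (∀ c ∈ D', ((vt (un F) c ∩ U').card : ℝ) ≤ K * p * U.card) ∧
        (∀ u ∈ U'', ∀ v ∈ U'', (Sum.inl s(u, v) : Item V C) ∉ un F) ∧
        (∀ u ∈ U'', ∀ c ∈ D'', (Sum.inr (u, c) : Item V C) ∉ un F)

/-! ### Main theorem (milestone 1) -/

/-- M1 in item form. -/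
def ItemMain : Prop :=
  ∀ (ε : ℝ) (L : ℕ), 0 < ε → ∃ n₀ : ℕ,
    ∀ (V C : Type) [Fintype V] [DecidableEq V] [Fintype C] [DecidableEq C]
      (G : SimpleGraph V) (N : ℕ → ℕ),
      n₀ ≤ Fintype.card V →
      (∀ v, Nat.card (G.neighborSet v) = 2 * Fintype.card C) →
      (3/8 + ε) * (Fintype.card V : ℝ) ≤ Fintype.card C →
      (∑ l ∈ Icc 3 L, l * N l = Fintype.card V) →
      ∃ F : Finset (Finset (Item V C)),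
        (∀ p ∈ F, ∃ l ∈ Icc 3 L, ∃ c, IsPiece l c p) ∧ PD F ∧ un F = full C G ∧
        (∀ c, ∀ l ∈ Icc 3 L, cnt F l c = N l)

/-- M1. -/
def M1Stmt : Prop :=
  ∀ (ε : ℝ) (L : ℕ), 0 < ε → ∃ n₀ : ℕ, ∀ n : ℕ, n₀ ≤ n →
    ∀ (F G : SimpleGraph (Fin n)) (d : ℕ),
      (∀ v, Nat.card (F.neighborSet v) = 2) →
      (∀ v, Nat.card {u | F.Reachable v u} ≤ L) →
      (∀ v, Nat.card (G.neighborSet v) = d) →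
      Even d →
      (3 / 4 + ε) * (n : ℝ) ≤ (d : ℝ) →
      ∃ (k : ℕ) (H : Fin k → SimpleGraph (Fin n)),
        (∀ i, Nonempty (F ≃g H i)) ∧
        (∀ i j, i ≠ j → Disjoint (H i) (H j)) ∧
        (⨆ i, H i) = G

end Pool.Agent.OBW
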