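import Mathlib
import Pool.Agent.OBW.Defs
import Pool.Agent.OBW.Stmts
import Pool.Agent.OBW.Basic
import Pool.Agent.TFA.PartA

/-!
OBW/Abs: the absorber statement `AbsStmt` from the TFA tree.
-/

set_option autoImplicit false

namespace Pool.Agent.OBW

open Finset

section

variable {V C : Type} [Fintype V] [DecidableEq V] [Fintype C] [DecidableEq C]

theorem Abs_piece {m : ℕ} (hm : 1 ≤ m) (g : Fin (m + 2) → V) (hg : Function.Injective g) (c : C) :
    IsPiece (m + 2) c (TFA.cy g c) := by
  refine ⟨by omega, fun i => g (Fin.ofNat (m + 2) i), ?_, ?_⟩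
  · intro i hi j hj hij
    have h := hg hij
    simp only [Set.mem_Iio] at hi hj
    have h2 := congrArg Fin.val h
    simp only [Fin.ofNat] at h2
    rwa [Nat.mod_eq_of_lt hi, Nat.mod_eq_of_lt hj] at h2
  · unfold TFA.cy cyc
    congr 1
    · ext x
      simp only [mem_image, mem_univ, true_and, mem_range]
      constructor
      · rintro ⟨j, rfl⟩
        refine ⟨j.val, j.isLt, ?_⟩
        have h1 : Fin.ofNat (m + 2) j.val = j := by
          ext; simp [Fin.ofNat, Nat.mod_eq_of_lt j.isLt]
        have h2 : Fin.ofNat (m + 2) ((j.val + 1) % (m + 2)) = j + 1 := by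
          ext
          simp [Fin.ofNat, Fin.val_add]
        rw [h1, h2]
      · rintro ⟨i, hi, rfl⟩
        refine ⟨Fin.ofNat (m + 2) i, ?_⟩
        have h2 : Fin.ofNat (m + 2) ((i + 1) % (m + 2)) = Fin.ofNat (m + 2) i + 1 := by
          ext
          simp [Fin.ofNat, Fin.val_add]
        rw [h2]
    · ext x
      simp only [mem_image, mem_univ, true_and, mem_range]
      constructor
      · rintro ⟨j, rfl⟩
        refine ⟨j.val, j.isLt, ?_⟩
        have h1 : Fin.ofNat (m + 2) j.val = j := by
          ext; simp [Fin.ofNat, Nat.mod_eq_of_lt j.isLt]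
        rw [h1]
      · rintro ⟨i, hi, rfl⟩
        exact ⟨Fin.ofNat (m + 2) i, rfl⟩

theorem Abs_dec {m : ℕ} (hm : 1 ≤ m) {S : Finset (Item V C)} (h : TFA.Dc m S) : Dec (m + 2) S := by
  induction h with
  | nil => exact ⟨∅, by simp, by intro p hp; simp at hp, by simp⟩
  | cons S g c hS hg hd ih =>
    obtain ⟨F, hF, hPD, hun⟩ := ih
    refine ⟨insert (TFA.cy g c) F, ?_, PD.insert hPD (by rw [hun]; exact hd), ?_⟩
    · intro p hp
      rw [mem_insert] at hp
      rcases hp with rfl | hp
      · exact ⟨c, Abs_piece hm g hg c⟩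
      · exact hF p hp
    · rw [un_insert, hun]

theorem Abs_bal {m : ℕ} {S : Finset (Item V C)} (h : Bal (m + 2) S) : TFA.Bal m S := by
  constructor
  · intro v
    have h1 : (S.toLeft.filter (fun e => v ∈ e)) = (nb S v).image (fun u => s(v, u)) := by
      ext e
      simp only [mem_filter, mem_toLeft, mem_image, mem_nb]
      constructor
      · rintro ⟨he, hv⟩
        obtain ⟨u, rfl⟩ := Sym2.mem_iff_exists.1 hv
        exact ⟨u, he, rfl⟩
      · rintro ⟨u, hu, rfl⟩
        exact ⟨hu, Sym2.mem_mk_left v u⟩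
    have h2 : (S.toRight.filter (fun p => p.1 = v)) = (cl S v).image (fun c => (v, c)) := by
      ext p
      rcases p with ⟨a, c⟩
      simp only [mem_filter, mem_toRight, mem_image, mem_cl, Prod.mk.injEq]
      constructor
      · rintro ⟨he, rfl⟩
        exact ⟨c, he, rfl, rfl⟩
      · rintro ⟨c', hc', rfl, rfl⟩
        exact ⟨hc', rfl⟩
    rw [h1, h2, card_image_of_injective, card_image_of_injective, h.1 v]
    · intro a b hab
      exact (Prod.mk.injEq _ _ _ _ ▸ hab).2
    · intro a b hab
      have := Sym2.congr_right.1 hab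
      exact this
  · intro c
    have h2 : (S.toRight.filter (fun p => p.2 = c)) = (vt S c).image (fun v => (v, c)) := by
      ext p
      rcases p with ⟨a, c'⟩
      simp only [mem_filter, mem_toRight, mem_image, mem_vt, Prod.mk.injEq]
      constructor
      · rintro ⟨he, rfl⟩
        exact ⟨a, he, rfl, rfl⟩
      · rintro ⟨a', ha', rfl, rfl⟩
        exact ⟨ha', rfl⟩
    rw [h2, card_image_of_injective]
    · exact h.2 c
    · intro a b hab
      exact (Prod.mk.injEq _ _ _ _ ▸ hab).1

end

theorem abs : AbsStmt := by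
  classical
  intro ε l M hε hl
  obtain ⟨m, rfl⟩ : ∃ m, l = m + 2 := ⟨l - 2, by omega⟩
  have hm : 1 ≤ m := by omega
  obtain ⟨n0, B, h⟩ := TFA.partA ε hε m hm M
  refine ⟨n0, B, ?_⟩
  intro V C _ _ _ _ G _ U1 U C1 CJ hn hdeg hU1 hC1 hUU hCC hUM hCM
  obtain ⟨R, hR, hRE, hRP, hD⟩ := h V C hn G (by
    intro v
    have h1 : (univ.filter (fun u => G.Adj v u)).card = G.degree v := by
      rw [← SimpleGraph.card_neighborFinset_eq_degree]
      congr 1
      ext u
      simp
    rw [← h1]
    exact hdeg v) U U1 CJ C1 hUU hUM hU1 hCC hCM (by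
      rw [Finset.compl_eq_univ_sdiff]
      exact hC1)
  refine ⟨R, hR, ?_, ?_, ?_⟩
  · intro u v huv
    obtain ⟨h1, x, hx, hxU⟩ := hRE _ huv
    refine ⟨by simpa using h1, ?_⟩
    rintro ⟨hu, hv⟩
    rw [Sym2.mem_iff] at hx
    rcases hx with rfl | rfl
    · exact hxU hu
    · exact hxU hv
  · intro v c hvc
    have h1 := hRP _ hvc
    rintro ⟨hv, hc⟩
    rcases h1 with h1 | h1
    · exact h1 hv
    · exact h1 hc
  · intro Lo hin hbal hG
    rw [union_comm]
    apply Abs_dec hm
    apply hD Lo
    · rintro (e | p) hi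
      · intro x hx
        obtain ⟨y, rfl⟩ := Sym2.mem_iff_exists.1 hx
        exact (hin.1 x y hi).2.1
      · exact hin.2 p.1 p.2 hi
    · intro e he
      induction e using Sym2.ind with
      | _ x y =>
        rw [SimpleGraph.mem_edgeSet]
        exact hG x y he
    · exact Abs_bal hbal

end Pool.Agent.OBW
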