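import Mathlib
import Pool.Agent.OBW.Defs
import Pool.Agent.OBW.Stmts
import Pool.Agent.OBW.Basic

set_option autoImplicit false
set_option linter.unusedSectionVars false
set_option linter.unusedVariables false

/-! APPROX = MIX + NIB. -/

namespace Pool.Agent.OBW

open Finset

/-- indicator -/
noncomputable def ind (p : Prop) : ℝ := by classical exact if p then 1 else 0

theorem ind_pos {p : Prop} (h : p) : ind p = 1 := by unfold ind; simp [h]
theorem ind_neg {p : Prop} (h : ¬ p) : ind p = 0 := by unfold ind; simp [h]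
theorem ind_nonneg (p : Prop) : 0 ≤ ind p := by unfold ind; split_ifs <;> norm_num
theorem ind_le (p : Prop) : ind p ≤ 1 := by unfold ind; split_ifs <;> norm_num

/-- sum of `w` over the `j` with `P j` -/
noncomputable def isum {J : Type} [Fintype J] (w : J → ℝ) (P : J → Prop) : ℝ := ∑ j, ind (P j) * w j

theorem flt_eq_isum {J : Type} [Fintype J] (w : J → ℝ) (P : J → Prop) [DecidablePred P] :
    ∑ j with P j, w j = isum w P := by
  unfold isum
  rw [Finset.sum_filter]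
  refine Finset.sum_congr rfl fun j _ => ?_
  by_cases h : P j
  · rw [if_pos h, ind_pos h, one_mul]
  · rw [if_neg h, ind_neg h, zero_mul]

theorem isum_congr {J : Type} [Fintype J] (w : J → ℝ) {P Q : J → Prop} (h : ∀ j, P j ↔ Q j) :
    isum w P = isum w Q := by
  have : P = Q := funext fun j => propext (h j)
  rw [this]

/-- number of the `x` with `P x` -/
noncomputable def pc {α : Type} [Fintype α] (P : α → Prop) : ℕ := by
  classical exact (univ.filter P).card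

theorem isum_ind {J : Type} [Fintype J] (P Q : J → Prop) :
    isum (fun x => ind (Q x)) P = pc (fun x => P x ∧ Q x) := by
  classical
  unfold isum pc
  rw [Finset.card_filter]
  push_cast
  refine Finset.sum_congr rfl fun j _ => ?_
  by_cases h : P j <;> by_cases h' : Q j <;> simp [ind, h, h']

theorem sum_ind {J : Type} [Fintype J] (Q : J → Prop) : ∑ x, ind (Q x) = pc Q := by
  classical
  unfold pc
  rw [Finset.card_filter]
  push_cast
  refine Finset.sum_congr rfl fun j _ => ?_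
  by_cases h' : Q j <;> simp [ind, h']

theorem pc_le_card {α β : Type} [Fintype α] {P : α → Prop} {B : Finset β} (r : α → β → Prop)
    (h : ∀ x, P x → ∃ b ∈ B, r x b) (hinj : ∀ b x y, r x b → r y b → x = y) : pc P ≤ B.card := by
  classical
  unfold pc
  refine Finset.card_le_card_of_forall_subsingleton r ?_ ?_
  · intro x hx; exact h x (Finset.mem_filter.1 hx).2
  · intro b _ x hx y hy
    exact hinj b x y hx.2 hy.2

theorem card_le_pc {α β : Type} [Fintype α] {P : α → Prop} {B : Finset β} (r : β → α → Prop)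
    (h : ∀ b ∈ B, ∃ x, P x ∧ r b x) (hinj : ∀ x b c, r b x → r c x → b = c) : B.card ≤ pc P := by
  classical
  unfold pc
  refine Finset.card_le_card_of_forall_subsingleton r ?_ ?_
  · intro b hb
    obtain ⟨x, hx, hr⟩ := h b hb
    exact ⟨x, Finset.mem_filter.2 ⟨Finset.mem_univ _, hx⟩, hr⟩
  · intro x _ b hb c hc
    exact hinj x b c hb.2 hc.2

theorem sum_sub {J : Type} [Fintype J] (w : J → ℝ) [Fintype {j // w j ≠ 0}] (P : J → Prop) :
    isum (fun j : {j // w j ≠ 0} => w j.1) (fun j => P j.1) = isum w P := by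
  classical
  unfold isum
  have h := Finset.sum_subtype (F := ‹Fintype {j // w j ≠ 0}›) (univ.filter (fun j => w j ≠ 0))
    (p := fun j => w j ≠ 0) (by simp) (fun j => ind (P j) * w j)
  refine h.symm.trans ?_
  rw [Finset.sum_filter]
  refine Finset.sum_congr rfl fun j _ => ?_
  by_cases hj : w j = 0
  · simp [hj]
  · simp [hj]

section
variable {V C : Type} [Fintype V] [DecidableEq V] [Fintype C] [DecidableEq C]

/-- slots `(c, l, i)` -/
def Sl (L ls : ℕ) (N : ℕ → ℕ) (D : Finset C) : Finset (C × ℕ × ℕ) :=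
  (D ×ˢ (((Icc 3 L).erase ls) ×ˢ range (∑ l ∈ (Icc 3 L).erase ls, N l + 1))).filter
    (fun σ => σ.2.2 < N σ.2.1)

theorem mem_Sl {L ls : ℕ} {N : ℕ → ℕ} {D : Finset C} {c : C} {l i : ℕ} :
    (c, l, i) ∈ Sl L ls N D ↔ c ∈ D ∧ l ∈ (Icc 3 L).erase ls ∧ i < N l := by
  unfold Sl
  rw [Finset.mem_filter, Finset.mem_product, Finset.mem_product, Finset.mem_range]
  constructor
  · rintro ⟨⟨h1, h2, h3⟩, h4⟩; exact ⟨h1, h2, h4⟩
  · rintro ⟨h1, h2, h3⟩
    refine ⟨⟨h1, h2, ?_⟩, h3⟩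
    have : N l ≤ ∑ l ∈ (Icc 3 L).erase ls, N l :=
      Finset.single_le_sum (f := N) (fun _ _ => Nat.zero_le _) h2
    show i < _
    omega

theorem sum_Sl {L ls : ℕ} {N : ℕ → ℕ} {D : Finset C} (f : C → ℕ → ℝ) :
    ∑ σ ∈ Sl L ls N D, f σ.1 σ.2.1 = ∑ c ∈ D, ∑ l ∈ (Icc 3 L).erase ls, (N l : ℝ) * f c l := by
  unfold Sl
  rw [Finset.sum_filter, Finset.sum_product]
  refine Finset.sum_congr rfl fun c hc => ?_
  rw [Finset.sum_product]
  refine Finset.sum_congr rfl fun l hl => ?_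
  rw [← Finset.sum_filter]
  have : (range (∑ l ∈ (Icc 3 L).erase ls, N l + 1)).filter (fun i => i < N l) = range (N l) := by
    have h0 : N l ≤ ∑ l ∈ (Icc 3 L).erase ls, N l :=
      Finset.single_le_sum (f := N) (fun _ _ => Nat.zero_le _) hl
    ext i
    rw [Finset.mem_filter, Finset.mem_range, Finset.mem_range]
    omega
  show ∑ a ∈ (range (∑ l ∈ (Icc 3 L).erase ls, N l + 1)).filter (fun i => i < N l), f c l = _
  rw [this, Finset.sum_const, Finset.card_range, nsmul_eq_mul]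

/-- the index type of the nibble -/
abbrev NI (S : Finset (Item V C)) (Z : Finset (C × ℕ × ℕ)) := {i // i ∈ S} ⊕ {σ // σ ∈ Z}

/-- block of `(p, none)` is `p`, block of `(p, some σ)` is `p ∪ {σ}` -/
def NE (S : Finset (Item V C)) (Z : Finset (C × ℕ × ℕ)) (j : Finset (Item V C) × Option {σ // σ ∈ Z}) :
    Finset (NI S Z) :=
  ((j.1.subtype (fun i => i ∈ S)).image Sum.inl) ∪
    (match j.2 with
      | none => ∅
      | some σ => {Sum.inr σ})

theorem inl_mem_NE {S : Finset (Item V C)} {Z : Finset (C × ℕ × ℕ)}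
    {j : Finset (Item V C) × Option {σ // σ ∈ Z}} {i : {i // i ∈ S}} :
    (Sum.inl i : NI S Z) ∈ NE S Z j ↔ i.1 ∈ j.1 := by
  unfold NE
  rw [Finset.mem_union, Finset.mem_image]
  constructor
  · rintro (⟨a, ha, h⟩ | h)
    · rw [Finset.mem_subtype] at ha
      have := Sum.inl.inj h
      rw [← this]; exact ha
    · rcases j with ⟨p, _ | σ⟩
      · simp at h
      · simp at h
  · intro h
    exact Or.inl ⟨i, Finset.mem_subtype.2 h, rfl⟩

theorem inr_mem_NE {S : Finset (Item V C)} {Z : Finset (C × ℕ × ℕ)}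
    {j : Finset (Item V C) × Option {σ // σ ∈ Z}} {σ : {σ // σ ∈ Z}} :
    (Sum.inr σ : NI S Z) ∈ NE S Z j ↔ j.2 = some σ := by
  unfold NE
  rw [Finset.mem_union, Finset.mem_image]
  constructor
  · rintro (⟨a, ha, h⟩ | h)
    · simp at h
    · rcases j with ⟨p, _ | τ⟩
      · simp at h
      · simp only [Finset.mem_singleton, Sum.inr.injEq] at h
        rw [h]
  · intro h
    right
    rcases j with ⟨p, _ | τ⟩
    · simp at h
    · simp only [Option.some.injEq] at h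
      simp [h]

/-- the weights of the nibble -/
noncomputable def Nw (ls : ℕ) (Z : Finset (C × ℕ × ℕ)) (W : ℕ → Finset (Item V C) → ℝ)
    (j : Finset (Item V C) × Option {σ // σ ∈ Z}) : ℝ :=
  match j.2 with
  | none => W ls j.1
  | some σ => ind (IsPiece σ.1.2.1 σ.1.1 j.1) * W σ.1.2.1 j.1

theorem sum_NJ {Z : Finset (C × ℕ × ℕ)} (g : Finset (Item V C) × Option {σ // σ ∈ Z} → ℝ) :
    ∑ j, g j = ∑ p, (g (p, none) + ∑ σ : {σ // σ ∈ Z}, g (p, some σ)) := by
  rw [Fintype.sum_prod_type]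
  refine Finset.sum_congr rfl fun p _ => ?_
  rw [Fintype.sum_option]

theorem sum_slots {L ls : ℕ} {N : ℕ → ℕ} {D : Finset C} {W : ℕ → Finset (Item V C) → ℝ}
    (hW : ∀ l p, W l p ≠ 0 → ∃ c ∈ D, IsPiece l c p) (p : Finset (Item V C)) :
    Nw ls (Sl L ls N D) W (p, none) + ∑ σ : {σ // σ ∈ Sl L ls N D}, Nw ls (Sl L ls N D) W (p, some σ)
      = tot L ls N W p := by
  unfold tot Nw
  simp only
  congr 1
  rw [Finset.sum_coe_sort (Sl L ls N D) (fun σ => ind (IsPiece σ.2.1 σ.1 p) * W σ.2.1 p),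
    sum_Sl (fun c l => ind (IsPiece l c p) * W l p), Finset.sum_comm]
  refine Finset.sum_congr rfl fun l hl => ?_
  rw [← Finset.mul_sum]
  congr 1
  by_cases h : W l p = 0
  · simp [h]
  · obtain ⟨c, hc, hp⟩ := hW l p h
    rw [Finset.sum_eq_single c]
    · rw [ind_pos hp, one_mul]
    · intro c' _ hne
      rw [ind_neg, zero_mul]
      intro h'
      exact hne (h'.uniq hp).2
    · intro h'; exact absurd hc h'

end


section
variable {V C : Type} [Fintype V] [DecidableEq V] [Fintype C] [DecidableEq C]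

theorem deg_item {L ls : ℕ} {N : ℕ → ℕ} {D : Finset C}
    {W : ℕ → Finset (Item V C) → ℝ}
    (hW : ∀ l p, W l p ≠ 0 → ∃ c ∈ D, IsPiece l c p) (Q : Finset (Item V C) → Prop) :
    isum (Nw ls (Sl L ls N D) W) (fun j => Q j.1) = isum (tot L ls N W) Q := by
  unfold isum
  rw [sum_NJ]
  refine Finset.sum_congr rfl fun p _ => ?_
  rw [← sum_slots hW p, mul_add, Finset.mul_sum]

theorem deg_slot {L ls : ℕ} {N : ℕ → ℕ} {D : Finset C}
    {W : ℕ → Finset (Item V C) → ℝ} (Q : Finset (Item V C) → Prop)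
    (σ : {σ // σ ∈ Sl L ls N D}) :
    isum (Nw ls (Sl L ls N D) W) (fun j => Q j.1 ∧ j.2 = some σ)
      = isum (W σ.1.2.1) (fun p => Q p ∧ IsPiece σ.1.2.1 σ.1.1 p) := by
  unfold isum
  rw [sum_NJ]
  refine Finset.sum_congr rfl fun p _ => ?_
  simp only
  rw [ind_neg (by simp), zero_mul, zero_add, Finset.sum_eq_single σ]
  · by_cases hp : Q p
    · simp [hp, Nw, ind_pos]
    · rw [ind_neg (by simp [hp]), ind_neg (by simp [hp]), zero_mul, zero_mul]
  · intro τ _ hne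
    rw [ind_neg (by simp [hne]), zero_mul]
  · intro h; simp at h

theorem card_S_le {U : Finset V} {D : Finset C} {S : Finset (Item V C)} (hins : Inside U D S) :
    S.card ≤ U.card * U.card + U.card * D.card := by
  have h : S ⊆ ((U ×ˢ U).image (fun q => (Sum.inl s(q.1, q.2) : Item V C))) ∪
      ((U ×ˢ D).image (fun q => (Sum.inr q : Item V C))) := by
    intro i hi
    rw [Finset.mem_union, Finset.mem_image, Finset.mem_image]
    rcases i with e | ⟨v, c⟩
    · left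
      induction e using Sym2.ind with
      | _ u v =>
        have := hins.1 u v hi
        exact ⟨(u, v), Finset.mem_product.2 ⟨this.2.1, this.2.2⟩, rfl⟩
    · right
      exact ⟨(v, c), Finset.mem_product.2 (hins.2 v c hi), rfl⟩
  refine (Finset.card_le_card h).trans ((Finset.card_union_le _ _).trans ?_)
  refine Nat.add_le_add (Finset.card_image_le.trans ?_) (Finset.card_image_le.trans ?_)
  · rw [Finset.card_product]
  · rw [Finset.card_product]

theorem card_Sl_le {L ls : ℕ} {N : ℕ → ℕ} {D : Finset C} {m : ℝ}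
    (hN : ∑ l ∈ (Icc 3 L).erase ls, (l : ℝ) * (N l : ℝ) ≤ m) (hD : (D.card : ℝ) ≤ m) (hm : 0 ≤ m) :
    ((Sl L ls N D).card : ℝ) ≤ m * m := by
  have h := sum_Sl (L := L) (ls := ls) (N := N) (D := D) (fun _ _ => (1:ℝ))
  rw [Finset.sum_const, nsmul_eq_mul, mul_one] at h
  rw [h, Finset.sum_const, nsmul_eq_mul]
  have h2 : ∑ l ∈ (Icc 3 L).erase ls, (N l : ℝ) * 1 ≤ m := by
    refine le_trans (Finset.sum_le_sum fun l hl => ?_) hN
    have : 3 ≤ l := (Finset.mem_Icc.1 (Finset.mem_of_mem_erase hl)).1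
    have h3 : (1:ℝ) ≤ (l:ℝ) := by exact_mod_cast (by omega : 1 ≤ l)
    nlinarith [(Nat.cast_nonneg (N l) : (0:ℝ) ≤ N l)]
  have h3 : 0 ≤ ∑ l ∈ (Icc 3 L).erase ls, (N l : ℝ) * 1 := Finset.sum_nonneg fun l _ => by positivity
  exact mul_le_mul hD h2 h3 hm

/-- what the nibble gives for the mixture -/
theorem approx_nib (L : ℕ) (K' γ δ₀ : ℝ) (hK' : 1 ≤ K') (hγ : 0 < γ)
    (hNib : ∀ δ : ℝ, 0 < δ → δ ≤ δ₀ →
      ∀ (ι J Θ : Type) [Fintype ι] [DecidableEq ι] [Fintype J] [DecidableEq J] [Fintype Θ]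
        (E : J → Finset ι) (w : J → ℝ) (t : Θ → ι → ℝ),
        (∀ j, (E j).Nonempty ∧ (E j).card ≤ 2 * L + 1) → (∀ j, 0 ≤ w j) →
        (∀ x, ∑ j with x ∈ E j, w j ≤ 1) →
        (∀ x y, x ≠ y → ∑ j with (x ∈ E j ∧ y ∈ E j), w j ≤ δ) →
        (Fintype.card ι : ℝ) ≤ δ ^ (-(5:ℝ)) → (Fintype.card Θ : ℝ) ≤ δ ^ (-(5:ℝ)) →
        (∀ θ x, 0 ≤ t θ x ∧ t θ x ≤ 1) →
        ∃ M : Finset J, (∀ j ∈ M, 0 < w j) ∧
          (∀ i ∈ M, ∀ j ∈ M, i ≠ j → Disjoint (E i) (E j)) ∧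
          ∀ θ, ∑ x with (∀ j ∈ M, x ∉ E j), t θ x ≤
            ∑ x, t θ x * (1 - ∑ j with x ∈ E j, w j) + (γ/8) * (∑ x, t θ x + δ ^ (-(1/2) : ℝ)))
    (U : Finset V) (D : Finset C) (S : Finset (Item V C)) (ls : ℕ) (N : ℕ → ℕ)
    (W : ℕ → Finset (Item V C) → ℝ)
    (hm1 : K' ^ 5 * (L + 6) ≤ U.card) (hm2 : K' / U.card ≤ δ₀) (hins : Inside U D S)
    (hD : D.card ≤ U.card)
    (hN : ∑ l ∈ (Icc 3 L).erase ls, (l : ℝ) * (N l : ℝ) ≤ U.card)
    (hW0 : ∀ l p, 0 ≤ W l p)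
    (hgood : ∀ j : Finset (Item V C) × Option {σ // σ ∈ Sl L ls N D}, Nw ls (Sl L ls N D) W j ≠ 0 →
      j.1 ⊆ S ∧ ∃ l ∈ Icc 3 L, ∃ c ∈ D, IsPiece l c j.1)
    (hW1 : ∀ l p, W l p ≠ 0 → ∃ c ∈ D, IsPiece l c p)
    (hW2 : ∀ l ∈ (Icc 3 L).erase ls, ∀ c ∈ D, isum (W l) (fun p => IsPiece l c p) = 1)
    (hW3 : ∀ i ∈ S, 1 - γ / 8 ≤ isum (tot L ls N W) (fun p => i ∈ p) ∧
          isum (tot L ls N W) (fun p => i ∈ p) ≤ 1)
    (hW4 : ∀ i j, i ≠ j → isum (tot L ls N W) (fun p => i ∈ p ∧ j ∈ p) ≤ K' / U.card)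
    (hW5 : ∀ l ∈ (Icc 3 L).erase ls, ∀ c ∈ D, ∀ i,
      isum (W l) (fun p => i ∈ p ∧ IsPiece l c p) ≤ K' / U.card)
    (Θ : Type) [Fintype Θ] (Q : Θ → NI S (Sl L ls N D) → Prop)
    (hΘ : (Fintype.card Θ : ℝ) ≤ (L + 6) * (U.card : ℝ) ^ 2) :
    ∃ M : Finset (Finset (Item V C) × Option {σ // σ ∈ Sl L ls N D}),
      (∀ j ∈ M, Nw ls (Sl L ls N D) W j ≠ 0) ∧
      (∀ i ∈ M, ∀ j ∈ M, i ≠ j → Disjoint (NE S (Sl L ls N D) i) (NE S (Sl L ls N D) j)) ∧
      ∀ θ, ((pc (Q θ) : ℕ) : ℝ) ≤ U.card →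
        ((pc (fun x => (∀ j ∈ M, x ∉ NE S (Sl L ls N D) j) ∧ Q θ x) : ℕ) : ℝ) ≤ γ * U.card := by
  set m : ℝ := (U.card : ℝ) with hm
  have hK5 : (1:ℝ) ≤ K' ^ 5 := one_le_pow₀ hK'
  have hLr : (0:ℝ) ≤ L := Nat.cast_nonneg L
  have hmK : K' ^ 5 * 6 ≤ m := by nlinarith
  have hmp : (1:ℝ) ≤ m := by nlinarith
  have hm0 : 0 < m := by linarith
  set δ : ℝ := K' / m with hδ
  have hδ0 : 0 < δ := by positivity
  have hpow : (L + 6) * m ^ 2 ≤ δ ^ (-(5:ℝ)) := by
    have h1 : δ ^ (-(5:ℝ)) = (m / K') ^ 5 := by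
      rw [Real.rpow_neg hδ0.le, hδ]
      have : ((5:ℝ)) = ((5:ℕ):ℝ) := by norm_num
      rw [this, Real.rpow_natCast, ← inv_pow, inv_div]
    rw [h1, div_pow, le_div_iff₀ (by positivity)]
    have h2 : (L + 6) * K' ^ 5 ≤ m := by linarith
    calc (L + 6) * m ^ 2 * K' ^ 5 = ((L + 6) * K' ^ 5) * m ^ 2 := by ring
      _ ≤ m * m ^ 2 := by gcongr
      _ = m ^ 3 := by ring
      _ ≤ m ^ 5 := pow_le_pow_right₀ hmp (by norm_num)
  have hhalf : δ ^ (-(1/2) : ℝ) ≤ m := by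
    have h1 : 1 / m ≤ δ := by rw [hδ]; gcongr
    calc δ ^ (-(1/2) : ℝ) ≤ (1 / m) ^ (-(1/2) : ℝ) :=
          Real.rpow_le_rpow_of_nonpos (by positivity) h1 (by norm_num)
      _ = m ^ ((1/2) : ℝ) := by
          rw [one_div, Real.inv_rpow hm0.le, Real.rpow_neg hm0.le, inv_inv]
      _ ≤ m ^ (1 : ℝ) := Real.rpow_le_rpow_of_exponent_le hmp (by norm_num)
      _ = m := Real.rpow_one m
  have hDm : (D.card : ℝ) ≤ m := by rw [hm]; exact_mod_cast hD
  -- facts about the weights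
  have hNw0 : ∀ j : Finset (Item V C) × Option {σ // σ ∈ (Sl L ls N D)}, 0 ≤ Nw ls (Sl L ls N D) W j := by
    rintro ⟨p, _ | σ⟩
    · exact hW0 _ _
    · exact mul_nonneg (ind_nonneg _) (hW0 _ _)
  classical
  have hdegI : ∀ i : {i // i ∈ S}, isum (Nw ls (Sl L ls N D) W) (fun j => (Sum.inl i : NI S (Sl L ls N D)) ∈ NE S (Sl L ls N D) j)
      = isum (tot L ls N W) (fun p => i.1 ∈ p) := by
    intro i
    rw [← deg_item (L := L) (ls := ls) (N := N) (D := D) hW1 (fun p => i.1 ∈ p)]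
    exact isum_congr _ (fun j => inl_mem_NE)
  have hdegZ : ∀ σ : {σ // σ ∈ (Sl L ls N D)}, isum (Nw ls (Sl L ls N D) W) (fun j => (Sum.inr σ : NI S (Sl L ls N D)) ∈ NE S (Sl L ls N D) j) = 1 := by
    intro σ
    have hσ : (σ.1.1, σ.1.2.1, σ.1.2.2) ∈ Sl L ls N D := σ.2
    rw [mem_Sl] at hσ
    rw [← hW2 σ.1.2.1 hσ.2.1 σ.1.1 hσ.1]
    have h2 := deg_slot (L := L) (ls := ls) (N := N) (D := D) (W := W) (fun _ => True) σ
    have h4 : isum (W σ.1.2.1) (fun p => True ∧ IsPiece σ.1.2.1 σ.1.1 p) =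
        isum (W σ.1.2.1) (fun p => IsPiece σ.1.2.1 σ.1.1 p) := isum_congr _ (fun p => by simp)
    rw [← h4, ← h2]
    exact isum_congr _ (fun j => by rw [inr_mem_NE]; simp)
  have hcodII : ∀ i i' : {i // i ∈ S}, i ≠ i' →
      isum (Nw ls (Sl L ls N D) W) (fun j => (Sum.inl i : NI S (Sl L ls N D)) ∈ NE S (Sl L ls N D) j ∧ (Sum.inl i' : NI S (Sl L ls N D)) ∈ NE S (Sl L ls N D) j)
        ≤ δ := by
    intro i i' hne
    refine le_trans (le_of_eq ?_) (hW4 i.1 i'.1 (fun h => hne (Subtype.ext h)))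
    rw [← deg_item (L := L) (ls := ls) (N := N) (D := D) hW1 (fun p => i.1 ∈ p ∧ i'.1 ∈ p)]
    exact isum_congr _ (fun j => by rw [inl_mem_NE, inl_mem_NE])
  have hcodIZ : ∀ (i : {i // i ∈ S}) (σ : {σ // σ ∈ (Sl L ls N D)}),
      isum (Nw ls (Sl L ls N D) W) (fun j => (Sum.inl i : NI S (Sl L ls N D)) ∈ NE S (Sl L ls N D) j ∧ (Sum.inr σ : NI S (Sl L ls N D)) ∈ NE S (Sl L ls N D) j)
        ≤ δ := by
    intro i σ
    have hσ : (σ.1.1, σ.1.2.1, σ.1.2.2) ∈ Sl L ls N D := σ.2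
    rw [mem_Sl] at hσ
    refine le_trans (le_of_eq ?_) (hW5 σ.1.2.1 hσ.2.1 σ.1.1 hσ.1 i.1)
    rw [← deg_slot (L := L) (ls := ls) (N := N) (D := D) (W := W) (fun p => i.1 ∈ p) σ]
    exact isum_congr _ (fun j => by rw [inl_mem_NE, inr_mem_NE])
  have hcardι : (Fintype.card (NI S (Sl L ls N D)) : ℝ) ≤ δ ^ (-(5:ℝ)) := by
    refine le_trans ?_ hpow
    rw [Fintype.card_sum, Fintype.card_coe, Fintype.card_coe]
    push_cast
    have h1 : (S.card : ℝ) ≤ m * m + m * m := by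
      have := card_S_le hins
      have h2 : (S.card : ℝ) ≤ (U.card : ℝ) * U.card + U.card * D.card := by exact_mod_cast this
      rw [← hm] at h2
      nlinarith
    have h2 : ((Sl L ls N D).card : ℝ) ≤ m * m := card_Sl_le hN hDm hm0.le
    nlinarith
  have hss : ∀ P : Finset (Item V C) × Option {σ // σ ∈ (Sl L ls N D)} → Prop,
      isum (fun j : {j // Nw ls (Sl L ls N D) W j ≠ 0} => Nw ls (Sl L ls N D) W j.1) (fun j => P j.1) = isum (Nw ls (Sl L ls N D) W) P :=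
    fun P => sum_sub (Nw ls (Sl L ls N D) W) P
  obtain ⟨M, hM1, hM2, hM3⟩ := hNib δ hδ0 hm2 (NI S (Sl L ls N D)) {j // Nw ls (Sl L ls N D) W j ≠ 0} Θ
    (fun j => NE S (Sl L ls N D) j.1) (fun j => Nw ls (Sl L ls N D) W j.1) (fun θ x => ind (Q θ x))
    (by
      rintro ⟨j, hj⟩
      obtain ⟨hjS, l, hl, c, hc, hp⟩ := hgood j hj
      constructor
      · obtain ⟨i, hi⟩ := hp.nonempty
        exact ⟨Sum.inl ⟨i, hjS hi⟩, inl_mem_NE.2 hi⟩
      · have h1 : (NE S (Sl L ls N D) j).card ≤ j.1.card + 1 := by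
          unfold NE
          refine (Finset.card_union_le _ _).trans (Nat.add_le_add ?_ ?_)
          · refine Finset.card_image_le.trans ?_
            rw [Finset.card_subtype]
            exact Finset.card_filter_le _ _
          · rcases j with ⟨p, _ | σ⟩
            · simp
            · simp
        have h2 := hp.card_le
        have h3 := (Finset.mem_Icc.1 hl).2
        show (NE S (Sl L ls N D) j).card ≤ _
        omega)
    (fun j => hNw0 j.1)
    (by
      intro x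
      rw [flt_eq_isum]
      refine le_of_eq_of_le (hss (fun j => x ∈ NE S (Sl L ls N D) j)) ?_
      rcases x with i | σ
      · rw [hdegI i]; exact (hW3 i.1 i.2).2
      · rw [hdegZ σ])
    (by
      intro x y hne
      rw [flt_eq_isum]
      refine le_of_eq_of_le (hss (fun j => x ∈ NE S (Sl L ls N D) j ∧ y ∈ NE S (Sl L ls N D) j)) ?_
      rcases x with i | σ <;> rcases y with i' | σ'
      · exact hcodII i i' (fun h => hne (by rw [h]))
      · exact hcodIZ i σ'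
      · rw [isum_congr _ (fun j => and_comm)]
        exact hcodIZ i' σ
      · have : isum (Nw ls (Sl L ls N D) W) (fun j => (Sum.inr σ : NI S (Sl L ls N D)) ∈ NE S (Sl L ls N D) j ∧ (Sum.inr σ' : NI S (Sl L ls N D)) ∈ NE S (Sl L ls N D) j) = 0 := by
          unfold isum
          refine Finset.sum_eq_zero fun j _ => ?_
          rw [ind_neg, zero_mul]
          show ¬ ((Sum.inr σ : NI S (Sl L ls N D)) ∈ NE S (Sl L ls N D) j ∧ (Sum.inr σ' : NI S (Sl L ls N D)) ∈ NE S (Sl L ls N D) j)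
          rw [inr_mem_NE, inr_mem_NE]
          rintro ⟨h1, h2⟩
          rw [h1] at h2
          simp only [Option.some.injEq] at h2
          exact hne (by rw [h2])
        rw [this]; exact hδ0.le)
    hcardι (le_trans hΘ hpow)
    (fun θ x => ⟨ind_nonneg _, ind_le _⟩)
  refine ⟨M.image Subtype.val, ?_, ?_, ?_⟩
  · intro j hj
    obtain ⟨j', _, rfl⟩ := Finset.mem_image.1 hj
    exact j'.2
  · intro i hi j hj hij
    obtain ⟨i', hi', rfl⟩ := Finset.mem_image.1 hi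
    obtain ⟨j', hj', rfl⟩ := Finset.mem_image.1 hj
    exact hM2 i' hi' j' hj' (fun h => hij (by rw [h]))
  · intro θ hθ
    have h := hM3 θ
    simp only [flt_eq_isum] at h
    rw [isum_ind, sum_ind] at h
    have hdx : ∀ x : NI S (Sl L ls N D), 1 - isum (fun j : {j // Nw ls (Sl L ls N D) W j ≠ 0} => Nw ls (Sl L ls N D) W j.1)
        (fun j => x ∈ NE S (Sl L ls N D) j.1) ≤ γ / 8 := by
      intro x
      rw [hss (fun j => x ∈ NE S (Sl L ls N D) j)]
      rcases x with i | σ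
      · rw [hdegI i]; have := (hW3 i.1 i.2).1; linarith
      · rw [hdegZ σ]; linarith
    have hr : ∑ x : NI S (Sl L ls N D), ind (Q θ x) * (1 - isum (fun j : {j // Nw ls (Sl L ls N D) W j ≠ 0} => Nw ls (Sl L ls N D) W j.1)
        (fun j => x ∈ NE S (Sl L ls N D) j.1))
        ≤ ∑ x : NI S (Sl L ls N D), ind (Q θ x) * (γ / 8) :=
      Finset.sum_le_sum fun x _ => mul_le_mul_of_nonneg_left (hdx x) (ind_nonneg _)
    rw [← Finset.sum_mul, sum_ind] at hr
    have hl : pc (fun x => (∀ j ∈ M.image Subtype.val, x ∉ NE S (Sl L ls N D) j) ∧ Q θ x)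
        = pc (fun x => (∀ j ∈ M, x ∉ NE S (Sl L ls N D) j.1) ∧ Q θ x) := by
      congr 1
      funext x
      simp only [Finset.forall_mem_image]
    rw [hl]
    have hc0 : (0:ℝ) ≤ ((pc (Q θ) : ℕ) : ℝ) := Nat.cast_nonneg _
    have h2 : (γ / 8) * (((pc (Q θ) : ℕ) : ℝ) + δ ^ (-(1/2) : ℝ)) ≤ (γ / 8) * (m + m) :=
      mul_le_mul_of_nonneg_left (add_le_add hθ hhalf) (by positivity)
    have h3 : ((pc (Q θ) : ℕ) : ℝ) * (γ / 8) ≤ m * (γ / 8) :=
      mul_le_mul_of_nonneg_right hθ (by positivity)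
    have h4 : m * (γ / 8) + (γ / 8) * (m + m) ≤ γ * m := by
      have : 0 ≤ γ * m := by positivity
      linarith
    exact le_trans h (le_trans (add_le_add (le_trans hr h3) h2) h4)

/-- The nibble applied to a fractional mixture. -/
theorem approx_core (L : ℕ) (K' γ δ₀ : ℝ) (hK' : 1 ≤ K') (hγ : 0 < γ)
    (hNib : ∀ δ : ℝ, 0 < δ → δ ≤ δ₀ →
      ∀ (ι J Θ : Type) [Fintype ι] [DecidableEq ι] [Fintype J] [DecidableEq J] [Fintype Θ]
        (E : J → Finset ι) (w : J → ℝ) (t : Θ → ι → ℝ),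
        (∀ j, (E j).Nonempty ∧ (E j).card ≤ 2 * L + 1) → (∀ j, 0 ≤ w j) →
        (∀ x, ∑ j with x ∈ E j, w j ≤ 1) →
        (∀ x y, x ≠ y → ∑ j with (x ∈ E j ∧ y ∈ E j), w j ≤ δ) →
        (Fintype.card ι : ℝ) ≤ δ ^ (-(5:ℝ)) → (Fintype.card Θ : ℝ) ≤ δ ^ (-(5:ℝ)) →
        (∀ θ x, 0 ≤ t θ x ∧ t θ x ≤ 1) →
        ∃ M : Finset J, (∀ j ∈ M, 0 < w j) ∧
          (∀ i ∈ M, ∀ j ∈ M, i ≠ j → Disjoint (E i) (E j)) ∧
          ∀ θ, ∑ x with (∀ j ∈ M, x ∉ E j), t θ x ≤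
            ∑ x, t θ x * (1 - ∑ j with x ∈ E j, w j) + (γ/8) * (∑ x, t θ x + δ ^ (-(1/2) : ℝ)))
    (U : Finset V) (D : Finset C) (S : Finset (Item V C)) (ls : ℕ) (N : ℕ → ℕ)
    (W : ℕ → Finset (Item V C) → ℝ)
    (hm1 : K' ^ 5 * (L + 6) ≤ U.card) (hm2 : K' / U.card ≤ δ₀) (hins : Inside U D S)
    (hD : D.card ≤ U.card)
    (hN : ∑ l ∈ (Icc 3 L).erase ls, (l : ℝ) * (N l : ℝ) ≤ U.card)
    (hW0 : ∀ l p, 0 ≤ W l p)
    (hW1 : ∀ l p, W l p ≠ 0 → l ∈ Icc 3 L ∧ p ⊆ S ∧ ∃ c ∈ D, IsPiece l c p)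
    (hW2 : ∀ l ∈ (Icc 3 L).erase ls, ∀ c ∈ D, isum (W l) (fun p => IsPiece l c p) = 1)
    (hW3 : ∀ i ∈ S, 1 - γ / 8 ≤ isum (tot L ls N W) (fun p => i ∈ p) ∧
          isum (tot L ls N W) (fun p => i ∈ p) ≤ 1)
    (hW4 : ∀ i j, i ≠ j → isum (tot L ls N W) (fun p => i ∈ p ∧ j ∈ p) ≤ K' / U.card)
    (hW5 : ∀ l ∈ (Icc 3 L).erase ls, ∀ c ∈ D, ∀ i,
      isum (W l) (fun p => i ∈ p ∧ IsPiece l c p) ≤ K' / U.card) :
    ∃ F : Finset (Finset (Item V C)),
        (∀ p ∈ F, p ⊆ S ∧ ∃ l ∈ Icc 3 L, ∃ c ∈ D, IsPiece l c p) ∧ PD F ∧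
        (∀ c ∈ D, ∀ l ∈ (Icc 3 L).erase ls, cnt F l c ≤ N l ∧ (N l : ℝ) ≤ cnt F l c + γ * U.card) ∧
        (∀ v ∈ U, ((nb (S \ un F) v).card : ℝ) ≤ γ * U.card ∧ ((cl (S \ un F) v).card : ℝ) ≤ γ * U.card) ∧
        (∀ c ∈ D, ((vt (S \ un F) c).card : ℝ) ≤ γ * U.card) := by
  classical
  have hWp : ∀ l p, W l p ≠ 0 → ∃ c ∈ D, IsPiece l c p := fun l p h => (hW1 l p h).2.2
  have hgood : ∀ j : Finset (Item V C) × Option {σ // σ ∈ Sl L ls N D}, Nw ls (Sl L ls N D) W j ≠ 0 →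
      j.1 ⊆ S ∧ ∃ l ∈ Icc 3 L, ∃ c ∈ D, IsPiece l c j.1 ∧
        (j.2 = none → l = ls) ∧ (∀ σ, j.2 = some σ → σ.1.1 = c ∧ σ.1.2.1 = l) := by
    rintro ⟨p, _ | σ⟩ hj
    · have := hW1 ls p hj
      obtain ⟨h1, h2, c, hc, h3⟩ := this
      exact ⟨h2, ls, h1, c, hc, h3, fun _ => rfl, fun σ h => by simp at h⟩
    · unfold Nw at hj
      simp only at hj
      have hp : IsPiece σ.1.2.1 σ.1.1 p := by
        by_contra h
        rw [ind_neg h, zero_mul] at hj
        exact hj rfl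
      have hj' : W σ.1.2.1 p ≠ 0 := fun h => hj (by rw [h, mul_zero])
      obtain ⟨h1, h2, c, hc, h3⟩ := hW1 _ p hj'
      have h4 := (hp.uniq h3).2
      refine ⟨h2, _, h1, c, hc, h3, fun h => by simp at h, fun τ h => ?_⟩
      have h5 : σ = τ := by simpa using h
      subst h5
      exact ⟨h4, rfl⟩
  have hm0 : (1:ℝ) ≤ U.card := by
    have hK5 : (1:ℝ) ≤ K' ^ 5 := one_le_pow₀ hK'
    have hLr : (0:ℝ) ≤ L := Nat.cast_nonneg L
    nlinarith
  have hDm : (D.card : ℝ) ≤ U.card := by exact_mod_cast hD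
  obtain ⟨M, hM1, hM2, hM3⟩ := approx_nib L K' γ δ₀ hK' hγ hNib U D S ls N W hm1 hm2 hins hD hN hW0
    (fun j hj => by
      obtain ⟨h1, l, hl, c, hc, hp, _⟩ := hgood j hj
      exact ⟨h1, l, hl, c, hc, hp⟩) hWp hW2 hW3 hW4 hW5
    ({v // v ∈ U} ⊕ ({v // v ∈ U} ⊕ ({c // c ∈ D} ⊕ ({c // c ∈ D} × {l // l ∈ (Icc 3 L).erase ls}))))
    (fun θ x =>
      match θ, x with
      | Sum.inl v, Sum.inl i => ∃ u, i.1 = Sum.inl s(v.1, u)
      | Sum.inr (Sum.inl v), Sum.inl i => ∃ c, i.1 = Sum.inr (v.1, c)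
      | Sum.inr (Sum.inr (Sum.inl c)), Sum.inl i => ∃ v, i.1 = Sum.inr (v, c.1)
      | Sum.inr (Sum.inr (Sum.inr q)), Sum.inr σ => σ.1.1 = q.1.1 ∧ σ.1.2.1 = q.2.1
      | _, _ => False)
    (by
      rw [Fintype.card_sum, Fintype.card_sum, Fintype.card_sum, Fintype.card_prod, Fintype.card_coe,
        Fintype.card_coe, Fintype.card_coe]
      push_cast
      have h3 : (((Icc 3 L).erase ls).card : ℝ) ≤ L := by
        have : ((Icc 3 L).erase ls).card ≤ L := by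
          refine (Finset.card_le_card (Finset.erase_subset _ _)).trans ?_
          rw [Nat.card_Icc]; omega
        exact_mod_cast this
      have h5 : (0:ℝ) ≤ (((Icc 3 L).erase ls).card : ℝ) := Nat.cast_nonneg _
      have hLr : (0:ℝ) ≤ L := Nat.cast_nonneg L
      have h6 : (D.card : ℝ) * ((Icc 3 L).erase ls).card ≤ U.card * L :=
        mul_le_mul hDm h3 h5 (by linarith)
      nlinarith [mul_nonneg hLr (by linarith : (0:ℝ) ≤ (U.card:ℝ) - 1), mul_nonneg hLr (by nlinarith : (0:ℝ) ≤ (U.card:ℝ)^2 - U.card)])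
  -- the family
  have hFmem : ∀ p, p ∈ M.image (fun j => j.1) ↔ ∃ j ∈ M, j.1 = p := by
    intro p; simp only [Finset.mem_image]
  have hdisj : ∀ j ∈ M, ∀ j' ∈ M, ∀ i, i ∈ j.1 → i ∈ j'.1 → j = j' := by
    intro j hj j' hj' i hi hi'
    by_contra hne
    have h1 := hM2 j hj j' hj' hne
    rw [Finset.disjoint_left] at h1
    have hiS : i ∈ S := (hgood j (hM1 j hj)).1 hi
    exact h1 (inl_mem_NE.2 (show (⟨i, hiS⟩ : {i // i ∈ S}).1 ∈ j.1 from hi))
      (inl_mem_NE.2 (show (⟨i, hiS⟩ : {i // i ∈ S}).1 ∈ j'.1 from hi'))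
  have hslotinj : ∀ j ∈ M, ∀ j' ∈ M, ∀ σ, j.2 = some σ → j'.2 = some σ → j = j' := by
    intro j hj j' hj' σ hσ hσ'
    by_contra hne
    have h1 := hM2 j hj j' hj' hne
    rw [Finset.disjoint_left] at h1
    exact h1 (inr_mem_NE.2 hσ) (inr_mem_NE.2 hσ')
  have hnotun : ∀ i, i ∈ S \ un (M.image (fun j => j.1)) → i ∈ S ∧ ∀ j ∈ M, i ∉ j.1 := by
    intro i hi
    rw [Finset.mem_sdiff, mem_un] at hi
    refine ⟨hi.1, fun j hj hij => hi.2 ⟨j.1, (hFmem _).2 ⟨j, hj, rfl⟩, hij⟩⟩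
  refine ⟨M.image (fun j => j.1), ?_, ?_, ?_, ?_, ?_⟩
  · intro p hp
    obtain ⟨j, hj, rfl⟩ := (hFmem p).1 hp
    obtain ⟨hjS, l, hl, c, hc, hp', _, _⟩ := hgood j (hM1 j hj)
    exact ⟨hjS, l, hl, c, hc, hp'⟩
  · intro p hp q hq hpq
    obtain ⟨j, hj, rfl⟩ := (hFmem p).1 hp
    obtain ⟨j', hj', rfl⟩ := (hFmem q).1 hq
    rw [Finset.disjoint_left]
    intro i hi hi'
    exact hpq (by rw [hdisj j hj j' hj' i hi hi'])
  · intro c hc l hl
    have key : ∀ p ∈ (M.image (fun j => j.1)).filter (fun p => IsPiece l c p), ∃ j ∈ M, j.1 = p ∧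
        ∃ i, ∃ h : (c, l, i) ∈ Sl L ls N D, j.2 = some ⟨(c, l, i), h⟩ := by
      intro p hp
      rw [Finset.mem_filter] at hp
      obtain ⟨j, hj, hjp⟩ := (hFmem p).1 hp.1
      refine ⟨j, hj, hjp, ?_⟩
      obtain ⟨hjS, l', hl', c', hc', hp', hn, hs⟩ := hgood j (hM1 j hj)
      have hu := hp'.uniq (hjp ▸ hp.2)
      rcases hj2 : j.2 with _ | σ
      · exfalso
        have := hn hj2
        rw [hu.1] at this
        exact (Finset.ne_of_mem_erase hl) this
      · have h3 := hs σ hj2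
        have h4 : σ.1 = (c, l, σ.1.2.2) := by
          rw [← hu.1, ← hu.2, ← h3.1, ← h3.2]
        refine ⟨σ.1.2.2, h4 ▸ σ.2, ?_⟩
        congr 1
        exact Subtype.ext h4
    constructor
    · rw [cnt_eq]
      have := Finset.card_le_card_of_forall_subsingleton
        (s := (M.image (fun j => j.1)).filter (fun p => IsPiece l c p)) (t := range (N l))
        (fun p i => ∃ j ∈ M, j.1 = p ∧ ∃ h : (c, l, i) ∈ Sl L ls N D, j.2 = some ⟨(c, l, i), h⟩)
        (by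
          intro p hp
          obtain ⟨j, hj, hjp, i, h, hi⟩ := key p hp
          refine ⟨i, ?_, j, hj, hjp, h, hi⟩
          rw [Finset.mem_range]
          exact (mem_Sl.1 h).2.2)
        (by
          intro i hi p hp q hq
          obtain ⟨hp1, j, hj, hjp, h, hi1⟩ := hp
          obtain ⟨hq1, j', hj', hjq, h', hi2⟩ := hq
          have := hslotinj j hj j' hj' _ hi1 hi2
          rw [← hjp, ← hjq, this])
      rwa [Finset.card_range] at this
    · have hb := hM3 (Sum.inr (Sum.inr (Sum.inr (⟨c, hc⟩, ⟨l, hl⟩)))) (by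
        have h2 : (N l : ℝ) ≤ U.card := by
          refine le_trans ?_ hN
          have h3 : (l : ℝ) * (N l : ℝ) ≤ ∑ l ∈ (Icc 3 L).erase ls, (l : ℝ) * (N l : ℝ) :=
            Finset.single_le_sum (f := fun l : ℕ => (l : ℝ) * (N l : ℝ)) (fun _ _ => by positivity) hl
          have h4 : (1:ℝ) ≤ (l:ℝ) := by
            have := (Finset.mem_Icc.1 (Finset.mem_of_mem_erase hl)).1
            exact_mod_cast (by omega : 1 ≤ l)
          nlinarith [(Nat.cast_nonneg (N l) : (0:ℝ) ≤ N l)]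
        refine le_trans ?_ h2
        have h1 := pc_le_card (P := fun x : NI S (Sl L ls N D) => match
            (Sum.inr (Sum.inr (Sum.inr (⟨c, hc⟩, ⟨l, hl⟩))) : {v // v ∈ U} ⊕ ({v // v ∈ U} ⊕ ({c // c ∈ D} ⊕ ({c // c ∈ D} × {l // l ∈ (Icc 3 L).erase ls})))), x with
              | Sum.inl v, Sum.inl i => ∃ u, i.1 = Sum.inl s(v.1, u)
              | Sum.inr (Sum.inl v), Sum.inl i => ∃ c, i.1 = Sum.inr (v.1, c)
              | Sum.inr (Sum.inr (Sum.inl c)), Sum.inl i => ∃ v, i.1 = Sum.inr (v, c.1)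
              | Sum.inr (Sum.inr (Sum.inr q)), Sum.inr σ => σ.1.1 = q.1.1 ∧ σ.1.2.1 = q.2.1
              | _, _ => False) (B := range (N l))
          (fun x i => ∃ h : (c, l, i) ∈ Sl L ls N D, x = Sum.inr ⟨(c, l, i), h⟩)
          (by
            rintro (x | ⟨⟨c', l', i⟩, hσ⟩) hx
            · exact absurd hx (by simp)
            · have h2 : c' = c ∧ l' = l := hx
              obtain ⟨rfl, rfl⟩ := h2
              exact ⟨i, Finset.mem_range.2 (mem_Sl.1 hσ).2.2, hσ, rfl⟩)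
          (by
            intro i x y hx hy
            obtain ⟨h, hx⟩ := hx
            obtain ⟨h', hy⟩ := hy
            rw [hx, hy])
        rw [Finset.card_range] at h1
        exact_mod_cast h1)
      have hsplit : (N l) ≤ cnt (M.image (fun j => j.1)) l c +
          pc (fun x : NI S (Sl L ls N D) => (∀ j ∈ M, x ∉ NE S (Sl L ls N D) j) ∧ match
            (Sum.inr (Sum.inr (Sum.inr (⟨c, hc⟩, ⟨l, hl⟩))) : {v // v ∈ U} ⊕ ({v // v ∈ U} ⊕ ({c // c ∈ D} ⊕ ({c // c ∈ D} × {l // l ∈ (Icc 3 L).erase ls})))), x with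
              | Sum.inl v, Sum.inl i => ∃ u, i.1 = Sum.inl s(v.1, u)
              | Sum.inr (Sum.inl v), Sum.inl i => ∃ c, i.1 = Sum.inr (v.1, c)
              | Sum.inr (Sum.inr (Sum.inl c)), Sum.inl i => ∃ v, i.1 = Sum.inr (v, c.1)
              | Sum.inr (Sum.inr (Sum.inr q)), Sum.inr σ => σ.1.1 = q.1.1 ∧ σ.1.2.1 = q.2.1
              | _, _ => False) := by
        have h0 : (range (N l)).card = ((range (N l)).filter (fun i => ∃ j ∈ M, ∃ h : (c, l, i) ∈ Sl L ls N D,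
            j.2 = some ⟨(c, l, i), h⟩)).card + ((range (N l)).filter (fun i => ¬ ∃ j ∈ M,
              ∃ h : (c, l, i) ∈ Sl L ls N D, j.2 = some ⟨(c, l, i), h⟩)).card := by
          rw [Finset.card_filter_add_card_filter_not]
        rw [Finset.card_range] at h0
        rw [h0, cnt_eq]
        refine Nat.add_le_add ?_ ?_
        · refine Finset.card_le_card_of_forall_subsingleton
            (fun i p => ∃ j ∈ M, j.1 = p ∧ ∃ h : (c, l, i) ∈ Sl L ls N D, j.2 = some ⟨(c, l, i), h⟩) ?_ ?_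
          · intro i hi
            obtain ⟨_, j, hj, h, hji⟩ := Finset.mem_filter.1 hi
            refine ⟨j.1, ?_, j, hj, rfl, h, hji⟩
            rw [Finset.mem_filter]
            refine ⟨(hFmem _).2 ⟨j, hj, rfl⟩, ?_⟩
            obtain ⟨hjS, l', hl', c', hc', hp', hn, hs⟩ := hgood j (hM1 j hj)
            have h3 := hs _ hji
            simp only at h3
            rw [h3.1, h3.2]; exact hp'
          · intro p hp i hi i' hi'
            obtain ⟨_, j, hj, hjp, h, hji⟩ := hi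
            obtain ⟨_, j', hj', hjp', h', hji'⟩ := hi'
            have hpp : IsPiece l c p := (Finset.mem_filter.1 hp).2
            obtain ⟨x, hx⟩ := hpp.nonempty
            have : j = j' := hdisj j hj j' hj' x (hjp ▸ hx) (hjp' ▸ hx)
            subst this
            rw [hji] at hji'
            simpa using hji'
        · refine card_le_pc
            (fun i x => ∃ h : (c, l, i) ∈ Sl L ls N D, x = Sum.inr ⟨(c, l, i), h⟩) ?_ ?_
          · intro i hi
            obtain ⟨hi1, hi2⟩ := Finset.mem_filter.1 hi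
            have hZi : (c, l, i) ∈ Sl L ls N D := mem_Sl.2 ⟨hc, hl, Finset.mem_range.1 hi1⟩
            refine ⟨Sum.inr ⟨(c, l, i), hZi⟩, ⟨?_, ⟨rfl, rfl⟩⟩, hZi, rfl⟩
            intro j hj hmem
            exact hi2 ⟨j, hj, hZi, inr_mem_NE.1 hmem⟩
          · intro x i i' hi hi'
            obtain ⟨h, hx1⟩ := hi
            obtain ⟨h', hx2⟩ := hi'
            rw [hx1] at hx2
            simpa using hx2
      have h9 : (N l : ℝ) ≤ (cnt (M.image (fun j => j.1)) l c : ℝ) +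
          (pc (fun x : NI S (Sl L ls N D) => (∀ j ∈ M, x ∉ NE S (Sl L ls N D) j) ∧ match
            (Sum.inr (Sum.inr (Sum.inr (⟨c, hc⟩, ⟨l, hl⟩))) : {v // v ∈ U} ⊕ ({v // v ∈ U} ⊕ ({c // c ∈ D} ⊕ ({c // c ∈ D} × {l // l ∈ (Icc 3 L).erase ls})))), x with
              | Sum.inl v, Sum.inl i => ∃ u, i.1 = Sum.inl s(v.1, u)
              | Sum.inr (Sum.inl v), Sum.inl i => ∃ c, i.1 = Sum.inr (v.1, c)
              | Sum.inr (Sum.inr (Sum.inl c)), Sum.inl i => ∃ v, i.1 = Sum.inr (v, c.1)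
              | Sum.inr (Sum.inr (Sum.inr q)), Sum.inr σ => σ.1.1 = q.1.1 ∧ σ.1.2.1 = q.2.1
              | _, _ => False) : ℝ) := by exact_mod_cast hsplit
      exact le_trans h9 (add_le_add (le_refl _) hb)
  · intro v hv
    constructor
    · have hb := hM3 (Sum.inl ⟨v, hv⟩) (by
        have h1 := pc_le_card (P := fun x : NI S (Sl L ls N D) => match
            (Sum.inl ⟨v, hv⟩ : {v // v ∈ U} ⊕ ({v // v ∈ U} ⊕ ({c // c ∈ D} ⊕ ({c // c ∈ D} × {l // l ∈ (Icc 3 L).erase ls})))), x with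
              | Sum.inl v, Sum.inl i => ∃ u, i.1 = Sum.inl s(v.1, u)
              | Sum.inr (Sum.inl v), Sum.inl i => ∃ c, i.1 = Sum.inr (v.1, c)
              | Sum.inr (Sum.inr (Sum.inl c)), Sum.inl i => ∃ v, i.1 = Sum.inr (v, c.1)
              | Sum.inr (Sum.inr (Sum.inr q)), Sum.inr σ => σ.1.1 = q.1.1 ∧ σ.1.2.1 = q.2.1
              | _, _ => False) (B := U)
          (fun x u => ∃ h : (Sum.inl s(v, u) : Item V C) ∈ S, x = Sum.inl ⟨_, h⟩)
          (by
            rintro (⟨i, hi⟩ | σ) hx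
            · obtain ⟨u, hu⟩ : ∃ u, i = Sum.inl s(v, u) := hx
              subst hu
              exact ⟨u, (hins.1 v u hi).2.2, hi, rfl⟩
            · exact absurd hx (by simp))
          (by
            intro u x y hx hy
            obtain ⟨h, hx⟩ := hx
            obtain ⟨h', hy⟩ := hy
            rw [hx, hy])
        exact_mod_cast h1)
      refine le_trans ?_ hb
      have h1 := card_le_pc (P := fun x : NI S (Sl L ls N D) => (∀ j ∈ M, x ∉ NE S (Sl L ls N D) j) ∧ match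
            (Sum.inl ⟨v, hv⟩ : {v // v ∈ U} ⊕ ({v // v ∈ U} ⊕ ({c // c ∈ D} ⊕ ({c // c ∈ D} × {l // l ∈ (Icc 3 L).erase ls})))), x with
              | Sum.inl v, Sum.inl i => ∃ u, i.1 = Sum.inl s(v.1, u)
              | Sum.inr (Sum.inl v), Sum.inl i => ∃ c, i.1 = Sum.inr (v.1, c)
              | Sum.inr (Sum.inr (Sum.inl c)), Sum.inl i => ∃ v, i.1 = Sum.inr (v, c.1)
              | Sum.inr (Sum.inr (Sum.inr q)), Sum.inr σ => σ.1.1 = q.1.1 ∧ σ.1.2.1 = q.2.1
              | _, _ => False) (B := nb (S \ un (M.image (fun j => j.1))) v)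
            (fun u x => ∃ h : (Sum.inl s(v, u) : Item V C) ∈ S, x = Sum.inl ⟨_, h⟩)
        (by
          intro u hu
          rw [mem_nb] at hu
          obtain ⟨h1, h2⟩ := hnotun _ hu
          exact ⟨Sum.inl ⟨_, h1⟩, ⟨fun j hj hmem => h2 j hj (inl_mem_NE.1 hmem), ⟨u, rfl⟩⟩, h1, rfl⟩)
        (by
          intro x u u' hu hu'
          obtain ⟨h, hx1⟩ := hu
          obtain ⟨h', hx2⟩ := hu'
          rw [hx1] at hx2
          simp only [Sum.inl.injEq, Subtype.mk.injEq] at hx2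
          exact Sym2.congr_right.1 hx2)
      exact_mod_cast h1
    · have hb := hM3 (Sum.inr (Sum.inl ⟨v, hv⟩)) (by
        have h1 := pc_le_card (P := fun x : NI S (Sl L ls N D) => match
            (Sum.inr (Sum.inl ⟨v, hv⟩) : {v // v ∈ U} ⊕ ({v // v ∈ U} ⊕ ({c // c ∈ D} ⊕ ({c // c ∈ D} × {l // l ∈ (Icc 3 L).erase ls})))), x with
              | Sum.inl v, Sum.inl i => ∃ u, i.1 = Sum.inl s(v.1, u)
              | Sum.inr (Sum.inl v), Sum.inl i => ∃ c, i.1 = Sum.inr (v.1, c)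
              | Sum.inr (Sum.inr (Sum.inl c)), Sum.inl i => ∃ v, i.1 = Sum.inr (v, c.1)
              | Sum.inr (Sum.inr (Sum.inr q)), Sum.inr σ => σ.1.1 = q.1.1 ∧ σ.1.2.1 = q.2.1
              | _, _ => False) (B := D)
          (fun x c => ∃ h : (Sum.inr (v, c) : Item V C) ∈ S, x = Sum.inl ⟨_, h⟩)
          (by
            rintro (⟨i, hi⟩ | σ) hx
            · obtain ⟨c, hc⟩ : ∃ c, i = Sum.inr (v, c) := hx
              subst hc
              exact ⟨c, (hins.2 v c hi).2, hi, rfl⟩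
            · exact absurd hx (by simp))
          (by
            intro u x y hx hy
            obtain ⟨h, hx⟩ := hx
            obtain ⟨h', hy⟩ := hy
            rw [hx, hy])
        exact le_trans (by exact_mod_cast h1) hDm)
      refine le_trans ?_ hb
      have h1 := card_le_pc (P := fun x : NI S (Sl L ls N D) => (∀ j ∈ M, x ∉ NE S (Sl L ls N D) j) ∧ match
            (Sum.inr (Sum.inl ⟨v, hv⟩) : {v // v ∈ U} ⊕ ({v // v ∈ U} ⊕ ({c // c ∈ D} ⊕ ({c // c ∈ D} × {l // l ∈ (Icc 3 L).erase ls})))), x with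
              | Sum.inl v, Sum.inl i => ∃ u, i.1 = Sum.inl s(v.1, u)
              | Sum.inr (Sum.inl v), Sum.inl i => ∃ c, i.1 = Sum.inr (v.1, c)
              | Sum.inr (Sum.inr (Sum.inl c)), Sum.inl i => ∃ v, i.1 = Sum.inr (v, c.1)
              | Sum.inr (Sum.inr (Sum.inr q)), Sum.inr σ => σ.1.1 = q.1.1 ∧ σ.1.2.1 = q.2.1
              | _, _ => False) (B := cl (S \ un (M.image (fun j => j.1))) v)
            (fun c x => ∃ h : (Sum.inr (v, c) : Item V C) ∈ S, x = Sum.inl ⟨_, h⟩)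
        (by
          intro c hc
          rw [mem_cl] at hc
          obtain ⟨h1, h2⟩ := hnotun _ hc
          exact ⟨Sum.inl ⟨_, h1⟩, ⟨fun j hj hmem => h2 j hj (inl_mem_NE.1 hmem), ⟨c, rfl⟩⟩, h1, rfl⟩)
        (by
          intro x u u' hu hu'
          obtain ⟨h, hx1⟩ := hu
          obtain ⟨h', hx2⟩ := hu'
          rw [hx1] at hx2
          simpa using hx2)
      exact_mod_cast h1
  · intro c hc
    have hb := hM3 (Sum.inr (Sum.inr (Sum.inl ⟨c, hc⟩))) (by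
        have h1 := pc_le_card (P := fun x : NI S (Sl L ls N D) => match
            (Sum.inr (Sum.inr (Sum.inl ⟨c, hc⟩)) : {v // v ∈ U} ⊕ ({v // v ∈ U} ⊕ ({c // c ∈ D} ⊕ ({c // c ∈ D} × {l // l ∈ (Icc 3 L).erase ls})))), x with
              | Sum.inl v, Sum.inl i => ∃ u, i.1 = Sum.inl s(v.1, u)
              | Sum.inr (Sum.inl v), Sum.inl i => ∃ c, i.1 = Sum.inr (v.1, c)
              | Sum.inr (Sum.inr (Sum.inl c)), Sum.inl i => ∃ v, i.1 = Sum.inr (v, c.1)
              | Sum.inr (Sum.inr (Sum.inr q)), Sum.inr σ => σ.1.1 = q.1.1 ∧ σ.1.2.1 = q.2.1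
              | _, _ => False) (B := U)
          (fun x v => ∃ h : (Sum.inr (v, c) : Item V C) ∈ S, x = Sum.inl ⟨_, h⟩)
          (by
            rintro (⟨i, hi⟩ | σ) hx
            · obtain ⟨v, hv⟩ : ∃ v, i = Sum.inr (v, c) := hx
              subst hv
              exact ⟨v, (hins.2 v c hi).1, hi, rfl⟩
            · exact absurd hx (by simp))
          (by
            intro u x y hx hy
            obtain ⟨h, hx⟩ := hx
            obtain ⟨h', hy⟩ := hy
            rw [hx, hy])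
        exact_mod_cast h1)
    refine le_trans ?_ hb
    have h1 := card_le_pc (P := fun x : NI S (Sl L ls N D) => (∀ j ∈ M, x ∉ NE S (Sl L ls N D) j) ∧ match
            (Sum.inr (Sum.inr (Sum.inl ⟨c, hc⟩)) : {v // v ∈ U} ⊕ ({v // v ∈ U} ⊕ ({c // c ∈ D} ⊕ ({c // c ∈ D} × {l // l ∈ (Icc 3 L).erase ls})))), x with
              | Sum.inl v, Sum.inl i => ∃ u, i.1 = Sum.inl s(v.1, u)
              | Sum.inr (Sum.inl v), Sum.inl i => ∃ c, i.1 = Sum.inr (v.1, c)
              | Sum.inr (Sum.inr (Sum.inl c)), Sum.inl i => ∃ v, i.1 = Sum.inr (v, c.1)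
              | Sum.inr (Sum.inr (Sum.inr q)), Sum.inr σ => σ.1.1 = q.1.1 ∧ σ.1.2.1 = q.2.1
              | _, _ => False) (B := vt (S \ un (M.image (fun j => j.1))) c)
            (fun v x => ∃ h : (Sum.inr (v, c) : Item V C) ∈ S, x = Sum.inl ⟨_, h⟩)
        (by
          intro v hv
          rw [mem_vt] at hv
          obtain ⟨h1, h2⟩ := hnotun _ hv
          exact ⟨Sum.inl ⟨_, h1⟩, ⟨fun j hj hmem => h2 j hj (inl_mem_NE.1 hmem), ⟨v, rfl⟩⟩, h1, rfl⟩)
        (by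
          intro x u u' hu hu'
          obtain ⟨h, hx1⟩ := hu
          obtain ⟨h', hx2⟩ := hu'
          rw [hx1] at hx2
          simpa using hx2)
    exact_mod_cast h1

end

theorem approx (hN : NibStmt) (hM : MixStmt) : ApproxStmt := by
  intro ε α hε hα
  obtain ⟨η₀, hη₀, hM'⟩ := hM ε α hε hα
  refine ⟨η₀, hη₀, fun L γ hγ => ?_⟩
  obtain ⟨βM, K, hβM, hK, mM, hMix⟩ := hM' L
  obtain ⟨δ₀, hδ₀, hNib⟩ := hN (2*L+1) (γ/8) 5 (by positivity)
  set β₀ : ℝ := min βM (γ / (16 * K)) with hβ₀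
  have hβ₀p : 0 < β₀ := lt_min hβM (by positivity)
  set K' : ℝ := K + 1 with hK'
  obtain ⟨m₁, hm₁⟩ := exists_nat_ge (K' ^ 5 * (L + 6) + K' / δ₀ + 16 * K / γ + 1)
  refine ⟨β₀, hβ₀p, max mM m₁, ?_⟩
  intro V C _ _ _ _ U D S ls N hU hins hD1 hD2 hmV hmC hbal hls hlsL hNs
  have hU1 : mM ≤ U.card := le_trans (le_max_left _ _) hU
  have hU2 : (m₁ : ℝ) ≤ U.card := by exact_mod_cast le_trans (le_max_right _ _) hU
  have hK'1 : 1 ≤ K' := by rw [hK']; linarith
  have hLr : (0:ℝ) ≤ L := Nat.cast_nonneg L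
  have hp1 : 0 ≤ K' ^ 5 * (L + 6) := by positivity
  have hp2 : 0 ≤ K' / δ₀ := by positivity
  have hp3 : 0 ≤ 16 * K / γ := by positivity
  have hUge : K' ^ 5 * (L + 6) + K' / δ₀ + 16 * K / γ + 1 ≤ U.card := le_trans hm₁ hU2
  have hU0 : (0:ℝ) < U.card := by linarith
  obtain ⟨W, hW0, hW1, hW2, hW3, hW4, hW5⟩ := hMix V C U D S β₀ ls N hU1 hins hD1 hD2 hmV hmC hβ₀p.le
    (min_le_left _ _) hbal hls hlsL hNs
  have hα' : (1 - α) * (U.card : ℝ) ≤ U.card := by nlinarith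
  refine approx_core L K' γ δ₀ hK'1 hγ (fun δ h1 h2 => hNib δ h1 h2) U D S ls N W (by linarith) ?_ hins hD2
    (le_trans hNs hα') hW0 hW1 ?_ ?_ ?_ ?_
  · rw [div_le_iff₀ hU0]
    have : K' / δ₀ ≤ U.card := by linarith
    rw [div_le_iff₀ hδ₀] at this
    linarith
  · intro l hl c hc
    rw [← hW2 l hl c hc, flt_eq_isum]
  · intro i hi
    have h := hW3 i hi
    rw [flt_eq_isum] at h
    refine ⟨le_trans ?_ h.1, h.2⟩
    have h1 : K * β₀ ≤ γ / 16 := by
      have : β₀ ≤ γ / (16 * K) := min_le_right _ _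
      calc K * β₀ ≤ K * (γ / (16 * K)) := by gcongr
        _ = γ / 16 := by field_simp
    have h2 : K * (1 / U.card) ≤ γ / 16 := by
      have : 16 * K / γ ≤ U.card := by linarith
      rw [div_le_iff₀ hγ] at this
      rw [mul_one_div, div_le_iff₀ hU0]
      linarith
    linarith [mul_add K β₀ (1 / (U.card:ℝ))]
  · intro i j hij
    have h := hW4 i j hij
    rw [flt_eq_isum] at h
    refine le_trans h ?_
    gcongr
    rw [hK']; linarith
  · intro l hl c hc i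
    have h := hW5 l hl c hc i
    rw [flt_eq_isum] at h
    refine le_trans h ?_
    gcongr
    rw [hK']; linarith

end Pool.Agent.OBW
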