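import Mathlib
import Pool.Agent.OBW.Defs
import Pool.Agent.OBW.Stmts
import Pool.Agent.OBW.Basic

set_option autoImplicit false
set_option linter.unusedSectionVars false
set_option linter.unusedVariables false

/-! `LinkHyp` for the remaining system. -/

namespace Pool.Agent.OBW

open Finset

section
variable {V C : Type} [Fintype V] [DecidableEq V] [Fintype C] [DecidableEq C]

/-- the item lies inside `(U', D')` -/
def inn (U' : Finset V) (D' : Finset C) (i : Item V C) : Prop :=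
  (∃ u ∈ U', ∃ v ∈ U', i = Sum.inl s(u, v)) ∨ (∃ u ∈ U', ∃ c ∈ D', i = Sum.inr (u, c))

theorem inn_inl {U' : Finset V} {D' : Finset C} {u v : V} :
    inn U' D' (Sum.inl s(u, v) : Item V C) ↔ u ∈ U' ∧ v ∈ U' := by
  unfold inn
  constructor
  · rintro (⟨a, ha, b, hb, h⟩ | ⟨a, ha, c, hc, h⟩)
    · have := Sum.inl.inj h
      rw [Sym2.eq_iff] at this
      rcases this with ⟨rfl, rfl⟩ | ⟨rfl, rfl⟩
      · exact ⟨ha, hb⟩
      · exact ⟨hb, ha⟩
    · simp at h
  · rintro ⟨h1, h2⟩
    exact Or.inl ⟨u, h1, v, h2, rfl⟩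

theorem inn_inr {U' : Finset V} {D' : Finset C} {u : V} {c : C} :
    inn U' D' (Sum.inr (u, c) : Item V C) ↔ u ∈ U' ∧ c ∈ D' := by
  unfold inn
  constructor
  · rintro (⟨a, ha, b, hb, h⟩ | ⟨a, ha, c, hc, h⟩)
    · simp at h
    · have := Sum.inr.inj h
      rw [Prod.mk.injEq] at this
      obtain ⟨rfl, rfl⟩ := this
      exact ⟨ha, hc⟩
  · rintro ⟨h1, h2⟩
    exact Or.inr ⟨u, h1, c, h2, rfl⟩

theorem card_le_add2 {α : Type} [DecidableEq α] {A B B' : Finset α} (h : A ⊆ B ∪ B') :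
    (A.card : ℝ) ≤ B.card + B'.card := by
  have h1 := (Finset.card_le_card h).trans (Finset.card_union_le _ _)
  exact_mod_cast h1

theorem card_le_add3 {α : Type} [DecidableEq α] {A B B' B'' : Finset α} (h : A ⊆ B ∪ B' ∪ B'') :
    (A.card : ℝ) ≤ B.card + B'.card + B''.card := by
  have h1 := card_le_add2 h
  have h2 := card_le_add2 (Finset.Subset.refl (B ∪ B'))
  linarith

theorem card_le_add4 {α : Type} [DecidableEq α] {A B B' B'' B''' : Finset α} (h : A ⊆ B ∪ B' ∪ B'' ∪ B''') :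
    (A.card : ℝ) ≤ B.card + B'.card + B''.card + B'''.card := by
  have h1 := card_le_add2 h
  have h2 := card_le_add3 (Finset.Subset.refl (B ∪ B' ∪ B''))
  linarith

theorem card_le_r {α : Type} {A B : Finset α} (h : A ⊆ B) : (A.card : ℝ) ≤ B.card := by
  exact_mod_cast Finset.card_le_card h

/-- The remaining system satisfies the hypotheses of LINK. -/
theorem linkHyp_of {δ ε η ξ μ p ζ θ γ : ℝ} {ls : ℕ} {U U' U'' : Finset V} {D D' D'' : Finset C}
    {S R T W Lo : Finset (Item V C)}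
    (hε : 0 < ε) (hμ0 : 0 < μ) (hμ : μ ≤ 1 / 2000) (hμε : μ ≤ ε / 16) (hη0 : 0 ≤ η) (hη : η ≤ ε / 16)
    (hp : 0 < p) (hp1 : p ≤ 1) (hθ : 0 ≤ θ) (hγ : 0 ≤ γ) (hζ : 0 ≤ ζ)
    (hτ : (θ + γ) * 2 / μ + ζ ≤ p ^ 2 * ε / 200) (hm : 2 ≤ μ * U.card)
    (hSt : Stage δ ε η ξ μ U U' D D' S)
    (hU'' : U'' ⊆ U') (hD'' : D'' ⊆ D') (hU''c : (U''.card : ℝ) ≤ μ * U'.card)
    (hRes : Res p ζ μ U U' U'' D D' D'' S R)
    (hTS : T ⊆ S)
    (hT1 : ∀ i ∈ T, i ∈ R ∨ inn U' D' i ∨ i ∈ Lo)
    (hT2 : ∀ i, (i ∈ R ∨ (i ∈ S ∧ inn U' D' i)) → i ∉ W → i ∈ T)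
    (hWv : ∀ v ∈ U, ((nb W v).card : ℝ) ≤ θ * U.card ∧ ((cl W v).card : ℝ) ≤ θ * U.card)
    (hWc : ∀ c ∈ D, ((vt W c).card : ℝ) ≤ θ * U.card)
    (hLv : ∀ v ∈ U, ((nb Lo v).card : ℝ) ≤ γ * U.card ∧ ((cl Lo v).card : ℝ) ≤ γ * U.card)
    (hLc : ∀ c ∈ D, ((vt Lo c).card : ℝ) ≤ γ * U.card)
    (eX : ∀ x ∈ U \ U', ∀ y ∈ U \ U', (Sum.inl s(x, y) : Item V C) ∉ T)
    (cX : ∀ x ∈ U \ U', ∀ c ∈ D \ D', (Sum.inr (x, c) : Item V C) ∉ T)
    (bx : ∀ x ∈ U \ U', (nb T x).card = 2 * (cl T x).card)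
    (dv : ∀ c ∈ D \ D', ls ∣ (vt T c).card) :
    LinkHyp p (ε / 2) μ ls U U' U'' D D' D'' T := by
  have hU : U' ⊆ U := hSt.subU
  have hins := hSt.ins
  have hTins : Inside U D T := hins.mono hTS
  set m : ℝ := (U.card : ℝ) with hmdef
  set M : ℝ := (U'.card : ℝ) with hMdef
  have hMlo : μ * m - 1 ≤ M := hSt.Ulo
  have hM1 : 1 ≤ M := by linarith
  have hm0 : 0 < m := by
    by_contra h
    have h1 : m ≤ 0 := not_lt.1 h
    nlinarith
  have hmM : m ≤ 2 * M / μ := by
    rw [le_div_iff₀ hμ0]; linarith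
  have hMm : M ≤ μ * m := hSt.Uhi
  have hε8 : ε ≤ 1 / 8 := by have := hSt.δlo; have := hSt.δhi; linarith
  set τ : ℝ := p ^ 2 * ε / 200 with hτdef
  have hθM : θ * m ≤ τ * M := by
    have h1 : θ * m ≤ θ * (2 * M / μ) := mul_le_mul_of_nonneg_left hmM hθ
    have h2 : θ * (2 * M / μ) = (θ * 2 / μ) * M := by ring
    have h3 : 0 ≤ γ * 2 / μ := by positivity
    have h4 : θ * 2 / μ ≤ τ := by
      have : (θ + γ) * 2 / μ = θ * 2 / μ + γ * 2 / μ := by ring
      linarith
    rw [h2] at h1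
    exact h1.trans (mul_le_mul_of_nonneg_right h4 (by linarith))
  have hγM : γ * m ≤ τ * M := by
    have h1 : γ * m ≤ γ * (2 * M / μ) := mul_le_mul_of_nonneg_left hmM hγ
    have h2 : γ * (2 * M / μ) = (γ * 2 / μ) * M := by ring
    have h3 : 0 ≤ θ * 2 / μ := by positivity
    have h4 : γ * 2 / μ ≤ τ := by
      have : (θ + γ) * 2 / μ = θ * 2 / μ + γ * 2 / μ := by ring
      linarith
    rw [h2] at h1
    exact h1.trans (mul_le_mul_of_nonneg_right h4 (by linarith))
  have hζτ : ζ ≤ τ := by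
    have h3 : 0 ≤ (θ + γ) * 2 / μ := by positivity
    linarith
  have hζM : ζ * M ≤ τ * M := mul_le_mul_of_nonneg_right hζτ (by linarith)
  have hM0 : 0 < M := by linarith
  -- τ is tiny
  have hτp2 : τ ≤ p ^ 2 / 1600 := by
    rw [hτdef]
    have : p ^ 2 * ε ≤ p ^ 2 * (1/8) := mul_le_mul_of_nonneg_left hε8 (by positivity)
    linarith
  have hp2p : p ^ 2 ≤ p := by nlinarith
  have hτp : τ ≤ p / 1600 := by linarith
  have hτε : τ ≤ p * ε / 200 := by
    rw [hτdef]
    have : p ^ 2 * ε ≤ p * ε := mul_le_mul_of_nonneg_right hp2p hε.le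
    linarith
  have hτ1 : τ ≤ 1 / 1600 := by linarith
  have hτε' : τ ≤ ε / 200 := by
    have : p * ε ≤ 1 * ε := mul_le_mul_of_nonneg_right hp1 hε.le
    linarith
  have hτ0 : 0 ≤ τ := by positivity
  have hτM0 : 0 ≤ τ * M := by positivity
  have hpM0 : 0 ≤ p * M := by positivity
  have hτpM : τ * M ≤ p / 1600 * M := mul_le_mul_of_nonneg_right hτp hM0.le
  have hτp2M : τ * M ≤ p ^ 2 / 1600 * M := mul_le_mul_of_nonneg_right hτp2 hM0.le
  have hτεM : τ * M ≤ p * ε / 200 * M := mul_le_mul_of_nonneg_right hτε hM0.le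
  have hτ1M : τ * M ≤ 1 / 1600 * M := mul_le_mul_of_nonneg_right hτ1 hM0.le
  have hτε'M : τ * M ≤ ε / 200 * M := mul_le_mul_of_nonneg_right hτε' hM0.le
  have hm2 : (2:ℝ) ≤ m := by nlinarith
  -- basic upper sets
  have hnbx : ∀ x ∈ U \ U', nb T x ⊆ nb R x ∪ nb Lo x := by
    intro x hx u hu
    rw [mem_nb] at hu
    rw [Finset.mem_union, mem_nb, mem_nb]
    rcases hT1 _ hu with h | h | h
    · exact Or.inl h
    · rw [inn_inl] at h
      exact absurd h.1 (Finset.mem_sdiff.1 hx).2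
    · exact Or.inr h
  have hclx : ∀ x ∈ U \ U', cl T x ⊆ cl R x ∪ cl Lo x := by
    intro x hx c hc
    rw [mem_cl] at hc
    rw [Finset.mem_union, mem_cl, mem_cl]
    rcases hT1 _ hc with h | h | h
    · exact Or.inl h
    · rw [inn_inr] at h
      exact absurd h.1 (Finset.mem_sdiff.1 hx).2
    · exact Or.inr h
  have hvtc : ∀ c ∈ D \ D', vt T c ⊆ vt R c ∪ vt Lo c := by
    intro c hc v hv
    rw [mem_vt] at hv
    rw [Finset.mem_union, mem_vt, mem_vt]
    rcases hT1 _ hv with h | h | h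
    · exact Or.inl h
    · rw [inn_inr] at h
      exact absurd h.2 (Finset.mem_sdiff.1 hc).2
    · exact Or.inr h
  have hxU : ∀ {x}, x ∈ U \ U' → x ∈ U := fun h => (Finset.mem_sdiff.1 h).1
  have hcD : ∀ {c}, c ∈ D \ D' → c ∈ D := fun h => (Finset.mem_sdiff.1 h).1
  have hnbxU' : ∀ x ∈ U \ U', nb T x ⊆ U' := by
    intro x hx u hu
    by_contra hu'
    rw [mem_nb] at hu
    have huU : u ∈ U := (hTins.1 _ _ hu).2.2
    exact eX x hx u (Finset.mem_sdiff.2 ⟨huU, hu'⟩) hu
  have hclxD' : ∀ x ∈ U \ U', cl T x ⊆ D' := by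
    intro x hx c hc
    by_contra hc'
    rw [mem_cl] at hc
    have hcD : c ∈ D := (hTins.2 _ _ hc).2
    exact cX x hx c (Finset.mem_sdiff.2 ⟨hcD, hc'⟩) hc
  -- cardinalities
  have hnxle : ∀ x ∈ U \ U', ((nb T x).card : ℝ) ≤ p * ((nb S x ∩ U').card : ℝ) + ζ * M + γ * m := by
    intro x hx
    have h1 := card_le_add2 (hnbx x hx)
    have h2 := (abs_le.1 (hRes.nx x hx)).2
    have h3 := (hLv x (hxU hx)).1
    linarith
  have hnxge : ∀ x ∈ U \ U', p * ((nb S x ∩ U').card : ℝ) - ζ * M - θ * m ≤ ((nb T x).card : ℝ) := by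
    intro x hx
    have h0 : nb R x ⊆ nb T x ∪ nb W x := by
      intro u hu
      rw [mem_nb] at hu
      rw [Finset.mem_union, mem_nb, mem_nb]
      by_cases h : (Sum.inl s(x, u) : Item V C) ∈ W
      · exact Or.inr h
      · exact Or.inl (hT2 _ (Or.inl hu) h)
    have h1 := card_le_add2 h0
    have h2 := (abs_le.1 (hRes.nx x hx)).1
    have h3 := (hWv x (hxU hx)).1
    linarith
  have hSxle : ∀ x, ((nb S x ∩ U').card : ℝ) ≤ M := fun x => card_le_r Finset.inter_subset_right
  have hSxge : ∀ x ∈ U, (3/4 + ε) * M ≤ ((nb S x ∩ U').card : ℝ) := hSt.degU'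
  have hwcle : ∀ c ∈ D \ D', ((vt T c).card : ℝ) ≤ p * M + ζ * M + γ * m := by
    intro c hc
    have h1 := card_le_add2 (hvtc c hc)
    have h2 := (abs_le.1 (hRes.wc c hc)).2
    have h3 := hLc c (hcD hc)
    have h4 : ((vt S c ∩ U').card : ℝ) ≤ M := card_le_r Finset.inter_subset_right
    have h5 : p * ((vt S c ∩ U').card : ℝ) ≤ p * M := mul_le_mul_of_nonneg_left h4 hp.le
    linarith
  have hclge : ∀ x ∈ U \ U', p / 3 * M ≤ ((cl T x).card : ℝ) := by
    intro x hx
    have h1 := hnxge x hx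
    have h2 : ((nb T x).card : ℝ) = 2 * ((cl T x).card : ℝ) := by exact_mod_cast bx x hx
    have h3 := hSxge x (hxU hx)
    have h4 : p * ((3/4 + ε) * M) ≤ p * ((nb S x ∩ U').card : ℝ) := mul_le_mul_of_nonneg_left h3 hp.le
    have h5 : 0 ≤ p * (ε * M) := by positivity
    nlinarith
  have hM' : (U''.card : ℝ) ≤ μ * M := hU''c
  refine
    { subU := hU, subD := hSt.subD, subU'' := hU'', subD'' := hD'', Ulo := hMlo, Dhi := ?_, ins := hTins,
      eX := eX, cX := cX, nx := ?_, wc := ?_, nu := ?_, cu := ?_, xc := ?_, nn := ?_, cc := ?_, ww := ?_,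
      nw := ?_, uw := ?_, un := ?_, uc := ?_, cn := ?_, uu := ?_, cU := ?_, bx := bx, dv := dv }
  · -- Dhi
    have h1 := (abs_le.1 hSt.dD).2
    have h2 := hSt.δhi
    have h3 : δ * m ≤ 1/2 * m := mul_le_mul_of_nonneg_right h2 hm0.le
    have h4 : (D.card : ℝ) ≤ (U.card : ℝ) := by linarith
    exact_mod_cast h4
  · -- nx
    intro x hx
    have h1 := hnxle x hx
    have h2 := hnxge x hx
    have h3 := hSxle x
    have h4 := hSxge x (hxU hx)
    have h5 : p * ((nb S x ∩ U').card : ℝ) ≤ p * M := mul_le_mul_of_nonneg_left h3 hp.le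
    have h6 : p * ((3/4 + ε) * M) ≤ p * ((nb S x ∩ U').card : ℝ) := mul_le_mul_of_nonneg_left h4 hp.le
    have h7 : 0 ≤ p * (ε * M) := by positivity
    constructor
    · nlinarith
    · nlinarith
  · -- wc
    intro c hc
    have h1 := hwcle c hc
    have h0 : vt R c ⊆ vt T c ∪ vt W c := by
      intro u hu
      rw [mem_vt] at hu
      rw [Finset.mem_union, mem_vt, mem_vt]
      by_cases h : (Sum.inr (u, c) : Item V C) ∈ W
      · exact Or.inr h
      · exact Or.inl (hT2 _ (Or.inl hu) h)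
    have h2 := card_le_add2 h0
    have h3 := (abs_le.1 (hRes.wc c hc)).1
    have h4 := hWc c (hcD hc)
    have h5 : M ≤ ((vt S c ∩ U').card : ℝ) + η * M := by
      have h6 : U' ⊆ (vt S c ∩ U') ∪ (U' \ vt S c) := by
        intro v hv
        by_cases h : v ∈ vt S c
        · exact Finset.mem_union_left _ (Finset.mem_inter.2 ⟨h, hv⟩)
        · exact Finset.mem_union_right _ (Finset.mem_sdiff.2 ⟨hv, h⟩)
      have h7 := card_le_add2 h6
      have h8 := hSt.missC' c (hcD hc)
      linarith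
    have h6 : p * M ≤ p * ((vt S c ∩ U').card : ℝ) + p * (η * M) := by
      have := mul_le_mul_of_nonneg_left h5 hp.le
      linarith
    have h7 : p * (η * M) ≤ p * (1/128 * M) := by
      apply mul_le_mul_of_nonneg_left _ hp.le
      apply mul_le_mul_of_nonneg_right _ hM0.le
      linarith
    constructor
    · nlinarith
    · nlinarith
  · -- nu
    intro u hu
    have h0 : nb T u \ U' ⊆ nb R u ∪ nb Lo u := by
      intro v hv
      rw [Finset.mem_sdiff, mem_nb] at hv
      rw [Finset.mem_union, mem_nb, mem_nb]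
      rcases hT1 _ hv.1 with h | h | h
      · exact Or.inl h
      · rw [inn_inl] at h
        exact absurd h.2 hv.2
      · exact Or.inr h
    have h1 := card_le_add2 h0
    have h2 := (abs_le.1 (hRes.nu u hu)).2
    have h3 := (hLv u (hU hu)).1
    have h4 : ((nb S u \ U').card : ℝ) ≤ m :=
      card_le_r (Finset.sdiff_subset.trans (hins.nb_sub u))
    have h5 : p * ((nb S u \ U').card : ℝ) ≤ p * m := mul_le_mul_of_nonneg_left h4 hp.le
    have h6 : ζ * m ≤ p / 1600 * m := mul_le_mul_of_nonneg_right (hζτ.trans hτp) hm0.le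
    have h7 : τ * M ≤ p / 1600 * m := by
      have : M ≤ m := by nlinarith
      calc τ * M ≤ p / 1600 * M := hτpM
        _ ≤ p / 1600 * m := mul_le_mul_of_nonneg_left this (by positivity)
    have h8 : 0 ≤ p * m := by positivity
    linarith
  · -- cu
    intro u hu
    have h0 : cl T u \ D' ⊆ cl R u ∪ cl Lo u := by
      intro c hc
      rw [Finset.mem_sdiff, mem_cl] at hc
      rw [Finset.mem_union, mem_cl, mem_cl]
      rcases hT1 _ hc.1 with h | h | h
      · exact Or.inl h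
      · rw [inn_inr] at h
        exact absurd h.2 hc.2
      · exact Or.inr h
    have h1 := card_le_add2 h0
    have h2 := (abs_le.1 (hRes.cu u hu)).2
    have h3 := (hLv u (hU hu)).2
    have hDm : (D.card : ℝ) ≤ m := by
      have h1 := (abs_le.1 hSt.dD).2
      have h2 := hSt.δhi
      have h3 : δ * m ≤ 1/2 * m := mul_le_mul_of_nonneg_right h2 hm0.le
      linarith
    have h4 : ((cl S u \ D').card : ℝ) ≤ m :=
      (card_le_r (Finset.sdiff_subset.trans (hins.cl_sub u))).trans hDm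
    have h5 : p * ((cl S u \ D').card : ℝ) ≤ p * m := mul_le_mul_of_nonneg_left h4 hp.le
    have h6 : ζ * m ≤ p / 1600 * m := mul_le_mul_of_nonneg_right (hζτ.trans hτp) hm0.le
    have h7 : τ * M ≤ p / 1600 * m := by
      have : M ≤ m := by nlinarith
      calc τ * M ≤ p / 1600 * M := hτpM
        _ ≤ p / 1600 * m := mul_le_mul_of_nonneg_left this (by positivity)
    have h8 : 0 ≤ p * m := by positivity
    linarith
  · -- xc
    intro c hc
    have h0 : vt T c \ U' ⊆ vt R c ∪ vt Lo c := by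
      intro v hv
      rw [Finset.mem_sdiff, mem_vt] at hv
      rw [Finset.mem_union, mem_vt, mem_vt]
      rcases hT1 _ hv.1 with h | h | h
      · exact Or.inl h
      · rw [inn_inr] at h
        exact absurd h.1 hv.2
      · exact Or.inr h
    have h1 := card_le_add2 h0
    have h2 := hRes.xc c hc
    have h3 := hLc c (hSt.subD hc)
    have h7 : τ * M ≤ p / 1600 * m := by
      have : M ≤ m := by nlinarith
      calc τ * M ≤ p / 1600 * M := hτpM
        _ ≤ p / 1600 * m := mul_le_mul_of_nonneg_left this (by positivity)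
    have h8 : 0 ≤ p * m := by positivity
    linarith
  · -- nn
    intro x hx y hy hxy
    have h0 : nb T x ∩ nb T y ⊆ (nb R x ∩ nb R y) ∪ nb Lo x ∪ nb Lo y := by
      intro u hu
      rw [Finset.mem_inter] at hu
      have hux := hnbx x hx hu.1
      have huy := hnbx y hy hu.2
      rw [Finset.mem_union] at hux huy
      rw [Finset.mem_union, Finset.mem_union, Finset.mem_inter]
      tauto
    have h1 := card_le_add3 h0
    have h2 := (hRes.nn x hx y hy hxy).2
    have h3 := (hLv x (hxU hx)).1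
    have h4 := (hLv y (hxU hy)).1
    nlinarith
  · -- cc
    intro x hx y hy hxy
    have h0 : cl T x ∩ cl T y ⊆ (cl R x ∩ cl R y) ∪ cl Lo x ∪ cl Lo y := by
      intro u hu
      rw [Finset.mem_inter] at hu
      have hux := hclx x hx hu.1
      have huy := hclx y hy hu.2
      rw [Finset.mem_union] at hux huy
      rw [Finset.mem_union, Finset.mem_union, Finset.mem_inter]
      tauto
    have h1 := card_le_add3 h0
    have h2 := (hRes.cc x hx y hy hxy).2
    have h3 := (hLv x (hxU hx)).2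
    have h4 := (hLv y (hxU hy)).2
    nlinarith
  · -- ww
    intro x hx y hy hxy
    have h0 : vt T x ∩ vt T y ⊆ (vt R x ∩ vt R y) ∪ vt Lo x ∪ vt Lo y := by
      intro u hu
      rw [Finset.mem_inter] at hu
      have hux := hvtc x hx hu.1
      have huy := hvtc y hy hu.2
      rw [Finset.mem_union] at hux huy
      rw [Finset.mem_union, Finset.mem_union, Finset.mem_inter]
      tauto
    have h1 := card_le_add3 h0
    have h2 := hRes.ww x hx y hy hxy
    have h3 := hLc x (hcD hx)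
    have h4 := hLc y (hcD hy)
    nlinarith
  · -- nw
    intro x hx c hc
    have h0 : nb T x ∩ vt T c ⊆ (nb R x ∩ vt R c) ∪ nb Lo x ∪ vt Lo c := by
      intro u hu
      rw [Finset.mem_inter] at hu
      have hux := hnbx x hx hu.1
      have huy := hvtc c hc hu.2
      rw [Finset.mem_union] at hux huy
      rw [Finset.mem_union, Finset.mem_union, Finset.mem_inter]
      tauto
    have h1 := card_le_add3 h0
    have h2 := hRes.nw x hx c hc
    have h3 := (hLv x (hxU hx)).1
    have h4 := hLc c (hcD hc)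
    nlinarith
  · -- uw
    intro u hu c hc
    have hkU : ∀ v ∈ vt R c, v ∈ U' := by
      intro v hv
      rw [mem_vt] at hv
      rcases hRes.kP v c hv with h | h
      · exact absurd h.2 (Finset.mem_sdiff.1 hc).2
      · exact h.1
    have h0 : nb S u ∩ vt R c ⊆ ((nb T u ∩ vt T c) \ U'') ∪ nb W u ∪ vt W c ∪ (vt R c ∩ U'') := by
      intro v hv
      rw [Finset.mem_inter] at hv
      have hvU' := hkU v hv.2
      rw [mem_nb] at hv
      have hv2 := hv.2
      rw [mem_vt] at hv2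
      rw [Finset.mem_union, Finset.mem_union, Finset.mem_union, Finset.mem_sdiff, Finset.mem_inter,
        Finset.mem_inter, mem_nb, mem_nb, mem_vt, mem_vt]
      by_cases h1 : (Sum.inl s(u, v) : Item V C) ∈ W
      · exact Or.inl (Or.inl (Or.inr h1))
      by_cases h2 : (Sum.inr (v, c) : Item V C) ∈ W
      · exact Or.inl (Or.inr h2)
      by_cases h3 : v ∈ U''
      · exact Or.inr ⟨hv.2, h3⟩
      · refine Or.inl (Or.inl (Or.inl ⟨⟨?_, ?_⟩, h3⟩))
        · exact hT2 _ (Or.inr ⟨hv.1, inn_inl.2 ⟨hu, hvU'⟩⟩) h1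
        · exact hT2 _ (Or.inl hv2) h2
    have h1 := card_le_add4 h0
    have h2 := hRes.uw u hu c hc
    have h3 := (hWv u (hU hu)).1
    have h4 := hWc c (hcD hc)
    have h5 := hRes.w2 c hc
    have h6 : (3/4 + ε) * M ≤ ((nb S u ∩ vt S c ∩ U').card : ℝ) + η * M := by
      have h7 : nb S u ∩ U' ⊆ (nb S u ∩ vt S c ∩ U') ∪ (U' \ vt S c) := by
        intro v hv
        rw [Finset.mem_inter] at hv
        by_cases h : v ∈ vt S c
        · exact Finset.mem_union_left _ (Finset.mem_inter.2 ⟨Finset.mem_inter.2 ⟨hv.1, h⟩, hv.2⟩)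
        · exact Finset.mem_union_right _ (Finset.mem_sdiff.2 ⟨hv.2, h⟩)
      have h8 := card_le_add2 h7
      have h9 := hSt.missC' c (hcD hc)
      have h10 := hSxge u (hU hu)
      linarith
    have h7 : p * ((3/4 + ε) * M) ≤ p * ((nb S u ∩ vt S c ∩ U').card : ℝ) + p * (η * M) := by
      have := mul_le_mul_of_nonneg_left h6 hp.le
      linarith
    have h8 := hwcle c hc
    have h9 : p * (η * M) ≤ p * (ε / 16 * M) := by
      apply mul_le_mul_of_nonneg_left _ hp.le
      exact mul_le_mul_of_nonneg_right hη hM0.le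
    have h10 : 2 * μ * p * M ≤ 2 * (ε / 16) * p * M := by
      have : μ * (p * M) ≤ (ε / 16) * (p * M) := mul_le_mul_of_nonneg_right hμε hpM0
      linarith
    have h11 : (3/4 + ε/2) * ((vt T c).card : ℝ) ≤ (3/4 + ε/2) * (p * M + ζ * M + γ * m) :=
      mul_le_mul_of_nonneg_left h8 (by linarith)
    have h12 : (3/4 + ε/2) * (ζ * M + γ * m) ≤ 1 * (ζ * M + γ * m) := by
      apply mul_le_mul_of_nonneg_right (by linarith)
      have : 0 ≤ ζ * M := by positivity
      have : 0 ≤ γ * m := by positivity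
      linarith
    have h13 : 0 ≤ p * ε * M := by positivity
    nlinarith
  · -- un
    intro u hu x hx
    have hkU : ∀ v ∈ nb R x, v ∈ U' := by
      intro v hv
      rw [mem_nb] at hv
      rcases hRes.kE x v hv with h | h
      · exact absurd h.1 (Finset.mem_sdiff.1 hx).2
      · exact h.1
    have h0 : nb S u ∩ nb R x ⊆ ((nb T u ∩ nb T x) \ U'') ∪ nb W u ∪ nb W x ∪ (nb R x ∩ U'') := by
      intro v hv
      rw [Finset.mem_inter] at hv
      have hvU' := hkU v hv.2
      have hv1 := hv.1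
      have hv2 := hv.2
      rw [mem_nb] at hv1 hv2
      rw [Finset.mem_union, Finset.mem_union, Finset.mem_union, Finset.mem_sdiff, Finset.mem_inter,
        Finset.mem_inter, mem_nb, mem_nb, mem_nb, mem_nb]
      by_cases h1 : (Sum.inl s(u, v) : Item V C) ∈ W
      · exact Or.inl (Or.inl (Or.inr h1))
      by_cases h2 : (Sum.inl s(x, v) : Item V C) ∈ W
      · exact Or.inl (Or.inr h2)
      by_cases h3 : v ∈ U''
      · exact Or.inr ⟨hv.2, h3⟩
      · refine Or.inl (Or.inl (Or.inl ⟨⟨?_, ?_⟩, h3⟩))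
        · exact hT2 _ (Or.inr ⟨hv1, inn_inl.2 ⟨hu, hvU'⟩⟩) h1
        · exact hT2 _ (Or.inl hv2) h2
    have h1 := card_le_add4 h0
    have h2 := hRes.un u hu x hx
    have h3 := (hWv u (hU hu)).1
    have h4 := (hWv x (hxU hx)).1
    have h5 := hRes.n2 x hx
    have h6 : ((nb S x ∩ U').card : ℝ) ≤ ((nb S u ∩ nb S x ∩ U').card : ℝ) + M / 4 := by
      have h7 : nb S x ∩ U' ⊆ (nb S u ∩ nb S x ∩ U') ∪ (U' \ (nb S u ∩ U')) := by
        intro v hv
        rw [Finset.mem_inter] at hv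
        by_cases h : v ∈ nb S u
        · exact Finset.mem_union_left _ (Finset.mem_inter.2 ⟨Finset.mem_inter.2 ⟨h, hv.1⟩, hv.2⟩)
        · refine Finset.mem_union_right _ (Finset.mem_sdiff.2 ⟨hv.2, ?_⟩)
          intro h'
          exact h (Finset.mem_inter.1 h').1
      have h8 := card_le_add2 h7
      have h9 : ((U' \ (nb S u ∩ U')).card : ℝ) + ((nb S u ∩ U').card : ℝ) = M := by
        have := Finset.card_sdiff_add_card_eq_card (Finset.inter_subset_right : nb S u ∩ U' ⊆ U')
        rw [hMdef]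
        exact_mod_cast this
      have h10 := hSxge u (hU hu)
      have h11 : 0 ≤ ε * M := by positivity
      nlinarith
    have h7 : p * ((nb S x ∩ U').card : ℝ) ≤ p * ((nb S u ∩ nb S x ∩ U').card : ℝ) + p * (M / 4) := by
      have := mul_le_mul_of_nonneg_left h6 hp.le
      linarith
    have h8 := hnxle x hx
    have h9 : p * ((3/4 + ε) * M) ≤ p * ((nb S x ∩ U').card : ℝ) :=
      mul_le_mul_of_nonneg_left (hSxge x (hxU hx)) hp.le
    have h10 : 2 * μ * p * M ≤ 2 * (1/2000) * p * M := by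
      have : μ * (p * M) ≤ (1/2000) * (p * M) := mul_le_mul_of_nonneg_right hμ hpM0
      linarith
    have h13 : 0 ≤ p * ε * M := by positivity
    nlinarith
  · -- uc
    intro u hu x hx
    have h0 : (cl T x).filter (fun c => (Sum.inr (u, c) : Item V C) ∉ T ∨ (u ∈ U'' ∧ c ∈ D'')) ⊆
        cl W u ∪ (cl R x ∩ D'') ∪ cl Lo x := by
      intro c hc
      rw [Finset.mem_filter] at hc
      have hcD' := hclxD' x hx hc.1
      rw [Finset.mem_union, Finset.mem_union, Finset.mem_inter, mem_cl]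
      rcases hc.2 with h | h
      · left; left
        by_contra hW
        exact h (hT2 _ (Or.inr ⟨hSt.comp u hu c hcD', inn_inr.2 ⟨hu, hcD'⟩⟩) hW)
      · have := hclx x hx hc.1
        rw [Finset.mem_union] at this
        tauto
    have h1 := card_le_add3 h0
    have h2 := (hWv u (hU hu)).2
    have h3 := hRes.c2 x hx
    have h4 := (hLv x (hxU hx)).2
    have h5 := hclge x hx
    have h10 : 2 * μ * p * M ≤ 2 * (1/2000) * p * M := by
      have : μ * (p * M) ≤ (1/2000) * (p * M) := mul_le_mul_of_nonneg_right hμ hpM0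
      linarith
    nlinarith
  · -- cn
    intro c hc x hx
    have h0 : (nb T x).filter (fun u => (Sum.inr (u, c) : Item V C) ∉ T ∨ (u ∈ U'' ∧ c ∈ D'')) ⊆
        vt W c ∪ (nb R x ∩ U'') ∪ nb Lo x := by
      intro u hu
      rw [Finset.mem_filter] at hu
      have huU' := hnbxU' x hx hu.1
      rw [Finset.mem_union, Finset.mem_union, Finset.mem_inter, mem_vt]
      rcases hu.2 with h | h
      · left; left
        by_contra hW
        exact h (hT2 _ (Or.inr ⟨hSt.comp u huU' c hc, inn_inr.2 ⟨huU', hc⟩⟩) hW)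
      · have := hnbx x hx hu.1
        rw [Finset.mem_union] at this
        tauto
    have h1 := card_le_add3 h0
    have h2 := hWc c (hSt.subD hc)
    have h3 := hRes.n2 x hx
    have h4 := (hLv x (hxU hx)).1
    have h5 := hclge x hx
    have h6 : ((nb T x).card : ℝ) = 2 * ((cl T x).card : ℝ) := by exact_mod_cast bx x hx
    have h10 : 2 * μ * p * M ≤ 2 * (1/2000) * p * M := by
      have : μ * (p * M) ≤ (1/2000) * (p * M) := mul_le_mul_of_nonneg_right hμ hpM0
      linarith
    nlinarith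
  · -- uu
    intro u hu v hv
    have h0 : U' ⊆ ((nb T u ∩ nb T v ∩ U') \ U'') ∪ (U'' ∪ nb W u ∪ nb W v) ∪ (U' \ (nb S u ∩ U')) ∪ (U' \ (nb S v ∩ U')) := by
      intro w hw
      rw [Finset.mem_union, Finset.mem_union, Finset.mem_union, Finset.mem_union, Finset.mem_union,
        Finset.mem_sdiff, Finset.mem_sdiff, Finset.mem_sdiff, Finset.mem_inter, Finset.mem_inter,
        Finset.mem_inter, Finset.mem_inter, mem_nb, mem_nb, mem_nb, mem_nb, mem_nb, mem_nb]
      by_cases h1 : (Sum.inl s(u, w) : Item V C) ∈ S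
      · by_cases h2 : (Sum.inl s(v, w) : Item V C) ∈ S
        · by_cases h3 : (Sum.inl s(u, w) : Item V C) ∈ W
          · tauto
          · by_cases h4 : (Sum.inl s(v, w) : Item V C) ∈ W
            · tauto
            · have h5 := hT2 _ (Or.inr ⟨h1, inn_inl.2 ⟨hu, hw⟩⟩) h3
              have h6 := hT2 _ (Or.inr ⟨h2, inn_inl.2 ⟨hv, hw⟩⟩) h4
              tauto
        · tauto
      · tauto
    have h1 := card_le_add4 h0
    have h2 := card_le_add3 (Finset.Subset.refl (U'' ∪ nb W u ∪ nb W v))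
    have h3 := (hWv u (hU hu)).1
    have h4 := (hWv v (hU hv)).1
    have h9 : ∀ w, ((U' \ (nb S w ∩ U')).card : ℝ) + ((nb S w ∩ U').card : ℝ) = M := by
      intro w
      have := Finset.card_sdiff_add_card_eq_card (Finset.inter_subset_right : nb S w ∩ U' ⊆ U')
      rw [hMdef]
      exact_mod_cast this
    have h10 := hSxge u (hU hu)
    have h11 := hSxge v (hU hv)
    have h12 := h9 u
    have h13 := h9 v
    have h14 : μ * M ≤ ε / 16 * M := mul_le_mul_of_nonneg_right hμε hM0.le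
    have h15 : 0 ≤ ε * M := by positivity
    nlinarith
  · -- cU
    intro c hc
    have h0 : U' \ vt T c ⊆ vt W c := by
      intro u hu
      rw [Finset.mem_sdiff, mem_vt] at hu
      rw [mem_vt]
      by_contra hW
      exact hu.2 (hT2 _ (Or.inr ⟨hSt.comp u hu.1 c hc, inn_inr.2 ⟨hu.1, hc⟩⟩) hW)
    have h1 := card_le_r h0
    have h2 := hWc c (hSt.subD hc)
    linarith

end

end Pool.Agent.OBW
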