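import Mathlib
import Pool.Agent.OBW.Defs
import Pool.Agent.OBW.Stmts
import Pool.Agent.OBW.Basic
import Pool.Agent.OBW.CdlA

set_option autoImplicit false
set_option linter.unusedSectionVars false
set_option linter.unusedVariables false

/-! CDL = RES + APPROX + GRD + LINK. -/

namespace Pool.Agent.OBW

open Finset

theorem exists_rmax (s : Finset ℕ) (f : ℕ → ℝ) : ∃ K : ℝ, 0 < K ∧ ∀ i ∈ s, f i ≤ K := by
  induction s using Finset.induction_on with
  | empty => exact ⟨1, one_pos, by simp⟩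
  | insert a s _ ih =>
    obtain ⟨K, hK, h⟩ := ih
    refine ⟨max K (f a), lt_of_lt_of_le hK (le_max_left _ _), ?_⟩
    intro i hi
    rcases Finset.mem_insert.1 hi with rfl | hi
    · exact le_max_right _ _
    · exact (h i hi).trans (le_max_left _ _)

theorem exists_rmin (s : Finset ℕ) (f : ℕ → ℝ) (hf : ∀ i ∈ s, 0 < f i) :
    ∃ K : ℝ, 0 < K ∧ ∀ i ∈ s, K ≤ f i := by
  induction s using Finset.induction_on with
  | empty => exact ⟨1, one_pos, by simp⟩
  | insert a s _ ih =>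
    obtain ⟨K, hK, h⟩ := ih (fun i hi => hf i (Finset.mem_insert_of_mem hi))
    refine ⟨min K (f a), lt_min hK (hf a (Finset.mem_insert_self _ _)), ?_⟩
    intro i hi
    rcases Finset.mem_insert.1 hi with rfl | hi
    · exact min_le_right _ _
    · exact (min_le_left _ _).trans (h i hi)

theorem exists_nmax (s : Finset ℕ) (f : ℕ → ℕ) : ∃ K : ℕ, ∀ i ∈ s, f i ≤ K := by
  induction s using Finset.induction_on with
  | empty => exact ⟨1, by simp⟩
  | insert a s _ ih =>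
    obtain ⟨K, h⟩ := ih
    refine ⟨max K (f a), ?_⟩
    intro i hi
    rcases Finset.mem_insert.1 hi with rfl | hi
    · exact le_max_right _ _
    · exact (h i hi).trans (le_max_left _ _)

/-- conclusion of LINK -/
def LinkConc {V C : Type} [Fintype V] [DecidableEq V] [Fintype C] [DecidableEq C]
    (K p : ℝ) (ls : ℕ) (U U' U'' : Finset V) (D D' D'' : Finset C) (T : Finset (Item V C)) : Prop :=
      ∃ F : Finset (Finset (Item V C)),
        (∀ q ∈ F, q ⊆ T ∧ ∃ c ∈ D, IsPiece ls c q) ∧ PD F ∧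
        Inside U' D' (T \ un F) ∧
        (∀ u ∈ U', ((nb (un F) u ∩ U').card : ℝ) ≤ K * p * U.card) ∧
        (∀ u ∈ U', ((cl (un F) u ∩ D').card : ℝ) ≤ K * p * U.card) ∧
        (∀ c ∈ D', ((vt (un F) c ∩ U').card : ℝ) ≤ K * p * U.card) ∧
        (∀ u ∈ U'', ∀ v ∈ U'', (Sum.inl s(u, v) : Item V C) ∉ un F) ∧
        (∀ u ∈ U'', ∀ c ∈ D'', (Sum.inr (u, c) : Item V C) ∉ un F)

theorem LinkConc.mono {V C : Type} [Fintype V] [DecidableEq V] [Fintype C] [DecidableEq C]
    {K K' p : ℝ} {ls : ℕ} {U U' U'' : Finset V} {D D' D'' : Finset C} {T : Finset (Item V C)}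
    (hK : K ≤ K') (hp : 0 ≤ p) (h : LinkConc K p ls U U' U'' D D' D'' T) :
    LinkConc K' p ls U U' U'' D D' D'' T := by
  obtain ⟨F, h1, h2, h3, h4, h5, h6, h7, h8⟩ := h
  have hm : (0:ℝ) ≤ U.card := Nat.cast_nonneg _
  have hle : K * p * (U.card : ℝ) ≤ K' * p * U.card :=
    mul_le_mul_of_nonneg_right (mul_le_mul_of_nonneg_right hK hp) hm
  exact ⟨F, h1, h2, h3, fun u hu => (h4 u hu).trans hle, fun u hu => (h5 u hu).trans hle,
    fun u hu => (h6 u hu).trans hle, h7, h8⟩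

/-- LINK with constants uniform in `ls ≤ L`. -/
theorem link_unif (hL : LinkStmt) (ε : ℝ) (L : ℕ) (hε : 0 < ε) :
    ∃ K : ℝ, 0 < K ∧ ∀ μ : ℝ, 0 < μ → μ ≤ 1 →
    ∃ p₀ : ℝ, 0 < p₀ ∧ ∀ p : ℝ, 0 < p → p ≤ p₀ → ∃ m₀ : ℕ, ∀ ls : ℕ, 3 ≤ ls → ls ≤ L →
    ∀ (V C : Type) [Fintype V] [DecidableEq V] [Fintype C] [DecidableEq C]
      (U U' U'' : Finset V) (D D' D'' : Finset C) (T : Finset (Item V C)),
      m₀ ≤ U.card → LinkHyp p ε μ ls U U' U'' D D' D'' T → LinkConc K p ls U U' U'' D D' D'' T := by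
  have h1 : ∀ ls : ℕ, ∃ K : ℝ, 0 < K ∧ (3 ≤ ls → ∀ μ : ℝ, 0 < μ → μ ≤ 1 →
    ∃ p₀ : ℝ, 0 < p₀ ∧ ∀ p : ℝ, 0 < p → p ≤ p₀ → ∃ m₀ : ℕ,
    ∀ (V C : Type) [Fintype V] [DecidableEq V] [Fintype C] [DecidableEq C]
      (U U' U'' : Finset V) (D D' D'' : Finset C) (T : Finset (Item V C)),
      m₀ ≤ U.card → LinkHyp p ε μ ls U U' U'' D D' D'' T → LinkConc K p ls U U' U'' D D' D'' T) := by
    intro ls
    by_cases h : 3 ≤ ls
    · obtain ⟨K, hK, h2⟩ := hL ε ls hε h
      exact ⟨K, hK, fun _ => h2⟩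
    · exact ⟨1, one_pos, fun h' => absurd h' h⟩
  choose K hK0 hK using h1
  obtain ⟨Km, hKm, hKle⟩ := exists_rmax (Icc 3 L) K
  refine ⟨Km, hKm, fun μ hμ hμ1 => ?_⟩
  have h2 : ∀ ls : ℕ, ∃ p₀ : ℝ, 0 < p₀ ∧ (3 ≤ ls → ∀ p : ℝ, 0 < p → p ≤ p₀ → ∃ m₀ : ℕ,
    ∀ (V C : Type) [Fintype V] [DecidableEq V] [Fintype C] [DecidableEq C]
      (U U' U'' : Finset V) (D D' D'' : Finset C) (T : Finset (Item V C)),
      m₀ ≤ U.card → LinkHyp p ε μ ls U U' U'' D D' D'' T → LinkConc (K ls) p ls U U' U'' D D' D'' T) := by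
    intro ls
    by_cases h : 3 ≤ ls
    · obtain ⟨p₀, hp₀, h3⟩ := hK ls h μ hμ hμ1
      exact ⟨p₀, hp₀, fun _ => h3⟩
    · exact ⟨1, one_pos, fun h' => absurd h' h⟩
  choose P hP0 hP using h2
  obtain ⟨Pm, hPm, hPle⟩ := exists_rmin (Icc 3 L) P (fun i _ => hP0 i)
  refine ⟨Pm, hPm, fun p hp hple => ?_⟩
  have h3 : ∀ ls : ℕ, ∃ m₀ : ℕ, (3 ≤ ls → ls ≤ L →
    ∀ (V C : Type) [Fintype V] [DecidableEq V] [Fintype C] [DecidableEq C]
      (U U' U'' : Finset V) (D D' D'' : Finset C) (T : Finset (Item V C)),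
      m₀ ≤ U.card → LinkHyp p ε μ ls U U' U'' D D' D'' T → LinkConc (K ls) p ls U U' U'' D D' D'' T) := by
    intro ls
    by_cases h : 3 ≤ ls ∧ ls ≤ L
    · obtain ⟨m₀, h4⟩ := hP ls h.1 p hp (hple.trans (hPle ls (Finset.mem_Icc.2 h)))
      exact ⟨m₀, fun _ _ => h4⟩
    · exact ⟨1, fun h' h'' => absurd ⟨h', h''⟩ h⟩
  choose m hm using h3
  obtain ⟨mm, hmm⟩ := exists_nmax (Icc 3 L) m
  refine ⟨mm, fun ls hls hlsL V C _ _ _ _ U U' U'' D D' D'' T hU hT => ?_⟩
  have hin : ls ∈ Icc 3 L := Finset.mem_Icc.2 ⟨hls, hlsL⟩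
  exact (hm ls hls hlsL V C U U' U'' D D' D'' T ((hmm ls hin).trans hU) hT).mono (hKle ls hin) hp.le

section
variable {V C : Type} [Fintype V] [DecidableEq V] [Fintype C] [DecidableEq C]

/-- the items to be covered by the approximate decomposition -/
noncomputable def starS (U' : Finset V) (D' : Finset C) (S R : Finset (Item V C)) : Finset (Item V C) :=
  @Finset.filter (Item V C) (fun i => i ∉ R ∧ ¬ inn U' D' i) (Classical.decPred _) S

theorem mem_starS {U' : Finset V} {D' : Finset C} {S R : Finset (Item V C)} {i : Item V C} :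
    i ∈ starS U' D' S R ↔ i ∈ S ∧ i ∉ R ∧ ¬ inn U' D' i := by
  unfold starS
  simp only [Finset.mem_filter]

theorem card_split {α : Type} [DecidableEq α] (A B : Finset α) :
    ((A \ B).card : ℝ) + ((A ∩ B).card : ℝ) = (A.card : ℝ) := by
  exact_mod_cast Finset.card_sdiff_add_card_inter A B

theorem card_sdiff_r {α : Type} [DecidableEq α] {A B : Finset α} (h : B ⊆ A) :
    ((A \ B).card : ℝ) = (A.card : ℝ) - (B.card : ℝ) := by
  have := Finset.card_sdiff_add_card_eq_card h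
  have h2 : ((A \ B).card : ℝ) + (B.card : ℝ) = (A.card : ℝ) := by exact_mod_cast this
  linarith

/-- the hypotheses of APPROX for `starS` -/
theorem star_hyps {δ ε η ξ μ p ζ κ β : ℝ} {U U' U'' : Finset V} {D D' D'' : Finset C}
    {S R : Finset (Item V C)}
    (hε : 0 < ε) (hμ0 : 0 < μ) (hκ : 0 < κ) (hμκ : μ ≤ κ / 8) (hη0 : 0 ≤ η) (hη : η ≤ κ / 8)
    (hp : 0 < p) (hpκ : p ≤ κ / 16) (hp1 : p ≤ 1) (hζ : 0 ≤ ζ) (hζκ : ζ ≤ κ / 1600) (hζβ : ζ ≤ β / 8)
    (hξ : 0 ≤ ξ) (hξβ : ξ ≤ β / 8) (hm1 : 2 ≤ ε * U.card) (hm2 : 16 ≤ κ * U.card) (hμ1 : μ ≤ 1)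
    (hSt : Stage δ ε η ξ μ U U' D D' S)
    (hbal : ∀ v, (nb S v).card = 2 * (cl S v).card)
    (hRes : Res p ζ μ U U' U'' D D' D'' S R) :
    Inside U D (starS U' D' S R) ∧ (3/8 + ε / 2) * (U.card : ℝ) ≤ D.card ∧ D.card ≤ U.card ∧
    (∀ v ∈ U, ((D \ cl (starS U' D' S R) v).card : ℝ) ≤ κ * U.card) ∧
    (∀ c ∈ D, ((U \ vt (starS U' D' S R) c).card : ℝ) ≤ κ * U.card) ∧
    (∀ v ∈ U, |((nb (starS U' D' S R) v).card : ℝ) - 2 * ((cl (starS U' D' S R) v).card : ℝ)|
      ≤ β * U.card) := by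
  set m : ℝ := (U.card : ℝ) with hmdef
  set M : ℝ := (U'.card : ℝ) with hMdef
  have hsub : starS U' D' S R ⊆ S := fun i hi => (mem_starS.1 hi).1
  have hins := hSt.ins
  have hm0 : 0 < m := by
    by_contra h
    have h1 : m ≤ 0 := not_lt.1 h
    nlinarith
  have hε8 : ε ≤ 1 / 8 := by have := hSt.δlo; have := hSt.δhi; linarith
  have hm16 : 16 ≤ m := by nlinarith
  have hMm : M ≤ μ * m := hSt.Uhi
  have hDhi : (D.card : ℝ) ≤ m := by
    have h1 := (abs_le.1 hSt.dD).2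
    have h3 : δ * m ≤ 1/2 * m := mul_le_mul_of_nonneg_right hSt.δhi hm0.le
    linarith
  have hM0 : 0 ≤ M := Nat.cast_nonneg _
  have hD'hi : (D'.card : ℝ) ≤ M / 2 + 1 := by
    have h1 := (abs_le.1 hSt.dD').2
    have h3 : δ * M ≤ 1/2 * M := mul_le_mul_of_nonneg_right hSt.δhi hM0
    linarith
  have hMm1 : M ≤ m := by
    have : μ * m ≤ 1 * m := mul_le_mul_of_nonneg_right hμ1 hm0.le
    linarith
  refine ⟨hins.mono hsub, ?_, ?_, ?_, ?_, ?_⟩
  · have h1 := (abs_le.1 hSt.dD).1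
    have h3 : (3/8 + ε) * m ≤ δ * m := mul_le_mul_of_nonneg_right hSt.δlo hm0.le
    linarith
  · have : (D.card : ℝ) ≤ (U.card : ℝ) := hDhi
    exact_mod_cast this
  · intro v hv
    have h0 : D \ cl (starS U' D' S R) v ⊆ (D \ cl S v) ∪ (cl R v \ D') ∪ D' := by
      intro c hc
      rw [Finset.mem_sdiff, mem_cl, mem_starS] at hc
      rw [Finset.mem_union, Finset.mem_union, Finset.mem_sdiff, Finset.mem_sdiff, mem_cl, mem_cl]
      by_cases h1 : (Sum.inr (v, c) : Item V C) ∈ S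
      · by_cases h2 : (Sum.inr (v, c) : Item V C) ∈ R
        · by_cases h3 : c ∈ D'
          · exact Or.inr h3
          · exact Or.inl (Or.inr ⟨h2, h3⟩)
        · have h3 : inn U' D' (Sum.inr (v, c) : Item V C) := by
            by_contra h4
            exact hc.2 ⟨h1, h2, h4⟩
          exact Or.inr (inn_inr.1 h3).2
      · exact Or.inl (Or.inl ⟨hc.1, h1⟩)
    have h1 := card_le_add3 h0
    have h2 := hSt.missV v hv
    have h3 : ((cl R v \ D').card : ℝ) ≤ (p + ζ) * m := by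
      by_cases hvU : v ∈ U'
      · have h4 := (abs_le.1 (hRes.cu v hvU)).2
        have h5 : ((cl R v \ D').card : ℝ) ≤ ((cl R v).card : ℝ) := card_le_r Finset.sdiff_subset
        have h6 : ((cl S v \ D').card : ℝ) ≤ m :=
          (card_le_r (Finset.sdiff_subset.trans (hins.cl_sub v))).trans hDhi
        have h7 : p * ((cl S v \ D').card : ℝ) ≤ p * m := mul_le_mul_of_nonneg_left h6 hp.le
        have h8 : (p + ζ) * m = p * m + ζ * m := by ring
        linarith
      · have h4 : cl R v \ D' = ∅ := by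
          ext c
          rw [Finset.mem_sdiff, mem_cl]
          constructor
          · rintro ⟨h5, h6⟩
            rcases hRes.kP v c h5 with h | h
            · exact absurd h.2 h6
            · exact absurd h.1 hvU
          · intro h; simp at h
        rw [h4, Finset.card_empty]
        have : 0 ≤ (p + ζ) * m := by positivity
        simpa using this
    have h4 : η * m ≤ κ / 8 * m := mul_le_mul_of_nonneg_right hη hm0.le
    have h5 : (p + ζ) * m ≤ (κ / 16 + κ / 1600) * m :=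
      mul_le_mul_of_nonneg_right (by linarith) hm0.le
    have h6 : μ * m ≤ κ / 8 * m := mul_le_mul_of_nonneg_right hμκ hm0.le
    have h7 : 0 ≤ κ * m := by positivity
    linarith
  · intro c hc
    have h0 : U \ vt (starS U' D' S R) c ⊆ (U \ vt S c) ∪ (vt R c \ U') ∪ U' := by
      intro v hv
      rw [Finset.mem_sdiff, mem_vt, mem_starS] at hv
      rw [Finset.mem_union, Finset.mem_union, Finset.mem_sdiff, Finset.mem_sdiff, mem_vt, mem_vt]
      by_cases h1 : (Sum.inr (v, c) : Item V C) ∈ S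
      · by_cases h2 : (Sum.inr (v, c) : Item V C) ∈ R
        · by_cases h3 : v ∈ U'
          · exact Or.inr h3
          · exact Or.inl (Or.inr ⟨h2, h3⟩)
        · have h3 : inn U' D' (Sum.inr (v, c) : Item V C) := by
            by_contra h4
            exact hv.2 ⟨h1, h2, h4⟩
          exact Or.inr (inn_inr.1 h3).1
      · exact Or.inl (Or.inl ⟨hv.1, h1⟩)
    have h1 := card_le_add3 h0
    have h2 := hSt.missC c hc
    have h3 : ((vt R c \ U').card : ℝ) ≤ 2 * p * m := by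
      by_cases hcD : c ∈ D'
      · exact (card_le_r Finset.sdiff_subset).trans (hRes.xc c hcD)
      · have h4 : vt R c \ U' = ∅ := by
          ext v
          rw [Finset.mem_sdiff, mem_vt]
          constructor
          · rintro ⟨h5, h6⟩
            rcases hRes.kP v c h5 with h | h
            · exact absurd h.2 hcD
            · exact absurd h.1 h6
          · intro h; simp at h
        rw [h4, Finset.card_empty]
        have : 0 ≤ 2 * p * m := by positivity
        simpa using this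
    have h4 : η * m ≤ κ / 8 * m := mul_le_mul_of_nonneg_right hη hm0.le
    have h5 : 2 * p * m ≤ 2 * (κ / 16) * m := by
      have : p * m ≤ κ / 16 * m := mul_le_mul_of_nonneg_right hpκ hm0.le
      linarith
    have h6 : μ * m ≤ κ / 8 * m := mul_le_mul_of_nonneg_right hμκ hm0.le
    have h7 : 0 ≤ κ * m := by positivity
    linarith
  · intro v hv
    have hζm : ζ * m ≤ β / 8 * m := mul_le_mul_of_nonneg_right hζβ hm0.le
    have hξm : ξ * m ≤ β / 8 * m := mul_le_mul_of_nonneg_right hξβ hm0.le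
    have hξM : ξ * M ≤ ξ * m := mul_le_mul_of_nonneg_left hMm1 hξ
    have hζM : ζ * M ≤ ζ * m := mul_le_mul_of_nonneg_left hMm1 hζ
    have hbr : ((nb S v).card : ℝ) = 2 * ((cl S v).card : ℝ) := by exact_mod_cast hbal v
    have hβm : 0 ≤ β * m := by
      have : 0 ≤ ζ * m := by positivity
      linarith
    by_cases hvU : v ∈ U'
    · have e1 : nb (starS U' D' S R) v = (nb S v \ U') \ nb R v := by
        ext u
        rw [mem_nb, mem_starS, inn_inl, Finset.mem_sdiff, Finset.mem_sdiff, mem_nb, mem_nb]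
        tauto
      have e2 : cl (starS U' D' S R) v = (cl S v \ D') \ cl R v := by
        ext u
        rw [mem_cl, mem_starS, inn_inr, Finset.mem_sdiff, Finset.mem_sdiff, mem_cl, mem_cl]
        tauto
      have s1 : nb R v ⊆ nb S v \ U' := by
        intro u hu
        rw [Finset.mem_sdiff]
        refine ⟨nb_mono hRes.sub v hu, ?_⟩
        rw [mem_nb] at hu
        rcases hRes.kE v u hu with h | h
        · exact h.2
        · exact absurd hvU h.2
      have s2 : cl R v ⊆ cl S v \ D' := by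
        intro u hu
        rw [Finset.mem_sdiff]
        refine ⟨cl_mono hRes.sub v hu, ?_⟩
        rw [mem_cl] at hu
        rcases hRes.kP v u hu with h | h
        · exact absurd hvU h.1
        · exact h.2
      have s3 : D' ⊆ cl S v := by
        intro c hc
        rw [mem_cl]
        exact hSt.comp v hvU c hc
      rw [e1, e2, card_sdiff_r s1, card_sdiff_r s2]
      have a1 := card_split (nb S v) U'
      have a2 := card_sdiff_r s3
      have a3 := abs_le.1 (hSt.reg v hvU)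
      have a4 := abs_le.1 (hRes.nu v hvU)
      have a5 := abs_le.1 (hRes.cu v hvU)
      set a : ℝ := ((nb S v \ U').card : ℝ) with ha
      set b : ℝ := ((cl S v \ D').card : ℝ) with hb
      have hab : |a - 2 * b| ≤ ξ * M := by
        rw [abs_le]
        constructor <;> linarith
      have hpab : |p * (a - 2 * b)| ≤ ξ * M := by
        rw [abs_mul, abs_of_pos hp]
        calc p * |a - 2 * b| ≤ 1 * |a - 2 * b| := mul_le_mul_of_nonneg_right hp1 (abs_nonneg _)
          _ ≤ ξ * M := by rw [one_mul]; exact hab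
      rw [abs_le] at hab hpab ⊢
      have hexp : p * (a - 2 * b) = p * a - 2 * (p * b) := by ring
      rw [hexp] at hpab
      constructor
      · linarith [a3.1, a3.2, a4.1, a4.2, a5.1, a5.2, hab.1, hab.2, hpab.1, hpab.2]
      · linarith [a3.1, a3.2, a4.1, a4.2, a5.1, a5.2, hab.1, hab.2, hpab.1, hpab.2]
    · have e1 : nb (starS U' D' S R) v = nb S v \ nb R v := by
        ext u
        rw [mem_nb, mem_starS, inn_inl, Finset.mem_sdiff, mem_nb, mem_nb]
        tauto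
      have e2 : cl (starS U' D' S R) v = cl S v \ cl R v := by
        ext u
        rw [mem_cl, mem_starS, inn_inr, Finset.mem_sdiff, mem_cl, mem_cl]
        tauto
      rw [e1, e2, card_sdiff_r (nb_mono hRes.sub v), card_sdiff_r (cl_mono hRes.sub v)]
      have a1 := abs_le.1 (hRes.bx v (Finset.mem_sdiff.2 ⟨hv, hvU⟩))
      rw [abs_le]
      constructor
      · linarith [a1.1, a1.2]
      · linarith [a1.1, a1.2]

/-- assembly of the three families -/
theorem cdl_join {δ ε η ξ μ p ζ θ γ K : ℝ} {L ls : ℕ} {U U' U'' : Finset V} {D D' D'' : Finset C}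
    {S R : Finset (Item V C)} {N : ℕ → ℕ} {F0 F1 : Finset (Finset (Item V C))}
    (hε : 0 < ε) (hμ0 : 0 < μ) (hμ : μ ≤ 1 / 2000) (hμε : μ ≤ ε / 16) (hη0 : 0 ≤ η) (hη : η ≤ ε / 16)
    (hp : 0 < p) (hp1 : p ≤ 1) (hθ : 0 ≤ θ) (hγ : 0 ≤ γ) (hζ : 0 ≤ ζ) (hK : 0 < K)
    (hτ : (θ + γ) * 2 / μ + ζ ≤ p ^ 2 * ε / 200) (hm : 2 ≤ μ * U.card)
    (hload : (K * p + θ) * 2 / μ ≤ η * μ / 2)
    (hSt : Stage δ ε η ξ μ U U' D D' S)
    (hbal : ∀ v, (nb S v).card = 2 * (cl S v).card)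
    (hU'' : U'' ⊆ U') (hD'' : D'' ⊆ D') (hU''c : (U''.card : ℝ) ≤ μ * U'.card)
    (hRes : Res p ζ μ U U' U'' D D' D'' S R)
    (hls : 3 ≤ ls) (hlsL : ls ≤ L)
    (hdiv : ∀ c ∈ D, ∃ k : ℕ, (vt S c).card = ls * k + ∑ l ∈ (Icc 3 L).erase ls, l * N l)
    (h01 : ∀ q ∈ F0, q ⊆ starS U' D' S R ∧ ∃ l ∈ Icc 3 L, ∃ c ∈ D, IsPiece l c q) (h02 : PD F0)
    (h03 : ∀ c ∈ D, ∀ l ∈ (Icc 3 L).erase ls, cnt F0 l c ≤ N l)
    (h04 : ∀ v ∈ U, ((nb (starS U' D' S R \ un F0) v).card : ℝ) ≤ γ * U.card ∧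
      ((cl (starS U' D' S R \ un F0) v).card : ℝ) ≤ γ * U.card)
    (h05 : ∀ c ∈ D, ((vt (starS U' D' S R \ un F0) c).card : ℝ) ≤ γ * U.card)
    (h11 : ∀ q ∈ F1, (∀ i ∈ q, i ∈ starS U' D' S R \ un F0 ∨ i ∈ R ∨ insOK U' U'' D' S i) ∧
          ∃ l ∈ Icc 3 L, ∃ c ∈ D, IsPiece l c q) (h12 : PD F1)
    (h13 : ∀ x ∈ U \ U', ∀ y ∈ U \ U', (Sum.inl s(x, y) : Item V C) ∈ starS U' D' S R \ un F0 →
      Sum.inl s(x, y) ∈ un F1)
    (h14 : ∀ x ∈ U \ U', ∀ c ∈ D \ D', (Sum.inr (x, c) : Item V C) ∈ starS U' D' S R \ un F0 →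
      Sum.inr (x, c) ∈ un F1)
    (h15 : ∀ c ∈ D, ∀ l ∈ (Icc 3 L).erase ls, cnt F1 l c = N l - cnt F0 l c)
    (h16 : ∀ v ∈ U, ((nb (un F1) v).card : ℝ) ≤ θ * U.card ∧ ((cl (un F1) v).card : ℝ) ≤ θ * U.card)
    (h17 : ∀ c ∈ D, ((vt (un F1) c).card : ℝ) ≤ θ * U.card)
    (hlink : ∀ T : Finset (Item V C), LinkHyp p (ε / 2) μ ls U U' U'' D D' D'' T →
      LinkConc K p ls U U' U'' D D' D'' T) :
    ∃ F : Finset (Finset (Item V C)),
        (∀ p ∈ F, p ⊆ S ∧ ∃ l ∈ Icc 3 L, ∃ c ∈ D, IsPiece l c p) ∧ PD F ∧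
        (∀ c ∈ D, ∀ l ∈ (Icc 3 L).erase ls, cnt F l c = N l) ∧
        Inside U' D' (S \ un F) ∧
        (∀ v ∈ U', ((nb (un F) v ∩ U').card : ℝ) ≤ η * μ * U'.card / 2) ∧
        (∀ v ∈ U', ((cl (un F) v ∩ D').card : ℝ) ≤ η * μ * U'.card / 2) ∧
        (∀ c ∈ D', ((vt (un F) c ∩ U').card : ℝ) ≤ η * μ * U'.card / 2) ∧
        (∀ u ∈ U'', ∀ v ∈ U'', (Sum.inl s(u, v) : Item V C) ∉ un F) ∧
        (∀ u ∈ U'', ∀ c ∈ D'', (Sum.inr (u, c) : Item V C) ∉ un F) := by
  classical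
  have hsub : starS U' D' S R ⊆ S := fun i hi => (mem_starS.1 hi).1
  have hF0sub : un F0 ⊆ starS U' D' S R := un_subset fun q hq => (h01 q hq).1
  have hF1mem : ∀ i ∈ un F1, i ∈ starS U' D' S R \ un F0 ∨ i ∈ R ∨ insOK U' U'' D' S i := by
    intro i hi
    obtain ⟨q, hq, hiq⟩ := mem_un.1 hi
    exact (h11 q hq).1 i hiq
  have hinsOK : ∀ i, insOK U' U'' D' S i → i ∈ S ∧ inn U' D' i := by
    intro i hi
    obtain ⟨h1, h2⟩ := hi
    refine ⟨h1, ?_⟩
    rcases h2 with ⟨u, hu, v, hv, rfl⟩ | ⟨u, hu, c, hc, rfl⟩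
    · exact inn_inl.2 ⟨hu, (Finset.mem_sdiff.1 hv).1⟩
    · exact inn_inr.2 ⟨(Finset.mem_sdiff.1 hu).1, hc⟩
  have hF1sub : un F1 ⊆ S := by
    intro i hi
    rcases hF1mem i hi with h | h | h
    · exact hsub (Finset.mem_sdiff.1 h).1
    · exact hRes.sub h
    · exact (hinsOK i h).1
  have hd01 : Disjoint (un F0) (un F1) := by
    rw [Finset.disjoint_left]
    intro i hi0 hi1
    have hs := mem_starS.1 (hF0sub hi0)
    rcases hF1mem i hi1 with h | h | h
    · exact (Finset.mem_sdiff.1 h).2 hi0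
    · exact hs.2.1 h
    · exact hs.2.2 (hinsOK i h).2
  set G : Finset (Finset (Item V C)) := F0 ∪ F1 with hG
  have hGun : un G = un F0 ∪ un F1 := un_union F0 F1
  have hGPD : PD G := h02.union h12 hd01
  have hGsub : un G ⊆ S := by
    rw [hGun]; exact Finset.union_subset (hF0sub.trans hsub) hF1sub
  have hGp : ∀ q ∈ G, ∃ l ∈ Icc 3 L, ∃ c ∈ D, IsPiece l c q := by
    intro q hq
    rcases Finset.mem_union.1 hq with h | h
    · exact (h01 q h).2
    · exact (h11 q h).2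
  have hGp' : ∀ q ∈ G, ∃ l ∈ Icc 3 L, ∃ c, IsPiece l c q := by
    intro q hq
    obtain ⟨l, hl, c, _, h⟩ := hGp q hq
    exact ⟨l, hl, c, h⟩
  have hGp'' : ∀ q ∈ G, ∃ l c, IsPiece l c q := by
    intro q hq
    obtain ⟨l, hl, c, _, h⟩ := hGp q hq
    exact ⟨l, c, h⟩
  have hcntG : ∀ c ∈ D, ∀ l ∈ (Icc 3 L).erase ls, cnt G l c = N l := by
    intro c hc l hl
    rw [hG, cnt_union hd01, h15 c hc l hl]
    have := h03 c hc l hl
    omega
  set T : Finset (Item V C) := S \ un G with hT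
  have hTS : T ⊆ S := Finset.sdiff_subset
  have hLH : LinkHyp p (ε / 2) μ ls U U' U'' D D' D'' T := by
    refine linkHyp_of (W := un F1) (Lo := starS U' D' S R \ un F0) hε hμ0 hμ hμε hη0 hη hp hp1 hθ hγ hζ hτ hm
      hSt hU'' hD'' hU''c hRes hTS ?_ ?_ h16 h17 h04 h05 ?_ ?_ ?_ ?_
    · intro i hi
      rw [hT, Finset.mem_sdiff, hGun, Finset.mem_union, not_or] at hi
      by_cases h1 : i ∈ R
      · exact Or.inl h1
      by_cases h2 : inn U' D' i
      · exact Or.inr (Or.inl h2)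
      · exact Or.inr (Or.inr (Finset.mem_sdiff.2 ⟨mem_starS.2 ⟨hi.1, h1, h2⟩, hi.2.1⟩))
    · intro i hi hW
      rw [hT, Finset.mem_sdiff, hGun, Finset.mem_union, not_or]
      rcases hi with h | h
      · refine ⟨hRes.sub h, fun h0 => (mem_starS.1 (hF0sub h0)).2.1 h, hW⟩
      · refine ⟨h.1, fun h0 => (mem_starS.1 (hF0sub h0)).2.2 h.2, hW⟩
    · intro x hx y hy hi
      rw [hT, Finset.mem_sdiff, hGun, Finset.mem_union, not_or] at hi
      have hx' := (Finset.mem_sdiff.1 hx).2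
      have hy' := (Finset.mem_sdiff.1 hy).2
      refine hi.2.2 (h13 x hx y hy (Finset.mem_sdiff.2 ⟨mem_starS.2 ⟨hi.1, ?_, ?_⟩, hi.2.1⟩))
      · intro hR
        rcases hRes.kE x y hR with h | h
        · exact hx' h.1
        · exact hy' h.1
      · rw [inn_inl]; exact fun h => hx' h.1
    · intro x hx c hc hi
      rw [hT, Finset.mem_sdiff, hGun, Finset.mem_union, not_or] at hi
      have hx' := (Finset.mem_sdiff.1 hx).2
      have hc' := (Finset.mem_sdiff.1 hc).2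
      refine hi.2.2 (h14 x hx c hc (Finset.mem_sdiff.2 ⟨mem_starS.2 ⟨hi.1, ?_, ?_⟩, hi.2.1⟩))
      · intro hR
        rcases hRes.kP x c hR with h | h
        · exact hc' h.2
        · exact hx' h.1
      · rw [inn_inr]; exact fun h => hx' h.1
    · intro x hx
      have h1 := nb_sdiff_card hGsub x
      have h2 := cl_sdiff_card hGsub x
      have h3 := un_bal hGPD hGp'' x
      have h4 := hbal x
      rw [← hT] at h1 h2
      omega
    · intro c hc
      have hcD := (Finset.mem_sdiff.1 hc).1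
      have h1 := vt_sdiff_card hGsub c
      rw [← hT] at h1
      obtain ⟨k, hk⟩ := hdiv c hcD
      have h2 := vt_un_card_cnt hGPD hGp' c
      have hin : ls ∈ Icc 3 L := Finset.mem_Icc.2 ⟨hls, hlsL⟩
      rw [← Finset.add_sum_erase _ _ hin] at h2
      have h3 : ∑ l ∈ (Icc 3 L).erase ls, l * cnt G l c = ∑ l ∈ (Icc 3 L).erase ls, l * N l :=
        Finset.sum_congr rfl fun l hl => by rw [hcntG c hcD l hl]
      rw [h3] at h2
      have h4 : (vt T c).card + ls * cnt G ls c = ls * k := by omega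
      exact (Nat.dvd_add_left (Dvd.intro _ rfl)).1 (h4 ▸ Dvd.intro _ rfl)
  obtain ⟨F2, h21, h22, h23, h24, h25, h26, h27, h28⟩ := hlink T hLH
  have hF2sub : un F2 ⊆ T := un_subset fun q hq => (h21 q hq).1
  have hd2 : Disjoint (un G) (un F2) := by
    rw [Finset.disjoint_left]
    intro i h1 h2
    exact (Finset.mem_sdiff.1 (hT ▸ hF2sub h2)).2 h1
  have hFun : un (G ∪ F2) = un G ∪ un F2 := un_union G F2
  have hdiff : S \ un (G ∪ F2) = T \ un F2 := by
    rw [hFun, hT]; ext i; simp only [Finset.mem_sdiff, Finset.mem_union]; tauto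
  -- loads
  set m : ℝ := (U.card : ℝ) with hmdef
  set M : ℝ := (U'.card : ℝ) with hMdef
  have hMlo : μ * m - 1 ≤ M := hSt.Ulo
  have hM1 : 1 ≤ M := by linarith
  have hmM : m ≤ 2 * M / μ := by
    rw [le_div_iff₀ hμ0]; linarith
  have hKp : 0 ≤ K * p + θ := by positivity
  have hloadm : K * p * m + θ * m ≤ η * μ * M / 2 := by
    have h1 : (K * p + θ) * m ≤ (K * p + θ) * (2 * M / μ) := mul_le_mul_of_nonneg_left hmM hKp
    have h2 : (K * p + θ) * (2 * M / μ) = ((K * p + θ) * 2 / μ) * M := by ring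
    have h3 : ((K * p + θ) * 2 / μ) * M ≤ (η * μ / 2) * M :=
      mul_le_mul_of_nonneg_right hload (by linarith)
    have h4 : (η * μ / 2) * M = η * μ * M / 2 := by ring
    have h5 : (K * p + θ) * m = K * p * m + θ * m := by ring
    linarith
  have hUsub := hSt.subU
  have hDsub := hSt.subD
  refine ⟨G ∪ F2, ?_, hGPD.union h22 hd2, ?_, ?_, ?_, ?_, ?_, ?_, ?_⟩
  · intro q hq
    rcases Finset.mem_union.1 hq with h | h
    · exact ⟨(subset_un h).trans hGsub, hGp q h⟩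
    · obtain ⟨h1, c, hc, h2⟩ := h21 q h
      exact ⟨h1.trans hTS, ls, Finset.mem_Icc.2 ⟨hls, hlsL⟩, c, hc, h2⟩
  · intro c hc l hl
    rw [cnt_union hd2, hcntG c hc l hl]
    have : cnt F2 l c = 0 := by
      rw [cnt_eq, Finset.card_eq_zero, Finset.filter_eq_empty_iff]
      intro q hq hq'
      obtain ⟨_, c', _, h2⟩ := h21 q hq
      exact (Finset.ne_of_mem_erase hl) (hq'.uniq h2).1
    omega
  · rw [hdiff]; exact h23
  · intro v hv
    have h0 : nb (un (G ∪ F2)) v ∩ U' ⊆ nb (un F1) v ∪ (nb (un F2) v ∩ U') := by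
      intro u hu
      rw [Finset.mem_inter, hFun, hGun, nb_union, nb_union, Finset.mem_union, Finset.mem_union] at hu
      rw [Finset.mem_union, Finset.mem_inter]
      rcases hu.1 with (h | h) | h
      · exfalso
        rw [mem_nb] at h
        exact (mem_starS.1 (hF0sub h)).2.2 (inn_inl.2 ⟨hv, hu.2⟩)
      · exact Or.inl h
      · exact Or.inr ⟨h, hu.2⟩
    have h1 := card_le_add2 h0
    have h2 := (h16 v (hUsub hv)).1
    have h3 := h24 v hv
    linarith
  · intro v hv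
    have h0 : cl (un (G ∪ F2)) v ∩ D' ⊆ cl (un F1) v ∪ (cl (un F2) v ∩ D') := by
      intro u hu
      rw [Finset.mem_inter, hFun, hGun, cl_union, cl_union, Finset.mem_union, Finset.mem_union] at hu
      rw [Finset.mem_union, Finset.mem_inter]
      rcases hu.1 with (h | h) | h
      · exfalso
        rw [mem_cl] at h
        exact (mem_starS.1 (hF0sub h)).2.2 (inn_inr.2 ⟨hv, hu.2⟩)
      · exact Or.inl h
      · exact Or.inr ⟨h, hu.2⟩
    have h1 := card_le_add2 h0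
    have h2 := (h16 v (hUsub hv)).2
    have h3 := h25 v hv
    linarith
  · intro c hc
    have h0 : vt (un (G ∪ F2)) c ∩ U' ⊆ vt (un F1) c ∪ (vt (un F2) c ∩ U') := by
      intro u hu
      rw [Finset.mem_inter, hFun, hGun, vt_union, vt_union, Finset.mem_union, Finset.mem_union] at hu
      rw [Finset.mem_union, Finset.mem_inter]
      rcases hu.1 with (h | h) | h
      · exfalso
        rw [mem_vt] at h
        exact (mem_starS.1 (hF0sub h)).2.2 (inn_inr.2 ⟨hu.2, hc⟩)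
      · exact Or.inl h
      · exact Or.inr ⟨h, hu.2⟩
    have h1 := card_le_add2 h0
    have h2 := h17 c (hDsub hc)
    have h3 := h26 c hc
    linarith
  · intro u hu v hv hmem
    rw [hFun, hGun, Finset.mem_union, Finset.mem_union] at hmem
    have hu' := hU'' hu
    have hv' := hU'' hv
    rcases hmem with (h | h) | h
    · exact (mem_starS.1 (hF0sub h)).2.2 (inn_inl.2 ⟨hu', hv'⟩)
    · rcases hF1mem _ h with h | h | h
      · exact (mem_starS.1 (Finset.mem_sdiff.1 h).1).2.2 (inn_inl.2 ⟨hu', hv'⟩)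
      · rcases hRes.kE u v h with h | h
        · exact h.2 hv'
        · exact h.2 hu'
      · rcases h.2 with ⟨a, ha, b, hb, he⟩ | ⟨a, ha, b, hb, he⟩
        · have he' := Sum.inl.inj he
          rw [Sym2.eq_iff] at he'
          have hb' := (Finset.mem_sdiff.1 hb).2
          rcases he' with ⟨_, rfl⟩ | ⟨rfl, _⟩
          · exact hb' hv
          · exact hb' hu
        · simp at he
    · exact h27 u hu v hv h
  · intro u hu c hc hmem
    rw [hFun, hGun, Finset.mem_union, Finset.mem_union] at hmem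
    have hu' := hU'' hu
    have hc' := hD'' hc
    rcases hmem with (h | h) | h
    · exact (mem_starS.1 (hF0sub h)).2.2 (inn_inr.2 ⟨hu', hc'⟩)
    · rcases hF1mem _ h with h | h | h
      · exact (mem_starS.1 (Finset.mem_sdiff.1 h).1).2.2 (inn_inr.2 ⟨hu', hc'⟩)
      · rcases hRes.kP u c h with h | h
        · exact h.1 hu'
        · exact h.2 hc'
      · rcases h.2 with ⟨a, ha, b, hb, he⟩ | ⟨a, ha, b, hb, he⟩
        · simp at he
        · have he' := Sum.inr.inj he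
          rw [Prod.mk.injEq] at he'
          obtain ⟨rfl, rfl⟩ := he'
          exact (Finset.mem_sdiff.1 ha).2 hu
    · exact h28 u hu c hc h

end

theorem cdl (hR : ResStmt) (hA : ApproxStmt) (hG : GrdStmt) (hL : LinkStmt) : CdlStmt := by
  intro ε α L hε hα
  obtain ⟨μR, hμR, hR1⟩ := hR ε hε
  obtain ⟨μG, hμG, hG1⟩ := hG ε L hε
  obtain ⟨κ, hκ, hA1⟩ := hA (ε / 2) α (half_pos hε) hα
  obtain ⟨K, hK, hL1⟩ := link_unif hL (ε / 2) L (half_pos hε)
  set b : ℝ := min μR (min μG (min (1 / 2000) (min (ε / 16) (κ / 8)))) with hb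
  have hb0 : 0 < b := by positivity
  have hbR : b ≤ μR := min_le_left _ _
  have hbG : b ≤ μG := (min_le_right _ _).trans (min_le_left _ _)
  have hb2 : b ≤ 1 / 2000 := (min_le_right _ _).trans ((min_le_right _ _).trans (min_le_left _ _))
  have hbε : b ≤ ε / 16 :=
    (min_le_right _ _).trans ((min_le_right _ _).trans ((min_le_right _ _).trans (min_le_left _ _)))
  have hbκ : b ≤ κ / 8 :=
    (min_le_right _ _).trans ((min_le_right _ _).trans ((min_le_right _ _).trans (min_le_right _ _)))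
  refine ⟨b, hb0, fun μ hμ hμle => ?_⟩
  obtain ⟨pL, hpL, hL2⟩ := hL1 μ hμ (by linarith)
  refine ⟨b, hb0, fun η hη hηle => ?_⟩
  set p : ℝ := min pL (min (1 / 4) (min (κ / 16) (η * μ ^ 2 / (8 * (K + 1))))) with hpdef
  have hp : 0 < p := by positivity
  have hppL : p ≤ pL := min_le_left _ _
  have hp4 : p ≤ 1 / 4 := (min_le_right _ _).trans (min_le_left _ _)
  have hpκ : p ≤ κ / 16 := (min_le_right _ _).trans ((min_le_right _ _).trans (min_le_left _ _))
  have hpη : p ≤ η * μ ^ 2 / (8 * (K + 1)) :=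
    (min_le_right _ _).trans ((min_le_right _ _).trans (min_le_right _ _))
  obtain ⟨m1, hL3⟩ := hL2 p hp hppL
  set θ : ℝ := min (η * μ ^ 2 / 8) (p ^ 2 * ε * μ / 1600) with hθdef
  have hθ : 0 < θ := by positivity
  have hθ1 : θ ≤ η * μ ^ 2 / 8 := min_le_left _ _
  have hθ2 : θ ≤ p ^ 2 * ε * μ / 1600 := min_le_right _ _
  obtain ⟨γG, hγG, m2, hG2⟩ := hG1 μ hμ (hμle.trans hbG) η hη (hηle.trans hbG) p hp hp4 θ hθ
  set γ : ℝ := min γG (p ^ 2 * ε * μ / 1600) with hγdef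
  have hγ : 0 < γ := by positivity
  have hγ1 : γ ≤ γG := min_le_left _ _
  have hγ2 : γ ≤ p ^ 2 * ε * μ / 1600 := min_le_right _ _
  obtain ⟨β, hβ, m3, hA2⟩ := hA1 L γ hγ
  set ζ : ℝ := min (β / 8) (min (p / 100) (p ^ 2 * ε / 800)) with hζdef
  have hζ : 0 < ζ := by positivity
  have hζ1 : ζ ≤ β / 8 := min_le_left _ _
  have hζ2 : ζ ≤ p / 100 := (min_le_right _ _).trans (min_le_left _ _)
  have hζ3 : ζ ≤ p ^ 2 * ε / 800 := (min_le_right _ _).trans (min_le_right _ _)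
  obtain ⟨m4, hR2⟩ := hR1 μ hμ (hμle.trans hbR) η hη (hηle.trans hbR) p hp hp4 ζ hζ
  obtain ⟨m5, hm5⟩ := exists_nat_ge (2 / μ + 2 / ε + 16 / κ + 1)
  refine ⟨β / 8, by positivity, max m1 (max m2 (max m3 (max m4 m5))), ?_⟩
  intro V C _ _ _ _ δ U U' U'' D D' D'' S ls N hU hSt hbal hU'' hD'' hU''c hD''c hls hlsL hN hdiv
  have hU1 : m1 ≤ U.card := (le_max_left _ _).trans hU
  have hU2 : m2 ≤ U.card := ((le_max_left _ _).trans (le_max_right _ _)).trans hU
  have hU3 : m3 ≤ U.card :=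
    ((le_max_left _ _).trans ((le_max_right _ _).trans (le_max_right _ _))).trans hU
  have hU4 : m4 ≤ U.card :=
    ((le_max_left _ _).trans ((le_max_right _ _).trans ((le_max_right _ _).trans (le_max_right _ _)))).trans hU
  have hU5 : m5 ≤ U.card :=
    ((le_max_right _ _).trans ((le_max_right _ _).trans ((le_max_right _ _).trans (le_max_right _ _)))).trans hU
  have hm5' : 2 / μ + 2 / ε + 16 / κ + 1 ≤ (U.card : ℝ) := hm5.trans (by exact_mod_cast hU5)
  have hq1 : 0 < 2 / μ := by positivity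
  have hq2 : 0 < 2 / ε := by positivity
  have hq3 : 0 < 16 / κ := by positivity
  have hμm : 2 ≤ μ * U.card := by
    have : 2 / μ ≤ (U.card : ℝ) := by linarith
    rw [div_le_iff₀ hμ] at this; linarith
  have hεm : 2 ≤ ε * U.card := by
    have : 2 / ε ≤ (U.card : ℝ) := by linarith
    rw [div_le_iff₀ hε] at this; linarith
  have hκm : 16 ≤ κ * U.card := by
    have : 16 / κ ≤ (U.card : ℝ) := by linarith
    rw [div_le_iff₀ hκ] at this; linarith
  obtain ⟨R, hRes⟩ := hR2 V C δ (β / 8) U U' U'' D D' D'' S hU4 hSt hU'' hD'' hU''c hD''c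
  obtain ⟨hs1, hs2, hs3, hs4, hs5, hs6⟩ := star_hyps (κ := κ) (β := β) hε hμ hκ (hμle.trans hbκ) hη.le
    (hηle.trans hbκ) hp hpκ (by linarith) hζ.le (by linarith) hζ1 (by positivity) (le_refl _) hεm hκm
    (by linarith) hSt hbal hRes
  obtain ⟨F0, h01, h02, h03, h04, h05⟩ := hA2 V C U D (starS U' D' S R) ls N hU3 hs1 hs2 hs3 hs4 hs5 hs6
    hls hlsL hN
  classical
  have hUc0 : (0:ℝ) ≤ U.card := Nat.cast_nonneg _
  obtain ⟨F1, h11, h12, h13, h14, h15, _, _, h16, h17⟩ := hG2 V C δ (β / 8) ζ U U' U'' D D' D'' S R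
    (starS U' D' S R \ un F0) ls
    (fun c l => if c ∈ D ∧ l ∈ (Icc 3 L).erase ls then N l - cnt F0 l c else 0)
    hU2 hSt hU'' hD'' hU''c hD''c hRes hζ.le hζ2 hls hlsL
    (Finset.sdiff_subset.trans (fun i hi => (mem_starS.1 hi).1))
    (by
      rw [Finset.disjoint_left]
      intro i hi hiR
      exact (mem_starS.1 (Finset.mem_sdiff.1 hi).1).2.1 hiR)
    (fun v hv => ⟨(h04 v hv).1.trans (mul_le_mul_of_nonneg_right hγ1 hUc0),
      (h04 v hv).2.trans (mul_le_mul_of_nonneg_right hγ1 hUc0)⟩)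
    (fun c hc => (h05 c hc).trans (mul_le_mul_of_nonneg_right hγ1 hUc0))
    (by
      intro u v hi h
      exact (mem_starS.1 (Finset.mem_sdiff.1 hi).1).2.2 (inn_inl.2 h))
    (by
      intro v c hi h
      exact (mem_starS.1 (Finset.mem_sdiff.1 hi).1).2.2 (inn_inr.2 h))
    (by
      intro c l
      have h0 : 0 ≤ γG * (U.card : ℝ) := by positivity
      split_ifs with h
      · have h1 := (h03 c h.1 l h.2).2
        have h2 := (h03 c h.1 l h.2).1
        rw [Nat.cast_sub h2]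
        have h3 : γ * (U.card : ℝ) ≤ γG * U.card := mul_le_mul_of_nonneg_right hγ1 hUc0
        linarith
      · simpa using h0)
  have hsumτ : (θ + γ) * 2 / μ + ζ ≤ p ^ 2 * ε / 200 := by
    have h1 : (θ + γ) * 2 / μ ≤ p ^ 2 * ε / 400 := by
      rw [div_le_iff₀ hμ]
      linarith
    have h2 : 0 ≤ p ^ 2 * ε := by positivity
    linarith
  have hload : (K * p + θ) * 2 / μ ≤ η * μ / 2 := by
    rw [div_le_iff₀ hμ]
    have h1 : K * p ≤ η * μ ^ 2 / 8 := by
      rw [le_div_iff₀ (by positivity)] at hpη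
      have h2 : 0 ≤ p := hp.le
      have : K * p * 8 ≤ p * (8 * (K + 1)) := by nlinarith
      linarith
    nlinarith
  exact cdl_join (L := L) (N := N) (θ := θ) (γ := γ) (ζ := ζ) (K := K) hε hμ (hμle.trans hb2) (hμle.trans hbε) hη.le
    (hηle.trans hbε) hp (by linarith) hθ.le hγ.le hζ.le hK hsumτ hμm hload hSt hbal hU'' hD'' hU''c hRes hls hlsL
    hdiv h01 h02 (fun c hc l hl => (h03 c hc l hl).1) h04 h05 h11 h12 h13 h14
    (by
      intro c hc l hl
      rw [h15 c hc l hl, if_pos ⟨hc, hl⟩])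
    h16 h17 (fun T hT => hL3 ls hls hlsL V C U U' U'' D D' D'' T hU1 hT)

end Pool.Agent.OBW
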