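import Mathlib
import Pool.Agent.OBW.Stmts

set_option autoImplicit false

/-!
OBW, GRD part A: abstract greedy choice with load caps.
-/

namespace Pool.Agent.OBW

open Finset

/-- **Greedy with caps.**  `D` demands are processed one after the other; `nodes q` are the nodes used
by the choice `q`, `fix d` the nodes that the demand `d` uses in any case. -/
theorem grd_capGreedy {ι N Q : Type} [DecidableEq ι] [Fintype N] [DecidableEq N]
    (D : Finset ι) (nodes : Q → Finset N) (fix : ι → Finset N) (ok : ι → Q → Prop)
    (dis : Q → Q → Prop) (hsymm : ∀ a b, dis a b → dis b a) (q0 : Q)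
    (B0 K1 w K2 : ℕ)
    (hw : ∀ d ∈ D, ∀ q, ok d q → (nodes q).card ≤ w)
    (hK1 : ∀ a, (D.filter (fun d => a ∈ fix d)).card ≤ K1)
    (hK2 : w * D.card ≤ K2)
    (hext : ∀ D' ⊆ D, ∀ g : ι → Q, (∀ d ∈ D', ok d (g d)) →
      (∀ d ∈ D', ∀ d' ∈ D', d ≠ d' → dis (g d) (g d')) →
      (∀ a, (D'.filter (fun d => a ∈ nodes (g d))).card ≤ B0 + K1) →
      ∀ O : Finset N, O.card * B0 ≤ K2 → ∀ d ∈ D, d ∉ D' →
      ∃ q, ok d q ∧ (∀ d' ∈ D', dis (g d') q) ∧ ∀ a ∈ nodes q, a ∉ fix d → a ∉ O) :
    ∃ g : ι → Q, (∀ d ∈ D, ok d (g d)) ∧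
      (∀ d ∈ D, ∀ d' ∈ D, d ≠ d' → dis (g d) (g d')) ∧
      (∀ a, (D.filter (fun d => a ∈ nodes (g d))).card ≤ B0 + K1) := by
  classical
  -- total count from the free count
  have htot : ∀ (D' : Finset ι) (g : ι → Q), D' ⊆ D →
      (∀ a, (D'.filter (fun d => a ∈ nodes (g d) ∧ a ∉ fix d)).card ≤ B0) →
      (∀ a, (D'.filter (fun d => a ∈ nodes (g d))).card ≤ B0 + K1) := by
    intro D' g hD' hfree a
    have h1 : D'.filter (fun d => a ∈ nodes (g d)) ⊆
        D'.filter (fun d => a ∈ nodes (g d) ∧ a ∉ fix d) ∪ D.filter (fun d => a ∈ fix d) := by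
      intro d hd
      rw [mem_filter] at hd
      rw [mem_union, mem_filter, mem_filter]
      by_cases h : a ∈ fix d
      · exact Or.inr ⟨hD' hd.1, h⟩
      · exact Or.inl ⟨hd.1, hd.2, h⟩
    refine (card_le_card h1).trans ((card_union_le _ _).trans ?_)
    exact Nat.add_le_add (hfree a) (hK1 a)
  have key : ∀ D' : Finset ι, D' ⊆ D → ∃ g : ι → Q, (∀ d ∈ D', ok d (g d)) ∧
      (∀ d ∈ D', ∀ d' ∈ D', d ≠ d' → dis (g d) (g d')) ∧
      (∀ a, (D'.filter (fun d => a ∈ nodes (g d) ∧ a ∉ fix d)).card ≤ B0) := by
    intro D'
    induction D' using Finset.induction_on with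
    | empty =>
      intro _
      exact ⟨fun _ => q0, by simp, by simp, by simp⟩
    | insert d D' hd ih =>
      intro hsub
      have hD' : D' ⊆ D := (subset_insert _ _).trans hsub
      obtain ⟨g, hg1, hg2, hg3⟩ := ih hD'
      set fr : N → ℕ := fun a => (D'.filter (fun d => a ∈ nodes (g d) ∧ a ∉ fix d)).card with hfr
      set O : Finset N := univ.filter fun a => B0 ≤ fr a with hO
      have hOc : O.card * B0 ≤ K2 := by
        have h1 : O.card * B0 ≤ ∑ a ∈ O, fr a := by
          rw [← smul_eq_mul]
          apply Finset.card_nsmul_le_sum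
          intro a ha
          exact (mem_filter.1 ha).2
        have h2 : ∑ a ∈ O, fr a ≤ ∑ a, fr a :=
          Finset.sum_le_sum_of_subset (subset_univ _)
        have h3 : ∑ a, fr a ≤ ∑ d ∈ D', (nodes (g d)).card := by
          have e1 : ∀ a, fr a = ∑ d ∈ D', if a ∈ nodes (g d) ∧ a ∉ fix d then 1 else 0 := by
            intro a
            simp only [hfr, Finset.card_filter]
          rw [Finset.sum_congr rfl fun a _ => e1 a, Finset.sum_comm]
          apply Finset.sum_le_sum
          intro d _
          rw [← Finset.card_filter]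
          apply card_le_card
          intro a ha
          exact (mem_filter.1 ha).2.1
        have h4 : ∑ d ∈ D', (nodes (g d)).card ≤ D'.card * w := by
          rw [← smul_eq_mul]
          apply Finset.sum_le_card_nsmul
          intro d hd
          exact hw d (hD' hd) _ (hg1 d hd)
        have h5 : D'.card * w ≤ w * D.card := by
          rw [mul_comm]
          exact Nat.mul_le_mul_left _ (card_le_card hD')
        omega
      obtain ⟨q, hq1, hq2, hq3⟩ := hext D' hD' g hg1 hg2 (htot D' g hD' hg3) O hOc d
        (hsub (mem_insert_self _ _)) hd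
      have hne : ∀ d' ∈ D', d' ≠ d := fun d' hd' h => hd (h ▸ hd')
      refine ⟨Function.update g d q, ?_, ?_, ?_⟩
      · intro d' hd'
        rw [mem_insert] at hd'
        rcases hd' with rfl | hd'
        · rw [Function.update_self]; exact hq1
        · rw [Function.update_of_ne (hne d' hd')]; exact hg1 d' hd'
      · intro a ha b hb hab
        rw [mem_insert] at ha hb
        rcases ha with rfl | ha
        · rcases hb with rfl | hb
          · exact absurd rfl hab
          · rw [Function.update_self, Function.update_of_ne (hne b hb)]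
            exact hsymm _ _ (hq2 b hb)
        · rcases hb with rfl | hb
          · rw [Function.update_self, Function.update_of_ne (hne a ha)]
            exact hq2 a ha
          · rw [Function.update_of_ne (hne a ha), Function.update_of_ne (hne b hb)]
            exact hg2 a ha b hb hab
      · intro a
        rw [Finset.filter_insert]
        have h1 : D'.filter (fun d' => a ∈ nodes (Function.update g d q d') ∧ a ∉ fix d') =
            D'.filter (fun d' => a ∈ nodes (g d') ∧ a ∉ fix d') := by
          apply Finset.filter_congr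
          intro d' hd'
          rw [Function.update_of_ne (hne d' hd')]
        rw [h1]
        split_ifs with h
        · rw [Function.update_self] at h
          have h2 := hq3 a h.1 h.2
          have h3 : fr a < B0 := by
            by_contra h4
            exact h2 (mem_filter.2 ⟨mem_univ _, not_lt.1 h4⟩)
          refine (card_insert_le _ _).trans ?_
          exact h3
        · exact hg3 a
  obtain ⟨g, hg1, hg2, hg3⟩ := key D (Subset.refl _)
  exact ⟨g, hg1, hg2, htot D g (Subset.refl _) hg3⟩

/-- sequential choice of a path: `z i` for `r ≤ i < l`, the constraint on `z i` depends only on the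
earlier values. -/
theorem grd_seqChoice {V : Type} (r l : ℕ) (y : ℕ → V) (P : ℕ → (ℕ → V) → V → Prop)
    (hloc : ∀ i z z' v, (∀ j < i, z j = z' j) → P i z v → P i z' v)
    (hex : ∀ i, r ≤ i → i < l → ∀ z : ℕ → V, (∀ j < r, z j = y j) →
      (∀ j, r ≤ j → j < i → P j z (z j)) → ∃ v, P i z v) :
    ∃ z : ℕ → V, (∀ j < r, z j = y j) ∧ ∀ i, r ≤ i → i < l → P i z (z i) := by
  classical
  have key : ∀ m, ∃ z : ℕ → V, (∀ j < r, z j = y j) ∧ ∀ i, r ≤ i → i < m → i < l → P i z (z i) := by
    intro m
    induction m with
    | zero => exact ⟨y, fun _ _ => rfl, fun i _ h => absurd h (Nat.not_lt_zero _)⟩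
    | succ m ih =>
      obtain ⟨z, hz1, hz2⟩ := ih
      by_cases hm : r ≤ m ∧ m < l
      · obtain ⟨v, hv⟩ := hex m hm.1 hm.2 z hz1 (fun j hj1 hj2 => hz2 j hj1 hj2 (by omega))
        refine ⟨Function.update z m v, ?_, ?_⟩
        · intro j hj
          rw [Function.update_of_ne (by omega)]
          exact hz1 j hj
        · intro i hi1 hi2 hi3
          have hagree : ∀ j < i, z j = Function.update z m v j := by
            intro j hj
            rw [Function.update_of_ne (by omega)]
          by_cases him : i = m
          · subst him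
            rw [Function.update_self]
            exact hloc i z _ v hagree hv
          · rw [Function.update_of_ne him]
            exact hloc i z _ _ hagree (hz2 i hi1 (by omega) hi3)
      · refine ⟨z, hz1, fun i hi1 hi2 hi3 => ?_⟩
        apply hz2 i hi1 _ hi3
        omega
  obtain ⟨z, hz1, hz2⟩ := key l
  exact ⟨z, hz1, fun i hi1 hi2 => hz2 i hi1 hi2 hi2⟩

end Pool.Agent.OBW
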