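import Mathlib
import Pool.Agent.OBW.GrdA

set_option autoImplicit false

/-!
OBW, GRD part B: coloured cycles (nodes, degrees), the path builder.
-/

namespace Pool.Agent.OBW

open Finset

section
variable {V C : Type} [Fintype V] [DecidableEq V] [Fintype C] [DecidableEq C]

theorem grd_mem_cyc_inl {l : ℕ} {z : ℕ → V} {c : C} {e : Sym2 V} :
    (Sum.inl e : Item V C) ∈ cyc l z c ↔ ∃ i < l, s(z i, z ((i + 1) % l)) = e := by
  unfold cyc
  rw [mem_union, mem_image, mem_image]
  constructor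
  · rintro (⟨i, hi, h⟩ | ⟨i, hi, h⟩)
    · exact ⟨i, mem_range.1 hi, Sum.inl.inj h⟩
    · exact absurd h (by simp)
  · rintro ⟨i, hi, h⟩
    exact Or.inl ⟨i, mem_range.2 hi, by rw [h]⟩

theorem grd_mem_cyc_inr {l : ℕ} {z : ℕ → V} {c c' : C} {v : V} :
    (Sum.inr (v, c') : Item V C) ∈ cyc l z c ↔ (∃ i < l, z i = v) ∧ c' = c := by
  unfold cyc
  rw [mem_union, mem_image, mem_image]
  constructor
  · rintro (⟨i, hi, h⟩ | ⟨i, hi, h⟩)
    · exact absurd h (by simp)
    · have h1 := Sum.inr.inj h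
      rw [Prod.mk.injEq] at h1
      exact ⟨⟨i, mem_range.1 hi, h1.1⟩, h1.2.symm⟩
  · rintro ⟨⟨i, hi, h⟩, rfl⟩
    exact Or.inr ⟨i, mem_range.2 hi, by rw [h]⟩

/-- nodes of an item set: vertices and colours of its pairs -/
noncomputable def gnodes (q : Finset (Item V C)) : Finset (V ⊕ C) := by
  classical exact univ.filter fun a => match a with
    | Sum.inl v => ∃ c, (Sum.inr (v, c) : Item V C) ∈ q
    | Sum.inr c => ∃ v, (Sum.inr (v, c) : Item V C) ∈ q

theorem grd_mem_nodes_inl {q : Finset (Item V C)} {v : V} :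
    (Sum.inl v : V ⊕ C) ∈ gnodes q ↔ ∃ c, (Sum.inr (v, c) : Item V C) ∈ q := by
  unfold gnodes
  simp

theorem grd_mem_nodes_inr {q : Finset (Item V C)} {c : C} :
    (Sum.inr c : V ⊕ C) ∈ gnodes q ↔ ∃ v, (Sum.inr (v, c) : Item V C) ∈ q := by
  unfold gnodes
  simp

theorem grd_nodes_cyc {l : ℕ} {z : ℕ → V} {c : C} :
    gnodes (cyc l z c) ⊆ (range l).image (fun i => (Sum.inl (z i) : V ⊕ C)) ∪ {Sum.inr c} := by
  intro a ha
  rw [mem_union, mem_image, mem_singleton]
  cases a with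
  | inl v =>
    rw [grd_mem_nodes_inl] at ha
    obtain ⟨c', hc'⟩ := ha
    rw [grd_mem_cyc_inr] at hc'
    obtain ⟨⟨i, hi, h⟩, _⟩ := hc'
    exact Or.inl ⟨i, mem_range.2 hi, by rw [h]⟩
  | inr c' =>
    rw [grd_mem_nodes_inr] at ha
    obtain ⟨v, hv⟩ := ha
    rw [grd_mem_cyc_inr] at hv
    exact Or.inr (by rw [hv.2])

theorem grd_card_nodes_cyc {l : ℕ} {z : ℕ → V} {c : C} : (gnodes (cyc l z c)).card ≤ l + 1 := by
  refine (card_le_card grd_nodes_cyc).trans ((card_union_le _ _).trans ?_)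
  rw [card_singleton]
  have : ((range l).image (fun i => (Sum.inl (z i) : V ⊕ C))).card ≤ l := by
    refine card_image_le.trans ?_
    rw [card_range]
  omega

theorem grd_card_nodes_piece {l : ℕ} {c : C} {q : Finset (Item V C)} (h : IsPiece l c q) :
    (gnodes q).card ≤ l + 1 := by
  obtain ⟨_, z, _, rfl⟩ := h
  exact grd_card_nodes_cyc

/-- neighbours in a piece -/
theorem grd_nb_piece {l : ℕ} {c : C} {q : Finset (Item V C)} (h : IsPiece l c q) (v : V) :
    (nb q v).card ≤ 2 ∧ (nb q v ≠ ∅ → (Sum.inl v : V ⊕ C) ∈ gnodes q) := by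
  obtain ⟨hl, z, hz, rfl⟩ := h
  have hmod : ∀ i < l, (i + 1) % l < l := fun i _ => Nat.mod_lt _ (by omega)
  by_cases hv : ∃ i < l, z i = v
  · obtain ⟨i, hi, hiv⟩ := hv
    refine ⟨?_, fun _ => grd_mem_nodes_inl.2 ⟨c, grd_mem_cyc_inr.2 ⟨⟨i, hi, hiv⟩, rfl⟩⟩⟩
    have hsub : nb (cyc l z c) v ⊆ {z ((i + 1) % l), z ((i + (l - 1)) % l)} := by
      intro u hu
      unfold nb at hu
      rw [mem_filter, grd_mem_cyc_inl] at hu
      obtain ⟨_, j, hj, hju⟩ := hu
      rw [mem_insert, mem_singleton]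
      rw [Sym2.eq_iff] at hju
      rcases hju with ⟨h1, h2⟩ | ⟨h1, h2⟩
      · have : j = i := hz (Set.mem_Iio.2 hj) (Set.mem_Iio.2 hi) (h1.trans hiv.symm)
        subst this
        exact Or.inl h2.symm
      · have h3 : (j + 1) % l = i :=
          hz (Set.mem_Iio.2 (hmod j hj)) (Set.mem_Iio.2 hi) (h2.trans hiv.symm)
        right
        rw [← h1]
        congr 1
        rw [← h3]
        rcases Nat.lt_or_ge (j + 1) l with hjl | hjl
        · rw [Nat.mod_eq_of_lt hjl]
          have : j + 1 + (l - 1) = j + l := by omega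
          rw [this, Nat.add_mod_right, Nat.mod_eq_of_lt hj]
        · have : j = l - 1 := by omega
          subst this
          have : l - 1 + 1 = l := by omega
          rw [this, Nat.mod_self, Nat.zero_add, Nat.mod_eq_of_lt (by omega)]
    exact (card_le_card hsub).trans card_le_two
  · have hempty : nb (cyc l z c) v = ∅ := by
      rw [Finset.eq_empty_iff_forall_notMem]
      intro u hu
      unfold nb at hu
      rw [mem_filter, grd_mem_cyc_inl] at hu
      obtain ⟨_, j, hj, hju⟩ := hu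
      rw [Sym2.eq_iff] at hju
      rcases hju with ⟨h1, _⟩ | ⟨_, h2⟩
      · exact hv ⟨j, hj, h1⟩
      · exact hv ⟨(j + 1) % l, hmod j hj, h2⟩
    rw [hempty]
    simp

theorem grd_cl_piece {l : ℕ} {c : C} {q : Finset (Item V C)} (h : IsPiece l c q) (v : V) :
    (cl q v).card ≤ 1 ∧ (cl q v ≠ ∅ → (Sum.inl v : V ⊕ C) ∈ gnodes q) := by
  obtain ⟨hl, z, hz, rfl⟩ := h
  constructor
  · have : cl (cyc l z c) v ⊆ {c} := by
      intro c' hc'
      unfold cl at hc'
      rw [mem_filter, grd_mem_cyc_inr] at hc'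
      rw [mem_singleton]
      exact hc'.2.2
    exact (card_le_card this).trans (by simp)
  · intro hne
    obtain ⟨c', hc'⟩ := Finset.nonempty_iff_ne_empty.2 hne
    unfold cl at hc'
    rw [mem_filter] at hc'
    exact grd_mem_nodes_inl.2 ⟨c', hc'.2⟩

theorem grd_vt_piece {l : ℕ} {c : C} {q : Finset (Item V C)} (h : IsPiece l c q) (c' : C) :
    (vt q c').card ≤ l ∧ (vt q c' ≠ ∅ → (Sum.inr c' : V ⊕ C) ∈ gnodes q) := by
  obtain ⟨hl, z, hz, rfl⟩ := h
  constructor
  · have : vt (cyc l z c) c' ⊆ (range l).image z := by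
      intro v hv
      unfold vt at hv
      rw [mem_filter, grd_mem_cyc_inr] at hv
      obtain ⟨_, ⟨i, hi, h⟩, _⟩ := hv
      exact mem_image.2 ⟨i, mem_range.2 hi, h⟩
    refine (card_le_card this).trans (card_image_le.trans ?_)
    rw [card_range]
  · intro hne
    obtain ⟨v, hv⟩ := Finset.nonempty_iff_ne_empty.2 hne
    unfold vt at hv
    rw [mem_filter] at hv
    exact grd_mem_nodes_inr.2 ⟨v, hv.2⟩

/-- loads of a union of pieces -/
theorem grd_load {ι : Type} [DecidableEq ι] (D' : Finset ι) (g : ι → Finset (Item V C))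
    (L B : ℕ) (hg : ∀ d ∈ D', ∃ l ≤ L, ∃ c, IsPiece l c (g d))
    (hB : ∀ a, (D'.filter (fun d => a ∈ gnodes (g d))).card ≤ B) :
    (∀ v, (nb (D'.biUnion g) v).card ≤ 2 * B) ∧ (∀ v, (cl (D'.biUnion g) v).card ≤ B) ∧
      (∀ c, (vt (D'.biUnion g) c).card ≤ L * B) := by
  classical
  refine ⟨fun v => ?_, fun v => ?_, fun c => ?_⟩
  · have h1 : nb (D'.biUnion g) v ⊆
        (D'.filter (fun d => (Sum.inl v : V ⊕ C) ∈ gnodes (g d))).biUnion fun d => nb (g d) v := by
      intro u hu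
      unfold nb at hu
      rw [mem_filter, mem_biUnion] at hu
      obtain ⟨_, d, hd, hdu⟩ := hu
      have h2 : u ∈ nb (g d) v := by
        unfold nb
        exact mem_filter.2 ⟨mem_univ _, hdu⟩
      obtain ⟨l, _, c, hp⟩ := hg d hd
      rw [mem_biUnion]
      exact ⟨d, mem_filter.2 ⟨hd, (grd_nb_piece hp v).2 (Finset.ne_empty_of_mem h2)⟩, h2⟩
    refine (card_le_card h1).trans ?_
    refine (Finset.card_biUnion_le_card_mul _ _ 2 ?_).trans ?_
    · intro d hd
      obtain ⟨l, _, c, hp⟩ := hg d (mem_filter.1 hd).1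
      exact (grd_nb_piece hp v).1
    · rw [mul_comm]
      exact Nat.mul_le_mul_left _ (hB _)
  · have h1 : cl (D'.biUnion g) v ⊆
        (D'.filter (fun d => (Sum.inl v : V ⊕ C) ∈ gnodes (g d))).biUnion fun d => cl (g d) v := by
      intro u hu
      unfold cl at hu
      rw [mem_filter, mem_biUnion] at hu
      obtain ⟨_, d, hd, hdu⟩ := hu
      have h2 : u ∈ cl (g d) v := by
        unfold cl
        exact mem_filter.2 ⟨mem_univ _, hdu⟩
      obtain ⟨l, _, c, hp⟩ := hg d hd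
      rw [mem_biUnion]
      exact ⟨d, mem_filter.2 ⟨hd, (grd_cl_piece hp v).2 (Finset.ne_empty_of_mem h2)⟩, h2⟩
    refine (card_le_card h1).trans ?_
    refine (Finset.card_biUnion_le_card_mul _ _ 1 ?_).trans ?_
    · intro d hd
      obtain ⟨l, _, c, hp⟩ := hg d (mem_filter.1 hd).1
      exact (grd_cl_piece hp v).1
    · rw [mul_one]
      exact hB _
  · have h1 : vt (D'.biUnion g) c ⊆
        (D'.filter (fun d => (Sum.inr c : V ⊕ C) ∈ gnodes (g d))).biUnion fun d => vt (g d) c := by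
      intro u hu
      unfold vt at hu
      rw [mem_filter, mem_biUnion] at hu
      obtain ⟨_, d, hd, hdu⟩ := hu
      have h2 : u ∈ vt (g d) c := by
        unfold vt
        exact mem_filter.2 ⟨mem_univ _, hdu⟩
      obtain ⟨l, _, c', hp⟩ := hg d hd
      rw [mem_biUnion]
      exact ⟨d, mem_filter.2 ⟨hd, (grd_vt_piece hp c).2 (Finset.ne_empty_of_mem h2)⟩, h2⟩
    refine (card_le_card h1).trans ?_
    refine (Finset.card_biUnion_le_card_mul _ _ L ?_).trans ?_
    · intro d hd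
      obtain ⟨l, hl, c', hp⟩ := hg d (mem_filter.1 hd).1
      exact (grd_vt_piece hp c).1.trans hl
    · rw [mul_comm]
      exact Nat.mul_le_mul_left _ (hB _)

omit [Fintype V] [Fintype C] in
/-- the items of a cycle, from the consecutive data -/
theorem grd_cyc_items {l : ℕ} (hl : 1 ≤ l) {z : ℕ → V} {c : C} {P : Item V C → Prop}
    (he : ∀ i, 1 ≤ i → i < l → P (Sum.inl s(z (i - 1), z i)))
    (hc : P (Sum.inl s(z (l - 1), z 0)))
    (hp : ∀ i < l, P (Sum.inr (z i, c))) : ∀ j ∈ cyc l z c, P j := by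
  intro j hj
  unfold cyc at hj
  rw [mem_union, mem_image, mem_image] at hj
  rcases hj with ⟨i, hi, rfl⟩ | ⟨i, hi, rfl⟩
  · rw [mem_range] at hi
    rcases Nat.lt_or_ge (i + 1) l with h | h
    · rw [Nat.mod_eq_of_lt h]
      exact he (i + 1) (by omega) h
    · have : i = l - 1 := by omega
      subst this
      have h2 : l - 1 + 1 = l := by omega
      rw [h2, Nat.mod_self]
      exact hc
  · exact hp i (mem_range.1 hi)

/-- a piece determines its length and colour -/
theorem grd_piece_unique {l l' : ℕ} {c c' : C} {q : Finset (Item V C)} (h : IsPiece l c q)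
    (h' : IsPiece l' c' q) : l = l' ∧ c = c' := by
  obtain ⟨hl, z, hz, hq⟩ := h
  obtain ⟨hl', z', hz', hq'⟩ := h'
  have h1 : (Sum.inr (z 0, c) : Item V C) ∈ q := by
    rw [hq, grd_mem_cyc_inr]
    exact ⟨⟨0, by omega, rfl⟩, rfl⟩
  have hcc : c = c' := by
    rw [hq', grd_mem_cyc_inr] at h1
    exact h1.2
  refine ⟨?_, hcc⟩
  have hcard : ∀ (l : ℕ) (z : ℕ → V), Set.InjOn z (Set.Iio l) → (vt (cyc l z c) c).card = l := by
    intro l z hz
    have : vt (cyc l z c) c = (range l).image z := by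
      ext v
      unfold vt
      rw [mem_filter, grd_mem_cyc_inr, mem_image]
      constructor
      · rintro ⟨_, ⟨i, hi, h⟩, _⟩
        exact ⟨i, mem_range.2 hi, h⟩
      · rintro ⟨i, hi, h⟩
        exact ⟨mem_univ _, ⟨i, mem_range.1 hi, h⟩, rfl⟩
    rw [this, Finset.card_image_of_injOn, card_range]
    intro a ha b hb hab
    rw [Finset.coe_range] at ha hb
    exact hz ha hb hab
  have h2 := hcard l z hz
  have h3 := hcard l' z' hz'
  rw [← hq] at h2
  rw [hcc, ← hq', ← hcc] at h3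
  rw [← h2, h3]

end

/-- **path builder** -/
theorem grd_pathBuild {V : Type} [DecidableEq V] (l r : ℕ) (hr : 1 ≤ r) (hrl : r < l) (y : ℕ → V)
    (A : Finset V) (E : V → V → Prop) (P : V → Prop)
    (h1 : ∀ prev : Finset V, prev.card ≤ l → ∀ a, (a ∈ A ∨ a = y (r - 1)) →
      ∃ u ∈ A, u ∉ prev ∧ E a u ∧ P u)
    (h2 : ∀ prev : Finset V, prev.card ≤ l → ∀ a, (a ∈ A ∨ (a = y (r - 1) ∧ r + 1 = l)) →
      ∃ u ∈ A, u ∉ prev ∧ E a u ∧ E u (y 0) ∧ P u) :
    ∃ z : ℕ → V, (∀ j < r, z j = y j) ∧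
      (∀ i, r ≤ i → i < l → z i ∈ A ∧ P (z i) ∧ E (z (i - 1)) (z i) ∧ ∀ j < i, z j ≠ z i) ∧
      E (z (l - 1)) (z 0) := by
  classical
  obtain ⟨z, hz1, hz2⟩ := grd_seqChoice r l y
    (fun i z v => v ∈ A ∧ P v ∧ (∀ j < i, z j ≠ v) ∧ (1 ≤ i → E (z (i - 1)) v) ∧
      (i + 1 = l → E v (y 0)))
    (by
      intro i z z' v hag h
      refine ⟨h.1, h.2.1, ?_, ?_, h.2.2.2.2⟩
      · intro j hj
        rw [← hag j hj]
        exact h.2.2.1 j hj
      · intro hi
        rw [← hag (i - 1) (by omega)]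
        exact h.2.2.2.1 hi)
    (by
      intro i hi1 hi2 z hz hprev
      have ha : z (i - 1) ∈ A ∨ (z (i - 1) = y (r - 1) ∧ i = r) := by
        by_cases hir : i = r
        · right
          rw [hir]
          exact ⟨hz _ (by omega), rfl⟩
        · left
          exact (hprev (i - 1) (by omega) (by omega)).1
      have hcard : ((range i).image z).card ≤ l := by
        refine card_image_le.trans ?_
        rw [card_range]
        omega
      have hpr : ∀ u, u ∉ (range i).image z → ∀ j < i, z j ≠ u := by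
        intro u hu j hj h
        exact hu (mem_image.2 ⟨j, mem_range.2 hj, h⟩)
      by_cases hil : i + 1 = l
      · obtain ⟨u, hu1, hu2, hu3, hu4, hu5⟩ := h2 ((range i).image z) hcard (z (i - 1))
          (by
            rcases ha with h | ⟨h, h'⟩
            · exact Or.inl h
            · exact Or.inr ⟨h, by omega⟩)
        exact ⟨u, hu1, hu5, hpr u hu2, fun _ => hu3, fun _ => hu4⟩
      · obtain ⟨u, hu1, hu2, hu3, hu5⟩ := h1 ((range i).image z) hcard (z (i - 1))
          (by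
            rcases ha with h | ⟨h, h'⟩
            · exact Or.inl h
            · exact Or.inr h)
        exact ⟨u, hu1, hu5, hpr u hu2, fun _ => hu3, fun h => absurd h hil⟩)
  refine ⟨z, hz1, ?_, ?_⟩
  · intro i hi1 hi2
    obtain ⟨a1, a2, a3, a4, _⟩ := hz2 i hi1 hi2
    exact ⟨a1, a2, a4 (by omega), a3⟩
  · have h3 := (hz2 (l - 1) (by omega) (by omega)).2.2.2.2 (by omega)
    rw [hz1 0 (by omega)]
    exact h3

end Pool.Agent.OBW
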