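import Mathlib
import Pool.Agent.OBW.GrdB

set_option autoImplicit false

/-!
OBW, GRD part C: candidate sets, and the extension of a prefix to a piece.
-/

namespace Pool.Agent.OBW

open Finset

/-- reserve items and usable inside items -/
def grdGood {V C : Type} [Fintype V] [DecidableEq V] [Fintype C] [DecidableEq C]
    (U' U'' : Finset V) (D' : Finset C) (S R : Finset (Item V C)) (i : Item V C) : Prop :=
  i ∈ R ∨ insOK U' U'' D' S i

section
variable {V C : Type} [Fintype V] [DecidableEq V] [Fintype C] [DecidableEq C]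

omit [Fintype C] in
theorem grd_mem_nb {S : Finset (Item V C)} {v u : V} :
    u ∈ nb S v ↔ (Sum.inl s(v, u) : Item V C) ∈ S := by
  unfold nb; simp

omit [Fintype V] in
theorem grd_mem_cl {S : Finset (Item V C)} {v : V} {c : C} :
    c ∈ cl S v ↔ (Sum.inr (v, c) : Item V C) ∈ S := by
  unfold cl; simp

omit [Fintype C] in
theorem grd_mem_vt {S : Finset (Item V C)} {v : V} {c : C} :
    v ∈ vt S c ↔ (Sum.inr (v, c) : Item V C) ∈ S := by
  unfold vt; simp

theorem grd_base {δ ε η ξ μ p ζ : ℝ} {U U' U'' : Finset V} {D D' D'' : Finset C}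
    {S R : Finset (Item V C)}
    (hst : Stage δ ε η ξ μ U U' D D' S) (hres : Res p ζ μ U U' U'' D D' D'' S R)
    (hU'' : (U''.card : ℝ) ≤ μ * U'.card) (hε : 0 < ε) (hp : 0 < p) (hp1 : p ≤ 1/4)
    (hζ : ζ ≤ p / 100) (hμ : μ ≤ 1/100)
    {c : C} (hc : c ∈ D) {a b : V} (ha : a ∈ U) (hb : b ∈ U)
    (hab : a ∈ U' ∨ b ∈ U' ∨ (c ∈ D' ∧ a ≠ b)) :
    ∃ K : Finset V, K ⊆ U' \ U'' ∧ p ^ 2 / 4 * (U'.card : ℝ) ≤ K.card ∧
      ∀ u ∈ K, grdGood U' U'' D' S R (Sum.inl s(a, u)) ∧ grdGood U' U'' D' S R (Sum.inl s(u, b)) ∧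
        grdGood U' U'' D' S R (Sum.inr (u, c)) := by
  classical
  set M : ℝ := (U'.card : ℝ) with hM
  have hM0 : 0 ≤ M := Nat.cast_nonneg _
  have hp2 : p ^ 2 ≤ p / 4 := by nlinarith
  have hp2M : p ^ 2 / 4 * M ≤ p / 4 * M := by
    apply mul_le_mul_of_nonneg_right _ hM0
    nlinarith
  -- membership facts for the reserve
  have hnbR : ∀ x, x ∉ U' → ∀ u, u ∈ nb R x → u ∈ U' := by
    intro x hx u hu
    rw [grd_mem_nb] at hu
    rcases hres.kE _ _ hu with h | h
    · exact absurd h.1 hx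
    · exact h.1
  have hvtR : c ∉ D' → ∀ u, u ∈ vt R c → u ∈ U' := by
    intro hcD u hu
    rw [grd_mem_vt] at hu
    rcases hres.kP _ _ hu with h | h
    · exact absurd h.2 hcD
    · exact h.1
  -- good items
  have gS : ∀ a u, a ∈ U' → u ∈ U' \ U'' → u ∈ nb S a →
      grdGood U' U'' D' S R (Sum.inl s(a, u)) := by
    intro a u ha hu hau
    exact Or.inr ⟨grd_mem_nb.1 hau, Or.inl ⟨a, ha, u, hu, rfl⟩⟩
  have gS' : ∀ a u, a ∈ U' → u ∈ U' \ U'' → u ∈ nb S a →
      grdGood U' U'' D' S R (Sum.inl s(u, a)) := by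
    intro a u ha hu hau
    rw [Sym2.eq_swap]
    exact gS a u ha hu hau
  have gR : ∀ a u, u ∈ nb R a → grdGood U' U'' D' S R (Sum.inl s(a, u)) := by
    intro a u hau
    exact Or.inl (grd_mem_nb.1 hau)
  have gR' : ∀ a u, u ∈ nb R a → grdGood U' U'' D' S R (Sum.inl s(u, a)) := by
    intro a u hau
    rw [Sym2.eq_swap]
    exact gR a u hau
  have gP : c ∉ D' → ∀ u, u ∈ vt R c → grdGood U' U'' D' S R (Sum.inr (u, c)) := by
    intro _ u hu
    exact Or.inl (grd_mem_vt.1 hu)
  have gP' : c ∈ D' → ∀ u, u ∈ U' \ U'' → grdGood U' U'' D' S R (Sum.inr (u, c)) := by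
    intro hcD u hu
    exact Or.inr ⟨hst.comp u (mem_sdiff.1 hu).1 c hcD, Or.inr ⟨u, hu, c, hcD, rfl⟩⟩
  -- common neighbours in S
  have hcom : (1/2 : ℝ) * M ≤ ((nb S a ∩ nb S b ∩ U').card : ℝ) := by
    have h1 := hst.degU' a ha
    have h2 := hst.degU' b hb
    have h3 : (nb S a ∩ U').card + (nb S b ∩ U').card ≤ (nb S a ∩ nb S b ∩ U').card + U'.card := by
      have h4 := Finset.card_union_add_card_inter (nb S a ∩ U') (nb S b ∩ U')
      have h5 : (nb S a ∩ U') ∩ (nb S b ∩ U') = nb S a ∩ nb S b ∩ U' := by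
        ext v; simp only [mem_inter]; tauto
      have h6 : ((nb S a ∩ U') ∪ (nb S b ∩ U')).card ≤ U'.card := by
        apply card_le_card
        intro v hv
        simp only [mem_union, mem_inter] at hv
        tauto
      rw [h5] at h4
      omega
    have h3' : ((nb S a ∩ U').card : ℝ) + (nb S b ∩ U').card ≤
        (nb S a ∩ nb S b ∩ U').card + M := by
      rw [hM]; exact_mod_cast h3
    nlinarith
  by_cases hcD : c ∈ D'
  · by_cases haU : a ∈ U'
    · by_cases hbU : b ∈ U'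
      · refine ⟨(nb S a ∩ nb S b ∩ U') \ U'', ?_, ?_, ?_⟩
        · intro u hu
          simp only [mem_sdiff, mem_inter] at hu ⊢
          exact ⟨hu.1.2, hu.2⟩
        · have h1 : ((nb S a ∩ nb S b ∩ U').card : ℝ) ≤
              (((nb S a ∩ nb S b ∩ U') \ U'').card : ℝ) + U''.card := by
            have := Finset.card_le_card_sdiff_add_card (s := nb S a ∩ nb S b ∩ U') (t := U'')
            exact_mod_cast this
          have h2 : p ^ 2 / 4 * M ≤ 1/64 * M := by
            apply mul_le_mul_of_nonneg_right _ hM0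
            nlinarith
          have h3 : μ * M ≤ 1/100 * M := mul_le_mul_of_nonneg_right hμ hM0
          linarith
        · intro u hu
          simp only [mem_sdiff, mem_inter] at hu
          have hu' : u ∈ U' \ U'' := mem_sdiff.2 ⟨hu.1.2, hu.2⟩
          exact ⟨gS a u haU hu' hu.1.1.1, gS' b u hbU hu' hu.1.1.2, gP' hcD u hu'⟩
      · refine ⟨(nb S a ∩ nb R b) \ U'', ?_, ?_, ?_⟩
        · intro u hu
          simp only [mem_sdiff, mem_inter] at hu ⊢
          exact ⟨hnbR b hbU u hu.1.2, hu.2⟩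
        · have h1 : ((nb S a ∩ nb R b).card : ℝ) ≤
              (((nb S a ∩ nb R b) \ U'').card : ℝ) + (nb R b ∩ U'').card := by
            have h4 : nb S a ∩ nb R b ⊆ ((nb S a ∩ nb R b) \ U'') ∪ (nb R b ∩ U'') := by
              intro u hu
              simp only [mem_sdiff, mem_inter, mem_union] at hu ⊢
              tauto
            have := (card_le_card h4).trans (card_union_le _ _)
            exact_mod_cast this
          have h5 := hres.un a haU b (mem_sdiff.2 ⟨hb, hbU⟩)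
          have h6 := hres.n2 b (mem_sdiff.2 ⟨hb, hbU⟩)
          have h7 : p * (1/2 * M) ≤ p * ((nb S a ∩ nb S b ∩ U').card : ℝ) :=
            mul_le_mul_of_nonneg_left hcom hp.le
          have h8 : ζ * M ≤ p / 100 * M := mul_le_mul_of_nonneg_right hζ hM0
          have h9 : 2 * μ * p * M ≤ 2 * (1/100) * p * M := by
            apply mul_le_mul_of_nonneg_right _ hM0
            apply mul_le_mul_of_nonneg_right _ hp.le
            linarith
          have h10 : 0 ≤ p * M := mul_nonneg hp.le hM0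
          linarith
        · intro u hu
          simp only [mem_sdiff, mem_inter] at hu
          have hu' : u ∈ U' \ U'' := mem_sdiff.2 ⟨hnbR b hbU u hu.1.2, hu.2⟩
          exact ⟨gS a u haU hu' hu.1.1, gR' b u hu.1.2, gP' hcD u hu'⟩
    · by_cases hbU : b ∈ U'
      · refine ⟨(nb S b ∩ nb R a) \ U'', ?_, ?_, ?_⟩
        · intro u hu
          simp only [mem_sdiff, mem_inter] at hu ⊢
          exact ⟨hnbR a haU u hu.1.2, hu.2⟩
        · have h1 : ((nb S b ∩ nb R a).card : ℝ) ≤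
              (((nb S b ∩ nb R a) \ U'').card : ℝ) + (nb R a ∩ U'').card := by
            have h4 : nb S b ∩ nb R a ⊆ ((nb S b ∩ nb R a) \ U'') ∪ (nb R a ∩ U'') := by
              intro u hu
              simp only [mem_sdiff, mem_inter, mem_union] at hu ⊢
              tauto
            have := (card_le_card h4).trans (card_union_le _ _)
            exact_mod_cast this
          have h5 := hres.un b hbU a (mem_sdiff.2 ⟨ha, haU⟩)
          have h6 := hres.n2 a (mem_sdiff.2 ⟨ha, haU⟩)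
          have hcom' : (1/2 : ℝ) * M ≤ ((nb S b ∩ nb S a ∩ U').card : ℝ) := by
            rw [Finset.inter_comm (nb S b) (nb S a)]
            exact hcom
          have h7 : p * (1/2 * M) ≤ p * ((nb S b ∩ nb S a ∩ U').card : ℝ) :=
            mul_le_mul_of_nonneg_left hcom' hp.le
          have h8 : ζ * M ≤ p / 100 * M := mul_le_mul_of_nonneg_right hζ hM0
          have h9 : 2 * μ * p * M ≤ 2 * (1/100) * p * M := by
            apply mul_le_mul_of_nonneg_right _ hM0
            apply mul_le_mul_of_nonneg_right _ hp.le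
            linarith
          have h10 : 0 ≤ p * M := mul_nonneg hp.le hM0
          linarith
        · intro u hu
          simp only [mem_sdiff, mem_inter] at hu
          have hu' : u ∈ U' \ U'' := mem_sdiff.2 ⟨hnbR a haU u hu.1.2, hu.2⟩
          exact ⟨gR a u hu.1.2, gS' b u hbU hu' hu.1.1, gP' hcD u hu'⟩
      · have hne : a ≠ b := by
          rcases hab with h | h | h
          · exact absurd h haU
          · exact absurd h hbU
          · exact h.2
        refine ⟨(nb R a ∩ nb R b) \ U'', ?_, ?_, ?_⟩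
        · intro u hu
          simp only [mem_sdiff, mem_inter] at hu ⊢
          exact ⟨hnbR a haU u hu.1.1, hu.2⟩
        · have h1 := (hres.nn a (mem_sdiff.2 ⟨ha, haU⟩) b (mem_sdiff.2 ⟨hb, hbU⟩) hne).1
          have h2 : p ^ 2 / 4 * M ≤ p ^ 2 / 3 * M := by
            apply mul_le_mul_of_nonneg_right _ hM0
            have := sq_nonneg p
            linarith
          linarith
        · intro u hu
          simp only [mem_sdiff, mem_inter] at hu
          have hu' : u ∈ U' \ U'' := mem_sdiff.2 ⟨hnbR a haU u hu.1.1, hu.2⟩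
          exact ⟨gR a u hu.1.1, gR' b u hu.1.2, gP' hcD u hu'⟩
  · have hcDD : c ∈ D \ D' := mem_sdiff.2 ⟨hc, hcD⟩
    by_cases haU : a ∈ U'
    · by_cases hbU : b ∈ U'
      · refine ⟨(nb S a ∩ nb S b ∩ vt R c) \ U'', ?_, ?_, ?_⟩
        · intro u hu
          simp only [mem_sdiff, mem_inter] at hu ⊢
          exact ⟨hvtR hcD u hu.1.2, hu.2⟩
        · have h1 := hres.uuw a haU b hbU c hcDD
          linarith
        · intro u hu
          simp only [mem_sdiff, mem_inter] at hu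
          have hu' : u ∈ U' \ U'' := mem_sdiff.2 ⟨hvtR hcD u hu.1.2, hu.2⟩
          exact ⟨gS a u haU hu' hu.1.1.1, gS' b u hbU hu' hu.1.1.2, gP hcD u hu.1.2⟩
      · refine ⟨(nb S a ∩ nb R b ∩ vt R c) \ U'', ?_, ?_, ?_⟩
        · intro u hu
          simp only [mem_sdiff, mem_inter] at hu ⊢
          exact ⟨hvtR hcD u hu.1.2, hu.2⟩
        · exact hres.unw a haU b (mem_sdiff.2 ⟨hb, hbU⟩) c hcDD
        · intro u hu
          simp only [mem_sdiff, mem_inter] at hu
          have hu' : u ∈ U' \ U'' := mem_sdiff.2 ⟨hvtR hcD u hu.1.2, hu.2⟩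
          exact ⟨gS a u haU hu' hu.1.1.1, gR' b u hu.1.1.2, gP hcD u hu.1.2⟩
    · by_cases hbU : b ∈ U'
      · refine ⟨(nb S b ∩ nb R a ∩ vt R c) \ U'', ?_, ?_, ?_⟩
        · intro u hu
          simp only [mem_sdiff, mem_inter] at hu ⊢
          exact ⟨hvtR hcD u hu.1.2, hu.2⟩
        · exact hres.unw b hbU a (mem_sdiff.2 ⟨ha, haU⟩) c hcDD
        · intro u hu
          simp only [mem_sdiff, mem_inter] at hu
          have hu' : u ∈ U' \ U'' := mem_sdiff.2 ⟨hvtR hcD u hu.1.2, hu.2⟩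
          exact ⟨gR a u hu.1.1.2, gS' b u hbU hu' hu.1.1.1, gP hcD u hu.1.2⟩
      · exfalso
        rcases hab with h | h | h
        · exact haU h
        · exact hbU h
        · exact hcD h.1

/-- candidates minus forbidden ones -/
theorem grd_cand {U' U'' : Finset V} {D' : Finset C} {S R Z : Finset (Item V C)}
    {O : Finset (V ⊕ C)} {c : C} {a b : V} {B L o : ℕ} {K : Finset V}
    (hK : ∀ u ∈ K, grdGood U' U'' D' S R (Sum.inl s(a, u)) ∧
      grdGood U' U'' D' S R (Sum.inl s(u, b)) ∧ grdGood U' U'' D' S R (Sum.inr (u, c)))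
    (hnb : ∀ v, (nb Z v).card ≤ 2 * B) (hvt : (vt Z c).card ≤ L * B) (hO : O.card ≤ o)
    (hbig : (4 + L) * B + o + L < K.card) (prev : Finset V) (hprev : prev.card ≤ L) :
    ∃ u ∈ K, u ∉ prev ∧
      (grdGood U' U'' D' S R (Sum.inl s(a, u)) ∧ (Sum.inl s(a, u) : Item V C) ∉ Z) ∧
      (grdGood U' U'' D' S R (Sum.inl s(u, b)) ∧ (Sum.inl s(u, b) : Item V C) ∉ Z) ∧
      (grdGood U' U'' D' S R (Sum.inr (u, c)) ∧ (Sum.inr (u, c) : Item V C) ∉ Z ∧
        (Sum.inl u : V ⊕ C) ∉ O) := by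
  classical
  set OV : Finset V := univ.filter fun v => (Sum.inl v : V ⊕ C) ∈ O with hOV
  have hOVc : OV.card ≤ o := by
    refine le_trans ?_ hO
    have h1 : OV.map ⟨(Sum.inl : V → V ⊕ C), Sum.inl_injective⟩ ⊆ O := by
      intro x hx
      rw [mem_map] at hx
      obtain ⟨v, hv, rfl⟩ := hx
      exact (mem_filter.1 hv).2
    have h2 := card_le_card h1
    rwa [card_map] at h2
  set bad : Finset V := nb Z a ∪ (nb Z b ∪ (vt Z c ∪ (OV ∪ prev))) with hbad
  have hbadc : bad.card ≤ 2 * B + (2 * B + (L * B + (o + L))) := by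
    refine (card_union_le _ _).trans (Nat.add_le_add (hnb a) ?_)
    refine (card_union_le _ _).trans (Nat.add_le_add (hnb b) ?_)
    refine (card_union_le _ _).trans (Nat.add_le_add hvt ?_)
    exact (card_union_le _ _).trans (Nat.add_le_add hOVc hprev)
  have hlt : bad.card < K.card := by
    have : 2 * B + (2 * B + (L * B + (o + L))) = (4 + L) * B + o + L := by ring
    omega
  obtain ⟨u, huK, hub⟩ := Finset.exists_mem_notMem_of_card_lt_card hlt
  simp only [hbad, mem_union, not_or] at hub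
  obtain ⟨g1, g2, g3⟩ := hK u huK
  refine ⟨u, huK, hub.2.2.2.2, ⟨g1, fun h => hub.1 (grd_mem_nb.2 h)⟩, ⟨g2, fun h => hub.2.1 ?_⟩,
    ⟨g3, fun h => hub.2.2.1 (grd_mem_vt.2 h), fun h => hub.2.2.2.1 ?_⟩⟩
  · rw [grd_mem_nb, Sym2.eq_swap]
    exact h
  · rw [hOV, mem_filter]
    exact ⟨mem_univ _, h⟩

/-- **extension of a prefix to a piece** -/
theorem grd_extend {δ ε η ξ μ p ζ : ℝ} {U U' U'' : Finset V} {D D' D'' : Finset C}
    {S R Z : Finset (Item V C)} {O : Finset (V ⊕ C)}
    (hst : Stage δ ε η ξ μ U U' D D' S) (hres : Res p ζ μ U U' U'' D D' D'' S R)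
    (hU'' : (U''.card : ℝ) ≤ μ * U'.card) (hε : 0 < ε) (hp : 0 < p) (hp1 : p ≤ 1/4)
    (hζ : ζ ≤ p / 100) (hμ : μ ≤ 1/100)
    {B L o : ℕ} (hnb : ∀ v, (nb Z v).card ≤ 2 * B) (hvt : ∀ c, (vt Z c).card ≤ L * B)
    (hO : O.card ≤ o) (hbig : (((4 + L) * B + o + L : ℕ) : ℝ) < p ^ 2 / 4 * U'.card)
    {c : C} (hc : c ∈ D) {l r : ℕ} (hr : 1 ≤ r) (hrl : r < l) (hl3 : 3 ≤ l) (hlL : l ≤ L)
    (y : ℕ → V)
    (hyU : ∀ i < r, y i ∈ U) (hyinj : ∀ i < r, ∀ j < i, y j ≠ y i)
    (hlast : r + 1 = l → (y (r - 1) ∈ U' ∨ y 0 ∈ U' ∨ (c ∈ D' ∧ y (r - 1) ≠ y 0))) :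
    ∃ z : ℕ → V, (∀ j < r, z j = y j) ∧ Set.InjOn z (Set.Iio l) ∧
      (∀ i, r ≤ i → i < l → (Sum.inl (z i) : V ⊕ C) ∉ O ∧ z i ∈ U') ∧
      (∀ j ∈ cyc l z c, ((∃ i, 1 ≤ i ∧ i < r ∧ j = Sum.inl s(y (i - 1), y i)) ∨
          (∃ i < r, j = Sum.inr (y i, c))) ∨
        (grdGood U' U'' D' S R j ∧ j ∉ Z)) := by
  classical
  have hcardK : ∀ K : Finset V, p ^ 2 / 4 * (U'.card : ℝ) ≤ K.card → (4 + L) * B + o + L < K.card := by
    intro K hK
    have h1 := lt_of_lt_of_le hbig hK
    exact_mod_cast h1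
  have hU'ne : U'.Nonempty := by
    rw [← Finset.card_pos]
    by_contra h
    have h0 : U'.card = 0 := by omega
    rw [h0] at hbig
    simp only [CharP.cast_eq_zero, mul_zero] at hbig
    have : (0 : ℝ) ≤ (((4 + L) * B + o + L : ℕ) : ℝ) := Nat.cast_nonneg _
    linarith
  obtain ⟨u0, hu0⟩ := hU'ne
  have hAU : ∀ a ∈ U' \ U'', a ∈ U := fun a ha => hst.subU (mem_sdiff.1 ha).1
  obtain ⟨z, hz1, hz2, hz3⟩ := grd_pathBuild l r hr hrl y (U' \ U'')
    (fun a u => grdGood U' U'' D' S R (Sum.inl s(a, u)) ∧ (Sum.inl s(a, u) : Item V C) ∉ Z)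
    (fun u => grdGood U' U'' D' S R (Sum.inr (u, c)) ∧ (Sum.inr (u, c) : Item V C) ∉ Z ∧
        (Sum.inl u : V ⊕ C) ∉ O)
    (by
      intro prev hprev a ha
      have haU : a ∈ U := by
        rcases ha with h | h
        · exact hAU a h
        · rw [h]; exact hyU _ (by omega)
      obtain ⟨K, hK1, hK2, hK3⟩ := grd_base hst hres hU'' hε hp hp1 hζ hμ hc haU (hst.subU hu0)
        (Or.inr (Or.inl hu0))
      obtain ⟨u, huK, h1, h2, h3, h4⟩ := grd_cand hK3 hnb (hvt c) hO (hcardK K hK2) prev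
        (hprev.trans hlL)
      exact ⟨u, hK1 huK, h1, h2, h4⟩)
    (by
      intro prev hprev a ha
      have haU : a ∈ U := by
        rcases ha with h | h
        · exact hAU a h
        · rw [h.1]; exact hyU _ (by omega)
      obtain ⟨K, hK1, hK2, hK3⟩ := grd_base hst hres hU'' hε hp hp1 hζ hμ hc haU
        (hyU 0 (by omega)) (by
          rcases ha with h | h
          · exact Or.inl (mem_sdiff.1 h).1
          · rw [h.1]; exact hlast h.2)
      obtain ⟨u, huK, h1, h2, h3, h4⟩ := grd_cand hK3 hnb (hvt c) hO (hcardK K hK2) prev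
        (hprev.trans hlL)
      exact ⟨u, hK1 huK, h1, h2, h3, h4⟩)
  have hdist : ∀ i < l, ∀ j < i, z j ≠ z i := by
    intro i hi j hj
    by_cases hir : i < r
    · rw [hz1 i hir, hz1 j (by omega)]
      exact hyinj i hir j hj
    · exact (hz2 i (by omega) hi).2.2.2 j hj
  refine ⟨z, hz1, ?_, ?_, ?_⟩
  · intro i hi j hj hij
    rw [Set.mem_Iio] at hi hj
    rcases Nat.lt_trichotomy i j with h | h | h
    · exact absurd hij (hdist j hj i h)
    · exact h
    · exact absurd hij.symm (hdist i hi j h)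
  · intro i hi1 hi2
    exact ⟨(hz2 i hi1 hi2).2.1.2.2, (mem_sdiff.1 (hz2 i hi1 hi2).1).1⟩
  · apply grd_cyc_items (P := fun j => ((∃ i, 1 ≤ i ∧ i < r ∧ j = Sum.inl s(y (i - 1), y i)) ∨
          (∃ i < r, j = Sum.inr (y i, c))) ∨ (grdGood U' U'' D' S R j ∧ j ∉ Z)) (by omega)
    · intro i hi1 hi2
      by_cases hir : i < r
      · left; left
        exact ⟨i, hi1, hir, by rw [hz1 i hir, hz1 (i - 1) (by omega)]⟩
      · right
        exact (hz2 i (by omega) hi2).2.2.1
    · right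
      exact hz3
    · intro i hi
      by_cases hir : i < r
      · left; right
        exact ⟨i, hir, by rw [hz1 i hir]⟩
      · right
        have h := (hz2 i (by omega) hi).2.1
        exact ⟨h.1, h.2.1⟩

end

end Pool.Agent.OBW
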