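import Mathlib
import Pool.Agent.OBW.GrdC

set_option autoImplicit false

/-!
OBW, GRD part D: one greedy step for each of the three kinds of demands.
-/

namespace Pool.Agent.OBW

open Finset

section
variable {V C : Type} [Fintype V] [DecidableEq V] [Fintype C] [DecidableEq C]

/-- nodes of an item -/
noncomputable def grdIN (i : Item V C) : Finset (V ⊕ C) := by
  classical exact univ.filter fun a => match i, a with
    | Sum.inl e, Sum.inl v => v ∈ e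
    | Sum.inl _, Sum.inr _ => False
    | Sum.inr p, Sum.inl v => v = p.1
    | Sum.inr p, Sum.inr c => c = p.2

/-- nodes fixed by a demand -/
noncomputable def grdFix (d : Item V C ⊕ ((C × ℕ) × ℕ)) : Finset (V ⊕ C) :=
  match d with
  | Sum.inl i => grdIN i
  | Sum.inr t => {Sum.inr t.1.1}

/-- acceptable pieces of a demand -/
def grdOk (U' U'' : Finset V) (D D' : Finset C) (S R : Finset (Item V C)) (ls : ℕ)
    (d : Item V C ⊕ ((C × ℕ) × ℕ)) (q : Finset (Item V C)) : Prop :=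
  match d with
  | Sum.inl i => i ∈ q ∧ (∀ j ∈ q, j = i ∨ grdGood U' U'' D' S R j) ∧ (∃ c ∈ D, IsPiece ls c q) ∧
      (4 ≤ ls → ∃ u ∈ U', ∃ v ∈ U', (Sum.inl s(u, v) : Item V C) ∈ q)
  | Sum.inr t => (∀ j ∈ q, grdGood U' U'' D' S R j) ∧ IsPiece t.1.2 t.1.1 q ∧
      ((∀ u v, (Sum.inl s(u, v) : Item V C) ∈ q → u ∈ U' ∧ v ∈ U') ∧
        (∀ v c', (Sum.inr (v, c') : Item V C) ∈ q → v ∈ U')) ∧
      (∃ u ∈ U', ∃ v ∈ U', (Sum.inl s(u, v) : Item V C) ∈ q)

theorem grd_step1 {δ ε η ξ μ p ζ : ℝ} {U U' U'' : Finset V} {D D' D'' : Finset C}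
    {S R Z : Finset (Item V C)} {O : Finset (V ⊕ C)} {ls L k : ℕ}
    (hst : Stage δ ε η ξ μ U U' D D' S) (hres : Res p ζ μ U U' U'' D D' D'' S R)
    (hU'' : (U''.card : ℝ) ≤ μ * U'.card) (hε : 0 < ε) (hp : 0 < p) (hp1 : p ≤ 1/4)
    (hζ : ζ ≤ p / 100) (hμ : μ ≤ 1/100) (hls3 : 3 ≤ ls) (hlsL : ls ≤ L)
    (hnb : ∀ v, (nb Z v).card ≤ 2 * (2 * k)) (hcl : ∀ v, (cl Z v).card ≤ 2 * k)
    (hvt : ∀ c, (vt Z c).card ≤ L * (2 * k)) (hO : O.card ≤ k)
    (hbig : (((4 + L) * (2 * k) + k + L : ℕ) : ℝ) < p ^ 2 / 4 * U'.card)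
    (hbig2 : ((5 * k : ℕ) : ℝ) < p ^ 2 / 8 * U'.card)
    {x y : V} (hx : x ∈ U \ U') (hy : y ∈ U \ U') (hxy : x ≠ y)
    (hZ : (Sum.inl s(x, y) : Item V C) ∉ Z) :
    ∃ q, grdOk U' U'' D D' S R ls (Sum.inl (Sum.inl s(x, y))) q ∧ Disjoint Z q ∧
      ∀ a ∈ gnodes q, a ∉ grdFix (Sum.inl (Sum.inl s(x, y)) : Item V C ⊕ ((C × ℕ) × ℕ)) → a ∉ O := by
  classical
  -- the colour
  set OC : Finset C := univ.filter fun c => (Sum.inr c : V ⊕ C) ∈ O with hOC
  have hOCc : OC.card ≤ k := by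
    refine le_trans ?_ hO
    have h1 : OC.map ⟨(Sum.inr : C → V ⊕ C), Sum.inr_injective⟩ ⊆ O := by
      intro a ha
      rw [mem_map] at ha
      obtain ⟨c, hc, rfl⟩ := ha
      exact (mem_filter.1 hc).2
    have h2 := card_le_card h1
    rwa [card_map] at h2
  have hA := (hres.cc x hx y hy hxy).1
  have hlt : (cl Z x ∪ (cl Z y ∪ OC)).card < (cl R x ∩ cl R y).card := by
    have h1 : (cl Z x ∪ (cl Z y ∪ OC)).card ≤ 2 * k + (2 * k + k) := by
      refine (card_union_le _ _).trans (Nat.add_le_add (hcl x) ?_)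
      exact (card_union_le _ _).trans (Nat.add_le_add (hcl y) hOCc)
    have h2 : ((5 * k : ℕ) : ℝ) < ((cl R x ∩ cl R y).card : ℝ) := lt_of_lt_of_le hbig2 hA
    have h3 : 5 * k < (cl R x ∩ cl R y).card := by exact_mod_cast h2
    omega
  obtain ⟨c, hcA, hcb⟩ := Finset.exists_mem_notMem_of_card_lt_card hlt
  simp only [mem_union, not_or] at hcb
  rw [mem_inter, grd_mem_cl, grd_mem_cl] at hcA
  have hxU' : x ∉ U' := (mem_sdiff.1 hx).2
  have hyU' : y ∉ U' := (mem_sdiff.1 hy).2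
  have hcD' : c ∈ D' := by
    rcases hres.kP _ _ hcA.1 with h | h
    · exact h.2
    · exact absurd h.1 hxU'
  obtain ⟨z, hz1, hz2, hz3, hz4⟩ := grd_extend hst hres hU'' hε hp hp1 hζ hμ hnb hvt hO hbig
    (hst.subD hcD') (l := ls) (r := 2) (by norm_num) (by omega) hls3 hlsL
    (fun i => if i = 0 then x else y)
    (by
      intro i _
      split_ifs
      · exact (mem_sdiff.1 hx).1
      · exact (mem_sdiff.1 hy).1)
    (by
      intro i hi j hj
      have h1 : i = 1 := by omega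
      have h0 : j = 0 := by omega
      subst h1; subst h0
      simpa using hxy)
    (by
      intro _
      right; right
      refine ⟨hcD', ?_⟩
      simp only [if_pos]
      simpa using hxy.symm)
  have hz0 : z 0 = x := by rw [hz1 0 (by norm_num)]; simp
  have hz1' : z 1 = y := by rw [hz1 1 (by norm_num)]; simp
  refine ⟨cyc ls z c, ⟨?_, ?_, ⟨c, hst.subD hcD', hls3, z, hz2, rfl⟩, ?_⟩, ?_, ?_⟩
  · rw [grd_mem_cyc_inl]
    refine ⟨0, by omega, ?_⟩
    rw [Nat.zero_add, Nat.mod_eq_of_lt (by omega), hz0, hz1']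
  · intro j hj
    rcases hz4 j hj with (⟨i, hi1, hi2, rfl⟩ | ⟨i, hi, rfl⟩) | h
    · left
      have h1 : i = 1 := by omega
      subst h1
      simp
    · right
      left
      split_ifs
      · exact hcA.1
      · exact hcA.2
    · exact Or.inr h.1
  · intro h4
    refine ⟨z 2, (hz3 2 le_rfl (by omega)).2, z 3, (hz3 3 (by omega) (by omega)).2, ?_⟩
    rw [grd_mem_cyc_inl]
    exact ⟨2, by omega, by rw [Nat.mod_eq_of_lt (by omega)]⟩
  · rw [Finset.disjoint_right]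
    intro j hj
    rcases hz4 j hj with (⟨i, hi1, hi2, rfl⟩ | ⟨i, hi, rfl⟩) | h
    · have h1 : i = 1 := by omega
      subst h1
      simpa using hZ
    · split_ifs
      · intro h; exact hcb.1 (grd_mem_cl.2 h)
      · intro h; exact hcb.2.1 (grd_mem_cl.2 h)
    · exact h.2
  · intro a ha hfix
    have ha' := grd_nodes_cyc ha
    rw [mem_union, mem_image, mem_singleton] at ha'
    rcases ha' with ⟨i, hi, rfl⟩ | rfl
    · rw [mem_range] at hi
      by_cases hi2 : 2 ≤ i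
      · exact (hz3 i hi2 hi).1
      · exfalso
        apply hfix
        show Sum.inl (z i) ∈ grdIN (Sum.inl s(x, y))
        unfold grdIN
        rw [mem_filter]
        refine ⟨mem_univ _, ?_⟩
        show z i ∈ s(x, y)
        rw [Sym2.mem_iff]
        have h01 : i = 0 ∨ i = 1 := by omega
        rcases h01 with rfl | rfl
        · exact Or.inl hz0
        · exact Or.inr hz1'
    · intro h
      exact hcb.2.2 (mem_filter.2 ⟨mem_univ _, h⟩)

theorem grd_step2 {δ ε η ξ μ p ζ : ℝ} {U U' U'' : Finset V} {D D' D'' : Finset C}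
    {S R Z : Finset (Item V C)} {O : Finset (V ⊕ C)} {ls L k : ℕ}
    (hst : Stage δ ε η ξ μ U U' D D' S) (hres : Res p ζ μ U U' U'' D D' D'' S R)
    (hU'' : (U''.card : ℝ) ≤ μ * U'.card) (hε : 0 < ε) (hp : 0 < p) (hp1 : p ≤ 1/4)
    (hζ : ζ ≤ p / 100) (hμ : μ ≤ 1/100) (hls3 : 3 ≤ ls) (hlsL : ls ≤ L)
    (hnb : ∀ v, (nb Z v).card ≤ 2 * (2 * k))
    (hvt : ∀ c, (vt Z c).card ≤ L * (2 * k)) (hO : O.card ≤ k)
    (hbig : (((4 + L) * (2 * k) + k + L : ℕ) : ℝ) < p ^ 2 / 4 * U'.card)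
    {x : V} {c : C} (hx : x ∈ U \ U') (hc : c ∈ D \ D')
    (hZ : (Sum.inr (x, c) : Item V C) ∉ Z) :
    ∃ q, grdOk U' U'' D D' S R ls (Sum.inl (Sum.inr (x, c))) q ∧ Disjoint Z q ∧
      ∀ a ∈ gnodes q, a ∉ grdFix (Sum.inl (Sum.inr (x, c)) : Item V C ⊕ ((C × ℕ) × ℕ)) → a ∉ O := by
  classical
  have hcD : c ∈ D := (mem_sdiff.1 hc).1
  obtain ⟨z, hz1, hz2, hz3, hz4⟩ := grd_extend hst hres hU'' hε hp hp1 hζ hμ hnb hvt hO hbig
    hcD (l := ls) (r := 1) le_rfl (by omega) hls3 hlsL (fun _ => x)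
    (fun i _ => (mem_sdiff.1 hx).1)
    (fun i hi j hj => by omega)
    (fun h => by omega)
  have hz0 : z 0 = x := hz1 0 (by norm_num)
  refine ⟨cyc ls z c, ⟨?_, ?_, ⟨c, hcD, hls3, z, hz2, rfl⟩, ?_⟩, ?_, ?_⟩
  · rw [grd_mem_cyc_inr]
    exact ⟨⟨0, by omega, hz0⟩, rfl⟩
  · intro j hj
    rcases hz4 j hj with (⟨i, hi1, hi2, rfl⟩ | ⟨i, hi, rfl⟩) | h
    · omega
    · exact Or.inl rfl
    · exact Or.inr h.1
  · intro _
    refine ⟨z 1, (hz3 1 le_rfl (by omega)).2, z 2, (hz3 2 (by omega) (by omega)).2, ?_⟩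
    rw [grd_mem_cyc_inl]
    exact ⟨1, by omega, by rw [Nat.mod_eq_of_lt (by omega)]⟩
  · rw [Finset.disjoint_right]
    intro j hj
    rcases hz4 j hj with (⟨i, hi1, hi2, rfl⟩ | ⟨i, hi, rfl⟩) | h
    · omega
    · exact hZ
    · exact h.2
  · intro a ha hfix
    have ha' := grd_nodes_cyc ha
    rw [mem_union, mem_image, mem_singleton] at ha'
    rcases ha' with ⟨i, hi, rfl⟩ | rfl
    · rw [mem_range] at hi
      by_cases hi2 : 1 ≤ i
      · exact (hz3 i hi2 hi).1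
      · exfalso
        apply hfix
        show Sum.inl (z i) ∈ grdIN (Sum.inr (x, c))
        unfold grdIN
        rw [mem_filter]
        refine ⟨mem_univ _, ?_⟩
        show z i = x
        have h0 : i = 0 := by omega
        rw [h0, hz0]
    · exfalso
      apply hfix
      show Sum.inr c ∈ grdIN (Sum.inr (x, c))
      unfold grdIN
      rw [mem_filter]
      exact ⟨mem_univ _, rfl⟩

theorem grd_step0 {δ ε η ξ μ p ζ : ℝ} {U U' U'' : Finset V} {D D' D'' : Finset C}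
    {S R Z : Finset (Item V C)} {O : Finset (V ⊕ C)} {ls L k : ℕ}
    (hst : Stage δ ε η ξ μ U U' D D' S) (hres : Res p ζ μ U U' U'' D D' D'' S R)
    (hU'' : (U''.card : ℝ) ≤ μ * U'.card) (hε : 0 < ε) (hp : 0 < p) (hp1 : p ≤ 1/4)
    (hζ : ζ ≤ p / 100) (hμ : μ ≤ 1/100)
    (hnb : ∀ v, (nb Z v).card ≤ 2 * (2 * k))
    (hvt : ∀ c, (vt Z c).card ≤ L * (2 * k)) (hO : O.card ≤ k)
    (hbig : (((4 + L) * (2 * k) + k + L : ℕ) : ℝ) < p ^ 2 / 4 * U'.card)
    {t : (C × ℕ) × ℕ} (hc : t.1.1 ∈ D) (hl3 : 3 ≤ t.1.2) (hlL : t.1.2 ≤ L) :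
    ∃ q, grdOk U' U'' D D' S R ls (Sum.inr t) q ∧ Disjoint Z q ∧
      ∀ a ∈ gnodes q, a ∉ grdFix (Sum.inr t : Item V C ⊕ ((C × ℕ) × ℕ)) → a ∉ O := by
  classical
  obtain ⟨⟨c, l⟩, i0⟩ := t
  simp only at hc hl3 hlL
  have hU'ne : U'.Nonempty := by
    rw [← Finset.card_pos]
    by_contra h
    have h0 : U'.card = 0 := by omega
    rw [h0] at hbig
    simp only [CharP.cast_eq_zero, mul_zero] at hbig
    have : (0 : ℝ) ≤ (((4 + L) * (2 * k) + k + L : ℕ) : ℝ) := Nat.cast_nonneg _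
    linarith
  obtain ⟨u0, hu0⟩ := hU'ne
  -- the first vertex
  obtain ⟨K, hK1, hK2, hK3⟩ := grd_base hst hres hU'' hε hp hp1 hζ hμ hc (hst.subU hu0)
    (hst.subU hu0) (Or.inl hu0)
  have hKc : (4 + L) * (2 * k) + k + L < K.card := by
    have h1 := lt_of_lt_of_le hbig hK2
    exact_mod_cast h1
  obtain ⟨y0, hyK, -, -, -, hy1, hy2, hy3⟩ := grd_cand hK3 hnb (hvt c) hO hKc ∅ (by simp)
  have hyU' : y0 ∈ U' := (mem_sdiff.1 (hK1 hyK)).1
  obtain ⟨z, hz1, hz2, hz3, hz4⟩ := grd_extend hst hres hU'' hε hp hp1 hζ hμ hnb hvt hO hbig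
    hc (l := l) (r := 1) le_rfl (by omega) hl3 hlL (fun _ => y0)
    (fun i _ => hst.subU hyU')
    (fun i hi j hj => by omega)
    (fun h => by omega)
  have hz0 : z 0 = y0 := hz1 0 (by norm_num)
  have hzU : ∀ i < l, z i ∈ U' := by
    intro i hi
    by_cases hi2 : 1 ≤ i
    · exact (hz3 i hi2 hi).2
    · have h0 : i = 0 := by omega
      rw [h0, hz0]
      exact hyU'
  refine ⟨cyc l z c, ⟨?_, ⟨hl3, z, hz2, rfl⟩, ⟨?_, ?_⟩, ?_⟩, ?_, ?_⟩
  · intro j hj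
    rcases hz4 j hj with (⟨i, hi1, hi2, rfl⟩ | ⟨i, hi, rfl⟩) | h
    · omega
    · exact hy1
    · exact h.1
  · intro u v huv
    rw [grd_mem_cyc_inl] at huv
    obtain ⟨i, hi, h⟩ := huv
    have h1 := hzU i hi
    have h2 := hzU ((i + 1) % l) (Nat.mod_lt _ (by omega))
    rw [Sym2.eq_iff] at h
    rcases h with ⟨e1, e2⟩ | ⟨e1, e2⟩
    · rw [← e1, ← e2]; exact ⟨h1, h2⟩
    · rw [← e1, ← e2]; exact ⟨h2, h1⟩
  · intro v c' hv
    rw [grd_mem_cyc_inr] at hv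
    obtain ⟨⟨i, hi, h⟩, _⟩ := hv
    rw [← h]
    exact hzU i hi
  · refine ⟨z 0, hzU 0 (by omega), z 1, hzU 1 (by omega), ?_⟩
    rw [grd_mem_cyc_inl]
    exact ⟨0, by omega, by rw [Nat.zero_add, Nat.mod_eq_of_lt (by omega)]⟩
  · rw [Finset.disjoint_right]
    intro j hj
    rcases hz4 j hj with (⟨i, hi1, hi2, rfl⟩ | ⟨i, hi, rfl⟩) | h
    · omega
    · exact hy2
    · exact h.2
  · intro a ha hfix
    have ha' := grd_nodes_cyc ha
    rw [mem_union, mem_image, mem_singleton] at ha'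
    rcases ha' with ⟨i, hi, rfl⟩ | rfl
    · rw [mem_range] at hi
      by_cases hi2 : 1 ≤ i
      · exact (hz3 i hi2 hi).1
      · have h0 : i = 0 := by omega
        rw [h0, hz0]
        exact hy3
    · exfalso
      apply hfix
      simp [grdFix]

end

end Pool.Agent.OBW
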