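import Mathlib
import Pool.Agent.OBW.Defs
import Pool.Agent.OBW.Stmts

set_option autoImplicit false

/-!
LINK part of OBW: sub-statements.

Notation of the paper proof: `X = U \ U'`, `Do = D \ D'`, `m = |U|`, `M = |U'|`.
* GEN  : average greedy for disjoint blocks of items (potential function).
* ONE  : one colour `c ∈ Do`: random decomposition of `vt T c` into `l`-cycles.
* FAM  : tokens `z` give a family of pieces.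
* S3   : all the colours of `Do` (GEN + ONE + FAM + PART).
* XS   : one vertex `x ∈ X`: random bijections `f : cl T x → N₀`, `g : cl T x → N₁`.
* S4   : all the vertices of `X` (GEN + XS + PART).
* O3   : `ls = 3`: the triangles `x, f x c, g x c`.
* PATH : one connecting path.
* O4   : `ls ≥ 4`: connect `f x c` and `g x c` by paths, greedily.
-/

namespace Pool.Agent.OBW

open Finset

/-- GEN: tasks `a ∈ A`; each task gets a block `b a` of items, the blocks are pairwise disjoint, and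
the loads `|(⋃ b a) ∩ Q i|` stay below `B i`. -/
def LkGenStmt : Prop :=
  ∀ (ι α I : Type) [DecidableEq ι] [DecidableEq α] [Fintype I]
    (A : Finset α) (Q : I → Finset ι) (Ok : α → Finset ι → Prop) (k₀ : ℝ) (q : α → I → ℝ) (B : I → ℝ),
    0 < k₀ → (∀ a i, 0 ≤ q a i) →
    (∀ i, k₀ * Real.log (Fintype.card I) + 2 * ∑ a ∈ A, q a i ≤ B i) →
    (∀ a ∈ A, ∀ S : Finset ι, (∀ i, ((S ∩ Q i).card : ℝ) ≤ B i) →
      ∃ (Ω : Type) (_ : Fintype Ω) (_ : Nonempty Ω) (b : Ω → Finset ι),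
        (∀ ω, Ok a (b ω) ∧ Disjoint (b ω) S) ∧
        (∀ ω i, ((b ω ∩ Q i).card : ℝ) ≤ k₀) ∧
        (∀ i, ∑ ω, ((b ω ∩ Q i).card : ℝ) ≤ q a i * Fintype.card Ω)) →
    ∃ b : α → Finset ι, (∀ a ∈ A, Ok a (b a)) ∧
      (∀ a ∈ A, ∀ a' ∈ A, a ≠ a' → Disjoint (b a) (b a')) ∧
      ∀ i, ((A.biUnion b ∩ Q i).card : ℝ) ≤ B i

open scoped Classical in
/-- ONE: classes `P 0, …, P (l-1)` of size `k`, allowed edges `H` with min degree `(3/4+ε)k` into every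
class: a finite family of decompositions of `⋃ P a` into `l`-cycles `z ω u 0, …, z ω u (l-1)`
(`u ∈ P 0`) such that every edge is used by at most the fraction `2l/(εk)` of them. -/
def LkOneStmt : Prop :=
  ∀ (V : Type) [DecidableEq V] (l k : ℕ) (ε : ℝ) (P : ℕ → Finset V) (H : V → V → Prop),
    3 ≤ l → 0 < k → 0 < ε → (∀ u v, H u v → H v u) →
    (∀ a < l, (P a).card = k) → (∀ a < l, ∀ b < l, a ≠ b → Disjoint (P a) (P b)) →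
    (∀ a < l, ∀ u ∈ P a, ∀ b < l, (3/4 + ε) * (k : ℝ) ≤ (((P b).filter (fun v => H u v)).card : ℝ)) →
    ∃ (Ω : Type) (_ : Fintype Ω) (_ : Nonempty Ω) (z : Ω → V → ℕ → V),
      (∀ ω, ∀ u ∈ P 0, z ω u 0 = u) ∧
      (∀ ω, ∀ a < l, ∀ u ∈ P 0, z ω u a ∈ P a) ∧
      (∀ ω, ∀ a < l, Set.InjOn (fun u => z ω u a) (P 0)) ∧
      (∀ ω, ∀ a < l, ∀ u ∈ P 0, H (z ω u a) (z ω u ((a + 1) % l))) ∧
      (∀ v w, ε * k * ((univ.filter (fun ω => ∃ u ∈ P 0, ∃ a < l,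
          s(v, w) = s(z ω u a, z ω u ((a + 1) % l)))).card : ℝ) ≤ 2 * l * Fintype.card Ω)

/-- FAM: the family of pieces given by tokens. -/
def LkFamStmt : Prop :=
  ∀ (V C : Type) [Fintype V] [DecidableEq V] [Fintype C] [DecidableEq C]
    (l : ℕ) (P : ℕ → Finset V) (z : V → ℕ → V) (c : C), 3 ≤ l →
    (∀ a < l, ∀ b < l, a ≠ b → Disjoint (P a) (P b)) →
    (∀ a < l, (P a).card = (P 0).card) →
    (∀ a < l, ∀ u ∈ P 0, z u a ∈ P a) → (∀ a < l, Set.InjOn (fun u => z u a) (P 0)) →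
    ∃ F : Finset (Finset (Item V C)), (∀ q ∈ F, IsPiece l c q) ∧ PD F ∧
      (∀ v c', (Sum.inr (v, c') : Item V C) ∈ un F ↔ c' = c ∧ ∃ a < l, v ∈ P a) ∧
      (∀ e, (Sum.inl e : Item V C) ∈ un F ↔ ∃ u ∈ P 0, ∃ a < l, e = s(z u a, z u ((a + 1) % l))) ∧
      (∀ v, (nb (un F) v).card ≤ 2)

/-- S3: the colours of `D \ D'`. -/
def LkS3Stmt : Prop :=
  ∀ (ε κ : ℝ) (ls : ℕ), 0 < ε → 0 < κ → 3 ≤ ls → ∀ μ : ℝ, 0 < μ → μ ≤ 1 →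
    ∃ p₀ : ℝ, 0 < p₀ ∧ ∀ p : ℝ, 0 < p → p ≤ p₀ → ∃ m₀ : ℕ,
    ∀ (V C : Type) [Fintype V] [DecidableEq V] [Fintype C] [DecidableEq C]
      (U U' U'' : Finset V) (D D' D'' : Finset C) (T : Finset (Item V C)),
      m₀ ≤ U.card → LinkHyp p ε μ ls U U' U'' D D' D'' T →
      ∃ F : Finset (Finset (Item V C)),
        (∀ q ∈ F, q ⊆ T ∧ ∃ c ∈ D \ D', IsPiece ls c q) ∧ PD F ∧
        (∀ c ∈ D \ D', ∀ v ∈ vt T c, (Sum.inr (v, c) : Item V C) ∈ un F) ∧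
        (∀ v c, (Sum.inr (v, c) : Item V C) ∈ un F → v ∈ U' ∧ c ∈ D \ D') ∧
        (∀ u v, (Sum.inl s(u, v) : Item V C) ∈ un F → u ∈ U' ∧ v ∈ U' ∧ ¬ (u ∈ U'' ∧ v ∈ U'')) ∧
        (∀ u ∈ U', ((nb (un F) u).card : ℝ) ≤ 4 * p * U.card) ∧
        (∀ u ∈ U', ∀ x ∈ U \ U', ((nb (un F) u ∩ nb T x).card : ℝ) ≤ κ * (nb T x).card)

open scoped Classical in
/-- XS: one vertex `x`: random bijections `f : A → N₀`, `g : A → N₁`. -/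
def LkXsStmt : Prop :=
  ∀ (V C : Type) [DecidableEq V] [DecidableEq C] (k : ℕ) (A : Finset C) (N₀ N₁ : Finset V)
    (Q : C → V → Prop) (E : V → V → Prop),
    0 < k → A.card = k → N₀.card = k → N₁.card = k →
    (∀ c ∈ A, (19/20 : ℝ) * k ≤ ((N₀.filter (fun u => Q c u)).card : ℝ)) →
    (∀ c ∈ A, (19/20 : ℝ) * k ≤ ((N₁.filter (fun u => Q c u)).card : ℝ)) →
    (∀ u ∈ N₀, (19/20 : ℝ) * k ≤ ((A.filter (fun c => Q c u)).card : ℝ)) →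
    (∀ u ∈ N₁, (19/20 : ℝ) * k ≤ ((A.filter (fun c => Q c u)).card : ℝ)) →
    (∀ u ∈ N₀, (31/50 : ℝ) * k ≤ ((N₁.filter (fun v => E u v)).card : ℝ)) →
    (∀ v ∈ N₁, (31/50 : ℝ) * k ≤ ((N₀.filter (fun u => E u v)).card : ℝ)) →
    ∃ (Ω : Type) (_ : Fintype Ω) (_ : Nonempty Ω) (f g : Ω → C → V),
      (∀ ω, ∀ c ∈ A, f ω c ∈ N₀ ∧ g ω c ∈ N₁ ∧ Q c (f ω c) ∧ Q c (g ω c) ∧ E (f ω c) (g ω c)) ∧
      (∀ ω, Set.InjOn (f ω) A ∧ Set.InjOn (g ω) A) ∧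
      (∀ c ∈ A, ∀ u, (k : ℝ) / 20 * ((univ.filter (fun ω => f ω c = u)).card : ℝ) ≤ Fintype.card Ω) ∧
      (∀ c ∈ A, ∀ u, (k : ℝ) / 20 * ((univ.filter (fun ω => g ω c = u)).card : ℝ) ≤ Fintype.card Ω) ∧
      (∀ u v, (k : ℝ) / 20 * ((univ.filter (fun ω => ∃ c ∈ A, f ω c = u ∧ g ω c = v)).card : ℝ)
        ≤ Fintype.card Ω)

/-- Output of S4: for every `x ∈ U \ U'` the colours `c ∈ cl T x` are matched with pairs
`f x c, g x c` of neighbours; `S` = items used by S3. -/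
structure XMatch {V C : Type} [Fintype V] [DecidableEq V] [Fintype C] [DecidableEq C]
    (U U' U'' : Finset V) (D'' : Finset C) (T S : Finset (Item V C)) (f g : V → C → V) : Prop where
  memf : ∀ x ∈ U \ U', ∀ c ∈ cl T x, f x c ∈ nb T x
  memg : ∀ x ∈ U \ U', ∀ c ∈ cl T x, g x c ∈ nb T x
  cf : ∀ x ∈ U \ U', ∀ c ∈ cl T x, (Sum.inr (f x c, c) : Item V C) ∈ T ∧ ¬ (f x c ∈ U'' ∧ c ∈ D'')
  cg : ∀ x ∈ U \ U', ∀ c ∈ cl T x, (Sum.inr (g x c, c) : Item V C) ∈ T ∧ ¬ (g x c ∈ U'' ∧ c ∈ D'')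
  e : ∀ x ∈ U \ U', ∀ c ∈ cl T x, (Sum.inl s(f x c, g x c) : Item V C) ∈ T ∧
    (Sum.inl s(f x c, g x c) : Item V C) ∉ S ∧ ¬ (f x c ∈ U'' ∧ g x c ∈ U'')
  inj : ∀ x ∈ U \ U', ∀ c ∈ cl T x, ∀ c' ∈ cl T x, c ≠ c' → f x c ≠ f x c' ∧ g x c ≠ g x c'
  fg : ∀ x ∈ U \ U', ∀ c ∈ cl T x, ∀ c' ∈ cl T x, f x c ≠ g x c'
  sur : ∀ x ∈ U \ U', ∀ u ∈ nb T x, ∃ c ∈ cl T x, u = f x c ∨ u = g x c
  cc : ∀ x ∈ U \ U', ∀ y ∈ U \ U', x ≠ y → ∀ c ∈ cl T x, c ∈ cl T y →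
    f x c ≠ f y c ∧ f x c ≠ g y c ∧ g x c ≠ g y c
  ee : ∀ x ∈ U \ U', ∀ y ∈ U \ U', x ≠ y → ∀ c ∈ cl T x, ∀ c' ∈ cl T y,
    s(f x c, g x c) ≠ s(f y c', g y c')

/-- S4 -/
def LkS4Stmt : Prop :=
  ∀ μ : ℝ, 0 < μ → μ ≤ 1 →
    ∃ p₀ : ℝ, 0 < p₀ ∧ ∀ p : ℝ, 0 < p → p ≤ p₀ → ∃ m₀ : ℕ,
    ∀ (V C : Type) [Fintype V] [DecidableEq V] [Fintype C] [DecidableEq C]
      (ε : ℝ) (ls : ℕ) (U U' U'' : Finset V) (D D' D'' : Finset C) (T S : Finset (Item V C)),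
      m₀ ≤ U.card → LinkHyp p ε μ ls U U' U'' D D' D'' T →
      (∀ u ∈ U', ∀ x ∈ U \ U', ((nb S u ∩ nb T x).card : ℝ) ≤ (1/200 : ℝ) * (nb T x).card) →
      ∃ f g : V → C → V, XMatch U U' U'' D'' T S f g

/-- Output of the `X`-part: a family of `ls`-pieces covering all items of `T` at `U \ U'`. -/
structure XOut {V C : Type} [Fintype V] [DecidableEq V] [Fintype C] [DecidableEq C]
    (K p : ℝ) (ls : ℕ) (U U' U'' : Finset V) (D' D'' : Finset C) (T S : Finset (Item V C))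
    (F : Finset (Finset (Item V C))) : Prop where
  pc : ∀ q ∈ F, q ⊆ T ∧ ∃ c ∈ D', IsPiece ls c q
  pd : PD F
  dj : Disjoint (un F) S
  ex : ∀ x ∈ U \ U', ∀ u ∈ nb T x, (Sum.inl s(x, u) : Item V C) ∈ un F
  cx : ∀ x ∈ U \ U', ∀ c ∈ cl T x, (Sum.inr (x, c) : Item V C) ∈ un F
  l1 : ∀ u ∈ U', ((nb (un F) u ∩ U').card : ℝ) ≤ K * p * U.card
  l2 : ∀ u ∈ U', ((cl (un F) u ∩ D').card : ℝ) ≤ K * p * U.card
  l3 : ∀ c ∈ D', ((vt (un F) c ∩ U').card : ℝ) ≤ K * p * U.card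
  n1 : ∀ u ∈ U'', ∀ v ∈ U'', (Sum.inl s(u, v) : Item V C) ∉ un F
  n2 : ∀ u ∈ U'', ∀ c ∈ D'', (Sum.inr (u, c) : Item V C) ∉ un F

/-- O3: triangles. -/
def LkO3Stmt : Prop :=
  ∀ (V C : Type) [Fintype V] [DecidableEq V] [Fintype C] [DecidableEq C]
    (p ε μ : ℝ) (U U' U'' : Finset V) (D D' D'' : Finset C) (T S : Finset (Item V C)) (f g : V → C → V),
    0 < p → LinkHyp p ε μ 3 U U' U'' D D' D'' T →
    (∀ v c, (Sum.inr (v, c) : Item V C) ∈ S → c ∈ D \ D') →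
    (∀ u v, (Sum.inl s(u, v) : Item V C) ∈ S → u ∈ U' ∧ v ∈ U') →
    XMatch U U' U'' D'' T S f g →
    ∃ F : Finset (Finset (Item V C)), XOut 6 p 3 U U' U'' D' D'' T S F

/-- PATH: a path `a, w 0, …, w (r-1), b` through `W`, avoiding `Bd`. -/
def LkPathStmt : Prop :=
  ∀ (V : Type) [DecidableEq V] (W Bd : Finset V) (H : V → V → Prop) [DecidableRel H]
    (r : ℕ) (a b : V), 1 ≤ r → a ≠ b →
    (∀ u ∈ insert a W, Bd.card + r + 3 ≤ (W.filter (fun w => H u w ∧ H w b)).card) →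
    ∃ w : ℕ → V, (∀ i < r, w i ∈ W ∧ w i ∉ Bd ∧ w i ≠ a ∧ w i ≠ b) ∧
      Set.InjOn w (Set.Iio r) ∧ H a (w 0) ∧ (∀ i, i + 1 < r → H (w i) (w (i + 1))) ∧ H (w (r - 1)) b

/-- O4: `ls ≥ 4`, connecting paths. -/
def LkO4Stmt : Prop :=
  ∀ (ls : ℕ), 4 ≤ ls → ∃ K : ℝ, 0 < K ∧ ∀ μ : ℝ, 0 < μ → μ ≤ 1 →
    ∃ p₀ : ℝ, 0 < p₀ ∧ ∀ p : ℝ, 0 < p → p ≤ p₀ → ∃ m₀ : ℕ,
    ∀ (V C : Type) [Fintype V] [DecidableEq V] [Fintype C] [DecidableEq C]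
      (ε : ℝ) (U U' U'' : Finset V) (D D' D'' : Finset C) (T S : Finset (Item V C)) (f g : V → C → V),
      m₀ ≤ U.card → LinkHyp p ε μ ls U U' U'' D D' D'' T →
      (∀ v c, (Sum.inr (v, c) : Item V C) ∈ S → c ∈ D \ D') →
      (∀ u v, (Sum.inl s(u, v) : Item V C) ∈ S → u ∈ U' ∧ v ∈ U') →
      (∀ u ∈ U', ((nb S u).card : ℝ) ≤ 4 * p * U.card) →
      XMatch U U' U'' D'' T S f g →
      ∃ F : Finset (Finset (Item V C)), XOut K p ls U U' U'' D' D'' T S F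

end Pool.Agent.OBW
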