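import Mathlib
import Pool.Agent.OBW.LkStmts

/-!
# LkFam : theorem lk_fam : LkFamStmt

F = (P 0).image (fun u => cyc l (z u) c). The classes P a (a < l) are disjoint, so z u a = z u' a' (a, a' < l, u, u' ∈ P 0)
implies a = a' and then u = u' (injectivity). So z u is injective on Iio l: IsPiece. PD: a common edge
s(z u a, z u (a+1 mod l)) = s(z u' a', z u' (a'+1 mod l)) gives z u a = z u' a' or z u a = z u' (a'+1 mod l), so u = u';
a common pair too. Pairs: inr (v,c') ∈ un F iff c' = c and v = z u a for some u ∈ P 0, a < l; the map u ↦ z u a is a bijection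
P 0 → P a because the cardinalities agree (Finset.surjOn_of_injOn_of_card_le or eq_of_subset_of_card_le on the image).
nb: if v = z u a (unique u, a) then inl s(v,w) ∈ un F implies w ∈ {z u (a+1 mod l), z u (a-1 mod l)}: card ≤ 2; if v is no
z u a then nb is empty.
-/

set_option autoImplicit false
namespace Pool.Agent.OBW
open Finset

theorem lkFam_inl {V C : Type} [Fintype V] [DecidableEq V] [Fintype C] [DecidableEq C]
    (l : ℕ) (z : ℕ → V) (c : C) (e : Sym2 V) :
    (Sum.inl e : Item V C) ∈ cyc l z c ↔ ∃ a < l, e = s(z a, z ((a + 1) % l)) := by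
  unfold cyc
  rw [Finset.mem_union, Finset.mem_image, Finset.mem_image]
  constructor
  · rintro (⟨a, ha, h⟩ | ⟨a, ha, h⟩)
    · exact ⟨a, Finset.mem_range.1 ha, (Sum.inl.inj h).symm⟩
    · exact absurd h (by simp)
  · rintro ⟨a, ha, h⟩
    exact Or.inl ⟨a, Finset.mem_range.2 ha, by rw [h]⟩

theorem lkFam_inr {V C : Type} [Fintype V] [DecidableEq V] [Fintype C] [DecidableEq C]
    (l : ℕ) (z : ℕ → V) (c : C) (v : V) (c' : C) :
    (Sum.inr (v, c') : Item V C) ∈ cyc l z c ↔ c' = c ∧ ∃ a < l, v = z a := by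
  unfold cyc
  rw [Finset.mem_union, Finset.mem_image, Finset.mem_image]
  constructor
  · rintro (⟨a, ha, h⟩ | ⟨a, ha, h⟩)
    · exact absurd h (by simp)
    · have h1 := Sum.inr.inj h
      exact ⟨(congrArg Prod.snd h1).symm, a, Finset.mem_range.1 ha, (congrArg Prod.fst h1).symm⟩
  · rintro ⟨h, a, ha, h1⟩
    exact Or.inr ⟨a, Finset.mem_range.2 ha, by rw [h, h1]⟩

theorem lk_fam : LkFamStmt := by
  intro V C _ _ _ _ l P z c hl hdis hcard hmem hinj
  have hl0 : 0 < l := by omega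
  have hz : ∀ u ∈ P 0, ∀ u' ∈ P 0, ∀ a < l, ∀ a' < l, z u a = z u' a' → a = a' ∧ u = u' := by
    intro u hu u' hu' a ha a' ha' h
    have h1 : a = a' := by
      by_contra hne
      exact Finset.disjoint_left.1 (hdis a ha a' ha' hne) (hmem a ha u hu)
        (h ▸ hmem a' ha' u' hu')
    subst h1
    exact ⟨rfl, hinj a ha hu hu' h⟩
  have hmod : ∀ a, (a + 1) % l < l := fun a => Nat.mod_lt _ hl0
  have hun : ∀ x : Item V C, x ∈ un ((P 0).image (fun u => cyc l (z u) c)) ↔
      ∃ u ∈ P 0, x ∈ cyc l (z u) c := by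
    intro x
    unfold un
    rw [Finset.mem_biUnion]
    constructor
    · rintro ⟨q, hq, hx⟩
      obtain ⟨u, hu, rfl⟩ := Finset.mem_image.1 hq
      exact ⟨u, hu, hx⟩
    · rintro ⟨u, hu, hx⟩
      exact ⟨_, Finset.mem_image_of_mem _ hu, hx⟩
  have hinl : ∀ e, (Sum.inl e : Item V C) ∈ un ((P 0).image (fun u => cyc l (z u) c)) ↔
      ∃ u ∈ P 0, ∃ a < l, e = s(z u a, z u ((a + 1) % l)) := by
    intro e
    rw [hun]
    exact exists_congr fun u => and_congr Iff.rfl (lkFam_inl l (z u) c e)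
  refine ⟨(P 0).image (fun u => cyc l (z u) c), ?_, ?_, ?_, hinl, ?_⟩
  · intro q hq
    obtain ⟨u, hu, rfl⟩ := Finset.mem_image.1 hq
    refine ⟨hl, z u, ?_, rfl⟩
    intro a ha b hb hab
    exact (hz u hu u hu a ha b hb hab).1
  · intro p hp q hq hpq
    obtain ⟨u, hu, rfl⟩ := Finset.mem_image.1 hp
    obtain ⟨u', hu', rfl⟩ := Finset.mem_image.1 hq
    rw [Finset.disjoint_left]
    intro x hx hx'
    have huu : u = u' := by
      rcases x with e | ⟨v, c'⟩
      · obtain ⟨a, ha, h1⟩ := (lkFam_inl l (z u) c e).1 hx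
        obtain ⟨a', ha', h2⟩ := (lkFam_inl l (z u') c e).1 hx'
        rw [h1, Sym2.eq_iff] at h2
        rcases h2 with ⟨h2, _⟩ | ⟨h2, _⟩
        · exact (hz u hu u' hu' a ha a' ha' h2).2
        · exact (hz u hu u' hu' a ha _ (hmod a') h2).2
      · obtain ⟨_, a, ha, h1⟩ := (lkFam_inr l (z u) c v c').1 hx
        obtain ⟨_, a', ha', h2⟩ := (lkFam_inr l (z u') c v c').1 hx'
        exact (hz u hu u' hu' a ha a' ha' (h1.symm.trans h2)).2
    exact hpq (by rw [huu])
  · intro v c'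
    rw [hun]
    constructor
    · rintro ⟨u, hu, hx⟩
      obtain ⟨h1, a, ha, h2⟩ := (lkFam_inr l (z u) c v c').1 hx
      exact ⟨h1, a, ha, h2 ▸ hmem a ha u hu⟩
    · rintro ⟨h1, a, ha, hv⟩
      have hs := Finset.surjOn_of_injOn_of_card_le (fun u => z u a) (s := P 0) (t := P a)
        (fun u hu => hmem a ha u hu) (hinj a ha) (hcard a ha).le
      obtain ⟨u, hu, h2⟩ := hs hv
      exact ⟨u, hu, (lkFam_inr l (z u) c v c').2 ⟨h1, a, ha, h2.symm⟩⟩
  · intro v
    by_cases hv : ∃ u₀ ∈ P 0, ∃ a₀ < l, v = z u₀ a₀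
    · obtain ⟨u₀, hu₀, a₀, ha₀, hv⟩ := hv
      refine (Finset.card_le_card (t := {z u₀ ((a₀ + 1) % l), z u₀ ((a₀ + (l - 1)) % l)}) ?_).trans
        Finset.card_le_two
      intro w hw
      have hw' := (Finset.mem_filter.1 hw).2
      obtain ⟨u, hu, a, ha, h1⟩ := (hinl _).1 hw'
      rw [Finset.mem_insert, Finset.mem_singleton]
      rw [Sym2.eq_iff] at h1
      rcases h1 with ⟨h1, h2⟩ | ⟨h1, h2⟩
      · obtain ⟨h3, h4⟩ := hz u₀ hu₀ u hu a₀ ha₀ a ha (hv.symm.trans h1)
        left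
        rw [h2, h3, h4]
      · obtain ⟨h3, h4⟩ := hz u₀ hu₀ u hu a₀ ha₀ _ (hmod a) (hv.symm.trans h1)
        right
        have h5 : (a₀ + (l - 1)) % l = a := by
          rcases Nat.lt_or_ge (a + 1) l with h6 | h6
          · rw [Nat.mod_eq_of_lt h6] at h3
            rw [h3, show a + 1 + (l - 1) = a + l by omega, Nat.add_mod_right, Nat.mod_eq_of_lt ha]
          · have h7 : a + 1 = l := by omega
            rw [h7, Nat.mod_self] at h3
            rw [h3, zero_add, Nat.mod_eq_of_lt (by omega)]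
            omega
        rw [h2, h5, h4]
    · have h0 : nb (un ((P 0).image (fun u => cyc l (z u) c))) v = ∅ := by
        rw [Finset.eq_empty_iff_forall_notMem]
        intro w hw
        have hw' := (Finset.mem_filter.1 hw).2
        obtain ⟨u, hu, a, ha, h1⟩ := (hinl _).1 hw'
        rw [Sym2.eq_iff] at h1
        rcases h1 with ⟨h1, _⟩ | ⟨h1, _⟩
        · exact hv ⟨u, hu, a, ha, h1⟩
        · exact hv ⟨u, hu, _, hmod a, h1⟩
      rw [h0, Finset.card_empty]
      exact Nat.zero_le 2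

end Pool.Agent.OBW
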