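import Mathlib
import Pool.Agent.OBW.LkStmts

/-!
# LkGen : average greedy for disjoint blocks (potential function)
-/

set_option autoImplicit false
namespace Pool.Agent.OBW
open Finset

lemma lkgen_exp_le (t : ℝ) (h0 : 0 ≤ t) (h1 : t ≤ 1) : Real.exp t ≤ 1 + 2 * t := by
  have hc := convexOn_exp.2 (Set.mem_univ (0 : ℝ)) (Set.mem_univ (1 : ℝ))
    (show (0 : ℝ) ≤ 1 - t by linarith) h0 (by ring)
  simp only [smul_eq_mul, mul_zero, mul_one, zero_add, Real.exp_zero] at hc
  have he : Real.exp 1 ≤ 3 := by
    have := Real.exp_one_lt_d9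
    linarith
  nlinarith

theorem lk_gen : LkGenStmt := by
  intro ι α I _ _ _ A Q Ok k₀ q B hk0 hq hB hstep
  classical
  -- potential
  have key : ∀ A' : Finset α, A' ⊆ A → ∃ b : α → Finset ι, (∀ a ∈ A', Ok a (b a)) ∧
      (∀ a ∈ A', ∀ a' ∈ A', a ≠ a' → Disjoint (b a) (b a')) ∧
      ∑ i, Real.exp (((A'.biUnion b ∩ Q i).card : ℝ) / k₀ - 2 / k₀ * ∑ a ∈ A', q a i)
        ≤ (Fintype.card I : ℝ) := by
    intro A'
    induction A' using Finset.induction_on with
    | empty =>
      intro _
      refine ⟨fun _ => ∅, by simp, by simp, ?_⟩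
      simp
    | insert a A' ha ih =>
      intro hsub
      have haA : a ∈ A := hsub (Finset.mem_insert_self a A')
      have hA'A : A' ⊆ A := fun x hx => hsub (Finset.mem_insert_of_mem hx)
      obtain ⟨b, hb1, hb2, hb3⟩ := ih hA'A
      set S := A'.biUnion b with hS
      have hload : ∀ i, ((S ∩ Q i).card : ℝ) ≤ B i := by
        intro i
        have h1 : Real.exp (((S ∩ Q i).card : ℝ) / k₀ - 2 / k₀ * ∑ a ∈ A', q a i)
            ≤ (Fintype.card I : ℝ) := by
          refine le_trans ?_ hb3
          exact Finset.single_le_sum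
            (f := fun i => Real.exp (((S ∩ Q i).card : ℝ) / k₀ - 2 / k₀ * ∑ a ∈ A', q a i))
            (fun j _ => (Real.exp_pos _).le) (Finset.mem_univ i)
        have hcard : (0 : ℝ) < (Fintype.card I : ℝ) := lt_of_lt_of_le (Real.exp_pos _) h1
        have h2 : ((S ∩ Q i).card : ℝ) / k₀ - 2 / k₀ * ∑ a ∈ A', q a i
            ≤ Real.log (Fintype.card I) := (Real.le_log_iff_exp_le hcard).2 h1
        have h3 : ((S ∩ Q i).card : ℝ) ≤ k₀ * Real.log (Fintype.card I) + 2 * ∑ a ∈ A', q a i := by
          have h4 : ((S ∩ Q i).card : ℝ) / k₀ ≤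
              Real.log (Fintype.card I) + 2 / k₀ * ∑ a ∈ A', q a i := by linarith
          rw [div_le_iff₀ hk0] at h4
          have h5 : (Real.log (Fintype.card I) + 2 / k₀ * ∑ a ∈ A', q a i) * k₀
              = k₀ * Real.log (Fintype.card I) + 2 * ∑ a ∈ A', q a i := by
            field_simp
          linarith
        have h6 : ∑ a ∈ A', q a i ≤ ∑ a ∈ A, q a i :=
          Finset.sum_le_sum_of_subset_of_nonneg hA'A (fun x _ _ => hq x i)
        have := hB i
        linarith
      obtain ⟨Ω, hΩf, hΩn, b', hb'1, hb'2, hb'3⟩ := hstep a haA S hload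
      -- choose ω
      set bb : Ω → α → Finset ι := fun ω => Function.update b a (b' ω) with hbb
      have hbi : ∀ ω, (insert a A').biUnion (bb ω) = b' ω ∪ S := by
        intro ω
        rw [Finset.biUnion_insert]
        congr 1
        · simp [hbb]
        · rw [hS]
          apply Finset.biUnion_congr rfl
          intro x hx
          have hne : x ≠ a := fun h => ha (h ▸ hx)
          simp [hbb, hne]
      have hpt : ∀ i, ∑ ω, Real.exp ((((insert a A').biUnion (bb ω) ∩ Q i).card : ℝ) / k₀ -
          2 / k₀ * ∑ a ∈ insert a A', q a i) ≤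
          (Fintype.card Ω : ℝ) * Real.exp (((S ∩ Q i).card : ℝ) / k₀ - 2 / k₀ * ∑ a ∈ A', q a i) := by
        intro i
        set E0 := Real.exp (((S ∩ Q i).card : ℝ) / k₀ - 2 / k₀ * ∑ a ∈ A', q a i) with hE0
        have hE0pos : 0 < E0 := Real.exp_pos _
        have h1 : ∀ ω, Real.exp ((((insert a A').biUnion (bb ω) ∩ Q i).card : ℝ) / k₀ -
            2 / k₀ * ∑ a ∈ insert a A', q a i) ≤
            E0 * Real.exp (-(2 / k₀ * q a i)) * (1 + 2 * (((b' ω ∩ Q i).card : ℝ) / k₀)) := by
          intro ω
          rw [hbi ω, Finset.sum_insert ha]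
          have hc : (((b' ω ∪ S) ∩ Q i).card : ℝ) ≤ ((b' ω ∩ Q i).card : ℝ) + ((S ∩ Q i).card : ℝ) := by
            rw [Finset.union_inter_distrib_right]
            exact_mod_cast Finset.card_union_le _ _
          have hx0 : 0 ≤ ((b' ω ∩ Q i).card : ℝ) / k₀ := by positivity
          have hx1 : ((b' ω ∩ Q i).card : ℝ) / k₀ ≤ 1 := by
            rw [div_le_one hk0]; exact hb'2 ω i
          have he := lkgen_exp_le _ hx0 hx1
          calc Real.exp ((((b' ω ∪ S) ∩ Q i).card : ℝ) / k₀ - 2 / k₀ * (q a i + ∑ a ∈ A', q a i))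
              ≤ Real.exp ((((S ∩ Q i).card : ℝ) / k₀ - 2 / k₀ * ∑ a ∈ A', q a i) + (-(2 / k₀ * q a i))
                  + ((b' ω ∩ Q i).card : ℝ) / k₀) := by
                apply Real.exp_le_exp.2
                have : (((b' ω ∪ S) ∩ Q i).card : ℝ) / k₀ ≤
                    (((b' ω ∩ Q i).card : ℝ) + ((S ∩ Q i).card : ℝ)) / k₀ :=
                  div_le_div_of_nonneg_right hc hk0.le
                rw [add_div] at this
                linarith
            _ = E0 * Real.exp (-(2 / k₀ * q a i)) * Real.exp (((b' ω ∩ Q i).card : ℝ) / k₀) := by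
                rw [Real.exp_add, Real.exp_add]
            _ ≤ E0 * Real.exp (-(2 / k₀ * q a i)) * (1 + 2 * (((b' ω ∩ Q i).card : ℝ) / k₀)) := by
                apply mul_le_mul_of_nonneg_left he
                positivity
        calc ∑ ω, Real.exp ((((insert a A').biUnion (bb ω) ∩ Q i).card : ℝ) / k₀ -
            2 / k₀ * ∑ a ∈ insert a A', q a i)
            ≤ ∑ ω, E0 * Real.exp (-(2 / k₀ * q a i)) * (1 + 2 * (((b' ω ∩ Q i).card : ℝ) / k₀)) :=
              Finset.sum_le_sum (fun ω _ => h1 ω)
          _ = E0 * Real.exp (-(2 / k₀ * q a i)) *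
              ((Fintype.card Ω : ℝ) + 2 / k₀ * ∑ ω, ((b' ω ∩ Q i).card : ℝ)) := by
              rw [← Finset.mul_sum, Finset.sum_add_distrib, Finset.mul_sum]
              congr 2
              · simp
              · apply Finset.sum_congr rfl
                intro ω _
                ring
          _ ≤ E0 * Real.exp (-(2 / k₀ * q a i)) *
              ((Fintype.card Ω : ℝ) * Real.exp (2 / k₀ * q a i)) := by
              apply mul_le_mul_of_nonneg_left
              · have h2 := hb'3 i
                have h3 : 2 / k₀ * ∑ ω, ((b' ω ∩ Q i).card : ℝ) ≤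
                    2 / k₀ * (q a i * Fintype.card Ω) :=
                  mul_le_mul_of_nonneg_left h2 (by positivity)
                have h4 : 2 / k₀ * q a i + 1 ≤ Real.exp (2 / k₀ * q a i) := Real.add_one_le_exp _
                have h5 : (0 : ℝ) ≤ (Fintype.card Ω : ℝ) := by positivity
                nlinarith
              · positivity
          _ = (Fintype.card Ω : ℝ) * E0 := by
              have : Real.exp (-(2 / k₀ * q a i)) * Real.exp (2 / k₀ * q a i) = 1 := by
                rw [← Real.exp_add]; simp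
              calc E0 * Real.exp (-(2 / k₀ * q a i)) *
                  ((Fintype.card Ω : ℝ) * Real.exp (2 / k₀ * q a i))
                  = (Fintype.card Ω : ℝ) * E0 *
                    (Real.exp (-(2 / k₀ * q a i)) * Real.exp (2 / k₀ * q a i)) := by ring
                _ = (Fintype.card Ω : ℝ) * E0 := by rw [this, mul_one]
      have htot : ∑ ω, ∑ i, Real.exp ((((insert a A').biUnion (bb ω) ∩ Q i).card : ℝ) / k₀ -
          2 / k₀ * ∑ a ∈ insert a A', q a i) ≤ ∑ _ω : Ω, (Fintype.card I : ℝ) := by
        rw [Finset.sum_comm]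
        calc ∑ i, ∑ ω, Real.exp ((((insert a A').biUnion (bb ω) ∩ Q i).card : ℝ) / k₀ -
            2 / k₀ * ∑ a ∈ insert a A', q a i)
            ≤ ∑ i, (Fintype.card Ω : ℝ) *
              Real.exp (((S ∩ Q i).card : ℝ) / k₀ - 2 / k₀ * ∑ a ∈ A', q a i) :=
              Finset.sum_le_sum (fun i _ => hpt i)
          _ = (Fintype.card Ω : ℝ) *
              ∑ i, Real.exp (((S ∩ Q i).card : ℝ) / k₀ - 2 / k₀ * ∑ a ∈ A', q a i) := by
              rw [Finset.mul_sum]
          _ ≤ (Fintype.card Ω : ℝ) * (Fintype.card I : ℝ) :=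
              mul_le_mul_of_nonneg_left hb3 (by positivity)
          _ = ∑ _ω : Ω, (Fintype.card I : ℝ) := by simp
      obtain ⟨ω, _, hω⟩ := Finset.exists_le_of_sum_le (Finset.univ_nonempty (α := Ω)) htot
      refine ⟨bb ω, ?_, ?_, hω⟩
      · intro x hx
        by_cases hxa : x = a
        · subst hxa
          simpa [hbb] using (hb'1 ω).1
        · have hx' : x ∈ A' := by
            rcases Finset.mem_insert.1 hx with h | h
            · exact absurd h hxa
            · exact h
          simpa [hbb, hxa] using hb1 x hx'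
      · intro x hx y hy hxy
        by_cases hxa : x = a
        · subst hxa
          have hya : y ≠ x := fun h => hxy h.symm
          have hy' : y ∈ A' := by
            rcases Finset.mem_insert.1 hy with h | h
            · exact absurd h hya
            · exact h
          have hd := (hb'1 ω).2
          have : Disjoint (b' ω) (b y) := by
            apply Finset.disjoint_of_subset_right _ hd
            exact Finset.subset_biUnion_of_mem b hy'
          simpa [hbb, hya] using this
        · have hx' : x ∈ A' := by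
            rcases Finset.mem_insert.1 hx with h | h
            · exact absurd h hxa
            · exact h
          by_cases hya : y = a
          · subst hya
            have hd := (hb'1 ω).2
            have : Disjoint (b x) (b' ω) := by
              apply Disjoint.symm
              apply Finset.disjoint_of_subset_right _ hd
              exact Finset.subset_biUnion_of_mem b hx'
            simpa [hbb, hxa] using this
          · have hy' : y ∈ A' := by
              rcases Finset.mem_insert.1 hy with h | h
              · exact absurd h hya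
              · exact h
            simpa [hbb, hxa, hya] using hb2 x hx' y hy' hxy
  obtain ⟨b, hb1, hb2, hb3⟩ := key A (Finset.Subset.refl A)
  refine ⟨b, hb1, hb2, ?_⟩
  intro i
  have h1 : Real.exp (((A.biUnion b ∩ Q i).card : ℝ) / k₀ - 2 / k₀ * ∑ a ∈ A, q a i)
      ≤ (Fintype.card I : ℝ) := by
    refine le_trans ?_ hb3
    exact Finset.single_le_sum
      (f := fun i => Real.exp (((A.biUnion b ∩ Q i).card : ℝ) / k₀ - 2 / k₀ * ∑ a ∈ A, q a i))
      (fun j _ => (Real.exp_pos _).le) (Finset.mem_univ i)
  have hcard : (0 : ℝ) < (Fintype.card I : ℝ) := lt_of_lt_of_le (Real.exp_pos _) h1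
  have h2 : ((A.biUnion b ∩ Q i).card : ℝ) / k₀ - 2 / k₀ * ∑ a ∈ A, q a i
      ≤ Real.log (Fintype.card I) := (Real.le_log_iff_exp_le hcard).2 h1
  have h4 : ((A.biUnion b ∩ Q i).card : ℝ) / k₀ ≤
      Real.log (Fintype.card I) + 2 / k₀ * ∑ a ∈ A, q a i := by linarith
  rw [div_le_iff₀ hk0] at h4
  have h5 : (Real.log (Fintype.card I) + 2 / k₀ * ∑ a ∈ A, q a i) * k₀
      = k₀ * Real.log (Fintype.card I) + 2 * ∑ a ∈ A, q a i := by
    field_simp
  have := hB i
  linarith

end Pool.Agent.OBW
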