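import Mathlib
import Pool.Agent.OBW.LkStmts

/-!
# LkMain : theorem lk_main (h3 : LkS3Stmt) (h4 : LkS4Stmt) (ho3 : LkO3Stmt) (ho4 : LkO4Stmt) : LinkStmt
-/

set_option autoImplicit false
namespace Pool.Agent.OBW
open Finset

/-- final assembly for fixed data -/
lemma lk_asm {V C : Type} [Fintype V] [DecidableEq V] [Fintype C] [DecidableEq C]
    (p ε μ K : ℝ) (ls : ℕ) (U U' U'' : Finset V) (D D' D'' : Finset C) (T : Finset (Item V C))
    (hp : 0 < p) (_hK : 0 < K)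
    (hT : LinkHyp p ε μ ls U U' U'' D D' D'' T)
    (F3 F4 : Finset (Finset (Item V C)))
    (a1 : ∀ q ∈ F3, q ⊆ T ∧ ∃ c ∈ D \ D', IsPiece ls c q) (a2 : PD F3)
    (a3 : ∀ c ∈ D \ D', ∀ v ∈ vt T c, (Sum.inr (v, c) : Item V C) ∈ un F3)
    (a4 : ∀ v c, (Sum.inr (v, c) : Item V C) ∈ un F3 → v ∈ U' ∧ c ∈ D \ D')
    (a5 : ∀ u v, (Sum.inl s(u, v) : Item V C) ∈ un F3 → u ∈ U' ∧ v ∈ U' ∧ ¬ (u ∈ U'' ∧ v ∈ U''))
    (a6 : ∀ u ∈ U', ((nb (un F3) u).card : ℝ) ≤ 4 * p * U.card)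
    (b : XOut K p ls U U' U'' D' D'' T (un F3) F4) :
    ∃ F : Finset (Finset (Item V C)),
        (∀ q ∈ F, q ⊆ T ∧ ∃ c ∈ D, IsPiece ls c q) ∧ PD F ∧
        Inside U' D' (T \ un F) ∧
        (∀ u ∈ U', ((nb (un F) u ∩ U').card : ℝ) ≤ (K + 4) * p * U.card) ∧
        (∀ u ∈ U', ((cl (un F) u ∩ D').card : ℝ) ≤ (K + 4) * p * U.card) ∧
        (∀ c ∈ D', ((vt (un F) c ∩ U').card : ℝ) ≤ (K + 4) * p * U.card) ∧
        (∀ u ∈ U'', ∀ v ∈ U'', (Sum.inl s(u, v) : Item V C) ∉ un F) ∧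
        (∀ u ∈ U'', ∀ c ∈ D'', (Sum.inr (u, c) : Item V C) ∉ un F) := by
  have hun : un (F3 ∪ F4) = un F3 ∪ un F4 := by
    unfold un
    rw [Finset.union_biUnion]
  have hm : (0 : ℝ) ≤ p * U.card := by positivity
  refine ⟨F3 ∪ F4, ?_, ?_, ?_, ?_, ?_, ?_, ?_, ?_⟩
  · intro q hq
    rcases Finset.mem_union.1 hq with h | h
    · obtain ⟨h1, c, hc, h2⟩ := a1 q h
      exact ⟨h1, c, (Finset.mem_sdiff.1 hc).1, h2⟩
    · obtain ⟨h1, c, hc, h2⟩ := b.pc q h
      exact ⟨h1, c, hT.subD hc, h2⟩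
  · intro x hx y hy hxy
    have hd := b.dj
    rcases Finset.mem_union.1 hx with h | h <;> rcases Finset.mem_union.1 hy with h' | h'
    · exact a2 x h y h' hxy
    · have hx1 : x ⊆ un F3 := Finset.subset_biUnion_of_mem id h
      have hy1 : y ⊆ un F4 := Finset.subset_biUnion_of_mem id h'
      exact (Finset.disjoint_of_subset_left hy1 (Finset.disjoint_of_subset_right hx1 hd)).symm
    · have hx1 : x ⊆ un F4 := Finset.subset_biUnion_of_mem id h
      have hy1 : y ⊆ un F3 := Finset.subset_biUnion_of_mem id h'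
      exact Finset.disjoint_of_subset_left hx1 (Finset.disjoint_of_subset_right hy1 hd)
    · exact b.pd x h y h' hxy
  · rw [hun]
    constructor
    · intro u v huv
      obtain ⟨hT1, hn⟩ := Finset.mem_sdiff.1 huv
      obtain ⟨hne, hu, hv⟩ := hT.ins.1 u v hT1
      rw [Finset.mem_union, not_or] at hn
      have key : ∀ u v : V, (Sum.inl s(u, v) : Item V C) ∈ T → (Sum.inl s(u, v) : Item V C) ∉ un F4 →
          u ∈ U → u ∈ U' := by
        intro u v h1 h2 h3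
        by_contra h4
        apply h2
        exact b.ex u (Finset.mem_sdiff.2 ⟨h3, h4⟩) v (by
          unfold nb
          simpa using h1)
      refine ⟨hne, key u v hT1 hn.2 hu, ?_⟩
      apply key v u (by rw [Sym2.eq_swap]; exact hT1) (by rw [Sym2.eq_swap]; exact hn.2) hv
    · intro v c hvc
      obtain ⟨hT1, hn⟩ := Finset.mem_sdiff.1 hvc
      obtain ⟨hv, hc⟩ := hT.ins.2 v c hT1
      rw [Finset.mem_union, not_or] at hn
      have hv' : v ∈ U' := by
        by_contra h4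
        apply hn.2
        exact b.cx v (Finset.mem_sdiff.2 ⟨hv, h4⟩) c (by
          unfold cl
          simpa using hT1)
      refine ⟨hv', ?_⟩
      by_contra h4
      apply hn.1
      exact a3 c (Finset.mem_sdiff.2 ⟨hc, h4⟩) v (by
        unfold vt
        simpa using hT1)
  · intro u hu
    have h1 : nb (un (F3 ∪ F4)) u ∩ U' ⊆ nb (un F3) u ∪ (nb (un F4) u ∩ U') := by
      intro v hv
      obtain ⟨hv1, hv2⟩ := Finset.mem_inter.1 hv
      rw [hun] at hv1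
      simp only [nb, Finset.mem_filter, Finset.mem_univ, true_and, Finset.mem_union,
        Finset.mem_inter] at hv1 ⊢
      tauto
    have h2 := Finset.card_le_card h1
    have h3 := Finset.card_union_le (nb (un F3) u) (nb (un F4) u ∩ U')
    have h4 := a6 u hu
    have h5 := b.l1 u hu
    have h6 : ((nb (un (F3 ∪ F4)) u ∩ U').card : ℝ) ≤
        ((nb (un F3) u).card : ℝ) + ((nb (un F4) u ∩ U').card : ℝ) := by
      exact_mod_cast h2.trans h3
    nlinarith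
  · intro u hu
    have h1 : cl (un (F3 ∪ F4)) u ∩ D' ⊆ cl (un F4) u ∩ D' := by
      intro c hc
      obtain ⟨hc1, hc2⟩ := Finset.mem_inter.1 hc
      rw [hun] at hc1
      simp only [cl, Finset.mem_filter, Finset.mem_univ, true_and, Finset.mem_union,
        Finset.mem_inter] at hc1 ⊢
      refine ⟨?_, hc2⟩
      rcases hc1 with h | h
      · exact absurd hc2 (Finset.mem_sdiff.1 (a4 u c h).2).2
      · exact h
    have h2 : ((cl (un (F3 ∪ F4)) u ∩ D').card : ℝ) ≤ ((cl (un F4) u ∩ D').card : ℝ) := by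
      exact_mod_cast Finset.card_le_card h1
    have h5 := b.l2 u hu
    nlinarith
  · intro c hc
    have h1 : vt (un (F3 ∪ F4)) c ∩ U' ⊆ vt (un F4) c ∩ U' := by
      intro v hv
      obtain ⟨hv1, hv2⟩ := Finset.mem_inter.1 hv
      rw [hun] at hv1
      simp only [vt, Finset.mem_filter, Finset.mem_univ, true_and, Finset.mem_union,
        Finset.mem_inter] at hv1 ⊢
      refine ⟨?_, hv2⟩
      rcases hv1 with h | h
      · exact absurd hc (Finset.mem_sdiff.1 (a4 v c h).2).2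
      · exact h
    have h2 : ((vt (un (F3 ∪ F4)) c ∩ U').card : ℝ) ≤ ((vt (un F4) c ∩ U').card : ℝ) := by
      exact_mod_cast Finset.card_le_card h1
    have h5 := b.l3 c hc
    nlinarith
  · intro u hu v hv h
    rw [hun, Finset.mem_union] at h
    rcases h with h | h
    · exact (a5 u v h).2.2 ⟨hu, hv⟩
    · exact b.n1 u hu v hv h
  · intro u hu c hc h
    rw [hun, Finset.mem_union] at h
    rcases h with h | h
    · exact (Finset.mem_sdiff.1 (a4 u c h).2).2 (hT.subD'' hc)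
    · exact b.n2 u hu c hc h

theorem lk_main (h3 : LkS3Stmt) (h4 : LkS4Stmt) (ho3 : LkO3Stmt) (ho4 : LkO4Stmt) : LinkStmt := by
  intro ε ls hε hls
  rcases Nat.eq_or_lt_of_le hls with hl | hl
  · -- ls = 3
    subst hl
    refine ⟨6 + 4, by norm_num, ?_⟩
    intro μ hμ hμ1
    obtain ⟨p1, hp1, H3⟩ := h3 ε (1/200) 3 hε (by norm_num) le_rfl μ hμ hμ1
    obtain ⟨p2, hp2, H4⟩ := h4 μ hμ hμ1
    refine ⟨min p1 p2, lt_min hp1 hp2, ?_⟩
    intro p hp hpp
    obtain ⟨m1, H3⟩ := H3 p hp (hpp.trans (min_le_left _ _))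
    obtain ⟨m2, H4⟩ := H4 p hp (hpp.trans (min_le_right _ _))
    refine ⟨max m1 m2, ?_⟩
    intro V C _ _ _ _ U U' U'' D D' D'' T hm hT
    obtain ⟨F3, a1, a2, a3, a4, a5, a6, a7⟩ :=
      H3 V C U U' U'' D D' D'' T ((le_max_left _ _).trans hm) hT
    obtain ⟨f, g, hX⟩ := H4 V C ε 3 U U' U'' D D' D'' T (un F3) ((le_max_right _ _).trans hm) hT a7
    obtain ⟨F4, hF4⟩ := ho3 V C p ε μ U U' U'' D D' D'' T (un F3) f g hp hT
      (fun v c h => (a4 v c h).2) (fun u v h => ⟨(a5 u v h).1, (a5 u v h).2.1⟩) hX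
    exact lk_asm p ε μ 6 3 U U' U'' D D' D'' T hp (by norm_num) hT F3 F4 a1 a2 a3 a4 a5 a6 hF4
  · -- ls ≥ 4
    obtain ⟨K, hK, HO⟩ := ho4 ls hl
    refine ⟨K + 4, by linarith, ?_⟩
    intro μ hμ hμ1
    obtain ⟨p1, hp1, H3⟩ := h3 ε (1/200) ls hε (by norm_num) hls μ hμ hμ1
    obtain ⟨p2, hp2, H4⟩ := h4 μ hμ hμ1
    obtain ⟨p3, hp3, HO⟩ := HO μ hμ hμ1
    refine ⟨min p1 (min p2 p3), lt_min hp1 (lt_min hp2 hp3), ?_⟩
    intro p hp hpp
    obtain ⟨m1, H3⟩ := H3 p hp (hpp.trans (min_le_left _ _))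
    obtain ⟨m2, H4⟩ := H4 p hp (hpp.trans ((min_le_right _ _).trans (min_le_left _ _)))
    obtain ⟨m3, HO⟩ := HO p hp (hpp.trans ((min_le_right _ _).trans (min_le_right _ _)))
    refine ⟨max m1 (max m2 m3), ?_⟩
    intro V C _ _ _ _ U U' U'' D D' D'' T hm hT
    have hm1 : m1 ≤ U.card := (le_max_left _ _).trans hm
    have hm2 : m2 ≤ U.card := ((le_max_left _ _).trans (le_max_right _ _)).trans hm
    have hm3 : m3 ≤ U.card := ((le_max_right _ _).trans (le_max_right _ _)).trans hm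
    obtain ⟨F3, a1, a2, a3, a4, a5, a6, a7⟩ := H3 V C U U' U'' D D' D'' T hm1 hT
    obtain ⟨f, g, hX⟩ := H4 V C ε ls U U' U'' D D' D'' T (un F3) hm2 hT a7
    obtain ⟨F4, hF4⟩ := HO V C ε U U' U'' D D' D'' T (un F3) f g hm3 hT
      (fun v c h => (a4 v c h).2) (fun u v h => ⟨(a5 u v h).1, (a5 u v h).2.1⟩) a6 hX
    exact lk_asm p ε μ K ls U U' U'' D D' D'' T hp hK hT F3 F4 a1 a2 a3 a4 a5 a6 hF4

end Pool.Agent.OBW
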