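import Mathlib
import Pool.Agent.OBW.LkStmts

/-!
# LkO3 : theorem lk_o3 : LkO3Stmt
-/

set_option autoImplicit false
namespace Pool.Agent.OBW
open Finset

lemma lko3_inl {V C : Type} [Fintype V] [DecidableEq V] [Fintype C] [DecidableEq C]
    (z : ℕ → V) (c : C) (e : Sym2 V) :
    (Sum.inl e : Item V C) ∈ cyc 3 z c ↔ e = s(z 0, z 1) ∨ e = s(z 1, z 2) ∨ e = s(z 2, z 0) := by
  unfold cyc
  simp only [mem_union, mem_image, mem_range, reduceCtorEq, and_false, exists_false, or_false,
    Sum.inl.injEq]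
  constructor
  · rintro ⟨i, hi, rfl⟩
    interval_cases i
    · left; rfl
    · right; left; rfl
    · right; right; rfl
  · rintro (h | h | h)
    · exact ⟨0, by norm_num, h.symm⟩
    · exact ⟨1, by norm_num, h.symm⟩
    · exact ⟨2, by norm_num, h.symm⟩

lemma lko3_inr {V C : Type} [Fintype V] [DecidableEq V] [Fintype C] [DecidableEq C]
    (z : ℕ → V) (c c' : C) (v : V) :
    (Sum.inr (v, c') : Item V C) ∈ cyc 3 z c ↔ c' = c ∧ (v = z 0 ∨ v = z 1 ∨ v = z 2) := by
  unfold cyc
  simp only [mem_union, mem_image, mem_range, reduceCtorEq, and_false, exists_false, false_or,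
    Sum.inr.injEq, Prod.mk.injEq]
  constructor
  · rintro ⟨i, hi, h1, h2⟩
    refine ⟨h2.symm, ?_⟩
    interval_cases i
    · left; exact h1.symm
    · right; left; exact h1.symm
    · right; right; exact h1.symm
  · rintro ⟨h, h1 | h1 | h1⟩
    · exact ⟨0, by norm_num, h1.symm, h.symm⟩
    · exact ⟨1, by norm_num, h1.symm, h.symm⟩
    · exact ⟨2, by norm_num, h1.symm, h.symm⟩

theorem lk_o3 : LkO3Stmt := by
  classical
  intro V C _ _ _ _ p ε μ U U' U'' D D' D'' T S f g hp hT hS1 hS2 hX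
  -- basic facts
  have hnb : ∀ x ∈ U \ U', ∀ u ∈ nb T x, u ∈ U' := by
    intro x hx u hu
    have hu1 : (Sum.inl s(x, u) : Item V C) ∈ T := by simpa [nb] using hu
    obtain ⟨_, _, h3⟩ := hT.ins.1 x u hu1
    by_contra h4
    exact hT.eX x hx u (mem_sdiff.2 ⟨h3, h4⟩) hu1
  have hcl : ∀ x ∈ U \ U', ∀ c ∈ cl T x, c ∈ D' := by
    intro x hx c hc
    have hc1 : (Sum.inr (x, c) : Item V C) ∈ T := by simpa [cl] using hc
    obtain ⟨_, h3⟩ := hT.ins.2 x c hc1
    by_contra h4
    exact hT.cX x hx c (mem_sdiff.2 ⟨h3, h4⟩) hc1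
  have hfU : ∀ x ∈ U \ U', ∀ c ∈ cl T x, f x c ∈ U' := fun x hx c hc => hnb x hx _ (hX.memf x hx c hc)
  have hgU : ∀ x ∈ U \ U', ∀ c ∈ cl T x, g x c ∈ U' := fun x hx c hc => hnb x hx _ (hX.memg x hx c hc)
  have hxn : ∀ x ∈ U \ U', ∀ u ∈ U', x ≠ u := by
    intro x hx u hu h
    exact (mem_sdiff.1 hx).2 (h ▸ hu)
  set z : V × C → ℕ → V := fun t i => if i = 0 then t.1 else if i = 1 then f t.1 t.2 else g t.1 t.2
    with hz
  have hz0 : ∀ t, z t 0 = t.1 := fun t => by simp [hz]
  have hz1 : ∀ t, z t 1 = f t.1 t.2 := fun t => by simp [hz]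
  have hz2 : ∀ t, z t 2 = g t.1 t.2 := fun t => by simp [hz]
  set A : Finset (V × C) := univ.filter (fun t => t.1 ∈ U \ U' ∧ t.2 ∈ cl T t.1) with hA
  set F : Finset (Finset (Item V C)) := A.image (fun t => cyc 3 (z t) t.2) with hF
  have hinl : ∀ e, (Sum.inl e : Item V C) ∈ un F ↔ ∃ x ∈ U \ U', ∃ c ∈ cl T x,
      (e = s(x, f x c) ∨ e = s(f x c, g x c) ∨ e = s(g x c, x)) := by
    intro e
    unfold un
    simp only [mem_biUnion, id, hF, mem_image, hA, mem_filter, mem_univ, true_and]
    constructor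
    · rintro ⟨q, ⟨⟨x, c⟩, ⟨h1, h2⟩, rfl⟩, h3⟩
      rw [lko3_inl, hz0, hz1, hz2] at h3
      exact ⟨x, h1, c, h2, h3⟩
    · rintro ⟨x, h1, c, h2, h3⟩
      refine ⟨_, ⟨(x, c), ⟨h1, h2⟩, rfl⟩, ?_⟩
      rw [lko3_inl, hz0, hz1, hz2]
      exact h3
  have hinr : ∀ v c, (Sum.inr (v, c) : Item V C) ∈ un F ↔ ∃ x ∈ U \ U', c ∈ cl T x ∧
      (v = x ∨ v = f x c ∨ v = g x c) := by
    intro v c
    unfold un
    simp only [mem_biUnion, id, hF, mem_image, hA, mem_filter, mem_univ, true_and]
    constructor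
    · rintro ⟨q, ⟨⟨x, c'⟩, ⟨h1, h2⟩, rfl⟩, h3⟩
      rw [lko3_inr, hz0, hz1, hz2] at h3
      obtain ⟨h4, h5⟩ := h3
      simp only at h4
      subst h4
      exact ⟨x, h1, h2, h5⟩
    · rintro ⟨x, h1, h2, h3⟩
      refine ⟨_, ⟨(x, c), ⟨h1, h2⟩, rfl⟩, ?_⟩
      rw [lko3_inr, hz0, hz1, hz2]
      exact ⟨rfl, h3⟩
  -- an edge of un F with both ends in U' is an f-g edge
  have hfg : ∀ u ∈ U', ∀ v ∈ U', (Sum.inl s(u, v) : Item V C) ∈ un F →
      ∃ x ∈ U \ U', ∃ c ∈ cl T x, s(u, v) = s(f x c, g x c) := by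
    intro u hu v hv h
    obtain ⟨x, hx, c, hc, h1⟩ := (hinl _).1 h
    refine ⟨x, hx, c, hc, ?_⟩
    rcases h1 with h1 | h1 | h1
    · exfalso
      rw [Sym2.eq_iff] at h1
      rcases h1 with ⟨h1, _⟩ | ⟨_, h1⟩
      · exact hxn x hx u hu h1.symm
      · exact hxn x hx v hv h1.symm
    · exact h1
    · exfalso
      rw [Sym2.eq_iff] at h1
      rcases h1 with ⟨_, h1⟩ | ⟨h1, _⟩
      · exact hxn x hx v hv h1.symm
      · exact hxn x hx u hu h1.symm
  -- uniqueness of the colour
  have huniq : ∀ x ∈ U \ U', ∀ c ∈ cl T x, ∀ c' ∈ cl T x, ∀ u,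
      (u = f x c ∨ u = g x c) → (u = f x c' ∨ u = g x c') → c = c' := by
    intro x hx c hc c' hc' u h1 h2
    by_contra hne
    obtain ⟨h3, h4⟩ := hX.inj x hx c hc c' hc' hne
    rcases h1 with h1 | h1 <;> rcases h2 with h2 | h2
    · exact h3 (h1.symm.trans h2)
    · exact hX.fg x hx c hc c' hc' (h1.symm.trans h2)
    · exact hX.fg x hx c' hc' c hc (h2.symm.trans h1)
    · exact h4 (h1.symm.trans h2)
  refine ⟨F, ?_⟩
  refine ⟨?_, ?_, ?_, ?_, ?_, ?_, ?_, ?_, ?_, ?_⟩
  · -- pc
    intro q hq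
    rw [hF, mem_image] at hq
    obtain ⟨⟨x, c⟩, ht, rfl⟩ := hq
    simp only [hA, mem_filter, mem_univ, true_and] at ht
    obtain ⟨hx, hc⟩ := ht
    have hcT : (Sum.inr (x, c) : Item V C) ∈ T := by simpa [cl] using hc
    have hf : (Sum.inl s(x, f x c) : Item V C) ∈ T := by
      have := hX.memf x hx c hc
      simpa [nb] using this
    have hg : (Sum.inl s(x, g x c) : Item V C) ∈ T := by
      have := hX.memg x hx c hc
      simpa [nb] using this
    refine ⟨?_, c, hcl x hx c hc, le_rfl, z (x, c), ?_, rfl⟩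
    · intro i hi
      rcases i with e | ⟨v, c'⟩
      · rw [lko3_inl, hz0, hz1, hz2] at hi
        rcases hi with rfl | rfl | rfl
        · exact hf
        · exact (hX.e x hx c hc).1
        · rw [Sym2.eq_swap]; exact hg
      · rw [lko3_inr, hz0, hz1, hz2] at hi
        obtain ⟨h1, h2⟩ := hi
        simp only at h1 h2
        subst h1
        rcases h2 with rfl | rfl | rfl
        · exact hcT
        · exact (hX.cf x hx c' hc).1
        · exact (hX.cg x hx c' hc).1
    · have n1 : x ≠ f x c := hxn x hx _ (hfU x hx c hc)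
      have n2 : x ≠ g x c := hxn x hx _ (hgU x hx c hc)
      have n3 : f x c ≠ g x c := hX.fg x hx c hc c hc
      intro i hi j hj hij
      simp only [Set.mem_Iio] at hi hj
      interval_cases i <;> interval_cases j <;> simp only [hz0, hz1, hz2] at hij <;>
        first
          | rfl
          | exact absurd hij n1
          | exact absurd hij n2
          | exact absurd hij n3
          | exact absurd hij.symm n1
          | exact absurd hij.symm n2
          | exact absurd hij.symm n3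
  · -- pd
    intro q hq q' hq' hne
    rw [hF, mem_image] at hq hq'
    obtain ⟨⟨x, c⟩, ht, rfl⟩ := hq
    obtain ⟨⟨y, c'⟩, ht', rfl⟩ := hq'
    simp only [hA, mem_filter, mem_univ, true_and] at ht ht'
    obtain ⟨hx, hc⟩ := ht
    obtain ⟨hy, hc'⟩ := ht'
    rw [Finset.disjoint_left]
    intro i hi hi'
    apply hne
    suffices h : x = y ∧ c = c' by rw [h.1, h.2]
    have fU := hfU x hx c hc
    have gU := hgU x hx c hc
    have fU' := hfU y hy c' hc'
    have gU' := hgU y hy c' hc'
    rcases i with e | ⟨v, d⟩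
    · rw [lko3_inl, hz0, hz1, hz2] at hi hi'
      simp only at hi hi'
      -- common vertex outside U'
      have hxe : ∀ w, (e = s(x, w) ∨ e = s(w, x)) → (w = f x c ∨ w = g x c) → x = y ∧ c = c' := by
        intro w hw hw'
        have hwU : w ∈ U' := by rcases hw' with h | h <;> rw [h] <;> assumption
        have hy' : ∃ w', (w' = f y c' ∨ w' = g y c') ∧ (e = s(y, w')) := by
          rcases hi' with h | h | h
          · exact ⟨_, Or.inl rfl, h⟩
          · exfalso
            have : s(x, w) = s(f y c', g y c') := by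
              rcases hw with h1 | h1
              · rw [← h1, h]
              · rw [Sym2.eq_swap, ← h1, h]
            rw [Sym2.eq_iff] at this
            rcases this with ⟨h1, _⟩ | ⟨h1, _⟩
            · exact hxn x hx _ fU' h1
            · exact hxn x hx _ gU' h1
          · exact ⟨_, Or.inr rfl, by rw [h, Sym2.eq_swap]⟩
        obtain ⟨w', hw'1, hw'2⟩ := hy'
        have hw'U : w' ∈ U' := by rcases hw'1 with h | h <;> rw [h] <;> assumption
        have : s(x, w) = s(y, w') := by
          rcases hw with h1 | h1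
          · rw [← h1, hw'2]
          · rw [Sym2.eq_swap, ← h1, hw'2]
        rw [Sym2.eq_iff] at this
        rcases this with ⟨h1, h2⟩ | ⟨h1, h2⟩
        · subst h1
          subst h2
          exact ⟨rfl, huniq x hx c hc c' hc' w hw' hw'1⟩
        · exact absurd h1 (hxn x hx _ hw'U)
      rcases hi with h | h | h
      · exact hxe _ (Or.inl h) (Or.inl rfl)
      · rcases hi' with h' | h' | h'
        · exfalso
          rw [h, Sym2.eq_iff] at h'
          rcases h' with ⟨h1, _⟩ | ⟨_, h1⟩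
          · exact hxn y hy _ fU h1.symm
          · exact hxn y hy _ gU h1.symm
        · by_cases hxy : x = y
          · subst hxy
            refine ⟨rfl, ?_⟩
            rw [h, Sym2.eq_iff] at h'
            rcases h' with ⟨h1, _⟩ | ⟨h1, _⟩
            · exact huniq x hx c hc c' hc' (f x c) (Or.inl rfl) (Or.inl h1)
            · exact huniq x hx c hc c' hc' (f x c) (Or.inl rfl) (Or.inr h1)
          · exact absurd (h.symm.trans h') (hX.ee x hx y hy hxy c hc c' hc')
        · exfalso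
          rw [h, Sym2.eq_iff] at h'
          rcases h' with ⟨_, h1⟩ | ⟨h1, _⟩
          · exact hxn y hy _ gU h1.symm
          · exact hxn y hy _ fU h1.symm
      · exact hxe _ (Or.inr h) (Or.inr rfl)
    · rw [lko3_inr, hz0, hz1, hz2] at hi hi'
      simp only at hi hi'
      obtain ⟨h1, h2⟩ := hi
      obtain ⟨h3, h4⟩ := hi'
      have hcc : c = c' := h1.symm.trans h3
      refine ⟨?_, hcc⟩
      by_contra hxy
      subst hcc
      obtain ⟨k1, k2, k3⟩ := hX.cc x hx y hy hxy c hc hc'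
      obtain ⟨k4, k5, k6⟩ := hX.cc y hy x hx (Ne.symm hxy) c hc' hc
      rcases h2 with h2 | h2 | h2 <;> rcases h4 with h4 | h4 | h4
      · exact hxy (h2.symm.trans h4)
      · exact hxn x hx _ fU' (h2.symm.trans h4)
      · exact hxn x hx _ gU' (h2.symm.trans h4)
      · exact hxn y hy _ fU (h4.symm.trans h2)
      · exact k1 (h2.symm.trans h4)
      · exact k2 (h2.symm.trans h4)
      · exact hxn y hy _ gU (h4.symm.trans h2)
      · exact k5 (h4.symm.trans h2)
      · exact k3 (h2.symm.trans h4)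
  · -- dj
    rw [Finset.disjoint_left]
    intro i hi hiS
    rcases i with e | ⟨v, c⟩
    · obtain ⟨x, hx, c, hc, h1⟩ := (hinl _).1 hi
      rcases h1 with rfl | rfl | rfl
      · exact (mem_sdiff.1 hx).2 (hS2 _ _ hiS).1
      · exact (hX.e x hx c hc).2.1 hiS
      · exact (mem_sdiff.1 hx).2 (hS2 _ _ hiS).2
    · obtain ⟨x, hx, hc, _⟩ := (hinr _ _).1 hi
      exact (mem_sdiff.1 (hS1 _ _ hiS)).2 (hcl x hx c hc)
  · -- ex
    intro x hx u hu
    obtain ⟨c, hc, h⟩ := hX.sur x hx u hu
    rw [hinl]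
    refine ⟨x, hx, c, hc, ?_⟩
    rcases h with h | h
    · left; rw [h]
    · right; right; rw [h, Sym2.eq_swap]
  · -- cx
    intro x hx c hc
    rw [hinr]
    exact ⟨x, hx, hc, Or.inl rfl⟩
  · -- l1
    intro u hu
    have h1 : (nb (un F) u ∩ U').card ≤ (nb T u \ U').card := by
      apply Finset.card_le_card_of_forall_subsingleton
        (fun v x => x ∈ U \ U' ∧ ∃ c ∈ cl T x, s(u, v) = s(f x c, g x c))
      · intro v hv
        obtain ⟨hv1, hv2⟩ := mem_inter.1 hv
        have hv3 : (Sum.inl s(u, v) : Item V C) ∈ un F := by simpa [nb] using hv1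
        obtain ⟨x, hx, c, hc, h⟩ := hfg u hu v hv2 hv3
        refine ⟨x, ?_, hx, c, hc, h⟩
        have hux : u ∈ nb T x := by
          rw [Sym2.eq_iff] at h
          rcases h with ⟨h, _⟩ | ⟨h, _⟩
          · rw [h]; exact hX.memf x hx c hc
          · rw [h]; exact hX.memg x hx c hc
        rw [mem_sdiff]
        refine ⟨?_, (mem_sdiff.1 hx).2⟩
        simp only [nb, mem_filter, mem_univ, true_and] at hux ⊢
        rw [Sym2.eq_swap]; exact hux
      · rintro x _ v ⟨_, hx, c, hc, h⟩ v' ⟨_, _, c', hc', h'⟩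
        have e1 : u = f x c ∨ u = g x c := by
          rw [Sym2.eq_iff] at h
          rcases h with ⟨h, _⟩ | ⟨h, _⟩
          · exact Or.inl h
          · exact Or.inr h
        have e2 : u = f x c' ∨ u = g x c' := by
          rw [Sym2.eq_iff] at h'
          rcases h' with ⟨h, _⟩ | ⟨h, _⟩
          · exact Or.inl h
          · exact Or.inr h
        have e3 := huniq x hx c hc c' hc' u e1 e2
        subst e3
        have e4 : s(u, v) = s(u, v') := h.trans h'.symm
        exact (Sym2.congr_right).1 e4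
    have h2 := hT.nu u hu
    have h3 : ((nb (un F) u ∩ U').card : ℝ) ≤ ((nb T u \ U').card : ℝ) := by exact_mod_cast h1
    have h4 : (0 : ℝ) ≤ p * U.card := mul_nonneg hp.le (Nat.cast_nonneg _)
    nlinarith
  · -- l2
    intro u hu
    have h1 : (cl (un F) u ∩ D').card ≤ (nb T u \ U').card := by
      apply Finset.card_le_card_of_forall_subsingleton
        (fun c x => x ∈ U \ U' ∧ c ∈ cl T x ∧ (u = f x c ∨ u = g x c))
      · intro c hc
        obtain ⟨hc1, hc2⟩ := mem_inter.1 hc
        have hc3 : (Sum.inr (u, c) : Item V C) ∈ un F := by simpa [cl] using hc1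
        obtain ⟨x, hx, hcx, h⟩ := (hinr _ _).1 hc3
        have h' : u = f x c ∨ u = g x c := by
          rcases h with h | h
          · exact absurd h.symm (hxn x hx u hu)
          · exact h
        refine ⟨x, ?_, hx, hcx, h'⟩
        have hux : u ∈ nb T x := by
          rcases h' with h | h
          · rw [h]; exact hX.memf x hx c hcx
          · rw [h]; exact hX.memg x hx c hcx
        rw [mem_sdiff]
        refine ⟨?_, (mem_sdiff.1 hx).2⟩
        simp only [nb, mem_filter, mem_univ, true_and] at hux ⊢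
        rw [Sym2.eq_swap]; exact hux
      · rintro x _ c ⟨_, hx, hc, h⟩ c' ⟨_, _, hc', h'⟩
        exact huniq x hx c hc c' hc' u h h'
    have h2 := hT.nu u hu
    have h3 : ((cl (un F) u ∩ D').card : ℝ) ≤ ((nb T u \ U').card : ℝ) := by exact_mod_cast h1
    have h4 : (0 : ℝ) ≤ p * U.card := mul_nonneg hp.le (Nat.cast_nonneg _)
    nlinarith
  · -- l3
    intro c hc
    have h1 : vt (un F) c ∩ U' ⊆ (vt T c \ U').image (fun x => f x c) ∪ (vt T c \ U').image (fun x => g x c) := by
      intro v hv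
      obtain ⟨hv1, hv2⟩ := mem_inter.1 hv
      have hv3 : (Sum.inr (v, c) : Item V C) ∈ un F := by simpa [vt] using hv1
      obtain ⟨x, hx, hcx, h⟩ := (hinr _ _).1 hv3
      have hxT : x ∈ vt T c \ U' := by
        rw [mem_sdiff]
        refine ⟨?_, (mem_sdiff.1 hx).2⟩
        simpa [vt, cl] using hcx
      rw [mem_union, mem_image, mem_image]
      rcases h with h | h | h
      · exact absurd h.symm (hxn x hx v hv2)
      · left; exact ⟨x, hxT, h.symm⟩
      · right; exact ⟨x, hxT, h.symm⟩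
    have h2 : (vt (un F) c ∩ U').card ≤ (vt T c \ U').card + (vt T c \ U').card := by
      refine (Finset.card_le_card h1).trans ((Finset.card_union_le _ _).trans ?_)
      exact Nat.add_le_add Finset.card_image_le Finset.card_image_le
    have h3 : ((vt (un F) c ∩ U').card : ℝ) ≤ ((vt T c \ U').card : ℝ) + ((vt T c \ U').card : ℝ) := by
      exact_mod_cast h2
    have h4 := hT.xc c hc
    linarith
  · -- n1
    intro u hu v hv h
    obtain ⟨x, hx, c, hc, h1⟩ := hfg u (hT.subU'' hu) v (hT.subU'' hv) h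
    apply (hX.e x hx c hc).2.2
    rw [Sym2.eq_iff] at h1
    rcases h1 with ⟨h1, h2⟩ | ⟨h1, h2⟩
    · rw [← h1, ← h2]; exact ⟨hu, hv⟩
    · rw [← h1, ← h2]; exact ⟨hv, hu⟩
  · -- n2
    intro u hu c hc h
    obtain ⟨x, hx, hcx, h1⟩ := (hinr _ _).1 h
    rcases h1 with h1 | h1 | h1
    · exact hxn x hx u (hT.subU'' hu) h1.symm
    · exact (hX.cf x hx c hcx).2 ⟨h1 ▸ hu, hc⟩
    · exact (hX.cg x hx c hcx).2 ⟨h1 ▸ hu, hc⟩

end Pool.Agent.OBW
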