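import Mathlib
import Pool.Agent.OBW.LkStmts

/-!
# LkO4 : theorem lk_o4 (hpath : LkPathStmt) : LkO4Stmt
-/

set_option autoImplicit false
set_option linter.unusedSectionVars false
namespace Pool.Agent.OBW
open Finset

section
variable {V C : Type} [Fintype V] [DecidableEq V] [Fintype C] [DecidableEq C]

/-- tasks -/
def lko4A (U U' : Finset V) (T : Finset (Item V C)) : Finset (V × C) :=
  ((U \ U') ×ˢ (univ : Finset C)).filter (fun t => (Sum.inr (t.1, t.2) : Item V C) ∈ T)

theorem lko4_mem {U U' : Finset V} {T : Finset (Item V C)} {t : V × C} :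
    t ∈ lko4A U U' T ↔ t.1 ∈ U \ U' ∧ t.2 ∈ cl T t.1 := by
  simp [lko4A, cl]

/-- inner vertices of a path -/
def lko4in (r : ℕ) (Q : ℕ → V) : Finset V := (Ioc 0 r).image Q

/-- all vertices of a path -/
def lko4all (r : ℕ) (Q : ℕ → V) : Finset V := (range (r + 2)).image Q

/-- edges of a path -/
def lko4pe (r : ℕ) (Q : ℕ → V) : Finset (Sym2 V) := (range (r + 1)).image (fun j => s(Q j, Q (j + 1)))

theorem lko4_mem_in {r : ℕ} {Q : ℕ → V} {u : V} : u ∈ lko4in r Q ↔ ∃ j, 0 < j ∧ j ≤ r ∧ Q j = u := by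
  simp only [lko4in, mem_image, mem_Ioc, and_assoc]

theorem lko4_mem_all {r : ℕ} {Q : ℕ → V} {u : V} : u ∈ lko4all r Q ↔ ∃ j, j ≤ r + 1 ∧ Q j = u := by
  simp only [lko4all, mem_image, mem_range]
  constructor
  · rintro ⟨j, hj, h⟩; exact ⟨j, by omega, h⟩
  · rintro ⟨j, hj, h⟩; exact ⟨j, by omega, h⟩

theorem lko4_mem_pe {r : ℕ} {Q : ℕ → V} {e : Sym2 V} :
    e ∈ lko4pe r Q ↔ ∃ j, j ≤ r ∧ e = s(Q j, Q (j + 1)) := by
  simp only [lko4pe, mem_image, mem_range]
  constructor
  · rintro ⟨j, hj, h⟩; exact ⟨j, by omega, h.symm⟩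
  · rintro ⟨j, hj, h⟩; exact ⟨j, by omega, h.symm⟩

theorem lko4_in_card (r : ℕ) (Q : ℕ → V) : (lko4in r Q).card ≤ r := by
  unfold lko4in
  refine card_image_le.trans ?_
  simp

/-- the invariant of the greedy construction -/
structure Lko4Inv (r : ℕ) (B : ℝ) (U U' U'' : Finset V) (T S : Finset (Item V C)) (f g : V → C → V)
    (A : Finset (V × C)) (P : V × C → ℕ → V) : Prop where
  p0 : ∀ t ∈ A, P t 0 = f t.1 t.2
  p1 : ∀ t ∈ A, P t (r + 1) = g t.1 t.2
  mem : ∀ t ∈ A, ∀ j, 0 < j → j ≤ r → P t j ∈ U' ∧ P t j ∉ U''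
  inj : ∀ t ∈ A, ∀ i j, i ≤ r + 1 → j ≤ r + 1 → P t i = P t j → i = j
  eT : ∀ t ∈ A, ∀ j, j ≤ r → (Sum.inl s(P t j, P t (j + 1)) : Item V C) ∈ T ∧
    (Sum.inl s(P t j, P t (j + 1)) : Item V C) ∉ S
  pT : ∀ t ∈ A, ∀ j, 0 < j → j ≤ r → (Sum.inr (P t j, t.2) : Item V C) ∈ T
  ed : ∀ t ∈ A, ∀ t' ∈ A, t ≠ t' → Disjoint (lko4pe r (P t)) (lko4pe r (P t'))
  pd : ∀ t ∈ A, ∀ t' ∈ A, t ≠ t' → t.2 = t'.2 → Disjoint (lko4in r (P t)) (lko4in r (P t'))
  pf : ∀ t ∈ A, ∀ j, 0 < j → j ≤ r → ∀ y ∈ U \ U', t.2 ∈ cl T y → P t j ≠ f y t.2 ∧ P t j ≠ g y t.2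
  dg : ∀ u, ((A.filter (fun t => u ∈ lko4in r (P t))).card : ℝ) ≤ B + 1

theorem lko4_inv_empty {r : ℕ} {B : ℝ} (hB : 0 ≤ B) {U U' U'' : Finset V} {T S : Finset (Item V C)}
    {f g : V → C → V} (P : V × C → ℕ → V) : Lko4Inv r B U U' U'' T S f g ∅ P := by
  constructor <;> simp
  intro _
  linarith

theorem lko4_nbsub {p ε μ : ℝ} {ls : ℕ} {U U' U'' : Finset V} {D D' D'' : Finset C}
    {T : Finset (Item V C)} (h : LinkHyp p ε μ ls U U' U'' D D' D'' T) {x u : V} (hx : x ∈ U \ U')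
    (hu : u ∈ nb T x) : u ∈ U' := by
  have hu' : (Sum.inl s(x, u) : Item V C) ∈ T := by simpa [nb] using hu
  have h1 := h.ins.1 x u hu'
  by_contra hcon
  exact h.eX x hx u (mem_sdiff.2 ⟨h1.2.2, hcon⟩) hu'

theorem lko4_clsub {p ε μ : ℝ} {ls : ℕ} {U U' U'' : Finset V} {D D' D'' : Finset C}
    {T : Finset (Item V C)} (h : LinkHyp p ε μ ls U U' U'' D D' D'' T) {x : V} {c : C} (hx : x ∈ U \ U')
    (hc : c ∈ cl T x) : c ∈ D' := by
  have hc' : (Sum.inr (x, c) : Item V C) ∈ T := by simpa [cl] using hc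
  have h1 := h.ins.2 x c hc'
  by_contra hcon
  exact h.cX x hx c (mem_sdiff.2 ⟨h1.2, hcon⟩) hc'

/-- number of tasks -/
theorem lko4_cardA {p ε μ : ℝ} {ls : ℕ} {U U' U'' : Finset V} {D D' D'' : Finset C}
    {T : Finset (Item V C)} (hp : 0 ≤ p) (h : LinkHyp p ε μ ls U U' U'' D D' D'' T) :
    ((lko4A U U' T).card : ℝ) ≤ U.card * (p * U'.card) := by
  have h1 : (lko4A U U' T).card = ∑ x ∈ U \ U', (cl T x).card := by
    rw [Finset.card_eq_sum_card_fiberwise (f := fun t : V × C => t.1) (t := U \ U')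
      (fun t ht => (lko4_mem.1 ht).1)]
    refine Finset.sum_congr rfl fun x hx => ?_
    refine Finset.card_bij (fun t _ => t.2) ?_ ?_ ?_
    · intro t ht
      rw [mem_filter] at ht
      have := (lko4_mem.1 ht.1).2
      rw [ht.2] at this
      exact this
    · intro t ht t' ht' e
      rw [mem_filter] at ht ht'
      exact Prod.ext (ht.2.trans ht'.2.symm) e
    · intro c hc
      exact ⟨(x, c), by rw [mem_filter]; exact ⟨lko4_mem.2 ⟨hx, hc⟩, rfl⟩, rfl⟩
  rw [h1]
  push_cast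
  have h2 : ∀ x ∈ U \ U', ((cl T x).card : ℝ) ≤ p * U'.card := by
    intro x hx
    have h3 := (h.nx x hx).2
    have h4 : ((nb T x).card : ℝ) = 2 * (cl T x).card := by exact_mod_cast h.bx x hx
    rw [h4] at h3
    linarith
  calc (∑ x ∈ U \ U', ((cl T x).card : ℝ)) ≤ ∑ _x ∈ U \ U', (p * (U'.card : ℝ)) :=
        Finset.sum_le_sum h2
    _ = ((U \ U').card : ℝ) * (p * U'.card) := by rw [Finset.sum_const, nsmul_eq_mul]
    _ ≤ U.card * (p * U'.card) := by
        apply mul_le_mul_of_nonneg_right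
        · exact_mod_cast card_le_card sdiff_subset
        · positivity

/-- number of tasks of a colour -/
theorem lko4_cardc {U U' : Finset V} {T : Finset (Item V C)} {A : Finset (V × C)}
    (hA : A ⊆ lko4A U U' T) (c : C) :
    (A.filter (fun t => t.2 = c)).card ≤ (vt T c \ U').card := by
  refine Finset.card_le_card_of_injOn (fun t => t.1) ?_ ?_
  · intro t ht
    rw [mem_coe, mem_filter] at ht
    have h1 := lko4_mem.1 (hA ht.1)
    have h2 : (Sum.inr (t.1, t.2) : Item V C) ∈ T := by simpa [cl] using h1.2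
    rw [ht.2] at h2
    rw [mem_coe, mem_sdiff]
    exact ⟨by simpa [vt] using h2, (mem_sdiff.1 h1.1).2⟩
  · intro t ht t' ht' e
    rw [mem_coe, mem_filter] at ht ht'
    exact Prod.ext e (ht.2.trans ht'.2.symm)

/-- number of tasks with a given end vertex -/
theorem lko4_ends {U U' U'' : Finset V} {D'' : Finset C}
    {T S : Finset (Item V C)} {f g : V → C → V} (hX : XMatch U U' U'' D'' T S f g) {A : Finset (V × C)}
    (hA : A ⊆ lko4A U U' T) (u : V) :
    (A.filter (fun t => u = f t.1 t.2 ∨ u = g t.1 t.2)).card ≤ (nb T u \ U').card := by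
  refine Finset.card_le_card_of_injOn (fun t => t.1) ?_ ?_
  · intro t ht
    rw [mem_coe, mem_filter] at ht
    have h1 := lko4_mem.1 (hA ht.1)
    have h2 : u ∈ nb T t.1 := by
      rcases ht.2 with e | e
      · rw [e]; exact hX.memf _ h1.1 _ h1.2
      · rw [e]; exact hX.memg _ h1.1 _ h1.2
    have h3 : (Sum.inl s(t.1, u) : Item V C) ∈ T := by simpa [nb] using h2
    rw [Sym2.eq_swap] at h3
    rw [mem_coe, mem_sdiff]
    exact ⟨by simpa [nb] using h3, (mem_sdiff.1 h1.1).2⟩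
  · intro t ht t' ht' e
    rw [mem_coe, mem_filter] at ht ht'
    obtain ⟨x, c⟩ := t
    obtain ⟨x', c'⟩ := t'
    simp only at e
    subst e
    have h1 := lko4_mem.1 (hA ht.1)
    have h1' := lko4_mem.1 (hA ht'.1)
    simp only at h1 h1' ht ht'
    by_contra hcon
    have hcc : c ≠ c' := fun hc => hcon (by rw [hc])
    have hi := hX.inj x h1.1 c h1.2 c' h1'.2 hcc
    have hfg := hX.fg x h1.1 c h1.2 c' h1'.2
    have hgf := hX.fg x h1.1 c' h1'.2 c h1.2
    rcases ht.2 with e1 | e1 <;> rcases ht'.2 with e2 | e2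
    · exact hi.1 (e1.symm.trans e2)
    · exact hfg (e1.symm.trans e2)
    · exact hgf (e2.symm.trans e1)
    · exact hi.2 (e1.symm.trans e2)

/-- number of paths through a vertex -/
theorem lko4_touch {r : ℕ} {B p ε μ : ℝ} {ls : ℕ} {U U' U'' : Finset V} {D D' D'' : Finset C}
    {T S : Finset (Item V C)} {f g : V → C → V} (h : LinkHyp p ε μ ls U U' U'' D D' D'' T)
    (hX : XMatch U U' U'' D'' T S f g) {A : Finset (V × C)}
    (hA : A ⊆ lko4A U U' T) {P : V × C → ℕ → V} (hI : Lko4Inv r B U U' U'' T S f g A P)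
    {u : V} (hu : u ∈ U') :
    ((A.filter (fun t => u ∈ lko4all r (P t))).card : ℝ) ≤ B + 1 + 2 * p * U.card := by
  have h1 : A.filter (fun t => u ∈ lko4all r (P t)) ⊆
      A.filter (fun t => u ∈ lko4in r (P t)) ∪ A.filter (fun t => u = f t.1 t.2 ∨ u = g t.1 t.2) := by
    intro t ht
    rw [mem_filter, lko4_mem_all] at ht
    obtain ⟨htA, j, hj, e⟩ := ht
    rw [mem_union, mem_filter, mem_filter, lko4_mem_in]
    by_cases h0 : j = 0
    · right
      subst h0
      exact ⟨htA, Or.inl (by rw [← e, hI.p0 t htA])⟩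
    · by_cases h1 : j = r + 1
      · right
        subst h1
        exact ⟨htA, Or.inr (by rw [← e, hI.p1 t htA])⟩
      · left
        exact ⟨htA, j, by omega, by omega, e⟩
  have h2 := card_le_card h1
  have h3 := h2.trans (card_union_le _ _)
  have h4 : ((A.filter (fun t => u ∈ lko4all r (P t))).card : ℝ) ≤
      ((A.filter (fun t => u ∈ lko4in r (P t))).card : ℝ) +
      ((A.filter (fun t => u = f t.1 t.2 ∨ u = g t.1 t.2)).card : ℝ) := by exact_mod_cast h3
  have h5 : ((A.filter (fun t => u = f t.1 t.2 ∨ u = g t.1 t.2)).card : ℝ) ≤ ((nb T u \ U').card : ℝ) := by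
    exact_mod_cast lko4_ends hX hA u
  have h6 := h.nu u hu
  have h7 := hI.dg u
  linarith

/-- edges of a path at a vertex -/
theorem lko4_two {r : ℕ} {Q : ℕ → V} (hinj : ∀ i j, i ≤ r + 1 → j ≤ r + 1 → Q i = Q j → i = j) (u : V) :
    (univ.filter (fun v => s(u, v) ∈ lko4pe r Q)).card ≤ 2 := by
  by_cases hu : ∃ i, i ≤ r + 1 ∧ Q i = u
  · obtain ⟨i, hi, rfl⟩ := hu
    have h1 : univ.filter (fun v => s(Q i, v) ∈ lko4pe r Q) ⊆ {Q (i + 1), Q (i - 1)} := by
      intro v hv
      rw [mem_filter, lko4_mem_pe] at hv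
      obtain ⟨_, j, hj, e⟩ := hv
      rw [mem_insert, mem_singleton]
      rw [Sym2.eq_iff] at e
      rcases e with ⟨e1, e2⟩ | ⟨e1, e2⟩
      · have := hinj i j hi (by omega) e1
        subst this
        exact Or.inl e2
      · have := hinj i (j + 1) hi (by omega) e1
        subst this
        right
        rw [e2]
        rfl
    exact (card_le_card h1).trans card_le_two
  · have h1 : univ.filter (fun v => s(u, v) ∈ lko4pe r Q) = ∅ := by
      rw [filter_eq_empty_iff]
      intro v _ hv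
      rw [lko4_mem_pe] at hv
      obtain ⟨j, hj, e⟩ := hv
      rw [Sym2.eq_iff] at e
      rcases e with ⟨e1, e2⟩ | ⟨e1, e2⟩
      · exact hu ⟨j, by omega, e1.symm⟩
      · exact hu ⟨j + 1, by omega, e1.symm⟩
    rw [h1]
    simp

/-- used edges at a vertex -/
theorem lko4_ecount {r : ℕ} {B : ℝ} {U U' U'' : Finset V}
    {T S : Finset (Item V C)} {f g : V → C → V} {A : Finset (V × C)}
    {P : V × C → ℕ → V} (hI : Lko4Inv r B U U' U'' T S f g A P) (u : V) :
    (univ.filter (fun v => s(u, v) ∈ A.biUnion (fun t => lko4pe r (P t)))).card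
      ≤ (A.filter (fun t => u ∈ lko4all r (P t))).card * 2 := by
  have h1 : univ.filter (fun v => s(u, v) ∈ A.biUnion (fun t => lko4pe r (P t))) ⊆
      (A.filter (fun t => u ∈ lko4all r (P t))).biUnion
        (fun t => univ.filter (fun v => s(u, v) ∈ lko4pe r (P t))) := by
    intro v hv
    rw [mem_filter, mem_biUnion] at hv
    obtain ⟨_, t, htA, ht⟩ := hv
    rw [mem_biUnion]
    refine ⟨t, ?_, ?_⟩
    · rw [mem_filter, lko4_mem_all]
      refine ⟨htA, ?_⟩
      rw [lko4_mem_pe] at ht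
      obtain ⟨j, hj, e⟩ := ht
      rw [Sym2.eq_iff] at e
      rcases e with ⟨e1, e2⟩ | ⟨e1, e2⟩
      · exact ⟨j, by omega, e1.symm⟩
      · exact ⟨j + 1, by omega, e1.symm⟩
    · rw [mem_filter]
      exact ⟨mem_univ _, ht⟩
  refine (card_le_card h1).trans ?_
  apply card_biUnion_le_card_mul
  intro t ht
  rw [mem_filter] at ht
  exact lko4_two (hI.inj t ht.1) u

/-- heavy vertices -/
theorem lko4_heavy {r : ℕ} {B : ℝ} {A : Finset (V × C)} {P : V × C → ℕ → V} (Z : Finset V)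
    (hZ : ∀ w ∈ Z, B ≤ ((A.filter (fun t => w ∈ lko4in r (P t))).card : ℝ)) :
    (Z.card : ℝ) * B ≤ A.card * r := by
  have h1 : (Z.card : ℝ) * B ≤ ∑ w ∈ Z, ((A.filter (fun t => w ∈ lko4in r (P t))).card : ℝ) := by
    calc (Z.card : ℝ) * B = ∑ _w ∈ Z, B := by rw [Finset.sum_const, nsmul_eq_mul]
      _ ≤ _ := Finset.sum_le_sum hZ
  have h2 : ∑ w ∈ Z, (A.filter (fun t => w ∈ lko4in r (P t))).card
      = ∑ t ∈ A, (Z.filter (fun w => w ∈ lko4in r (P t))).card := by
    simp only [card_filter]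
    rw [Finset.sum_comm]
  have h3 : ∑ t ∈ A, (Z.filter (fun w => w ∈ lko4in r (P t))).card ≤ A.card * r := by
    rw [← smul_eq_mul, ← Finset.sum_const]
    refine Finset.sum_le_sum fun t _ => ?_
    refine le_trans (card_le_card ?_) (lko4_in_card r (P t))
    intro w hw
    exact (mem_filter.1 hw).2
  have h4 : (∑ w ∈ Z, ((A.filter (fun t => w ∈ lko4in r (P t))).card : ℝ)) ≤ A.card * r := by
    have := h2 ▸ h3
    exact_mod_cast this
  linarith

/-- from the vertices of PATH to a sequence with its ends -/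
theorem lko4_seq (hpath : LkPathStmt) (W Bd : Finset V) (H : V → V → Prop) [DecidableRel H]
    (r : ℕ) (a b : V) (hr : 1 ≤ r) (hab : a ≠ b)
    (hc : ∀ u ∈ insert a W, Bd.card + r + 3 ≤ (W.filter (fun w => H u w ∧ H w b)).card) :
    ∃ Q : ℕ → V, Q 0 = a ∧ Q (r + 1) = b ∧ (∀ j, 0 < j → j ≤ r → Q j ∈ W ∧ Q j ∉ Bd) ∧
      (∀ i j, i ≤ r + 1 → j ≤ r + 1 → Q i = Q j → i = j) ∧ ∀ j, j ≤ r → H (Q j) (Q (j + 1)) := by
  obtain ⟨w, hw, hinj, h0, h1, h2⟩ := hpath V W Bd H r a b hr hab hc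
  obtain ⟨Q, hQ⟩ : ∃ Q : ℕ → V, Q = fun j => if j = 0 then a else if j ≤ r then w (j - 1) else b := ⟨_, rfl⟩
  have q0 : Q 0 = a := by rw [hQ]; simp
  have q1 : Q (r + 1) = b := by rw [hQ]; simp
  have qm : ∀ j, 0 < j → j ≤ r → Q j = w (j - 1) := by
    intro j hj hj2
    rw [hQ]
    simp only
    rw [if_neg (by omega), if_pos hj2]
  have ki : ∀ i j, i < j → j ≤ r + 1 → Q i ≠ Q j := by
    intro i j hij hj
    by_cases hi0 : i = 0
    · subst hi0
      rw [q0]
      by_cases hj1 : j = r + 1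
      · subst hj1; rw [q1]; exact hab
      · rw [qm j (by omega) (by omega)]
        exact ((hw (j - 1) (by omega)).2.2.1).symm
    · rw [qm i (by omega) (by omega)]
      by_cases hj1 : j = r + 1
      · subst hj1; rw [q1]; exact (hw (i - 1) (by omega)).2.2.2
      · rw [qm j (by omega) (by omega)]
        intro e
        have := hinj (show i - 1 ∈ Set.Iio r by rw [Set.mem_Iio]; omega)
          (show j - 1 ∈ Set.Iio r by rw [Set.mem_Iio]; omega) e
        omega
  refine ⟨Q, q0, q1, ?_, ?_, ?_⟩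
  · intro j hj hj2
    rw [qm j hj hj2]
    have := hw (j - 1) (by omega)
    exact ⟨this.1, this.2.1⟩
  · intro i j hi hj e
    rcases lt_trichotomy i j with hlt | heq | hlt
    · exact absurd e (ki i j hlt hj)
    · exact heq
    · exact absurd e.symm (ki j i hlt hi)
  · intro j hj
    by_cases hj0 : j = 0
    · subst hj0
      rw [q0, qm (0 + 1) (by omega) (by omega)]
      exact h0
    · by_cases hjr : j = r
      · subst hjr
        rw [q1, qm j (by omega) (by omega)]
        exact h2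
      · rw [qm j (by omega) (by omega), qm (j + 1) (by omega) (by omega)]
        have := h1 (j - 1) (by omega)
        have e1 : j + 1 - 1 = j - 1 + 1 := by omega
        rw [e1]
        exact this

/-- one step of the greedy construction -/
theorem lko4_step (hpath : LkPathStmt) {r : ℕ} (hr : 1 ≤ r) {B p ε μ : ℝ} (hB : 0 < B) (hp : 0 < p) {ls : ℕ}
    {U U' U'' : Finset V} {D D' D'' : Finset C}
    {T S : Finset (Item V C)} {f g : V → C → V} (h : LinkHyp p ε μ ls U U' U'' D D' D'' T)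
    (hS4 : ∀ u ∈ U', ((nb S u).card : ℝ) ≤ 4 * p * U.card)
    (hX : XMatch U U' U'' D'' T S f g)
    (hbad : (r : ℝ) * (U.card * (p * U'.card)) ≤ (U'.card : ℝ) / 100 * B)
    (hnum : (U'.card : ℝ) / 50 + 3 * (r + 2) * (p * U.card) + r + 3
      ≤ (U'.card : ℝ) / 2 - 16 * (p * U.card) - 4 * B - 4)
    {A : Finset (V × C)} (hA : A ⊆ lko4A U U' T) (P : V × C → ℕ → V)
    (hI : Lko4Inv r B U U' U'' T S f g A P) (t₀ : V × C) (ht₀ : t₀ ∈ lko4A U U' T) (htA : t₀ ∉ A) :
    ∃ P' : V × C → ℕ → V, Lko4Inv r B U U' U'' T S f g (insert t₀ A) P' := by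
  classical
  obtain ⟨x, c⟩ := t₀
  have ht := lko4_mem.1 ht₀
  simp only at ht
  obtain ⟨hx, hc⟩ := ht
  have hcD' : c ∈ D' := lko4_clsub h hx hc
  obtain ⟨a, ha⟩ : ∃ a, a = f x c := ⟨_, rfl⟩
  obtain ⟨b, hb⟩ : ∃ b, b = g x c := ⟨_, rfl⟩
  have haU : a ∈ U' := by rw [ha]; exact lko4_nbsub h hx (hX.memf x hx c hc)
  have hbU : b ∈ U' := by rw [hb]; exact lko4_nbsub h hx (hX.memg x hx c hc)
  have hab : a ≠ b := by rw [ha, hb]; exact hX.fg x hx c hc c hc
  -- forbidden vertices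
  obtain ⟨Z, hZ⟩ : ∃ Z : Finset V, Z = univ.filter (fun w => B <
    ((A.filter (fun t => w ∈ lko4in r (P t))).card : ℝ)) := ⟨_, rfl⟩
  obtain ⟨B1, hB1⟩ : ∃ B1 : Finset V, B1 = U' \ vt T c := ⟨_, rfl⟩
  obtain ⟨B2, hB2⟩ : ∃ B2 : Finset V, B2 = (A.filter (fun t => t.2 = c)).biUnion (fun t => lko4in r (P t)) :=
    ⟨_, rfl⟩
  obtain ⟨B3, hB3⟩ : ∃ B3 : Finset V, B3 = (vt T c \ U').image (fun y => f y c) := ⟨_, rfl⟩
  obtain ⟨B4, hB4⟩ : ∃ B4 : Finset V, B4 = (vt T c \ U').image (fun y => g y c) := ⟨_, rfl⟩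
  have c1 : (B1.card : ℝ) ≤ (U'.card : ℝ) / 100 := by rw [hB1]; exact h.cU c hcD'
  have hxc := h.xc c hcD'
  have hAc := lko4_cardc hA c
  have c2 : (B2.card : ℝ) ≤ r * (3 * p * U.card) := by
    have : B2.card ≤ (A.filter (fun t => t.2 = c)).card * r := by
      rw [hB2]
      exact card_biUnion_le_card_mul _ _ _ fun t _ => lko4_in_card r (P t)
    have h2 : (B2.card : ℝ) ≤ ((vt T c \ U').card : ℝ) * r := by
      have := this.trans (Nat.mul_le_mul_right r hAc)
      exact_mod_cast this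
    have h3 : ((vt T c \ U').card : ℝ) * r ≤ (3 * p * U.card) * r :=
      mul_le_mul_of_nonneg_right hxc (Nat.cast_nonneg r)
    linarith
  have c3 : (B3.card : ℝ) ≤ 3 * p * U.card := by
    have : B3.card ≤ (vt T c \ U').card := by rw [hB3]; exact card_image_le
    have h2 : (B3.card : ℝ) ≤ ((vt T c \ U').card : ℝ) := by exact_mod_cast this
    linarith
  have c4 : (B4.card : ℝ) ≤ 3 * p * U.card := by
    have : B4.card ≤ (vt T c \ U').card := by rw [hB4]; exact card_image_le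
    have h2 : (B4.card : ℝ) ≤ ((vt T c \ U').card : ℝ) := by exact_mod_cast this
    linarith
  have c5 : (Z.card : ℝ) ≤ (U'.card : ℝ) / 100 := by
    have h1 := lko4_heavy (r := r) (B := B) (A := A) (P := P) Z (by
      intro w hw
      rw [hZ, mem_filter] at hw
      exact hw.2.le)
    have h2 : (A.card : ℝ) ≤ U.card * (p * U'.card) :=
      le_trans (by exact_mod_cast card_le_card hA) (lko4_cardA hp.le h)
    have h3 : (A.card : ℝ) * r ≤ (U.card * (p * U'.card)) * r :=
      mul_le_mul_of_nonneg_right h2 (Nat.cast_nonneg r)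
    have h4 : (Z.card : ℝ) * B ≤ (U'.card : ℝ) / 100 * B := by linarith
    exact le_of_mul_le_mul_right h4 hB
  obtain ⟨Bd, hBd⟩ : ∃ Bd : Finset V, Bd = B1 ∪ (B2 ∪ (B3 ∪ (B4 ∪ Z))) := ⟨_, rfl⟩
  have cBd : (Bd.card : ℝ) ≤ (U'.card : ℝ) / 50 + 3 * (r + 2) * (p * U.card) := by
    have : Bd.card ≤ B1.card + (B2.card + (B3.card + (B4.card + Z.card))) := by
      rw [hBd]
      refine (card_union_le _ _).trans (Nat.add_le_add_left ?_ _)
      refine (card_union_le _ _).trans (Nat.add_le_add_left ?_ _)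
      refine (card_union_le _ _).trans (Nat.add_le_add_left ?_ _)
      exact card_union_le _ _
    have h2 : (Bd.card : ℝ) ≤ B1.card + (B2.card + (B3.card + (B4.card + Z.card))) := by
      exact_mod_cast this
    linarith
  obtain ⟨ue, hue⟩ : ∃ ue : Finset (Sym2 V), ue = A.biUnion (fun t => lko4pe r (P t)) := ⟨_, rfl⟩
  have cue : ∀ u ∈ U', ((univ.filter (fun v => s(u, v) ∈ ue)).card : ℝ) ≤ 2 * (B + 1 + 2 * p * U.card) := by
    intro u hu
    have h1 := lko4_ecount hI u
    have h2 := lko4_touch h hX hA hI hu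
    rw [hue]
    have h3 : ((univ.filter (fun v => s(u, v) ∈ A.biUnion (fun t => lko4pe r (P t)))).card : ℝ)
      ≤ ((A.filter (fun t => u ∈ lko4all r (P t))).card : ℝ) * 2 := by exact_mod_cast h1
    linarith
  obtain ⟨Q, q0, q1, qm, qi, qe⟩ := lko4_seq hpath (U' \ U'') Bd
    (fun u v => (Sum.inl s(u, v) : Item V C) ∈ T ∧ (Sum.inl s(u, v) : Item V C) ∉ S ∧ s(u, v) ∉ ue)
    r a b hr hab (by
      intro u hu
      have huU : u ∈ U' := by
        rw [mem_insert] at hu
        rcases hu with e | hu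
        · rw [e]; exact haU
        · exact (mem_sdiff.1 hu).1
      have hsub : (nb T u ∩ nb T b ∩ U') \ U'' ⊆
          ((U' \ U'').filter (fun w => ((Sum.inl s(u, w) : Item V C) ∈ T ∧
            (Sum.inl s(u, w) : Item V C) ∉ S ∧ s(u, w) ∉ ue) ∧ ((Sum.inl s(w, b) : Item V C) ∈ T ∧
            (Sum.inl s(w, b) : Item V C) ∉ S ∧ s(w, b) ∉ ue))) ∪
          ((nb S u ∪ univ.filter (fun v => s(u, v) ∈ ue)) ∪
            (nb S b ∪ univ.filter (fun v => s(b, v) ∈ ue))) := by
        intro w hw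
        rw [mem_sdiff, mem_inter, mem_inter] at hw
        obtain ⟨⟨⟨h1, h2⟩, h3⟩, h4⟩ := hw
        have h1' : (Sum.inl s(u, w) : Item V C) ∈ T := by simpa [nb] using h1
        have h2' : (Sum.inl s(w, b) : Item V C) ∈ T := by
          rw [Sym2.eq_swap]; simpa [nb] using h2
        by_cases e1 : (Sum.inl s(u, w) : Item V C) ∈ S
        · simp only [mem_union]
          right; left; left
          simpa [nb] using e1
        by_cases e2 : s(u, w) ∈ ue
        · simp only [mem_union]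
          right; left; right
          rw [mem_filter]
          exact ⟨mem_univ _, e2⟩
        by_cases e3 : (Sum.inl s(w, b) : Item V C) ∈ S
        · simp only [mem_union]
          right; right; left
          rw [Sym2.eq_swap] at e3
          simpa [nb] using e3
        by_cases e4 : s(w, b) ∈ ue
        · simp only [mem_union]
          right; right; right
          rw [mem_filter]
          rw [Sym2.eq_swap] at e4
          exact ⟨mem_univ _, e4⟩
        rw [mem_union]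
        left
        rw [mem_filter, mem_sdiff]
        exact ⟨⟨h3, h4⟩, ⟨h1', e1, e2⟩, ⟨h2', e3, e4⟩⟩
      have hcard := card_le_card hsub
      have hcard2 := hcard.trans ((card_union_le _ _).trans (Nat.add_le_add_left
        ((card_union_le _ _).trans (Nat.add_le_add (card_union_le _ _) (card_union_le _ _))) _))
      have huu := h.uu u huU b hbU
      have s1 := hS4 u huU
      have s2 := hS4 b hbU
      have s3 := cue u huU
      have s4 := cue b hbU
      have hcard3 := (Nat.cast_le (α := ℝ)).2 hcard2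
      push_cast at hcard3
      have : ((Bd.card + r + 3 : ℕ) : ℝ) ≤ (((U' \ U'').filter (fun w => ((Sum.inl s(u, w) : Item V C) ∈ T ∧
            (Sum.inl s(u, w) : Item V C) ∉ S ∧ s(u, w) ∉ ue) ∧ ((Sum.inl s(w, b) : Item V C) ∈ T ∧
            (Sum.inl s(w, b) : Item V C) ∉ S ∧ s(w, b) ∉ ue))).card : ℝ) := by
        push_cast
        linarith
      exact_mod_cast this)
  have qU : ∀ j, 0 < j → j ≤ r → Q j ∈ U' ∧ Q j ∉ U'' := fun j h1 h2 => mem_sdiff.1 (qm j h1 h2).1
  have qBd : ∀ j, 0 < j → j ≤ r → Q j ∉ B1 ∧ Q j ∉ B2 ∧ Q j ∉ B3 ∧ Q j ∉ B4 ∧ Q j ∉ Z := by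
    intro j h1 h2
    have := (qm j h1 h2).2
    rw [hBd, mem_union, mem_union, mem_union, mem_union, not_or, not_or, not_or, not_or] at this
    exact this
  have hne : ∀ t ∈ A, t ≠ (x, c) := fun t ht e => htA (e ▸ ht)
  have hP : ∀ t ∈ A, Function.update P (x, c) Q t = P t := fun t ht => Function.update_of_ne (hne t ht) _ _
  have hP0 : Function.update P (x, c) Q (x, c) = Q := Function.update_self _ _ _
  have hedQ : ∀ t ∈ A, Disjoint (lko4pe r Q) (lko4pe r (P t)) := by
    intro t ht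
    rw [disjoint_left]
    intro e he1 he2
    rw [lko4_mem_pe] at he1
    obtain ⟨j, hj, ej⟩ := he1
    have := (qe j hj).2.2
    rw [← ej] at this
    apply this
    rw [hue, mem_biUnion]
    exact ⟨t, ht, he2⟩
  have hpdQ : ∀ t ∈ A, c = t.2 → Disjoint (lko4in r Q) (lko4in r (P t)) := by
    intro t ht hct
    rw [disjoint_left]
    intro v hv1 hv2
    rw [lko4_mem_in] at hv1
    obtain ⟨j, hj1, hj2, ej⟩ := hv1
    have := (qBd j hj1 hj2).2.1
    rw [ej] at this
    apply this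
    rw [hB2, mem_biUnion]
    exact ⟨t, mem_filter.2 ⟨ht, hct.symm⟩, hv2⟩
  refine ⟨Function.update P (x, c) Q, ?_, ?_, ?_, ?_, ?_, ?_, ?_, ?_, ?_, ?_⟩
  · intro t ht
    rw [mem_insert] at ht
    rcases ht with rfl | ht
    · rw [hP0, q0, ha]
    · rw [hP t ht]; exact hI.p0 t ht
  · intro t ht
    rw [mem_insert] at ht
    rcases ht with rfl | ht
    · rw [hP0, q1, hb]
    · rw [hP t ht]; exact hI.p1 t ht
  · intro t ht
    rw [mem_insert] at ht
    rcases ht with rfl | ht
    · rw [hP0]; exact qU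
    · rw [hP t ht]; exact hI.mem t ht
  · intro t ht
    rw [mem_insert] at ht
    rcases ht with rfl | ht
    · rw [hP0]; exact qi
    · rw [hP t ht]; exact hI.inj t ht
  · intro t ht
    rw [mem_insert] at ht
    rcases ht with rfl | ht
    · rw [hP0]; exact fun j hj => ⟨(qe j hj).1, (qe j hj).2.1⟩
    · rw [hP t ht]; exact hI.eT t ht
  · intro t ht
    rw [mem_insert] at ht
    rcases ht with rfl | ht
    · rw [hP0]
      intro j h1 h2
      have h3 := (qBd j h1 h2).1
      rw [hB1, mem_sdiff, not_and, not_not] at h3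
      have h4 := h3 (qU j h1 h2).1
      simpa [vt] using h4
    · rw [hP t ht]; exact hI.pT t ht
  · intro t ht t' ht' hne'
    rw [mem_insert] at ht ht'
    rcases ht with rfl | ht <;> rcases ht' with rfl | ht'
    · exact absurd rfl hne'
    · rw [hP0, hP t' ht']; exact hedQ t' ht'
    · rw [hP0, hP t ht]; exact (hedQ t ht).symm
    · rw [hP t ht, hP t' ht']; exact hI.ed t ht t' ht' hne'
  · intro t ht t' ht' hne' hcc
    rw [mem_insert] at ht ht'
    rcases ht with rfl | ht <;> rcases ht' with rfl | ht'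
    · exact absurd rfl hne'
    · rw [hP0, hP t' ht']; exact hpdQ t' ht' hcc
    · rw [hP0, hP t ht]; exact (hpdQ t ht hcc.symm).symm
    · rw [hP t ht, hP t' ht']; exact hI.pd t ht t' ht' hne' hcc
  · intro t ht
    rw [mem_insert] at ht
    rcases ht with rfl | ht
    · rw [hP0]
      intro j h1 h2 y hy hcy
      simp only at hcy ⊢
      have hyv : y ∈ vt T c \ U' := by
        rw [mem_sdiff]
        have : (Sum.inr (y, c) : Item V C) ∈ T := by simpa [cl] using hcy
        exact ⟨by simpa [vt] using this, (mem_sdiff.1 hy).2⟩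
      constructor
      · intro e
        apply (qBd j h1 h2).2.2.1
        rw [hB3, mem_image]
        exact ⟨y, hyv, e.symm⟩
      · intro e
        apply (qBd j h1 h2).2.2.2.1
        rw [hB4, mem_image]
        exact ⟨y, hyv, e.symm⟩
    · rw [hP t ht]; exact hI.pf t ht
  · intro u
    have hfe : (A.filter (fun t => u ∈ lko4in r (Function.update P (x, c) Q t)))
        = A.filter (fun t => u ∈ lko4in r (P t)) := by
      apply filter_congr
      intro t ht
      rw [hP t ht]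
    rw [filter_insert]
    split_ifs with hu
    · rw [hP0, lko4_mem_in] at hu
      obtain ⟨j, h1, h2, e⟩ := hu
      have h3 := (qBd j h1 h2).2.2.2.2
      rw [e, hZ, mem_filter, not_and, not_lt] at h3
      have h4 := h3 (mem_univ _)
      rw [hfe]
      have h5 : ((insert (x, c) (A.filter (fun t => u ∈ lko4in r (P t)))).card : ℝ)
          ≤ ((A.filter (fun t => u ∈ lko4in r (P t))).card : ℝ) + 1 := by
        exact_mod_cast card_insert_le _ _
      linarith
    · rw [hfe]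
      exact hI.dg u

/-- the greedy construction -/
theorem lko4_greedy (hpath : LkPathStmt) {r : ℕ} (hr : 1 ≤ r) {B p ε μ : ℝ} (hB : 0 < B) (hp : 0 < p) {ls : ℕ}
    {U U' U'' : Finset V} {D D' D'' : Finset C}
    {T S : Finset (Item V C)} {f g : V → C → V} (h : LinkHyp p ε μ ls U U' U'' D D' D'' T)
    (hS4 : ∀ u ∈ U', ((nb S u).card : ℝ) ≤ 4 * p * U.card)
    (hX : XMatch U U' U'' D'' T S f g)
    (hbad : (r : ℝ) * (U.card * (p * U'.card)) ≤ (U'.card : ℝ) / 100 * B)
    (hnum : (U'.card : ℝ) / 50 + 3 * (r + 2) * (p * U.card) + r + 3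
      ≤ (U'.card : ℝ) / 2 - 16 * (p * U.card) - 4 * B - 4) :
    ∃ P : V × C → ℕ → V, Lko4Inv r B U U' U'' T S f g (lko4A U U' T) P := by
  classical
  have key : ∀ A : Finset (V × C), A ⊆ lko4A U U' T →
      ∃ P : V × C → ℕ → V, Lko4Inv r B U U' U'' T S f g A P := by
    intro A
    induction A using Finset.induction_on with
    | empty => intro _; exact ⟨fun t _ => t.1, lko4_inv_empty hB.le _⟩
    | insert t A htA ih =>
      intro hA
      obtain ⟨P, hP⟩ := ih ((subset_insert t A).trans hA)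
      exact lko4_step hpath hr hB hp h hS4 hX hbad hnum ((subset_insert t A).trans hA) P hP t
        (hA (mem_insert_self t A)) htA
  exact key _ (Subset.refl _)

/-- the cycle through `x` and a path -/
def lko4z (x : V) (Q : ℕ → V) (j : ℕ) : V := if j = 0 then x else Q (j - 1)

theorem lko4z_zero (x : V) (Q : ℕ → V) : lko4z x Q 0 = x := by simp [lko4z]

theorem lko4z_succ (x : V) (Q : ℕ → V) (j : ℕ) : lko4z x Q (j + 1) = Q j := by simp [lko4z]

theorem lko4_cyc_inl {r : ℕ} {x : V} {Q : ℕ → V} {c : C} {e : Sym2 V} :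
    (Sum.inl e : Item V C) ∈ cyc (r + 3) (lko4z x Q) c ↔
      e = s(x, Q 0) ∨ e = s(x, Q (r + 1)) ∨ e ∈ lko4pe r Q := by
  have e0 : (0 + 1) % (r + 3) = 1 := Nat.mod_eq_of_lt (by omega)
  have e1 : ∀ k, k ≤ r → (k + 1 + 1) % (r + 3) = k + 1 + 1 := fun k hk => Nat.mod_eq_of_lt (by omega)
  have e2 : (r + 2 + 1) % (r + 3) = 0 := by
    have : r + 2 + 1 = r + 3 := by omega
    rw [this, Nat.mod_self]
  unfold cyc
  simp only [mem_union, mem_image, mem_range, Sum.inl.injEq, reduceCtorEq, and_false, exists_false, or_false]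
  constructor
  · rintro ⟨i, hi, h⟩
    by_cases h0 : i = 0
    · subst h0
      rw [e0, lko4z_zero, lko4z_succ] at h
      exact Or.inl h.symm
    · by_cases h1 : i = r + 2
      · subst h1
        rw [e2, lko4z_zero, lko4z_succ, Sym2.eq_swap] at h
        exact Or.inr (Or.inl h.symm)
      · obtain ⟨k, rfl⟩ : ∃ k, i = k + 1 := ⟨i - 1, by omega⟩
        rw [e1 k (by omega), lko4z_succ, lko4z_succ] at h
        right; right
        rw [lko4_mem_pe]
        exact ⟨k, by omega, h.symm⟩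
  · rintro (h | h | h)
    · refine ⟨0, by omega, ?_⟩
      rw [e0, lko4z_zero, lko4z_succ, h]
    · refine ⟨r + 2, by omega, ?_⟩
      rw [e2, lko4z_zero, lko4z_succ, h, Sym2.eq_swap]
    · rw [lko4_mem_pe] at h
      obtain ⟨k, hk, h⟩ := h
      refine ⟨k + 1, by omega, ?_⟩
      rw [e1 k hk, lko4z_succ, lko4z_succ, h]

theorem lko4_cyc_inr {r : ℕ} {x v : V} {Q : ℕ → V} {c c' : C} :
    (Sum.inr (v, c') : Item V C) ∈ cyc (r + 3) (lko4z x Q) c ↔ c' = c ∧ (v = x ∨ v ∈ lko4all r Q) := by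
  unfold cyc
  simp only [mem_union, mem_image, mem_range, Sum.inr.injEq, reduceCtorEq, and_false, exists_false, false_or,
    Prod.mk.injEq]
  rw [lko4_mem_all]
  constructor
  · rintro ⟨i, hi, h, h2⟩
    refine ⟨h2.symm, ?_⟩
    by_cases h0 : i = 0
    · subst h0
      rw [lko4z_zero] at h
      exact Or.inl h.symm
    · obtain ⟨k, rfl⟩ : ∃ k, i = k + 1 := ⟨i - 1, by omega⟩
      rw [lko4z_succ] at h
      exact Or.inr ⟨k, by omega, h⟩
  · rintro ⟨h1, h2 | ⟨k, hk, h2⟩⟩
    · exact ⟨0, by omega, by rw [lko4z_zero, h2], h1.symm⟩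
    · exact ⟨k + 1, by omega, by rw [lko4z_succ, h2], h1.symm⟩

/-- all the vertices of the paths are in `U'` -/
theorem lko4_allU {r : ℕ} {B p ε μ : ℝ} {ls : ℕ} {U U' U'' : Finset V} {D D' D'' : Finset C}
    {T S : Finset (Item V C)} {f g : V → C → V} (h : LinkHyp p ε μ ls U U' U'' D D' D'' T)
    (hX : XMatch U U' U'' D'' T S f g) {P : V × C → ℕ → V}
    (hI : Lko4Inv r B U U' U'' T S f g (lko4A U U' T) P) {t : V × C} (ht : t ∈ lko4A U U' T) {j : ℕ}
    (hj : j ≤ r + 1) : P t j ∈ U' := by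
  have h1 := lko4_mem.1 ht
  by_cases h0 : j = 0
  · subst h0
    rw [hI.p0 t ht]
    exact lko4_nbsub h h1.1 (hX.memf _ h1.1 _ h1.2)
  · by_cases h2 : j = r + 1
    · subst h2
      rw [hI.p1 t ht]
      exact lko4_nbsub h h1.1 (hX.memg _ h1.1 _ h1.2)
    · exact (hI.mem t ht j (by omega) (by omega)).1

theorem lko4_peU {r : ℕ} {U' : Finset V} {Q : ℕ → V} (hQ : ∀ j, j ≤ r + 1 → Q j ∈ U') {u v : V}
    (he : s(u, v) ∈ lko4pe r Q) : u ∈ U' ∧ v ∈ U' := by
  rw [lko4_mem_pe] at he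
  obtain ⟨j, hj, e⟩ := he
  rw [Sym2.eq_iff] at e
  rcases e with ⟨e1, e2⟩ | ⟨e1, e2⟩
  · rw [e1, e2]; exact ⟨hQ j (by omega), hQ (j + 1) (by omega)⟩
  · rw [e1, e2]; exact ⟨hQ (j + 1) (by omega), hQ j (by omega)⟩

theorem lko4_xx {p ε μ : ℝ} {ls : ℕ} {U U' U'' : Finset V} {D D' D'' : Finset C}
    {T S : Finset (Item V C)} {f g : V → C → V} (h : LinkHyp p ε μ ls U U' U'' D D' D'' T)
    (hX : XMatch U U' U'' D'' T S f g) {x x' : V} {c c' : C}
    (hx : x ∈ U \ U') (hc : c ∈ cl T x) (hx' : x' ∈ U \ U') (hc' : c' ∈ cl T x') {a a' : V}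
    (ha : a = f x c ∨ a = g x c) (ha' : a' = f x' c' ∨ a' = g x' c') (e : s(x, a) = s(x', a')) :
    (x, c) = (x', c') := by
  have haU : a ∈ U' := by
    rcases ha with rfl | rfl
    · exact lko4_nbsub h hx (hX.memf x hx c hc)
    · exact lko4_nbsub h hx (hX.memg x hx c hc)
  have hxU := (mem_sdiff.1 hx).2
  have hxU' := (mem_sdiff.1 hx').2
  rw [Sym2.eq_iff] at e
  rcases e with ⟨e1, e2⟩ | ⟨e1, e2⟩
  · subst e1 e2
    by_contra hcon
    have hcc : c ≠ c' := fun hc => hcon (by rw [hc])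
    have hi := hX.inj x hx c hc c' hc' hcc
    rcases ha with e1 | e1 <;> rcases ha' with e2 | e2
    · exact hi.1 (e1.symm.trans e2)
    · exact hX.fg x hx c hc c' hc' (e1.symm.trans e2)
    · exact hX.fg x hx c' hc' c hc (e2.symm.trans e1)
    · exact hi.2 (e1.symm.trans e2)
  · exact absurd (e2 ▸ haU) hxU'

/-- different tasks have disjoint pieces -/
theorem lko4_disj {r : ℕ} {B p ε μ : ℝ} {ls : ℕ} {U U' U'' : Finset V} {D D' D'' : Finset C}
    {T S : Finset (Item V C)} {f g : V → C → V} (h : LinkHyp p ε μ ls U U' U'' D D' D'' T)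
    (hX : XMatch U U' U'' D'' T S f g) {P : V × C → ℕ → V}
    (hI : Lko4Inv r B U U' U'' T S f g (lko4A U U' T) P) {t t' : V × C} (ht : t ∈ lko4A U U' T)
    (ht' : t' ∈ lko4A U U' T) (hne : t ≠ t') :
    Disjoint (cyc (r + 3) (lko4z t.1 (P t)) t.2) (cyc (r + 3) (lko4z t'.1 (P t')) t'.2) := by
  have hm := lko4_mem.1 ht
  have hm' := lko4_mem.1 ht'
  have hxU := (mem_sdiff.1 hm.1).2
  have hxU' := (mem_sdiff.1 hm'.1).2
  have hall : ∀ j, j ≤ r + 1 → P t j ∈ U' := fun j hj => lko4_allU h hX hI ht hj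
  have hall' : ∀ j, j ≤ r + 1 → P t' j ∈ U' := fun j hj => lko4_allU h hX hI ht' hj
  rw [disjoint_left]
  rintro (e | ⟨v, c'⟩) h1 h2
  · rw [lko4_cyc_inl, hI.p0 t ht, hI.p1 t ht] at h1
    rw [lko4_cyc_inl, hI.p0 t' ht', hI.p1 t' ht'] at h2
    have h1' : (∃ a, (a = f t.1 t.2 ∨ a = g t.1 t.2) ∧ e = s(t.1, a)) ∨ e ∈ lko4pe r (P t) := by
      rcases h1 with h1 | h1 | h1
      · exact Or.inl ⟨_, Or.inl rfl, h1⟩
      · exact Or.inl ⟨_, Or.inr rfl, h1⟩
      · exact Or.inr h1
    have h2' : (∃ a, (a = f t'.1 t'.2 ∨ a = g t'.1 t'.2) ∧ e = s(t'.1, a)) ∨ e ∈ lko4pe r (P t') := by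
      rcases h2 with h2 | h2 | h2
      · exact Or.inl ⟨_, Or.inl rfl, h2⟩
      · exact Or.inl ⟨_, Or.inr rfl, h2⟩
      · exact Or.inr h2
    rcases h1' with ⟨a, ha, ea⟩ | h1'
    · rcases h2' with ⟨a', ha', ea'⟩ | h2'
      · exact hne (lko4_xx h hX hm.1 hm.2 hm'.1 hm'.2 ha ha' (ea.symm.trans ea'))
      · rw [ea] at h2'
        exact hxU (lko4_peU hall' h2').1
    · rcases h2' with ⟨a', ha', ea'⟩ | h2'
      · rw [ea'] at h1'
        exact hxU' (lko4_peU hall h1').1
      · exact disjoint_left.1 (hI.ed t ht t' ht' hne) h1' h2'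
  · rw [lko4_cyc_inr] at h1 h2
    obtain ⟨hc1, h1⟩ := h1
    obtain ⟨hc2, h2⟩ := h2
    have hcc : t.2 = t'.2 := hc1.symm.trans hc2
    have hxx : t.1 ≠ t'.1 := fun hx => hne (Prod.ext hx hcc)
    rcases h1 with e1 | h1
    · rcases h2 with e2 | h2
      · exact hxx (e1.symm.trans e2)
      · rw [lko4_mem_all] at h2
        obtain ⟨j, hj, e2⟩ := h2
        exact hxU (e1 ▸ e2 ▸ hall' j hj)
    · rcases h2 with e2 | h2
      · rw [lko4_mem_all] at h1
        obtain ⟨j, hj, e1⟩ := h1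
        exact hxU' (e2 ▸ e1 ▸ hall j hj)
      · have hA1 : v ∈ lko4in r (P t) ∨ v = f t.1 t.2 ∨ v = g t.1 t.2 := by
          rw [lko4_mem_all] at h1
          obtain ⟨j, hj, e⟩ := h1
          by_cases h0 : j = 0
          · subst h0
            right; left
            rw [← e, hI.p0 t ht]
          · by_cases h1 : j = r + 1
            · subst h1
              right; right
              rw [← e, hI.p1 t ht]
            · left
              rw [lko4_mem_in]
              exact ⟨j, by omega, by omega, e⟩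
        have hA2 : v ∈ lko4in r (P t') ∨ v = f t'.1 t'.2 ∨ v = g t'.1 t'.2 := by
          rw [lko4_mem_all] at h2
          obtain ⟨j, hj, e⟩ := h2
          by_cases h0 : j = 0
          · subst h0
            right; left
            rw [← e, hI.p0 t' ht']
          · by_cases h1 : j = r + 1
            · subst h1
              right; right
              rw [← e, hI.p1 t' ht']
            · left
              rw [lko4_mem_in]
              exact ⟨j, by omega, by omega, e⟩
        have hc' : t.2 ∈ cl T t'.1 := by rw [hcc]; exact hm'.2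
        have hc'' : t'.2 ∈ cl T t.1 := by rw [← hcc]; exact hm.2
        rcases hA1 with hA1 | hA1
        · rcases hA2 with hA2 | hA2
          · exact disjoint_left.1 (hI.pd t ht t' ht' hne hcc) hA1 hA2
          · rw [lko4_mem_in] at hA1
            obtain ⟨j, hj1, hj2, e⟩ := hA1
            have := hI.pf t ht j hj1 hj2 t'.1 hm'.1 hc'
            rw [e, hcc] at this
            rcases hA2 with hA2 | hA2
            · exact this.1 hA2
            · exact this.2 hA2
        · rcases hA2 with hA2 | hA2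
          · rw [lko4_mem_in] at hA2
            obtain ⟨j, hj1, hj2, e⟩ := hA2
            have := hI.pf t' ht' j hj1 hj2 t.1 hm.1 hc''
            rw [e, ← hcc] at this
            rcases hA1 with hA1 | hA1
            · exact this.1 hA1
            · exact this.2 hA1
          · have k1 := hX.cc t.1 hm.1 t'.1 hm'.1 hxx t.2 hm.2 hc'
            have k2 := hX.cc t'.1 hm'.1 t.1 hm.1 (Ne.symm hxx) t.2 hc' hm.2
            rw [← hcc] at hA2
            rcases hA1 with hA1 | hA1 <;> rcases hA2 with hA2 | hA2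
            · exact k1.1 (hA1.symm.trans hA2)
            · exact k1.2.1 (hA1.symm.trans hA2)
            · exact k2.2.1 (hA2.symm.trans hA1)
            · exact k1.2.2 (hA1.symm.trans hA2)

/-- the output -/
theorem lko4_out {r : ℕ} (hr : 1 ≤ r) {B p ε μ K : ℝ} {U U' U'' : Finset V} {D D' D'' : Finset C}
    {T S : Finset (Item V C)} {f g : V → C → V} (h : LinkHyp p ε μ (r + 3) U U' U'' D D' D'' T)
    (hSp : ∀ v c, (Sum.inr (v, c) : Item V C) ∈ S → c ∈ D \ D')
    (hSe : ∀ u v, (Sum.inl s(u, v) : Item V C) ∈ S → u ∈ U' ∧ v ∈ U')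
    (hX : XMatch U U' U'' D'' T S f g) {P : V × C → ℕ → V}
    (hI : Lko4Inv r B U U' U'' T S f g (lko4A U U' T) P)
    (hB : 0 ≤ B + 1 + 2 * p * U.card)
    (hK1 : 2 * (B + 1 + 2 * p * U.card) ≤ K * p * U.card)
    (hK2 : (r + 2) * (3 * p * U.card) ≤ K * p * U.card) :
    ∃ F : Finset (Finset (Item V C)), XOut K p (r + 3) U U' U'' D' D'' T S F := by
  classical
  obtain ⟨F, hF⟩ : ∃ F : Finset (Finset (Item V C)),
    F = (lko4A U U' T).image (fun t => cyc (r + 3) (lko4z t.1 (P t)) t.2) := ⟨_, rfl⟩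
  have hun : ∀ i : Item V C, i ∈ un F ↔ ∃ t ∈ lko4A U U' T, i ∈ cyc (r + 3) (lko4z t.1 (P t)) t.2 := by
    intro i
    rw [hF]
    simp [un]
  have hall : ∀ t ∈ lko4A U U' T, ∀ j, j ≤ r + 1 → P t j ∈ U' := fun t ht j hj => lko4_allU h hX hI ht hj
  have hxf : ∀ t ∈ lko4A U U' T, (Sum.inl s(t.1, P t 0) : Item V C) ∈ T := by
    intro t ht
    have hm := lko4_mem.1 ht
    rw [hI.p0 t ht]
    have := hX.memf t.1 hm.1 t.2 hm.2
    simpa [nb] using this
  have hxg : ∀ t ∈ lko4A U U' T, (Sum.inl s(t.1, P t (r + 1)) : Item V C) ∈ T := by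
    intro t ht
    have hm := lko4_mem.1 ht
    rw [hI.p1 t ht]
    have := hX.memg t.1 hm.1 t.2 hm.2
    simpa [nb] using this
  have hpc : ∀ t ∈ lko4A U U' T, ∀ v ∈ lko4all r (P t), (Sum.inr (v, t.2) : Item V C) ∈ T ∧
      ¬ (v ∈ U'' ∧ t.2 ∈ D'') := by
    intro t ht v hv
    have hm := lko4_mem.1 ht
    rw [lko4_mem_all] at hv
    obtain ⟨j, hj, rfl⟩ := hv
    by_cases h0 : j = 0
    · subst h0
      rw [hI.p0 t ht]
      exact hX.cf _ hm.1 _ hm.2
    · by_cases h1 : j = r + 1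
      · subst h1
        rw [hI.p1 t ht]
        exact hX.cg _ hm.1 _ hm.2
      · exact ⟨hI.pT t ht j (by omega) (by omega), fun hcon => (hI.mem t ht j (by omega) (by omega)).2 hcon.1⟩
  -- an edge of `un F` at a vertex of `U'` with the other end in `U'` is a path edge
  have hedge : ∀ u ∈ U', ∀ v ∈ U', (Sum.inl s(u, v) : Item V C) ∈ un F →
      s(u, v) ∈ (lko4A U U' T).biUnion (fun t => lko4pe r (P t)) := by
    intro u hu v hv he
    rw [hun] at he
    obtain ⟨t, ht, he⟩ := he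
    have hxU := (mem_sdiff.1 (lko4_mem.1 ht).1).2
    rw [lko4_cyc_inl] at he
    rw [mem_biUnion]
    rcases he with he | he | he
    · rw [Sym2.eq_iff] at he
      rcases he with ⟨e1, _⟩ | ⟨_, e2⟩
      · exact absurd (e1 ▸ hu) hxU
      · exact absurd (e2 ▸ hv) hxU
    · rw [Sym2.eq_iff] at he
      rcases he with ⟨e1, _⟩ | ⟨_, e2⟩
      · exact absurd (e1 ▸ hu) hxU
      · exact absurd (e2 ▸ hv) hxU
    · exact ⟨t, ht, he⟩
  have hpair : ∀ u ∈ U', ∀ c, (Sum.inr (u, c) : Item V C) ∈ un F →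
      ∃ t ∈ lko4A U U' T, t.2 = c ∧ u ∈ lko4all r (P t) := by
    intro u hu c he
    rw [hun] at he
    obtain ⟨t, ht, he⟩ := he
    have hxU := (mem_sdiff.1 (lko4_mem.1 ht).1).2
    rw [lko4_cyc_inr] at he
    obtain ⟨hc, he⟩ := he
    rcases he with e | he
    · exact absurd (e ▸ hu) hxU
    · exact ⟨t, ht, hc.symm, he⟩
  have hpeT : ∀ t ∈ lko4A U U' T, ∀ e ∈ lko4pe r (P t), (Sum.inl e : Item V C) ∈ T ∧ (Sum.inl e : Item V C) ∉ S := by
    intro t ht e he
    rw [lko4_mem_pe] at he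
    obtain ⟨j, hj, rfl⟩ := he
    exact hI.eT t ht j hj
  refine ⟨F, ?_, ?_, ?_, ?_, ?_, ?_, ?_, ?_, ?_, ?_⟩
  · -- pc
    intro q hq
    rw [hF, mem_image] at hq
    obtain ⟨t, ht, rfl⟩ := hq
    have hm := lko4_mem.1 ht
    refine ⟨?_, t.2, lko4_clsub h hm.1 hm.2, by omega, lko4z t.1 (P t), ?_, rfl⟩
    · rintro (e | ⟨v, c'⟩) hi
      · rw [lko4_cyc_inl] at hi
        rcases hi with hi | hi | hi
        · rw [hi]; exact hxf t ht
        · rw [hi]; exact hxg t ht
        · exact (hpeT t ht e hi).1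
      · rw [lko4_cyc_inr] at hi
        obtain ⟨rfl, hi⟩ := hi
        rcases hi with rfl | hi
        · have := hm.2
          simpa [cl] using this
        · exact (hpc t ht v hi).1
    · have hxU := (mem_sdiff.1 hm.1).2
      intro i hi j hj e
      rw [Set.mem_Iio] at hi hj
      by_cases hi0 : i = 0
      · by_cases hj0 : j = 0
        · rw [hi0, hj0]
        · obtain ⟨k, rfl⟩ : ∃ k, j = k + 1 := ⟨j - 1, by omega⟩
          subst hi0
          simp only [lko4z_zero, lko4z_succ] at e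
          exact absurd (e ▸ hall t ht k (by omega)) hxU
      · obtain ⟨k, rfl⟩ : ∃ k, i = k + 1 := ⟨i - 1, by omega⟩
        by_cases hj0 : j = 0
        · subst hj0
          simp only [lko4z_zero, lko4z_succ] at e
          exact absurd (e ▸ hall t ht k (by omega)) hxU
        · obtain ⟨k', rfl⟩ : ∃ k, j = k + 1 := ⟨j - 1, by omega⟩
          simp only [lko4z_succ] at e
          rw [hI.inj t ht k k' (by omega) (by omega) e]
  · -- pd
    intro q hq q' hq' hne
    rw [hF, mem_image] at hq hq'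
    obtain ⟨t, ht, rfl⟩ := hq
    obtain ⟨t', ht', rfl⟩ := hq'
    exact lko4_disj h hX hI ht ht' (fun e => hne (by rw [e]))
  · -- dj
    rw [disjoint_left]
    intro i hi hiS
    rw [hun] at hi
    obtain ⟨t, ht, hi⟩ := hi
    have hm := lko4_mem.1 ht
    have hxU := (mem_sdiff.1 hm.1).2
    rcases i with e | ⟨v, c'⟩
    · rw [lko4_cyc_inl] at hi
      rcases hi with hi | hi | hi
      · rw [hi] at hiS
        exact hxU (hSe _ _ hiS).1
      · rw [hi] at hiS
        exact hxU (hSe _ _ hiS).1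
      · exact (hpeT t ht e hi).2 hiS
    · rw [lko4_cyc_inr] at hi
      obtain ⟨rfl, _⟩ := hi
      exact (mem_sdiff.1 (hSp _ _ hiS)).2 (lko4_clsub h hm.1 hm.2)
  · -- ex
    intro x hx u hu
    rw [hun]
    obtain ⟨c, hc, e⟩ := hX.sur x hx u hu
    have ht : (x, c) ∈ lko4A U U' T := lko4_mem.2 ⟨hx, hc⟩
    refine ⟨(x, c), ht, ?_⟩
    rw [lko4_cyc_inl, hI.p0 _ ht, hI.p1 _ ht]
    rcases e with e | e
    · left; rw [e]
    · right; left; rw [e]
  · -- cx
    intro x hx c hc
    rw [hun]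
    refine ⟨(x, c), lko4_mem.2 ⟨hx, hc⟩, ?_⟩
    rw [lko4_cyc_inr]
    exact ⟨rfl, Or.inl rfl⟩
  · -- l1
    intro u hu
    have h1 : nb (un F) u ∩ U' ⊆
        univ.filter (fun v => s(u, v) ∈ (lko4A U U' T).biUnion (fun t => lko4pe r (P t))) := by
      intro v hv
      rw [mem_inter] at hv
      rw [mem_filter]
      refine ⟨mem_univ _, hedge u hu v hv.2 ?_⟩
      simpa [nb] using hv.1
    have h2 := (card_le_card h1).trans (lko4_ecount hI u)
    have h3 := lko4_touch h hX (Subset.refl _) hI hu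
    have h4 : ((nb (un F) u ∩ U').card : ℝ) ≤ (((lko4A U U' T).filter (fun t => u ∈ lko4all r (P t))).card : ℝ) * 2 := by
      exact_mod_cast h2
    linarith
  · -- l2
    intro u hu
    have h1 : cl (un F) u ∩ D' ⊆ ((lko4A U U' T).filter (fun t => u ∈ lko4all r (P t))).image (fun t => t.2) := by
      intro c hc
      rw [mem_inter] at hc
      have hc1 : (Sum.inr (u, c) : Item V C) ∈ un F := by simpa [cl] using hc.1
      obtain ⟨t, ht, h1, h2⟩ := hpair u hu c hc1
      rw [mem_image]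
      exact ⟨t, mem_filter.2 ⟨ht, h2⟩, h1⟩
    have h2 := (card_le_card h1).trans card_image_le
    have h3 := lko4_touch h hX (Subset.refl _) hI hu
    have h4 : ((cl (un F) u ∩ D').card : ℝ) ≤ (((lko4A U U' T).filter (fun t => u ∈ lko4all r (P t))).card : ℝ) := by
      exact_mod_cast h2
    linarith
  · -- l3
    intro c hc
    have h1 : vt (un F) c ∩ U' ⊆ ((lko4A U U' T).filter (fun t => t.2 = c)).biUnion (fun t => lko4all r (P t)) := by
      intro v hv
      rw [mem_inter] at hv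
      have hv1 : (Sum.inr (v, c) : Item V C) ∈ un F := by simpa [vt] using hv.1
      obtain ⟨t, ht, h1, h2⟩ := hpair v hv.2 c hv1
      rw [mem_biUnion]
      exact ⟨t, mem_filter.2 ⟨ht, h1⟩, h2⟩
    have h2 : (vt (un F) c ∩ U').card ≤ ((lko4A U U' T).filter (fun t => t.2 = c)).card * (r + 2) := by
      refine (card_le_card h1).trans (card_biUnion_le_card_mul _ _ _ fun t _ => ?_)
      unfold lko4all
      refine card_image_le.trans ?_
      simp
    have h3 := h2.trans (Nat.mul_le_mul_right (r + 2) (lko4_cardc (Subset.refl _) c))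
    have h4 : ((vt (un F) c ∩ U').card : ℝ) ≤ ((vt T c \ U').card : ℝ) * (r + 2) := by exact_mod_cast h3
    have h5 := mul_le_mul_of_nonneg_right (h.xc c hc) (show (0 : ℝ) ≤ (r : ℝ) + 2 by positivity)
    linarith
  · -- n1
    intro u hu v hv he
    have := hedge u (h.subU'' hu) v (h.subU'' hv) he
    rw [mem_biUnion] at this
    obtain ⟨t, ht, he⟩ := this
    rw [lko4_mem_pe] at he
    obtain ⟨j, hj, e⟩ := he
    have hin : ∃ w, (w = u ∨ w = v) ∧ w ∉ U'' := by
      by_cases hj0 : j = 0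
      · subst hj0
        refine ⟨P t (0 + 1), ?_, (hI.mem t ht (0 + 1) (by omega) (by omega)).2⟩
        rw [Sym2.eq_iff] at e
        rcases e with ⟨_, e2⟩ | ⟨e1, _⟩
        · exact Or.inr e2.symm
        · exact Or.inl e1.symm
      · refine ⟨P t j, ?_, (hI.mem t ht j (by omega) hj).2⟩
        rw [Sym2.eq_iff] at e
        rcases e with ⟨e1, _⟩ | ⟨_, e2⟩
        · exact Or.inl e1.symm
        · exact Or.inr e2.symm
    obtain ⟨w, hw, hwU⟩ := hin
    rcases hw with rfl | rfl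
    · exact hwU hu
    · exact hwU hv
  · -- n2
    intro u hu c hc he
    obtain ⟨t, ht, h1, h2⟩ := hpair u (h.subU'' hu) c he
    have := (hpc t ht u h2).2
    rw [h1] at this
    exact this ⟨hu, hc⟩

end

theorem lk_o4 (hpath : LkPathStmt) : LkO4Stmt := by
  intro ls hls
  obtain ⟨r, rfl⟩ : ∃ r, ls = r + 3 := ⟨ls - 3, by omega⟩
  have hr : 1 ≤ r := by omega
  have hr0 : (0 : ℝ) ≤ (r : ℝ) := Nat.cast_nonneg r
  refine ⟨210 * ((r : ℝ) + 3), by positivity, fun μ hμ hμ1 => ?_⟩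
  refine ⟨μ / (8400 * ((r : ℝ) + 3)), by positivity, fun p hp hpp => ?_⟩
  obtain ⟨m₀, hm₀⟩ := exists_nat_ge (max (1 / p) (20 * ((r : ℝ) + 7) / μ))
  refine ⟨m₀, ?_⟩
  intro V C _ _ _ _ ε U U' U'' D D' D'' T S f g hm h hSp hSe hS4 hX
  have hm1 : (m₀ : ℝ) ≤ U.card := by exact_mod_cast hm
  have h1 : 1 / p ≤ U.card := (le_max_left _ _).trans (hm₀.trans hm1)
  have h2 : 20 * ((r : ℝ) + 7) / μ ≤ U.card := (le_max_right _ _).trans (hm₀.trans hm1)
  have hpm : 1 ≤ p * U.card := by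
    rw [div_le_iff₀ hp] at h1
    linarith
  have hμm : 20 * ((r : ℝ) + 7) ≤ μ * U.card := by
    rw [div_le_iff₀ hμ] at h2
    linarith
  have hUlo := h.Ulo
  have hM : μ * U.card ≤ 2 * U'.card := by linarith
  have hp2 : p * (8400 * ((r : ℝ) + 3)) ≤ μ := by
    rw [le_div_iff₀ (by positivity)] at hpp
    exact hpp
  have hm0 : (0 : ℝ) ≤ U.card := Nat.cast_nonneg _
  have hM0 : (0 : ℝ) ≤ U'.card := Nat.cast_nonneg _
  have h3 : p * (8400 * ((r : ℝ) + 3)) * U.card ≤ 2 * U'.card :=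
    (mul_le_mul_of_nonneg_right hp2 hm0).trans hM
  obtain ⟨q, hq⟩ : ∃ q : ℝ, q = p * U.card := ⟨_, rfl⟩
  have hq1 : 1 ≤ q := by rw [hq]; exact hpm
  have h4 : 8400 * (((r : ℝ) + 3) * q) ≤ 2 * U'.card := by
    rw [hq]
    linarith
  have h5 : (0 : ℝ) ≤ r * q := mul_nonneg hr0 (by linarith)
  have hBpos : (0 : ℝ) < 100 * (((r : ℝ) + 3) * q) := by positivity
  obtain ⟨P, hP⟩ := lko4_greedy (B := 100 * (((r : ℝ) + 3) * q)) hpath hr hBpos hp h hS4 hX
    (by
      have e1 : (U'.card : ℝ) / 100 * (100 * (((r : ℝ) + 3) * q)) = (r + 3) * (U.card * (p * U'.card)) := by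
        rw [hq]; ring
      rw [e1]
      apply mul_le_mul_of_nonneg_right (by linarith)
      positivity)
    (by
      rw [← hq]
      nlinarith)
  exact lko4_out hr h hSp hSe hX hP (by
      have e1 : 2 * p * (U.card : ℝ) = 2 * q := by rw [hq]; ring
      rw [e1]
      linarith)
    (by
      have e1 : 2 * p * (U.card : ℝ) = 2 * q := by rw [hq]; ring
      have e2 : 210 * ((r : ℝ) + 3) * p * U.card = 210 * ((r + 3) * q) := by rw [hq]; ring
      rw [e1, e2]
      nlinarith)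
    (by
      have e1 : 3 * p * (U.card : ℝ) = 3 * q := by rw [hq]; ring
      have e2 : 210 * ((r : ℝ) + 3) * p * U.card = 210 * ((r + 3) * q) := by rw [hq]; ring
      rw [e1, e2]
      nlinarith)

end Pool.Agent.OBW
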