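import Mathlib
import Pool.Agent.OBW.LkStmts

/-!
# LkOne : theorem lk_one (hpm : PmStmt) : LkOneStmt

Put n₀ = ⌈ε k⌉₊ (> 0, ε k ≤ n₀). CLAIM(r), 1 ≤ r ≤ l, by induction on r: there are Ω (finite, nonempty) and z with
 z ω u 0 = u; for a < r: z ω u a ∈ P a, injective in u ∈ P 0 (hence bijective P 0 → P a, same cardinality);
 for a+1 < r: H (z ω u a) (z ω u (a+1)); if r = l: H (z ω u (l-1)) (z ω u 0); and
 (prob) for a+1 < r, all v w: n₀ * #{ω | ∃ u ∈ P 0, z ω u a = v ∧ z ω u (a+1) = w} ≤ |Ω|;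
        if r = l, all v w: n₀ * #{ω | ∃ u ∈ P 0, z ω u (l-1) = v ∧ z ω u 0 = w} ≤ |Ω|.
r = 1: Ω = Unit, z _ u a = u.
r → r+1 (r < l): for every ω apply PmStmt to A := P 0, B := P r, R u v := H (z ω u (r-1)) v ∧ (r = l-1 → H u v), ε.
 degree of u ∈ P 0: both sets {v ∈ P r : H (z ω u (r-1)) v}, {v ∈ P r : H u v} have ≥ (3/4+ε)k elements of the k, so the
 intersection has ≥ (1/2+2ε)k ≥ (1/2+ε) k. degree of v ∈ P r: {u ∈ P 0 : H (z ω u (r-1)) v} has the same size as
 {w ∈ P (r-1) : H w v} (bijection u ↦ z ω u (r-1)), ≥ (3/4+ε)k by symmetry of H; {u ∈ P 0 : H u v} too. So PM gives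
 n ≥ ε k, hence n ≥ n₀, matchings; choose them by choice for every ω, keep the first n₀: G ω : Fin n₀ → V → V.
 Ω' = Ω × Fin n₀, z' (ω,j) u a = if a = r then G ω j u else z ω u a.
 (prob) for a = r-1: for fixed ω: u with z ω u (r-1) = v is unique, and G ω j u = w holds for at most one j (option maps
 differ at every point), so #{(ω,j)} ≤ |Ω| = |Ω'|/n₀. Closing edges: same with u = w. Old ones: both sides times n₀.
END (r = l): H (z u a) (z u ((a+1)%l)) for all a < l; and s(v,w) = s(z u a, z u ((a+1)%l)) for some a<l implies that one of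
the 2l events (a; (v,w) or (w,v)) happens, so ε k * # ≤ n₀ * # ≤ 2 l |Ω| (card of a union ≤ sum).
-/

set_option autoImplicit false
namespace Pool.Agent.OBW
open Finset

/-- the number of `ω` with `Q ω` -/
noncomputable def lkOne_ct {Ω : Type} [Fintype Ω] (Q : Ω → Prop) : ℕ :=
  (@Finset.filter Ω Q (fun a => Classical.propDecidable (Q a)) univ).card

theorem lkOne_ct_eq {Ω : Type} [Fintype Ω] (Q : Ω → Prop) [DecidablePred Q] :
    (univ.filter Q).card = lkOne_ct Q := by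
  unfold lkOne_ct
  refine congrArg Finset.card (Finset.ext fun x => ?_)
  exact ⟨fun h => (@Finset.mem_filter Ω Q (fun a => Classical.propDecidable (Q a)) univ x).2
    (Finset.mem_filter.1 h), fun h => Finset.mem_filter.2
    ((@Finset.mem_filter Ω Q (fun a => Classical.propDecidable (Q a)) univ x).1 h)⟩

theorem lkOne_ct_mono {Ω : Type} [Fintype Ω] {Q Q' : Ω → Prop} (h : ∀ ω, Q ω → Q' ω) :
    lkOne_ct Q ≤ lkOne_ct Q' := by
  classical
  rw [← lkOne_ct_eq, ← lkOne_ct_eq]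
  exact Finset.card_le_card (Finset.monotone_filter_right _ (fun x _ hx => h x hx))

theorem lkOne_ct_or {Ω : Type} [Fintype Ω] (Q Q' : Ω → Prop) :
    lkOne_ct (fun ω => Q ω ∨ Q' ω) ≤ lkOne_ct Q + lkOne_ct Q' := by
  classical
  rw [← lkOne_ct_eq, ← lkOne_ct_eq, ← lkOne_ct_eq, Finset.filter_or]
  exact Finset.card_union_le _ _

theorem lkOne_ct_ex {Ω : Type} [Fintype Ω] (l : ℕ) (Q : ℕ → Ω → Prop) :
    lkOne_ct (fun ω => ∃ a < l, Q a ω) ≤ ∑ a ∈ range l, lkOne_ct (Q a) := by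
  classical
  have h1 : lkOne_ct (fun ω => ∃ a < l, Q a ω) ≤
      ((range l).biUnion fun a => univ.filter (Q a)).card := by
    rw [← lkOne_ct_eq]
    refine Finset.card_le_card fun ω hω => ?_
    obtain ⟨a, ha, h⟩ := (Finset.mem_filter.1 hω).2
    exact Finset.mem_biUnion.2 ⟨a, Finset.mem_range.2 ha, Finset.mem_filter.2 ⟨Finset.mem_univ _, h⟩⟩
  refine h1.trans (Finset.card_biUnion_le.trans (Finset.sum_le_sum fun a _ => ?_))
  rw [lkOne_ct_eq]

/-- the claim of the induction -/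
def lkOne_claim {V : Type} (l n₀ : ℕ) (P : ℕ → Finset V) (H : V → V → Prop) (r : ℕ) : Prop :=
  ∃ (Ω : Type) (_ : Fintype Ω) (_ : Nonempty Ω) (z : Ω → V → ℕ → V),
    (∀ ω, ∀ u ∈ P 0, z ω u 0 = u) ∧
    (∀ ω, ∀ a < r, ∀ u ∈ P 0, z ω u a ∈ P a) ∧
    (∀ ω, ∀ a < r, Set.InjOn (fun u => z ω u a) (P 0)) ∧
    (∀ ω, ∀ a, a + 1 < r → ∀ u ∈ P 0, H (z ω u a) (z ω u (a + 1))) ∧
    (∀ ω, r = l → ∀ u ∈ P 0, H (z ω u (l - 1)) u) ∧
    (∀ a, a + 1 < r → ∀ v w, n₀ * lkOne_ct (fun ω => ∃ u ∈ P 0,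
      z ω u a = v ∧ z ω u (a + 1) = w) ≤ Fintype.card Ω) ∧
    (r = l → ∀ v w, n₀ * lkOne_ct (fun ω => ∃ u ∈ P 0,
      z ω u (l - 1) = v ∧ u = w) ≤ Fintype.card Ω)

theorem lkOne_inter {α : Type} (B : Finset α) (p q R : α → Prop) [DecidablePred p]
    [DecidablePred q] [DecidablePred R] (hR : ∀ x, p x → q x → R x) (k : ℕ) (ε : ℝ) (hε : 0 < ε)
    (hB : B.card = k) (hp : (3/4 + ε) * (k : ℝ) ≤ ((B.filter p).card : ℝ))
    (hq : (3/4 + ε) * (k : ℝ) ≤ ((B.filter q).card : ℝ)) :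
    (1/2 + ε) * (k : ℝ) ≤ ((B.filter R).card : ℝ) := by
  classical
  have h1 := Finset.card_union_add_card_inter (B.filter p) (B.filter q)
  have h2 : (B.filter p ∪ B.filter q).card ≤ k := by
    rw [← hB]
    exact Finset.card_le_card (Finset.union_subset (Finset.filter_subset _ _)
      (Finset.filter_subset _ _))
  have h3 : (B.filter p ∩ B.filter q).card ≤ (B.filter R).card := by
    refine Finset.card_le_card fun x hx => ?_
    obtain ⟨hx1, hx2⟩ := Finset.mem_inter.1 hx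
    obtain ⟨hx3, hx4⟩ := Finset.mem_filter.1 hx1
    exact Finset.mem_filter.2 ⟨hx3, hR x hx4 (Finset.mem_filter.1 hx2).2⟩
  have h7 : (B.filter p).card + (B.filter q).card ≤ (B.filter p ∪ B.filter q).card +
      (B.filter R).card := by omega
  have h4 : ((B.filter p).card : ℝ) + ((B.filter q).card : ℝ) ≤
      (((B.filter p ∪ B.filter q).card : ℕ) : ℝ) + ((B.filter R).card : ℝ) := by exact_mod_cast h7
  have h5 : (((B.filter p ∪ B.filter q).card : ℕ) : ℝ) ≤ k := by exact_mod_cast h2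
  have h6 : 0 ≤ ε * (k : ℝ) := mul_nonneg hε.le (Nat.cast_nonneg k)
  nlinarith

open scoped Classical in
theorem lkOne_base {V : Type} (l n₀ : ℕ) (hl : 3 ≤ l) (P : ℕ → Finset V) (H : V → V → Prop) :
    lkOne_claim l n₀ P H 1 := by
  refine ⟨Unit, inferInstance, inferInstance, fun _ u _ => u, ?_, ?_, ?_, ?_, ?_, ?_, ?_⟩
  · intro _ u _
    rfl
  · intro _ a ha u hu
    have h0 : a = 0 := by omega
    subst h0
    exact hu
  · intro _ a _ u _ v _ h
    exact h
  · intro _ a ha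
    omega
  · intro _ h
    omega
  · intro a ha
    omega
  · intro h
    omega

open scoped Classical in
theorem lkOne_step (hpm : PmStmt) {V : Type} (l k n₀ : ℕ) (ε : ℝ) (P : ℕ → Finset V)
    (H : V → V → Prop) (hl : 3 ≤ l) (hε : 0 < ε) (hsym : ∀ u v, H u v → H v u)
    (hcard : ∀ a < l, (P a).card = k)
    (hdeg : ∀ a < l, ∀ u ∈ P a, ∀ b < l,
      (3/4 + ε) * (k : ℝ) ≤ (((P b).filter (fun v => H u v)).card : ℝ))
    (hn₀ : 0 < n₀) (hn : ∀ n : ℕ, ε * k ≤ n → n₀ ≤ n) (r : ℕ) (hr1 : 1 ≤ r) (hr : r < l)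
    (hC : lkOne_claim l n₀ P H r) : lkOne_claim l n₀ P H (r + 1) := by
  obtain ⟨Ω, iF, iN, z, h1, h2, h3, h4, h5, h6, h7⟩ := hC
  have key : ∀ ω : Ω, ∃ f : Fin n₀ → V → V, (∀ j, ∀ u ∈ P 0, f j u ∈ P r ∧
      H (z ω u (r - 1)) (f j u) ∧ (r = l - 1 → H u (f j u))) ∧
      (∀ j, Set.InjOn (f j) (P 0)) ∧ (∀ i j, ∀ u ∈ P 0, i ≠ j → f i u ≠ f j u) := by
    intro ω
    have hbij : ∀ p : V → Prop, ((P 0).filter (fun u => p (z ω u (r - 1)))).card =
        ((P (r - 1)).filter p).card := by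
      intro p
      have hmaps : ∀ u ∈ P 0, z ω u (r - 1) ∈ P (r - 1) := h2 ω (r - 1) (by omega)
      have hinj := h3 ω (r - 1) (by omega)
      have hsurj := Finset.surjOn_of_injOn_of_card_le (fun u => z ω u (r - 1)) (s := P 0)
        (t := P (r - 1)) hmaps hinj (by rw [hcard _ (by omega), hcard _ (by omega)])
      have e1 : ((P 0).filter (fun u => p (z ω u (r - 1)))).image (fun u => z ω u (r - 1)) =
          (P (r - 1)).filter p := by
        ext v
        rw [Finset.mem_image, Finset.mem_filter]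
        constructor
        · rintro ⟨u, hu, rfl⟩
          obtain ⟨hu1, hu2⟩ := Finset.mem_filter.1 hu
          exact ⟨hmaps u hu1, hu2⟩
        · rintro ⟨hv, hp⟩
          obtain ⟨u, hu, h8⟩ := hsurj hv
          have h9 : z ω u (r - 1) = v := h8
          exact ⟨u, Finset.mem_filter.2 ⟨hu, by rw [h9]; exact hp⟩, h9⟩
      rw [← e1, Finset.card_image_of_injOn]
      intro u hu v hv huv
      exact hinj (Finset.mem_filter.1 hu).1 (Finset.mem_filter.1 hv).1 huv
    obtain ⟨n, f, hn1, hf1, hf2, hf3⟩ := hpm V V (P 0) (P r)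
      (fun u v => H (z ω u (r - 1)) v ∧ (r = l - 1 → H u v)) k ε hε (hcard 0 (by omega))
      (hcard r hr) (by
        intro u hu
        exact lkOne_inter (P r) (fun v => H (z ω u (r - 1)) v) (fun v => H u v) _
          (fun x h8 h9 => ⟨h8, fun _ => h9⟩) k ε hε
          (hcard r hr) (hdeg (r - 1) (by omega) _ (h2 ω (r - 1) (by omega) u hu) r hr)
          (hdeg 0 (by omega) u hu r hr))
      (by
        intro v hv
        have h8 : (3/4 + ε) * (k : ℝ) ≤ (((P 0).filter (fun u => H (z ω u (r - 1)) v)).card : ℝ) := by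
          rw [hbij (fun x => H x v)]
          refine (hdeg r hr v hv (r - 1) (by omega)).trans ?_
          exact_mod_cast Finset.card_le_card (Finset.monotone_filter_right _
            (fun x _ hx => hsym _ _ hx))
        have h9 : (3/4 + ε) * (k : ℝ) ≤ (((P 0).filter (fun u => H u v)).card : ℝ) := by
          refine (hdeg r hr v hv 0 (by omega)).trans ?_
          exact_mod_cast Finset.card_le_card (Finset.monotone_filter_right _
            (fun x _ hx => hsym _ _ hx))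
        exact lkOne_inter (P 0) (fun u => H (z ω u (r - 1)) v) (fun u => H u v) _
          (fun x h8 h9 => ⟨h8, fun _ => h9⟩) k ε hε
          (hcard 0 (by omega)) h8 h9)
    have hnn := hn n hn1
    refine ⟨fun j => f (Fin.castLE hnn j), fun j u hu => ?_, fun j => hf2 _, fun i j u hu hij => ?_⟩
    · exact ⟨(hf1 _ u hu).1, (hf1 _ u hu).2.1, (hf1 _ u hu).2.2⟩
    · exact hf3 _ _ u hu (fun h => hij (Fin.castLE_injective hnn h))
  choose G hG1 hG2 hG3 using key
  have hcardΩ : Fintype.card (Ω × Fin n₀) = Fintype.card Ω * n₀ := by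
    rw [Fintype.card_prod, Fintype.card_fin]
  -- at most one `j` for every `ω`
  have hone : ∀ Q : Ω × Fin n₀ → Prop, (∀ ω i j, Q (ω, i) → Q (ω, j) → i = j) →
      n₀ * lkOne_ct Q ≤ Fintype.card (Ω × Fin n₀) := by
    intro Q hQ
    rw [hcardΩ, mul_comm, ← lkOne_ct_eq]
    refine Nat.mul_le_mul_right n₀ ?_
    have h8 := Finset.card_le_card_of_injOn (s := univ.filter Q) (t := (univ : Finset Ω)) Prod.fst
      (fun _ _ => Finset.mem_coe.2 (Finset.mem_univ _)) (by
        rintro ⟨ω, i⟩ hi ⟨ω', j⟩ hj h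
        have h9 : ω = ω' := h
        subst h9
        rw [hQ ω i j (Finset.mem_filter.1 hi).2 (Finset.mem_filter.1 hj).2])
    exact h8
  have hold : ∀ Q : Ω → Prop, n₀ * lkOne_ct Q ≤ Fintype.card Ω →
      ∀ Q' : Ω × Fin n₀ → Prop, (∀ x, Q' x ↔ Q x.1) →
      n₀ * lkOne_ct Q' ≤ Fintype.card (Ω × Fin n₀) := by
    intro Q hQ Q' hQQ
    rw [← lkOne_ct_eq] at hQ ⊢
    have e1 : univ.filter Q' = (univ.filter Q) ×ˢ (univ : Finset (Fin n₀)) := by
      ext x
      simp only [Finset.mem_filter, Finset.mem_univ, true_and, Finset.mem_product, and_true]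
      exact hQQ x
    rw [e1, Finset.card_product, Finset.card_univ, Fintype.card_fin, hcardΩ, ← mul_assoc]
    exact Nat.mul_le_mul_right n₀ hQ
  refine ⟨Ω × Fin n₀, inferInstance, ⟨(Classical.arbitrary Ω, ⟨0, hn₀⟩)⟩,
    fun x u a => if a = r then G x.1 x.2 u else z x.1 u a, ?_, ?_, ?_, ?_, ?_, ?_, ?_⟩
  · rintro ⟨ω, j⟩ u hu
    beta_reduce
    rw [if_neg (by omega)]
    exact h1 ω u hu
  · rintro ⟨ω, j⟩ a ha u hu
    beta_reduce
    by_cases har : a = r
    · rw [if_pos har, har]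
      exact (hG1 ω j u hu).1
    · rw [if_neg har]
      exact h2 ω a (by omega) u hu
  · rintro ⟨ω, j⟩ a ha u hu v hv huv
    beta_reduce at huv
    by_cases har : a = r
    · rw [if_pos har, if_pos har] at huv
      exact hG2 ω j hu hv huv
    · rw [if_neg har, if_neg har] at huv
      exact h3 ω a (by omega) hu hv huv
  · rintro ⟨ω, j⟩ a ha u hu
    beta_reduce
    by_cases har : a + 1 = r
    · have h8 : a = r - 1 := by omega
      rw [if_neg (by omega), if_pos har, h8]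
      exact (hG1 ω j u hu).2.1
    · rw [if_neg (by omega), if_neg har]
      exact h4 ω a (by omega) u hu
  · rintro ⟨ω, j⟩ hrl u hu
    beta_reduce
    rw [if_pos (by omega)]
    exact hsym _ _ ((hG1 ω j u hu).2.2 (by omega))
  · intro a ha v w
    by_cases har : a + 1 = r
    · refine hone _ ?_
      rintro ω i j ⟨u, hu, hv, hw⟩ ⟨u', hu', hv', hw'⟩
      beta_reduce at hv hv' hw hw'
      rw [if_neg (by omega)] at hv hv'
      rw [if_pos har] at hw hw'
      have huu : u = u' := h3 ω a (by omega) hu hu' (hv.trans hv'.symm)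
      by_contra hij
      exact hG3 ω i j u hu hij (hw.trans (by rw [huu]; exact hw'.symm))
    · refine hold _ (h6 a (by omega) v w) _ ?_
      rintro ⟨ω, j⟩
      beta_reduce
      refine exists_congr fun u => and_congr Iff.rfl ?_
      rw [if_neg (by omega), if_neg har]
  · intro hrl v w
    refine hone _ ?_
    rintro ω i j ⟨u, hu, hv, hw⟩ ⟨u', hu', hv', hw'⟩
    beta_reduce at hv hv'
    rw [if_pos (by omega)] at hv hv'
    have huu : u = u' := hw.trans hw'.symm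
    by_contra hij
    exact hG3 ω i j u hu hij (hv.trans (by rw [huu]; exact hv'.symm))

theorem lk_one (hpm : PmStmt) : LkOneStmt := by
  classical
  intro V _ l k ε P H hl hk hε hsym hcard hdis hdeg
  have hn₀ : 0 < ⌈ε * (k : ℝ)⌉₊ := Nat.ceil_pos.2 (mul_pos hε (by exact_mod_cast hk))
  have hn : ∀ n : ℕ, ε * k ≤ n → ⌈ε * (k : ℝ)⌉₊ ≤ n := fun n hn => Nat.ceil_le.2 hn
  have hcl : ∀ r, 1 ≤ r → r ≤ l → lkOne_claim l ⌈ε * (k : ℝ)⌉₊ P H r := by
    intro r hr1
    induction r, hr1 using Nat.le_induction with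
    | base => exact fun _ => lkOne_base l _ hl P H
    | succ r hr1 ih =>
      intro hr
      exact lkOne_step hpm l k _ ε P H hl hε hsym hcard hdeg hn₀ hn r hr1 (by omega) (ih (by omega))
  obtain ⟨Ω, iF, iN, z, h1, h2, h3, h4, h5, h6, h7⟩ := hcl l (by omega) le_rfl
  have hH : ∀ ω, ∀ a < l, ∀ u ∈ P 0, H (z ω u a) (z ω u ((a + 1) % l)) := by
    intro ω a ha u hu
    rcases Nat.lt_or_ge (a + 1) l with h8 | h8
    · rw [Nat.mod_eq_of_lt h8]
      exact h4 ω a h8 u hu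
    · have h9 : a + 1 = l := by omega
      have h10 : a = l - 1 := by omega
      rw [h9, Nat.mod_self, h1 ω u hu, h10]
      exact h5 ω rfl u hu
  have hE : ∀ a < l, ∀ v w, ⌈ε * (k : ℝ)⌉₊ * lkOne_ct (fun ω => ∃ u ∈ P 0,
      z ω u a = v ∧ z ω u ((a + 1) % l) = w) ≤ Fintype.card Ω := by
    intro a ha v w
    rcases Nat.lt_or_ge (a + 1) l with h8 | h8
    · rw [Nat.mod_eq_of_lt h8]
      exact h6 a h8 v w
    · have h9 : a + 1 = l := by omega
      have h10 : a = l - 1 := by omega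
      rw [h9, Nat.mod_self, h10]
      refine le_trans (Nat.mul_le_mul_left _ (lkOne_ct_mono ?_)) (h7 rfl v w)
      rintro ω ⟨u, hu, h11, h12⟩
      exact ⟨u, hu, h11, (h1 ω u hu).symm.trans h12⟩
  refine ⟨Ω, iF, iN, z, h1, h2, h3, hH, ?_⟩
  intro v w
  rw [lkOne_ct_eq]
  have h8 : lkOne_ct (fun ω => ∃ u ∈ P 0, ∃ a < l,
      s(v, w) = s(z ω u a, z ω u ((a + 1) % l))) ≤ ∑ a ∈ range l,
      (lkOne_ct (fun ω => ∃ u ∈ P 0, z ω u a = v ∧ z ω u ((a + 1) % l) = w) +
        lkOne_ct (fun ω => ∃ u ∈ P 0, z ω u a = w ∧ z ω u ((a + 1) % l) = v)) := by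
    refine le_trans (lkOne_ct_mono (Q' := fun ω => ∃ a < l,
      (∃ u ∈ P 0, z ω u a = v ∧ z ω u ((a + 1) % l) = w) ∨
      (∃ u ∈ P 0, z ω u a = w ∧ z ω u ((a + 1) % l) = v)) ?_) ?_
    · rintro ω ⟨u, hu, a, ha, h9⟩
      refine ⟨a, ha, ?_⟩
      rw [Sym2.eq_iff] at h9
      rcases h9 with ⟨h9, h10⟩ | ⟨h9, h10⟩
      · exact Or.inl ⟨u, hu, h9.symm, h10.symm⟩
      · exact Or.inr ⟨u, hu, h10.symm, h9.symm⟩
    · exact (lkOne_ct_ex l _).trans (Finset.sum_le_sum fun a _ => lkOne_ct_or _ _)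
  have h9 : ⌈ε * (k : ℝ)⌉₊ * lkOne_ct (fun ω => ∃ u ∈ P 0, ∃ a < l,
      s(v, w) = s(z ω u a, z ω u ((a + 1) % l))) ≤ 2 * l * Fintype.card Ω := by
    refine (Nat.mul_le_mul_left _ h8).trans ?_
    rw [Finset.mul_sum]
    refine (Finset.sum_le_card_nsmul (range l) _ (2 * Fintype.card Ω) fun a ha => ?_).trans ?_
    · rw [mul_add, two_mul]
      exact Nat.add_le_add (hE a (Finset.mem_range.1 ha) v w) (hE a (Finset.mem_range.1 ha) w v)
    · rw [Finset.card_range, smul_eq_mul]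
      exact le_of_eq (by ring)
  have h10 : (((⌈ε * (k : ℝ)⌉₊ * lkOne_ct (fun ω => ∃ u ∈ P 0, ∃ a < l,
      s(v, w) = s(z ω u a, z ω u ((a + 1) % l))) : ℕ)) : ℝ) ≤
      ((2 * l * Fintype.card Ω : ℕ) : ℝ) := by exact_mod_cast h9
  push_cast at h10
  refine le_trans ?_ h10
  exact mul_le_mul_of_nonneg_right (Nat.le_ceil _) (Nat.cast_nonneg _)

end Pool.Agent.OBW
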