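import Mathlib
import Pool.Agent.OBW.LkStmts

/-!
# LkPath : theorem lk_path : LkPathStmt

Induction: for t ≤ r there are w 0, …, w (t-1) ∈ W \ (Bd ∪ {a,b}), distinct, H a (w 0), H (w i) (w (i+1)) for i+1 < t and
H (w i) b for ALL i < t. Step: u = (if t = 0 then a else w (t-1)) ∈ insert a W has ≥ |Bd| + r + 3 vertices w ∈ W with H u w ∧ H w b; forbidden are
Bd, a, b and the t ≤ r - 1 previous ones. (w as function ℕ → V, Function.update.)
-/

set_option autoImplicit false
namespace Pool.Agent.OBW
open Finset

theorem lk_path : LkPathStmt := by
  intro V _ W Bd H _ r a b hr hab hW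
  have key : ∀ t ≤ r, ∃ w : ℕ → V, (∀ i < t, w i ∈ W ∧ w i ∉ Bd ∧ w i ≠ a ∧ w i ≠ b) ∧
      Set.InjOn w (Set.Iio t) ∧ (0 < t → H a (w 0)) ∧ (∀ i, i + 1 < t → H (w i) (w (i + 1))) ∧
      (∀ i < t, H (w i) b) := by
    intro t
    induction t with
    | zero =>
      intro _
      exact ⟨fun _ => a, by simp, by simp, by simp, by simp, by simp⟩
    | succ t ih =>
      intro ht
      obtain ⟨w, h1, h2, h3, h4, h5⟩ := ih (by omega)
      set u : V := if t = 0 then a else w (t - 1) with hu
      have huW : u ∈ insert a W := by
        by_cases h0 : t = 0
        · simp [hu, h0]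
        · simp only [hu, h0, if_false]
          exact Finset.mem_insert_of_mem (h1 (t - 1) (by omega)).1
      have hc := hW u huW
      -- forbidden set
      set Fb : Finset V := Bd ∪ ({a, b} ∪ (Finset.range t).image w) with hFb
      have hFbc : Fb.card ≤ Bd.card + (2 + t) := by
        refine (Finset.card_union_le _ _).trans ?_
        have e1 : (({a, b} : Finset V) ∪ (Finset.range t).image w).card ≤ 2 + t := by
          refine (Finset.card_union_le _ _).trans ?_
          have e2 : ({a, b} : Finset V).card ≤ 2 := Finset.card_le_two
          have e3 : ((Finset.range t).image w).card ≤ t := by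
            simpa using Finset.card_image_le (s := Finset.range t) (f := w)
          omega
        omega
      have hlt : Fb.card < (W.filter (fun w => H u w ∧ H w b)).card := by omega
      obtain ⟨x, hx1, hx2⟩ := Finset.exists_mem_notMem_of_card_lt_card hlt
      obtain ⟨hxW, hux, hxb⟩ := Finset.mem_filter.1 hx1
      have hxBd : x ∉ Bd := fun h => hx2 (Finset.mem_union_left _ h)
      have hxa : x ≠ a := fun h => hx2 (by simp [hFb, h])
      have hxb' : x ≠ b := fun h => hx2 (by simp [hFb, h])
      have hxw : ∀ i < t, w i ≠ x := fun i hi h => hx2 (by
        rw [hFb]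
        apply Finset.mem_union_right
        apply Finset.mem_union_right
        exact Finset.mem_image.2 ⟨i, Finset.mem_range.2 hi, h⟩)
      have hne : ∀ i, i < t → Function.update w t x i = w i := by
        intro i hi
        rw [Function.update_of_ne (by omega)]
      refine ⟨Function.update w t x, ?_, ?_, ?_, ?_, ?_⟩
      · intro i hi
        rcases Nat.lt_succ_iff_lt_or_eq.1 hi with h | h
        · rw [hne i h]; exact h1 i h
        · subst h
          rw [Function.update_self]
          exact ⟨hxW, hxBd, hxa, hxb'⟩
      · intro i hi j hj hij
        simp only [Set.mem_Iio] at hi hj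
        rcases Nat.lt_succ_iff_lt_or_eq.1 hi with h | h <;>
          rcases Nat.lt_succ_iff_lt_or_eq.1 hj with h' | h'
        · rw [hne i h, hne j h'] at hij
          exact h2 h h' hij
        · subst h'
          rw [hne i h, Function.update_self] at hij
          exact absurd hij (hxw i h)
        · subst h
          rw [hne j h', Function.update_self] at hij
          exact absurd hij.symm (hxw j h')
        · omega
      · intro _
        by_cases h0 : t = 0
        · subst h0
          rw [Function.update_self]
          simpa [hu] using hux
        · rw [hne 0 (by omega)]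
          exact h3 (by omega)
      · intro i hi
        rcases Nat.lt_or_ge (i + 1) t with h | h
        · rw [hne i (by omega), hne (i + 1) h]
          exact h4 i h
        · have hit : i + 1 = t := by omega
          have h0 : t ≠ 0 := by omega
          rw [hne i (by omega), hit, Function.update_self]
          have : u = w i := by
            simp only [hu, h0, if_false]
            congr 1
            omega
          rw [← this]
          exact hux
      · intro i hi
        rcases Nat.lt_succ_iff_lt_or_eq.1 hi with h | h
        · rw [hne i h]; exact h5 i h
        · subst h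
          rw [Function.update_self]
          exact hxb
  obtain ⟨w, h1, h2, h3, h4, h5⟩ := key r le_rfl
  exact ⟨w, h1, h2, h3 (by omega), h4, h5 (r - 1) (by omega)⟩

end Pool.Agent.OBW
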