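import Mathlib
import Pool.Agent.OBW.LkStmts

/-!
# LkS3 : theorem lk_s3 (hpart : PartStmt) (hgen : LkGenStmt) (hone : LkOneStmt) (hfam : LkFamStmt) : LkS3Stmt

Notation: M = |U'|, m = |U|, X = U \ U', Do = D \ D'. Facts: vt T c ⊆ U' for c ∈ Do (cX, ins), nb T x ⊆ U' for x ∈ X (eX, ins),
m ≤ (M+1)/μ ≤ 2M/μ (Ulo; M ≥ 1 for large m). For c ∈ Do: |vt T c| = ls * k_c (dv), k_c ≥ pM/(4 ls) > 0.
Tests: I = (U' × Do) ⊕ (U' × X) (subtypes!), |I| ≤ 2 m²; Q (u,c') = items inl s(u,v), v ∈ vt T c'; Q (u,x) = items inl s(u,v), v ∈ nb T x.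
 B (u,c') = (ε/4) k_{c'}, B (u,x) = κ |nb T x|.
PART for c ∈ Do (W = vt T c, l = ls, k = k_c, tests nb T u \ U'' for u ∈ U', ξ = ε/4; the condition
 2 ls |U'| exp(-(ξ² k/2)) < 1 holds for m ≥ m₀): classes P_{c,a}, a < ls, size k_c, with
 |(nb T u \ U'') ∩ P_{c,a}| ≥ (3/4+ε) k_c - (ε/4) k_c for all u ∈ U' (by uw: |(nb T u ∩ vt T c)\U''| ≥ (3/4+ε) ls k_c).
GEN with A = Do, k₀ = 2, Ok c b := ∃ F_c, (∀ q ∈ F_c, q ⊆ T ∧ IsPiece ls c q) ∧ PD F_c ∧ un F_c = b ∧
   (∀ v, inr (v,c) ∈ b for v ∈ vt T c) ∧ (edges of b: both ends in vt T c, not both in U'') ∧ (∀ v, |nb b v| ≤ 2),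
 q c (u,Z) = if u ∉ vt T c then 0 else if Z = vt T c (same c) then 2 else min-free bound 24 ls² p/ε·... precisely
   q = (2 ls/((ε/4) k_c)) * |Z ∩ vt T c| for Z ≠ own, where |Z ∩ vt T c| ≤ 3p²M (ww, nw), k_c ≥ pM/(4 ls): q ≤ 96 ls² p/ε; (use q = 96 ls² p/ε).
 Option step: S with loads ≤ B given. H u v := inl s(u,v) ∈ T ∧ ∉ S ∧ ¬(u ∈ U'' ∧ v ∈ U''). Degree of u ∈ vt T c into P_{c,a}:
   ≥ (3/4+3ε/4) k_c - (ε/4) k_c ≥ (3/4+ε/4) k_c. ONE with ε/4 gives Ω, z; FAM gives F_ω, b ω = un F_ω.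
   Disjoint (b ω) S: the edges are unused by H; the PAIRS (v,c) of b: S may contain pairs! To avoid this replace S by its edges
   in H and add to Ok that the pairs of b a have colour a; then disjointness with the other blocks b a' is automatic for pairs...
   SIMPLEST: apply GEN with ι = Sym2 V (edges only!): Q (u,Z) : Finset (Sym2 V) = Z.image (s(u,·)), b = set of the edges,
   Ok c b := ∃ F_c, ... ∧ (∀ e, inl e ∈ un F_c ↔ e ∈ b). After GEN: pieces of different colours have different pairs and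
   disjoint edges.
   |b ω ∩ Q| ≤ 2 (|nb| ≤ 2), average: ∑_ω |b ω ∩ Q (u,Z)| ≤ ∑_{v ∈ Z ∩ vt T c} #{ω : s(u,v) used} ≤ |Z ∩ vt T c| 2 ls/((ε/4)k_c) |Ω|.
 Sum of q: own colour 2 + #{c ∈ Do : u ∈ vt T c} * 96 ls² p/ε ≤ 2 + 2pm * 96 ls² p/ε (cu). Condition
   2 log|I| + 2(2 + 192 ls² p² m/ε) ≤ B: B ≥ (ε/4) pM/(4 ls) resp. κ pM/4, m ≤ 2M/μ: true for p ≤ p₀(ε,κ,ls,μ), m ≥ m₀.
END: F = ⋃_{c∈Do} F_c. |nb (un F) u| ≤ 2 #{c ∈ Do: u ∈ vt T c} ≤ 4pm (cu).
-/

set_option autoImplicit false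
namespace Pool.Agent.OBW
open Finset

section
variable {V C : Type} [Fintype V] [DecidableEq V] [Fintype C] [DecidableEq C]

/-- a block of edges which comes from a family of pieces in colour `c` covering all the pairs of colour `c` -/
def LkS3_Ok (T : Finset (Item V C)) (U'' : Finset V) (ls : ℕ) (c : C) (b : Finset (Sym2 V)) : Prop :=
  ∃ F : Finset (Finset (Item V C)), (∀ q ∈ F, q ⊆ T ∧ IsPiece ls c q) ∧ PD F ∧
    (∀ v c', (Sum.inr (v, c') : Item V C) ∈ un F ↔ c' = c ∧ v ∈ vt T c) ∧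
    (∀ e, (Sum.inl e : Item V C) ∈ un F ↔ e ∈ b) ∧
    (∀ u v, s(u, v) ∈ b → u ∈ vt T c ∧ v ∈ vt T c ∧ ¬ (u ∈ U'' ∧ v ∈ U'')) ∧
    (∀ v, (nb (un F) v).card ≤ 2)

theorem LkS3_mem_nb {S : Finset (Item V C)} {v u : V} : u ∈ nb S v ↔ (Sum.inl s(v, u) : Item V C) ∈ S := by
  simp [nb]

theorem LkS3_mem_vt {S : Finset (Item V C)} {v : V} {c : C} : v ∈ vt S c ↔ (Sum.inr (v, c) : Item V C) ∈ S := by
  simp [vt]

theorem LkS3_mem_cl {S : Finset (Item V C)} {v : V} {c : C} : c ∈ cl S v ↔ (Sum.inr (v, c) : Item V C) ∈ S := by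
  simp [cl]

theorem LkS3_mem_un {F : Finset (Finset (Item V C))} {i : Item V C} : i ∈ un F ↔ ∃ q ∈ F, i ∈ q := by
  simp [un]

theorem LkS3_sub {p ε μ : ℝ} {ls : ℕ} {U U' U'' : Finset V} {D D' D'' : Finset C} {T : Finset (Item V C)}
    (h : LinkHyp p ε μ ls U U' U'' D D' D'' T) {c : C} (hc : c ∈ D \ D') : vt T c ⊆ U' := by
  intro v hv
  rw [LkS3_mem_vt] at hv
  by_contra hcon
  exact h.cX v (Finset.mem_sdiff.2 ⟨(h.ins.2 v c hv).1, hcon⟩) c hc hv

theorem LkS3_cu {p ε μ : ℝ} {ls : ℕ} {U U' U'' : Finset V} {D D' D'' : Finset C} {T : Finset (Item V C)}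
    (h : LinkHyp p ε μ ls U U' U'' D D' D'' T) {u : V} (hu : u ∈ U') :
    (((D \ D').filter (fun c => u ∈ vt T c)).card : ℝ) ≤ 2 * p * U.card := by
  refine le_trans ?_ (h.cu u hu)
  have h1 : (D \ D').filter (fun c => u ∈ vt T c) ⊆ cl T u \ D' := by
    intro c hc
    rw [Finset.mem_filter, Finset.mem_sdiff] at hc
    rw [Finset.mem_sdiff, LkS3_mem_cl]
    exact ⟨LkS3_mem_vt.1 hc.2, hc.1.2⟩
  exact_mod_cast Finset.card_le_card h1

theorem LkS3_part (hpart : PartStmt) {p ε μ : ℝ} {ls : ℕ} {U U' U'' : Finset V} {D D' D'' : Finset C}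
    {T : Finset (Item V C)} (h : LinkHyp p ε μ ls U U' U'' D D' D'' T) (hε : 0 < ε) (hls : 3 ≤ ls) (hp : 0 < p)
    (hM : 0 < U'.card) {c : C} (hc : c ∈ D \ D')
    (hexp : ∀ k : ℕ, p / 4 * (U'.card : ℝ) ≤ ls * k →
      2 * (ls : ℝ) * (U'.card : ℝ) * Real.exp (-((ε / 4) ^ 2 * k / 2)) < 1) :
    ∃ (k : ℕ) (P : ℕ → Finset V), 0 < k ∧ p / 4 * (U'.card : ℝ) ≤ ls * k ∧ (∀ a < ls, (P a).card = k) ∧
      (∀ a < ls, ∀ b < ls, a ≠ b → Disjoint (P a) (P b)) ∧ (∀ v, v ∈ vt T c ↔ ∃ a < ls, v ∈ P a) ∧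
      (∀ u ∈ U', ∀ a < ls, (3/4 + 3 * ε / 4) * (k : ℝ) ≤ (((P a).filter (fun v => v ∈ nb T u \ U'')).card : ℝ)) := by
  obtain ⟨k, hk⟩ := h.dv c hc
  have hM' : (0 : ℝ) < U'.card := by exact_mod_cast hM
  have hls' : (0 : ℝ) < ls := by
    have : 0 < ls := by omega
    exact_mod_cast this
  have hwc := (h.wc c hc).1
  have hcard : ((vt T c).card : ℝ) = ls * k := by rw [hk]; push_cast; ring
  rw [hcard] at hwc
  have hkpos : 0 < k := by
    rcases Nat.eq_zero_or_pos k with h0 | h0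
    · rw [h0] at hwc
      have : 0 < p / 4 * (U'.card : ℝ) := by positivity
      simp at hwc
      linarith
    · exact h0
  obtain ⟨f, hf1, hf2, hf3⟩ := hpart V {u // u ∈ U'} (vt T c) ls k (fun u => nb T u.1 \ U'') (ε / 4)
    (by omega) hkpos hk (by linarith) (by
      have := hexp k hwc
      rwa [Fintype.card_coe])
  refine ⟨k, fun a => (vt T c).filter (fun v => f v = a), hkpos, hwc, hf2, ?_, ?_, ?_⟩
  · intro a _ b _ hab
    rw [Finset.disjoint_left]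
    intro v hv hv'
    rw [Finset.mem_filter] at hv hv'
    exact hab (hv.2.symm.trans hv'.2)
  · intro v
    constructor
    · intro hv
      exact ⟨f v, hf1 v hv, Finset.mem_filter.2 ⟨hv, rfl⟩⟩
    · rintro ⟨a, _, hv⟩
      exact (Finset.mem_filter.1 hv).1
  · intro u hu a ha
    have h1 := hf3 ⟨u, hu⟩ a ha
    have h2 := h.uw u hu c hc
    have e1 : (nb T u ∩ vt T c) \ U'' = vt T c ∩ (nb T u \ U'') := by
      ext v
      simp only [Finset.mem_sdiff, Finset.mem_inter]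
      tauto
    have e2 : ((vt T c).filter (fun v => f v = a)).filter (fun v => v ∈ nb T u \ U'') =
        (vt T c).filter (fun v => f v = a ∧ v ∈ nb T u \ U'') := by
      rw [Finset.filter_filter]
    rw [e1, hcard] at h2
    rw [e2]
    have h3 := (abs_le.1 h1).1
    have h4 : (3/4 + ε) * (k : ℝ) ≤ ((vt T c ∩ (nb T u \ U'')).card : ℝ) / ls := by
      rw [le_div_iff₀ hls']
      linarith
    have h5 : ((vt T c ∩ (nb T u \ U'')).card : ℝ) / ls - ε / 4 * k ≤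
        (((vt T c).filter (fun v => f v = a ∧ v ∈ nb T u \ U'')).card : ℝ) := by linarith
    nlinarith

theorem LkS3_opt (hone : LkOneStmt) (hfam : LkFamStmt) {p ε μ : ℝ} {ls : ℕ} {U U' U'' : Finset V}
    {D D' D'' : Finset C} {T : Finset (Item V C)} (h : LinkHyp p ε μ ls U U' U'' D D' D'' T) (hε : 0 < ε)
    (hls : 3 ≤ ls) {c : C} (hc : c ∈ D \ D') {k : ℕ} {P : ℕ → Finset V} (hk : 0 < k)
    (hP1 : ∀ a < ls, (P a).card = k) (hP2 : ∀ a < ls, ∀ b < ls, a ≠ b → Disjoint (P a) (P b))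
    (hP3 : ∀ v, v ∈ vt T c ↔ ∃ a < ls, v ∈ P a)
    (hP4 : ∀ u ∈ U', ∀ a < ls, (3/4 + 3 * ε / 4) * (k : ℝ) ≤ (((P a).filter (fun v => v ∈ nb T u \ U'')).card : ℝ))
    (S : Finset (Sym2 V)) (hS : ∀ u ∈ U', ((S ∩ (vt T c).image (fun v => s(u, v))).card : ℝ) ≤ ε / 4 * k) :
    ∃ (Ω : Type) (_ : Fintype Ω) (_ : Nonempty Ω) (b : Ω → Finset (Sym2 V)),
      (∀ ω, LkS3_Ok T U'' ls c (b ω) ∧ Disjoint (b ω) S) ∧
      (∀ ω u (Z : Finset V), ((b ω ∩ Z.image (fun v => s(u, v))).card : ℝ) ≤ 2) ∧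
      (∀ u (Z : Finset V), ∑ ω, ((b ω ∩ Z.image (fun v => s(u, v))).card : ℝ) ≤
        (if u ∈ vt T c then 4 * ls / (ε * k) * ((Z ∩ vt T c).card : ℝ) else 0) * Fintype.card Ω) := by
  classical
  have hkr : (0 : ℝ) < k := by exact_mod_cast hk
  have hsub := LkS3_sub h hc
  have hPsub : ∀ a < ls, P a ⊆ vt T c := fun a ha v hv => (hP3 v).2 ⟨a, ha, hv⟩
  let H : V → V → Prop := fun u v => (Sum.inl s(u, v) : Item V C) ∈ T ∧ s(u, v) ∉ S ∧ ¬ (u ∈ U'' ∧ v ∈ U'')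
  have hHs : ∀ u v, H u v → H v u := by
    rintro u v ⟨h1, h2, h3⟩
    refine ⟨by rwa [Sym2.eq_swap], by rwa [Sym2.eq_swap], fun h4 => h3 ⟨h4.2, h4.1⟩⟩
  have hdeg : ∀ a < ls, ∀ u ∈ P a, ∀ b < ls,
      (3/4 + ε / 2) * (k : ℝ) ≤ (((P b).filter (fun v => H u v)).card : ℝ) := by
    intro a ha u hu b hb
    have huU : u ∈ U' := hsub (hPsub a ha hu)
    have h1 := hP4 u huU b hb
    have h2 : (P b).filter (fun v => v ∈ nb T u \ U'') ⊆
        (P b).filter (fun v => H u v) ∪ (P b).filter (fun v => s(u, v) ∈ S) := by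
      intro v hv
      rw [Finset.mem_filter, Finset.mem_sdiff, LkS3_mem_nb] at hv
      rw [Finset.mem_union, Finset.mem_filter, Finset.mem_filter]
      by_cases hvS : s(u, v) ∈ S
      · exact Or.inr ⟨hv.1, hvS⟩
      · exact Or.inl ⟨hv.1, hv.2.1, hvS, fun h3 => hv.2.2 h3.2⟩
    have h3 : ((P b).filter (fun v => s(u, v) ∈ S)).card ≤ (S ∩ (vt T c).image (fun v => s(u, v))).card := by
      refine Finset.card_le_card_of_injOn (fun v => s(u, v)) ?_ ?_
      · intro v hv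
        have hv' := Finset.mem_filter.1 (Finset.mem_coe.1 hv)
        exact Finset.mem_coe.2 (Finset.mem_inter.2 ⟨hv'.2, Finset.mem_image.2 ⟨v, hPsub b hb hv'.1, rfl⟩⟩)
      · intro v _ w _ hvw
        exact Sym2.congr_right.1 hvw
    have h4 := Finset.card_le_card h2
    have h5 := Finset.card_union_le ((P b).filter (fun v => H u v)) ((P b).filter (fun v => s(u, v) ∈ S))
    have h6 := hS u huU
    have h7 : (((P b).filter (fun v => v ∈ nb T u \ U'')).card : ℝ) ≤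
        (((P b).filter (fun v => H u v)).card : ℝ) + ((S ∩ (vt T c).image (fun v => s(u, v))).card : ℝ) := by
      exact_mod_cast h4.trans (h5.trans (Nat.add_le_add_left h3 _))
    nlinarith
  obtain ⟨Ω, iF, iN, z, hz0, hz1, hz2, hz3, hz4⟩ := hone V ls k (ε / 2) P H hls hk (by linarith) hHs hP1 hP2
    (fun a ha u hu b hb => by convert hdeg a ha u hu b hb)
  have hfam' : ∀ ω : Ω, ∃ F : Finset (Finset (Item V C)), (∀ q ∈ F, IsPiece ls c q) ∧ PD F ∧
      (∀ v c', (Sum.inr (v, c') : Item V C) ∈ un F ↔ c' = c ∧ ∃ a < ls, v ∈ P a) ∧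
      (∀ e, (Sum.inl e : Item V C) ∈ un F ↔ ∃ u ∈ P 0, ∃ a < ls, e = s(z ω u a, z ω u ((a + 1) % ls))) ∧
      (∀ v, (nb (un F) v).card ≤ 2) := fun ω =>
    hfam V C ls P (z ω) c hls hP2 (fun a ha => by rw [hP1 a ha, hP1 0 (by omega)])
      (fun a ha u hu => hz1 ω a ha u hu) (fun a ha => hz2 ω a ha)
  choose F hF1 hF2 hF3 hF4 hF5 using hfam'
  let b : Ω → Finset (Sym2 V) := fun ω => univ.filter fun e => (Sum.inl e : Item V C) ∈ un (F ω)
  have hb : ∀ ω e, e ∈ b ω ↔ (Sum.inl e : Item V C) ∈ un (F ω) := fun ω e => by simp [b]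
  have hbH : ∀ ω e, e ∈ b ω → ∃ x y, e = s(x, y) ∧ H x y ∧ x ∈ vt T c ∧ y ∈ vt T c := by
    intro ω e he
    rw [hb, hF4] at he
    obtain ⟨u, hu, a, ha, rfl⟩ := he
    have hm : (a + 1) % ls < ls := Nat.mod_lt _ (by omega)
    exact ⟨_, _, rfl, hz3 ω a ha u hu, hPsub a ha (hz1 ω a ha u hu), hPsub _ hm (hz1 ω _ hm u hu)⟩
  have hbH' : ∀ ω u v, s(u, v) ∈ b ω → H u v ∧ u ∈ vt T c ∧ v ∈ vt T c := by
    intro ω u v he
    obtain ⟨x, y, hxy, hH, hx, hy⟩ := hbH ω _ he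
    rcases Sym2.eq_iff.1 hxy with ⟨rfl, rfl⟩ | ⟨rfl, rfl⟩
    · exact ⟨hH, hx, hy⟩
    · exact ⟨hHs _ _ hH, hy, hx⟩
  have h2b : ∀ ω u (Z : Finset V), (b ω ∩ Z.image (fun v => s(u, v))).card ≤ 2 := by
    intro ω u Z
    refine le_trans ?_ (hF5 ω u)
    refine le_trans (Finset.card_le_card (t := (nb (un (F ω)) u).image (fun v => s(u, v))) ?_) Finset.card_image_le
    intro e he
    rw [Finset.mem_inter, Finset.mem_image] at he
    obtain ⟨he1, v, _, rfl⟩ := he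
    exact Finset.mem_image.2 ⟨v, LkS3_mem_nb.2 ((hb ω _).1 he1), rfl⟩
  refine ⟨Ω, iF, iN, b, fun ω => ⟨⟨F ω, fun q hq => ⟨?_, hF1 ω q hq⟩, hF2 ω, ?_, fun e => (hb ω e).symm, ?_, hF5 ω⟩, ?_⟩,
    fun ω u Z => by exact_mod_cast h2b ω u Z, ?_⟩
  · intro i hi
    have hiu : i ∈ un (F ω) := LkS3_mem_un.2 ⟨q, hq, hi⟩
    rcases i with e | ⟨v, c'⟩
    · obtain ⟨x, y, rfl, hH, _, _⟩ := hbH ω e ((hb ω e).2 hiu)
      exact hH.1
    · obtain ⟨rfl, hv⟩ := (hF3 ω v c').1 hiu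
      exact LkS3_mem_vt.1 ((hP3 v).2 hv)
  · intro v c'
    rw [hF3 ω v c', hP3 v]
  · intro u v he
    have := hbH' ω u v he
    exact ⟨this.2.1, this.2.2, this.1.2.2⟩
  · rw [Finset.disjoint_left]
    intro e he heS
    obtain ⟨x, y, rfl, hH, _, _⟩ := hbH ω e he
    exact hH.2.1 heS
  · intro u Z
    have hΩ : (0 : ℝ) ≤ Fintype.card Ω := by positivity
    by_cases hu : u ∈ vt T c
    · rw [if_pos hu]
      have h1 : ∀ ω, ((b ω ∩ Z.image (fun v => s(u, v))).card : ℝ) ≤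
          ∑ v ∈ Z ∩ vt T c, (if s(u, v) ∈ b ω then (1 : ℝ) else 0) := by
        intro ω
        rw [Finset.sum_boole]
        have h2 : b ω ∩ Z.image (fun v => s(u, v)) ⊆
            ((Z ∩ vt T c).filter (fun v => s(u, v) ∈ b ω)).image (fun v => s(u, v)) := by
          intro e he
          rw [Finset.mem_inter, Finset.mem_image] at he
          obtain ⟨he1, v, hv, rfl⟩ := he
          exact Finset.mem_image.2 ⟨v, Finset.mem_filter.2 ⟨Finset.mem_inter.2 ⟨hv, (hbH' ω u v he1).2.2⟩, he1⟩, rfl⟩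
        exact_mod_cast (Finset.card_le_card h2).trans Finset.card_image_le
      refine (Finset.sum_le_sum fun ω _ => h1 ω).trans ?_
      rw [Finset.sum_comm]
      have h3 : ∀ v ∈ Z ∩ vt T c, ∑ ω, (if s(u, v) ∈ b ω then (1 : ℝ) else 0) ≤
          4 * ls / (ε * k) * Fintype.card Ω := by
        intro v _
        rw [Finset.sum_boole]
        have h4 := hz4 u v
        have h5 : (univ.filter (fun ω => s(u, v) ∈ b ω)).card ≤ (univ.filter (fun ω => ∃ x ∈ P 0, ∃ a < ls,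
            s(u, v) = s(z ω x a, z ω x ((a + 1) % ls)))).card := by
          refine Finset.card_le_card ?_
          intro ω hω
          rw [Finset.mem_filter] at hω ⊢
          exact ⟨Finset.mem_univ _, (hF4 ω _).1 ((hb ω _).1 hω.2)⟩
        have h5' : ((univ.filter (fun ω => s(u, v) ∈ b ω)).card : ℝ) ≤ ((univ.filter (fun ω => ∃ x ∈ P 0, ∃ a < ls,
            s(u, v) = s(z ω x a, z ω x ((a + 1) % ls)))).card : ℝ) := by exact_mod_cast h5
        have hpos : 0 < ε * (k : ℝ) := by positivity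
        rw [div_mul_eq_mul_div, le_div_iff₀ hpos]
        have h6 : ε / 2 * k * ((univ.filter (fun ω => s(u, v) ∈ b ω)).card : ℝ) ≤ 2 * ls * Fintype.card Ω := by
          refine le_trans ?_ h4
          refine mul_le_mul_of_nonneg_left ?_ (by positivity)
          convert h5'
        linarith
      refine (Finset.sum_le_sum h3).trans ?_
      rw [Finset.sum_const, nsmul_eq_mul]
      linarith
    · rw [if_neg hu, zero_mul]
      refine le_of_eq (Finset.sum_eq_zero fun ω _ => ?_)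
      rw [Nat.cast_eq_zero, Finset.card_eq_zero, Finset.eq_empty_iff_forall_notMem]
      intro e he
      rw [Finset.mem_inter, Finset.mem_image] at he
      obtain ⟨he1, v, _, rfl⟩ := he
      exact hu (hbH' ω u v he1).2.1

end

theorem LkS3_asym (A c₁ c₂ : ℝ) (h1 : 0 < c₁) (h2 : 0 < c₂) :
    ∃ m₀ : ℕ, ∀ m : ℕ, m₀ ≤ m → A * m * Real.exp (-(c₁ * m)) < 1 ∧ 2 * Real.log (2 * (m : ℝ) ^ 2) + 4 ≤ c₂ * m := by
  have e1 : ∀ᶠ x : ℝ in Filter.atTop, A * x * Real.exp (-(c₁ * x)) < 1 := by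
    have h3 := Real.tendsto_pow_mul_exp_neg_atTop_nhds_zero 1
    have h4 : Filter.Tendsto (fun x : ℝ => c₁ * x) Filter.atTop Filter.atTop :=
      Filter.Tendsto.const_mul_atTop h1 Filter.tendsto_id
    have h5 := (h3.comp h4).const_mul (A / c₁)
    rw [mul_zero] at h5
    have h6 := h5.eventually (gt_mem_nhds (show (0 : ℝ) < 1 by norm_num))
    filter_upwards [h6] with x hx
    refine lt_of_eq_of_lt ?_ hx
    simp only [Function.comp, pow_one]
    field_simp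
  have e2 : ∀ᶠ x : ℝ in Filter.atTop, 2 * Real.log (2 * x ^ 2) + 4 ≤ c₂ * x := by
    have h3 := Real.isLittleO_log_id_atTop.def (show (0 : ℝ) < c₂ / 8 by linarith)
    have h4 := Filter.eventually_ge_atTop (1 : ℝ)
    have h5 := Filter.eventually_ge_atTop ((2 * Real.log 2 + 4) / (c₂ / 2))
    filter_upwards [h3, h4, h5] with x hx hx1 hx2
    have hx0 : (0 : ℝ) < x := by linarith
    have h6 : Real.log x ≤ c₂ / 8 * x := by
      have h7 : ‖Real.log x‖ ≤ c₂ / 8 * ‖id x‖ := hx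
      rw [id, Real.norm_of_nonneg hx0.le] at h7
      exact (le_abs_self _).trans h7
    rw [div_le_iff₀ (by linarith)] at hx2
    rw [Real.log_mul (by norm_num) (by positivity), Real.log_pow]
    push_cast
    linarith
  have e3 := (tendsto_natCast_atTop_atTop (R := ℝ)).eventually (e1.and e2)
  obtain ⟨m₀, hm₀⟩ := Filter.eventually_atTop.1 e3
  exact ⟨m₀, fun m hm => hm₀ m hm⟩

theorem lk_s3 (hpart : PartStmt) (hgen : LkGenStmt) (hone : LkOneStmt) (hfam : LkFamStmt) : LkS3Stmt := by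
  classical
  intro ε κ ls hε hκ hls μ hμ hμ1
  have hlsr : (0 : ℝ) < ls := by
    have : 0 < ls := by omega
    exact_mod_cast this
  set β : ℝ := min (ε / (16 * ls)) (κ / 4) with hβ
  have hβ0 : 0 < β := lt_min (by positivity) (by positivity)
  have hβ1 : β ≤ ε / (16 * ls) := min_le_left _ _
  have hβ2 : β ≤ κ / 4 := min_le_right _ _
  refine ⟨β * μ * ε / (768 * ls ^ 2), by positivity, fun p hp hpp => ?_⟩
  obtain ⟨m₁, hm₁⟩ := LkS3_asym (2 * ls) (ε ^ 2 * p * μ / (256 * ls)) (β * μ * p / 4) (by positivity) (by positivity)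
  refine ⟨max m₁ (⌈2 / μ⌉₊ + 1), fun V C _ _ _ _ U U' U'' D D' D'' T hm h => ?_⟩
  have hmr1 := hm₁ U.card ((le_max_left _ _).trans hm)
  have hm2 : 2 / μ ≤ (U.card : ℝ) := by
    refine (Nat.le_ceil _).trans ?_
    exact_mod_cast (Nat.le_succ _).trans ((le_max_right _ _).trans hm)
  have hm3 : 2 ≤ μ * U.card := by
    rw [div_le_iff₀ hμ] at hm2
    linarith
  have hMm : μ * U.card / 2 ≤ (U'.card : ℝ) := by
    have := h.Ulo
    linarith
  have hMpos : (0 : ℝ) < U'.card := by linarith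
  have hMpos' : 0 < U'.card := by exact_mod_cast hMpos
  have hmpos : (0 : ℝ) < U.card := by
    by_contra hcon
    have : μ * (U.card : ℝ) ≤ 0 := mul_nonpos_of_nonneg_of_nonpos hμ.le (not_lt.1 hcon)
    linarith
  have hUU : (U'.card : ℝ) ≤ U.card := by exact_mod_cast Finset.card_le_card h.subU
  have hpart' : ∀ c ∈ D \ D', ∃ (k : ℕ) (P : ℕ → Finset V), 0 < k ∧ p / 4 * (U'.card : ℝ) ≤ ls * k ∧
      (∀ a < ls, (P a).card = k) ∧
      (∀ a < ls, ∀ b < ls, a ≠ b → Disjoint (P a) (P b)) ∧ (∀ v, v ∈ vt T c ↔ ∃ a < ls, v ∈ P a) ∧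
      (∀ u ∈ U', ∀ a < ls, (3/4 + 3 * ε / 4) * (k : ℝ) ≤
        (((P a).filter (fun v => v ∈ nb T u \ U'')).card : ℝ)) := by
    intro c hc
    refine LkS3_part hpart h hε hls hp hMpos' hc fun k hk => ?_
    refine lt_of_le_of_lt ?_ hmr1.1
    have e1 : ε ^ 2 * p * μ / (256 * ls) * U.card ≤ (ε / 4) ^ 2 * k / 2 := by
      have e2 : p * (μ * U.card) ≤ 8 * (ls * k) := by nlinarith
      rw [div_mul_eq_mul_div, div_le_iff₀ (by positivity)]
      have e3 : ε ^ 2 * (p * (μ * U.card)) ≤ ε ^ 2 * (8 * (ls * k)) := mul_le_mul_of_nonneg_left e2 (by positivity)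
      nlinarith
    have e4 : Real.exp (-((ε / 4) ^ 2 * k / 2)) ≤ Real.exp (-(ε ^ 2 * p * μ / (256 * ls) * U.card)) :=
      Real.exp_le_exp.2 (by linarith)
    exact mul_le_mul (mul_le_mul_of_nonneg_left hUU (by positivity)) e4 (Real.exp_pos _).le (by positivity)
  choose! k P hk hkM hP1 hP2 hP3 hP4 using hpart'
  set Qb : ℝ := 48 * ls ^ 2 * p / ε with hQb
  have hQb0 : 0 < Qb := by positivity
  have hQb1 : ∀ c ∈ D \ D', ∀ t : ℝ, t ≤ 3 * p ^ 2 * U'.card → 4 * ls / (ε * k c) * t ≤ Qb := by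
    intro c hc t ht
    have hkc : (0 : ℝ) < k c := by exact_mod_cast hk c hc
    have e1 : 4 * ls / (ε * k c) * t ≤ 4 * ls / (ε * k c) * (3 * p ^ 2 * U'.card) :=
      mul_le_mul_of_nonneg_left ht (by positivity)
    refine e1.trans ?_
    rw [hQb, div_mul_eq_mul_div, div_le_div_iff₀ (by positivity) hε]
    have e2 := hkM c hc
    have e3 : p * U'.card ≤ 4 * (ls * k c) := by linarith
    have e4 : 12 * ls * p * ε * (p * U'.card) ≤ 12 * ls * p * ε * (4 * (ls * k c)) :=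
      mul_le_mul_of_nonneg_left e3 (by positivity)
    nlinarith
  let I : Type := ({u // u ∈ U'} × {c // c ∈ D \ D'}) ⊕ ({u // u ∈ U'} × {x // x ∈ U \ U'})
  let Q : I → Finset (Sym2 V) := fun i => match i with
    | Sum.inl w => (vt T w.2.1).image (fun v => s(w.1.1, v))
    | Sum.inr w => (nb T w.2.1).image (fun v => s(w.1.1, v))
  let B : I → ℝ := fun i => match i with
    | Sum.inl w => ε / 4 * k w.2.1
    | Sum.inr w => κ * (nb T w.2.1).card
  let q : C → I → ℝ := fun c i => match i with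
    | Sum.inl w => if w.1.1 ∈ vt T c then (if w.2.1 = c then 2 else Qb) else 0
    | Sum.inr w => if w.1.1 ∈ vt T c then Qb else 0
  have hq0 : ∀ c i, 0 ≤ q c i := by
    rintro c (w | w)
    · show 0 ≤ (if w.1.1 ∈ vt T c then (if w.2.1 = c then 2 else Qb) else 0)
      split_ifs <;> linarith
    · show 0 ≤ (if w.1.1 ∈ vt T c then Qb else 0)
      split_ifs <;> linarith
  have hqs : ∀ i, ∑ c ∈ D \ D', q c i ≤ 2 + 2 * p * U.card * Qb := by
    have key : ∀ u ∈ U', ∑ c ∈ D \ D', (if u ∈ vt T c then Qb else 0) ≤ 2 * p * U.card * Qb := by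
      intro u hu
      rw [← Finset.sum_filter, Finset.sum_const, nsmul_eq_mul]
      exact mul_le_mul_of_nonneg_right (LkS3_cu h hu) hQb0.le
    rintro (w | w)
    · have e1 : ∀ c ∈ D \ D', q c (Sum.inl w) ≤ (if w.2.1 = c then 2 else 0) + (if w.1.1 ∈ vt T c then Qb else 0) := by
        intro c _
        show (if w.1.1 ∈ vt T c then (if w.2.1 = c then 2 else Qb) else 0) ≤ _
        split_ifs <;> linarith
      refine (Finset.sum_le_sum e1).trans ?_
      rw [Finset.sum_add_distrib, Finset.sum_ite_eq, if_pos w.2.2]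
      have := key w.1.1 w.1.2
      linarith
    · have := key w.1.1 w.1.2
      show ∑ c ∈ D \ D', (if w.1.1 ∈ vt T c then Qb else 0) ≤ _
      linarith
  have hcardI : (Fintype.card I : ℝ) ≤ 2 * (U.card : ℝ) ^ 2 := by
    have e1 : Fintype.card I = U'.card * (D \ D').card + U'.card * (U \ U').card := by
      show Fintype.card (({u // u ∈ U'} × {c // c ∈ D \ D'}) ⊕ ({u // u ∈ U'} × {x // x ∈ U \ U'})) = _
      rw [Fintype.card_sum, Fintype.card_prod, Fintype.card_prod, Fintype.card_coe, Fintype.card_coe, Fintype.card_coe]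
    have e2 : (D \ D').card ≤ U.card := (Finset.card_le_card Finset.sdiff_subset).trans h.Dhi
    have e3 : (U \ U').card ≤ U.card := Finset.card_le_card Finset.sdiff_subset
    have e4 : U'.card ≤ U.card := Finset.card_le_card h.subU
    have e5 : Fintype.card I ≤ 2 * U.card ^ 2 := by
      rw [e1]
      have e6 := Nat.mul_le_mul e4 e2
      have e7 := Nat.mul_le_mul e4 e3
      nlinarith
    exact_mod_cast e5
  have hBlow : ∀ i, β * p * (U'.card : ℝ) ≤ B i := by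
    rintro (w | w)
    · show β * p * (U'.card : ℝ) ≤ ε / 4 * k w.2.1
      have e1 := hkM w.2.1 w.2.2
      have e2 : β * p * (U'.card : ℝ) ≤ ε / (16 * ls) * (p * U'.card) := by
        rw [mul_assoc]
        exact mul_le_mul_of_nonneg_right hβ1 (by positivity)
      refine e2.trans ?_
      rw [div_mul_eq_mul_div, div_le_iff₀ (by positivity)]
      have e3 : ε * (p * U'.card) ≤ ε * (4 * (ls * k w.2.1)) := mul_le_mul_of_nonneg_left (by linarith) hε.le
      nlinarith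
    · show β * p * (U'.card : ℝ) ≤ κ * (nb T w.2.1).card
      have e1 := (h.nx w.2.1 w.2.2).1
      have e2 : β * p * (U'.card : ℝ) ≤ κ / 4 * (p * U'.card) := by
        rw [mul_assoc]
        exact mul_le_mul_of_nonneg_right hβ2 (by positivity)
      refine e2.trans ?_
      have e3 : κ * (p / 4 * (U'.card : ℝ)) ≤ κ * (nb T w.2.1).card := mul_le_mul_of_nonneg_left e1 hκ.le
      linarith
  have hcond : ∀ i, 2 * Real.log (Fintype.card I) + 2 * ∑ c ∈ D \ D', q c i ≤ B i := by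
    intro i
    have hI : (0 : ℝ) < Fintype.card I := by
      have : Nonempty I := ⟨i⟩
      exact_mod_cast Fintype.card_pos
    have e1 : Real.log (Fintype.card I) ≤ Real.log (2 * (U.card : ℝ) ^ 2) := Real.log_le_log hI hcardI
    have e2 := hqs i
    have e3 := hBlow i
    have e4 := hmr1.2
    have e5 : β * p * (μ * U.card / 2) ≤ β * p * U'.card := mul_le_mul_of_nonneg_left hMm (by positivity)
    have e6 : 4 * (p * U.card * Qb) ≤ β * μ * p / 4 * U.card := by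
      have e7 : 768 * ls ^ 2 * p ≤ β * μ * ε := by
        rw [le_div_iff₀ (by positivity)] at hpp
        linarith
      have e8 : 4 * (p * U.card * Qb) = (768 * ls ^ 2 * p) * (p * U.card) / (4 * ε) := by
        rw [hQb]
        field_simp
        ring
      have e9 : β * μ * p / 4 * U.card = (β * μ * ε) * (p * U.card) / (4 * ε) := by
        field_simp
      rw [e8, e9]
      exact div_le_div_of_nonneg_right (mul_le_mul_of_nonneg_right e7 (by positivity)) (by positivity)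
    nlinarith
  obtain ⟨b, hb1, hb2, hb3⟩ := hgen (Sym2 V) C I (D \ D') Q (LkS3_Ok T U'' ls) 2 q B (by norm_num) hq0 hcond (by
    intro c hc S hS
    obtain ⟨Ω, iF, iN, b, hbO, hb2, hb3⟩ := LkS3_opt hone hfam h hε hls hc (hk c hc) (hP1 c hc) (hP2 c hc) (hP3 c hc)
      (hP4 c hc) S (fun u hu => hS (Sum.inl (⟨u, hu⟩, ⟨c, hc⟩)))
    refine ⟨Ω, iF, iN, b, hbO, ?_, ?_⟩
    · rintro ω (w | w)
      · exact hb2 ω w.1.1 (vt T w.2.1)
      · exact hb2 ω w.1.1 (nb T w.2.1)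
    · have hΩ : (0 : ℝ) ≤ Fintype.card Ω := by positivity
      rintro (w | w)
      · show ∑ ω, ((b ω ∩ (vt T w.2.1).image (fun v => s(w.1.1, v))).card : ℝ) ≤
          (if w.1.1 ∈ vt T c then (if w.2.1 = c then 2 else Qb) else 0) * Fintype.card Ω
        have e1 := hb3 w.1.1 (vt T w.2.1)
        by_cases hw : w.1.1 ∈ vt T c
        · rw [if_pos hw] at e1 ⊢
          by_cases hcc : w.2.1 = c
          · rw [if_pos hcc]
            refine (Finset.sum_le_sum fun ω _ => hb2 ω w.1.1 (vt T w.2.1)).trans ?_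
            rw [Finset.sum_const, nsmul_eq_mul, Finset.card_univ, mul_comm]
          · rw [if_neg hcc]
            exact e1.trans (mul_le_mul_of_nonneg_right (hQb1 c hc _ (h.ww w.2.1 w.2.2 c hc hcc)) hΩ)
        · rw [if_neg hw] at e1 ⊢
          exact e1
      · show ∑ ω, ((b ω ∩ (nb T w.2.1).image (fun v => s(w.1.1, v))).card : ℝ) ≤
          (if w.1.1 ∈ vt T c then Qb else 0) * Fintype.card Ω
        have e1 := hb3 w.1.1 (nb T w.2.1)
        by_cases hw : w.1.1 ∈ vt T c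
        · rw [if_pos hw] at e1 ⊢
          exact e1.trans (mul_le_mul_of_nonneg_right (hQb1 c hc _ (h.nw w.2.1 w.2.2 c hc)) hΩ)
        · rw [if_neg hw] at e1 ⊢
          exact e1)
  have hF : ∀ c ∈ D \ D', LkS3_Ok T U'' ls c (b c) := hb1
  unfold LkS3_Ok at hF
  choose! F hF1 hF2 hF3 hF4 hF5 hF6 using hF
  have hunl : ∀ e, (Sum.inl e : Item V C) ∈ un ((D \ D').biUnion F) ↔ ∃ c ∈ D \ D', e ∈ b c := by
    intro e
    rw [LkS3_mem_un]
    constructor
    · rintro ⟨x, hx, he⟩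
      obtain ⟨c, hc, hxc⟩ := Finset.mem_biUnion.1 hx
      exact ⟨c, hc, (hF4 c hc e).1 (LkS3_mem_un.2 ⟨x, hxc, he⟩)⟩
    · rintro ⟨c, hc, he⟩
      obtain ⟨x, hx, hex⟩ := LkS3_mem_un.1 ((hF4 c hc e).2 he)
      exact ⟨x, Finset.mem_biUnion.2 ⟨c, hc, hx⟩, hex⟩
  have hunr : ∀ v c', (Sum.inr (v, c') : Item V C) ∈ un ((D \ D').biUnion F) ↔ c' ∈ D \ D' ∧ v ∈ vt T c' := by
    intro v c'
    rw [LkS3_mem_un]
    constructor
    · rintro ⟨x, hx, he⟩
      obtain ⟨c, hc, hxc⟩ := Finset.mem_biUnion.1 hx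
      obtain ⟨rfl, hv⟩ := (hF3 c hc v c').1 (LkS3_mem_un.2 ⟨x, hxc, he⟩)
      exact ⟨hc, hv⟩
    · rintro ⟨hc, hv⟩
      obtain ⟨x, hx, hex⟩ := LkS3_mem_un.1 ((hF3 c' hc v c').2 ⟨rfl, hv⟩)
      exact ⟨x, Finset.mem_biUnion.2 ⟨c', hc, hx⟩, hex⟩
  refine ⟨(D \ D').biUnion F, ?_, ?_, ?_, ?_, ?_, ?_, ?_⟩
  · intro x hx
    obtain ⟨c, hc, hxc⟩ := Finset.mem_biUnion.1 hx
    exact ⟨(hF1 c hc x hxc).1, c, hc, (hF1 c hc x hxc).2⟩
  · intro x hx y hy hxy
    obtain ⟨c, hc, hxc⟩ := Finset.mem_biUnion.1 hx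
    obtain ⟨c', hc', hyc'⟩ := Finset.mem_biUnion.1 hy
    by_cases hcc : c = c'
    · subst hcc
      exact hF2 c hc x hxc y hyc' hxy
    · rw [Finset.disjoint_left]
      intro i hi hi'
      have h1 : i ∈ un (F c) := LkS3_mem_un.2 ⟨x, hxc, hi⟩
      have h2 : i ∈ un (F c') := LkS3_mem_un.2 ⟨y, hyc', hi'⟩
      rcases i with e | ⟨v, d⟩
      · exact Finset.disjoint_left.1 (hb2 c hc c' hc' hcc) ((hF4 c hc e).1 h1) ((hF4 c' hc' e).1 h2)
      · exact hcc (((hF3 c hc v d).1 h1).1.symm.trans ((hF3 c' hc' v d).1 h2).1)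
  · intro c hc v hv
    exact (hunr v c).2 ⟨hc, hv⟩
  · intro v c hv
    have h1 := (hunr v c).1 hv
    exact ⟨LkS3_sub h h1.1 h1.2, h1.1⟩
  · intro u v huv
    obtain ⟨c, hc, hbc⟩ := (hunl _).1 huv
    have h1 := hF5 c hc u v hbc
    exact ⟨LkS3_sub h hc h1.1, LkS3_sub h hc h1.2.1, h1.2.2⟩
  · intro u hu
    have h1 : nb (un ((D \ D').biUnion F)) u ⊆
        ((D \ D').filter (fun c => u ∈ vt T c)).biUnion fun c => nb (un (F c)) u := by
      intro v hv
      obtain ⟨c, hc, hbc⟩ := (hunl _).1 (LkS3_mem_nb.1 hv)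
      exact Finset.mem_biUnion.2 ⟨c, Finset.mem_filter.2 ⟨hc, (hF5 c hc u v hbc).1⟩,
        LkS3_mem_nb.2 ((hF4 c hc _).2 hbc)⟩
    have h2 : (((D \ D').filter (fun c => u ∈ vt T c)).biUnion fun c => nb (un (F c)) u).card ≤
        ((D \ D').filter (fun c => u ∈ vt T c)).card * 2 :=
      Finset.card_biUnion_le_card_mul _ _ _ fun c hc => hF6 c (Finset.mem_filter.1 hc).1 u
    have h3 : ((nb (un ((D \ D').biUnion F)) u).card : ℝ) ≤
        (((D \ D').filter (fun c => u ∈ vt T c)).card : ℝ) * 2 := by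
      exact_mod_cast (Finset.card_le_card h1).trans h2
    have h4 := LkS3_cu h hu
    linarith
  · intro u hu x hx
    have h1 := hb3 (Sum.inr (⟨u, hu⟩, ⟨x, hx⟩))
    refine le_trans ?_ h1
    have h2 : (nb (un ((D \ D').biUnion F)) u ∩ nb T x).card ≤
        ((D \ D').biUnion b ∩ (nb T x).image (fun v => s(u, v))).card := by
      refine Finset.card_le_card_of_injOn (fun v => s(u, v)) ?_ ?_
      · intro v hv
        have hv' := Finset.mem_inter.1 (Finset.mem_coe.1 hv)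
        obtain ⟨c, hc, hbc⟩ := (hunl _).1 (LkS3_mem_nb.1 hv'.1)
        exact Finset.mem_coe.2 (Finset.mem_inter.2 ⟨Finset.mem_biUnion.2 ⟨c, hc, hbc⟩,
          Finset.mem_image.2 ⟨v, hv'.2, rfl⟩⟩)
      · intro v _ w _ hvw
        exact Sym2.congr_right.1 hvw
    exact_mod_cast h2

end Pool.Agent.OBW
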