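import Mathlib
import Pool.Agent.OBW.LkStmts

/-!
# LkS4 : theorem lk_s4 (hpart : PartStmt) (hgen : LkGenStmt) (hxs : LkXsStmt) : LkS4Stmt

Notation: M = |U'|, m = |U|, X = U \ U'. nb T x ⊆ U', cl T x ⊆ D' for x ∈ X (eX, cX, ins). k_x := |cl T x|, |nb T x| = 2 k_x (bx),
k_x ≥ pM/8 > 0; m ≤ 2M/μ.
PART for x ∈ X: W = nb T x, l = 2, k = k_x, tests nb T u \ U'' (u ∈ U'), ξ = 1/100: classes N_{x,0}, N_{x,1} of size k_x with
 |(nb T u \ U'') ∩ N_{x,i}| ≥ 13/20 k_x - 1/100 k_x = 64/100 k_x (un gives |(nb T u ∩ nb T x)\U''| ≥ 13/20 * 2 k_x).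
GEN with ι = Sym2 V ⊕ (V × C) (used edges f-g and used pairs), A = X, k₀ = 2.
-/

set_option autoImplicit false
namespace Pool.Agent.OBW
open Finset
open scoped Classical

theorem lks4_num {c : ℝ} (hc : 0 < c) (K : ℝ) : ∃ m₀ : ℕ, 1 ≤ m₀ ∧ ∀ m : ℕ, m₀ ≤ m →
    K ≤ m ∧ 2 * Real.log (3 * (m : ℝ) ^ 2) + 4 ≤ c * m := by
  have h1 : ∀ᶠ x : ℝ in Filter.atTop, ‖Real.log x‖ ≤ (c / 8) * ‖id x‖ :=
    (Real.isLittleO_log_id_atTop.def (by positivity : 0 < c / 8))
  have h2 : ∀ᶠ m : ℕ in Filter.atTop, ‖Real.log (m : ℝ)‖ ≤ (c / 8) * ‖id (m : ℝ)‖ :=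
    tendsto_natCast_atTop_atTop.eventually h1
  obtain ⟨m1, hm1⟩ := Filter.eventually_atTop.1 h2
  obtain ⟨m2, hm2⟩ := exists_nat_ge (max K ((2 * Real.log 3 + 4) / (c / 2)))
  refine ⟨max 1 (max m1 m2), le_max_left _ _, fun m hm => ?_⟩
  have hm1' : 1 ≤ m := (le_max_left _ _).trans hm
  have hm2' : m1 ≤ m := (le_max_left _ _).trans ((le_max_right _ _).trans hm)
  have hm3' : m2 ≤ m := (le_max_right _ _).trans ((le_max_right _ _).trans hm)
  have hm3 : (m2 : ℝ) ≤ m := by exact_mod_cast hm3'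
  have hmp : (0 : ℝ) < m := by exact_mod_cast hm1'
  refine ⟨(le_max_left _ _).trans (hm2.trans hm3), ?_⟩
  have h3 := hm1 m hm2'
  rw [Real.norm_eq_abs, Real.norm_eq_abs, id, abs_of_pos hmp] at h3
  have h4 := le_trans (le_abs_self _) h3
  have h5 : (2 * Real.log 3 + 4) / (c / 2) ≤ m := (le_max_right _ _).trans (hm2.trans hm3)
  rw [div_le_iff₀ (by positivity)] at h5
  rw [Real.log_mul (by norm_num) (by positivity), Real.log_pow]
  push_cast
  linarith

section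
variable {V C : Type} [Fintype V] [DecidableEq V] [Fintype C] [DecidableEq C]

/-- block -/
def lks4Blk (A : Finset C) (f g : C → V) : Finset (Item V C) :=
  A.image (fun c => (Sum.inl s(f c, g c) : Item V C)) ∪ A.image (fun c => (Sum.inr (f c, c) : Item V C)) ∪
    A.image (fun c => (Sum.inr (g c, c) : Item V C))

omit [Fintype V] [Fintype C] in
theorem lks4_inl {A : Finset C} {f g : C → V} {e : Sym2 V} :
    (Sum.inl e : Item V C) ∈ lks4Blk A f g ↔ ∃ c ∈ A, e = s(f c, g c) := by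
  unfold lks4Blk
  simp only [mem_union, mem_image]
  constructor
  · rintro ((⟨c, hc, h⟩ | ⟨c, hc, h⟩) | ⟨c, hc, h⟩)
    · exact ⟨c, hc, (Sum.inl.inj h).symm⟩
    · cases h
    · cases h
  · rintro ⟨c, hc, h⟩
    exact Or.inl (Or.inl ⟨c, hc, by rw [h]⟩)

omit [Fintype V] [Fintype C] in
theorem lks4_inr {A : Finset C} {f g : C → V} {u : V} {c : C} :
    (Sum.inr (u, c) : Item V C) ∈ lks4Blk A f g ↔ c ∈ A ∧ (f c = u ∨ g c = u) := by
  unfold lks4Blk
  simp only [mem_union, mem_image]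
  constructor
  · rintro ((⟨c', hc, h⟩ | ⟨c', hc, h⟩) | ⟨c', hc, h⟩)
    · cases h
    · have h1 := Sum.inr.inj h
      rw [Prod.mk.injEq] at h1
      obtain ⟨h2, rfl⟩ := h1
      exact ⟨hc, Or.inl h2⟩
    · have h1 := Sum.inr.inj h
      rw [Prod.mk.injEq] at h1
      obtain ⟨h2, rfl⟩ := h1
      exact ⟨hc, Or.inr h2⟩
  · rintro ⟨hc, h | h⟩
    · exact Or.inl (Or.inr ⟨c, hc, by rw [h]⟩)
    · exact Or.inr ⟨c, hc, by rw [h]⟩

omit [Fintype V] [Fintype C] in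
theorem lks4_Ku {A : Finset C} {f g : C → V} (hf : Set.InjOn f A) (hg : Set.InjOn g A) (u : V) :
    (A.filter (fun c => f c = u ∨ g c = u)).card ≤ 2 := by
  rw [Finset.filter_or]
  refine (card_union_le _ _).trans ?_
  have h1 : (A.filter (fun c => f c = u)).card ≤ 1 := by
    rw [card_le_one]
    intro a ha b hb
    rw [mem_filter] at ha hb
    exact hf (mem_coe.2 ha.1) (mem_coe.2 hb.1) (ha.2.trans hb.2.symm)
  have h2 : (A.filter (fun c => g c = u)).card ≤ 1 := by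
    rw [card_le_one]
    intro a ha b hb
    rw [mem_filter] at ha hb
    exact hg (mem_coe.2 ha.1) (mem_coe.2 hb.1) (ha.2.trans hb.2.symm)
  omega

omit [Fintype V] [Fintype C] in
theorem lks4_a {A : Finset C} {f g : C → V} (N : Finset V) (u : V) :
    (lks4Blk A f g ∩ N.image (fun v => (Sum.inl s(u, v) : Item V C))).card ≤
      (A.filter (fun c => f c = u ∨ g c = u)).card := by
  refine le_trans (card_le_card ?_) (card_image_le (f := fun c => (Sum.inl s(f c, g c) : Item V C)))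
  intro i hi
  rw [mem_inter, mem_image] at hi
  obtain ⟨h1, v, hv, rfl⟩ := hi
  obtain ⟨c, hc, h⟩ := lks4_inl.1 h1
  refine mem_image.2 ⟨c, mem_filter.2 ⟨hc, ?_⟩, by rw [h]⟩
  have h2 : u ∈ s(f c, g c) := by rw [← h]; exact Sym2.mem_mk_left _ _
  rw [Sym2.mem_iff] at h2
  rcases h2 with h2 | h2
  · exact Or.inl h2.symm
  · exact Or.inr h2.symm

omit [Fintype V] [Fintype C] in
theorem lks4_b {A : Finset C} {f g : C → V} (N : Finset C) (u : V) :
    (lks4Blk A f g ∩ N.image (fun c => (Sum.inr (u, c) : Item V C))).card ≤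
      (A.filter (fun c => f c = u ∨ g c = u)).card := by
  refine le_trans (card_le_card ?_) (card_image_le (f := fun c => (Sum.inr (u, c) : Item V C)))
  intro i hi
  rw [mem_inter, mem_image] at hi
  obtain ⟨h1, c, hc, rfl⟩ := hi
  obtain ⟨h2, h3⟩ := lks4_inr.1 h1
  exact mem_image.2 ⟨c, mem_filter.2 ⟨h2, h3⟩, rfl⟩

omit [Fintype V] [Fintype C] in
theorem lks4_c {A : Finset C} {f g : C → V} (N : Finset V) (c : C) :
    (lks4Blk A f g ∩ N.image (fun u => (Sum.inr (u, c) : Item V C))).card ≤ 2 := by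
  have h0 : lks4Blk A f g ∩ N.image (fun u => (Sum.inr (u, c) : Item V C)) ⊆
      {(Sum.inr (f c, c) : Item V C), (Sum.inr (g c, c) : Item V C)} := by
    intro i hi
    rw [mem_inter, mem_image] at hi
    obtain ⟨h1, u, hu, rfl⟩ := hi
    obtain ⟨h2, h3⟩ := lks4_inr.1 h1
    rw [mem_insert, mem_singleton]
    rcases h3 with h3 | h3
    · exact Or.inl (by rw [h3])
    · exact Or.inr (by rw [h3])
  exact (card_le_card h0).trans card_le_two

omit [Fintype V] [DecidableEq V] [Fintype C] [DecidableEq C] in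
theorem lks4_filt {ζ : Type} (Z : Finset ζ) (P1 P2 : ζ → Prop) [DecidablePred P1] [DecidablePred P2] :
    (Z.filter (fun z => P1 z ∨ P2 z)).card ≤ ∑ z ∈ Z, ((if P1 z then 1 else 0) + (if P2 z then 1 else 0)) := by
  rw [card_filter]
  apply Finset.sum_le_sum
  intro z _
  by_cases h1 : P1 z <;> by_cases h2 : P2 z <;> simp [h1, h2]

omit [Fintype V] [Fintype C] in
theorem lks4_a' {A : Finset C} {f g : C → V} (N0 N : Finset V) (u : V) (hf : ∀ c ∈ A, f c ∈ N0)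
    (hg : ∀ c ∈ A, g c ∈ N0) :
    (lks4Blk A f g ∩ N.image (fun v => (Sum.inl s(u, v) : Item V C))).card ≤
      ∑ v ∈ N0 ∩ N, ((if ∃ c ∈ A, f c = u ∧ g c = v then 1 else 0) + (if ∃ c ∈ A, f c = v ∧ g c = u then 1 else 0)) := by
  refine le_trans ?_ (lks4_filt _ (fun _ => _) (fun _ => _))
  refine le_trans (card_le_card ?_) (card_image_le (f := fun v => (Sum.inl s(u, v) : Item V C)))
  intro i hi
  rw [mem_inter, mem_image] at hi
  obtain ⟨h1, v, hv, rfl⟩ := hi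
  obtain ⟨c, hc, h⟩ := lks4_inl.1 h1
  refine mem_image.2 ⟨v, mem_filter.2 ⟨mem_inter.2 ⟨?_, hv⟩, ?_⟩, rfl⟩
  · rcases Sym2.eq_iff.1 h with ⟨_, h3⟩ | ⟨_, h3⟩
    · rw [h3]; exact hg c hc
    · rw [h3]; exact hf c hc
  · rcases Sym2.eq_iff.1 h with ⟨h2, h3⟩ | ⟨h2, h3⟩
    · exact Or.inl ⟨c, hc, h2.symm, h3.symm⟩
    · exact Or.inr ⟨c, hc, h3.symm, h2.symm⟩

omit [Fintype V] [Fintype C] in
theorem lks4_b' {A : Finset C} {f g : C → V} (N : Finset C) (u : V) :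
    (lks4Blk A f g ∩ N.image (fun c => (Sum.inr (u, c) : Item V C))).card ≤
      ∑ c ∈ A ∩ N, ((if f c = u then 1 else 0) + (if g c = u then 1 else 0)) := by
  refine le_trans ?_ (lks4_filt _ (fun _ => _) (fun _ => _))
  refine le_trans (card_le_card ?_) (card_image_le (f := fun c => (Sum.inr (u, c) : Item V C)))
  intro i hi
  rw [mem_inter, mem_image] at hi
  obtain ⟨h1, c, hc, rfl⟩ := hi
  obtain ⟨h2, h3⟩ := lks4_inr.1 h1
  exact mem_image.2 ⟨c, mem_filter.2 ⟨mem_inter.2 ⟨h2, hc⟩, h3⟩, rfl⟩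

omit [Fintype V] [Fintype C] in
theorem lks4_c' {A : Finset C} {f g : C → V} (N0 N : Finset V) (c : C) (hf : ∀ c ∈ A, f c ∈ N0)
    (hg : ∀ c ∈ A, g c ∈ N0) :
    (lks4Blk A f g ∩ N.image (fun u => (Sum.inr (u, c) : Item V C))).card ≤
      ∑ u ∈ N0 ∩ N, ((if f c = u then 1 else 0) + (if g c = u then 1 else 0)) := by
  refine le_trans ?_ (lks4_filt _ (fun _ => _) (fun _ => _))
  refine le_trans (card_le_card ?_) (card_image_le (f := fun u => (Sum.inr (u, c) : Item V C)))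
  intro i hi
  rw [mem_inter, mem_image] at hi
  obtain ⟨h1, u, hu, rfl⟩ := hi
  obtain ⟨h2, h3⟩ := lks4_inr.1 h1
  refine mem_image.2 ⟨u, mem_filter.2 ⟨mem_inter.2 ⟨?_, hu⟩, h3⟩, rfl⟩
  rcases h3 with h3 | h3
  · rw [← h3]; exact hf c h2
  · rw [← h3]; exact hg c h2

omit [Fintype V] [DecidableEq V] [Fintype C] [DecidableEq C] in
theorem lks4_avg {Ω ζ : Type} [Fintype Ω] (Z : Finset ζ) (P1 P2 : Ω → ζ → Prop) [∀ ω z, Decidable (P1 ω z)]
    [∀ ω z, Decidable (P2 ω z)] (L : Ω → ℕ)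
    {k M p : ℝ} (hp : 0 < p) (hM : 0 < M) (hk : p * M / 8 ≤ k) (hZ : (Z.card : ℝ) ≤ 3 * p ^ 2 * M)
    (hL : ∀ ω, L ω ≤ ∑ z ∈ Z, ((if P1 ω z then 1 else 0) + (if P2 ω z then 1 else 0)))
    (h1 : ∀ z ∈ Z, k / 20 * ((univ.filter (fun ω => P1 ω z)).card : ℝ) ≤ Fintype.card Ω)
    (h2 : ∀ z ∈ Z, k / 20 * ((univ.filter (fun ω => P2 ω z)).card : ℝ) ≤ Fintype.card Ω) :
    ∑ ω, (L ω : ℝ) ≤ 960 * p * Fintype.card Ω := by
  have hk0 : 0 < k := lt_of_lt_of_le (by positivity) hk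
  have h3 : ∑ ω, L ω ≤ ∑ z ∈ Z, ((univ.filter (fun ω => P1 ω z)).card + (univ.filter (fun ω => P2 ω z)).card) := by
    calc ∑ ω, L ω ≤ ∑ ω, ∑ z ∈ Z, ((if P1 ω z then 1 else 0) + (if P2 ω z then 1 else 0)) :=
          Finset.sum_le_sum (fun ω _ => hL ω)
      _ = ∑ z ∈ Z, ∑ ω, ((if P1 ω z then 1 else 0) + (if P2 ω z then 1 else 0)) := Finset.sum_comm
      _ = _ := by
          apply Finset.sum_congr rfl
          intro z _
          rw [Finset.sum_add_distrib, card_filter, card_filter]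
  have h4 : ∑ ω, (L ω : ℝ) ≤ ∑ z ∈ Z, (((univ.filter (fun ω => P1 ω z)).card : ℝ) + ((univ.filter (fun ω => P2 ω z)).card : ℝ)) := by
    exact_mod_cast h3
  have h5 : k / 20 * ∑ z ∈ Z, (((univ.filter (fun ω => P1 ω z)).card : ℝ) + ((univ.filter (fun ω => P2 ω z)).card : ℝ)) ≤
      Z.card * (2 * Fintype.card Ω) := by
    rw [Finset.mul_sum, ← nsmul_eq_mul]
    apply Finset.sum_le_card_nsmul
    intro z hz
    have := h1 z hz
    have := h2 z hz
    linarith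
  have h6 : (Z.card : ℝ) * (2 * Fintype.card Ω) ≤ 3 * p ^ 2 * M * (2 * Fintype.card Ω) :=
    mul_le_mul_of_nonneg_right hZ (by positivity)
  have h7 : 3 * p ^ 2 * M * (2 * (Fintype.card Ω : ℝ)) ≤ k / 20 * (960 * p * Fintype.card Ω) := by
    have h8 : 0 ≤ (48 * p * (Fintype.card Ω : ℝ)) := by positivity
    nlinarith [mul_le_mul_of_nonneg_left hk h8]
  refine h4.trans ?_
  exact le_of_mul_le_mul_left (h5.trans (h6.trans h7)) (by positivity)


omit [Fintype V] [DecidableEq C] [Fintype C] in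
theorem lks4_cover {N G B1 B2 : Finset V} (h : G ⊆ N ∪ (B1 ∪ B2)) {g b1 b2 : ℝ} (hg : g ≤ G.card)
    (h1 : (B1.card : ℝ) ≤ b1) (h2 : (B2.card : ℝ) ≤ b2) : g - b1 - b2 ≤ (N.card : ℝ) := by
  have h3 := (card_le_card h).trans ((card_union_le _ _).trans (Nat.add_le_add_left (card_union_le _ _) _))
  have h4 : (G.card : ℝ) ≤ N.card + (B1.card + B2.card) := by exact_mod_cast h3
  linarith

omit [Fintype V] [DecidableEq V] [DecidableEq C] [Fintype C] in
theorem lks4_inj {α β : Type} [DecidableEq α] [DecidableEq β] (N : Finset α) (W : Finset β) (φ : α → β)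
    (hφ : Function.Injective φ) : (N.filter (fun u => φ u ∈ W)).card ≤ (W ∩ N.image φ).card := by
  rw [← card_image_of_injective (N.filter (fun u => φ u ∈ W)) hφ]
  apply card_le_card
  intro b hb
  obtain ⟨a, ha, rfl⟩ := mem_image.1 hb
  rw [mem_filter] at ha
  exact mem_inter.2 ⟨ha.2, mem_image_of_mem _ ha.1⟩

omit [Fintype C] in
theorem lks4_mem_nb {S : Finset (Item V C)} {u v : V} : u ∈ nb S v ↔ (Sum.inl s(v, u) : Item V C) ∈ S := by
  unfold nb
  simp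

omit [Fintype V] in
theorem lks4_mem_cl {S : Finset (Item V C)} {v : V} {c : C} : c ∈ cl S v ↔ (Sum.inr (v, c) : Item V C) ∈ S := by
  unfold cl
  simp

omit [Fintype C] in
theorem lks4_mem_vt {S : Finset (Item V C)} {v : V} {c : C} : v ∈ vt S c ↔ (Sum.inr (v, c) : Item V C) ∈ S := by
  unfold vt
  simp

omit [Fintype C] in
theorem lks4_nb_symm {S : Finset (Item V C)} {u v : V} (h : u ∈ nb S v) : v ∈ nb S u := by
  rw [lks4_mem_nb] at h ⊢
  rwa [Sym2.eq_swap]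

theorem lks4_nbU {p ε μ : ℝ} {ls : ℕ} {U U' U'' : Finset V} {D D' D'' : Finset C} {T : Finset (Item V C)}
    (h : LinkHyp p ε μ ls U U' U'' D D' D'' T) {x : V} (hx : x ∈ U \ U') : nb T x ⊆ U' := by
  intro u hu
  rw [lks4_mem_nb] at hu
  by_contra h1
  exact h.eX x hx u (mem_sdiff.2 ⟨(h.ins.1 x u hu).2.2, h1⟩) hu

theorem lks4_clD {p ε μ : ℝ} {ls : ℕ} {U U' U'' : Finset V} {D D' D'' : Finset C} {T : Finset (Item V C)}
    (h : LinkHyp p ε μ ls U U' U'' D D' D'' T) {x : V} (hx : x ∈ U \ U') : cl T x ⊆ D' := by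
  intro c hc
  rw [lks4_mem_cl] at hc
  by_contra h1
  exact h.cX x hx c (mem_sdiff.2 ⟨(h.ins.2 x c hc).2, h1⟩) hc

theorem lks4_k {p ε μ : ℝ} {ls : ℕ} {U U' U'' : Finset V} {D D' D'' : Finset C} {T : Finset (Item V C)}
    (h : LinkHyp p ε μ ls U U' U'' D D' D'' T) {x : V} (hx : x ∈ U \ U') :
    p * (U'.card : ℝ) / 8 ≤ (cl T x).card ∧ ((nb T x).card : ℝ) = 2 * (cl T x).card := by
  have h1 := h.bx x hx
  have h2 : ((nb T x).card : ℝ) = 2 * (cl T x).card := by exact_mod_cast h1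
  have h3 := (h.nx x hx).1
  rw [h2] at h3
  exact ⟨by linarith, h2⟩

theorem lks4_part (hpart : PartStmt) {p ε μ : ℝ} {ls : ℕ} {U U' U'' : Finset V} {D D' D'' : Finset C}
    {T : Finset (Item V C)} (h : LinkHyp p ε μ ls U U' U'' D D' D'' T) {x : V} (hx : x ∈ U \ U')
    (hk : 0 < (cl T x).card)
    (hexp : 2 * ((2 : ℕ) : ℝ) * (Fintype.card {u // u ∈ U'} : ℝ) *
      Real.exp (-((1 / 100 : ℝ) ^ 2 * ((cl T x).card : ℝ) / 2)) < 1) :
    ∃ N : ℕ → Finset V, (∀ a < 2, N a ⊆ nb T x ∧ (N a).card = (cl T x).card ∧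
      ∀ u ∈ U', (64 / 100 : ℝ) * (cl T x).card ≤ (((N a).filter (fun v => v ∈ nb T u \ U'')).card : ℝ)) ∧
      Disjoint (N 0) (N 1) ∧ nb T x ⊆ N 0 ∪ N 1 := by
  obtain ⟨φ, h1, h2, h3⟩ := hpart V {u // u ∈ U'} (nb T x) 2 (cl T x).card (fun u => nb T u.1 \ U'') (1 / 100)
    (by norm_num) hk (h.bx x hx) (by norm_num) hexp
  refine ⟨fun a => (nb T x).filter (fun v => φ v = a), ?_, ?_, ?_⟩
  · intro a ha
    refine ⟨filter_subset _ _, ?_, ?_⟩
    · convert h2 a ha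
    · intro u hu
      have h4 := h3 ⟨u, hu⟩ a ha
      have h5 := h.un u hu x hx
      have h6 : (nb T u ∩ nb T x) \ U'' = nb T x ∩ (nb T u \ U'') := by
        ext v
        simp only [mem_sdiff, mem_inter]
        tauto
      rw [h6, (lks4_k h hx).2] at h5
      have h7 := (abs_le.1 h4).1
      have h8 : ((((nb T x).filter (fun v => φ v = a)).filter (fun v => v ∈ nb T u \ U'')).card : ℝ) =
          (((nb T x).filter (fun v => φ v = a ∧ v ∈ nb T u \ U'')).card : ℝ) := by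
        rw [filter_filter]
      rw [h8]
      have h9 : -(1 / 100 * ((cl T x).card : ℝ)) ≤
          (((nb T x).filter (fun v => φ v = a ∧ v ∈ nb T u \ U'')).card : ℝ) - ((nb T x ∩ (nb T u \ U'')).card : ℝ) / ((2 : ℕ) : ℝ) := h7
      rw [Nat.cast_ofNat] at h9
      linarith
  · rw [disjoint_left]
    intro v hv hv'
    rw [mem_filter] at hv hv'
    omega
  · intro v hv
    have h4 := h1 v hv
    rw [mem_union, mem_filter, mem_filter]
    have : φ v = 0 ∨ φ v = 1 := by omega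
    rcases this with h5 | h5
    · exact Or.inl ⟨hv, h5⟩
    · exact Or.inr ⟨hv, h5⟩

/-- the properties of `f, g` at `x` -/
structure Lks4XM (U'' : Finset V) (D'' : Finset C) (T S : Finset (Item V C)) (x : V) (f g : C → V) : Prop where
  memf : ∀ c ∈ cl T x, f c ∈ nb T x
  memg : ∀ c ∈ cl T x, g c ∈ nb T x
  cf : ∀ c ∈ cl T x, (Sum.inr (f c, c) : Item V C) ∈ T ∧ ¬ (f c ∈ U'' ∧ c ∈ D'')
  cg : ∀ c ∈ cl T x, (Sum.inr (g c, c) : Item V C) ∈ T ∧ ¬ (g c ∈ U'' ∧ c ∈ D'')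
  e : ∀ c ∈ cl T x, (Sum.inl s(f c, g c) : Item V C) ∈ T ∧
    (Sum.inl s(f c, g c) : Item V C) ∉ S ∧ ¬ (f c ∈ U'' ∧ g c ∈ U'')
  injf : Set.InjOn f (cl T x : Finset C)
  injg : Set.InjOn g (cl T x : Finset C)
  fg : ∀ c ∈ cl T x, ∀ c' ∈ cl T x, f c ≠ g c'
  sur : ∀ u ∈ nb T x, ∃ c ∈ cl T x, u = f c ∨ u = g c

omit [Fintype C] in
theorem lks4_Q {T W₀ : Finset (Item V C)} {U'' : Finset V} {D'' : Finset C} {x : V} {c : C} {N : Finset V} {k : ℝ}
    (hN : N ⊆ nb T x) (hNk : (N.card : ℝ) = k)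
    (h1 : (((nb T x).filter (fun u => (Sum.inr (u, c) : Item V C) ∉ T ∨ (u ∈ U'' ∧ c ∈ D''))).card : ℝ) ≤ k / 50)
    (h2 : ((W₀ ∩ (nb T x).image (fun u => (Sum.inr (u, c) : Item V C))).card : ℝ) ≤ k / 100) :
    (19 / 20 : ℝ) * k ≤ ((N.filter (fun u => (Sum.inr (u, c) : Item V C) ∈ T ∧ (Sum.inr (u, c) : Item V C) ∉ W₀ ∧
      ¬ (u ∈ U'' ∧ c ∈ D''))).card : ℝ) := by
  have h3 : (((nb T x).filter (fun u => (Sum.inr (u, c) : Item V C) ∈ W₀)).card : ℝ) ≤ k / 100 := by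
    refine le_trans ?_ h2
    exact_mod_cast lks4_inj (nb T x) W₀ (fun u => (Sum.inr (u, c) : Item V C)) (fun a b hab => by
      have := Sum.inr.inj hab
      exact (Prod.mk.inj this).1)
  have h4 := lks4_cover (N := N.filter (fun u => (Sum.inr (u, c) : Item V C) ∈ T ∧ (Sum.inr (u, c) : Item V C) ∉ W₀ ∧
      ¬ (u ∈ U'' ∧ c ∈ D''))) (G := N) (B1 := (nb T x).filter (fun u => (Sum.inr (u, c) : Item V C) ∉ T ∨ (u ∈ U'' ∧ c ∈ D'')))
      (B2 := (nb T x).filter (fun u => (Sum.inr (u, c) : Item V C) ∈ W₀)) (by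
        intro u hu
        have hu' := hN hu
        simp only [mem_union, mem_filter]
        tauto) (g := k) (by rw [hNk]) h1 h3
  linarith

omit [Fintype C] in
theorem lks4_E {T S W₀ : Finset (Item V C)} {U'' : Finset V} {x u : V} {N : Finset V} {k : ℝ}
    (hN : N ⊆ nb T x)
    (h0 : (64 / 100 : ℝ) * k ≤ ((N.filter (fun v => v ∈ nb T u \ U'')).card : ℝ))
    (h1 : ((W₀ ∩ (nb T x).image (fun v => (Sum.inl s(u, v) : Item V C))).card : ℝ) ≤ k / 100)
    (h2 : ((nb S u ∩ nb T x).card : ℝ) ≤ k / 100) :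
    (31 / 50 : ℝ) * k ≤ ((N.filter (fun v => (Sum.inl s(u, v) : Item V C) ∈ T ∧ (Sum.inl s(u, v) : Item V C) ∉ W₀ ∧
      (Sum.inl s(u, v) : Item V C) ∉ S ∧ ¬ (u ∈ U'' ∧ v ∈ U''))).card : ℝ) := by
  have h3 : (((nb T x).filter (fun v => (Sum.inl s(u, v) : Item V C) ∈ W₀)).card : ℝ) ≤ k / 100 := by
    refine le_trans ?_ h1
    exact_mod_cast lks4_inj (nb T x) W₀ (fun v => (Sum.inl s(u, v) : Item V C)) (fun a b hab => by
      have := Sum.inl.inj hab
      exact Sym2.congr_right.1 this)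
  have h4 := lks4_cover (N := N.filter (fun v => (Sum.inl s(u, v) : Item V C) ∈ T ∧ (Sum.inl s(u, v) : Item V C) ∉ W₀ ∧
      (Sum.inl s(u, v) : Item V C) ∉ S ∧ ¬ (u ∈ U'' ∧ v ∈ U''))) (G := N.filter (fun v => v ∈ nb T u \ U''))
      (B1 := (nb T x).filter (fun v => (Sum.inl s(u, v) : Item V C) ∈ W₀))
      (B2 := nb S u ∩ nb T x) (by
        intro v hv
        rw [mem_filter] at hv
        have hv' := hN hv.1
        have hv2 := hv.2
        rw [mem_sdiff, lks4_mem_nb] at hv2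
        simp only [mem_union, mem_filter, mem_inter, lks4_mem_nb (S := S)]
        tauto) h0 h3 h2
  linarith

theorem lks4_step (hxs : LkXsStmt) {p ε μ : ℝ} {ls : ℕ} {U U' U'' : Finset V} {D D' D'' : Finset C}
    {T : Finset (Item V C)} (h : LinkHyp p ε μ ls U U' U'' D D' D'' T) (S W₀ : Finset (Item V C)) {x : V}
    (hx : x ∈ U \ U') (hk : 0 < (cl T x).card)
    (hS : ∀ u ∈ U', ((nb S u ∩ nb T x).card : ℝ) ≤ (1 / 200 : ℝ) * (nb T x).card)
    (N : ℕ → Finset V) (hN : ∀ a < 2, N a ⊆ nb T x ∧ (N a).card = (cl T x).card ∧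
      ∀ u ∈ U', (64 / 100 : ℝ) * (cl T x).card ≤ (((N a).filter (fun v => v ∈ nb T u \ U'')).card : ℝ))
    (hN2 : Disjoint (N 0) (N 1)) (hN3 : nb T x ⊆ N 0 ∪ N 1)
    (ha : ∀ u ∈ U', ((W₀ ∩ (nb T x).image (fun v => (Sum.inl s(u, v) : Item V C))).card : ℝ) ≤ ((cl T x).card : ℝ) / 100)
    (hb : ∀ u ∈ U', ((W₀ ∩ (cl T x).image (fun c => (Sum.inr (u, c) : Item V C))).card : ℝ) ≤ ((cl T x).card : ℝ) / 100)
    (hc : ∀ c ∈ D', ((W₀ ∩ (nb T x).image (fun u => (Sum.inr (u, c) : Item V C))).card : ℝ) ≤ ((cl T x).card : ℝ) / 100) :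
    ∃ (Ω : Type) (_ : Fintype Ω) (_ : Nonempty Ω) (f g : Ω → C → V),
      (∀ ω, Lks4XM U'' D'' T S x (f ω) (g ω) ∧ Disjoint (lks4Blk (cl T x) (f ω) (g ω)) W₀) ∧
      (∀ c ∈ cl T x, ∀ u, ((cl T x).card : ℝ) / 20 * ((univ.filter (fun ω => f ω c = u)).card : ℝ) ≤ Fintype.card Ω) ∧
      (∀ c ∈ cl T x, ∀ u, ((cl T x).card : ℝ) / 20 * ((univ.filter (fun ω => g ω c = u)).card : ℝ) ≤ Fintype.card Ω) ∧
      (∀ u v, ((cl T x).card : ℝ) / 20 * ((univ.filter (fun ω => ∃ c ∈ cl T x, f ω c = u ∧ g ω c = v)).card : ℝ)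
        ≤ Fintype.card Ω) := by
  have hU := lks4_nbU h hx
  have hD := lks4_clD h hx
  have hn := (lks4_k h hx).2
  have hk0 : (0 : ℝ) ≤ (cl T x).card := Nat.cast_nonneg _
  have hcn : ∀ c ∈ D', (((nb T x).filter (fun u => (Sum.inr (u, c) : Item V C) ∉ T ∨ (u ∈ U'' ∧ c ∈ D''))).card : ℝ)
      ≤ ((cl T x).card : ℝ) / 50 := by
    intro c hc'
    have h1 := h.cn c hc' x hx
    rw [hn] at h1
    have h2 : (1 / 100 : ℝ) * (2 * (cl T x).card) = ((cl T x).card : ℝ) / 50 := by ring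
    rw [h2] at h1
    convert h1
  have hucb : ∀ u ∈ U', (((cl T x).filter (fun c => (Sum.inr (u, c) : Item V C) ∉ T ∨ (u ∈ U'' ∧ c ∈ D''))).card : ℝ)
      ≤ ((cl T x).card : ℝ) / 100 := by
    intro u hu
    have h1 := h.uc u hu x hx
    have h2 : (1 / 100 : ℝ) * ((cl T x).card : ℝ) = ((cl T x).card : ℝ) / 100 := by ring
    rw [h2] at h1
    convert h1
  have hSS : ∀ u ∈ U', ((nb S u ∩ nb T x).card : ℝ) ≤ ((cl T x).card : ℝ) / 100 := by
    intro u hu
    have h1 := hS u hu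
    rw [hn] at h1
    linarith
  have hQu : ∀ u ∈ U', (19 / 20 : ℝ) * (cl T x).card ≤ (((cl T x).filter (fun c => (Sum.inr (u, c) : Item V C) ∈ T ∧
      (Sum.inr (u, c) : Item V C) ∉ W₀ ∧ ¬ (u ∈ U'' ∧ c ∈ D''))).card : ℝ) := by
    intro u hu
    have h3 : (((cl T x).filter (fun c => (Sum.inr (u, c) : Item V C) ∈ W₀)).card : ℝ) ≤ ((cl T x).card : ℝ) / 100 := by
      refine le_trans ?_ (hb u hu)
      exact_mod_cast lks4_inj (cl T x) W₀ (fun c => (Sum.inr (u, c) : Item V C)) (fun a b hab => by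
        have := Sum.inr.inj hab
        exact (Prod.mk.inj this).2)
    have h4 := lks4_cover (N := (cl T x).filter (fun c => (Sum.inr (u, c) : Item V C) ∈ T ∧
      (Sum.inr (u, c) : Item V C) ∉ W₀ ∧ ¬ (u ∈ U'' ∧ c ∈ D''))) (G := cl T x)
      (B1 := (cl T x).filter (fun c => (Sum.inr (u, c) : Item V C) ∉ T ∨ (u ∈ U'' ∧ c ∈ D'')))
      (B2 := (cl T x).filter (fun c => (Sum.inr (u, c) : Item V C) ∈ W₀)) (by
        intro c hc'
        simp only [mem_union, mem_filter]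
        tauto) (g := (cl T x).card) le_rfl (hucb u hu) h3
    linarith
  obtain ⟨Ω, i1, i2, f, g, a1, a2, a3, a4, a5⟩ := hxs V C (cl T x).card (cl T x) (N 0) (N 1)
    (fun c u => (Sum.inr (u, c) : Item V C) ∈ T ∧ (Sum.inr (u, c) : Item V C) ∉ W₀ ∧ ¬ (u ∈ U'' ∧ c ∈ D''))
    (fun u v => (Sum.inl s(u, v) : Item V C) ∈ T ∧ (Sum.inl s(u, v) : Item V C) ∉ W₀ ∧
      (Sum.inl s(u, v) : Item V C) ∉ S ∧ ¬ (u ∈ U'' ∧ v ∈ U''))
    hk rfl (hN 0 (by norm_num)).2.1 (hN 1 (by norm_num)).2.1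
    (by
      intro c hc'
      have h1 := lks4_Q (N := N 0) (U'' := U'') (D'' := D'') (hN 0 (by norm_num)).1 (by exact_mod_cast (hN 0 (by norm_num)).2.1) (hcn c (hD hc')) (hc c (hD hc'))
      convert h1)
    (by
      intro c hc'
      have h1 := lks4_Q (N := N 1) (U'' := U'') (D'' := D'') (hN 1 (by norm_num)).1 (by exact_mod_cast (hN 1 (by norm_num)).2.1) (hcn c (hD hc')) (hc c (hD hc'))
      convert h1)
    (by
      intro u hu
      have h1 := hQu u (hU ((hN 0 (by norm_num)).1 hu))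
      convert h1)
    (by
      intro u hu
      have h1 := hQu u (hU ((hN 1 (by norm_num)).1 hu))
      convert h1)
    (by
      intro u hu
      have hu' := hU ((hN 0 (by norm_num)).1 hu)
      have h1 := lks4_E (hN 1 (by norm_num)).1 ((hN 1 (by norm_num)).2.2 u hu') (ha u hu') (hSS u hu')
      convert h1)
    (by
      intro u hu
      have hu' := hU ((hN 1 (by norm_num)).1 hu)
      have h1 := lks4_E (hN 0 (by norm_num)).1 ((hN 0 (by norm_num)).2.2 u hu') (ha u hu') (hSS u hu')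
      have h2 : (N 0).filter (fun v => (Sum.inl s(v, u) : Item V C) ∈ T ∧ (Sum.inl s(v, u) : Item V C) ∉ W₀ ∧
          (Sum.inl s(v, u) : Item V C) ∉ S ∧ ¬ (v ∈ U'' ∧ u ∈ U'')) = (N 0).filter (fun v => (Sum.inl s(u, v) : Item V C) ∈ T ∧
          (Sum.inl s(u, v) : Item V C) ∉ W₀ ∧ (Sum.inl s(u, v) : Item V C) ∉ S ∧ ¬ (u ∈ U'' ∧ v ∈ U'')) := by
        apply filter_congr
        intro v _
        rw [Sym2.eq_swap (a := v) (b := u), and_comm (a := v ∈ U'') (b := u ∈ U'')]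
      rw [← h2] at h1
      convert h1)
  refine ⟨Ω, i1, i2, f, g, ?_, ?_, ?_, ?_⟩
  · intro ω
    have hinj := a2 ω
    have hd : ∀ c ∈ cl T x, ∀ c' ∈ cl T x, f ω c ≠ g ω c' := by
      intro c hc' c' hc'' heq
      have h1 := (a1 ω c hc').1
      rw [heq] at h1
      exact disjoint_left.1 hN2 h1 (a1 ω c' hc'').2.1
    refine ⟨⟨fun c hc' => (hN 0 (by norm_num)).1 (a1 ω c hc').1, fun c hc' => (hN 1 (by norm_num)).1 (a1 ω c hc').2.1,
      fun c hc' => ⟨(a1 ω c hc').2.2.1.1, (a1 ω c hc').2.2.1.2.2⟩, fun c hc' => ⟨(a1 ω c hc').2.2.2.1.1, (a1 ω c hc').2.2.2.1.2.2⟩,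
      fun c hc' => ⟨(a1 ω c hc').2.2.2.2.1, (a1 ω c hc').2.2.2.2.2.2⟩, hinj.1, hinj.2, hd, ?_⟩, ?_⟩
    · have hs : ∀ (φ : C → V) (a : ℕ), a < 2 → (∀ c ∈ cl T x, φ c ∈ N a) → Set.InjOn φ (cl T x : Finset C) →
          ∀ u ∈ N a, ∃ c ∈ cl T x, u = φ c := by
        intro φ a ha' h1 h2 u hu
        have h3 : (cl T x).image φ = N a := by
          apply Finset.eq_of_subset_of_card_le
          · intro v hv
            obtain ⟨c, hc', rfl⟩ := mem_image.1 hv
            exact h1 c hc'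
          · rw [card_image_of_injOn h2, (hN a ha').2.1]
        rw [← h3] at hu
        obtain ⟨c, hc', h4⟩ := mem_image.1 hu
        exact ⟨c, hc', h4.symm⟩
      intro u hu
      rcases mem_union.1 (hN3 hu) with hu | hu
      · obtain ⟨c, hc', h4⟩ := hs (f ω) 0 (by norm_num) (fun c hc' => (a1 ω c hc').1) hinj.1 u hu
        exact ⟨c, hc', Or.inl h4⟩
      · obtain ⟨c, hc', h4⟩ := hs (g ω) 1 (by norm_num) (fun c hc' => (a1 ω c hc').2.1) hinj.2 u hu
        exact ⟨c, hc', Or.inr h4⟩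
    · rw [disjoint_left]
      rintro (e | ⟨u, c⟩) hi
      · obtain ⟨c, hc', rfl⟩ := lks4_inl.1 hi
        exact (a1 ω c hc').2.2.2.2.2.1
      · obtain ⟨hc', h1 | h1⟩ := lks4_inr.1 hi
        · rw [← h1]
          exact (a1 ω c hc').2.2.1.2.1
        · rw [← h1]
          exact (a1 ω c hc').2.2.2.1.2.1
  · intro c hc' u
    convert a3 c hc' u
  · intro c hc' u
    convert a4 c hc' u
  · intro u v
    convert a5 u v


/-- index type of the tests -/
abbrev Lks4I (U' X : Finset V) (D' : Finset C) : Type :=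
  ({u // u ∈ U'} × {y // y ∈ X}) ⊕ ({u // u ∈ U'} × {y // y ∈ X}) ⊕ ({c // c ∈ D'} × {y // y ∈ X})

/-- the test sets -/
def lks4Q (U' X : Finset V) (D' : Finset C) (T : Finset (Item V C)) : Lks4I U' X D' → Finset (Item V C)
  | Sum.inl (u, y) => (nb T y.1).image (fun v => (Sum.inl s(u.1, v) : Item V C))
  | Sum.inr (Sum.inl (u, y)) => (cl T y.1).image (fun c => (Sum.inr (u.1, c) : Item V C))
  | Sum.inr (Sum.inr (c, y)) => (nb T y.1).image (fun u => (Sum.inr (u, c.1) : Item V C))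

/-- the vertex `y` of the test -/
def lks4Y (U' X : Finset V) (D' : Finset C) : Lks4I U' X D' → V
  | Sum.inl (_, y) => y.1
  | Sum.inr (Sum.inl (_, y)) => y.1
  | Sum.inr (Sum.inr (_, y)) => y.1

/-- `x` can contribute to the test -/
def lks4P (U' X : Finset V) (D' : Finset C) (T : Finset (Item V C)) (x : V) : Lks4I U' X D' → Prop
  | Sum.inl (u, _) => u.1 ∈ nb T x
  | Sum.inr (Sum.inl (u, _)) => u.1 ∈ nb T x
  | Sum.inr (Sum.inr (c, _)) => c.1 ∈ cl T x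

omit [Fintype V] [Fintype C] in
omit [DecidableEq V] [DecidableEq C] in
theorem lks4_Y_mem (U' X : Finset V) (D' : Finset C) (i : Lks4I U' X D') : lks4Y U' X D' i ∈ X := by
  rcases i with ⟨u, y⟩ | ⟨u, y⟩ | ⟨c, y⟩
  · exact y.2
  · exact y.2
  · exact y.2

omit [Fintype V] [Fintype C] in
omit [DecidableEq V] [DecidableEq C] in
theorem lks4_cardI (U' X : Finset V) (D' : Finset C) {m : ℕ} (h1 : U'.card ≤ m) (h2 : X.card ≤ m) (h3 : D'.card ≤ m) :
    Fintype.card (Lks4I U' X D') ≤ 3 * m ^ 2 := by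
  rw [Fintype.card_sum, Fintype.card_sum, Fintype.card_prod, Fintype.card_prod, Fintype.card_coe, Fintype.card_coe,
    Fintype.card_coe]
  have := Nat.mul_le_mul h1 h2
  have := Nat.mul_le_mul h3 h2
  nlinarith

theorem lks4_sumP {p ε μ : ℝ} {ls : ℕ} {U U' U'' : Finset V} {D D' D'' : Finset C}
    {T : Finset (Item V C)} (h : LinkHyp p ε μ ls U U' U'' D D' D'' T) (hp : 0 < p) (i : Lks4I U' (U \ U') D') :
    ((((U \ U').filter (fun x => lks4P U' (U \ U') D' T x i)).card : ℕ) : ℝ) ≤ 3 * p * U.card := by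
  have hm : (0 : ℝ) ≤ U.card := Nat.cast_nonneg _
  have key : ∀ u ∈ U', (((U \ U').filter (fun x => u ∈ nb T x)).card : ℝ) ≤ 3 * p * U.card := by
    intro u hu
    have h1 : (U \ U').filter (fun x => u ∈ nb T x) ⊆ nb T u \ U' := by
      intro x hx
      rw [mem_filter, mem_sdiff] at hx
      exact mem_sdiff.2 ⟨lks4_nb_symm hx.2, hx.1.2⟩
    have h2 : (((U \ U').filter (fun x => u ∈ nb T x)).card : ℝ) ≤ ((nb T u \ U').card : ℝ) := by
      exact_mod_cast card_le_card h1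
    have h3 := h.nu u hu
    nlinarith [mul_nonneg hp.le hm]
  rcases i with ⟨u, y⟩ | ⟨u, y⟩ | ⟨c, y⟩
  · refine le_trans (le_of_eq ?_) (key u.1 u.2)
    congr 2
    ext x
    rw [mem_filter, mem_filter]
    exact Iff.rfl
  · refine le_trans (le_of_eq ?_) (key u.1 u.2)
    congr 2
    ext x
    rw [mem_filter, mem_filter]
    exact Iff.rfl
  · have h1 : (U \ U').filter (fun x => lks4P U' (U \ U') D' T x (Sum.inr (Sum.inr (c, y)))) ⊆ vt T c.1 \ U' := by
      intro x hx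
      rw [mem_filter, mem_sdiff] at hx
      have h2 : c.1 ∈ cl T x := hx.2
      rw [lks4_mem_cl] at h2
      exact mem_sdiff.2 ⟨lks4_mem_vt.2 h2, hx.1.2⟩
    have h2 : (((U \ U').filter (fun x => lks4P U' (U \ U') D' T x (Sum.inr (Sum.inr (c, y))))).card : ℝ) ≤
        ((vt T c.1 \ U').card : ℝ) := by
      exact_mod_cast card_le_card h1
    exact h2.trans (h.xc c.1 c.2)

theorem lks4_le2 {U' X : Finset V} {D' : Finset C} {T : Finset (Item V C)} {A : Finset C} {f g : C → V}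
    (hf : Set.InjOn f A) (hg : Set.InjOn g A) (i : Lks4I U' X D') :
    (lks4Blk A f g ∩ lks4Q U' X D' T i).card ≤ 2 := by
  rcases i with ⟨u, y⟩ | ⟨u, y⟩ | ⟨c, y⟩
  · exact (lks4_a _ _).trans (lks4_Ku hf hg _)
  · exact (lks4_b _ _).trans (lks4_Ku hf hg _)
  · exact lks4_c _ _

theorem lks4_aver {p ε μ : ℝ} {ls : ℕ} {U U' U'' : Finset V} {D D' D'' : Finset C}
    {T S : Finset (Item V C)} (h : LinkHyp p ε μ ls U U' U'' D D' D'' T) (hp : 0 < p) (hM : (0 : ℝ) < U'.card)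
    {x : V} (hx : x ∈ U \ U') {Ω : Type} [Fintype Ω] (f g : Ω → C → V)
    (hXM : ∀ ω, Lks4XM U'' D'' T S x (f ω) (g ω))
    (a1 : ∀ c ∈ cl T x, ∀ u, ((cl T x).card : ℝ) / 20 * ((univ.filter (fun ω => f ω c = u)).card : ℝ) ≤ Fintype.card Ω)
    (a2 : ∀ c ∈ cl T x, ∀ u, ((cl T x).card : ℝ) / 20 * ((univ.filter (fun ω => g ω c = u)).card : ℝ) ≤ Fintype.card Ω)
    (a3 : ∀ u v, ((cl T x).card : ℝ) / 20 * ((univ.filter (fun ω => ∃ c ∈ cl T x, f ω c = u ∧ g ω c = v)).card : ℝ)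
        ≤ Fintype.card Ω) (i : Lks4I U' (U \ U') D') :
    ∑ ω, ((lks4Blk (cl T x) (f ω) (g ω) ∩ lks4Q U' (U \ U') D' T i).card : ℝ) ≤
      ((if lks4Y U' (U \ U') D' i = x then 2 else 0) + (if lks4P U' (U \ U') D' T x i then 960 * p else 0)) *
        Fintype.card Ω := by
  have hk := (lks4_k h hx).1
  have hΩ : (0 : ℝ) ≤ Fintype.card Ω := Nat.cast_nonneg _
  by_cases hy : lks4Y U' (U \ U') D' i = x
  · rw [if_pos hy]
    have h1 : ∑ ω, ((lks4Blk (cl T x) (f ω) (g ω) ∩ lks4Q U' (U \ U') D' T i).card : ℝ) ≤ Fintype.card Ω * 2 := by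
      rw [← nsmul_eq_mul, ← Finset.card_univ]
      apply Finset.sum_le_card_nsmul
      intro ω _
      exact_mod_cast lks4_le2 (hXM ω).injf (hXM ω).injg i
    have h2 : 0 ≤ (if lks4P U' (U \ U') D' T x i then 960 * p else 0) := by
      split_ifs
      · positivity
      · exact le_rfl
    nlinarith [mul_nonneg h2 hΩ]
  rw [if_neg hy, zero_add]
  rcases i with ⟨u, y⟩ | ⟨u, y⟩ | ⟨c, y⟩
  · have hy' : x ≠ y.1 := fun h1 => hy h1.symm
    by_cases hP : u.1 ∈ nb T x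
    · rw [if_pos (show lks4P U' (U \ U') D' T x (Sum.inl (u, y)) from hP)]
      apply lks4_avg (nb T x ∩ nb T y.1) (fun ω v => ∃ c ∈ cl T x, f ω c = u.1 ∧ g ω c = v)
        (fun ω v => ∃ c ∈ cl T x, f ω c = v ∧ g ω c = u.1)
        (fun ω => (lks4Blk (cl T x) (f ω) (g ω) ∩ lks4Q U' (U \ U') D' T (Sum.inl (u, y))).card) hp hM hk
        (h.nn x hx y.1 y.2 hy')
      · intro ω
        have h1 := lks4_a' (A := cl T x) (f := f ω) (g := g ω) (nb T x) (nb T y.1) u.1 (hXM ω).memf (hXM ω).memg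
        exact h1
      · intro v _
        convert a3 u.1 v
      · intro v _
        convert a3 v u.1
    · rw [if_neg (show ¬ lks4P U' (U \ U') D' T x (Sum.inl (u, y)) from hP), zero_mul]
      apply le_of_eq
      apply Finset.sum_eq_zero
      intro ω _
      have h1 := lks4_a (A := cl T x) (f := f ω) (g := g ω) (nb T y.1) u.1
      have h2 : (cl T x).filter (fun c => f ω c = u.1 ∨ g ω c = u.1) = ∅ := by
        rw [filter_eq_empty_iff]
        rintro c hc (h3 | h3)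
        · exact hP (h3 ▸ (hXM ω).memf c hc)
        · exact hP (h3 ▸ (hXM ω).memg c hc)
      rw [h2, card_empty] at h1
      exact_mod_cast Nat.le_zero.1 h1
  · have hy' : x ≠ y.1 := fun h1 => hy h1.symm
    by_cases hP : u.1 ∈ nb T x
    · rw [if_pos (show lks4P U' (U \ U') D' T x (Sum.inr (Sum.inl (u, y))) from hP)]
      apply lks4_avg (cl T x ∩ cl T y.1) (fun ω c => f ω c = u.1) (fun ω c => g ω c = u.1)
        (fun ω => (lks4Blk (cl T x) (f ω) (g ω) ∩ lks4Q U' (U \ U') D' T (Sum.inr (Sum.inl (u, y)))).card) hp hM hk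
        (h.cc x hx y.1 y.2 hy')
      · intro ω
        have h1 := lks4_b' (A := cl T x) (f := f ω) (g := g ω) (cl T y.1) u.1
        exact h1
      · intro c hc
        convert a1 c (mem_inter.1 hc).1 u.1
      · intro c hc
        convert a2 c (mem_inter.1 hc).1 u.1
    · rw [if_neg (show ¬ lks4P U' (U \ U') D' T x (Sum.inr (Sum.inl (u, y))) from hP), zero_mul]
      apply le_of_eq
      apply Finset.sum_eq_zero
      intro ω _
      have h1 := lks4_b (A := cl T x) (f := f ω) (g := g ω) (cl T y.1) u.1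
      have h2 : (cl T x).filter (fun c => f ω c = u.1 ∨ g ω c = u.1) = ∅ := by
        rw [filter_eq_empty_iff]
        rintro c hc (h3 | h3)
        · exact hP (h3 ▸ (hXM ω).memf c hc)
        · exact hP (h3 ▸ (hXM ω).memg c hc)
      rw [h2, card_empty] at h1
      exact_mod_cast Nat.le_zero.1 h1
  · have hy' : x ≠ y.1 := fun h1 => hy h1.symm
    by_cases hP : c.1 ∈ cl T x
    · rw [if_pos (show lks4P U' (U \ U') D' T x (Sum.inr (Sum.inr (c, y))) from hP)]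
      apply lks4_avg (nb T x ∩ nb T y.1) (fun ω u => f ω c.1 = u) (fun ω u => g ω c.1 = u)
        (fun ω => (lks4Blk (cl T x) (f ω) (g ω) ∩ lks4Q U' (U \ U') D' T (Sum.inr (Sum.inr (c, y)))).card) hp hM hk
        (h.nn x hx y.1 y.2 hy')
      · intro ω
        have h1 := lks4_c' (A := cl T x) (f := f ω) (g := g ω) (nb T x) (nb T y.1) c.1 (hXM ω).memf (hXM ω).memg
        exact h1
      · intro u hu
        convert a1 c.1 hP u
      · intro u hu
        convert a2 c.1 hP u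
    · rw [if_neg (show ¬ lks4P U' (U \ U') D' T x (Sum.inr (Sum.inr (c, y))) from hP), zero_mul]
      apply le_of_eq
      apply Finset.sum_eq_zero
      intro ω _
      rw [Nat.cast_eq_zero, card_eq_zero, Finset.eq_empty_iff_forall_notMem]
      intro i hi
      rw [mem_inter] at hi
      obtain ⟨h1, h2⟩ := hi
      obtain ⟨u, hu, rfl⟩ := mem_image.1 (show i ∈ (nb T y.1).image (fun u => (Sum.inr (u, c.1) : Item V C)) from h2)
      exact hP (lks4_inr.1 h1).1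

end

theorem lks4_exp {m k L : ℝ} {n : ℕ} (hm : 1 ≤ m) (hn : (n : ℝ) ≤ m) (hL : 2 * Real.log (3 * m ^ 2) + 4 ≤ L)
    (hk : 20000 * L ≤ k) : 2 * ((2 : ℕ) : ℝ) * (n : ℝ) * Real.exp (-((1 / 100 : ℝ) ^ 2 * k / 2)) < 1 := by
  have h1 : 4 * m < Real.exp ((1 / 100 : ℝ) ^ 2 * k / 2) := by
    have h2 : (0 : ℝ) ≤ Real.log (3 * m ^ 2) := Real.log_nonneg (by nlinarith)
    have h3 : Real.log (3 * m ^ 2) + 4 ≤ (1 / 100 : ℝ) ^ 2 * k / 2 := by linarith
    have h4 : Real.exp (Real.log (3 * m ^ 2) + 4) ≤ Real.exp ((1 / 100 : ℝ) ^ 2 * k / 2) := Real.exp_le_exp.2 h3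
    rw [Real.exp_add, Real.exp_log (by positivity)] at h4
    have h5 : (4 : ℝ) + 1 ≤ Real.exp 4 := Real.add_one_le_exp 4
    nlinarith [sq_nonneg m]
  have h2 : 2 * ((2 : ℕ) : ℝ) * (n : ℝ) < Real.exp ((1 / 100 : ℝ) ^ 2 * k / 2) := by
    push_cast
    linarith
  calc _ < Real.exp ((1 / 100 : ℝ) ^ 2 * k / 2) * Real.exp (-((1 / 100 : ℝ) ^ 2 * k / 2)) :=
        mul_lt_mul_of_pos_right h2 (Real.exp_pos _)
    _ = 1 := by rw [← Real.exp_add, add_neg_cancel, Real.exp_zero]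

theorem lk_s4 (hpart : PartStmt) (hgen : LkGenStmt) (hxs : LkXsStmt) : LkS4Stmt := by
  intro μ hμ hμ1
  refine ⟨μ / 20000000, by positivity, fun p hp hpp => ?_⟩
  obtain ⟨m₀, hm1, hm₀⟩ := lks4_num (c := p * μ / 320000) (by positivity) (4 / μ)
  refine ⟨m₀, ?_⟩
  intro V C _ _ _ _ ε ls U U' U'' D D' D'' T S hm h hS
  obtain ⟨hmμ, hlog⟩ := hm₀ U.card hm
  have hm1' : (1 : ℝ) ≤ U.card := by exact_mod_cast hm1.trans hm
  have hm4 : 4 ≤ μ * U.card := by
    rw [div_le_iff₀ hμ] at hmμ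
    linarith
  have hM : μ * U.card / 2 ≤ (U'.card : ℝ) := by
    have := h.Ulo
    linarith
  have hM0 : (0 : ℝ) < U'.card := by linarith
  have hkx : ∀ x ∈ U \ U', p * μ * U.card / 16 ≤ ((cl T x).card : ℝ) := by
    intro x hx
    have h1 := (lks4_k h hx).1
    have h2 := mul_le_mul_of_nonneg_left hM hp.le
    linarith
  have hkp : ∀ x ∈ U \ U', 0 < (cl T x).card := by
    intro x hx
    have h1 := hkx x hx
    have h2 : (0 : ℝ) < ((cl T x).card : ℝ) := lt_of_lt_of_le (by positivity) h1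
    exact_mod_cast h2
  have hU'm : U'.card ≤ U.card := card_le_card h.subU
  have hXm : (U \ U').card ≤ U.card := card_le_card sdiff_subset
  have hD'm : D'.card ≤ U.card := (card_le_card h.subD).trans h.Dhi
  have hPart : ∀ x ∈ U \ U', ∃ N : ℕ → Finset V, (∀ a < 2, N a ⊆ nb T x ∧ (N a).card = (cl T x).card ∧
      ∀ u ∈ U', (64 / 100 : ℝ) * (cl T x).card ≤ (((N a).filter (fun v => v ∈ nb T u \ U'')).card : ℝ)) ∧
      Disjoint (N 0) (N 1) ∧ nb T x ⊆ N 0 ∪ N 1 := by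
    intro x hx
    apply lks4_part hpart h hx (hkp x hx)
    apply lks4_exp hm1' _ hlog
    · have := hkx x hx
      linarith
    · rw [Fintype.card_coe]
      exact_mod_cast hU'm
  obtain ⟨b, hb1, hb2, hb3⟩ := hgen (Item V C) V (Lks4I U' (U \ U') D') (U \ U') (lks4Q U' (U \ U') D' T)
    (fun x b => ∃ f g : C → V, Lks4XM U'' D'' T S x f g ∧ b = lks4Blk (cl T x) f g) 2
    (fun x i => (if lks4Y U' (U \ U') D' i = x then 2 else 0) + (if lks4P U' (U \ U') D' T x i then 960 * p else 0))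
    (fun i => ((cl T (lks4Y U' (U \ U') D' i)).card : ℝ) / 100) (by norm_num)
    (by
      intro x i
      apply add_nonneg
      · split_ifs <;> norm_num
      · split_ifs
        · positivity
        · exact le_rfl)
    (by
      intro i
      have h1 := hkx _ (lks4_Y_mem U' (U \ U') D' i)
      have h2 : Real.log (Fintype.card (Lks4I U' (U \ U') D')) ≤ Real.log (3 * (U.card : ℝ) ^ 2) := by
        apply Real.log_le_log
        · exact_mod_cast Fintype.card_pos_iff.2 ⟨i⟩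
        · exact_mod_cast lks4_cardI U' (U \ U') D' hU'm hXm hD'm
      have h3 := lks4_sumP h hp i
      have h4 : ∑ x ∈ U \ U', ((if lks4Y U' (U \ U') D' i = x then (2 : ℝ) else 0) +
          (if lks4P U' (U \ U') D' T x i then 960 * p else 0)) ≤ 2 + 960 * p * (3 * p * U.card) := by
        rw [Finset.sum_add_distrib]
        apply add_le_add
        · rw [Finset.sum_ite_eq]
          split_ifs <;> norm_num
        · rw [← Finset.sum_filter, Finset.sum_const, nsmul_eq_mul, mul_comm]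
          exact mul_le_mul_of_nonneg_left h3 (by positivity)
      have h5 : p * (p * U.card) ≤ μ / 20000000 * (p * U.card) := mul_le_mul_of_nonneg_right hpp (by positivity)
      have h6 : 0 ≤ p * μ * U.card := by positivity
      nlinarith)
    (by
      intro x hx W₀ hW₀
      obtain ⟨N, n1, n2, n3⟩ := hPart x hx
      obtain ⟨Ω, i1, i2, f, g, c1, c2, c3, c4⟩ := lks4_step hxs h S W₀ hx (hkp x hx)
        (fun u hu => hS u hu x hx) N n1 n2 n3
        (fun u hu => hW₀ (Sum.inl (⟨u, hu⟩, ⟨x, hx⟩)))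
        (fun u hu => hW₀ (Sum.inr (Sum.inl (⟨u, hu⟩, ⟨x, hx⟩))))
        (fun c hc => hW₀ (Sum.inr (Sum.inr (⟨c, hc⟩, ⟨x, hx⟩))))
      refine ⟨Ω, i1, i2, fun ω => lks4Blk (cl T x) (f ω) (g ω), fun ω => ⟨⟨f ω, g ω, (c1 ω).1, rfl⟩, (c1 ω).2⟩, ?_, ?_⟩
      · intro ω i
        exact_mod_cast lks4_le2 (c1 ω).1.injf (c1 ω).1.injg i
      · intro i
        exact lks4_aver h hp hM0 hx f g (fun ω => (c1 ω).1) c2 c3 c4 i)
  choose! f g hfg using hb1
  have hbe : ∀ x ∈ U \ U', b x = lks4Blk (cl T x) (f x) (g x) := fun x hx => (hfg x hx).2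
  have hX : ∀ x ∈ U \ U', Lks4XM U'' D'' T S x (f x) (g x) := fun x hx => (hfg x hx).1
  refine ⟨f, g, ⟨fun x hx => (hX x hx).memf, fun x hx => (hX x hx).memg, fun x hx => (hX x hx).cf,
    fun x hx => (hX x hx).cg, fun x hx => (hX x hx).e, ?_, fun x hx => (hX x hx).fg, fun x hx => (hX x hx).sur, ?_, ?_⟩⟩
  · intro x hx c hc c' hc' hcc
    exact ⟨fun h1 => hcc ((hX x hx).injf (mem_coe.2 hc) (mem_coe.2 hc') h1),
      fun h1 => hcc ((hX x hx).injg (mem_coe.2 hc) (mem_coe.2 hc') h1)⟩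
  · intro x hx y hy hxy c hc hc'
    have hd := hb2 x hx y hy hxy
    rw [hbe x hx, hbe y hy, disjoint_left] at hd
    have f1 : (Sum.inr (f x c, c) : Item V C) ∈ lks4Blk (cl T x) (f x) (g x) := lks4_inr.2 ⟨hc, Or.inl rfl⟩
    have f2 : (Sum.inr (g x c, c) : Item V C) ∈ lks4Blk (cl T x) (f x) (g x) := lks4_inr.2 ⟨hc, Or.inr rfl⟩
    refine ⟨fun h1 => hd f1 (lks4_inr.2 ⟨hc', Or.inl h1.symm⟩), fun h1 => hd f1 (lks4_inr.2 ⟨hc', Or.inr h1.symm⟩),
      fun h1 => hd f2 (lks4_inr.2 ⟨hc', Or.inr h1.symm⟩)⟩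
  · intro x hx y hy hxy c hc c' hc' heq
    have hd := hb2 x hx y hy hxy
    rw [hbe x hx, hbe y hy, disjoint_left] at hd
    exact hd (lks4_inl.2 ⟨c, hc, rfl⟩) (lks4_inl.2 ⟨c', hc', heq⟩)

end Pool.Agent.OBW
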