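import Mathlib
import Pool.Agent.OBW.LkStmts

/-!
# LkXs : theorem lk_xs (hpm : PmStmt) : LkXsStmt

n₀ = ⌈k/20⌉₊ > 0. f-step: PmStmt with A, B := N₀, R c u := Q c u, ε = 1/20 (degrees ≥ 19/20 k ≥ (1/2+1/20) k): n ≥ k/20, so ≥ n₀
matchings, keep n₀: f_i, i : Fin n₀. For every i the g-step: A, B := N₁, R c v := Q c v ∧ E (f_i c) v: degree of c ∈ A:
≥ 19/20 k + 31/50 k - k = 57/100 k ≥ 11/20 k; degree of v ∈ N₁: {c ∈ A : E (f_i c) v} has the size of {u ∈ N₀ : E u v} ≥ 31/50 k
(f_i : A → N₀ is a bijection: injective, equal cardinalities) and {c ∈ A : Q c v} ≥ 19/20 k. Keep n₀ matchings g_{i,j}.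
Ω = Fin n₀ × Fin n₀, f (i,j) = f_i, g (i,j) = g_{i,j}. Counts: f_i c = u for at most one i (c ∈ A): #{(i,j)} ≤ n₀, |Ω| = n₀²;
g_{i,j} c = u: for every i at most one j; joint event: for fixed i the c with f_i c = u is unique, then at most one j.
(k/20 * # ≤ n₀ * # ≤ n₀ * n₀ = |Ω|.)
-/

set_option autoImplicit false
namespace Pool.Agent.OBW
open Finset

theorem LkXs_inter {α : Type} [DecidableEq α] (A : Finset α) (P P' : α → Prop) [DecidablePred P] [DecidablePred P']
    [DecidablePred fun a => P a ∧ P' a] {x y k : ℝ} (hA : (A.card : ℝ) = k) (h : x ≤ ((A.filter P).card : ℝ))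
    (h' : y ≤ ((A.filter P').card : ℝ)) : x + y - k ≤ ((A.filter fun a => P a ∧ P' a).card : ℝ) := by
  have h1 : A.filter (fun a => P a ∧ P' a) = A.filter P ∩ A.filter P' := by
    ext a
    simp only [mem_filter, mem_inter]
    tauto
  have h2 := Finset.card_union_add_card_inter (A.filter P) (A.filter P')
  have h3 : (A.filter P ∪ A.filter P').card ≤ A.card :=
    Finset.card_le_card (Finset.union_subset (Finset.filter_subset _ _) (Finset.filter_subset _ _))
  rw [h1]
  have h2' : ((A.filter P ∪ A.filter P').card : ℝ) + ((A.filter P ∩ A.filter P').card : ℝ) =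
      (A.filter P).card + (A.filter P').card := by exact_mod_cast h2
  have h3' : ((A.filter P ∪ A.filter P').card : ℝ) ≤ A.card := by exact_mod_cast h3
  linarith

theorem lk_xs (hpm : PmStmt) : LkXsStmt := by
  classical
  intro V C _ _ k A N₀ N₁ Q E hk hA hN₀ hN₁ h1 h2 h3 h4 h5 h6
  have hk' : (0 : ℝ) < k := by exact_mod_cast hk
  obtain ⟨n, f, hn, hf1, hf2, hf3⟩ := hpm C V A N₀ (fun c u => Q c u) k (1/20) (by norm_num) hA hN₀
    (fun c hc => by have := h1 c hc; linarith) (fun u hu => by have := h3 u hu; linarith)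
  have hg : ∀ i : Fin n, ∃ (n' : ℕ) (g : Fin n' → C → V), (1/20 : ℝ) * k ≤ n' ∧
      (∀ j, ∀ c ∈ A, g j c ∈ N₁ ∧ (Q c (g j c) ∧ E (f i c) (g j c))) ∧ (∀ j, Set.InjOn (g j) A) ∧
      (∀ j j', ∀ c ∈ A, j ≠ j' → g j c ≠ g j' c) := by
    intro i
    refine hpm C V A N₁ (fun c v => Q c v ∧ E (f i c) v) k (1/20) (by norm_num) hA hN₁ (fun c hc => ?_) (fun v hv => ?_)
    · have e1 := LkXs_inter N₁ (fun v => Q c v) (fun v => E (f i c) v) (k := k) (by rw [hN₁]) (h2 c hc)
        (h5 _ (hf1 i c hc).1)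
      linarith
    · have e2 : (A.filter fun c => E (f i c) v).card = (N₀.filter fun u => E u v).card := by
        have himg : A.image (f i) = N₀ := by
          apply Finset.eq_of_subset_of_card_le
          · intro u hu
            obtain ⟨c, hc, rfl⟩ := Finset.mem_image.1 hu
            exact (hf1 i c hc).1
          · rw [Finset.card_image_of_injOn (hf2 i), hA, hN₀]
        rw [← himg, Finset.filter_image, Finset.card_image_of_injOn]
        exact (hf2 i).mono fun c hc => (Finset.mem_filter.1 hc).1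
      have e3 : (31/50 : ℝ) * k ≤ ((A.filter fun c => E (f i c) v).card : ℝ) := by
        rw [e2]
        exact h6 v hv
      have e1 := LkXs_inter A (fun c => Q c v) (fun c => E (f i c) v) (k := k) (by rw [hA]) (h4 v hv) e3
      linarith
  choose n' g hn' hg1 hg2 hg3 using hg
  set n₀ := ⌈(k : ℝ) / 20⌉₊ with hn₀
  have hn₀pos : 0 < n₀ := Nat.ceil_pos.2 (by positivity)
  have hle : (k : ℝ) / 20 ≤ n₀ := Nat.le_ceil _
  have hnn : n₀ ≤ n := Nat.ceil_le.2 (by linarith)
  have hnn' : ∀ i, n₀ ≤ n' i := fun i => Nat.ceil_le.2 (by have := hn' i; linarith)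
  let f' : Fin n₀ → C → V := fun i => f (Fin.castLE hnn i)
  let g' : Fin n₀ → Fin n₀ → C → V := fun i j => g (Fin.castLE hnn i) (Fin.castLE (hnn' _) j)
  have hf'inj : ∀ c ∈ A, ∀ i i', f' i c = f' i' c → i = i' := by
    intro c hc i i' h
    by_contra hne
    exact hf3 _ _ c hc (fun he => hne (Fin.castLE_injective hnn he)) h
  have hg'inj : ∀ c ∈ A, ∀ i j j', g' i j c = g' i j' c → j = j' := by
    intro c hc i j j' h
    by_contra hne
    exact hg3 _ _ _ c hc (fun he => hne (Fin.castLE_injective (hnn' _) he)) h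
  have hbound : ∀ S : Finset (Fin n₀ × Fin n₀), S.card ≤ n₀ →
      (k : ℝ) / 20 * (S.card : ℝ) ≤ (Fintype.card (Fin n₀ × Fin n₀) : ℝ) := by
    intro S hS
    have hS' : (S.card : ℝ) ≤ n₀ := by exact_mod_cast hS
    rw [Fintype.card_prod, Fintype.card_fin]
    push_cast
    have h0 : (0 : ℝ) ≤ n₀ := by positivity
    exact mul_le_mul hle hS' (by positivity) h0
  refine ⟨Fin n₀ × Fin n₀, inferInstance, ⟨(⟨0, hn₀pos⟩, ⟨0, hn₀pos⟩)⟩, fun ω => f' ω.1, fun ω => g' ω.1 ω.2,
    ?_, ?_, ?_, ?_, ?_⟩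
  · intro ω c hc
    have e1 := hf1 (Fin.castLE hnn ω.1) c hc
    have e2 := hg1 (Fin.castLE hnn ω.1) (Fin.castLE (hnn' _) ω.2) c hc
    exact ⟨e1.1, e2.1, e1.2, e2.2.1, e2.2.2⟩
  · intro ω
    exact ⟨hf2 _, hg2 _ _⟩
  · intro c hc u
    apply hbound
    have hcard := Finset.card_le_card_of_injOn (s := univ.filter fun ω : Fin n₀ × Fin n₀ => f' ω.1 c = u)
      (t := (univ : Finset (Fin n₀))) (fun ω => ω.2) (fun ω _ => Finset.mem_coe.2 (Finset.mem_univ _)) ?_
    · rwa [Finset.card_univ, Fintype.card_fin] at hcard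
    · rintro ⟨i, j⟩ hω ⟨i', j'⟩ hω' he
      simp only [coe_filter, mem_univ, true_and, Set.mem_ofPred_eq] at hω hω'
      have he' : j = j' := he
      rw [he', hf'inj c hc i i' (hω.trans hω'.symm)]
  · intro c hc u
    apply hbound
    have hcard := Finset.card_le_card_of_injOn (s := univ.filter fun ω : Fin n₀ × Fin n₀ => g' ω.1 ω.2 c = u)
      (t := (univ : Finset (Fin n₀))) (fun ω => ω.1) (fun ω _ => Finset.mem_coe.2 (Finset.mem_univ _)) ?_
    · rwa [Finset.card_univ, Fintype.card_fin] at hcard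
    · rintro ⟨i, j⟩ hω ⟨i', j'⟩ hω' he
      simp only [coe_filter, mem_univ, true_and, Set.mem_ofPred_eq] at hω hω'
      have he' : i = i' := he
      subst he'
      rw [hg'inj c hc i j j' (hω.trans hω'.symm)]
  · intro u v
    apply hbound
    have hcard := Finset.card_le_card_of_injOn
      (s := univ.filter fun ω : Fin n₀ × Fin n₀ => ∃ c ∈ A, f' ω.1 c = u ∧ g' ω.1 ω.2 c = v)
      (t := (univ : Finset (Fin n₀))) (fun ω => ω.1) (fun ω _ => Finset.mem_coe.2 (Finset.mem_univ _)) ?_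
    · rwa [Finset.card_univ, Fintype.card_fin] at hcard
    · rintro ⟨i, j⟩ hω ⟨i', j'⟩ hω' he
      simp only [coe_filter, mem_univ, true_and, Set.mem_ofPred_eq] at hω hω'
      have he' : i = i' := he
      subst he'
      obtain ⟨c, hc, hc1, hc2⟩ := hω
      obtain ⟨c', hc', hc1', hc2'⟩ := hω'
      have hcc : c = c' := hf2 (Fin.castLE hnn i) hc hc' (hc1.trans hc1'.symm)
      subst hcc
      rw [hg'inj c hc i j j' (hc2.trans hc2'.symm)]

end Pool.Agent.OBW
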