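import Mathlib
import Pool.Agent.OBW.LkStmts
import Pool.Agent.OBW.LkGen
import Pool.Agent.OBW.LkOne
import Pool.Agent.OBW.LkFam
import Pool.Agent.OBW.LkS3
import Pool.Agent.OBW.LkXs
import Pool.Agent.OBW.LkS4
import Pool.Agent.OBW.LkO3
import Pool.Agent.OBW.LkPath
import Pool.Agent.OBW.LkO4
import Pool.Agent.OBW.LkMain

/-!
# LINK
-/

set_option autoImplicit false
namespace Pool.Agent.OBW

theorem link (hpm : PmStmt) (hpart : PartStmt) : LinkStmt :=
  lk_main (lk_s3 hpart lk_gen (lk_one hpm) lk_fam) (lk_s4 hpart lk_gen (lk_xs hpm)) lk_o3 (lk_o4 lk_path)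

end Pool.Agent.OBW
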