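import Pool.Agent.OBW.MixPrep
import Pool.Agent.OBW.Stmts

/-!
OBW, part MIX: the theorem.
-/

set_option autoImplicit false

namespace Pool.Agent.OBW

open Finset
open scoped Classical

/-- **MIX** -/
theorem mix : MixStmt := by
  intro ε α hε hα
  obtain ⟨η₀, β₀, hη, hβ, HL⟩ := mix_prep ε α hε hα
  refine ⟨η₀, hη, ?_⟩
  intro L
  obtain ⟨Bm, Km, hBm0, hKm0, m₀, H⟩ := HL L
  refine ⟨β₀, 10 + 4 * Bm + (L + 1) * Km, hβ, by positivity, m₀, ?_⟩
  intro V C _ _ _ _ U D S β ls N hmU ins hD1 hD2 hmV hmC hβ0 hβ1 hdeg hls3 hlsL hN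
  obtain ⟨w, R, P, m100, mB, hP, hR, wsum, w0, row⟩ :=
    H V C U D S β hmU ins hD1 hD2 hmV hmC hβ0 hβ1 hdeg
  set m : ℝ := (U.card : ℝ) with hm
  have hm0 : 0 < m := by linarith
  have hd : (D.card : ℝ) ≤ m := by rw [hm]; exact_mod_cast hD2
  clear_value m
  have hlsI : ls ∈ Icc 3 L := Finset.mem_Icc.2 ⟨hls3, hlsL⟩
  have iB : Bm / m ≤ 1 / 2 := by rw [div_le_iff₀ hm0]; linarith
  have iB0 : 0 ≤ Bm / m := by positivity
  have i0 : 0 < 1 / m := by positivity
  have i1 : 1 / m ≤ 1 / 100 := one_div_le_one_div_of_le (by norm_num) m100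
  set E : Finset ℕ := (Icc 3 L).erase ls with hE
  set SN : ℝ := ∑ l ∈ E, (l : ℝ) * (N l : ℝ) with hSN
  have hSN0 : 0 ≤ SN := Finset.sum_nonneg fun l _ => by positivity
  have hls0 : (1 : ℝ) ≤ (ls : ℝ) := by
    have : 1 ≤ ls := by omega
    exact_mod_cast this
  set Q : C → ℝ := fun c => R c / 2 * (1 - Bm / m) with hQ
  have hQm : ∀ c ∈ D, Q c ≤ m := by
    intro c hc
    obtain ⟨h1, h2, h3⟩ := hR c hc
    have : R c / 2 * (1 - Bm / m) ≤ R c / 2 * 1 :=
      mul_le_mul_of_nonneg_left (by linarith) (by linarith)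
    simp only [hQ]; linarith
  have hQS : ∀ c ∈ D, SN ≤ Q c := fun c hc => hN.trans (hR c hc).2.2
  have hQ0 : ∀ c ∈ D, 0 ≤ Q c := fun c hc => hSN0.trans (hQS c hc)
  set a : C → ℝ := fun c => (Q c - SN) / ls with ha
  have a0 : ∀ c ∈ D, 0 ≤ a c := fun c hc => div_nonneg (by linarith [hQS c hc]) (by linarith)
  have am : ∀ c ∈ D, a c ≤ m := by
    intro c hc
    simp only [ha]
    rw [div_le_iff₀ (by linarith)]
    have h1 := hQm c hc
    nlinarith
  set q : C → ℕ → ℝ := fun c l => if l = ls then a c else (N l : ℝ) with hq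
  have q0 : ∀ c ∈ D, ∀ l, 0 ≤ q c l := by
    intro c hc l
    simp only [hq]
    split_ifs
    · exact a0 c hc
    · positivity
  have qm : ∀ c ∈ D, ∀ l ∈ Icc 3 L, q c l ≤ m := by
    intro c hc l hl
    simp only [hq]
    split_ifs with h
    · exact am c hc
    · have h1 : (l : ℝ) * (N l : ℝ) ≤ SN :=
        Finset.single_le_sum (f := fun l : ℕ => (l : ℝ) * (N l : ℝ)) (fun l _ => by positivity)
          (Finset.mem_erase.2 ⟨h, hl⟩)
      have h2 : (1 : ℝ) ≤ (l : ℝ) := by
        have : 1 ≤ l := by have := (Finset.mem_Icc.1 hl).1; omega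
        exact_mod_cast this
      have h3 : (N l : ℝ) ≤ (l : ℝ) * (N l : ℝ) := by
        have : (0 : ℝ) ≤ N l := by positivity
        nlinarith
      have h4 : SN ≤ (1 - α) * m := hN
      nlinarith
  have qs : ∀ c ∈ D, ∑ l ∈ Icc 3 L, (l : ℝ) * q c l = Q c := by
    intro c hc
    rw [← Finset.add_sum_erase _ _ hlsI]
    have h1 : ∑ l ∈ (Icc 3 L).erase ls, (l : ℝ) * q c l = SN := by
      refine Finset.sum_congr rfl fun l hl => ?_
      simp only [hq]
      rw [if_neg (Finset.mem_erase.1 hl).1]
    rw [h1]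
    simp only [hq, if_true, ha]
    have : (ls : ℝ) ≠ 0 := by positivity
    field_simp
    ring
  obtain ⟨W, hW⟩ : ∃ W : ℕ → Finset (Item V C) → ℝ, ∀ l p, W l p = if l ∈ Icc 3 L then
      ∑ c ∈ D, (if l = ls then a c else 1) * P c l p else 0 := ⟨_, fun _ _ => rfl⟩
  have htot : ∀ p, tot L ls N W p = ∑ c ∈ D, ∑ l ∈ Icc 3 L, q c l * P c l p := by
    intro p
    unfold tot
    rw [hW ls p, if_pos hlsI]
    have h1 : ∀ l ∈ (Icc 3 L).erase ls, (N l : ℝ) * W l p = ∑ c ∈ D, q c l * P c l p := by
      intro l hl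
      obtain ⟨h2, h3⟩ := Finset.mem_erase.1 hl
      rw [hW l p, if_pos h3, Finset.mul_sum]
      refine Finset.sum_congr rfl fun c _ => ?_
      simp only [hq, if_neg h2, one_mul]
    rw [Finset.sum_congr rfl h1, Finset.sum_comm, ← Finset.sum_add_distrib]
    refine Finset.sum_congr rfl fun c _ => ?_
    rw [← Finset.add_sum_erase _ _ hlsI]
    simp only [hq, if_true]
  have hsum : ∀ (Pr : Finset (Item V C) → Prop) [DecidablePred Pr],
      ∑ p with Pr p, tot L ls N W p = ∑ c ∈ D, ∑ l ∈ Icc 3 L, q c l * ∑ p with Pr p, P c l p := by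
    intro Pr _
    rw [Finset.sum_congr rfl fun p _ => htot p, Finset.sum_comm]
    refine Finset.sum_congr rfl fun c _ => ?_
    rw [Finset.sum_comm]
    refine Finset.sum_congr rfl fun l _ => ?_
    rw [Finset.mul_sum]
  have hzero : ∀ c ∈ D, ∀ l ∈ Icc 3 L, ∀ (Pr : Finset (Item V C) → Prop) [DecidablePred Pr],
      (∀ p, IsPiece l c p → ¬ Pr p) → ∑ p with Pr p, P c l p = 0 := by
    intro c hc l hl Pr _ h
    refine Finset.sum_eq_zero fun p hp => ?_
    by_contra hne
    exact h p ((hP c hc l hl).su p hne).2 (Finset.mem_filter.1 hp).2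
  have hmono : ∀ c ∈ D, ∀ l ∈ Icc 3 L, ∀ (Pr Pr' : Finset (Item V C) → Prop) [DecidablePred Pr]
      [DecidablePred Pr'], (∀ p, Pr p → Pr' p) → ∑ p with Pr p, P c l p ≤ ∑ p with Pr' p, P c l p := by
    intro c hc l hl Pr Pr' _ _ h
    refine Finset.sum_le_sum_of_subset_of_nonneg ?_ fun p _ _ => (hP c hc l hl).nn p
    intro p hp
    exact Finset.mem_filter.2 ⟨Finset.mem_univ _, h p (Finset.mem_filter.1 hp).2⟩
  have hcard : ((Icc 3 L).card : ℝ) ≤ L + 1 := by
    rw [Nat.card_Icc]
    have : L + 1 - 3 ≤ L + 1 := by omega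
    calc ((L + 1 - 3 : ℕ) : ℝ) ≤ ((L + 1 : ℕ) : ℝ) := by exact_mod_cast this
      _ = L + 1 := by push_cast; ring
  -- one colour
  have one_col : ∀ c ∈ D, ∀ f : ℕ → ℝ, (∀ l ∈ Icc 3 L, f l ≤ Km / m ^ 2) →
      ∑ l ∈ Icc 3 L, q c l * f l ≤ (L + 1) * Km / m := by
    intro c hc f hf
    have h1 : ∀ l ∈ Icc 3 L, q c l * f l ≤ Km / m := by
      intro l hl
      have h2 : q c l * f l ≤ q c l * (Km / m ^ 2) := mul_le_mul_of_nonneg_left (hf l hl) (q0 c hc l)
      have h3 : q c l * (Km / m ^ 2) ≤ m * (Km / m ^ 2) :=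
        mul_le_mul_of_nonneg_right (qm c hc l hl) (by positivity)
      have h4 : m * (Km / m ^ 2) = Km / m := by field_simp
      linarith
    refine (Finset.sum_le_sum h1).trans ?_
    rw [Finset.sum_const, nsmul_eq_mul, mul_div_assoc]
    exact mul_le_mul_of_nonneg_right hcard (by positivity)
  have fin_K : (L + 1) * Km / m ≤ (10 + 4 * Bm + (L + 1) * Km) / m :=
    div_le_div_of_nonneg_right (by linarith) hm0.le
  refine ⟨W, ?_, ?_, ?_, ?_, ?_, ?_⟩
  · intro l p
    rw [hW]
    by_cases h1 : l ∈ Icc 3 L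
    · rw [if_pos h1]
      refine Finset.sum_nonneg fun c hc => mul_nonneg ?_ ((hP c hc l h1).nn p)
      split_ifs
      · exact a0 c hc
      · norm_num
    · rw [if_neg h1]
  · intro l p hne
    rw [hW] at hne
    by_cases h1 : l ∈ Icc 3 L
    · rw [if_pos h1] at hne
      obtain ⟨c, hc, h2⟩ := Finset.exists_ne_zero_of_sum_ne_zero hne
      have h3 : P c l p ≠ 0 := by
        intro h3; apply h2; rw [h3, mul_zero]
      obtain ⟨h4, h5⟩ := (hP c hc l h1).su p h3
      exact ⟨h1, h4, c, hc, h5⟩
    · rw [if_neg h1] at hne; exact absurd rfl hne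
  · intro l hl c hc
    obtain ⟨h2, h3⟩ := Finset.mem_erase.1 hl
    have h4 : ∀ p, W l p = ∑ c' ∈ D, P c' l p := by
      intro p
      rw [hW, if_pos h3]
      refine Finset.sum_congr rfl fun c' _ => ?_
      rw [if_neg h2, one_mul]
    rw [Finset.sum_congr rfl fun p _ => h4 p, Finset.sum_comm, Finset.sum_eq_single c]
    · rw [← (hP c hc l h3).one]
      refine Finset.sum_subset (Finset.filter_subset _ _) fun p _ hp => ?_
      by_contra hne
      exact hp (Finset.mem_filter.2 ⟨Finset.mem_univ _, ((hP c hc l h3).su p hne).2⟩)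
    · intro c' hc' hne
      exact hzero c' hc' l h3 (fun p => IsPiece l c p) fun p h5 h6 => hne (piece_colour h5 h6)
    · intro h; exact absurd hc h
  · intro i hi
    rcases i with e | ⟨v, c⟩
    · induction e using Sym2.ind with
      | _ x y =>
      rw [hsum]
      have ht := wsum x y hi
      constructor
      · have h1 : ∀ c ∈ D, w c x y * (1 - Bm / m) ^ 2 ≤
            ∑ l ∈ Icc 3 L, q c l * ∑ p with (Sum.inl s(x, y) : Item V C) ∈ p, P c l p := by
          intro c hc
          obtain ⟨hR0, -, -⟩ := hR c hc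
          have h2 : ∀ l ∈ Icc 3 L, (2 * w c x y * (1 - Bm / m) / R c) * (l * q c l) ≤
              q c l * ∑ p with (Sum.inl s(x, y) : Item V C) ∈ p, P c l p := by
            intro l hl
            have h3 := mul_le_mul_of_nonneg_left ((hP c hc l hl).elo x y) (q0 c hc l)
            refine le_trans (le_of_eq ?_) h3
            ring
          refine le_trans (le_of_eq ?_) (Finset.sum_le_sum h2)
          rw [← Finset.mul_sum, qs c hc]
          simp only [hQ]
          field_simp
        refine le_trans ?_ (Finset.sum_le_sum h1)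
        rw [← Finset.sum_mul, ht]
        have h4 : 10 * (1 / m) + 4 * (Bm / m) + 10 * β ≤ (10 + 4 * Bm + (L + 1) * Km) * (β + 1 / m) := by
          have e1 : (10 + 4 * Bm + (L + 1) * Km) * (β + 1 / m)
            = 10 * (1 / m) + 4 * (Bm / m) + 10 * β + (4 * Bm * β + (L + 1) * Km * (β + 1 / m)) := by
            ring
          rw [e1]
          have : 0 ≤ 4 * Bm * β + (L + 1) * Km * (β + 1 / m) := by positivity
          linarith
        have h5 : 1 - 2 * (Bm / m) ≤ (1 - Bm / m) ^ 2 := by nlinarith [sq_nonneg (Bm / m)]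
        have h6 : 0 ≤ 1 - 2 * β - 1 / m ∨ 1 - 2 * β - 1 / m < 0 := le_or_gt _ _
        rcases h6 with h6 | h6
        · have h7 := mul_le_mul_of_nonneg_left h5 h6
          nlinarith [mul_nonneg hβ0 iB0, mul_nonneg i0.le iB0]
        · have h7 : (1 - Bm / m) ^ 2 ≤ 1 := by nlinarith
          nlinarith [mul_nonneg hβ0 iB0, mul_nonneg i0.le iB0]
      · have h1 : ∀ c ∈ D, ∑ l ∈ Icc 3 L, q c l * ∑ p with (Sum.inl s(x, y) : Item V C) ∈ p, P c l p
            ≤ w c x y := by
          intro c hc
          obtain ⟨hR0, -, -⟩ := hR c hc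
          have h2 : ∀ l ∈ Icc 3 L, q c l * ∑ p with (Sum.inl s(x, y) : Item V C) ∈ p, P c l p
              ≤ (2 * w c x y / (R c * (1 - Bm / m))) * (l * q c l) := by
            intro l hl
            have h3 := mul_le_mul_of_nonneg_left ((hP c hc l hl).eup x y) (q0 c hc l)
            refine h3.trans (le_of_eq ?_)
            ring
          refine (Finset.sum_le_sum h2).trans (le_of_eq ?_)
          rw [← Finset.mul_sum, qs c hc]
          simp only [hQ]
          have h9 : m - Bm ≠ 0 := by
            have : 0 < m - Bm := by linarith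
            exact this.ne'
          field_simp
        refine (Finset.sum_le_sum h1).trans ?_
        rw [ht]; linarith
    · obtain ⟨hvU, hcD⟩ := ins.2 _ _ hi
      have hv : v ∈ vt S c := by unfold vt; simpa using hi
      obtain ⟨r1, r2⟩ := row c hcD v hv
      obtain ⟨hR0, -, -⟩ := hR c hcD
      have r0 : 0 ≤ ∑ b, w c v b := Finset.sum_nonneg fun b _ => w0 c v b
      rw [hsum]
      have hs1 : ∑ c' ∈ D, ∑ l ∈ Icc 3 L, q c' l * ∑ p with (Sum.inr (v, c) : Item V C) ∈ p, P c' l p
          = ∑ l ∈ Icc 3 L, q c l * ∑ p with (Sum.inr (v, c) : Item V C) ∈ p, P c l p := by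
        refine Finset.sum_eq_single c ?_ ?_
        · intro c' hc' hne
          refine Finset.sum_eq_zero fun l hl => ?_
          rw [hzero c' hc' l hl (fun p => (Sum.inr (v, c) : Item V C) ∈ p)
            (fun p h5 h6 => hne (piece_inr h5 h6).symm), mul_zero]
        · intro h; exact absurd hcD h
      rw [hs1]
      constructor
      · have h2 : ∀ l ∈ Icc 3 L, ((∑ b, w c v b) * (1 - Bm / m) / R c) * (l * q c l) ≤
            q c l * ∑ p with (Sum.inr (v, c) : Item V C) ∈ p, P c l p := by
          intro l hl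
          have h3 := mul_le_mul_of_nonneg_left ((hP c hcD l hl).vlo v) (q0 c hcD l)
          refine le_trans (le_of_eq ?_) h3
          ring
        refine le_trans ?_ (Finset.sum_le_sum h2)
        rw [← Finset.mul_sum, qs c hcD]
        have h3 : (∑ b, w c v b) * (1 - Bm / m) / R c * Q c
            = (∑ b, w c v b) / 2 * (1 - Bm / m) ^ 2 := by
          simp only [hQ]
          field_simp
        rw [h3]
        have h4 : 10 * (1 / m) + 4 * (Bm / m) + 10 * β ≤ (10 + 4 * Bm + (L + 1) * Km) * (β + 1 / m) := by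
          have e1 : (10 + 4 * Bm + (L + 1) * Km) * (β + 1 / m)
            = 10 * (1 / m) + 4 * (Bm / m) + 10 * β + (4 * Bm * β + (L + 1) * Km * (β + 1 / m)) := by
            ring
          rw [e1]
          have : 0 ≤ 4 * Bm * β + (L + 1) * Km * (β + 1 / m) := by positivity
          linarith
        have h5 : 1 - 2 * (Bm / m) ≤ (1 - Bm / m) ^ 2 := by nlinarith [sq_nonneg (Bm / m)]
        have h7 : (∑ b, w c v b) / 2 * (1 - 2 * (Bm / m)) ≤ (∑ b, w c v b) / 2 * (1 - Bm / m) ^ 2 :=
          mul_le_mul_of_nonneg_left h5 (by linarith)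
        have h8 : (∑ b, w c v b) / 2 * (2 * (Bm / m)) ≤ 1 * (2 * (Bm / m)) :=
          mul_le_mul_of_nonneg_right (by linarith) (by linarith)
        have h9 : 3 / m = 3 * (1 / m) := by ring
        rw [h9] at r1
        linarith
      · have h2 : ∀ l ∈ Icc 3 L, q c l * ∑ p with (Sum.inr (v, c) : Item V C) ∈ p, P c l p
            ≤ ((∑ b, w c v b) / (R c * (1 - Bm / m))) * (l * q c l) := by
          intro l hl
          have h3 := mul_le_mul_of_nonneg_left ((hP c hcD l hl).vup v) (q0 c hcD l)
          refine h3.trans (le_of_eq ?_)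
          ring
        refine (Finset.sum_le_sum h2).trans ?_
        rw [← Finset.mul_sum, qs c hcD]
        have h9 : m - Bm ≠ 0 := by
          have : 0 < m - Bm := by linarith
          exact this.ne'
        have h3 : (∑ b, w c v b) / (R c * (1 - Bm / m)) * Q c = (∑ b, w c v b) / 2 := by
          simp only [hQ]
          field_simp
        rw [h3]; linarith
  · intro i j hij
    rw [hsum]
    refine le_trans ?_ fin_K
    -- pieces of one colour only
    have single : ∀ (v : V) (c : C) (Pr : Finset (Item V C) → Prop) [DecidablePred Pr],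
        (∀ p, Pr p → (Sum.inr (v, c) : Item V C) ∈ p) →
        (∀ c' ∈ D, c' = c → ∀ l ∈ Icc 3 L, ∑ p with Pr p, P c' l p ≤ Km / m ^ 2) →
        ∑ c ∈ D, ∑ l ∈ Icc 3 L, q c l * ∑ p with Pr p, P c l p ≤ (L + 1) * Km / m := by
      intro v c Pr _ h1 h2
      by_cases hcD : c ∈ D
      · rw [Finset.sum_eq_single c]
        · exact one_col c hcD _ (h2 c hcD rfl)
        · intro c' hc' hne
          refine Finset.sum_eq_zero fun l hl => ?_
          rw [hzero c' hc' l hl Pr (fun p h5 h6 => hne (piece_inr h5 (h1 p h6)).symm), mul_zero]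
        · intro h; exact absurd hcD h
      · rw [Finset.sum_eq_zero]
        · positivity
        · intro c' hc'
          refine Finset.sum_eq_zero fun l hl => ?_
          rw [hzero c' hc' l hl Pr (fun p h5 h6 => ?_), mul_zero]
          have := piece_inr h5 (h1 p h6)
          exact hcD (this ▸ hc')
    rcases i with e | ⟨u, c⟩
    · induction e using Sym2.ind with
      | _ x y =>
      rcases j with e' | ⟨v, c'⟩
      · induction e' using Sym2.ind with
        | _ x' y' =>
        have hne : s(x, y) ≠ s(x', y') := fun h => hij (by rw [h])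
        have h1 : ∀ c ∈ D, ∑ l ∈ Icc 3 L, q c l * ∑ p with ((Sum.inl s(x, y) : Item V C) ∈ p ∧
            (Sum.inl s(x', y') : Item V C) ∈ p), P c l p ≤ (L + 1) * Km / m ^ 2 := by
          intro c hc
          have h2 : ∀ l ∈ Icc 3 L, q c l * ∑ p with ((Sum.inl s(x, y) : Item V C) ∈ p ∧
              (Sum.inl s(x', y') : Item V C) ∈ p), P c l p ≤ Km / m ^ 2 := by
            intro l hl
            have h3 := mul_le_mul_of_nonneg_left ((hP c hc l hl).ee x y x' y' hne) (q0 c hc l)
            have h4 : q c l * (Km / m ^ 3) ≤ m * (Km / m ^ 3) :=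
              mul_le_mul_of_nonneg_right (qm c hc l hl) (by positivity)
            have h5 : m * (Km / m ^ 3) = Km / m ^ 2 := by field_simp
            linarith
          refine (Finset.sum_le_sum h2).trans ?_
          rw [Finset.sum_const, nsmul_eq_mul, mul_div_assoc]
          exact mul_le_mul_of_nonneg_right hcard (by positivity)
        refine (Finset.sum_le_sum h1).trans ?_
        rw [Finset.sum_const, nsmul_eq_mul]
        have h6 : (D.card : ℝ) * ((L + 1) * Km / m ^ 2) ≤ m * ((L + 1) * Km / m ^ 2) :=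
          mul_le_mul_of_nonneg_right hd (by positivity)
        refine h6.trans (le_of_eq ?_)
        field_simp
      · refine single v c' _ (fun p h => h.2) fun c'' hc'' _ l hl => ?_
        refine (hmono c'' hc'' l hl _ (fun p => (Sum.inl s(x, y) : Item V C) ∈ p)
          fun p h => h.1).trans ?_
        exact (hP c'' hc'' l hl).e1 x y
    · rcases j with e' | ⟨v, c'⟩
      · induction e' using Sym2.ind with
        | _ x' y' =>
        refine single u c _ (fun p h => h.1) fun c'' hc'' _ l hl => ?_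
        refine (hmono c'' hc'' l hl _ (fun p => (Sum.inl s(x', y') : Item V C) ∈ p)
          fun p h => h.2).trans ?_
        exact (hP c'' hc'' l hl).e1 x' y'
      · refine single u c _ (fun p h => h.1) fun c'' hc'' hcc l hl => ?_
        subst hcc
        by_cases hc' : c' = c''
        · subst hc'
          have huv : u ≠ v := fun h => hij (by rw [h])
          exact (hP c' hc'' l hl).vv u v huv
        · rw [hzero c'' hc'' l hl _ (fun p h5 h6 => hc' (piece_inr h5 h6.2))]
          positivity
  · intro l hl c hc i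
    obtain ⟨h2, h3⟩ := Finset.mem_erase.1 hl
    have h4 : ∀ p, W l p = ∑ c' ∈ D, P c' l p := by
      intro p
      rw [hW, if_pos h3]
      refine Finset.sum_congr rfl fun c' _ => ?_
      rw [if_neg h2, one_mul]
    rw [Finset.sum_congr rfl fun p _ => h4 p, Finset.sum_comm, Finset.sum_eq_single c]
    · have hKK : Km / m ≤ (10 + 4 * Bm + (L + 1) * Km) / m := by
        refine div_le_div_of_nonneg_right ?_ hm0.le
        have : 0 ≤ (L : ℝ) * Km := by positivity
        linarith
      refine le_trans ?_ hKK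
      refine (hmono c hc l h3 _ (fun p => i ∈ p) fun p h => h.1).trans ?_
      rcases i with e | ⟨v, c'⟩
      · induction e using Sym2.ind with
        | _ x y =>
        refine ((hP c hc l h3).e1 x y).trans ?_
        rw [div_le_div_iff₀ (by positivity) hm0]
        have : m ≤ m ^ 2 := by nlinarith
        exact mul_le_mul_of_nonneg_left this hKm0
      · by_cases hcc : c' = c
        · subst hcc
          exact (hP c' hc l h3).v1 v
        · rw [hzero c hc l h3 _ (fun p h5 h6 => hcc (piece_inr h5 h6))]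
          positivity
    · intro c' hc' hne
      exact hzero c' hc' l h3 _ fun p h5 h6 => hne (piece_colour h5 h6.2)
    · intro h; exact absurd hc h

end Pool.Agent.OBW
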