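import Mathlib

/-!
OBW, part MIX: the coloured weights.
-/

set_option autoImplicit false

namespace Pool.Agent.OBW

open Finset
open scoped Classical

/-- a nearly complete coloured system on the full types `V`, `C` -/
structure CD {V C : Type} [Fintype V] [Fintype C] (η : ℝ) (g : V → V → ℝ) (χ : V → C → ℝ) :
    Prop where
  g01 : ∀ a b, g a b = 0 ∨ g a b = 1
  gs : ∀ a b, g a b = g b a
  gd : ∀ a, g a a = 0
  χ01 : ∀ a c, χ a c = 0 ∨ χ a c = 1
  η0 : 0 ≤ η
  η1 : η ≤ 1 / 768
  m0 : 0 < (Fintype.card V : ℝ)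
  deg : ∀ a, 3 / 4 * (Fintype.card V : ℝ) ≤ ∑ b, g a b
  missV : ∀ a, ∑ c, (1 - χ a c) ≤ η * Fintype.card V
  missC : ∀ c, ∑ a, (1 - χ a c) ≤ η * Fintype.card V
  dlo : 3 / 8 * (Fintype.card V : ℝ) ≤ Fintype.card C
  dhi : (Fintype.card C : ℝ) ≤ Fintype.card V

section
variable {V C : Type} [Fintype V] [Fintype C] {η : ℝ} {g : V → V → ℝ} {χ : V → C → ℝ}

/-- number of common colours -/
noncomputable def Cn (χ : V → C → ℝ) (a b : V) : ℝ := ∑ c, χ a c * χ b c

omit [Fintype V] in
lemma Cn_symm (a b : V) : Cn χ a b = Cn χ b a := by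
  unfold Cn
  exact Finset.sum_congr rfl fun c _ => mul_comm _ _

lemma CD.χ0 (h : CD η g χ) (a : V) (c : C) : 0 ≤ χ a c := by
  rcases h.χ01 a c with h | h <;> rw [h] <;> norm_num

lemma CD.χ1 (h : CD η g χ) (a : V) (c : C) : χ a c ≤ 1 := by
  rcases h.χ01 a c with h | h <;> rw [h] <;> norm_num

lemma CD.g0 (h : CD η g χ) (a b : V) : 0 ≤ g a b := by
  rcases h.g01 a b with h | h <;> rw [h] <;> norm_num

lemma CD.g1 (h : CD η g χ) (a b : V) : g a b ≤ 1 := by
  rcases h.g01 a b with h | h <;> rw [h] <;> norm_num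

lemma CD.d0 (h : CD η g χ) : 0 < (Fintype.card C : ℝ) := by
  have := h.m0; have := h.dlo
  linarith

lemma CD.Cn_le (h : CD η g χ) (a b : V) : Cn χ a b ≤ Fintype.card C := by
  unfold Cn
  have h1 : ∑ c, χ a c * χ b c ≤ ∑ _c : C, (1 : ℝ) := Finset.sum_le_sum fun c _ =>
    mul_le_one₀ (h.χ1 a c) (h.χ0 b c) (h.χ1 b c)
  simpa using h1

lemma CD.Cn_ge (h : CD η g χ) (a b : V) :
    (Fintype.card C : ℝ) - 2 * η * Fintype.card V ≤ Cn χ a b := by
  unfold Cn
  have h1 : ∀ c, 1 - (1 - χ a c) - (1 - χ b c) ≤ χ a c * χ b c := by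
    intro c
    nlinarith [h.χ0 a c, h.χ1 a c, h.χ0 b c, h.χ1 b c]
  have h2 := Finset.sum_le_sum (s := (univ : Finset C)) fun c _ => h1 c
  rw [Finset.sum_sub_distrib, Finset.sum_sub_distrib] at h2
  have h3 := h.missV a; have h4 := h.missV b
  have h5 : ∑ _c : C, (1 : ℝ) = Fintype.card C := by simp
  rw [h5] at h2
  linarith

lemma CD.Cn_half (h : CD η g χ) (a b : V) : (Fintype.card C : ℝ) / 2 ≤ Cn χ a b := by
  have h1 := h.Cn_ge a b
  have h2 := h.dlo; have h3 := h.m0; have h4 := h.η1
  nlinarith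

lemma CD.Cn_pos (h : CD η g χ) (a b : V) : 0 < Cn χ a b := by
  have h1 := h.Cn_half a b
  have h2 := h.d0
  linarith

/-- deviation of the inverse number of common colours -/
lemma CD.inv_dev (h : CD η g χ) (a b : V) :
    0 ≤ 1 / Cn χ a b - 1 / Fintype.card C ∧
    1 / Cn χ a b - 1 / Fintype.card C ≤ 4 * η * Fintype.card V / (Fintype.card C : ℝ) ^ 2 := by
  have h1 := h.Cn_pos a b
  have h2 := h.d0
  have h3 := h.Cn_le a b
  have h4 := h.Cn_half a b
  have h5 := h.Cn_ge a b
  have h6 := h.η0; have h7 := h.m0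
  constructor
  · rw [sub_nonneg]
    exact one_div_le_one_div_of_le h1 h3
  · rw [div_sub_div _ _ h1.ne' h2.ne', div_le_div_iff₀ (by positivity) (by positivity)]
    have h8 : (1 * (Fintype.card C : ℝ) - Cn χ a b * 1) * (Fintype.card C : ℝ) ^ 2
        ≤ (2 * η * Fintype.card V) * (Fintype.card C : ℝ) ^ 2 :=
      mul_le_mul_of_nonneg_right (by linarith) (by positivity)
    refine h8.trans ?_
    have h9 : 4 * η * (Fintype.card V : ℝ) * ((Fintype.card C : ℝ) / 2 * Fintype.card C)
        ≤ 4 * η * Fintype.card V * (Cn χ a b * Fintype.card C) :=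
      mul_le_mul_of_nonneg_left (mul_le_mul_of_nonneg_right h4 h2.le) (by positivity)
    refine le_trans (le_of_eq ?_) h9
    ring

/-- total deviation along a row -/
lemma CD.row_dev (h : CD η g χ) (v : V) (c : C) :
    ∑ b, |χ b c / Cn χ v b - 1 / Fintype.card C| ≤ 32 * η := by
  set m : ℝ := (Fintype.card V : ℝ) with hm
  set d : ℝ := (Fintype.card C : ℝ) with hd
  have hd0 : 0 < d := h.d0
  have hm0 : 0 < m := h.m0
  have hη := h.η0
  have h1 : ∀ b, |χ b c / Cn χ v b - 1 / d| ≤ (1 - χ b c) / d + 4 * η * m / d ^ 2 := by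
    intro b
    have h2 := h.inv_dev v b
    rw [← hm, ← hd] at h2
    rcases h.χ01 b c with h3 | h3
    · rw [h3, zero_div, zero_sub, abs_neg, abs_of_nonneg (by positivity), sub_zero]
      have : 0 ≤ 4 * η * m / d ^ 2 := by positivity
      linarith
    · rw [h3, abs_of_nonneg h2.1, sub_self, zero_div, zero_add]
      exact h2.2
  refine (Finset.sum_le_sum fun b _ => h1 b).trans ?_
  rw [Finset.sum_add_distrib, ← Finset.sum_div, Finset.sum_const, Finset.card_univ, nsmul_eq_mul,
    ← hm]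
  have h4 := h.missC c
  rw [← hm] at h4
  have h5 := h.dlo
  rw [← hm, ← hd] at h5
  have h6 : (∑ a, (1 - χ a c)) / d ≤ η * (8 / 3) := by
    rw [div_le_iff₀ hd0]
    refine h4.trans ?_
    have : η * (3 / 8 * m) ≤ η * d := mul_le_mul_of_nonneg_left h5 hη
    linarith
  have h7 : m * (4 * η * m / d ^ 2) ≤ η * (256 / 9) := by
    rw [← mul_div_assoc, div_le_iff₀ (by positivity)]
    have h8 : (3 / 8 * m) ^ 2 ≤ d ^ 2 := pow_le_pow_left₀ (by positivity) h5 2
    have h9 := mul_le_mul_of_nonneg_left h8 hη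
    nlinarith
  linarith

/-- the indicator of a triangle -/
noncomputable def Tr (g : V → V → ℝ) (χ : V → C → ℝ) (c : C) (p q r : V) : ℝ :=
  g p q * g p r * g q r * (χ p c * χ q c * χ r c)

omit [Fintype V] [Fintype C] in
lemma Tr_swap (hg : ∀ a b, g a b = g b a) (c : C) (p q r : V) : Tr g χ c p q r = Tr g χ c q p r := by
  unfold Tr; rw [hg p q]; ring

omit [Fintype V] [Fintype C] in
lemma Tr_swap2 (hg : ∀ a b, g a b = g b a) (c : C) (p q r : V) : Tr g χ c p q r = Tr g χ c p r q := by
  unfold Tr; rw [hg q r]; ring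

lemma CD.Tr0 (h : CD η g χ) (c : C) (p q r : V) : 0 ≤ Tr g χ c p q r := by
  unfold Tr
  have := h.g0; have := h.χ0
  exact mul_nonneg (mul_nonneg (mul_nonneg (h.g0 _ _) (h.g0 _ _)) (h.g0 _ _))
    (mul_nonneg (mul_nonneg (h.χ0 _ _) (h.χ0 _ _)) (h.χ0 _ _))

lemma CD.Tr1 (h : CD η g χ) (c : C) (p q r : V) : Tr g χ c p q r ≤ 1 := by
  unfold Tr
  rcases h.g01 p q with h1 | h1 <;> rcases h.g01 p r with h2 | h2 <;>
    rcases h.g01 q r with h3 | h3 <;> rcases h.χ01 p c with h4 | h4 <;>
    rcases h.χ01 q c with h5 | h5 <;> rcases h.χ01 r c with h6 | h6 <;>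
    rw [h1, h2, h3, h4, h5, h6] <;> norm_num

/-- number of triangles at a vertex -/
noncomputable def ta (g : V → V → ℝ) (χ : V → C → ℝ) (c : C) (v : V) : ℝ :=
  ∑ a, ∑ b, Tr g χ c v a b

lemma CD.ta_ge (h : CD η g χ) (c : C) (v : V) (hv : χ v c = 1) :
    (Fintype.card V : ℝ) ^ 2 / 4 ≤ ta g χ c v := by
  set m : ℝ := (Fintype.card V : ℝ) with hm
  have hm0 : 0 < m := h.m0
  have hη := h.η0; have hη1 := h.η1
  have hcard : ∑ _b : V, (1 : ℝ) = m := by simp [hm]
  have hmC := h.missC c
  rw [Finset.sum_sub_distrib, hcard, ← hm] at hmC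
  have h1 : ∀ a, g v a * χ a c * ((1 / 2 - η) * m) ≤ ∑ b, Tr g χ c v a b := by
    intro a
    have h2 : ∀ b, g v a * χ a c * (g v b + g a b + χ b c - 2) ≤ Tr g χ c v a b := by
      intro b
      unfold Tr
      rw [hv]
      rcases h.g01 v a with h1 | h1 <;> rcases h.g01 v b with h2 | h2 <;>
        rcases h.g01 a b with h3 | h3 <;>
        rcases h.χ01 a c with h5 | h5 <;> rcases h.χ01 b c with h6 | h6 <;>
        rw [h1, h2, h3, h5, h6] <;> norm_num
    refine le_trans ?_ (Finset.sum_le_sum fun b _ => h2 b)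
    rw [← Finset.mul_sum]
    refine mul_le_mul_of_nonneg_left ?_ (mul_nonneg (h.g0 _ _) (h.χ0 _ _))
    rw [Finset.sum_sub_distrib, Finset.sum_add_distrib, Finset.sum_add_distrib]
    have h3 := h.deg v; have h4 := h.deg a
    rw [← hm] at h3 h4
    have h5 : ∑ _b : V, (2 : ℝ) = 2 * m := by
      rw [Finset.sum_const, Finset.card_univ, nsmul_eq_mul, ← hm]; ring
    rw [h5]
    linarith
  have h6 : (3 / 4 - η) * m ≤ ∑ a, g v a * χ a c := by
    have h7 : ∀ a, g v a + χ a c - 1 ≤ g v a * χ a c := by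
      intro a
      nlinarith [h.g0 v a, h.g1 v a, h.χ0 a c, h.χ1 a c]
    refine le_trans ?_ (Finset.sum_le_sum fun a _ => h7 a)
    rw [Finset.sum_sub_distrib, Finset.sum_add_distrib, hcard]
    have h3 := h.deg v
    rw [← hm] at h3
    linarith
  have h8 : (3 / 4 - η) * m * ((1 / 2 - η) * m) ≤ ta g χ c v := by
    unfold ta
    refine le_trans ?_ (Finset.sum_le_sum fun a _ => h1 a)
    rw [← Finset.sum_mul]
    exact mul_le_mul_of_nonneg_right h6 (mul_nonneg (by linarith) hm0.le)
  refine le_trans ?_ h8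
  have h9 : (3 / 4 - η) * m * ((1 / 2 - η) * m) = ((3 / 4 - η) * (1 / 2 - η)) * m ^ 2 := by ring
  rw [h9]
  have h10 : 1 / 4 ≤ (3 / 4 - η) * (1 / 2 - η) := by nlinarith
  have h11 := mul_le_mul_of_nonneg_right h10 (sq_nonneg m)
  linarith

/-- admissible coloured weights with total `t` -/
structure Adm (t : ℝ) (g : V → V → ℝ) (χ : V → C → ℝ) (w : C → V → V → ℝ) : Prop where
  sy : ∀ c a b, w c a b = w c b a
  su : ∀ c a b, w c a b ≠ 0 → g a b = 1 ∧ χ a c = 1 ∧ χ b c = 1
  sm : ∀ a b, ∑ c, w c a b = t * g a b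

/-- the error of a row sum -/
noncomputable def er (t : ℝ) (g : V → V → ℝ) (χ : V → C → ℝ) (w : C → V → V → ℝ) (v : V) (c : C) :
    ℝ := χ v c * (t * (∑ b, g v b) / (∑ c', χ v c') - ∑ b, w c v b)

lemma CD.cl_pos (h : CD η g χ) (v : V) : (Fintype.card C : ℝ) / 2 ≤ ∑ c, χ v c := by
  have h1 := h.missV v
  rw [Finset.sum_sub_distrib] at h1
  have h2 : ∑ _c : C, (1 : ℝ) = Fintype.card C := by simp
  rw [h2] at h1
  have h3 := h.dlo; have h4 := h.η1; have h5 := h.m0
  nlinarith

lemma CD.er_sum (h : CD η g χ) {t : ℝ} {w : C → V → V → ℝ} (hw : Adm t g χ w) (v : V) :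
    ∑ c, er t g χ w v c = 0 := by
  unfold er
  have h1 := h.cl_pos v
  have h2 := h.d0
  have h3 : (0 : ℝ) < ∑ c, χ v c := by linarith
  simp only [mul_sub]
  rw [Finset.sum_sub_distrib, ← Finset.sum_mul, mul_div_cancel₀ _ h3.ne']
  have h4 : ∑ c, χ v c * ∑ b, w c v b = ∑ b, ∑ c, w c v b := by
    simp only [Finset.mul_sum]
    rw [Finset.sum_comm]
    refine Finset.sum_congr rfl fun b _ => Finset.sum_congr rfl fun c _ => ?_
    by_cases h5 : w c v b = 0
    · rw [h5, mul_zero]
    · rw [(hw.su c v b h5).2.1, one_mul]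
  rw [h4]
  simp only [hw.sm, ← Finset.mul_sum]
  ring

lemma CD.er_supp (t : ℝ) (w : C → V → V → ℝ) (v : V) (c : C)
    (hv : χ v c = 0) : er t g χ w v c = 0 := by
  unfold er; rw [hv, zero_mul]

/-- one correction step -/
lemma CD.step (h : CD η g χ) {t : ℝ} {w : C → V → V → ℝ} (hw : Adm t g χ w) {X : ℝ} (hX : 0 ≤ X)
    (he : ∀ v c, |er t g χ w v c| ≤ X) :
    ∃ w' : C → V → V → ℝ, Adm t g χ w' ∧
      (∀ c a b, |w' c a b - w c a b| ≤ 76 * X / Fintype.card V) ∧
      ∀ v c, |er t g χ w' v c| ≤ X / 2 := by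
  set m : ℝ := (Fintype.card V : ℝ) with hm
  set d : ℝ := (Fintype.card C : ℝ) with hd
  have hm0 : 0 < m := h.m0
  have hd0 : 0 < d := h.d0
  have hη := h.η0; have hη1 := h.η1
  have hdm : d ≤ m := h.dhi
  have hdl : 3 / 8 * m ≤ d := h.dlo
  set x : V → C → ℝ := fun v c => er t g χ w v c with hx
  set y : C → V → ℝ := fun c v => x v c / ta g χ c v with hy
  have yb : ∀ c v, |y c v| ≤ 4 * X / m ^ 2 := by
    intro c v
    rcases h.χ01 v c with h1 | h1
    · have : y c v = 0 := by
        simp only [hy, hx]; rw [CD.er_supp t w v c h1, zero_div]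
      rw [this, abs_zero]; positivity
    · have h2 := h.ta_ge c v h1
      rw [← hm] at h2
      have h3 : 0 < ta g χ c v := lt_of_lt_of_le (by positivity) h2
      simp only [hy]
      rw [abs_div, abs_of_pos h3, div_le_div_iff₀ h3 (by positivity)]
      have h4 := he v c
      calc |x v c| * m ^ 2 ≤ X * m ^ 2 := mul_le_mul_of_nonneg_right h4 (sq_nonneg m)
        _ = 4 * X * (m ^ 2 / 4) := by ring
        _ ≤ 4 * X * ta g χ c v := mul_le_mul_of_nonneg_left h2 (by positivity)
  set u1 : C → V → V → ℝ := fun c p q => ∑ r, (y c p + y c q - y c r) * Tr g χ c p q r with hu1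
  have u1s : ∀ c p q, u1 c p q = u1 c q p := by
    intro c p q
    simp only [hu1]
    refine Finset.sum_congr rfl fun r _ => ?_
    rw [Tr_swap h.gs c p q r]; ring
  have u1b : ∀ c p q, |u1 c p q| ≤ 12 * X / m := by
    intro c p q
    simp only [hu1]
    refine (Finset.abs_sum_le_sum_abs _ _).trans ?_
    have h1 : ∀ r, |(y c p + y c q - y c r) * Tr g χ c p q r| ≤ 12 * X / m ^ 2 := by
      intro r
      rw [abs_mul, abs_of_nonneg (h.Tr0 c p q r)]
      have h2 : |y c p + y c q - y c r| ≤ 12 * X / m ^ 2 := by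
        have a1 := abs_le.1 (yb c p); have a2 := abs_le.1 (yb c q); have a3 := abs_le.1 (yb c r)
        have a4 : 12 * X / m ^ 2 = 3 * (4 * X / m ^ 2) := by ring
        rw [a4, abs_le]
        constructor <;> linarith [a1.1, a1.2, a2.1, a2.2, a3.1, a3.2]
      calc |y c p + y c q - y c r| * Tr g χ c p q r ≤ |y c p + y c q - y c r| * 1 :=
            mul_le_mul_of_nonneg_left (h.Tr1 c p q r) (abs_nonneg _)
        _ ≤ _ := by rw [mul_one]; exact h2
    refine (Finset.sum_le_sum fun r _ => h1 r).trans (le_of_eq ?_)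
    rw [Finset.sum_const, Finset.card_univ, nsmul_eq_mul, ← hm]
    field_simp
  have u1z : ∀ c p q, u1 c p q ≠ 0 → g p q = 1 ∧ χ p c = 1 ∧ χ q c = 1 := by
    intro c p q hne
    refine ⟨?_, ?_, ?_⟩
    · rcases h.g01 p q with h1 | h1
      · exfalso; apply hne
        simp only [hu1, Tr, h1, zero_mul, mul_zero, Finset.sum_const_zero]
      · exact h1
    · rcases h.χ01 p c with h1 | h1
      · exfalso; apply hne
        simp only [hu1, Tr, h1, zero_mul, mul_zero, Finset.sum_const_zero]
      · exact h1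
    · rcases h.χ01 q c with h1 | h1
      · exfalso; apply hne
        simp only [hu1, Tr, h1, zero_mul, mul_zero, Finset.sum_const_zero]
      · exact h1
  have u1r : ∀ c p, ∑ q, u1 c p q = x p c := by
    intro c p
    have h1 : ∑ q, u1 c p q = y c p * ta g χ c p := by
      have h2 : ∑ q, ∑ r, (y c q - y c r) * Tr g χ c p q r = 0 := by
        have h3 : ∑ q, ∑ r, (y c q - y c r) * Tr g χ c p q r
            = ∑ q, ∑ r, (y c r - y c q) * Tr g χ c p q r := by
          rw [Finset.sum_comm]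
          refine Finset.sum_congr rfl fun q _ => Finset.sum_congr rfl fun r _ => ?_
          rw [Tr_swap2 h.gs c p r q]
        have h4 : ∑ q, ∑ r, (y c r - y c q) * Tr g χ c p q r
            = - ∑ q, ∑ r, (y c q - y c r) * Tr g χ c p q r := by
          rw [← Finset.sum_neg_distrib]
          refine Finset.sum_congr rfl fun q _ => ?_
          rw [← Finset.sum_neg_distrib]
          refine Finset.sum_congr rfl fun r _ => ?_
          ring
        linarith
      unfold ta
      simp only [hu1]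
      rw [Finset.mul_sum]
      simp only [Finset.mul_sum]
      rw [← sub_eq_zero, ← Finset.sum_sub_distrib]
      simp only [← Finset.sum_sub_distrib]
      rw [← h2]
      refine Finset.sum_congr rfl fun q _ => Finset.sum_congr rfl fun r _ => ?_
      ring
    rw [h1]
    rcases h.χ01 p c with h5 | h5
    · have : x p c = 0 := by simp only [hx]; exact CD.er_supp t w p c h5
      simp only [hy]; rw [this]; simp
    · have h2 := h.ta_ge c p h5
      rw [← hm] at h2
      have h3 : 0 < ta g χ c p := lt_of_lt_of_le (by positivity) h2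
      simp only [hy]
      exact div_mul_cancel₀ _ h3.ne'
  set s : V → V → ℝ := fun a b => ∑ c, u1 c a b with hs
  have ss : ∀ a b, s a b = s b a := by
    intro a b; simp only [hs]
    exact Finset.sum_congr rfl fun c _ => u1s c a b
  have sb : ∀ a b, |s a b| ≤ 12 * X := by
    intro a b
    simp only [hs]
    refine (Finset.abs_sum_le_sum_abs _ _).trans ?_
    refine (Finset.sum_le_sum fun c _ => u1b c a b).trans ?_
    rw [Finset.sum_const, Finset.card_univ, nsmul_eq_mul, ← hd]
    rw [← mul_div_assoc, div_le_iff₀ hm0]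
    have := mul_le_mul_of_nonneg_right hdm (show 0 ≤ 12 * X by positivity)
    linarith
  have sz : ∀ a b, s a b ≠ 0 → g a b = 1 := by
    intro a b hne
    rcases h.g01 a b with h1 | h1
    · exfalso; apply hne
      simp only [hs]
      refine Finset.sum_eq_zero fun c _ => ?_
      by_contra hc
      have := (u1z c a b hc).1
      rw [h1] at this; norm_num at this
    · exact h1
  have sr : ∀ a, ∑ b, s a b = 0 := by
    intro a
    simp only [hs]
    rw [Finset.sum_comm]
    simp only [u1r]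
    exact h.er_sum hw a
  set u2 : C → V → V → ℝ := fun c a b => - s a b * (χ a c * χ b c / Cn χ a b) with hu2
  have u2s : ∀ c a b, u2 c a b = u2 c b a := by
    intro c a b; simp only [hu2]; rw [ss a b, Cn_symm a b]; ring
  have u2t : ∀ a b, ∑ c, u2 c a b = - s a b := by
    intro a b
    simp only [hu2]
    rw [← Finset.mul_sum, ← Finset.sum_div]
    have : ∑ c, χ a c * χ b c = Cn χ a b := rfl
    rw [this, div_self (h.Cn_pos a b).ne', mul_one]
  have u2z : ∀ c a b, u2 c a b ≠ 0 → g a b = 1 ∧ χ a c = 1 ∧ χ b c = 1 := by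
    intro c a b hne
    simp only [hu2] at hne
    refine ⟨?_, ?_, ?_⟩
    · apply sz a b
      intro h1; apply hne; rw [h1]; simp
    · rcases h.χ01 a c with h1 | h1
      · exfalso; apply hne; rw [h1]; simp
      · exact h1
    · rcases h.χ01 b c with h1 | h1
      · exfalso; apply hne; rw [h1]; simp
      · exact h1
  have u2b : ∀ c a b, |u2 c a b| ≤ 64 * X / m := by
    intro c a b
    simp only [hu2]
    rw [abs_mul, abs_neg]
    have h1 : |χ a c * χ b c / Cn χ a b| ≤ 2 / d := by
      rw [abs_of_nonneg (div_nonneg (mul_nonneg (h.χ0 _ _) (h.χ0 _ _)) (h.Cn_pos a b).le)]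
      rw [div_le_div_iff₀ (h.Cn_pos a b) hd0]
      have h2 : χ a c * χ b c ≤ 1 := mul_le_one₀ (h.χ1 a c) (h.χ0 b c) (h.χ1 b c)
      have h3 := h.Cn_half a b
      rw [← hd] at h3
      have h4 := mul_le_mul_of_nonneg_right h2 hd0.le
      linarith
    calc |s a b| * |χ a c * χ b c / Cn χ a b| ≤ 12 * X * (2 / d) :=
          mul_le_mul (sb a b) h1 (abs_nonneg _) (by positivity)
      _ ≤ 64 * X / m := by
          rw [← mul_div_assoc, div_le_div_iff₀ hd0 hm0]
          have := mul_le_mul_of_nonneg_left hdl (show 0 ≤ 64 * X by positivity)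
          linarith
  refine ⟨fun c a b => w c a b + u1 c a b + u2 c a b, ⟨?_, ?_, ?_⟩, ?_, ?_⟩
  · intro c a b
    rw [hw.sy c a b, u1s c a b, u2s c a b]
  · intro c a b hne
    by_cases h1 : w c a b = 0
    · by_cases h2 : u1 c a b = 0
      · have h3 : u2 c a b ≠ 0 := by
          intro h3; apply hne; rw [h1, h2, h3]; ring
        exact u2z c a b h3
      · exact u1z c a b h2
    · exact hw.su c a b h1
  · intro a b
    rw [Finset.sum_add_distrib, Finset.sum_add_distrib, hw.sm, u2t]
    have : ∑ c, u1 c a b = s a b := rfl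
    rw [this]; ring
  · intro c a b
    simp only
    have h1 : w c a b + u1 c a b + u2 c a b - w c a b = u1 c a b + u2 c a b := by ring
    rw [h1]
    refine (abs_add_le _ _).trans ?_
    have h2 : 76 * X / m = 12 * X / m + 64 * X / m := by ring
    rw [h2]
    exact add_le_add (u1b c a b) (u2b c a b)
  · intro v c
    rcases h.χ01 v c with h1 | h1
    · rw [CD.er_supp t _ v c h1, abs_zero]; positivity
    · have h2 : er t g χ (fun c a b => w c a b + u1 c a b + u2 c a b) v c
          = ∑ b, s v b * (χ b c / Cn χ v b - 1 / d) := by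
        unfold er
        rw [Finset.sum_add_distrib, Finset.sum_add_distrib, u1r]
        have h3 : x v c = χ v c * (t * (∑ b, g v b) / (∑ c', χ v c') - ∑ b, w c v b) := rfl
        have h4 : ∑ b, u2 c v b = - ∑ b, s v b * (χ b c / Cn χ v b) := by
          rw [← Finset.sum_neg_distrib]
          refine Finset.sum_congr rfl fun b _ => ?_
          simp only [hu2]; rw [h1]; ring
        rw [h4]
        rw [h1, one_mul] at h3 ⊢
        rw [h3]
        simp only [mul_sub, Finset.sum_sub_distrib]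
        rw [← Finset.sum_mul, sr v]
        ring
      rw [h2]
      refine (Finset.abs_sum_le_sum_abs _ _).trans ?_
      have h5 : ∀ b, |s v b * (χ b c / Cn χ v b - 1 / d)|
          ≤ 12 * X * |χ b c / Cn χ v b - 1 / d| := by
        intro b
        rw [abs_mul]
        exact mul_le_mul_of_nonneg_right (sb v b) (abs_nonneg _)
      refine (Finset.sum_le_sum fun b _ => h5 b).trans ?_
      rw [← Finset.mul_sum]
      have h6 := h.row_dev v c
      rw [← hd] at h6
      have h7 := mul_le_mul_of_nonneg_left h6 (show 0 ≤ 12 * X by positivity)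
      refine h7.trans ?_
      have h8 : X * η ≤ X * (1 / 768) := mul_le_mul_of_nonneg_left hη1 hX
      linarith

/-- the start -/
lemma CD.start (h : CD η g χ) {t : ℝ} (ht0 : 0 ≤ t) (ht1 : t ≤ 1) :
    ∃ w : C → V → V → ℝ, Adm t g χ w ∧
      (∀ c a b, g a b = 1 → χ a c = 1 → χ b c = 1 →
        |w c a b - t / Fintype.card C| ≤ 11 * η / Fintype.card C) ∧
      ∀ v c, |er t g χ w v c| ≤ 48 * η := by
  set m : ℝ := (Fintype.card V : ℝ) with hm
  set d : ℝ := (Fintype.card C : ℝ) with hd
  have hm0 : 0 < m := h.m0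
  have hd0 : 0 < d := h.d0
  have hη := h.η0; have hη1 := h.η1
  have hdm : d ≤ m := h.dhi
  have hdl : 3 / 8 * m ≤ d := h.dlo
  have hdev : ∀ a b, 0 ≤ 1 / Cn χ a b - 1 / d ∧ 1 / Cn χ a b - 1 / d ≤ 11 * η / d := by
    intro a b
    obtain ⟨h1, h2⟩ := h.inv_dev a b
    rw [← hm, ← hd] at h2
    rw [← hd] at h1
    refine ⟨h1, h2.trans ?_⟩
    rw [div_le_div_iff₀ (by positivity) hd0]
    have h3 : 4 * η * m * d ≤ 4 * η * (8 / 3 * d) * d := by
      refine mul_le_mul_of_nonneg_right (mul_le_mul_of_nonneg_left (by linarith) (by positivity))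
        hd0.le
    have h4 : 0 ≤ η * d ^ 2 := by positivity
    nlinarith
  refine ⟨fun c a b => t * g a b * (χ a c * χ b c / Cn χ a b), ⟨?_, ?_, ?_⟩, ?_, ?_⟩
  · intro c a b
    rw [h.gs a b, Cn_symm a b]; ring
  · intro c a b hne
    refine ⟨?_, ?_, ?_⟩
    · rcases h.g01 a b with h1 | h1
      · exfalso; apply hne; rw [h1]; simp
      · exact h1
    · rcases h.χ01 a c with h1 | h1
      · exfalso; apply hne; rw [h1]; simp
      · exact h1
    · rcases h.χ01 b c with h1 | h1
      · exfalso; apply hne; rw [h1]; simp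
      · exact h1
  · intro a b
    rw [← Finset.mul_sum, ← Finset.sum_div]
    have : ∑ c, χ a c * χ b c = Cn χ a b := rfl
    rw [this, div_self (h.Cn_pos a b).ne', mul_one]
  · intro c a b h1 h2 h3
    simp only
    rw [h1, h2, h3, mul_one, mul_one]
    have h4 : t * (1 / Cn χ a b) - t / d = t * (1 / Cn χ a b - 1 / d) := by ring
    rw [h4, abs_of_nonneg (mul_nonneg ht0 (hdev a b).1)]
    calc t * (1 / Cn χ a b - 1 / d) ≤ 1 * (1 / Cn χ a b - 1 / d) :=
          mul_le_mul_of_nonneg_right ht1 (hdev a b).1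
      _ ≤ _ := by rw [one_mul]; exact (hdev a b).2
  · intro v c
    rcases h.χ01 v c with h1 | h1
    · rw [CD.er_supp t _ v c h1, abs_zero]; positivity
    · unfold er
      rw [h1, one_mul]
      have hcl := h.cl_pos v
      rw [← hd] at hcl
      set S : ℝ := ∑ c', χ v c' with hS
      set D : ℝ := ∑ b, g v b with hD
      have hS0 : 0 < S := by linarith
      have hSd : S ≤ d := by
        have : ∑ c', χ v c' ≤ ∑ _c : C, (1 : ℝ) := Finset.sum_le_sum fun c _ => h.χ1 v c
        simpa [hd] using this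
      have hSm : d - η * m ≤ S := by
        have h2 := h.missV v
        rw [Finset.sum_sub_distrib] at h2
        have h3 : ∑ _c : C, (1 : ℝ) = d := by simp [hd]
        rw [h3] at h2
        linarith
      have hD0 : 0 ≤ D := Finset.sum_nonneg fun b _ => h.g0 v b
      have hDm : D ≤ m := by
        have : ∑ b, g v b ≤ ∑ _b : V, (1 : ℝ) := Finset.sum_le_sum fun b _ => h.g1 v b
        simpa [hm] using this
      have h2 : t * D / S - ∑ b, t * g v b * (1 * χ b c / Cn χ v b)
          = t * D * (1 / S - 1 / d) - ∑ b, t * g v b * (χ b c / Cn χ v b - 1 / d) := by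
        simp only [mul_sub, Finset.sum_sub_distrib, one_mul]
        rw [← Finset.sum_mul, ← Finset.mul_sum]
        ring
      beta_reduce
      rw [h1, h2]
      have h3 : |t * D * (1 / S - 1 / d)| ≤ 16 * η := by
        have h4 : 0 ≤ 1 / S - 1 / d := sub_nonneg.2 (one_div_le_one_div_of_le hS0 hSd)
        rw [abs_of_nonneg (mul_nonneg (mul_nonneg ht0 hD0) h4)]
        have h5 : 1 / S - 1 / d ≤ 2 * (η * m) / d ^ 2 := by
          rw [div_sub_div _ _ hS0.ne' hd0.ne', div_le_div_iff₀ (by positivity) (by positivity)]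
          have h6 : (1 * d - S * 1) * d ^ 2 ≤ (η * m) * d ^ 2 :=
            mul_le_mul_of_nonneg_right (by linarith) (by positivity)
          refine h6.trans ?_
          have h7 : 2 * (η * m) * (d / 2 * d) ≤ 2 * (η * m) * (S * d) :=
            mul_le_mul_of_nonneg_left (mul_le_mul_of_nonneg_right hcl hd0.le) (by positivity)
          linarith
        have h6 : t * D ≤ m := by
          calc t * D ≤ 1 * D := mul_le_mul_of_nonneg_right ht1 hD0
            _ ≤ m := by rw [one_mul]; exact hDm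
        calc t * D * (1 / S - 1 / d) ≤ m * (2 * (η * m) / d ^ 2) :=
              mul_le_mul h6 h5 h4 hm0.le
          _ ≤ 16 * η := by
              rw [← mul_div_assoc, div_le_iff₀ (by positivity)]
              have h8 : (3 / 8 * m) ^ 2 ≤ d ^ 2 := pow_le_pow_left₀ (by positivity) hdl 2
              have h9 := mul_le_mul_of_nonneg_left h8 hη
              nlinarith
      have h4 : |∑ b, t * g v b * (χ b c / Cn χ v b - 1 / d)| ≤ 32 * η := by
        refine (Finset.abs_sum_le_sum_abs _ _).trans ?_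
        refine le_trans (Finset.sum_le_sum fun b _ => ?_) (h.row_dev v c)
        rw [abs_mul, ← hd]
        have h5 : |t * g v b| ≤ 1 := by
          rw [abs_of_nonneg (mul_nonneg ht0 (h.g0 v b))]
          exact mul_le_one₀ ht1 (h.g0 v b) (h.g1 v b)
        calc |t * g v b| * |χ b c / Cn χ v b - 1 / d| ≤ 1 * |χ b c / Cn χ v b - 1 / d| :=
              mul_le_mul_of_nonneg_right h5 (abs_nonneg _)
          _ = _ := one_mul _
      have h5 := abs_sub (t * D * (1 / S - 1 / d)) (∑ b, t * g v b * (χ b c / Cn χ v b - 1 / d))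
      linarith

/-- **the coloured weights** -/
theorem CD.main (h : CD η g χ) {t : ℝ} (ht0 : 0 ≤ t) (ht1 : t ≤ 1) {δ : ℝ} (hδ : 0 < δ) :
    ∃ w : C → V → V → ℝ, Adm t g χ w ∧
      (∀ c a b, g a b = 1 → χ a c = 1 → χ b c = 1 →
        |w c a b - t / Fintype.card C| ≤ 7400 * η / Fintype.card C) ∧
      ∀ v c, χ v c = 1 → |∑ b, w c v b - t * (∑ b, g v b) / ∑ c', χ v c'| ≤ δ := by
  set m : ℝ := (Fintype.card V : ℝ) with hm
  set d : ℝ := (Fintype.card C : ℝ) with hd
  have hm0 : 0 < m := h.m0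
  have hd0 : 0 < d := h.d0
  have hη := h.η0; have hη1 := h.η1
  have hdm : d ≤ m := h.dhi
  have key : ∀ k : ℕ, ∃ w : C → V → V → ℝ, Adm t g χ w ∧
      (∀ c a b, g a b = 1 → χ a c = 1 → χ b c = 1 →
        |w c a b - t / d| ≤ (11 + 7296 * (1 - 1 / 2 ^ k)) * η / d) ∧
      ∀ v c, |er t g χ w v c| ≤ 48 * η / 2 ^ k := by
    intro k
    induction k with
    | zero =>
      obtain ⟨w, h1, h2, h3⟩ := h.start ht0 ht1
      refine ⟨w, h1, ?_, ?_⟩
      · intro c a b g1 g2 g3
        have := h2 c a b g1 g2 g3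
        rw [← hd] at this
        simpa using this
      · intro v c
        simpa using h3 v c
    | succ k ih =>
      obtain ⟨w, h1, h2, h3⟩ := ih
      obtain ⟨w', g1, g2, g3⟩ := h.step h1 (show 0 ≤ 48 * η / 2 ^ k by positivity) h3
      refine ⟨w', g1, ?_, ?_⟩
      · intro c a b e1 e2 e3
        have h4 := h2 c a b e1 e2 e3
        have h5 := g2 c a b
        rw [← hm] at h5
        have h6 : |w' c a b - t / d| ≤ |w' c a b - w c a b| + |w c a b - t / d| := by
          have := abs_add_le (w' c a b - w c a b) (w c a b - t / d)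
          simpa using this
        have h7 : 76 * (48 * η / 2 ^ k) / m ≤ 76 * (48 * η / 2 ^ k) / d := by
          exact div_le_div_of_nonneg_left (by positivity) hd0 hdm
        have h8 : (11 + 7296 * (1 - 1 / 2 ^ (k + 1))) * η / d
            = (11 + 7296 * (1 - 1 / 2 ^ k)) * η / d + 76 * (48 * η / 2 ^ k) / d := by
          rw [pow_succ]
          field_simp
          ring
        rw [h8]
        linarith
      · intro v c
        have := g3 v c
        rw [pow_succ]
        refine this.trans (le_of_eq ?_)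
        field_simp
  obtain ⟨k, hk⟩ := exists_pow_lt_of_lt_one (show 0 < δ / 48 by positivity)
    (show (1 / 2 : ℝ) < 1 by norm_num)
  obtain ⟨w, h1, h2, h3⟩ := key k
  refine ⟨w, h1, ?_, ?_⟩
  · intro c a b g1 g2 g3
    refine (h2 c a b g1 g2 g3).trans ?_
    refine div_le_div_of_nonneg_right (mul_le_mul_of_nonneg_right ?_ hη) hd0.le
    have : (0 : ℝ) < 1 / 2 ^ k := by positivity
    linarith
  · intro v c hv
    have h4 := h3 v c
    unfold er at h4
    rw [hv, one_mul, abs_sub_comm] at h4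
    refine h4.trans ?_
    have h5 : 48 * η / 2 ^ k = 48 * η * (1 / 2) ^ k := by
      rw [one_div, inv_pow]; ring
    rw [h5]
    have h6 : 48 * η * (1 / 2) ^ k ≤ 48 * (1 / 2) ^ k := by
      have : (0 : ℝ) ≤ (1 / 2) ^ k := by positivity
      nlinarith
    linarith

end

end Pool.Agent.OBW
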