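import Pool.Agent.WFN.SpreadThm

/-!
OBW, part MIX: measures on closed walks of a given length with prescribed marginals.
-/

set_option autoImplicit false

namespace Pool.Agent.OBW

open Finset
open scoped Classical

/-- measure on the injective closed walks `x 0, …, x k` (length `k + 1`) with marginals `w` -/
structure CM {V : Type} [Fintype V] (k : ℕ) (w : V → V → ℝ) (A B : ℝ)
    (μ : (Fin (k + 1) → V) → ℝ) : Prop where
  nn : ∀ x, 0 ≤ μ x
  inj : ∀ x, μ x ≠ 0 → Function.Injective x
  ed : ∀ x, μ x ≠ 0 → (∀ i : Fin k, 0 < w (x i.castSucc) (x i.succ)) ∧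
    0 < w (x (Fin.last k)) (x 0)
  le : ∀ x, μ x ≤ A / (Fintype.card V : ℝ) ^ (k - 1)
  up : ∀ (i : Fin k) (a b : V), ∑ x, (if x i.castSucc = a ∧ x i.succ = b then μ x else 0) ≤ w a b
  lo : ∀ (i : Fin k) (a b : V), w a b * (1 - B / Fintype.card V) ≤
    ∑ x, (if x i.castSucc = a ∧ x i.succ = b then μ x else 0)
  upc : ∀ a b : V, ∑ x, (if x (Fin.last k) = a ∧ x 0 = b then μ x else 0) ≤ w a b
  loc : ∀ a b : V, w a b * (1 - B / Fintype.card V) ≤
    ∑ x, (if x (Fin.last k) = a ∧ x 0 = b then μ x else 0)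

lemma mc_sum_cons {V : Type} [Fintype V] {k : ℕ} (f : (Fin (k + 1) → V) → ℝ) :
    ∑ y, f y = ∑ x : Fin k → V, ∑ z : V, f (Fin.cons z x) := by
  rw [← Equiv.sum_comp (Fin.consEquiv (fun _ : Fin (k + 1) => V)) f, Fintype.sum_prod_type,
    Finset.sum_comm]
  rfl

/-- the number of walks with two prescribed values -/
lemma mc_cnt2 {V : Type} [Fintype V] {k : ℕ} {i j : Fin (k + 1)} (hij : i ≠ j) (a b : V) :
    ∑ x : Fin (k + 1) → V, (if x i = a ∧ x j = b then (1 : ℝ) else 0)
      = (Fintype.card V : ℝ) ^ (k - 1) := by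
  have h1 := Pool.WFN.cnt (V := V) {i, j} (fun u => if u = i then a else b)
  rw [Finset.card_pair hij] at h1
  have h2 : k + 1 - 2 = k - 1 := by omega
  rw [h2] at h1
  rw [← h1]
  refine Finset.sum_congr rfl fun x _ => ?_
  rw [Finset.prod_pair hij, if_pos rfl, if_neg (Ne.symm hij)]
  by_cases g1 : x i = a <;> by_cases g2 : x j = b <;> simp [g1, g2]

/-- base case: closed walks of length two -/
lemma mc_base {V : Type} [Fintype V] {w : V → V → ℝ} (w0 : ∀ a b, 0 ≤ w a b)
    (w1 : ∀ a b, w a b ≤ 1) (ws : ∀ a b, w a b = w b a) (wd : ∀ a, w a a = 0) :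
    CM 1 w 1 0 (fun x => w (x 0) (x 1)) := by
  have hs : ∀ f : V → V → ℝ, ∀ a b, ∑ x : Fin 2 → V,
      (if x 0 = a ∧ x 1 = b then f (x 0) (x 1) else 0) = f a b := by
    intro f a b
    rw [← Equiv.sum_comp (finTwoArrowEquiv V).symm, Fintype.sum_prod_type]
    simp only [finTwoArrowEquiv_symm_apply, Matrix.cons_val_zero, Matrix.cons_val_one]
    rw [Finset.sum_eq_single a]
    · rw [Finset.sum_eq_single b]
      · simp
      · intro b' _ hb'; simp [hb']
      · intro h; exact absurd (Finset.mem_univ _) h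
    · intro a' _ ha'; simp [ha']
    · intro h; exact absurd (Finset.mem_univ _) h
  have hs' : ∀ a b, ∑ x : Fin 2 → V, (if x 1 = a ∧ x 0 = b then w (x 0) (x 1) else 0) = w a b := by
    intro a b
    rw [ws a b, ← hs w b a]
    refine Finset.sum_congr rfl fun x _ => ?_
    simp only [and_comm]
  refine ⟨fun x => w0 _ _, ?_, ?_, ?_, ?_, ?_, ?_, ?_⟩
  · intro x hx i j hij
    fin_cases i <;> fin_cases j
    · rfl
    · exfalso; apply hx; simp only at hij ⊢; change x 0 = x 1 at hij; rw [hij, wd]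
    · exfalso; apply hx; simp only at hij ⊢; change x 1 = x 0 at hij; rw [hij, wd]
    · rfl
  · intro x hx
    have h1 : 0 < w (x 0) (x 1) := lt_of_le_of_ne (w0 _ _) (Ne.symm hx)
    refine ⟨fun i => ?_, ?_⟩
    · fin_cases i; exact h1
    · rw [ws]; exact h1
  · intro x; simpa using w1 _ _
  · intro i a b
    fin_cases i
    exact le_of_eq (hs w a b)
  · intro i a b
    fin_cases i
    rw [zero_div, sub_zero, mul_one]
    exact le_of_eq (hs w a b).symm
  · intro a b
    exact le_of_eq (hs' a b)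
  · intro a b
    rw [zero_div, sub_zero, mul_one]
    exact le_of_eq (hs' a b).symm

/-- one step -/
lemma mc_step {V : Type} [Fintype V] [Nonempty V] {w : V → V → ℝ} (w0 : ∀ a b, 0 ≤ w a b)
    (wh : ∀ a b, w a b ≠ 0 → 1 / 2 ≤ w a b)
    (wd : ∀ a, w a a = 0) {o : V → V → V → ℝ} (o0 : ∀ a b c, 0 ≤ o a b c)
    (o1 : ∀ a b c, o a b c = o b a c) (o2 : ∀ a b c, o a b c = o a c b) {K : ℝ} (hK : 0 ≤ K)
    (oK : ∀ a b c, o a b c ≤ K / Fintype.card V) (os : ∀ a b, ∑ c, o a b c = w a b)
    {k : ℕ} (hk : 1 ≤ k) {A B : ℝ} (hA : 0 ≤ A) {μ : (Fin (k + 1) → V) → ℝ} (hμ : CM k w A B μ) :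
    ∃ ν : (Fin (k + 2) → V) → ℝ, CM (k + 1) w (2 * K * A) (B + 4 * (k + 1) * K * A) ν := by
  set n : ℝ := (Fintype.card V : ℝ) with hn
  have hn0 : 0 < n := by rw [hn]; exact_mod_cast Fintype.card_pos
  have oc : ∀ a b c, o a b c = o c b a := fun a b c => by rw [o1 a b c, o2 b a c, o1 b c a]
  have ole : ∀ a b c, o a b c ≤ w a b := by
    intro a b c
    rw [← os a b]
    exact Finset.single_le_sum (f := fun c => o a b c) (fun c _ => o0 a b c) (Finset.mem_univ c)
  have ole2 : ∀ a b c, o a b c ≤ w a c := fun a b c => by rw [o2]; exact ole a c b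
  have ole3 : ∀ a b c, o a b c ≤ w b c := fun a b c => by rw [o1]; exact ole2 b a c
  set ν0 : V → (Fin (k + 1) → V) → ℝ := fun z x =>
    μ x * (o (x (Fin.last k)) z (x 0) / w (x (Fin.last k)) (x 0)) with hν0
  set ν : (Fin (k + 2) → V) → ℝ := fun y =>
    if y 0 ∈ Set.range (Fin.tail y : Fin (k + 1) → V) then 0 else ν0 (y 0) (Fin.tail y) with hν
  have νc : ∀ z x, ν (Fin.cons z x) = if z ∈ Set.range x then 0 else ν0 z x := by
    intro z x
    simp only [hν, Fin.cons_zero, Fin.tail_cons]
  have q0 : ∀ a b c, 0 ≤ o a b c / w a c := fun a b c => div_nonneg (o0 _ _ _) (w0 _ _)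
  have qK : ∀ a b c, o a b c / w a c ≤ 2 * K / n := by
    intro a b c
    by_cases h : w a c = 0
    · rw [h, div_zero]; positivity
    · have h1 := wh _ _ h
      rw [div_le_iff₀ (by linarith)]
      have h2 := oK a b c
      have h3 : K / n ≤ 2 * K / n * w a c := by
        have h4 : K / n = 2 * K / n * (1 / 2) := by ring
        rw [h4]
        exact mul_le_mul_of_nonneg_left h1 (by positivity)
      linarith
  have ν00 : ∀ z x, 0 ≤ ν0 z x := fun z x => mul_nonneg (hμ.nn x) (q0 _ _ _)
  have hAk : 0 ≤ A / n ^ (k - 1) := by positivity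
  have ν0K : ∀ z x, ν0 z x ≤ 2 * K * A / n ^ k := by
    intro z x
    have h1 : ν0 z x ≤ A / n ^ (k - 1) * (2 * K / n) :=
      mul_le_mul (hμ.le x) (qK _ _ _) (q0 _ _ _) hAk
    refine h1.trans (le_of_eq ?_)
    have h2 : n ^ k = n ^ (k - 1) * n := by
      rw [← pow_succ]; congr 1; omega
    rw [h2]
    field_simp
  have ν0s : ∀ x, ∑ z, ν0 z x = μ x := by
    intro x
    by_cases hx : μ x = 0
    · simp [hν0, hx]
    · have h1 := (hμ.ed x hx).2
      simp only [hν0, ← Finset.mul_sum, ← Finset.sum_div]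
      have h2 : ∑ z, o (x (Fin.last k)) z (x 0) = w (x (Fin.last k)) (x 0) := by
        rw [← os]
        exact Finset.sum_congr rfl fun z _ => o2 _ _ _
      rw [h2, div_self h1.ne', mul_one]
  -- weighted averages
  have avg_up : ∀ (c : V → ℝ) (u v : V → ℝ), (∀ e, c e ≤ u e) → (∀ e, 0 ≤ v e) → (∀ e, 0 ≤ u e) →
      ∑ e, c e * (v e / u e) ≤ ∑ e, v e := by
    intro c u v h1 h2 h3
    refine Finset.sum_le_sum fun e _ => ?_
    rcases eq_or_lt_of_le (h3 e) with h | h
    · rw [← h, div_zero, mul_zero]; exact h2 e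
    · have h4 := mul_le_mul_of_nonneg_right (h1 e) (div_nonneg (h2 e) (h3 e))
      refine h4.trans (le_of_eq ?_)
      field_simp
  have avg_lo : ∀ (c : V → ℝ) (u v : V → ℝ) (r : ℝ), (∀ e, u e * r ≤ c e) → (∀ e, 0 ≤ v e) →
      (∀ e, v e ≤ u e) → (∑ e, v e) * r ≤ ∑ e, c e * (v e / u e) := by
    intro c u v r h1 h2 h3
    rw [Finset.sum_mul]
    refine Finset.sum_le_sum fun e _ => ?_
    rcases eq_or_lt_of_le (h2 e) with h | h
    · rw [← h]; simp
    · have hu : 0 < u e := lt_of_lt_of_le h (h3 e)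
      have h4 := mul_le_mul_of_nonneg_right (h1 e) (div_nonneg (h2 e) hu.le)
      refine le_trans (le_of_eq ?_) h4
      field_simp
  -- unrestricted coverages
  have U1 : ∀ (i : Fin k) (a b : V), ∑ x, ∑ z, (if x i.castSucc = a ∧ x i.succ = b then ν0 z x else 0)
      = ∑ x, (if x i.castSucc = a ∧ x i.succ = b then μ x else 0) := by
    intro i a b
    refine Finset.sum_congr rfl fun x _ => ?_
    split_ifs
    · exact ν0s x
    · simp
  have split0 : ∀ (F : (Fin (k + 1) → V) → V → ℝ) (p : (Fin (k + 1) → V) → V),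
      ∑ x, F x (p x) = ∑ c, ∑ x, (if p x = c then F x c else 0) := by
    intro F p
    rw [Finset.sum_comm]
    refine Finset.sum_congr rfl fun x _ => ?_
    rw [Finset.sum_ite_eq]
    simp
  have U2 : ∀ a b : V, ∑ x : Fin (k + 1) → V, ∑ z, (if z = a ∧ x 0 = b then ν0 z x else 0)
      = ∑ c, (∑ x, (if x (Fin.last k) = c ∧ x 0 = b then μ x else 0)) * (o c a b / w c b) := by
    intro a b
    have h1 : ∀ x : Fin (k + 1) → V, ∑ z, (if z = a ∧ x 0 = b then ν0 z x else 0)
        = (fun c => if x 0 = b then μ x * (o c a b / w c b) else 0) (x (Fin.last k)) := by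
      intro x
      rw [Finset.sum_eq_single a]
      · show (if a = a ∧ x 0 = b then ν0 a x else 0)
          = if x 0 = b then μ x * (o (x (Fin.last k)) a b / w (x (Fin.last k)) b) else 0
        by_cases h : x 0 = b
        · rw [if_pos ⟨rfl, h⟩, if_pos h]
          simp only [hν0, h]
        · rw [if_neg fun h' => h h'.2, if_neg h]
      · intro z _ hz
        rw [if_neg fun h' => hz h'.1]
      · intro h; exact absurd (Finset.mem_univ _) h
    rw [Finset.sum_congr rfl fun x _ => h1 x,
      split0 (fun x c => if x 0 = b then μ x * (o c a b / w c b) else 0)]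
    refine Finset.sum_congr rfl fun c _ => ?_
    rw [Finset.sum_mul]
    refine Finset.sum_congr rfl fun x _ => ?_
    by_cases h1 : x (Fin.last k) = c <;> by_cases h2 : x 0 = b <;> simp [h1, h2]
  have U3 : ∀ a b : V, ∑ x : Fin (k + 1) → V, ∑ z, (if x (Fin.last k) = a ∧ z = b then ν0 z x else 0)
      = ∑ c, (∑ x, (if x (Fin.last k) = a ∧ x 0 = c then μ x else 0)) * (o a b c / w a c) := by
    intro a b
    have h1 : ∀ x : Fin (k + 1) → V, ∑ z, (if x (Fin.last k) = a ∧ z = b then ν0 z x else 0)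
        = (fun c => if x (Fin.last k) = a then μ x * (o a b c / w a c) else 0) (x 0) := by
      intro x
      rw [Finset.sum_eq_single b]
      · show (if x (Fin.last k) = a ∧ b = b then ν0 b x else 0)
          = if x (Fin.last k) = a then μ x * (o a b (x 0) / w a (x 0)) else 0
        by_cases h : x (Fin.last k) = a
        · rw [if_pos ⟨h, rfl⟩, if_pos h]
          simp only [hν0, h]
        · rw [if_neg fun h' => h h'.1, if_neg h]
      · intro z _ hz
        rw [if_neg fun h' => hz h'.2]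
      · intro h; exact absurd (Finset.mem_univ _) h
    rw [Finset.sum_congr rfl fun x _ => h1 x,
      split0 (fun x c => if x (Fin.last k) = a then μ x * (o a b c / w a c) else 0)]
    refine Finset.sum_congr rfl fun c _ => ?_
    rw [Finset.sum_mul]
    refine Finset.sum_congr rfl fun x _ => ?_
    by_cases h1 : x (Fin.last k) = a <;> by_cases h2 : x 0 = c <;> simp [h1, h2]
  -- the error of the restriction
  have err : ∀ (Q : V → (Fin (k + 1) → V) → Prop) [∀ z x, Decidable (Q z x)],
      (∀ j, ∑ x, (if Q (x j) x then (1 : ℝ) else 0) ≤ n ^ (k - 1)) →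
      ∑ x, ∑ z, (if Q z x ∧ z ∈ Set.range x then ν0 z x else 0) ≤ (k + 1) * (2 * K * A) / n := by
    intro Q _ hQ
    have h1 : ∀ x, ∑ z, (if Q z x ∧ z ∈ Set.range x then ν0 z x else 0)
        ≤ ∑ j, (if Q (x j) x then (1 : ℝ) else 0) * (2 * K * A / n ^ k) := by
      intro x
      have h2 : ∀ z, (if Q z x ∧ z ∈ Set.range x then ν0 z x else 0)
          ≤ ∑ j, (if z = x j then (if Q z x then (1 : ℝ) else 0) * (2 * K * A / n ^ k) else 0) := by
        intro z
        have hp : ∀ j : Fin (k + 1), 0 ≤ (if z = x j then (if Q z x then (1 : ℝ) else 0)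
            * (2 * K * A / n ^ k) else 0) := by
          intro j
          split_ifs <;> positivity
        by_cases h : Q z x ∧ z ∈ Set.range x
        · rw [if_pos h]
          obtain ⟨hq, j, hj⟩ := h
          refine le_trans ?_ (Finset.single_le_sum (f := fun j => if z = x j then
            (if Q z x then (1 : ℝ) else 0) * (2 * K * A / n ^ k) else 0) (fun j _ => hp j)
            (Finset.mem_univ j))
          rw [if_pos hj.symm, if_pos hq, one_mul]
          exact ν0K z x
        · rw [if_neg h]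
          exact Finset.sum_nonneg fun j _ => hp j
      refine (Finset.sum_le_sum fun z _ => h2 z).trans ?_
      rw [Finset.sum_comm]
      refine le_of_eq (Finset.sum_congr rfl fun j _ => ?_)
      rw [Finset.sum_ite_eq']
      simp
    refine (Finset.sum_le_sum fun x _ => h1 x).trans ?_
    rw [Finset.sum_comm]
    have h3 : ∀ j : Fin (k + 1), ∑ x : Fin (k + 1) → V, (if Q (x j) x then (1 : ℝ) else 0) *
        (2 * K * A / n ^ k) ≤ 2 * K * A / n := by
      intro j
      rw [← Finset.sum_mul]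
      have h4 := mul_le_mul_of_nonneg_right (hQ j) (show 0 ≤ 2 * K * A / n ^ k by positivity)
      refine h4.trans (le_of_eq ?_)
      have h2 : n ^ k = n ^ (k - 1) * n := by
        rw [← pow_succ]; congr 1; omega
      rw [h2]
      field_simp
    refine (Finset.sum_le_sum fun j _ => h3 j).trans (le_of_eq ?_)
    rw [Finset.sum_const, Finset.card_univ, Fintype.card_fin, nsmul_eq_mul]
    push_cast
    ring
  -- transfer to the walks of length `k + 2`
  have tr : ∀ (Q : V → (Fin (k + 1) → V) → Prop) [∀ z x, Decidable (Q z x)]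
      (P : (Fin (k + 2) → V) → Prop) [∀ y, Decidable (P y)],
      (∀ z x, P (Fin.cons z x) ↔ Q z x) → ∑ y, (if P y then ν y else 0)
        = ∑ x, ∑ z, (if Q z x then ν0 z x else 0)
          - ∑ x, ∑ z, (if Q z x ∧ z ∈ Set.range x then ν0 z x else 0) := by
    intro Q _ P _ hPQ
    rw [mc_sum_cons, ← Finset.sum_sub_distrib]
    refine Finset.sum_congr rfl fun x _ => ?_
    rw [← Finset.sum_sub_distrib]
    refine Finset.sum_congr rfl fun z _ => ?_
    rw [νc]
    by_cases h1 : Q z x
    · have h1' : P (Fin.cons z x) := (hPQ z x).2 h1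
      by_cases h2 : z ∈ Set.range x
      · rw [if_pos h1', if_pos h2, if_pos h1, if_pos ⟨h1, h2⟩]; ring
      · rw [if_pos h1', if_neg h2, if_pos h1, if_neg fun h => h2 h.2]; ring
    · have h1' : ¬ P (Fin.cons z x) := fun h => h1 ((hPQ z x).1 h)
      rw [if_neg h1', if_neg h1, if_neg fun h => h1 h.1]; ring
  have errnn : ∀ (Q : V → (Fin (k + 1) → V) → Prop) [∀ z x, Decidable (Q z x)],
      0 ≤ ∑ x, ∑ z, (if Q z x ∧ z ∈ Set.range x then ν0 z x else 0) := by
    intro Q _
    refine Finset.sum_nonneg fun x _ => Finset.sum_nonneg fun z _ => ?_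
    split_ifs
    · exact ν00 z x
    · exact le_rfl
  have ν_nn : ∀ y, 0 ≤ ν y := by
    intro y
    simp only [hν]
    split_ifs
    · exact le_rfl
    · exact ν00 _ _
  have e1 : ∀ (z : V) (x : Fin (k + 1) → V),
      (Fin.cons z x : Fin (k + 2) → V) (Fin.last (k + 1)) = x (Fin.last k) := by
    intro z x
    rw [← Fin.succ_last, Fin.cons_succ]
  have e2 : ∀ (z : V) (x : Fin (k + 1) → V), (Fin.cons z x : Fin (k + 2) → V) 1 = x 0 := by
    intro z x
    rw [← Fin.succ_zero_eq_one, Fin.cons_succ]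
  -- finishing a lower bound
  have fin_lo : ∀ (a b : V) (s e : ℝ), w a b * (1 - B / n) ≤ s → 0 ≤ s - e →
      (a ≠ b → e ≤ (k + 1) * (2 * K * A) / n) →
      w a b * (1 - (B + 4 * (k + 1) * K * A) / n) ≤ s - e := by
    intro a b s e h1 h2 h3
    by_cases hw : w a b = 0
    · rw [hw, zero_mul]; exact h2
    · have hab : a ≠ b := by
        rintro rfl
        exact hw (wd a)
      have h4 := wh a b hw
      have h5 := h3 hab
      have h6 : w a b * (1 - (B + 4 * (k + 1) * K * A) / n) = w a b * (1 - B / n)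
          - w a b * (2 * ((k + 1) * (2 * K * A) / n)) := by
        field_simp; ring
      have h7 : 0 ≤ (k + 1) * (2 * K * A) / n := by positivity
      have h8 : (k + 1) * (2 * K * A) / n ≤ w a b * (2 * ((k + 1) * (2 * K * A) / n)) := by
        nlinarith
      rw [h6]; linarith
  have cover_nn : ∀ (P : (Fin (k + 2) → V) → Prop) [∀ y, Decidable (P y)],
      0 ≤ ∑ y, (if P y then ν y else 0) := by
    intro P _
    refine Finset.sum_nonneg fun y _ => ?_
    split_ifs
    · exact ν_nn y
    · exact le_rfl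
  -- upper and lower bounds for the three kinds of positions
  have pos_in : ∀ (i : Fin k) (a b : V), ∑ y : Fin (k + 2) → V,
      (if y i.succ.castSucc = a ∧ y i.succ.succ = b then ν y else 0) ≤ w a b ∧
      w a b * (1 - (B + 4 * (k + 1) * K * A) / n) ≤ ∑ y : Fin (k + 2) → V,
      (if y i.succ.castSucc = a ∧ y i.succ.succ = b then ν y else 0) := by
    intro i a b
    have h1 := tr (fun z x => x i.castSucc = a ∧ x i.succ = b)
      (fun y => y i.succ.castSucc = a ∧ y i.succ.succ = b) (fun z x => by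
        rw [← Fin.succ_castSucc, Fin.cons_succ, Fin.cons_succ])
    have h0 := cover_nn (fun y => y i.succ.castSucc = a ∧ y i.succ.succ = b)
    have h2 := errnn (fun z x => x i.castSucc = a ∧ x i.succ = b)
    have h3 : ∑ x : Fin (k + 1) → V, (if x i.castSucc = a ∧ x i.succ = b then (1 : ℝ) else 0)
        ≤ n ^ (k - 1) :=
      le_of_eq (mc_cnt2 (i := i.castSucc) (j := i.succ) (ne_of_lt Fin.castSucc_lt_succ) a b)
    have h4 := err (fun z x => x i.castSucc = a ∧ x i.succ = b) (fun j => h3)
    rw [U1] at h1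
    constructor
    · rw [h1]; linarith [hμ.up i a b]
    · rw [h1] at h0 ⊢
      exact fin_lo a b _ _ (hμ.lo i a b) h0 (fun _ => h4)
  have pos_0 : ∀ (a b : V), ∑ y : Fin (k + 2) → V,
      (if y 0 = a ∧ y 1 = b then ν y else 0) ≤ w a b ∧
      w a b * (1 - (B + 4 * (k + 1) * K * A) / n) ≤ ∑ y : Fin (k + 2) → V,
      (if y 0 = a ∧ y 1 = b then ν y else 0) := by
    intro a b
    have h1 := tr (fun z x => z = a ∧ x 0 = b)
      (fun y => y 0 = a ∧ y 1 = b) (fun z x => by rw [Fin.cons_zero, e2])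
    have h0 := cover_nn (fun y => y 0 = a ∧ y 1 = b)
    have h2 := errnn (fun z x => z = a ∧ x 0 = b)
    have h5 : ∑ c, o c a b = w a b := by
      rw [← os a b]
      exact Finset.sum_congr rfl fun c _ => by rw [o1, o2]
    rw [U2] at h1
    have hup := avg_up (fun c => ∑ x, (if x (Fin.last k) = c ∧ x 0 = b then μ x else 0))
      (fun c => w c b) (fun c => o c a b) (fun c => hμ.upc c b) (fun c => o0 _ _ _)
      (fun c => w0 _ _)
    have hlo := avg_lo (fun c => ∑ x, (if x (Fin.last k) = c ∧ x 0 = b then μ x else 0))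
      (fun c => w c b) (fun c => o c a b) (1 - B / n) (fun c => hμ.loc c b) (fun c => o0 _ _ _)
      (fun c => ole2 _ _ _)
    beta_reduce at hup hlo
    rw [h5] at hup hlo
    constructor
    · rw [h1]; linarith
    · rw [h1] at h0 ⊢
      refine fin_lo a b _ _ hlo h0 (fun hab => ?_)
      refine err (fun z x => z = a ∧ x 0 = b) (fun j => ?_)
      by_cases hj : j = 0
      · subst hj
        have : ∀ x : Fin (k + 1) → V, (if x 0 = a ∧ x 0 = b then (1 : ℝ) else 0) = 0 := by
          intro x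
          rw [if_neg]
          rintro ⟨g1, g2⟩
          exact hab (g1.symm.trans g2)
        rw [Finset.sum_congr rfl fun x _ => this x]
        simp only [Finset.sum_const_zero]
        positivity
      · exact le_of_eq (mc_cnt2 hj a b)
  have pos_c : ∀ (a b : V), ∑ y : Fin (k + 2) → V,
      (if y (Fin.last (k + 1)) = a ∧ y 0 = b then ν y else 0) ≤ w a b ∧
      w a b * (1 - (B + 4 * (k + 1) * K * A) / n) ≤ ∑ y : Fin (k + 2) → V,
      (if y (Fin.last (k + 1)) = a ∧ y 0 = b then ν y else 0) := by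
    intro a b
    have h1 := tr (fun z x => x (Fin.last k) = a ∧ z = b)
      (fun y => y (Fin.last (k + 1)) = a ∧ y 0 = b) (fun z x => by rw [Fin.cons_zero, e1])
    have h0 := cover_nn (fun y => y (Fin.last (k + 1)) = a ∧ y 0 = b)
    have h2 := errnn (fun z x => x (Fin.last k) = a ∧ z = b)
    rw [U3] at h1
    have hup := avg_up (fun c => ∑ x, (if x (Fin.last k) = a ∧ x 0 = c then μ x else 0))
      (fun c => w a c) (fun c => o a b c) (fun c => hμ.upc a c) (fun c => o0 _ _ _)
      (fun c => w0 _ _)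
    have hlo := avg_lo (fun c => ∑ x, (if x (Fin.last k) = a ∧ x 0 = c then μ x else 0))
      (fun c => w a c) (fun c => o a b c) (1 - B / n) (fun c => hμ.loc a c) (fun c => o0 _ _ _)
      (fun c => ole2 _ _ _)
    beta_reduce at hup hlo
    rw [os a b] at hup hlo
    constructor
    · rw [h1]; linarith
    · rw [h1] at h0 ⊢
      refine fin_lo a b _ _ hlo h0 (fun hab => ?_)
      refine err (fun z x => x (Fin.last k) = a ∧ z = b) (fun j => ?_)
      by_cases hj : Fin.last k = j
      · subst hj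
        have : ∀ x : Fin (k + 1) → V,
            (if x (Fin.last k) = a ∧ x (Fin.last k) = b then (1 : ℝ) else 0) = 0 := by
          intro x
          rw [if_neg]
          rintro ⟨g1, g2⟩
          exact hab (g1.symm.trans g2)
        rw [Finset.sum_congr rfl fun x _ => this x]
        simp only [Finset.sum_const_zero]
        positivity
      · exact le_of_eq (mc_cnt2 hj a b)
  refine ⟨ν, ν_nn, ?_, ?_, ?_, ?_, ?_, fun a b => (pos_c a b).1, fun a b => (pos_c a b).2⟩
  · intro y hy
    have h1 : y = Fin.cons (y 0) (Fin.tail y) := (Fin.cons_self_tail y).symm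
    rw [h1]
    rw [Fin.cons_injective_iff]
    by_cases h2 : y 0 ∈ Set.range (Fin.tail y : Fin (k + 1) → V)
    · exact absurd (by simp only [hν]; rw [if_pos h2]) hy
    · refine ⟨h2, hμ.inj _ ?_⟩
      intro h3
      apply hy
      simp only [hν]
      rw [if_neg h2]
      simp only [hν0, h3, zero_mul]
  · intro y hy
    have h2 : y 0 ∉ Set.range (Fin.tail y : Fin (k + 1) → V) := by
      intro h2; exact hy (by simp only [hν]; rw [if_pos h2])
    have h4 : ν0 (y 0) (Fin.tail y) ≠ 0 := by
      intro h4; exact hy (by simp only [hν]; rw [if_neg h2]; exact h4)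
    have h5 : μ (Fin.tail y) ≠ 0 := by
      intro h5; apply h4; simp only [hν0, h5, zero_mul]
    have h6 : o (Fin.tail y (Fin.last k)) (y 0) (Fin.tail y 0) ≠ 0 := by
      intro h6; apply h4; simp only [hν0, h6, zero_div, mul_zero]
    have h7 := lt_of_le_of_ne (o0 _ _ _) (Ne.symm h6)
    obtain ⟨g1, g2⟩ := hμ.ed _ h5
    refine ⟨?_, ?_⟩
    · intro i
      refine Fin.cases ?_ (fun i => ?_) i
      · have := lt_of_lt_of_le h7 (ole3 _ _ _)
        exact this
      · have := g1 i
        exact this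
    · have := lt_of_lt_of_le h7 (ole _ _ _)
      exact this
  · intro y
    simp only [hν]
    have : k + 1 - 1 = k := by omega
    rw [this]
    split_ifs
    · positivity
    · exact ν0K _ _
  · intro i a b
    refine Fin.cases ?_ (fun i => ?_) i
    · exact (pos_0 a b).1
    · exact (pos_in i a b).1
  · intro i a b
    refine Fin.cases ?_ (fun i => ?_) i
    · exact (pos_0 a b).2
    · exact (pos_in i a b).2

/-- **closed walk measures of every length** -/
theorem mc_main (K : ℝ) (hK : 0 ≤ K) (k : ℕ) (hk : 1 ≤ k) :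
    ∃ A B : ℝ, 0 ≤ A ∧ 0 ≤ B ∧ ∀ (V : Type) [Fintype V] [Nonempty V] (w : V → V → ℝ)
      (o : V → V → V → ℝ), (∀ a b, 0 ≤ w a b) → (∀ a b, w a b ≤ 1) → (∀ a b, w a b = w b a) →
      (∀ a b, w a b ≠ 0 → 1 / 2 ≤ w a b) → (∀ a, w a a = 0) → (∀ a b c, 0 ≤ o a b c) →
      (∀ a b c, o a b c = o b a c) → (∀ a b c, o a b c = o a c b) →
      (∀ a b c, o a b c ≤ K / Fintype.card V) → (∀ a b, ∑ c, o a b c = w a b) →
      ∃ μ : (Fin (k + 1) → V) → ℝ, CM k w A B μ := by
  induction k, hk using Nat.le_induction with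
  | base =>
    refine ⟨1, 0, zero_le_one, le_rfl, ?_⟩
    intro V _ _ w o w0 w1 ws wh wd o0 o1 o2 oK os
    exact ⟨_, mc_base w0 w1 ws wd⟩
  | succ k hk ih =>
    obtain ⟨A, B, hA, hB, h⟩ := ih
    refine ⟨2 * K * A, B + 4 * (k + 1) * K * A, by positivity, by positivity, ?_⟩
    intro V _ _ w o w0 w1 ws wh wd o0 o1 o2 oK os
    obtain ⟨μ, hμ⟩ := h V w o w0 w1 ws wh wd o0 o1 o2 oK os
    exact mc_step w0 wh wd o0 o1 o2 hK oK os hk hA hμ

end Pool.Agent.OBW
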