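import Pool.Agent.OBW.MixPiece

/-!
OBW, part MIX: existence of the piece measures of one colour.
-/

set_option autoImplicit false

namespace Pool.Agent.OBW

open Finset
open scoped Classical

lemma pp_num1 {x A : ℝ} (hx : 1 ≤ x) (hA : 0 ≤ A) : 11 * (2 * x) ≤ 200 * x ^ 2 * (A + 1) := by
  nlinarith [mul_nonneg (sq_nonneg x) hA]

lemma pp_num2 {x A : ℝ} (hx : 1 ≤ x) (hA : 0 ≤ A) : 11 * x ≤ 200 * x ^ 2 * (A + 1) := by
  nlinarith [mul_nonneg (sq_nonneg x) hA]

lemma pp_num3 {x A : ℝ} (hA : 0 ≤ A) : 11 * (x ^ 2 * A) ≤ 200 * x ^ 2 * (A + 1) := by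
  nlinarith [mul_nonneg (sq_nonneg x) hA, sq_nonneg x]

lemma pp_num4 {x A : ℝ} (hA : 0 ≤ A) : 176 * x ^ 2 * A ≤ 200 * x ^ 2 * (A + 1) := by
  nlinarith [mul_nonneg (sq_nonneg x) hA, sq_nonneg x]

lemma pp_num5 {m n A : ℝ} (hn : m / 2 ≤ n) (hn0 : 0 < n) (hm : 0 < m) (hA : 0 ≤ A) :
    8 * A / n ≤ 16 * A / m := by
  rw [div_le_div_iff₀ hn0 hm]
  nlinarith

lemma pp_num6 {m n y : ℝ} (hn : m / 2 ≤ n) (hm : 0 < m) (h2 : n * (3 / 4 * n) ≤ y) :
    3 / 16 * m ^ 2 ≤ y := by
  nlinarith

lemma pp_num7 {m b T Z : ℝ} (hT : 3 / 16 * m ^ 2 ≤ T) (hb : 1 / 2 ≤ b) (hZ : T * b ≤ Z) :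
    3 / 32 * m ^ 2 ≤ Z := by
  nlinarith [sq_nonneg m]

theorem pp_exists {ε : ℝ} (hε : 0 < ε) (k : ℕ) (hk : 2 ≤ k) :
    ∃ B K : ℝ, 0 ≤ B ∧ 0 ≤ K ∧ ∀ (V C : Type) [Fintype V] [Fintype C] [DecidableEq V]
      [DecidableEq C] (S : Finset (Item V C)) (c : C) (w : V → V → ℝ) (la m : ℝ),
      0 < m → 2 * B ≤ m → (∀ a b, 0 ≤ w a b) → (∀ a b, w a b = w b a) →
      (∀ a b, w a b ≠ 0 → (Sum.inl s(a, b) : Item V C) ∈ S ∧ a ≠ b ∧ a ∈ vt S c ∧ b ∈ vt S c) →
      0 < la → (∀ a b, la * w a b ≤ 1) → (∀ a b, w a b ≠ 0 → 1 / 2 ≤ la * w a b) →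
      (∀ v ∈ vt S c, (3 / 4 + ε) * ((vt S c).card : ℝ) ≤ la * ∑ b, w v b) →
      m / 2 ≤ ((vt S c).card : ℝ) → ((vt S c).card : ℝ) ≤ m →
      ∃ P : Finset (Item V C) → ℝ, PP S c (k + 1) w (∑ a, ∑ b, w a b) m B K P := by
  obtain ⟨A0, B0, hA0, hB0, hmc⟩ := mc_main (2 * Pool.WFN.sz ε) (by positivity) k (by omega)
  refine ⟨2 * B0, 200 * (k + 1) ^ 2 * (A0 + 1), by positivity, by positivity, ?_⟩
  intro V C _ _ _ _ S c w la m hm hmB w0 ws wS hla w1 wh row hA1 hA2
  set A : Finset V := vt S c with hA
  set n : ℝ := (A.card : ℝ) with hn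
  have hn0 : 0 < n := by linarith
  have hcard : (Fintype.card {v // v ∈ A} : ℝ) = n := by rw [Fintype.card_coe]
  clear_value n
  have : Nonempty {v // v ∈ A} := by
    rw [← Fintype.card_pos_iff]
    have : (0 : ℝ) < Fintype.card {v // v ∈ A} := by rw [hcard]; exact hn0
    exact_mod_cast this
  have w0' : ∀ a b, 0 ≤ la * w a b := fun a b => mul_nonneg hla.le (w0 a b)
  have wz : ∀ a b, (¬ (a ∈ A ∧ b ∈ A)) → w a b = 0 := by
    intro a b h
    by_contra hc
    exact h (wS a b hc).2.2
  have wd : ∀ a, w a a = 0 := by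
    intro a
    by_contra hc
    exact (wS a a hc).2.1 rfl
  have sumA : ∀ f : V → ℝ, (∀ v, v ∉ A → f v = 0) → ∑ v : {v // v ∈ A}, f v = ∑ v, f v := by
    intro f hf
    rw [Finset.sum_coe_sort A f]
    refine Finset.sum_subset (Finset.subset_univ A) fun v _ hv => hf v hv
  have rowA : ∀ a : {v // v ∈ A}, ∑ b : {v // v ∈ A}, la * w a b = la * ∑ b, w a b := by
    intro a
    rw [sumA (fun b => la * w a b), Finset.mul_sum]
    intro b hb
    rw [wz a b fun h => hb h.2, mul_zero]
  obtain ⟨o, o0, o1, o2, o3, o4⟩ := Pool.WFN.spread (V := {v // v ∈ A})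
    (p := fun a b => la * w a b) (fun a b => w0' a b) (fun a b => w1 a b)
    (fun a b => by simp only [ws a b]) (fun a => by simp only [wd, mul_zero]) hε
    (fun a => by
      rw [hcard, rowA a]
      exact row a a.2)
  obtain ⟨μ, hμ⟩ := hmc {v // v ∈ A} (fun a b => la * w a b) o (fun a b => w0' a b)
    (fun a b => w1 a b) (fun a b => by simp only [ws a b])
    (fun a b h => wh a b fun h' => h (by rw [h', mul_zero]))
    (fun a => by simp only [wd, mul_zero]) o0 o1 o2 o3 o4
  -- constants
  have hBn : 1 - 2 * B0 / m ≤ 1 - B0 / n := by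
    have : B0 / n ≤ 2 * B0 / m := by
      rw [div_le_div_iff₀ hn0 hm]
      nlinarith
    linarith
  have hBm : (1 : ℝ) / 2 ≤ 1 - 2 * B0 / m := by
    have : 2 * B0 / m ≤ 1 / 2 := by
      rw [div_le_iff₀ hm]; linarith
    linarith
  -- positions
  have cvu : ∀ (i : Fin (k + 1)) (a b : {v // v ∈ A}),
      ∑ x, (if x i = a ∧ x (i + 1) = b then μ x else 0) ≤ la * w a b := by
    intro i a b
    refine Fin.lastCases ?_ (fun j => ?_) i
    · rw [Fin.last_add_one]; convert hμ.upc a b
    · rw [Fin.coeSucc_eq_succ]; convert hμ.up j a b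
  have cvl : ∀ (i : Fin (k + 1)) (a b : {v // v ∈ A}),
      la * w a b * (1 - 2 * B0 / m) ≤ ∑ x, (if x i = a ∧ x (i + 1) = b then μ x else 0) := by
    intro i a b
    refine (mul_le_mul_of_nonneg_left hBn (w0' a b)).trans ?_
    rw [← hcard]
    refine Fin.lastCases ?_ (fun j => ?_) i
    · rw [Fin.last_add_one]
      refine (hμ.loc a b).trans (le_of_eq (Finset.sum_congr rfl fun x _ => ?_))
      congr
    · rw [Fin.coeSucc_eq_succ]
      refine (hμ.lo j a b).trans (le_of_eq (Finset.sum_congr rfl fun x _ => ?_))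
      congr
  set cov : Fin (k + 1) → V → V → ℝ := fun i a b =>
    ∑ x : Fin (k + 1) → {v // v ∈ A}, (if (x i : V) = a ∧ (x (i + 1) : V) = b then μ x else 0) with hcov
  have covz : ∀ i a b, ¬ (a ∈ A ∧ b ∈ A) → cov i a b = 0 := by
    intro i a b h
    simp only [hcov]
    refine Finset.sum_eq_zero fun x _ => ?_
    rw [if_neg]
    rintro ⟨g1, g2⟩
    exact h ⟨g1 ▸ (x i).2, g2 ▸ (x (i + 1)).2⟩
  have cov_eq : ∀ i (a b : {v // v ∈ A}), cov i a b
      = ∑ x, (if x i = a ∧ x (i + 1) = b then μ x else 0) := by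
    intro i a b
    simp only [hcov]
    refine Finset.sum_congr rfl fun x _ => ?_
    simp only [Subtype.ext_iff]
  have cu : ∀ i a b, cov i a b ≤ la * w a b := by
    intro i a b
    by_cases h : a ∈ A ∧ b ∈ A
    · have := cvu i ⟨a, h.1⟩ ⟨b, h.2⟩
      rw [← cov_eq] at this
      exact this
    · rw [covz i a b h]; exact w0' a b
  have cl' : ∀ i a b, la * w a b * (1 - 2 * B0 / m) ≤ cov i a b := by
    intro i a b
    by_cases h : a ∈ A ∧ b ∈ A
    · have := cvl i ⟨a, h.1⟩ ⟨b, h.2⟩
      rw [← cov_eq] at this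
      exact this
    · rw [covz i a b h, wz a b h]; simp
  have cnn : ∀ i a b, 0 ≤ cov i a b := by
    intro i a b
    simp only [hcov]
    refine Finset.sum_nonneg fun x _ => ?_
    split_ifs
    · exact hμ.nn x
    · exact le_rfl
  -- total mass
  set Z : ℝ := ∑ x, μ x with hZ
  set R : ℝ := ∑ a, ∑ b, w a b with hR
  have one_pt : ∀ (i : Fin (k + 1)) (v : V), ∑ x : Fin (k + 1) → {v // v ∈ A},
      (if (x i : V) = v then μ x else 0) = ∑ b, cov i v b := by
    intro i v
    simp only [hcov]
    rw [Finset.sum_comm]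
    refine Finset.sum_congr rfl fun x _ => ?_
    by_cases h : (x i : V) = v
    · simp [h]
    · simp [h]
  have Zeq : Z = ∑ a, ∑ b, cov 0 a b := by
    simp only [← one_pt]
    rw [Finset.sum_comm]
    simp [hZ]
  have hZu : Z ≤ la * R := by
    rw [Zeq, hR, Finset.mul_sum]
    refine Finset.sum_le_sum fun a _ => ?_
    rw [Finset.mul_sum]
    exact Finset.sum_le_sum fun b _ => cu 0 a b
  have hZl : la * R * (1 - 2 * B0 / m) ≤ Z := by
    rw [Zeq, hR, Finset.mul_sum, Finset.sum_mul]
    refine Finset.sum_le_sum fun a _ => ?_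
    rw [Finset.mul_sum, Finset.sum_mul]
    exact Finset.sum_le_sum fun b _ => cl' 0 a b
  have hT : 3 / 16 * m ^ 2 ≤ la * R := by
    have h1 : la * R = ∑ a : {v // v ∈ A}, la * ∑ b, w a b := by
      rw [sumA (fun a => la * ∑ b, w a b), ← Finset.mul_sum]
      intro a ha
      rw [Finset.sum_eq_zero fun b _ => wz a b fun h => ha h.1, mul_zero]
    rw [h1]
    have h2 : ∑ _a : {v // v ∈ A}, (3 / 4 * n) ≤ ∑ a : {v // v ∈ A}, la * ∑ b, w a b := by
      refine Finset.sum_le_sum fun a _ => ?_
      refine le_trans ?_ (row a a.2)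
      exact mul_le_mul_of_nonneg_right (by linarith only [hε]) hn0.le
    rw [Finset.sum_const, Finset.card_univ, nsmul_eq_mul, hcard] at h2
    exact pp_num6 hA1 hm h2
  have hT0 : 0 < la * R := lt_of_lt_of_le (by positivity) hT
  have hR0 : 0 < R := (mul_pos_iff_of_pos_left hla).1 hT0
  have hZm : 3 / 32 * m ^ 2 ≤ Z := pp_num7 hT hBm hZl
  have hZ0 : 0 < Z := lt_of_lt_of_le (by positivity) hZm
  have hZR : R * (1 - 2 * B0 / m) * la ≤ Z := by
    refine le_trans (le_of_eq ?_) hZl; ring
  -- the measure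
  set cy : (Fin (k + 1) → {v // v ∈ A}) → Finset (Item V C) := fun x => cyc (k + 1) (ez x) c with hcy
  set P : Finset (Item V C) → ℝ := fun p => (∑ x, if cy x = p then μ x else 0) / Z with hP
  have push : ∀ (Q : Finset (Item V C) → Prop) [DecidablePred Q],
      ∑ p with Q p, P p = (∑ x, if Q (cy x) then μ x else 0) / Z := by
    intro Q _
    rw [Finset.sum_filter]
    have h1 : ∀ p, (if Q p then P p else 0) = (∑ x, if cy x = p then (if Q p then μ x else 0) else 0) / Z := by
      intro p
      by_cases h : Q p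
      · simp only [if_pos h, hP]
      · simp only [if_neg h, ite_self, Finset.sum_const_zero, zero_div]
    rw [Finset.sum_congr rfl fun p _ => h1 p, ← Finset.sum_div, Finset.sum_comm]
    congr 1
    refine Finset.sum_congr rfl fun x _ => ?_
    rw [Finset.sum_ite_eq]
    simp
  have bd : ∀ (Q : (Fin (k + 1) → {v // v ∈ A}) → Prop) [DecidablePred Q]
      (F : (Fin (k + 1) → {v // v ∈ A}) → ℝ), (∀ x, 0 ≤ F x) →
      (∀ x, Function.Injective x → Q x → 1 ≤ F x) →
      ∑ x, (if Q x then μ x else 0) ≤ ∑ x, F x * μ x := by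
    intro Q _ F hF0 hF
    refine Finset.sum_le_sum fun x _ => ?_
    by_cases hx : μ x = 0
    · rw [hx]; simp
    · by_cases hq : Q x
      · rw [if_pos hq]
        have := mul_le_mul_of_nonneg_right (hF x (hμ.inj x hx) hq) (hμ.nn x)
        linarith
      · rw [if_neg hq]
        exact mul_nonneg (hF0 x) (hμ.nn x)
  have bl : ∀ (Q : (Fin (k + 1) → {v // v ∈ A}) → Prop) [DecidablePred Q]
      (F : (Fin (k + 1) → {v // v ∈ A}) → ℝ),
      (∀ x, Function.Injective x → ¬ Q x → F x ≤ 0) →
      (∀ x, Function.Injective x → F x ≤ 1) →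
      ∑ x, F x * μ x ≤ ∑ x, (if Q x then μ x else 0) := by
    intro Q _ F hF0 hF
    refine Finset.sum_le_sum fun x _ => ?_
    by_cases hx : μ x = 0
    · rw [hx]; simp
    · by_cases hq : Q x
      · rw [if_pos hq]
        have := mul_le_mul_of_nonneg_right (hF x (hμ.inj x hx)) (hμ.nn x)
        linarith
      · rw [if_neg hq]
        exact mul_nonpos_of_nonpos_of_nonneg (hF0 x (hμ.inj x hx) hq) (hμ.nn x)
  -- counting functions
  set I : (Fin (k + 1) → {v // v ∈ A}) → Fin (k + 1) → V → ℝ := fun x i v =>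
    if (x i : V) = v then 1 else 0 with hI
  have I0 : ∀ x i v, 0 ≤ I x i v := by
    intro x i v; simp only [hI]; split_ifs <;> norm_num
  have I1 : ∀ x i v, I x i v ≤ 1 := by
    intro x i v; simp only [hI]; split_ifs <;> norm_num
  have covI : ∀ i a b, cov i a b = ∑ x, (I x i a * I x (i + 1) b) * μ x := by
    intro i a b
    simp only [hcov, hI]
    refine Finset.sum_congr rfl fun x _ => ?_
    by_cases h1 : (x i : V) = a <;> by_cases h2 : (x (i + 1) : V) = b <;> simp [h1, h2]
  have ptI : ∀ i v, ∑ b, cov i v b = ∑ x, I x i v * μ x := by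
    intro i v
    rw [← one_pt]
    refine Finset.sum_congr rfl fun x _ => ?_
    simp only [hI]
    split_ifs <;> simp
  have hl0 : (0 : ℝ) ≤ ((k + 1 : ℕ) : ℝ) := by positivity
  -- edges, upper bound
  have edge_up : ∀ a b, (∑ x, if (Sum.inl s(a, b) : Item V C) ∈ cy x then μ x else 0)
      ≤ 2 * ((k + 1 : ℕ) : ℝ) * (la * w a b) := by
    intro a b
    refine (bd (fun x => (Sum.inl s(a, b) : Item V C) ∈ cy x)
      (fun x => ∑ i, (I x i a * I x (i + 1) b + I x i b * I x (i + 1) a)) ?_ ?_).trans ?_
    · intro x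
      exact Finset.sum_nonneg fun i _ => add_nonneg (mul_nonneg (I0 _ _ _) (I0 _ _ _))
        (mul_nonneg (I0 _ _ _) (I0 _ _ _))
    · intro x _ hq
      rw [hcy, mem_inl] at hq
      obtain ⟨i, hi⟩ := hq
      refine le_trans ?_ (Finset.single_le_sum (f := fun i => I x i a * I x (i + 1) b
        + I x i b * I x (i + 1) a) (fun i _ => add_nonneg (mul_nonneg (I0 _ _ _) (I0 _ _ _))
        (mul_nonneg (I0 _ _ _) (I0 _ _ _))) (Finset.mem_univ i))
      rcases hi with ⟨g1, g2⟩ | ⟨g1, g2⟩
      · have : I x i a * I x (i + 1) b = 1 := by simp [hI, g1, g2]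
        have h2 := mul_nonneg (I0 x i b) (I0 x (i + 1) a)
        linarith
      · have : I x i b * I x (i + 1) a = 1 := by simp [hI, g1, g2]
        have h2 := mul_nonneg (I0 x i a) (I0 x (i + 1) b)
        linarith
    · simp only [Finset.sum_mul]
      rw [Finset.sum_comm]
      have h1 : ∀ i, ∑ x, (I x i a * I x (i + 1) b + I x i b * I x (i + 1) a) * μ x
          ≤ 2 * (la * w a b) := by
        intro i
        have h2 : ∑ x, (I x i a * I x (i + 1) b + I x i b * I x (i + 1) a) * μ x
            = cov i a b + cov i b a := by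
          rw [covI, covI, ← Finset.sum_add_distrib]
          exact Finset.sum_congr rfl fun x _ => by ring
        rw [h2]
        have h3 := cu i a b; have h4 := cu i b a
        rw [ws b a] at h4
        linarith
      refine (Finset.sum_le_sum fun i _ => h1 i).trans (le_of_eq ?_)
      rw [Finset.sum_const, Finset.card_univ, Fintype.card_fin, nsmul_eq_mul]
      ring
  -- edges, lower bound
  have edge_lo : ∀ a b, a ≠ b → 2 * ((k + 1 : ℕ) : ℝ) * (la * w a b) * (1 - 2 * B0 / m) ≤
      (∑ x, if (Sum.inl s(a, b) : Item V C) ∈ cy x then μ x else 0) := by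
    intro a b hab
    refine le_trans ?_ (bl (fun x => (Sum.inl s(a, b) : Item V C) ∈ cy x)
      (fun x => ∑ i, (I x i a * I x (i + 1) b + I x i b * I x (i + 1) a)) ?_ ?_)
    · simp only [Finset.sum_mul]
      rw [Finset.sum_comm]
      have h1 : ∀ i, 2 * (la * w a b) * (1 - 2 * B0 / m)
          ≤ ∑ x, (I x i a * I x (i + 1) b + I x i b * I x (i + 1) a) * μ x := by
        intro i
        have h2 : ∑ x, (I x i a * I x (i + 1) b + I x i b * I x (i + 1) a) * μ x
            = cov i a b + cov i b a := by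
          rw [covI, covI, ← Finset.sum_add_distrib]
          exact Finset.sum_congr rfl fun x _ => by ring
        rw [h2]
        have h3 := cl' i a b; have h4 := cl' i b a
        rw [ws b a] at h4
        linarith
      refine le_trans (le_of_eq ?_) (Finset.sum_le_sum fun i _ => h1 i)
      rw [Finset.sum_const, Finset.card_univ, Fintype.card_fin, nsmul_eq_mul]
      ring
    · intro x _ hq
      rw [hcy, mem_inl] at hq
      push Not at hq
      refine le_of_eq (Finset.sum_eq_zero fun i _ => ?_)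
      obtain ⟨g1, g2⟩ := hq i
      have e1 : I x i a * I x (i + 1) b = 0 := by
        by_cases h : (x i : V) = a
        · simp [hI, g1 h]
        · simp [hI, h]
      have e2 : I x i b * I x (i + 1) a = 0 := by
        by_cases h : (x i : V) = b
        · simp [hI, g2 h]
        · simp [hI, h]
      rw [e1, e2, add_zero]
    · intro x hinj
      have hin : ∀ i j, (x i : V) = x j → i = j := fun i j h => hinj (Subtype.ext h)
      by_cases hex : ∃ i, ((x i : V) = a ∧ (x (i + 1) : V) = b) ∨ ((x i : V) = b ∧ (x (i + 1) : V) = a)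
      · obtain ⟨i, hi⟩ := hex
        rw [Finset.sum_eq_single i]
        · rcases hi with ⟨g1, g2⟩ | ⟨g1, g2⟩
          · have e1 : I x i b = 0 := by simp [hI, g1, hab]
            rw [e1, zero_mul, add_zero]
            exact mul_le_one₀ (I1 _ _ _) (I0 _ _ _) (I1 _ _ _)
          · have e1 : I x i a = 0 := by simp [hI, g1, Ne.symm hab]
            rw [e1, zero_mul, zero_add]
            exact mul_le_one₀ (I1 _ _ _) (I0 _ _ _) (I1 _ _ _)
        · intro j _ hji
          have key : ∀ a b : V, (x j : V) = a → (x (j + 1) : V) = b →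
              (((x i : V) = a ∧ (x (i + 1) : V) = b) ∨ ((x i : V) = b ∧ (x (i + 1) : V) = a)) →
              False := by
            intro a b g1 g2 g3
            rcases g3 with ⟨g4, g5⟩ | ⟨g4, g5⟩
            · exact hji (hin _ _ (g1.trans g4.symm))
            · have h1 := hin _ _ (g1.trans g5.symm)
              have h2 := hin _ _ (g2.trans g4.symm)
              rw [h1] at h2
              exact two_ne hk i h2
          have e1 : I x j a * I x (j + 1) b = 0 := by
            by_cases h : (x j : V) = a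
            · by_cases h' : (x (j + 1) : V) = b
              · exact (key a b h h' hi).elim
              · simp [hI, h']
            · simp [hI, h]
          have e2 : I x j b * I x (j + 1) a = 0 := by
            by_cases h : (x j : V) = b
            · by_cases h' : (x (j + 1) : V) = a
              · exact (key b a h h' hi.symm).elim
              · simp [hI, h']
            · simp [hI, h]
          rw [e1, e2, add_zero]
        · intro h; exact absurd (Finset.mem_univ _) h
      · push Not at hex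
        refine le_trans (le_of_eq (Finset.sum_eq_zero fun i _ => ?_)) zero_le_one
        obtain ⟨g1, g2⟩ := hex i
        have e1 : I x i a * I x (i + 1) b = 0 := by
          by_cases h : (x i : V) = a
          · simp [hI, g1 h]
          · simp [hI, h]
        have e2 : I x i b * I x (i + 1) a = 0 := by
          by_cases h : (x i : V) = b
          · simp [hI, g2 h]
          · simp [hI, h]
        rw [e1, e2, add_zero]
  -- vertices
  have vert_up : ∀ v, (∑ x, if (Sum.inr (v, c) : Item V C) ∈ cy x then μ x else 0)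
      ≤ ((k + 1 : ℕ) : ℝ) * (la * ∑ b, w v b) := by
    intro v
    refine (bd (fun x => (Sum.inr (v, c) : Item V C) ∈ cy x)
      (fun x => ∑ i, I x i v) (fun x => Finset.sum_nonneg fun i _ => I0 _ _ _) ?_).trans ?_
    · intro x _ hq
      rw [hcy, mem_inr] at hq
      obtain ⟨-, i, hi⟩ := hq
      refine le_trans ?_ (Finset.single_le_sum (f := fun i => I x i v) (fun i _ => I0 _ _ _)
        (Finset.mem_univ i))
      simp [hI, hi]
    · simp only [Finset.sum_mul]
      rw [Finset.sum_comm]
      have h1 : ∀ i, ∑ x, I x i v * μ x ≤ la * ∑ b, w v b := by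
        intro i
        rw [← ptI, Finset.mul_sum]
        exact Finset.sum_le_sum fun b _ => cu i v b
      refine (Finset.sum_le_sum fun i _ => h1 i).trans (le_of_eq ?_)
      rw [Finset.sum_const, Finset.card_univ, Fintype.card_fin, nsmul_eq_mul]
  have vert_lo : ∀ v, ((k + 1 : ℕ) : ℝ) * (la * ∑ b, w v b) * (1 - 2 * B0 / m) ≤
      (∑ x, if (Sum.inr (v, c) : Item V C) ∈ cy x then μ x else 0) := by
    intro v
    refine le_trans ?_ (bl (fun x => (Sum.inr (v, c) : Item V C) ∈ cy x)
      (fun x => ∑ i, I x i v) ?_ ?_)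
    · simp only [Finset.sum_mul]
      rw [Finset.sum_comm]
      have h1 : ∀ i, la * (∑ b, w v b) * (1 - 2 * B0 / m) ≤ ∑ x, I x i v * μ x := by
        intro i
        rw [← ptI, Finset.mul_sum, Finset.sum_mul]
        exact Finset.sum_le_sum fun b _ => cl' i v b
      refine le_trans (le_of_eq ?_) (Finset.sum_le_sum fun i _ => h1 i)
      rw [Finset.sum_const, Finset.card_univ, Fintype.card_fin, nsmul_eq_mul]
      ring
    · intro x _ hq
      rw [hcy, mem_inr] at hq
      push Not at hq
      refine le_of_eq (Finset.sum_eq_zero fun i _ => ?_)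
      have := hq rfl i
      simp [hI, this]
    · intro x hinj
      have hin : ∀ i j, (x i : V) = x j → i = j := fun i j h => hinj (Subtype.ext h)
      by_cases hex : ∃ i, (x i : V) = v
      · obtain ⟨i, hi⟩ := hex
        rw [Finset.sum_eq_single i]
        · exact I1 _ _ _
        · intro j _ hji
          have : (x j : V) ≠ v := fun h => hji (hin _ _ (h.trans hi.symm))
          simp [hI, this]
        · intro h; exact absurd (Finset.mem_univ _) h
      · push Not at hex
        refine le_trans (le_of_eq (Finset.sum_eq_zero fun i _ => ?_)) zero_le_one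
        simp [hI, hex i]
  -- two vertices
  have hXc : ∀ u : V, ∑ z : {v // v ∈ A}, (if (z : V) = u then (1 : ℝ) else 0) ≤ 1 := by
    intro u
    have h1 : ∑ z : {v // v ∈ A}, (if (z : V) = u then (1 : ℝ) else 0)
        = ∑ z ∈ A, (if z = u then (1 : ℝ) else 0) := Finset.sum_coe_sort A
          (fun z => if z = u then (1 : ℝ) else 0)
    rw [h1, Finset.sum_ite_eq']
    split_ifs <;> norm_num
  have nz : (0 : ℝ) < n ^ (k - 1) := by positivity
  have pair_cnt : ∀ (i j : Fin (k + 1)) (u v : V), i ≠ j →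
      ∑ x : Fin (k + 1) → {v // v ∈ A}, I x i u * I x j v ≤ n ^ (k - 1) := by
    intro i j u v hij
    by_cases hu : u ∈ A
    · by_cases hv : v ∈ A
      · have h1 := mc_cnt2 (V := {v // v ∈ A}) hij ⟨u, hu⟩ ⟨v, hv⟩
        rw [hcard] at h1
        rw [← h1]
        refine Finset.sum_le_sum fun x _ => ?_
        by_cases g1 : x i = ⟨u, hu⟩ ∧ x j = ⟨v, hv⟩
        · rw [if_pos g1]
          exact mul_le_one₀ (I1 _ _ _) (I0 _ _ _) (I1 _ _ _)
        · rw [if_neg g1]
          by_cases g2 : (x i : V) = u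
          · by_cases g3 : (x j : V) = v
            · exact absurd ⟨Subtype.ext g2, Subtype.ext g3⟩ g1
            · simp [hI, g3]
          · simp [hI, g2]
      · refine le_trans (le_of_eq (Finset.sum_eq_zero fun x _ => ?_)) nz.le
        have : (x j : V) ≠ v := fun h => hv (h ▸ (x j).2)
        simp [hI, this]
    · refine le_trans (le_of_eq (Finset.sum_eq_zero fun x _ => ?_)) nz.le
      have : (x i : V) ≠ u := fun h => hu (h ▸ (x i).2)
      simp [hI, this]
  have hμle : ∀ x, μ x ≤ A0 / n ^ (k - 1) := by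
    intro x
    have := hμ.le x
    rw [hcard] at this
    exact this
  have two_v : ∀ u v, u ≠ v → (∑ x, if ((Sum.inr (u, c) : Item V C) ∈ cy x ∧
      (Sum.inr (v, c) : Item V C) ∈ cy x) then μ x else 0) ≤ ((k : ℝ) + 1) ^ 2 * A0 := by
    intro u v huv
    refine (bd (fun x => (Sum.inr (u, c) : Item V C) ∈ cy x ∧ (Sum.inr (v, c) : Item V C) ∈ cy x)
      (fun x => ∑ i, ∑ j, (if i = j then 0 else I x i u * I x j v)) ?_ ?_).trans ?_
    · intro x
      refine Finset.sum_nonneg fun i _ => Finset.sum_nonneg fun j _ => ?_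
      split_ifs
      · exact le_rfl
      · exact mul_nonneg (I0 _ _ _) (I0 _ _ _)
    · intro x _ hq
      rw [hcy, mem_inr, mem_inr] at hq
      obtain ⟨⟨-, i, hi⟩, -, j, hj⟩ := hq
      have hij : i ≠ j := by
        rintro rfl; exact huv (hi.symm.trans hj)
      have p1 : ∀ i j, 0 ≤ (if i = j then 0 else I x i u * I x j v) := by
        intro i j
        split_ifs
        · exact le_rfl
        · exact mul_nonneg (I0 _ _ _) (I0 _ _ _)
      refine le_trans ?_ (Finset.single_le_sum (f := fun i => ∑ j, (if i = j then 0 else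
        I x i u * I x j v)) (fun i _ => Finset.sum_nonneg fun j _ => p1 i j) (Finset.mem_univ i))
      refine le_trans ?_ (Finset.single_le_sum (f := fun j => (if i = j then 0 else
        I x i u * I x j v)) (fun j _ => p1 i j) (Finset.mem_univ j))
      simp [hI, hi, hj, hij]
    · simp only [Finset.sum_mul]
      rw [Finset.sum_comm]
      have h1 : ∀ i j : Fin (k + 1), ∑ x, (if i = j then 0 else I x i u * I x j v) * μ x ≤ A0 := by
        intro i j
        by_cases hij : i = j
        · simp [hij, hA0]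
        · simp only [hij, if_false]
          have h2 : ∀ x, I x i u * I x j v * μ x ≤ I x i u * I x j v * (A0 / n ^ (k - 1)) :=
            fun x => mul_le_mul_of_nonneg_left (hμle x) (mul_nonneg (I0 _ _ _) (I0 _ _ _))
          refine (Finset.sum_le_sum fun x _ => h2 x).trans ?_
          rw [← Finset.sum_mul]
          refine (mul_le_mul_of_nonneg_right (pair_cnt i j u v hij) (by positivity)).trans ?_
          rw [mul_div_cancel₀ _ nz.ne']
      have h2 : ∀ i : Fin (k + 1), ∑ x, ∑ j, (if i = j then 0 else I x i u * I x j v) * μ x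
          ≤ ((k : ℝ) + 1) * A0 := by
        intro i
        rw [Finset.sum_comm]
        refine (Finset.sum_le_sum fun j _ => h1 i j).trans (le_of_eq ?_)
        rw [Finset.sum_const, Finset.card_univ, Fintype.card_fin, nsmul_eq_mul]
        push_cast; ring
      refine (Finset.sum_le_sum fun i _ => h2 i).trans (le_of_eq ?_)
      rw [Finset.sum_const, Finset.card_univ, Fintype.card_fin, nsmul_eq_mul]
      push_cast; ring
  -- two edges
  have two_e : ∀ a b a' b', s(a, b) ≠ s(a', b') → (∑ x, if ((Sum.inl s(a, b) : Item V C) ∈ cy x ∧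
      (Sum.inl s(a', b') : Item V C) ∈ cy x) then μ x else 0)
        ≤ ((k : ℝ) + 1) ^ 2 * (8 * A0 / n) := by
    intro a b a' b' hab
    set J : V → V → {v // v ∈ A} → ℝ := fun a b z =>
      (if (z : V) = a then 1 else 0) + (if (z : V) = b then 1 else 0) with hJ
    have J0 : ∀ a b z, 0 ≤ J a b z := by
      intro a b z; simp only [hJ]; split_ifs <;> norm_num
    have Js : ∀ a b, ∑ z, J a b z ≤ 2 := by
      intro a b
      simp only [hJ]
      rw [Finset.sum_add_distrib]
      have := hXc a; have := hXc b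
      linarith
    -- the third position
    have third : ∀ i j : Fin (k + 1), i ≠ j → ∃ r, r ≠ i ∧ r ≠ i + 1 ∧ (r = j ∨ r = j + 1) := by
      intro i j hij
      by_cases h : j = i + 1
      · refine ⟨j + 1, ?_, ?_, Or.inr rfl⟩
        · rw [h]; exact two_ne hk i
        · rw [h]; exact one_ne (by omega) (i + 1)
      · exact ⟨j, Ne.symm hij, h, Or.inl rfl⟩
    choose! r hr using third
    refine (bd (fun x => (Sum.inl s(a, b) : Item V C) ∈ cy x ∧ (Sum.inl s(a', b') : Item V C) ∈ cy x)
      (fun x => ∑ i, ∑ j, (if i = j then 0 else J a b (x i) * J a b (x (i + 1)) *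
        J a' b' (x (r i j)))) ?_ ?_).trans ?_
    · intro x
      refine Finset.sum_nonneg fun i _ => Finset.sum_nonneg fun j _ => ?_
      split_ifs
      · exact le_rfl
      · exact mul_nonneg (mul_nonneg (J0 _ _ _) (J0 _ _ _)) (J0 _ _ _)
    · intro x _ hq
      rw [hcy, mem_inl, mem_inl] at hq
      obtain ⟨⟨i, hi⟩, j, hj⟩ := hq
      have hij : i ≠ j := by
        rintro rfl
        apply hab
        have e1 : s(a, b) = s((x i : V), (x (i + 1) : V)) := by
          rw [Sym2.eq_iff]
          rcases hi with ⟨g1, g2⟩ | ⟨g1, g2⟩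
          · exact Or.inl ⟨g1.symm, g2.symm⟩
          · exact Or.inr ⟨g2.symm, g1.symm⟩
        have e2 : s(a', b') = s((x i : V), (x (i + 1) : V)) := by
          rw [Sym2.eq_iff]
          rcases hj with ⟨g1, g2⟩ | ⟨g1, g2⟩
          · exact Or.inl ⟨g1.symm, g2.symm⟩
          · exact Or.inr ⟨g2.symm, g1.symm⟩
        rw [e1, e2]
      have p1 : ∀ i j, 0 ≤ (if i = j then 0 else J a b (x i) * J a b (x (i + 1)) *
          J a' b' (x (r i j))) := by
        intro i j
        split_ifs
        · exact le_rfl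
        · exact mul_nonneg (mul_nonneg (J0 _ _ _) (J0 _ _ _)) (J0 _ _ _)
      refine le_trans ?_ (Finset.single_le_sum (f := fun i => ∑ j, (if i = j then 0 else
        J a b (x i) * J a b (x (i + 1)) * J a' b' (x (r i j))))
        (fun i _ => Finset.sum_nonneg fun j _ => p1 i j) (Finset.mem_univ i))
      refine le_trans ?_ (Finset.single_le_sum (f := fun j => (if i = j then 0 else
        J a b (x i) * J a b (x (i + 1)) * J a' b' (x (r i j))))
        (fun j _ => p1 i j) (Finset.mem_univ j))
      rw [if_neg hij]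
      have mem1 : ∀ a b (z : {v // v ∈ A}), ((z : V) = a ∨ (z : V) = b) → 1 ≤ J a b z := by
        intro a b z hz
        simp only [hJ]
        rcases hz with hz | hz
        · rw [if_pos hz]; split_ifs <;> norm_num
        · rw [if_pos hz]; split_ifs <;> norm_num
      have m1 : 1 ≤ J a b (x i) := mem1 _ _ _ (by
        rcases hi with ⟨g1, g2⟩ | ⟨g1, g2⟩
        · exact Or.inl g1
        · exact Or.inr g1)
      have m2 : 1 ≤ J a b (x (i + 1)) := mem1 _ _ _ (by
        rcases hi with ⟨g1, g2⟩ | ⟨g1, g2⟩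
        · exact Or.inr g2
        · exact Or.inl g2)
      have m3 : 1 ≤ J a' b' (x (r i j)) := mem1 _ _ _ (by
        obtain ⟨-, -, h3⟩ := hr i j hij
        rcases h3 with h3 | h3 <;> rw [h3]
        · rcases hj with ⟨g1, g2⟩ | ⟨g1, g2⟩
          · exact Or.inl g1
          · exact Or.inr g1
        · rcases hj with ⟨g1, g2⟩ | ⟨g1, g2⟩
          · exact Or.inr g2
          · exact Or.inl g2)
      have m4 : 1 ≤ J a b (x i) * J a b (x (i + 1)) := one_le_mul_of_one_le_of_one_le m1 m2
      exact one_le_mul_of_one_le_of_one_le m4 m3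
    · simp only [Finset.sum_mul]
      rw [Finset.sum_comm]
      have h1 : ∀ i j : Fin (k + 1), ∑ x, (if i = j then 0 else J a b (x i) * J a b (x (i + 1)) *
          J a' b' (x (r i j))) * μ x ≤ 8 * A0 / n := by
        intro i j
        by_cases hij : i = j
        · simp only [hij, if_true, zero_mul, Finset.sum_const_zero]; positivity
        · simp only [hij, if_false]
          have h2 : ∀ x, J a b (x i) * J a b (x (i + 1)) * J a' b' (x (r i j)) * μ x
              ≤ J a b (x i) * J a b (x (i + 1)) * J a' b' (x (r i j)) * (A0 / n ^ (k - 1)) :=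
            fun x => mul_le_mul_of_nonneg_left (hμle x)
              (mul_nonneg (mul_nonneg (J0 _ _ _) (J0 _ _ _)) (J0 _ _ _))
          refine (Finset.sum_le_sum fun x _ => h2 x).trans ?_
          rw [← Finset.sum_mul]
          obtain ⟨r1, r2, -⟩ := hr i j hij
          rw [sum3 (Ne.symm (one_ne (by omega) i)) (Ne.symm r1) (Ne.symm r2) (J a b) (J a b)
            (J a' b'), hcard]
          have s0 : ∀ a b, 0 ≤ ∑ z, J a b z := fun a b => Finset.sum_nonneg fun z _ => J0 a b z
          have h3 : (∑ z, J a b z) * (∑ z, J a b z) * (∑ z, J a' b' z) ≤ 2 * 2 * 2 :=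
            mul_le_mul (mul_le_mul (Js _ _) (Js _ _) (s0 _ _) (by norm_num)) (Js _ _) (s0 _ _)
              (by norm_num)
          have h4 : n ^ (k - 1) = n ^ (k - 2) * n := by
            rw [← pow_succ]; congr 1; omega
          have h5 : (0 : ℝ) < n ^ (k - 2) := by positivity
          have h6 : 0 ≤ n ^ (k - 2) * (A0 / n ^ (k - 1)) := by positivity
          have h7 := mul_le_mul_of_nonneg_right h3 h6
          refine le_trans (le_of_eq (by ring)) (h7.trans (le_of_eq ?_))
          rw [h4]
          field_simp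
          ring
      have h2 : ∀ i : Fin (k + 1), ∑ x, ∑ j, (if i = j then 0 else J a b (x i) * J a b (x (i + 1)) *
          J a' b' (x (r i j))) * μ x ≤ ((k : ℝ) + 1) * (8 * A0 / n) := by
        intro i
        rw [Finset.sum_comm]
        refine (Finset.sum_le_sum fun j _ => h1 i j).trans (le_of_eq ?_)
        rw [Finset.sum_const, Finset.card_univ, Fintype.card_fin, nsmul_eq_mul]
        push_cast; ring
      refine (Finset.sum_le_sum fun i _ => h2 i).trans (le_of_eq ?_)
      rw [Finset.sum_const, Finset.card_univ, Fintype.card_fin, nsmul_eq_mul]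
      push_cast; ring
  have wed : ∀ x, μ x ≠ 0 → ∀ i, w (x i) (x (i + 1)) ≠ 0 := by
    intro x hx i
    obtain ⟨g1, g2⟩ := hμ.ed x hx
    refine Fin.lastCases ?_ (fun j => ?_) i
    · rw [Fin.last_add_one]
      intro h
      simp only [h, mul_zero, lt_irrefl] at g2
    · rw [Fin.coeSucc_eq_succ]
      intro h
      have := g1 j
      simp only [h, mul_zero, lt_irrefl] at this
  have hk1 : (0 : ℝ) < (k : ℝ) + 1 := by positivity
  have hB1 : 0 < 1 - 2 * B0 / m := by linarith
  have den : 0 < R * (1 - 2 * B0 / m) := mul_pos hR0 hB1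
  have up_div : ∀ (X t : ℝ), 0 ≤ t → X ≤ t * la → X / Z ≤ t / (R * (1 - 2 * B0 / m)) := by
    intro X t ht hX
    rw [div_le_div_iff₀ hZ0 den]
    calc X * (R * (1 - 2 * B0 / m)) ≤ t * la * (R * (1 - 2 * B0 / m)) :=
          mul_le_mul_of_nonneg_right hX den.le
      _ = t * (R * (1 - 2 * B0 / m) * la) := by ring
      _ ≤ t * Z := mul_le_mul_of_nonneg_left hZR ht
  have lo_div : ∀ (X t : ℝ), 0 ≤ t → t * la ≤ X → t / R ≤ X / Z := by
    intro X t ht hX
    rw [div_le_div_iff₀ hR0 hZ0]
    calc t * Z ≤ t * (la * R) := mul_le_mul_of_nonneg_left hZu ht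
      _ = t * la * R := by ring
      _ ≤ X * R := mul_le_mul_of_nonneg_right hX hR0.le
  have Wv0 : ∀ v, 0 ≤ ∑ b, w v b := fun v => Finset.sum_nonneg fun b _ => w0 v b
  have Wv : ∀ v, la * ∑ b, w v b ≤ m := by
    intro v
    rw [Finset.mul_sum]
    have h1 : ∀ b, la * w v b ≤ if b ∈ A then 1 else 0 := by
      intro b
      split_ifs with h
      · exact w1 v b
      · rw [wz v b fun h' => h h'.2, mul_zero]
    refine (Finset.sum_le_sum fun b _ => h1 b).trans ?_
    rw [Finset.sum_ite_mem, Finset.univ_inter]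
    rw [hn] at hA2
    simpa using hA2
  have divm : ∀ (X t : ℝ), 0 ≤ t → X ≤ t → X / Z ≤ 11 * t / m ^ 2 := by
    intro X t ht hX
    rw [div_le_div_iff₀ hZ0 (by positivity)]
    have h1 : X * m ^ 2 ≤ t * m ^ 2 := mul_le_mul_of_nonneg_right hX (by positivity)
    have h2 : 11 * t * (3 / 32 * m ^ 2) ≤ 11 * t * Z := mul_le_mul_of_nonneg_left hZm (by positivity)
    have h3 : 0 ≤ t * m ^ 2 := by positivity
    linarith
  refine ⟨P, ⟨?_, ?_, ?_, ?_, ?_, ?_, ?_, ?_, ?_, ?_, ?_⟩⟩
  · intro p
    simp only [hP]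
    refine div_nonneg (Finset.sum_nonneg fun x _ => ?_) hZ0.le
    split_ifs
    · exact hμ.nn x
    · exact le_rfl
  · intro p hp
    have hex : ∃ x, cy x = p ∧ μ x ≠ 0 := by
      by_contra hc
      push Not at hc
      apply hp
      simp only [hP]
      rw [Finset.sum_eq_zero, zero_div]
      intro x _
      split_ifs with h
      · exact hc x h
      · rfl
    obtain ⟨x, hx, hμx⟩ := hex
    constructor
    · rw [← hx]
      intro it hit
      simp only [hcy] at hit
      unfold cyc at hit
      simp only [Finset.mem_union, Finset.mem_image, Finset.mem_range] at hit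
      rcases hit with ⟨i, hi, h1⟩ | ⟨i, hi, h1⟩
      · have h2 := ez_val x ⟨i, hi⟩
        have h3 := ez_val x ((⟨i, hi⟩ : Fin (k + 1)) + 1)
        rw [val_succ] at h3
        simp only at h2 h3
        rw [h2, h3] at h1
        rw [← h1]
        exact (wS _ _ (wed x hμx ⟨i, hi⟩)).1
      · have h2 := ez_val x ⟨i, hi⟩
        simp only at h2
        rw [h2] at h1
        rw [← h1]
        have h3 : (x ⟨i, hi⟩ : V) ∈ vt S c := (x ⟨i, hi⟩).2
        unfold vt at h3
        exact (Finset.mem_filter.1 h3).2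
    · exact ⟨by omega, ez x, ez_inj (hμ.inj x hμx), hx.symm⟩
  · have h1 := push (fun _ => True)
    simp only [Finset.filter_true, if_true] at h1
    rw [h1, div_self hZ0.ne']
  · intro a b
    rw [push]
    exact up_div _ _ (by have := w0 a b; positivity) (by
      refine (edge_up a b).trans (le_of_eq ?_); ring)
  · intro a b
    rw [push]
    by_cases hab : a = b
    · subst hab
      rw [wd a]
      simp only [mul_zero, zero_mul, zero_div]
      refine div_nonneg (Finset.sum_nonneg fun x _ => ?_) hZ0.le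
      split_ifs
      · exact hμ.nn x
      · exact le_rfl
    · exact lo_div _ _ (by have := w0 a b; positivity) (by
        refine le_trans (le_of_eq ?_) (edge_lo a b hab); ring)
  · intro v
    rw [push]
    exact up_div _ _ (by have := Wv0 v; positivity) (by
      refine (vert_up v).trans (le_of_eq ?_); ring)
  · intro v
    rw [push]
    exact lo_div _ _ (by have := Wv0 v; positivity) (by
      refine le_trans (le_of_eq ?_) (vert_lo v); ring)
  · intro a b
    rw [push]
    refine (divm _ (2 * (k + 1)) (by positivity) ?_).trans ?_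
    · refine (edge_up a b).trans ?_
      have h1 := mul_le_mul_of_nonneg_left (w1 a b) (show 0 ≤ 2 * ((k + 1 : ℕ) : ℝ) by positivity)
      push_cast at h1 ⊢
      linarith
    · refine div_le_div_of_nonneg_right ?_ (by positivity)
      exact pp_num1 (by linarith only [show (0 : ℝ) ≤ k by positivity]) hA0
  · intro v
    rw [push]
    refine (divm _ ((k + 1) * m) (by positivity) ?_).trans ?_
    · refine (vert_up v).trans ?_
      have h1 := mul_le_mul_of_nonneg_left (Wv v) (show 0 ≤ ((k + 1 : ℕ) : ℝ) by positivity)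
      push_cast at h1 ⊢
      exact h1
    · rw [div_le_div_iff₀ (by positivity) hm]
      have h2 : 11 * ((k : ℝ) + 1) ≤ 200 * (k + 1) ^ 2 * (A0 + 1) :=
        pp_num2 (by linarith only [show (0 : ℝ) ≤ k by positivity]) hA0
      have h3 := mul_le_mul_of_nonneg_right h2 (show 0 ≤ m ^ 2 by positivity)
      linarith
  · intro u v huv
    rw [push]
    refine (divm _ _ (by positivity) (two_v u v huv)).trans ?_
    exact div_le_div_of_nonneg_right (pp_num3 hA0) (by positivity)
  · intro a b a' b' hab
    rw [push]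
    refine (divm _ _ (by positivity) (two_e a b a' b' hab)).trans ?_
    have h1 : 8 * A0 / n ≤ 16 * A0 / m := pp_num5 hA1 hn0 hm hA0
    have h2 : 11 * (((k : ℝ) + 1) ^ 2 * (8 * A0 / n)) ≤ 11 * (((k : ℝ) + 1) ^ 2 * (16 * A0 / m)) :=
      mul_le_mul_of_nonneg_left (mul_le_mul_of_nonneg_left h1 (by positivity)) (by norm_num)
    refine (div_le_div_of_nonneg_right h2 (by positivity)).trans ?_
    rw [div_le_div_iff₀ (by positivity) (by positivity)]
    have h3 : 11 * (((k : ℝ) + 1) ^ 2 * (16 * A0 / m)) * m ^ 3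
        = 176 * (k + 1) ^ 2 * A0 * m ^ 2 := by
      field_simp; ring
    rw [h3]
    exact mul_le_mul_of_nonneg_right (pp_num4 hA0) (by positivity)

end Pool.Agent.OBW
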