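import Pool.Agent.OBW.MixCyc
import Pool.Agent.OBW.Defs

/-!
OBW, part MIX: from closed walk measures to measures on pieces.
-/

set_option autoImplicit false

namespace Pool.Agent.OBW

open Finset
open scoped Classical

section
variable {V C : Type} [Fintype V] [Fintype C]

/-- extension of a finite sequence -/
noncomputable def ez {A : Finset V} {k : ℕ} (x : Fin (k + 1) → {v // v ∈ A}) (i : ℕ) : V :=
  if h : i < k + 1 then (x ⟨i, h⟩ : V) else (x 0 : V)

omit [Fintype V] in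
lemma ez_val {A : Finset V} {k : ℕ} (x : Fin (k + 1) → {v // v ∈ A}) (i : Fin (k + 1)) :
    ez x i.val = (x i : V) := by
  unfold ez
  rw [dif_pos i.2]

omit [Fintype V] in
lemma ez_inj {A : Finset V} {k : ℕ} {x : Fin (k + 1) → {v // v ∈ A}}
    (hx : Function.Injective x) : Set.InjOn (ez x) (Set.Iio (k + 1)) := by
  intro i hi j hj hij
  have h1 := ez_val x ⟨i, hi⟩
  have h2 := ez_val x ⟨j, hj⟩
  simp only at h1 h2
  rw [h1, h2] at hij
  have h3 := hx (Subtype.ext hij)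
  exact congrArg Fin.val h3

lemma val_succ {k : ℕ} (i : Fin (k + 1)) : ((i + 1 : Fin (k + 1)) : ℕ) = (i.val + 1) % (k + 1) := by
  simp [Fin.val_add]

variable [DecidableEq V] [DecidableEq C]

omit [Fintype V] [Fintype C] in
lemma mem_inr {A : Finset V} {k : ℕ} (x : Fin (k + 1) → {v // v ∈ A}) (c c' : C) (v : V) :
    (Sum.inr (v, c') : Item V C) ∈ cyc (k + 1) (ez x) c ↔ c' = c ∧ ∃ i, (x i : V) = v := by
  unfold cyc
  simp only [Finset.mem_union, Finset.mem_image, Finset.mem_range, Sum.inr.injEq, Prod.mk.injEq,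
    reduceCtorEq, and_false, exists_false, false_or]
  constructor
  · rintro ⟨i, hi, h1, h2⟩
    refine ⟨h2.symm, ⟨i, hi⟩, ?_⟩
    rw [← h1]; exact (ez_val x ⟨i, hi⟩).symm
  · rintro ⟨h1, i, hi⟩
    exact ⟨i.val, i.2, by rw [ez_val]; exact hi, h1.symm⟩

omit [Fintype V] [Fintype C] in
lemma mem_inl {A : Finset V} {k : ℕ} (x : Fin (k + 1) → {v // v ∈ A}) (c : C) (a b : V) :
    (Sum.inl s(a, b) : Item V C) ∈ cyc (k + 1) (ez x) c ↔
      ∃ i, ((x i : V) = a ∧ (x (i + 1) : V) = b) ∨ ((x i : V) = b ∧ (x (i + 1) : V) = a) := by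
  unfold cyc
  simp only [Finset.mem_union, Finset.mem_image, Finset.mem_range, Sum.inl.injEq,
    reduceCtorEq, and_false, exists_false, or_false]
  constructor
  · rintro ⟨i, hi, h1⟩
    refine ⟨⟨i, hi⟩, ?_⟩
    have h2 := ez_val x ⟨i, hi⟩
    have h3 := ez_val x ((⟨i, hi⟩ : Fin (k + 1)) + 1)
    rw [val_succ] at h3
    simp only at h2 h3
    rw [h2, h3, Sym2.eq_iff] at h1
    exact h1
  · rintro ⟨i, hi⟩
    refine ⟨i.val, i.2, ?_⟩
    have h3 := ez_val x (i + 1)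
    rw [val_succ] at h3
    rw [ez_val, h3, Sym2.eq_iff]
    exact hi

/-- two in `Fin (k+1)` is not zero -/
lemma two_ne {k : ℕ} (hk : 2 ≤ k) (i : Fin (k + 1)) : i + 1 + 1 ≠ i := by
  intro h
  have h1 := congrArg Fin.val h
  rw [val_succ, val_succ] at h1
  have h2 := i.2
  rcases Nat.lt_or_ge (i.val + 1) (k + 1) with h3 | h3
  · rw [Nat.mod_eq_of_lt h3] at h1
    rcases Nat.lt_or_ge (i.val + 1 + 1) (k + 1) with h4 | h4
    · rw [Nat.mod_eq_of_lt h4] at h1; omega
    · have h5 : i.val + 1 + 1 = k + 1 := by omega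
      rw [h5, Nat.mod_self] at h1; omega
  · have h5 : i.val + 1 = k + 1 := by omega
    rw [h5, Nat.mod_self, Nat.mod_eq_of_lt (by omega)] at h1; omega

lemma one_ne {k : ℕ} (hk : 1 ≤ k) (i : Fin (k + 1)) : i + 1 ≠ i := by
  intro h
  have h1 := congrArg Fin.val h
  rw [val_succ] at h1
  have h2 := i.2
  rcases Nat.lt_or_ge (i.val + 1) (k + 1) with h3 | h3
  · rw [Nat.mod_eq_of_lt h3] at h1; omega
  · have h5 : i.val + 1 = k + 1 := by omega
    rw [h5, Nat.mod_self] at h1; omega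

/-- properties of a measure on the pieces of length `l` and colour `c` -/
structure PP (S : Finset (Item V C)) (c : C) (l : ℕ) (w : V → V → ℝ) (R m B K : ℝ)
    (P : Finset (Item V C) → ℝ) : Prop where
  nn : ∀ p, 0 ≤ P p
  su : ∀ p, P p ≠ 0 → p ⊆ S ∧ IsPiece l c p
  one : ∑ p, P p = 1
  eup : ∀ a b, ∑ p with (Sum.inl s(a, b) : Item V C) ∈ p, P p ≤ 2 * l * w a b / (R * (1 - B / m))
  elo : ∀ a b, 2 * l * w a b * (1 - B / m) / R ≤ ∑ p with (Sum.inl s(a, b) : Item V C) ∈ p, P p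
  vup : ∀ v, ∑ p with (Sum.inr (v, c) : Item V C) ∈ p, P p ≤
    l * (∑ b, w v b) / (R * (1 - B / m))
  vlo : ∀ v, l * (∑ b, w v b) * (1 - B / m) / R ≤
    ∑ p with (Sum.inr (v, c) : Item V C) ∈ p, P p
  e1 : ∀ a b, ∑ p with (Sum.inl s(a, b) : Item V C) ∈ p, P p ≤ K / m ^ 2
  v1 : ∀ v, ∑ p with (Sum.inr (v, c) : Item V C) ∈ p, P p ≤ K / m
  vv : ∀ u v, u ≠ v → ∑ p with ((Sum.inr (u, c) : Item V C) ∈ p ∧ (Sum.inr (v, c) : Item V C) ∈ p),
    P p ≤ K / m ^ 2
  ee : ∀ a b a' b', s(a, b) ≠ s(a', b') →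
    ∑ p with ((Sum.inl s(a, b) : Item V C) ∈ p ∧ (Sum.inl s(a', b') : Item V C) ∈ p), P p
      ≤ K / m ^ 3

/-- sums of products over three different positions -/
lemma sum3 {X : Type} [Fintype X] {k : ℕ} {i j r : Fin (k + 1)} (hij : i ≠ j) (hir : i ≠ r)
    (hjr : j ≠ r) (f1 f2 f3 : X → ℝ) :
    ∑ x : Fin (k + 1) → X, f1 (x i) * f2 (x j) * f3 (x r)
      = (∑ z, f1 z) * (∑ z, f2 z) * (∑ z, f3 z) * (Fintype.card X : ℝ) ^ (k - 2) := by
  set F : Fin (k + 1) → X → ℝ := fun u z =>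
    if u = i then f1 z else if u = j then f2 z else if u = r then f3 z else 1 with hF
  have hi : i ∈ (univ : Finset (Fin (k + 1))) := Finset.mem_univ _
  have hj : j ∈ univ.erase i := Finset.mem_erase.2 ⟨Ne.symm hij, Finset.mem_univ _⟩
  have hr : r ∈ (univ.erase i).erase j :=
    Finset.mem_erase.2 ⟨Ne.symm hjr, Finset.mem_erase.2 ⟨Ne.symm hir, Finset.mem_univ _⟩⟩
  have pr : ∀ h : Fin (k + 1) → ℝ, (∀ u, u ≠ i → u ≠ j → u ≠ r → h u = (fun _ => h u) u) →
      ∏ u, h u = h i * (h j * (h r * ∏ u ∈ ((univ.erase i).erase j).erase r, h u)) := by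
    intro h _
    rw [← Finset.mul_prod_erase univ _ hi, ← Finset.mul_prod_erase _ _ hj,
      ← Finset.mul_prod_erase _ _ hr]
  have h1 : ∀ x : Fin (k + 1) → X, f1 (x i) * f2 (x j) * f3 (x r) = ∏ u, F u (x u) := by
    intro x
    rw [pr (fun u => F u (x u)) (fun _ _ _ _ => rfl)]
    have h2 : ∏ u ∈ ((univ.erase i).erase j).erase r, F u (x u) = 1 := by
      refine Finset.prod_eq_one fun u hu => ?_
      simp only [Finset.mem_erase, Finset.mem_univ, and_true] at hu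
      simp only [hF]
      rw [if_neg hu.2.2, if_neg hu.2.1, if_neg hu.1]
    beta_reduce
    rw [h2]
    simp only [hF, if_true, if_neg (Ne.symm hij), if_neg (Ne.symm hir), if_neg (Ne.symm hjr)]
    ring
  rw [Finset.sum_congr rfl fun x _ => h1 x, Pool.WFN.sum_pi F,
    pr (fun u => ∑ v, F u v) (fun _ _ _ _ => rfl)]
  have h2 : ∏ u ∈ ((univ.erase i).erase j).erase r, ∑ v, F u v
      = (Fintype.card X : ℝ) ^ (k - 2) := by
    rw [Finset.prod_congr rfl (g := fun _ => (Fintype.card X : ℝ))]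
    · rw [Finset.prod_const, Finset.card_erase_of_mem hr, Finset.card_erase_of_mem hj,
        Finset.card_erase_of_mem hi, Finset.card_univ, Fintype.card_fin]
      congr 1
    · intro u hu
      simp only [Finset.mem_erase, Finset.mem_univ, and_true] at hu
      simp only [hF, if_neg hu.2.2, if_neg hu.2.1, if_neg hu.1]
      simp
  beta_reduce
  rw [h2]
  have h3 : ∑ v, F i v = ∑ z, f1 z := by simp only [hF, if_true]
  have h4 : ∑ v, F j v = ∑ z, f2 z := by
    simp only [hF, if_neg (Ne.symm hij), if_true]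
  have h5 : ∑ v, F r v = ∑ z, f3 z := by
    simp only [hF, if_neg (Ne.symm hir), if_neg (Ne.symm hjr), if_true]
  rw [h3, h4, h5]; ring

end

end Pool.Agent.OBW
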