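import Pool.Agent.OBW.MixPP
import Pool.Agent.OBW.MixCol

/-!
OBW, part MIX: assembly.
-/

set_option autoImplicit false

namespace Pool.Agent.OBW

open Finset
open scoped Classical

section
variable {V C : Type} [Fintype V] [Fintype C] [DecidableEq V] [DecidableEq C]

omit [Fintype V] [Fintype C] in
lemma piece_colour {l l' : ℕ} {c c' : C} {p : Finset (Item V C)} (h : IsPiece l c p)
    (h' : IsPiece l' c' p) : c = c' := by
  obtain ⟨h3, z, -, hp⟩ := h
  obtain ⟨-, z', -, hp'⟩ := h'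
  have h1 : (Sum.inr (z 0, c) : Item V C) ∈ p := by
    rw [hp]; unfold cyc
    exact Finset.mem_union_right _ (Finset.mem_image.2 ⟨0, Finset.mem_range.2 (by omega), rfl⟩)
  rw [hp'] at h1
  unfold cyc at h1
  simp only [Finset.mem_union, Finset.mem_image, Finset.mem_range, Sum.inr.injEq, Prod.mk.injEq,
    reduceCtorEq, and_false, exists_false, false_or] at h1
  obtain ⟨i, -, -, h2⟩ := h1
  exact h2.symm

omit [Fintype V] [Fintype C] in
lemma piece_inr {l : ℕ} {c c' : C} {v : V} {p : Finset (Item V C)} (h : IsPiece l c p)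
    (h' : (Sum.inr (v, c') : Item V C) ∈ p) : c' = c := by
  obtain ⟨-, z, -, hp⟩ := h
  rw [hp] at h'
  unfold cyc at h'
  simp only [Finset.mem_union, Finset.mem_image, Finset.mem_range, Sum.inr.injEq, Prod.mk.injEq,
    reduceCtorEq, and_false, exists_false, false_or] at h'
  obtain ⟨i, -, -, h2⟩ := h'
  exact h2.symm

/-- the coloured weights of a system, on the full types -/
lemma mix_weights {ε η β : ℝ} {U : Finset V} {D : Finset C} {S : Finset (Item V C)}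
    (hε : 0 < ε) (hη0 : 0 ≤ η) (hη1 : η ≤ 1 / 768) (hηε : 2 * η + β ≤ 2 * ε)
    (hU : 0 < U.card) (ins : Inside U D S)
    (hD1 : (3/8 + ε) * (U.card : ℝ) ≤ D.card) (hD2 : (D.card : ℝ) ≤ U.card)
    (hmV : ∀ v ∈ U, ((D \ cl S v).card : ℝ) ≤ η * U.card)
    (hmC : ∀ c ∈ D, ((U \ vt S c).card : ℝ) ≤ η * U.card)
    (hdeg : ∀ v ∈ U, |((nb S v).card : ℝ) - 2 * ((cl S v).card : ℝ)| ≤ β * U.card)
    {t : ℝ} (ht0 : 0 ≤ t) (ht1 : t ≤ 1) {δ : ℝ} (hδ : 0 < δ) :
    ∃ w : C → V → V → ℝ, (∀ c a b, w c a b = w c b a) ∧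
      (∀ c a b, w c a b ≠ 0 → c ∈ D ∧ (Sum.inl s(a, b) : Item V C) ∈ S ∧ a ≠ b ∧
        a ∈ vt S c ∧ b ∈ vt S c) ∧
      (∀ a b, (Sum.inl s(a, b) : Item V C) ∈ S → ∑ c ∈ D, w c a b = t) ∧
      (∀ c a b, w c a b ≠ 0 → |w c a b - t / D.card| ≤ 7400 * η / D.card) ∧
      ∀ c ∈ D, ∀ v ∈ vt S c,
        |∑ b, w c v b - t * ((nb S v).card : ℝ) / ((cl S v).card : ℝ)| ≤ δ := by
  set m : ℝ := (U.card : ℝ) with hm
  have hm0 : 0 < m := by rw [hm]; exact_mod_cast hU
  have cU : (Fintype.card {v // v ∈ U} : ℝ) = m := by rw [Fintype.card_coe]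
  have cD : (Fintype.card {c // c ∈ D} : ℝ) = D.card := by rw [Fintype.card_coe]
  set g : {v // v ∈ U} → {v // v ∈ U} → ℝ := fun a b =>
    if (Sum.inl s((a : V), (b : V)) : Item V C) ∈ S then 1 else 0 with hg
  set χ : {v // v ∈ U} → {c // c ∈ D} → ℝ := fun a c =>
    if (Sum.inr ((a : V), (c : C)) : Item V C) ∈ S then 1 else 0 with hχ
  have hclD : ∀ v, cl S v ⊆ D := by
    intro v c hc
    unfold cl at hc
    exact (ins.2 _ _ (Finset.mem_filter.1 hc).2).2
  have hnbU : ∀ v, nb S v ⊆ U := by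
    intro v b hb
    unfold nb at hb
    exact (ins.1 _ _ (Finset.mem_filter.1 hb).2).2.2
  have hvtU : ∀ c, vt S c ⊆ U := by
    intro c v hv
    unfold vt at hv
    exact (ins.2 _ _ (Finset.mem_filter.1 hv).2).1
  have sg : ∀ a : {v // v ∈ U}, ∑ b, g a b = ((nb S a).card : ℝ) := by
    intro a
    have h1 : ∑ b : {v // v ∈ U}, g a b
        = ∑ b ∈ U, (if (Sum.inl s((a : V), b) : Item V C) ∈ S then (1 : ℝ) else 0) :=
      Finset.sum_coe_sort U (fun b => if (Sum.inl s((a : V), b) : Item V C) ∈ S then (1 : ℝ) else 0)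
    rw [h1, Finset.sum_boole]
    congr 2
    ext b
    unfold nb
    simp only [Finset.mem_filter, Finset.mem_univ, true_and]
    constructor
    · rintro ⟨-, h⟩; exact h
    · intro h
      exact ⟨(ins.1 _ _ h).2.2, h⟩
  have sχ : ∀ a : {v // v ∈ U}, ∑ c, χ a c = ((cl S a).card : ℝ) := by
    intro a
    have h1 : ∑ c : {c // c ∈ D}, χ a c
        = ∑ c ∈ D, (if (Sum.inr ((a : V), c) : Item V C) ∈ S then (1 : ℝ) else 0) :=
      Finset.sum_coe_sort D (fun c => if (Sum.inr ((a : V), c) : Item V C) ∈ S then (1 : ℝ) else 0)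
    rw [h1, Finset.sum_boole]
    congr 2
    ext c
    unfold cl
    simp only [Finset.mem_filter, Finset.mem_univ, true_and]
    constructor
    · rintro ⟨-, h⟩; exact h
    · intro h
      exact ⟨(ins.2 _ _ h).2, h⟩
  have sχ' : ∀ c : {c // c ∈ D}, ∑ a, χ a c = ((vt S c).card : ℝ) := by
    intro c
    have h1 : ∑ a : {v // v ∈ U}, χ a c
        = ∑ a ∈ U, (if (Sum.inr (a, (c : C)) : Item V C) ∈ S then (1 : ℝ) else 0) :=
      Finset.sum_coe_sort U (fun a => if (Sum.inr (a, (c : C)) : Item V C) ∈ S then (1 : ℝ) else 0)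
    rw [h1, Finset.sum_boole]
    congr 2
    ext a
    unfold vt
    simp only [Finset.mem_filter, Finset.mem_univ, true_and]
    constructor
    · rintro ⟨-, h⟩; exact h
    · intro h
      exact ⟨(ins.2 _ _ h).1, h⟩
  have hcd : CD η g χ := by
    refine ⟨?_, ?_, ?_, ?_, hη0, hη1, ?_, ?_, ?_, ?_, ?_, ?_⟩
    · intro a b
      simp only [hg]
      split_ifs
      · exact Or.inr rfl
      · exact Or.inl rfl
    · intro a b
      simp only [hg, Sym2.eq_swap]
    · intro a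
      simp only [hg]
      rw [if_neg]
      intro h
      exact (ins.1 _ _ h).1 rfl
    · intro a b
      simp only [hχ]
      split_ifs
      · exact Or.inr rfl
      · exact Or.inl rfl
    · rw [cU]; exact hm0
    · intro a
      rw [cU, sg]
      have h1 := (abs_le.1 (hdeg a a.2)).1
      have h2 := hmV a a.2
      have h3 : ((D \ cl S a).card : ℝ) = D.card - (cl S a).card := by
        rw [Finset.card_sdiff_of_subset (hclD a), Nat.cast_sub (Finset.card_le_card (hclD a))]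
      rw [h3] at h2
      nlinarith
    · intro a
      rw [cU, Finset.sum_sub_distrib, sχ]
      have h2 := hmV a a.2
      have h3 : ((D \ cl S a).card : ℝ) = D.card - (cl S a).card := by
        rw [Finset.card_sdiff_of_subset (hclD a), Nat.cast_sub (Finset.card_le_card (hclD a))]
      rw [h3] at h2
      simp only [Finset.sum_const, Finset.card_univ, nsmul_eq_mul, mul_one, cD]
      exact h2
    · intro c
      rw [cU, Finset.sum_sub_distrib, sχ']
      have h2 := hmC c c.2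
      have h3 : ((U \ vt S c).card : ℝ) = U.card - (vt S c).card := by
        rw [Finset.card_sdiff_of_subset (hvtU c), Nat.cast_sub (Finset.card_le_card (hvtU c))]
      rw [h3] at h2
      simp only [Finset.sum_const, Finset.card_univ, nsmul_eq_mul, mul_one, cU]
      exact h2
    · rw [cU, cD]
      nlinarith
    · rw [cU, cD]; exact hD2
  obtain ⟨w', hw1, hw2, hw3⟩ := hcd.main ht0 ht1 hδ
  obtain ⟨W, hW⟩ : ∃ W : C → V → V → ℝ, ∀ c a b, W c a b = if h : c ∈ D ∧ a ∈ U ∧ b ∈ U then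
      w' ⟨c, h.1⟩ ⟨a, h.2.1⟩ ⟨b, h.2.2⟩ else 0 := ⟨_, fun _ _ _ => rfl⟩
  refine ⟨W, ?_, ?_, ?_, ?_, ?_⟩
  · intro c a b
    by_cases h : c ∈ D ∧ a ∈ U ∧ b ∈ U
    · have h' : c ∈ D ∧ b ∈ U ∧ a ∈ U := ⟨h.1, h.2.2, h.2.1⟩
      rw [hW, hW, dif_pos h, dif_pos h']
      exact hw1.sy _ _ _
    · have h' : ¬ (c ∈ D ∧ b ∈ U ∧ a ∈ U) := fun h' => h ⟨h'.1, h'.2.2, h'.2.1⟩
      rw [hW, hW, dif_neg h, dif_neg h']
  · intro c a b hne
    by_cases h : c ∈ D ∧ a ∈ U ∧ b ∈ U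
    · rw [hW, dif_pos h] at hne
      obtain ⟨h1, h2, h3⟩ := hw1.su _ _ _ hne
      have e1 : (Sum.inl s(a, b) : Item V C) ∈ S := by
        by_contra hc
        simp only [hg, if_neg hc] at h1
        norm_num at h1
      have e2 : (Sum.inr (a, c) : Item V C) ∈ S := by
        by_contra hc
        simp only [hχ, if_neg hc] at h2
        norm_num at h2
      have e3 : (Sum.inr (b, c) : Item V C) ∈ S := by
        by_contra hc
        simp only [hχ, if_neg hc] at h3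
        norm_num at h3
      refine ⟨h.1, e1, (ins.1 _ _ e1).1, ?_, ?_⟩
      · unfold vt; simpa using e2
      · unfold vt; simpa using e3
    · rw [hW, dif_neg h] at hne; exact absurd rfl hne
  · intro a b hab
    obtain ⟨h1, h2, h3⟩ := ins.1 _ _ hab
    have h4 := hw1.sm ⟨a, h2⟩ ⟨b, h3⟩
    have h5 : g ⟨a, h2⟩ ⟨b, h3⟩ = 1 := by simp only [hg]; rw [if_pos hab]
    rw [h5, mul_one] at h4
    rw [← h4]
    rw [← Finset.sum_coe_sort D (fun c => W c a b)]
    refine Finset.sum_congr rfl fun c _ => ?_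
    rw [hW, dif_pos ⟨c.2, h2, h3⟩]
  · intro c a b hne
    by_cases h : c ∈ D ∧ a ∈ U ∧ b ∈ U
    · rw [hW, dif_pos h] at hne ⊢
      obtain ⟨h1, h2, h3⟩ := hw1.su _ _ _ hne
      have := hw2 _ _ _ h1 h2 h3
      rw [cD] at this
      exact this
    · rw [hW, dif_neg h] at hne; exact absurd rfl hne
  · intro c hc v hv
    have hvU : v ∈ U := hvtU c hv
    have h1 : χ ⟨v, hvU⟩ ⟨c, hc⟩ = 1 := by
      simp only [hχ]
      rw [if_pos]
      unfold vt at hv
      exact (Finset.mem_filter.1 hv).2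
    have h2 := hw3 ⟨v, hvU⟩ ⟨c, hc⟩ h1
    rw [sg, sχ] at h2
    have h3 : ∑ b, W c v b = ∑ b, w' ⟨c, hc⟩ ⟨v, hvU⟩ b := by
      have h4 : ∑ b : {v // v ∈ U}, w' ⟨c, hc⟩ ⟨v, hvU⟩ b = ∑ b : {v // v ∈ U}, W c v b := by
        refine Finset.sum_congr rfl fun b _ => ?_
        rw [hW, dif_pos ⟨hc, hvU, b.2⟩]
      rw [h4, Finset.sum_coe_sort U (fun b : V => W c v b)]
      symm
      refine Finset.sum_subset (Finset.subset_univ U) fun b _ hb => ?_
      rw [hW, dif_neg fun h => hb h.2.2]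
    rw [h3]
    exact h2

lemma PP.mono {S : Finset (Item V C)} {c : C} {l : ℕ} {w : V → V → ℝ} {R m B K B' K' : ℝ}
    {P : Finset (Item V C) → ℝ} (h : PP S c l w R m B K P) (hm : 0 < m) (hR : 0 < R)
    (hw : ∀ a b, 0 ≤ w a b) (hB : B ≤ B') (hB' : 2 * B' ≤ m) (hK : K ≤ K') :
    PP S c l w R m B' K' P := by
  have h1 : 1 - B' / m ≤ 1 - B / m := by
    have := div_le_div_of_nonneg_right hB hm.le
    linarith
  have h2 : 0 < 1 - B' / m := by
    have : B' / m ≤ 1 / 2 := by rw [div_le_iff₀ hm]; linarith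
    linarith
  have h3 : R * (1 - B' / m) ≤ R * (1 - B / m) := mul_le_mul_of_nonneg_left h1 hR.le
  have h4 : 0 < R * (1 - B' / m) := mul_pos hR h2
  have hs : ∀ v, 0 ≤ ∑ b, w v b := fun v => Finset.sum_nonneg fun b _ => hw v b
  refine ⟨h.nn, h.su, h.one, ?_, ?_, ?_, ?_, ?_, ?_, ?_, ?_⟩
  · intro a b
    exact (h.eup a b).trans (div_le_div_of_nonneg_left (by have := hw a b; positivity) h4 h3)
  · intro a b
    refine le_trans ?_ (h.elo a b)
    exact div_le_div_of_nonneg_right (mul_le_mul_of_nonneg_left h1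
      (by have := hw a b; positivity)) hR.le
  · intro v
    exact (h.vup v).trans (div_le_div_of_nonneg_left (by have := hs v; positivity) h4 h3)
  · intro v
    refine le_trans ?_ (h.vlo v)
    exact div_le_div_of_nonneg_right (mul_le_mul_of_nonneg_left h1
      (by have := hs v; positivity)) hR.le
  · intro a b
    exact (h.e1 a b).trans (div_le_div_of_nonneg_right hK (by positivity))
  · intro v
    exact (h.v1 v).trans (div_le_div_of_nonneg_right hK (by positivity))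
  · intro u v huv
    exact (h.vv u v huv).trans (div_le_div_of_nonneg_right hK (by positivity))
  · intro a b a' b' hab
    exact (h.ee a b a' b' hab).trans (div_le_div_of_nonneg_right hK (by positivity))

end

lemma mn1 {t κ X : ℝ} (ht : t ≤ 1) (h0 : 0 ≤ κ) (h1 : κ ≤ 1) (h : X ≤ (1 - κ) * (t + κ)) :
    X ≤ 1 := by nlinarith

lemma mn2 {t κ X : ℝ} (ht : 97 / 100 ≤ t) (h0 : 0 ≤ κ) (h1 : κ ≤ 1 / 10)
    (h : (1 - κ) * (t - κ) ≤ X) : 1 / 2 ≤ X := by nlinarith

lemma mn3 {ε m d η cv : ℝ} (hε : 0 < ε) (hm : 0 < m) (h1 : (3 / 8 + ε) * m ≤ d)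
    (h2 : η ≤ 1 / 74000) (h3 : d - η * m ≤ cv) : m / 3 ≤ cv := by nlinarith

lemma mn4 {nv cv β m : ℝ} (h : nv - 2 * cv ≤ β * m) (h4 : m / 3 ≤ cv) (hβ : 0 ≤ β) :
    nv ≤ (2 + 3 * β) * cv := by nlinarith

lemma mn5 {nv cv β m : ℝ} (h : -(β * m) ≤ nv - 2 * cv) (h4 : m / 3 ≤ cv) (hβ : 0 ≤ β) :
    (2 - 3 * β) * cv ≤ nv := by nlinarith

lemma mn7 {κ β z : ℝ} (h0 : 0 ≤ κ) (h1 : 0 ≤ β) (h2 : 0 ≤ z) :
    2 * (1 - κ - 7 / 2 * β - 3 / 2 * z) ≤ (1 - κ) * (2 - 7 * β - 3 * z) := by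
  have : 0 ≤ κ * (7 * β + 3 * z) := by positivity
  nlinarith

lemma mn8 {ε X : ℝ} (h0 : 0 < ε) (h1 : ε ≤ 5 / 8) (hX : 2 * (1 - ε / 2) ≤ X) :
    3 / 4 + ε ≤ (3 / 8 + ε) * X := by nlinarith

lemma mn9 {m η A : ℝ} (hm : 0 < m) (h : η ≤ 1 / 74000) (hA : m * (1 - η) ≤ A) : m / 2 ≤ A := by
  nlinarith

lemma mn10 {η β z y α : ℝ} (hη : 0 ≤ η) (hβ : 0 ≤ β) (hz : 0 ≤ z) (hy : 0 ≤ y) (hy1 : y ≤ 1)
    (h : η + (7 / 2 * β + 3 / 2 * z) + y ≤ α) :
    1 - α ≤ (1 - η) * (1 - 7 / 2 * β - 3 / 2 * z) * (1 - y) := by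
  have g1 : 1 - η - (7 / 2 * β + 3 / 2 * z) ≤ (1 - η) * (1 - 7 / 2 * β - 3 / 2 * z) := by
    have : 0 ≤ η * (7 / 2 * β + 3 / 2 * z) := by positivity
    nlinarith
  have g2 : 1 - η - (7 / 2 * β + 3 / 2 * z) - y
      ≤ (1 - η - (7 / 2 * β + 3 / 2 * z)) * (1 - y) := by
    have : 0 ≤ (η + (7 / 2 * β + 3 / 2 * z)) * y := by positivity
    nlinarith
  have g3 := mul_le_mul_of_nonneg_right g1 (show 0 ≤ 1 - y by linarith)
  linarith

/-- preparation of MIX: weights and piece measures -/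
theorem mix_prep (ε α : ℝ) (hε : 0 < ε) (hα : 0 < α) :
    ∃ η₀ β₀ : ℝ, 0 < η₀ ∧ 0 < β₀ ∧ ∀ L : ℕ, ∃ Bm Km : ℝ, 0 ≤ Bm ∧ 0 ≤ Km ∧ ∃ m₀ : ℕ,
    ∀ (V C : Type) [Fintype V] [DecidableEq V] [Fintype C] [DecidableEq C]
      (U : Finset V) (D : Finset C) (S : Finset (Item V C)) (β : ℝ),
      m₀ ≤ U.card → Inside U D S →
      (3/8 + ε) * (U.card : ℝ) ≤ D.card → D.card ≤ U.card →
      (∀ v ∈ U, ((D \ cl S v).card : ℝ) ≤ η₀ * U.card) →
      (∀ c ∈ D, ((U \ vt S c).card : ℝ) ≤ η₀ * U.card) →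
      0 ≤ β → β ≤ β₀ →
      (∀ v ∈ U, |((nb S v).card : ℝ) - 2 * ((cl S v).card : ℝ)| ≤ β * U.card) →
      ∃ (w : C → V → V → ℝ) (R : C → ℝ) (P : C → ℕ → Finset (Item V C) → ℝ),
        (100 ≤ (U.card : ℝ)) ∧ 2 * Bm ≤ (U.card : ℝ) ∧
        (∀ c ∈ D, ∀ l ∈ Icc 3 L, PP S c l (w c) (R c) U.card Bm Km (P c l)) ∧
        (∀ c ∈ D, 0 < R c ∧ R c ≤ 2 * U.card ∧
          (1 - α) * U.card ≤ R c / 2 * (1 - Bm / U.card)) ∧
        (∀ a b, (Sum.inl s(a, b) : Item V C) ∈ S → ∑ c ∈ D, w c a b = 1 - 2 * β - 1 / U.card) ∧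
        (∀ c a b, 0 ≤ w c a b) ∧
        (∀ c ∈ D, ∀ v ∈ vt S c, 2 - 7 * β - 3 / U.card ≤ ∑ b, w c v b ∧ ∑ b, w c v b ≤ 2) := by
  have hpp : ∀ l : ℕ, 3 ≤ l → ∃ B K : ℝ, 0 ≤ B ∧ 0 ≤ K ∧ ∀ (V C : Type) [Fintype V] [Fintype C]
      [DecidableEq V] [DecidableEq C] (S : Finset (Item V C)) (c : C) (w : V → V → ℝ) (la m : ℝ),
      0 < m → 2 * B ≤ m → (∀ a b, 0 ≤ w a b) → (∀ a b, w a b = w b a) →
      (∀ a b, w a b ≠ 0 → (Sum.inl s(a, b) : Item V C) ∈ S ∧ a ≠ b ∧ a ∈ vt S c ∧ b ∈ vt S c) →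
      0 < la → (∀ a b, la * w a b ≤ 1) → (∀ a b, w a b ≠ 0 → 1 / 2 ≤ la * w a b) →
      (∀ v ∈ vt S c, (3 / 4 + ε) * ((vt S c).card : ℝ) ≤ la * ∑ b, w v b) →
      m / 2 ≤ ((vt S c).card : ℝ) → ((vt S c).card : ℝ) ≤ m →
      ∃ P : Finset (Item V C) → ℝ, PP S c l w (∑ a, ∑ b, w a b) m B K P := by
    intro l hl
    obtain ⟨k, rfl⟩ : ∃ k, l = k + 1 := ⟨l - 1, by omega⟩
    exact pp_exists hε k (by omega)
  choose! Bf Kf hBf hKf hex using hpp
  set η₀ : ℝ := min (min (1 / 74000) (ε / 59200)) (α / 8) with hη₀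
  set β₀ : ℝ := min (min (1 / 100) (ε / 28)) (α / 28) with hβ₀
  have e1 : η₀ ≤ 1 / 74000 := (min_le_left _ _).trans (min_le_left _ _)
  have e2 : η₀ ≤ ε / 59200 := (min_le_left _ _).trans (min_le_right _ _)
  have e3 : η₀ ≤ α / 8 := min_le_right _ _
  have e4 : 0 < η₀ := lt_min (lt_min (by norm_num) (by positivity)) (by positivity)
  have f1 : β₀ ≤ 1 / 100 := (min_le_left _ _).trans (min_le_left _ _)
  have f2 : β₀ ≤ ε / 28 := (min_le_left _ _).trans (min_le_right _ _)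
  have f3 : β₀ ≤ α / 28 := min_le_right _ _
  have f4 : 0 < β₀ := lt_min (lt_min (by norm_num) (by positivity)) (by positivity)
  refine ⟨η₀, β₀, e4, f4, ?_⟩
  intro L
  set Bm : ℝ := ∑ l ∈ Icc 3 L, Bf l with hBm
  set Km : ℝ := ∑ l ∈ Icc 3 L, Kf l with hKm
  have hBl : ∀ l ∈ Icc 3 L, Bf l ≤ Bm := fun l hl =>
    Finset.single_le_sum (f := Bf) (fun l hl => hBf l (Finset.mem_Icc.1 hl).1) hl
  have hKl : ∀ l ∈ Icc 3 L, Kf l ≤ Km := fun l hl =>
    Finset.single_le_sum (f := Kf) (fun l hl => hKf l (Finset.mem_Icc.1 hl).1) hl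
  have hBm0 : 0 ≤ Bm := Finset.sum_nonneg fun l hl => hBf l (Finset.mem_Icc.1 hl).1
  have hKm0 : 0 ≤ Km := Finset.sum_nonneg fun l hl => hKf l (Finset.mem_Icc.1 hl).1
  refine ⟨Bm, Km, hBm0, hKm0,
    ⌈100 + 12 / ε + 8 * (2 + Bm) / α + 2 * Bm⌉₊, ?_⟩
  intro V C _ _ _ _ U D S β hmU ins hD1 hD2' hmV hmC hβ0 hβ1 hdeg
  have hD2 : (D.card : ℝ) ≤ U.card := by exact_mod_cast hD2'
  set m : ℝ := (U.card : ℝ) with hm
  set d : ℝ := (D.card : ℝ) with hd
  have hm1 : 100 + 12 / ε + 8 * (2 + Bm) / α + 2 * Bm ≤ m :=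
    (Nat.le_ceil _).trans (by rw [hm]; exact_mod_cast hmU)
  clear_value m d
  have q1 : 0 ≤ 12 / ε := by positivity
  have q2 : 0 ≤ 8 * (2 + Bm) / α := by positivity
  have m100 : 100 ≤ m := by linarith only [hm1, q1, q2, hBm0]
  have hm0 : 0 < m := by linarith only [m100]
  have mε : 12 / ε ≤ m := by linarith only [hm1, q1, q2, hBm0]
  have mα : 8 * (2 + Bm) / α ≤ m := by linarith only [hm1, q1, q2, hBm0]
  have mB : 2 * Bm ≤ m := by linarith only [hm1, q1, q2, hBm0]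
  have i1 : 1 / m ≤ 1 / 100 := one_div_le_one_div_of_le (by norm_num) m100
  have i0 : 0 < 1 / m := by positivity
  have iε : 1 / m ≤ ε / 12 := by
    rw [div_le_iff₀ hε] at mε
    rw [div_le_div_iff₀ hm0 (by norm_num)]
    linarith only [mε]
  have iα : (2 + Bm) / m ≤ α / 8 := by
    rw [div_le_iff₀ hα] at mα
    rw [div_le_div_iff₀ hm0 (by norm_num)]
    linarith only [mα]
  have iB : Bm / m ≤ 1 / 2 := by rw [div_le_iff₀ hm0]; linarith only [mB]
  have iB0 : 0 ≤ Bm / m := by positivity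
  have hUpos : 0 < U.card := by
    have : (0 : ℝ) < U.card := by rw [← hm]; exact hm0
    exact_mod_cast this
  have hd0 : 0 < d := lt_of_lt_of_le
    (mul_pos (show (0 : ℝ) < 3 / 8 + ε by linarith only [hε]) hm0) hD1
  have ε58 : ε ≤ 5 / 8 := by
    have : (3 / 8 + ε) * m ≤ 1 * m := by linarith only [hD1, hD2]
    have := le_of_mul_le_mul_right this hm0
    linarith only [this]
  set t : ℝ := 1 - 2 * β - 1 / m with ht
  have ht0 : 97 / 100 ≤ t := by rw [ht]; linarith only [i1, hβ1, f1]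
  have ht1 : t ≤ 1 := by rw [ht]; linarith only [hβ0, i0]
  obtain ⟨w, ws, wS, wsum, wdev, wrow⟩ := mix_weights (ε := ε) (η := η₀) (β := β) hε e4.le
    (by linarith only [e1]) (by linarith only [e2, hβ1, f2, hε]) hUpos ins
    (by rw [← hm, ← hd]; exact hD1) (by rw [← hm, ← hd]; exact hD2) (by rw [← hm]; exact hmV)
    (by rw [← hm]; exact hmC) (by rw [← hm]; exact hdeg)
    (t := t) (by linarith only [ht0]) ht1
    (δ := 1 / m) i0
  rw [← hd] at wdev
  set κ : ℝ := 7400 * η₀ with hκ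
  have κ0 : 0 < κ := by positivity
  have κ1 : κ ≤ 1 / 10 := by rw [hκ]; linarith only [e1]
  have κ2 : κ ≤ ε / 8 := by rw [hκ]; linarith only [e2]
  have wlu : ∀ c a b, w c a b ≠ 0 → (t - κ) / d ≤ w c a b ∧ w c a b ≤ (t + κ) / d := by
    intro c a b h
    have := abs_le.1 (wdev c a b h)
    have r1 : (t - κ) / d = t / d - κ / d := by ring
    have r2 : (t + κ) / d = t / d + κ / d := by ring
    rw [r1, r2]
    constructor
    · linarith only [this.1]
    · linarith only [this.2]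
  have w0 : ∀ c a b, 0 ≤ w c a b := by
    intro c a b
    by_cases h : w c a b = 0
    · rw [h]
    · refine le_trans ?_ (wlu c a b h).1
      exact div_nonneg (by linarith only [ht0, κ1]) hd0.le
  set la : ℝ := d * (1 - κ) with hla
  have hla0 : 0 < la := mul_pos hd0 (by linarith only [κ1])
  have w1 : ∀ c a b, la * w c a b ≤ 1 := by
    intro c a b
    by_cases h : w c a b = 0
    · rw [h, mul_zero]; norm_num
    · have h1 := mul_le_mul_of_nonneg_left (wlu c a b h).2 hla0.le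
      have h2 : la * ((t + κ) / d) = (1 - κ) * (t + κ) := by
        rw [hla]; field_simp
      rw [h2] at h1
      exact mn1 ht1 κ0.le (by linarith only [κ1]) h1
  have wh : ∀ c a b, w c a b ≠ 0 → 1 / 2 ≤ la * w c a b := by
    intro c a b h
    have h1 := mul_le_mul_of_nonneg_left (wlu c a b h).1 hla0.le
    have h2 : la * ((t - κ) / d) = (1 - κ) * (t - κ) := by
      rw [hla]; field_simp
    rw [h2] at h1
    exact mn2 ht0 κ0.le κ1 h1
  have hclD : ∀ v, cl S v ⊆ D := by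
    intro v c hc
    unfold cl at hc
    exact (ins.2 _ _ (Finset.mem_filter.1 hc).2).2
  have hvtU : ∀ c, vt S c ⊆ U := by
    intro c v hv
    unfold vt at hv
    exact (ins.2 _ _ (Finset.mem_filter.1 hv).2).1
  -- row sums
  have row : ∀ c ∈ D, ∀ v ∈ vt S c, 2 - 7 * β - 3 / m ≤ ∑ b, w c v b ∧ ∑ b, w c v b ≤ 2 := by
    intro c hc v hv
    have hvU := hvtU c hv
    have h1 := abs_le.1 (wrow c hc v hv)
    set nv : ℝ := ((nb S v).card : ℝ) with hnv
    set cv : ℝ := ((cl S v).card : ℝ) with hcv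
    have h2 := abs_le.1 (hdeg v hvU)
    rw [← hnv, ← hcv] at h2
    have h3 : d - η₀ * m ≤ cv := by
      have h4 := hmV v hvU
      have h5 : ((D \ cl S v).card : ℝ) = D.card - (cl S v).card := by
        rw [Finset.card_sdiff_of_subset (hclD v), Nat.cast_sub (Finset.card_le_card (hclD v))]
      rw [h5, ← hd] at h4
      linarith only [h4]
    have h4 : m / 3 ≤ cv := mn3 hε hm0 hD1 e1 h3
    have hcv0 : 0 < cv := by linarith only [h4, hm0]
    have h5 : nv / cv ≤ 2 + 3 * β := by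
      rw [div_le_iff₀ hcv0]
      exact mn4 h2.2 h4 hβ0
    have h6 : 2 - 3 * β ≤ nv / cv := by
      rw [le_div_iff₀ hcv0]
      exact mn5 h2.1 h4 hβ0
    have h7 : t * nv / cv = t * (nv / cv) := by ring
    rw [h7] at h1
    have h8 : t * (nv / cv) ≤ t * (2 + 3 * β) := mul_le_mul_of_nonneg_left h5 (by linarith only [ht0])
    have h9 : t * (2 - 3 * β) ≤ t * (nv / cv) := mul_le_mul_of_nonneg_left h6 (by linarith only [ht0])
    have h10 : t * (2 + 3 * β) = 2 - β - 6 * β ^ 2 - 2 * (1 / m) - 3 * β * (1 / m) := by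
      rw [ht]; ring
    have h11 : t * (2 - 3 * β) = 2 - 7 * β + 6 * β ^ 2 - 2 * (1 / m) + 3 * β * (1 / m) := by
      rw [ht]; ring
    have h12 : 0 ≤ β * (1 / m) := mul_nonneg hβ0 i0.le
    have h13 : 3 / m = 3 * (1 / m) := by ring
    constructor
    · rw [h13]; linarith only [h1.1, sq_nonneg β, h9, h11, h12]
    · linarith only [h1.2, sq_nonneg β, h8, h10, h12, hβ0, i0]
  have rowz : ∀ c v, v ∉ vt S c → ∑ b, w c v b = 0 := by
    intro c v hv
    refine Finset.sum_eq_zero fun b _ => ?_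
    by_contra h
    exact hv (wS c v b h).2.2.2.1
  set R : C → ℝ := fun c => ∑ a, ∑ b, w c a b with hR
  have hRA : ∀ c, R c = ∑ v ∈ vt S c, ∑ b, w c v b := by
    intro c
    simp only [hR]
    symm
    exact Finset.sum_subset (Finset.subset_univ _) fun v _ hv => rowz c v hv
  have hA2 : ∀ c, ((vt S c).card : ℝ) ≤ m := by
    intro c
    rw [hm]; exact_mod_cast Finset.card_le_card (hvtU c)
  have hA1 : ∀ c ∈ D, m * (1 - η₀) ≤ ((vt S c).card : ℝ) := by
    intro c hc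
    have h4 := hmC c hc
    have h5 : ((U \ vt S c).card : ℝ) = U.card - (vt S c).card := by
      rw [Finset.card_sdiff_of_subset (hvtU c), Nat.cast_sub (Finset.card_le_card (hvtU c))]
    rw [h5, ← hm] at h4
    linarith only [h4]
  have b0 : 0 ≤ 2 - 7 * β - 3 / m := by
    have : 3 / m = 3 * (1 / m) := by ring
    rw [this]; linarith only [hβ1, f1, i1]
  have hRu : ∀ c ∈ D, R c ≤ 2 * m := by
    intro c hc
    rw [hRA]
    refine (Finset.sum_le_sum fun v hv => (row c hc v hv).2).trans ?_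
    rw [Finset.sum_const, nsmul_eq_mul]
    linarith only [hA2 c]
  have hRl : ∀ c ∈ D, m * (1 - η₀) * (2 - 7 * β - 3 / m) ≤ R c := by
    intro c hc
    rw [hRA]
    refine le_trans ?_ (Finset.sum_le_sum fun v hv => (row c hc v hv).1)
    rw [Finset.sum_const, nsmul_eq_mul]
    exact mul_le_mul_of_nonneg_right (hA1 c hc) b0
  have hR0 : ∀ c ∈ D, 0 < R c := by
    intro c hc
    refine lt_of_lt_of_le ?_ (hRl c hc)
    refine mul_pos (mul_pos hm0 (by linarith only [e1])) ?_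
    have : 3 / m = 3 * (1 / m) := by ring
    rw [this]; linarith only [hβ1, f1, i1]
  -- the piece measures
  have hPP : ∀ c ∈ D, ∀ l ∈ Icc 3 L, ∃ P, PP S c l (w c) (R c) m Bm Km P := by
    intro c hc l hl
    have hl3 := (Finset.mem_Icc.1 hl).1
    obtain ⟨P, hP⟩ := hex l hl3 V C S c (w c) la m hm0 (by linarith only [hBl l hl, mB]) (w0 c) (ws c)
      (fun a b h => (wS c a b h).2) hla0 (w1 c) (wh c) (by
        intro v hv
        have h1 := (row c hc v hv).1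
        have h2 : la * (2 - 7 * β - 3 / m) ≤ la * ∑ b, w c v b :=
          mul_le_mul_of_nonneg_left h1 hla0.le
        refine le_trans ?_ h2
        have h3 : (3 / 4 + ε) * ((vt S c).card : ℝ) ≤ (3 / 4 + ε) * m :=
          mul_le_mul_of_nonneg_left (hA2 c) (by linarith only [hε])
        refine h3.trans ?_
        have h4 : 3 / m = 3 * (1 / m) := by ring
        have h5 : (3 / 8 + ε) * m * ((1 - κ) * (2 - 7 * β - 3 / m))
            ≤ la * (2 - 7 * β - 3 / m) := by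
          have h55 : la * (2 - 7 * β - 3 / m) = d * ((1 - κ) * (2 - 7 * β - 3 / m)) := by
            rw [hla]; ring
          rw [h55]
          exact mul_le_mul_of_nonneg_right hD1 (mul_nonneg (by linarith only [κ1]) b0)
        refine le_trans ?_ h5
        rw [mul_assoc, mul_comm m, ← mul_assoc]
        refine mul_le_mul_of_nonneg_right ?_ hm0.le
        set z : ℝ := 1 / m with hz
        rw [h4]
        have h6 : 2 * (1 - κ - 7 / 2 * β - 3 / 2 * z) ≤ (1 - κ) * (2 - 7 * β - 3 * z) :=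
          mn7 κ0.le hβ0 i0.le
        have h7 : 1 - ε / 2 ≤ 1 - κ - 7 / 2 * β - 3 / 2 * z := by
          have : β ≤ ε / 28 := hβ1.trans f2
          linarith only [this, κ2, iε, hε]
        have h8 : 2 * (1 - ε / 2) ≤ (1 - κ) * (2 - 7 * β - 3 * z) := by linarith only [h6, h7]
        exact mn8 hε ε58 h8)
      (mn9 hm0 e1 (hA1 c hc)) (hA2 c)
    exact ⟨P, hP.mono hm0 (hR0 c hc) (w0 c) (hBl l hl) mB (hKl l hl)⟩
  choose! P hP using hPP
  refine ⟨w, R, P, m100, mB, hP, ?_, wsum, w0, row⟩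
  intro c hc
  refine ⟨hR0 c hc, hRu c hc, ?_⟩
  have h1 := hRl c hc
  have h4 : 3 / m = 3 * (1 / m) := by ring
  have h5 : (2 + Bm) / m = 2 * (1 / m) + Bm / m := by ring
  rw [h5] at iα
  have h6 : 1 - α ≤ (1 - η₀) * (1 - 7 / 2 * β - 3 / 2 * (1 / m)) * (1 - Bm / m) := by
    have g4 : β ≤ α / 28 := hβ1.trans f3
    exact mn10 e4.le hβ0 i0.le iB0 (by linarith only [iB])
      (by linarith only [g4, e3, iα, i0, hα])
  have h7 := mul_le_mul_of_nonneg_right h6 hm0.le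
  refine h7.trans ?_
  have h8 : (1 - η₀) * (1 - 7 / 2 * β - 3 / 2 * (1 / m)) * (1 - Bm / m) * m
      = m * (1 - η₀) * (2 - 7 * β - 3 / m) / 2 * (1 - Bm / m) := by
    rw [h4]; ring
  rw [h8]
  refine mul_le_mul_of_nonneg_right (div_le_div_of_nonneg_right h1 (by norm_num))
    (by linarith only [iB])

end Pool.Agent.OBW
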