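import Pool.Agent.OBW.Stmts
import Pool.Agent.Nib.Rpow

set_option autoImplicit false

/-! OBW: the nibble statement (proved in Pool.Agent.Nib). -/

namespace Pool.Agent.OBW

theorem nib : NibStmt := by
  intro k γ A hγ
  obtain ⟨δ0, h0, h⟩ := _root_.Nib.nibble_rpow k γ A hγ
  exact ⟨δ0, h0, h⟩

end Pool.Agent.OBW
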