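import Mathlib
import Pool.Agent.OBW.GrdB

set_option autoImplicit false
set_option linter.unusedSectionVars false

/-!
OBW: exact degrees of pieces and of disjoint unions of pieces.
-/

namespace Pool.Agent.OBW

open Finset

section
variable {V C : Type} [Fintype V] [DecidableEq V] [Fintype C] [DecidableEq C]

theorem pcs_mem_nb {S : Finset (Item V C)} {v u : V} : u ∈ nb S v ↔ (Sum.inl s(v, u) : Item V C) ∈ S := by
  simp [nb]

theorem pcs_mem_cl {S : Finset (Item V C)} {v : V} {c : C} : c ∈ cl S v ↔ (Sum.inr (v, c) : Item V C) ∈ S := by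
  simp [cl]

theorem pcs_mem_vt {S : Finset (Item V C)} {v : V} {c : C} : v ∈ vt S c ↔ (Sum.inr (v, c) : Item V C) ∈ S := by
  simp [vt]

theorem pcs_mem_un {F : Finset (Finset (Item V C))} {i : Item V C} : i ∈ un F ↔ ∃ q ∈ F, i ∈ q := by
  simp [un]

/-- exact balance of a piece -/
theorem pcs_bal {l : ℕ} {c : C} {q : Finset (Item V C)} (h : IsPiece l c q) (v : V) :
    (nb q v).card = 2 * (cl q v).card := by
  obtain ⟨hl, z, hz, rfl⟩ := h
  have hmod : ∀ i : ℕ, i % l < l := fun i => Nat.mod_lt _ (by omega)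
  have hsp : ∀ i < l, ((i + (l - 1)) % l + 1) % l = i := by
    intro i hi
    rw [Nat.mod_add_mod]
    have : i + (l - 1) + 1 = i + l := by omega
    rw [this, Nat.add_mod_right, Nat.mod_eq_of_lt hi]
  have hps : ∀ i < l, ((i + 1) % l + (l - 1)) % l = i := by
    intro i hi
    rw [Nat.mod_add_mod]
    have : i + 1 + (l - 1) = i + l := by omega
    rw [this, Nat.add_mod_right, Nat.mod_eq_of_lt hi]
  by_cases hv : ∃ i < l, z i = v
  · obtain ⟨i, hi, hiv⟩ := hv
    have hnb : nb (cyc l z c) v = {z ((i + 1) % l), z ((i + (l - 1)) % l)} := by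
      ext u
      rw [pcs_mem_nb, grd_mem_cyc_inl, mem_insert, mem_singleton]
      constructor
      · rintro ⟨j, hj, hju⟩
        rw [Sym2.eq_iff] at hju
        rcases hju with ⟨h1, h2⟩ | ⟨h1, h2⟩
        · have : j = i := hz (Set.mem_Iio.2 hj) (Set.mem_Iio.2 hi) (h1.trans hiv.symm)
          subst this
          exact Or.inl h2.symm
        · have h3 : (j + 1) % l = i :=
            hz (Set.mem_Iio.2 (hmod _)) (Set.mem_Iio.2 hi) (h2.trans hiv.symm)
          right
          rw [← h1]
          congr 1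
          rw [← h3]
          exact (hps j hj).symm
      · rintro (h | h)
        · exact ⟨i, hi, by rw [hiv, h]⟩
        · refine ⟨(i + (l - 1)) % l, hmod _, ?_⟩
          rw [hsp i hi, hiv, ← h]
          exact Sym2.eq_swap
    have hne : z ((i + 1) % l) ≠ z ((i + (l - 1)) % l) := by
      intro h
      have h1 := hz (Set.mem_Iio.2 (hmod _)) (Set.mem_Iio.2 (hmod _)) h
      have h2 : ((i + 1) % l + 1) % l = i := by rw [h1]; exact hsp i hi
      rw [Nat.mod_add_mod] at h2
      rcases Nat.lt_or_ge (i + 1 + 1) l with h3 | h3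
      · rw [Nat.mod_eq_of_lt h3] at h2
        omega
      · rw [Nat.mod_eq_sub_mod h3, Nat.mod_eq_of_lt (by omega)] at h2
        omega
    have hcl : cl (cyc l z c) v = {c} := by
      ext c'
      rw [pcs_mem_cl, grd_mem_cyc_inr, mem_singleton]
      constructor
      · exact fun h => h.2
      · exact fun h => ⟨⟨i, hi, hiv⟩, h⟩
    rw [hnb, hcl, Finset.card_pair hne, Finset.card_singleton]
  · have hnb : nb (cyc l z c) v = ∅ := by
      rw [Finset.eq_empty_iff_forall_notMem]
      intro u hu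
      rw [pcs_mem_nb, grd_mem_cyc_inl] at hu
      obtain ⟨j, hj, hju⟩ := hu
      rw [Sym2.eq_iff] at hju
      rcases hju with ⟨h1, _⟩ | ⟨_, h2⟩
      · exact hv ⟨j, hj, h1⟩
      · exact hv ⟨(j + 1) % l, hmod _, h2⟩
    have hcl : cl (cyc l z c) v = ∅ := by
      rw [Finset.eq_empty_iff_forall_notMem]
      intro c' hc'
      rw [pcs_mem_cl, grd_mem_cyc_inr] at hc'
      exact hv hc'.1
    rw [hnb, hcl]
    simp

/-- exact number of the vertices of a piece -/
theorem pcs_vt {l : ℕ} {c : C} {q : Finset (Item V C)} (h : IsPiece l c q) (c' : C) :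
    (vt q c').card = if c' = c then l else 0 := by
  obtain ⟨hl, z, hz, rfl⟩ := h
  split_ifs with hc
  · subst hc
    have : vt (cyc l z c') c' = (range l).image z := by
      ext v
      rw [pcs_mem_vt, grd_mem_cyc_inr, mem_image]
      constructor
      · rintro ⟨⟨i, hi, h⟩, _⟩
        exact ⟨i, mem_range.2 hi, h⟩
      · rintro ⟨i, hi, h⟩
        exact ⟨⟨i, mem_range.1 hi, h⟩, rfl⟩
    rw [this, Finset.card_image_of_injOn, card_range]
    intro a ha b hb hab
    rw [Finset.coe_range] at ha hb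
    exact hz ha hb hab
  · rw [Finset.card_eq_zero, Finset.eq_empty_iff_forall_notMem]
    intro v hv
    rw [pcs_mem_vt, grd_mem_cyc_inr] at hv
    exact hc hv.2

theorem pcs_nb_un {F : Finset (Finset (Item V C))} (hF : PD F) (v : V) :
    (nb (un F) v).card = ∑ q ∈ F, (nb q v).card := by
  have : nb (un F) v = F.biUnion (fun q => nb q v) := by
    ext u
    rw [pcs_mem_nb, pcs_mem_un, mem_biUnion]
    constructor
    · rintro ⟨q, hq, h⟩; exact ⟨q, hq, pcs_mem_nb.2 h⟩
    · rintro ⟨q, hq, h⟩; exact ⟨q, hq, pcs_mem_nb.1 h⟩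
  rw [this, Finset.card_biUnion]
  intro p hp q hq hpq
  show Disjoint (nb p v) (nb q v)
  rw [Finset.disjoint_left]
  intro u hu hu'
  exact Finset.disjoint_left.1 (hF p hp q hq hpq) (pcs_mem_nb.1 hu) (pcs_mem_nb.1 hu')

theorem pcs_cl_un {F : Finset (Finset (Item V C))} (hF : PD F) (v : V) :
    (cl (un F) v).card = ∑ q ∈ F, (cl q v).card := by
  have : cl (un F) v = F.biUnion (fun q => cl q v) := by
    ext u
    rw [pcs_mem_cl, pcs_mem_un, mem_biUnion]
    constructor
    · rintro ⟨q, hq, h⟩; exact ⟨q, hq, pcs_mem_cl.2 h⟩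
    · rintro ⟨q, hq, h⟩; exact ⟨q, hq, pcs_mem_cl.1 h⟩
  rw [this, Finset.card_biUnion]
  intro p hp q hq hpq
  show Disjoint (cl p v) (cl q v)
  rw [Finset.disjoint_left]
  intro u hu hu'
  exact Finset.disjoint_left.1 (hF p hp q hq hpq) (pcs_mem_cl.1 hu) (pcs_mem_cl.1 hu')

theorem pcs_vt_un {F : Finset (Finset (Item V C))} (hF : PD F) (c : C) :
    (vt (un F) c).card = ∑ q ∈ F, (vt q c).card := by
  have : vt (un F) c = F.biUnion (fun q => vt q c) := by
    ext u
    rw [pcs_mem_vt, pcs_mem_un, mem_biUnion]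
    constructor
    · rintro ⟨q, hq, h⟩; exact ⟨q, hq, pcs_mem_vt.2 h⟩
    · rintro ⟨q, hq, h⟩; exact ⟨q, hq, pcs_mem_vt.1 h⟩
  rw [this, Finset.card_biUnion]
  intro p hp q hq hpq
  show Disjoint (vt p c) (vt q c)
  rw [Finset.disjoint_left]
  intro u hu hu'
  exact Finset.disjoint_left.1 (hF p hp q hq hpq) (pcs_mem_vt.1 hu) (pcs_mem_vt.1 hu')

/-- a disjoint union of pieces is balanced -/
theorem pcs_bal_un {F : Finset (Finset (Item V C))} (hF : PD F)
    (h : ∀ q ∈ F, ∃ l c, IsPiece l c q) (v : V) :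
    (nb (un F) v).card = 2 * (cl (un F) v).card := by
  rw [pcs_nb_un hF, pcs_cl_un hF, Finset.mul_sum]
  apply Finset.sum_congr rfl
  intro q hq
  obtain ⟨l, c, hlc⟩ := h q hq
  exact pcs_bal hlc v

/-- number of the vertices covered in the colour `c` by a disjoint union of pieces -/
theorem pcs_vt_cnt {F : Finset (Finset (Item V C))} (hF : PD F) (Ls : Finset ℕ)
    (h : ∀ q ∈ F, ∃ l ∈ Ls, ∃ c, IsPiece l c q) (c : C) :
    (vt (un F) c).card = ∑ l ∈ Ls, l * cnt F l c := by
  classical
  rw [pcs_vt_un hF]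
  have h1 : ∀ q ∈ F, (vt q c).card = ∑ l ∈ Ls, if IsPiece l c q then l else 0 := by
    intro q hq
    obtain ⟨l, hl, c', hlc⟩ := h q hq
    rw [pcs_vt hlc]
    by_cases hcc : c = c'
    · subst hcc
      rw [if_pos rfl, Finset.sum_eq_single_of_mem l hl]
      · rw [if_pos hlc]
      · intro l' _ hne
        rw [if_neg]
        intro h'
        exact hne (grd_piece_unique h' hlc).1
    · rw [if_neg hcc]
      symm
      apply Finset.sum_eq_zero
      intro l' _
      rw [if_neg]
      intro h'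
      exact hcc (grd_piece_unique h' hlc).2
  rw [Finset.sum_congr rfl h1, Finset.sum_comm]
  apply Finset.sum_congr rfl
  intro l _
  unfold cnt
  rw [← Finset.sum_filter, Finset.sum_const, smul_eq_mul, mul_comm]

theorem pcs_nb_sdiff {S S' : Finset (Item V C)} (h : S' ⊆ S) (v : V) :
    (nb (S \ S') v).card + (nb S' v).card = (nb S v).card := by
  have : nb S v = nb (S \ S') v ∪ nb S' v := by
    ext u
    rw [mem_union, pcs_mem_nb, pcs_mem_nb, pcs_mem_nb, mem_sdiff]
    constructor
    · intro h1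
      by_cases h2 : (Sum.inl s(v, u) : Item V C) ∈ S'
      · exact Or.inr h2
      · exact Or.inl ⟨h1, h2⟩
    · rintro (h1 | h1)
      · exact h1.1
      · exact h h1
  rw [this, Finset.card_union_of_disjoint]
  rw [Finset.disjoint_left]
  intro u hu hu'
  rw [pcs_mem_nb, mem_sdiff] at hu
  exact hu.2 (pcs_mem_nb.1 hu')

theorem pcs_cl_sdiff {S S' : Finset (Item V C)} (h : S' ⊆ S) (v : V) :
    (cl (S \ S') v).card + (cl S' v).card = (cl S v).card := by
  have : cl S v = cl (S \ S') v ∪ cl S' v := by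
    ext u
    rw [mem_union, pcs_mem_cl, pcs_mem_cl, pcs_mem_cl, mem_sdiff]
    constructor
    · intro h1
      by_cases h2 : (Sum.inr (v, u) : Item V C) ∈ S'
      · exact Or.inr h2
      · exact Or.inl ⟨h1, h2⟩
    · rintro (h1 | h1)
      · exact h1.1
      · exact h h1
  rw [this, Finset.card_union_of_disjoint]
  rw [Finset.disjoint_left]
  intro u hu hu'
  rw [pcs_mem_cl, mem_sdiff] at hu
  exact hu.2 (pcs_mem_cl.1 hu')

theorem pcs_vt_sdiff {S S' : Finset (Item V C)} (h : S' ⊆ S) (c : C) :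
    (vt (S \ S') c).card + (vt S' c).card = (vt S c).card := by
  have : vt S c = vt (S \ S') c ∪ vt S' c := by
    ext u
    rw [mem_union, pcs_mem_vt, pcs_mem_vt, pcs_mem_vt, mem_sdiff]
    constructor
    · intro h1
      by_cases h2 : (Sum.inr (u, c) : Item V C) ∈ S'
      · exact Or.inr h2
      · exact Or.inl ⟨h1, h2⟩
    · rintro (h1 | h1)
      · exact h1.1
      · exact h h1
  rw [this, Finset.card_union_of_disjoint]
  rw [Finset.disjoint_left]
  intro u hu hu'
  rw [pcs_mem_vt, mem_sdiff] at hu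
  exact hu.2 (pcs_mem_vt.1 hu')

theorem pcs_un_union (F F' : Finset (Finset (Item V C))) : un (F ∪ F') = un F ∪ un F' := by
  unfold un
  rw [Finset.union_biUnion]

/-- union of two families of pieces with disjoint supports -/
theorem pcs_pd_union {F F' : Finset (Finset (Item V C))} (h : PD F) (h' : PD F')
    (hd : Disjoint (un F) (un F')) : PD (F ∪ F') := by
  intro x hx y hy hxy
  rcases Finset.mem_union.1 hx with h1 | h1 <;> rcases Finset.mem_union.1 hy with h2 | h2
  · exact h x h1 y h2 hxy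
  · have hx1 : x ⊆ un F := Finset.subset_biUnion_of_mem id h1
    have hy1 : y ⊆ un F' := Finset.subset_biUnion_of_mem id h2
    exact Finset.disjoint_of_subset_left hx1 (Finset.disjoint_of_subset_right hy1 hd)
  · have hx1 : x ⊆ un F' := Finset.subset_biUnion_of_mem id h1
    have hy1 : y ⊆ un F := Finset.subset_biUnion_of_mem id h2
    exact (Finset.disjoint_of_subset_left hy1 (Finset.disjoint_of_subset_right hx1 hd)).symm
  · exact h' x h1 y h2 hxy

theorem pcs_nonempty {l : ℕ} {c : C} {q : Finset (Item V C)} (h : IsPiece l c q) : q.Nonempty := by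
  obtain ⟨hl, z, hz, rfl⟩ := h
  exact ⟨Sum.inr (z 0, c), grd_mem_cyc_inr.2 ⟨⟨0, by omega, rfl⟩, rfl⟩⟩

theorem pcs_cnt_union {F F' : Finset (Finset (Item V C))}
    (hd : Disjoint (un F) (un F')) (l : ℕ) (c : C) :
    cnt (F ∪ F') l c = cnt F l c + cnt F' l c := by
  classical
  unfold cnt
  rw [Finset.filter_union, Finset.card_union_of_disjoint]
  rw [Finset.disjoint_left]
  intro q hq hq'
  obtain ⟨h1, h2⟩ := Finset.mem_filter.1 hq
  obtain ⟨h3, _⟩ := Finset.mem_filter.1 hq'
  obtain ⟨i, hi⟩ := pcs_nonempty h2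
  exact Finset.disjoint_left.1 hd (pcs_mem_un.2 ⟨q, h1, hi⟩) (pcs_mem_un.2 ⟨q, h3, hi⟩)

end

end Pool.Agent.OBW
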