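import Pool.Agent.OBW.RsC

set_option autoImplicit false
set_option linter.unusedSectionVars false

/-! OBW, part RES: the final statement. -/

namespace Pool.Agent.OBW

open Finset

theorem rs_inter {α : Type} [DecidableEq α] (A B W : Finset α) (hA : A ⊆ W) (hB : B ⊆ W) :
    (A.card : ℝ) + B.card - W.card ≤ ((A ∩ B).card : ℝ) := by
  have h1 := Finset.card_union_add_card_inter A B
  have h2 := Finset.card_le_card (Finset.union_subset hA hB)
  have h3 : (A.card : ℝ) + B.card ≤ W.card + (A ∩ B).card := by exact_mod_cast (by omega)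
  linarith

theorem rs_sdiff {α : Type} [DecidableEq α] (A B : Finset α) :
    (A.card : ℝ) - B.card ≤ ((A \ B).card : ℝ) := by
  have h1 := Finset.le_card_sdiff B A
  have h2 : A.card ≤ (A \ B).card + B.card := by omega
  have h3 : (A.card : ℝ) ≤ (A \ B).card + B.card := by exact_mod_cast h2
  linarith

theorem rs_le {α : Type} [DecidableEq α] {A B : Finset α} (h : A ⊆ B) : (A.card : ℝ) ≤ B.card := by
  exact_mod_cast Finset.card_le_card h

section
variable {V C : Type} [Fintype V] [DecidableEq V] [Fintype C] [DecidableEq C]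

/-- the probability of the pairs at `x` -/
noncomputable def rsx (p : ℝ) (U U' : Finset V) (D' : Finset C) (S : Finset (Item V C)) (x : V) : ℝ :=
  if x ∈ U then p * ((nb S x ∩ U').card : ℝ) / (2 * ((cl S x ∩ D').card : ℝ)) else 0

theorem rsx_bounds {δ ε η ξ μ : ℝ} {U U' : Finset V} {D D' : Finset C} {S : Finset (Item V C)}
    (hS : Stage δ ε η ξ μ U U' D D' S) {p : ℝ} (hp : 0 < p) (hε : 0 < ε) (hη : η ≤ 1 / 100)
    (hM : 200 ≤ (U'.card : ℝ)) (x : V) (hx : x ∈ U) :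
    37 / 50 * p ≤ rsx p U U' D' S x ∧ rsx p U U' D' S x ≤ 7 / 5 * p ∧
      p * ((nb S x ∩ U').card : ℝ) = 2 * (rsx p U U' D' S x * ((cl S x ∩ D').card : ℝ)) := by
  have h1 := abs_le.mp hS.dD'
  have h2 : ((D'.card : ℝ)) - η * U'.card ≤ ((cl S x ∩ D').card : ℝ) := by
    have e1 := hS.missV' x hx
    have e2 : (D'.card : ℝ) = ((D' ∩ cl S x).card : ℝ) + ((D' \ cl S x).card : ℝ) := by
      exact_mod_cast (Finset.card_inter_add_card_sdiff D' (cl S x)).symm
    rw [Finset.inter_comm D' (cl S x)] at e2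
    linarith
  have h3 : ((cl S x ∩ D').card : ℝ) ≤ D'.card := rs_le Finset.inter_subset_right
  have h4 := hS.degU' x hx
  have h5 : ((nb S x ∩ U').card : ℝ) ≤ U'.card := rs_le Finset.inter_subset_right
  set k : ℝ := ((cl S x ∩ D').card : ℝ)
  set N : ℝ := ((nb S x ∩ U').card : ℝ)
  set M : ℝ := (U'.card : ℝ)
  have hδ1 := hS.δlo
  have hδ2 := hS.δhi
  have hM0 : 0 < M := by linarith
  have hk1 : 9 / 25 * M ≤ k := by
    have e1 : (3 / 8 + ε) * M ≤ δ * M := by gcongr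
    have e2 : η * M ≤ 1 / 100 * M := by gcongr
    have e3 : 0 < ε * M := by positivity
    nlinarith
  have hk2 : k ≤ 101 / 200 * M := by
    have e1 : δ * M ≤ 1 / 2 * M := by gcongr
    linarith
  have hk0 : 0 < k := by nlinarith
  have hN : 3 / 4 * M ≤ N := by nlinarith
  have hdef : rsx p U U' D' S x = p * N / (2 * k) := by
    unfold rsx; rw [if_pos hx]
  rw [hdef]
  refine ⟨?_, ?_, ?_⟩
  · rw [le_div_iff₀ (by positivity)]
    have e1 : 37 / 50 * (2 * k) ≤ N := by linarith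
    calc 37 / 50 * p * (2 * k) = p * (37 / 50 * (2 * k)) := by ring
      _ ≤ p * N := by gcongr
  · rw [div_le_iff₀ (by positivity)]
    have e1 : N ≤ 7 / 5 * (2 * k) := by linarith
    calc p * N ≤ p * (7 / 5 * (2 * k)) := by gcongr
      _ = _ := by ring
  · field_simp

theorem rs_res {δ ε η ξ μ p ζ t : ℝ} {U U' U'' : Finset V} {D D' D'' : Finset C}
    {S R : Finset (Item V C)} (hS : Stage δ ε η ξ μ U U' D D' S) (hU'' : U'' ⊆ U') (hD'' : D'' ⊆ D')
    (hU''c : (U''.card : ℝ) ≤ μ * U'.card) (hD''c : (D''.card : ℝ) ≤ μ * U'.card)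
    (hε : 0 < ε) (hμ : 0 < μ) (hμ1 : μ ≤ 1 / 100) (hη : η ≤ 1 / 100) (hp : 0 < p) (hp1 : p ≤ 1 / 4)
    (hζ : 0 < ζ) (hM : 200 ≤ (U'.card : ℝ)) (ht1 : t ≤ ζ / 4 * U'.card) (ht2 : t ≤ p ^ 2 / 20 * U'.card)
    (ht3 : t ≤ μ * p / 2 * U'.card)
    (hO : RsOut p t (rsx p U U' D' S) U U' U'' D D' D'' S R) :
    Res p ζ μ U U' U'' D D' D'' S R := by
  have hM0 : (0 : ℝ) < U'.card := by linarith
  have hMU : (U'.card : ℝ) ≤ U.card := rs_le hS.subU
  have hζM : 0 < ζ * (U'.card : ℝ) := by positivity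
  have hp2 : 0 < p ^ 2 := by positivity
  have hb := fun x hx => rsx_bounds hS hp hε hη hM x hx
  have hδ1 := hS.δlo
  have hδ2 := hS.δhi
  have hD'c := abs_le.mp hS.dD'
  have hδM1 : (3 / 8 + ε) * (U'.card : ℝ) ≤ δ * U'.card := by gcongr
  have hδM2 : δ * (U'.card : ℝ) ≤ 1 / 2 * U'.card := by gcongr
  have hηM : η * (U'.card : ℝ) ≤ 1 / 100 * U'.card := by gcongr
  have hμM : μ * (U'.card : ℝ) ≤ 1 / 100 * U'.card := by gcongr
  have hεM : 0 < ε * (U'.card : ℝ) := by positivity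
  -- common neighbourhoods
  have hnn : ∀ x ∈ U, ∀ y ∈ U, 1 / 2 * (U'.card : ℝ) ≤ ((nb S x ∩ nb S y ∩ U').card : ℝ) := by
    intro x hx y hy
    have h1 := hS.degU' x hx
    have h2 := hS.degU' y hy
    have h3 := rs_inter (nb S x ∩ U') (nb S y ∩ U') U' Finset.inter_subset_right Finset.inter_subset_right
    have h4 : (nb S x ∩ U') ∩ (nb S y ∩ U') = nb S x ∩ nb S y ∩ U' := by
      ext v; simp only [Finset.mem_inter]; tauto
    rw [h4] at h3
    nlinarith
  have hnn2 : ∀ x ∈ U, ∀ y ∈ U, 49 / 100 * (U'.card : ℝ) ≤ (((nb S x ∩ nb S y ∩ U') \ U'').card : ℝ) := by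
    intro x hx y hy
    have h1 := hnn x hx y hy
    have h2 := rs_sdiff (nb S x ∩ nb S y ∩ U') U''
    linarith
  have hnn3 : ∀ x ∈ U, ∀ y ∈ U, ∀ c ∈ D,
      48 / 100 * (U'.card : ℝ) ≤ (((nb S x ∩ nb S y ∩ vt S c ∩ U') \ U'').card : ℝ) := by
    intro x hx y hy c hc
    have h1 := hnn2 x hx y hy
    have h2 := rs_sdiff ((nb S x ∩ nb S y ∩ U') \ U'') (U' \ vt S c)
    have h3 := hS.missC' c hc
    have h4 : ((nb S x ∩ nb S y ∩ U') \ U'') \ (U' \ vt S c) = (nb S x ∩ nb S y ∩ vt S c ∩ U') \ U'' := by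
      ext v; simp only [Finset.mem_inter, Finset.mem_sdiff]; tauto
    rw [h4] at h2
    linarith
  have hcc : ∀ x ∈ U, ∀ y ∈ U, 35 / 100 * (U'.card : ℝ) ≤ ((cl S x ∩ cl S y ∩ D').card : ℝ) := by
    intro x hx y hy
    have h1 := hS.missV' x hx
    have h2 := hS.missV' y hy
    have h3 := rs_sdiff D' (D' \ cl S x)
    have h4 := rs_sdiff (D' \ (D' \ cl S x)) (D' \ cl S y)
    have h5 : (D' \ (D' \ cl S x)) \ (D' \ cl S y) = cl S x ∩ cl S y ∩ D' := by
      ext v; simp only [Finset.mem_inter, Finset.mem_sdiff]; tauto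
    rw [h5] at h4
    linarith
  have hD'M : (D'.card : ℝ) ≤ 101 / 200 * U'.card := by linarith
  have hXU : ∀ x, x ∈ U \ U' → x ∈ U := fun x hx => (Finset.mem_sdiff.mp hx).1
  have hcD : ∀ c, c ∈ D \ D' → c ∈ D := fun c hc => (Finset.mem_sdiff.mp hc).1
  constructor
  · exact hO.sub
  · exact hO.kE
  · exact hO.kP
  · intro x hx
    have h1 := abs_le.mp (hO.o0 x hx)
    have h2 := abs_le.mp (hO.c0 x hx)
    have h3 := (hb x (hXU x hx)).2.2
    rw [abs_le]
    constructor <;> linarith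
  · intro x hx
    have h1 := hO.o0 x hx
    linarith
  · intro c hc
    have h1 := hO.o1 c hc
    linarith
  · intro u hu
    have h1 := hO.o2 u hu
    have h2 : ζ * (U'.card : ℝ) ≤ ζ * U.card := by gcongr
    linarith
  · intro u hu
    have h1 := hO.c1 u hu
    have h2 : ζ * (U'.card : ℝ) ≤ ζ * U.card := by gcongr
    linarith
  · intro c hc
    have h1 := abs_le.mp (hO.o3 c hc)
    have h2 : ∑ x ∈ vt S c \ U', rsx p U U' D' S x ≤ 7 / 5 * p * (U.card : ℝ) := by
      have hsub : vt S c \ U' ⊆ U := by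
        intro v hv
        rw [Finset.mem_sdiff, mem_vt] at hv
        exact (hS.ins.2 _ _ hv.1).1
      calc ∑ x ∈ vt S c \ U', rsx p U U' D' S x ≤ ∑ x ∈ vt S c \ U', 7 / 5 * p :=
            Finset.sum_le_sum (fun x hx => (hb x (hsub hx)).2.1)
        _ = ((vt S c \ U').card : ℝ) * (7 / 5 * p) := by rw [Finset.sum_const, nsmul_eq_mul]
        _ ≤ (U.card : ℝ) * (7 / 5 * p) := by
            have := rs_le hsub
            gcongr
        _ = _ := by ring
    have h3 : p ^ 2 / 20 * (U'.card : ℝ) ≤ 3 / 5 * p * U.card := by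
      have : p ^ 2 / 20 ≤ 3 / 5 * p := by nlinarith
      calc p ^ 2 / 20 * (U'.card : ℝ) ≤ 3 / 5 * p * U'.card := by gcongr
        _ ≤ 3 / 5 * p * U.card := by gcongr
    linarith
  · intro x hx y hy hxy
    have h1 := abs_le.mp (hO.o5 x hx y hy hxy)
    have h2 := abs_le.mp (hO.o4 x hx y hy hxy)
    have h3 := hnn2 x (hXU x hx) y (hXU y hy)
    have h4 : ((nb S x ∩ nb S y ∩ U').card : ℝ) ≤ U'.card := rs_le Finset.inter_subset_right
    have h5 : p ^ 2 * (49 / 100 * (U'.card : ℝ)) ≤ p ^ 2 * (((nb S x ∩ nb S y ∩ U') \ U'').card : ℝ) := by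
      gcongr
    have h6 : p ^ 2 * ((nb S x ∩ nb S y ∩ U').card : ℝ) ≤ p ^ 2 * (U'.card : ℝ) := by gcongr
    have h7 : 0 < p ^ 2 * (U'.card : ℝ) := by positivity
    constructor <;> linarith
  · intro x hx y hy hxy
    have h1 := abs_le.mp (hO.c2 x hx y hy hxy)
    have h2 := hcc x (hXU x hx) y (hXU y hy)
    have h3 : ((cl S x ∩ cl S y ∩ D').card : ℝ) ≤ D'.card := rs_le Finset.inter_subset_right
    obtain ⟨bx1, bx2, _⟩ := hb x (hXU x hx)
    obtain ⟨by1, by2, _⟩ := hb y (hXU y hy)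
    have h7 : 0 < p ^ 2 * (U'.card : ℝ) := by positivity
    have hx0 : 0 ≤ rsx p U U' D' S x := by nlinarith
    have hy0 : 0 ≤ rsx p U U' D' S y := by nlinarith
    have h8 : (37 / 50 * p) * (37 / 50 * p) ≤ rsx p U U' D' S x * rsx p U U' D' S y := by
      gcongr
    have h9 : rsx p U U' D' S x * rsx p U U' D' S y ≤ (7 / 5 * p) * (7 / 5 * p) := by
      gcongr
    have h10 : (37 / 50 * p) * (37 / 50 * p) * (35 / 100 * (U'.card : ℝ)) ≤
        rsx p U U' D' S x * rsx p U U' D' S y * ((cl S x ∩ cl S y ∩ D').card : ℝ) := by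
      gcongr
    have h11 : rsx p U U' D' S x * rsx p U U' D' S y * ((cl S x ∩ cl S y ∩ D').card : ℝ) ≤
        (7 / 5 * p) * (7 / 5 * p) * (101 / 200 * (U'.card : ℝ)) := by
      have : ((cl S x ∩ cl S y ∩ D').card : ℝ) ≤ 101 / 200 * U'.card := h3.trans hD'M
      gcongr
    constructor <;> nlinarith
  · intro c hc d hd hcd
    have h1 := abs_le.mp (hO.o6 c hc d hd hcd)
    have h4 : ((vt S c ∩ vt S d ∩ U').card : ℝ) ≤ U'.card := rs_le Finset.inter_subset_right
    have h6 : p ^ 2 * ((vt S c ∩ vt S d ∩ U').card : ℝ) ≤ p ^ 2 * (U'.card : ℝ) := by gcongr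
    have h7 : 0 < p ^ 2 * (U'.card : ℝ) := by positivity
    linarith
  · intro x hx c hc
    have h1 := abs_le.mp (hO.o7 x hx c hc)
    have h4 : ((nb S x ∩ vt S c ∩ U').card : ℝ) ≤ U'.card := rs_le Finset.inter_subset_right
    have h6 : p ^ 2 * ((nb S x ∩ vt S c ∩ U').card : ℝ) ≤ p ^ 2 * (U'.card : ℝ) := by gcongr
    have h7 : 0 < p ^ 2 * (U'.card : ℝ) := by positivity
    linarith
  · intro u hu c hc
    have h1 := abs_le.mp (hO.o8 u hu c hc)
    linarith
  · intro u hu x hx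
    have h1 := abs_le.mp (hO.o9 u hu x hx)
    linarith
  · intro x hx
    have h1 := abs_le.mp (hO.o10 x hx)
    have h2 : ((nb S x ∩ U'').card : ℝ) ≤ U''.card := rs_le Finset.inter_subset_right
    have h3 : p * ((nb S x ∩ U'').card : ℝ) ≤ p * (μ * U'.card) := by
      gcongr; exact h2.trans hU''c
    have h4 : 0 < p * (μ * (U'.card : ℝ)) := by positivity
    nlinarith
  · intro c hc
    have h1 := abs_le.mp (hO.o11 c hc)
    have h2 : ((vt S c ∩ U'').card : ℝ) ≤ U''.card := rs_le Finset.inter_subset_right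
    have h3 : p * ((vt S c ∩ U'').card : ℝ) ≤ p * (μ * U'.card) := by
      gcongr; exact h2.trans hU''c
    have h4 : 0 < p * (μ * (U'.card : ℝ)) := by positivity
    nlinarith
  · intro x hx
    have h1 := abs_le.mp (hO.c3 x hx)
    have h2 : ((cl S x ∩ D'').card : ℝ) ≤ D''.card := rs_le Finset.inter_subset_right
    obtain ⟨bx1, bx2, _⟩ := hb x (hXU x hx)
    have hx0 : 0 ≤ rsx p U U' D' S x := by nlinarith
    have h3 : rsx p U U' D' S x * ((cl S x ∩ D'').card : ℝ) ≤ (7 / 5 * p) * (μ * U'.card) := by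
      gcongr; exact h2.trans hD''c
    have h4 : 0 < p * (μ * (U'.card : ℝ)) := by positivity
    nlinarith
  · intro u hu x hx c hc
    have h1 := abs_le.mp (hO.o12 u hu x hx c hc)
    have h2 := hnn3 u (hS.subU hu) x (hXU x hx) c (hcD c hc)
    have h5 : p ^ 2 * (48 / 100 * (U'.card : ℝ)) ≤
        p ^ 2 * (((nb S u ∩ nb S x ∩ vt S c ∩ U') \ U'').card : ℝ) := by gcongr
    have h7 : 0 < p ^ 2 * (U'.card : ℝ) := by positivity
    linarith
  · intro u hu v hv c hc
    have h1 := abs_le.mp (hO.o13 u hu v hv c hc)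
    have h2 := hnn3 u (hS.subU hu) v (hS.subU hv) c (hcD c hc)
    have h5 : p * (48 / 100 * (U'.card : ℝ)) ≤
        p * (((nb S u ∩ nb S v ∩ vt S c ∩ U') \ U'').card : ℝ) := by gcongr
    have h6 : p ^ 2 / 20 * (U'.card : ℝ) ≤ p / 80 * U'.card := by
      have : p ^ 2 / 20 ≤ p / 80 := by nlinarith
      gcongr
    have h7 : 0 < p * (U'.card : ℝ) := by positivity
    linarith

end

/-- threshold for the number of tests -/
theorem rs_thr (c : ℝ) (hc : 0 < c) : ∃ x0 : ℝ, ∀ x, x0 ≤ x → 40 * x ^ 4 * Real.exp (-(c * x)) < 1 := by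
  have h1 := Real.tendsto_pow_mul_exp_neg_atTop_nhds_zero 4
  have h2 : Filter.Tendsto (fun x : ℝ => c * x) Filter.atTop Filter.atTop :=
    Filter.tendsto_id.const_mul_atTop hc
  have h3 := h1.comp h2
  have h4 : (0 : ℝ) < c ^ 4 / 40 := by positivity
  obtain ⟨x0, hx0⟩ := Filter.eventually_atTop.mp (h3.eventually (gt_mem_nhds h4))
  refine ⟨x0, fun x hx => ?_⟩
  have h6 := hx0 x hx
  simp only [Function.comp] at h6
  rw [mul_pow] at h6
  have hcB : (0 : ℝ) < c ^ 4 := by positivity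
  have h7 : c ^ 4 * (40 * x ^ 4 * Real.exp (-(c * x))) < c ^ 4 * 1 := by linarith
  exact lt_of_mul_lt_mul_left h7 hcB.le

theorem res_of_rs (hRs : RsStmt) : ResStmt := by
  intro ε hε
  refine ⟨1 / 100, by norm_num, ?_⟩
  intro μ hμ hμ1 η hη hη1 p hp hp1 ζ hζ
  set τ : ℝ := min (ζ / 4) (min (p ^ 2 / 20) (μ * p / 2)) with hτ
  have hτ0 : 0 < τ := lt_min (by positivity) (lt_min (by positivity) (by positivity))
  set x : ℝ := μ * τ / 2 with hx
  have hx0 : 0 < x := by positivity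
  obtain ⟨y0, hy0⟩ := rs_thr (x ^ 2 / 2) (by positivity)
  refine ⟨max (⌈201 / μ⌉₊) (max (⌈y0⌉₊) 8), ?_⟩
  intro V C _ _ _ _ δ ξ U U' U'' D D' D'' S hm hS hU'' hD'' hU''c hD''c
  have hm1 : 201 / μ ≤ (U.card : ℝ) := by
    have h1 := Nat.le_ceil (201 / μ)
    have h2 : ((⌈201 / μ⌉₊ : ℕ) : ℝ) ≤ U.card := by exact_mod_cast (le_max_left _ _).trans hm
    exact h1.trans h2
  have hm2 : y0 ≤ (U.card : ℝ) := by
    have h1 := Nat.le_ceil y0
    have h2 : ((⌈y0⌉₊ : ℕ) : ℝ) ≤ U.card := by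
      exact_mod_cast ((le_max_left _ _).trans (le_max_right _ _)).trans hm
    exact h1.trans h2
  have hm3 : (8 : ℝ) ≤ U.card := by
    exact_mod_cast ((le_max_right _ _).trans (le_max_right _ _)).trans hm
  rw [div_le_iff₀ hμ] at hm1
  have hUlo := hS.Ulo
  have hM : 200 ≤ (U'.card : ℝ) := by linarith
  have hUn : U.Nonempty := by
    rw [← Finset.card_pos]
    have : (0 : ℝ) < U.card := by linarith
    exact_mod_cast this
  have hdD := abs_le.mp hS.dD
  have hδ1 := hS.δlo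
  have hδ2 := hS.δhi
  have hδm1 : (3 / 8 + ε) * (U.card : ℝ) ≤ δ * U.card := by gcongr
  have hδm2 : δ * (U.card : ℝ) ≤ 1 / 2 * U.card := by gcongr
  have hDn : D.Nonempty := by
    rw [← Finset.card_pos]
    have : (0 : ℝ) < D.card := by nlinarith
    exact_mod_cast this
  have hDU : D.card ≤ U.card := by
    have : (D.card : ℝ) ≤ U.card := by linarith
    exact_mod_cast this
  have ht : x * (U.card : ℝ) ≤ τ * U'.card := by
    have e1 : μ * (U.card : ℝ) ≤ 2 * U'.card := by linarith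
    calc x * (U.card : ℝ) = τ / 2 * (μ * U.card) := by rw [hx]; ring
      _ ≤ τ / 2 * (2 * U'.card) := by gcongr
      _ = _ := by ring
  have hqx : ∀ v, 0 ≤ rsx p U U' D' S v ∧ rsx p U U' D' S v ≤ 1 := by
    intro v
    by_cases hv : v ∈ U
    · have := rsx_bounds hS hp hε hη1 hM v hv
      constructor <;> nlinarith
    · unfold rsx; rw [if_neg hv]; exact ⟨le_rfl, zero_le_one⟩
  have hexp : 40 * (U.card : ℝ) ^ 4 * Real.exp (-(x ^ 2 * (U.card : ℝ) / 2)) < 1 := by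
    have := hy0 (U.card : ℝ) hm2
    have e1 : x ^ 2 / 2 * (U.card : ℝ) = x ^ 2 * (U.card : ℝ) / 2 := by ring
    rw [e1] at this
    exact this
  obtain ⟨R, hR⟩ := rs_out hRs p (τ * U'.card) (rsx p U U' D' S) U U' U'' D D' D'' S hS.ins hS.subU hU''
    hS.subD hD'' hUn hDn hDU ⟨hp.le, by linarith⟩ hqx x hx0 ht hexp
  have hM0 : (0 : ℝ) ≤ U'.card := Nat.cast_nonneg _
  refine ⟨R, rs_res hS hU'' hD'' hU''c hD''c hε hμ hμ1 hη1 hp hp1 hζ hM ?_ ?_ ?_ hR⟩
  · have : τ ≤ ζ / 4 := min_le_left _ _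
    gcongr
  · have : τ ≤ p ^ 2 / 20 := (min_le_right _ _).trans (min_le_left _ _)
    gcongr
  · have : τ ≤ μ * p / 2 := (min_le_right _ _).trans (min_le_right _ _)
    gcongr

end Pool.Agent.OBW
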