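import Mathlib
import Pool.Agent.OBW.Stmts

set_option autoImplicit false

/-!
OBW tools: Hoeffding in a finite product space with disjoint blocks (`hf : HfStmt`).
-/

namespace Pool.Agent.OBW

open Finset

section
variable {Γ Ω : Type} [Fintype Γ] [Fintype Ω] [DecidableEq Γ]

/-- expectation of `F` with respect to the product of the weights `p g` -/
noncomputable def Ex (p : Γ → Ω → ℝ) (F : (Γ → Ω) → ℝ) : ℝ := ∑ ω : Γ → Ω, (∏ g, p g (ω g)) * F ω

theorem Ex_one (p : Γ → Ω → ℝ) (hp1 : ∀ g, ∑ a, p g a = 1) : Ex p (fun _ => 1) = 1 := by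
  classical
  unfold Ex
  have h := Finset.prod_univ_sum (fun _ : Γ => (Finset.univ : Finset Ω)) (fun g a => p g a)
  rw [Fintype.piFinset_univ] at h
  simp only [mul_one]
  rw [← h]
  exact Finset.prod_eq_one fun g _ => hp1 g

theorem Ex_const_mul (p : Γ → Ω → ℝ) (c : ℝ) (F : (Γ → Ω) → ℝ) :
    Ex p (fun ω => c * F ω) = c * Ex p F := by
  unfold Ex
  rw [Finset.mul_sum]
  exact Finset.sum_congr rfl fun ω _ => by ring

theorem Ex_add (p : Γ → Ω → ℝ) (F G : (Γ → Ω) → ℝ) :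
    Ex p (fun ω => F ω + G ω) = Ex p F + Ex p G := by
  unfold Ex
  rw [← Finset.sum_add_distrib]
  exact Finset.sum_congr rfl fun ω _ => by ring

theorem Ex_sum (p : Γ → Ω → ℝ) {ι : Type} (s : Finset ι) (F : ι → (Γ → Ω) → ℝ) :
    Ex p (fun ω => ∑ i ∈ s, F i ω) = ∑ i ∈ s, Ex p (F i) := by
  unfold Ex
  rw [Finset.sum_comm]
  exact Finset.sum_congr rfl fun ω _ => by rw [Finset.mul_sum]

theorem Ex_mono (p : Γ → Ω → ℝ) (hp : ∀ g a, 0 ≤ p g a) {F G : (Γ → Ω) → ℝ} (h : ∀ ω, F ω ≤ G ω) :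
    Ex p F ≤ Ex p G := by
  unfold Ex
  exact Finset.sum_le_sum fun ω _ =>
    mul_le_mul_of_nonneg_left (h ω) (Finset.prod_nonneg fun g _ => hp _ _)

/-- the exchange of the coordinates outside `B` -/
def swapOff (B : Finset Γ) (q : (Γ → Ω) × (Γ → Ω)) : (Γ → Ω) × (Γ → Ω) :=
  (fun g => if g ∈ B then q.1 g else q.2 g, fun g => if g ∈ B then q.2 g else q.1 g)

theorem swapOff_invol (B : Finset Γ) (q : (Γ → Ω) × (Γ → Ω)) : swapOff B (swapOff B q) = q := by
  unfold swapOff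
  ext g
  · by_cases h : g ∈ B <;> simp [h]
  · by_cases h : g ∈ B <;> simp [h]

/-- independence of two functions depending on disjoint sets of coordinates -/
theorem Ex_mul (p : Γ → Ω → ℝ) (hp1 : ∀ g, ∑ a, p g a = 1) (B : Finset Γ) (F G : (Γ → Ω) → ℝ)
    (hF : ∀ ω ω' : Γ → Ω, (∀ g ∈ B, ω g = ω' g) → F ω = F ω')
    (hG : ∀ ω ω' : Γ → Ω, (∀ g, g ∉ B → ω g = ω' g) → G ω = G ω') :
    Ex p (fun ω => F ω * G ω) = Ex p F * Ex p G := by
  classical
  have h1 : Ex p F * Ex p G = ∑ q : (Γ → Ω) × (Γ → Ω),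
      ((∏ g, p g (q.1 g)) * (∏ g, p g (q.2 g))) * (F q.1 * G q.2) := by
    unfold Ex
    rw [Finset.sum_mul_sum, Fintype.sum_prod_type]
    exact Finset.sum_congr rfl fun ω _ => Finset.sum_congr rfl fun ω' _ => by ring
  have h2 : (∑ q : (Γ → Ω) × (Γ → Ω),
      ((∏ g, p g (q.1 g)) * (∏ g, p g (q.2 g))) * (F q.1 * G q.2)) =
      ∑ q : (Γ → Ω) × (Γ → Ω),
      ((∏ g, p g (q.1 g)) * (∏ g, p g (q.2 g))) * (F q.1 * G q.1) := by
    let e : ((Γ → Ω) × (Γ → Ω)) ≃ ((Γ → Ω) × (Γ → Ω)) :=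
      ⟨swapOff B, swapOff B, swapOff_invol B, swapOff_invol B⟩
    rw [← Equiv.sum_comp e]
    apply Finset.sum_congr rfl
    intro q _
    have e1 : (∏ g, p g ((e q).1 g)) * (∏ g, p g ((e q).2 g)) =
        (∏ g, p g (q.1 g)) * (∏ g, p g (q.2 g)) := by
      rw [← Finset.prod_mul_distrib, ← Finset.prod_mul_distrib]
      apply Finset.prod_congr rfl
      intro g _
      show p g (if g ∈ B then q.1 g else q.2 g) * p g (if g ∈ B then q.2 g else q.1 g) = _
      by_cases h : g ∈ B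
      · simp [h]
      · simp [h, mul_comm]
    have e2 : F (e q).1 = F q.1 := by
      apply hF
      intro g hg
      show (if g ∈ B then q.1 g else q.2 g) = _
      simp [hg]
    have e3 : G (e q).2 = G q.1 := by
      apply hG
      intro g hg
      show (if g ∈ B then q.2 g else q.1 g) = _
      simp [hg]
    rw [e1, e2, e3]
  rw [h1, h2, Fintype.sum_prod_type]
  unfold Ex
  apply Finset.sum_congr rfl
  intro ω _
  have h3 := Ex_one p hp1
  unfold Ex at h3
  simp only [mul_one] at h3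
  calc (∏ g, p g (ω g)) * (F ω * G ω)
      = (∏ g, p g (ω g)) * (F ω * G ω) * ∑ ω' : Γ → Ω, ∏ g, p g (ω' g) := by rw [h3, mul_one]
    _ = _ := by
      rw [Finset.mul_sum]
      exact Finset.sum_congr rfl fun ω' _ => by ring

/-- independence for a finite family of disjoint blocks -/
theorem Ex_prod (p : Γ → Ω → ℝ) (hp1 : ∀ g, ∑ a, p g a = 1) {κ : Type} [DecidableEq κ]
    (B : κ → Finset Γ) (F : κ → (Γ → Ω) → ℝ) (J : Finset κ)
    (hB : ∀ j ∈ J, ∀ j' ∈ J, j ≠ j' → Disjoint (B j) (B j'))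
    (hF : ∀ j ∈ J, ∀ ω ω' : Γ → Ω, (∀ g ∈ B j, ω g = ω' g) → F j ω = F j ω') :
    Ex p (fun ω => ∏ j ∈ J, F j ω) = ∏ j ∈ J, Ex p (F j) := by
  classical
  induction J using Finset.induction_on with
  | empty => simpa using Ex_one p hp1
  | insert j J hj ih =>
    rw [prod_insert hj, ← ih (fun a ha b hb => hB a (mem_insert_of_mem ha) b (mem_insert_of_mem hb))
      (fun a ha => hF a (mem_insert_of_mem ha))]
    rw [← Ex_mul p hp1 (B j) (F j) (fun ω => ∏ j ∈ J, F j ω) (hF j (mem_insert_self _ _))]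
    · congr 1
      funext ω
      rw [prod_insert hj]
    · intro ω ω' h
      apply Finset.prod_congr rfl
      intro a ha
      apply hF a (mem_insert_of_mem ha)
      intro g hg
      apply h g
      intro hgj
      have hd := hB j (mem_insert_self _ _) a (mem_insert_of_mem ha) (fun e => hj (e ▸ ha))
      exact (Finset.disjoint_left.1 hd hgj) hg

/-- exponential moment of a centred function with values in `[-1, 1]` -/
theorem Ex_exp (p : Γ → Ω → ℝ) (hp : ∀ g a, 0 ≤ p g a) (hp1 : ∀ g, ∑ a, p g a = 1)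
    (X : (Γ → Ω) → ℝ) (hX : ∀ ω, |X ω| ≤ 1) (h0 : Ex p X = 0) (lam : ℝ) :
    Ex p (fun ω => Real.exp (lam * X ω)) ≤ Real.exp (lam ^ 2 / 2) := by
  have h1 : ∀ ω, Real.exp (lam * X ω) ≤ Real.cosh lam * 1 + Real.sinh lam * X ω := by
    intro ω
    have hx := abs_le.1 (hX ω)
    have hc := convexOn_exp.2 (Set.mem_univ (-lam)) (Set.mem_univ lam)
      (show 0 ≤ (1 - X ω) / 2 by linarith) (show 0 ≤ (1 + X ω) / 2 by linarith) (by ring)
    simp only [smul_eq_mul] at hc
    have e1 : (1 - X ω) / 2 * -lam + (1 + X ω) / 2 * lam = lam * X ω := by ring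
    rw [e1] at hc
    refine hc.trans (le_of_eq ?_)
    rw [Real.cosh_eq, Real.sinh_eq]
    ring
  have h2 := Ex_mono p hp h1
  rw [Ex_add, Ex_const_mul, Ex_const_mul, h0, Ex_one p hp1] at h2
  have h3 := Real.cosh_le_exp_half_sq lam
  linarith

theorem Ex_exists_le (p : Γ → Ω → ℝ) (hp : ∀ g a, 0 ≤ p g a) (hp1 : ∀ g, ∑ a, p g a = 1)
    (F : (Γ → Ω) → ℝ) (c : ℝ) (h : Ex p F ≤ c) : ∃ ω, (∀ g, 0 < p g (ω g)) ∧ F ω ≤ c := by
  classical
  by_contra hcon
  push Not at hcon
  have hP : ∀ ω : Γ → Ω, 0 ≤ ∏ g, p g (ω g) := fun ω => Finset.prod_nonneg fun g _ => hp _ _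
  have hpos : ∀ ω : Γ → Ω, 0 < ∏ g, p g (ω g) → ∀ g, 0 < p g (ω g) := by
    intro ω hω g
    rcases (hp g (ω g)).eq_or_lt with h0 | h0
    · exfalso
      rw [Finset.prod_eq_zero (mem_univ g) h0.symm] at hω
      exact lt_irrefl _ hω
    · exact h0
  have h1 := Ex_one p hp1
  have hex : ∃ ω : Γ → Ω, 0 < ∏ g, p g (ω g) := by
    by_contra hne
    push Not at hne
    have : Ex p (fun _ => 1) ≤ 0 := by
      unfold Ex
      exact Finset.sum_nonpos fun ω _ => by rw [mul_one]; exact hne ω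
    linarith
  obtain ⟨ω0, hω0⟩ := hex
  have h2 : Ex p (fun _ => c) < Ex p F := by
    unfold Ex
    apply Finset.sum_lt_sum
    · intro ω _
      rcases (hP ω).eq_or_lt with h0 | h0
      · rw [← h0]; simp
      · exact (mul_lt_mul_of_pos_left (hcon ω (hpos ω h0)) h0).le
    · exact ⟨ω0, mem_univ _, mul_lt_mul_of_pos_left (hcon ω0 (hpos ω0 hω0)) hω0⟩
  have h3 : Ex p (fun _ => c) = c := by
    have := Ex_const_mul p c (fun _ => 1)
    simp only [mul_one] at this
    rw [this, h1, mul_one]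
  linarith

end

theorem hf : HfStmt := by
  intro Γ Ω I κ _ _ _ _ _ _ p Js B f M ξ hp hp1 hB hf01 hf hM hM0 hξ0 hprob
  classical
  set m : I → κ → ℝ := fun i j => Ex p (f i j) with hm
  have hm0 : ∀ i j, 0 ≤ m i j := by
    intro i j
    exact Finset.sum_nonneg fun ω _ =>
      mul_nonneg (Finset.prod_nonneg fun g _ => hp _ _) (hf i j ω).1
  have hm1 : ∀ i j, m i j ≤ 1 := by
    intro i j
    rw [← Ex_one p hp1]
    exact Ex_mono p hp fun ω => (hf i j ω).2
  set X : I → κ → (Γ → Ω) → ℝ := fun i j ω => f i j ω - m i j with hX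
  have hX1 : ∀ i j ω, |X i j ω| ≤ 1 := by
    intro i j ω
    rw [abs_le]
    constructor <;> simp only [hX] <;> linarith [(hf i j ω).1, (hf i j ω).2, hm0 i j, hm1 i j]
  have hX0 : ∀ i j, Ex p (X i j) = 0 := by
    intro i j
    have e1 : X i j = fun ω => f i j ω + (-(m i j)) * 1 := by
      funext ω
      simp only [hX]
      ring
    rw [e1, Ex_add, Ex_const_mul, Ex_one p hp1]
    simp only [hm]
    ring
  set lam : ℝ := ξ with hlam
  -- exponential moments of the sums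
  have hmom : ∀ (i : I) (l : ℝ), Ex p (fun ω => Real.exp (l * ∑ j ∈ Js i, X i j ω)) ≤
      Real.exp (M * (l ^ 2 / 2)) := by
    intro i l
    have e1 : (fun ω => Real.exp (l * ∑ j ∈ Js i, X i j ω)) =
        fun ω => ∏ j ∈ Js i, Real.exp (l * X i j ω) := by
      funext ω
      rw [Finset.mul_sum, Real.exp_sum]
    rw [e1, Ex_prod p hp1 (B i) (fun j ω => Real.exp (l * X i j ω)) (Js i) (hB i)]
    · calc ∏ j ∈ Js i, Ex p (fun ω => Real.exp (l * X i j ω))
          ≤ ∏ _j ∈ Js i, Real.exp (l ^ 2 / 2) := by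
            apply Finset.prod_le_prod
            · intro j _
              exact Finset.sum_nonneg fun ω _ =>
                mul_nonneg (Finset.prod_nonneg fun g _ => hp _ _) (Real.exp_pos _).le
            · intro j _
              exact Ex_exp p hp hp1 _ (hX1 i j) (hX0 i j) l
        _ = Real.exp (((Js i).card : ℝ) * (l ^ 2 / 2)) := by
            rw [Finset.prod_const, Real.exp_nat_mul]
        _ ≤ _ := by
            apply Real.exp_le_exp.2
            exact mul_le_mul_of_nonneg_right (hM i) (by positivity)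
    · intro j hj ω ω' h
      simp only [hX]
      rw [hf01 i j hj ω ω' h]
  have htot : Ex p (fun ω => ∑ i : I, (Real.exp (lam * ∑ j ∈ Js i, X i j ω) +
      Real.exp (-lam * ∑ j ∈ Js i, X i j ω))) ≤
      2 * (Fintype.card I : ℝ) * Real.exp (M * (lam ^ 2 / 2)) := by
    rw [Ex_sum p univ (fun (i : I) ω => Real.exp (lam * ∑ j ∈ Js i, X i j ω) +
      Real.exp (-lam * ∑ j ∈ Js i, X i j ω))]
    calc ∑ i : I, Ex p (fun ω => Real.exp (lam * ∑ j ∈ Js i, X i j ω) +
          Real.exp (-lam * ∑ j ∈ Js i, X i j ω))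
        ≤ ∑ _i : I, (Real.exp (M * (lam ^ 2 / 2)) + Real.exp (M * (lam ^ 2 / 2))) := by
          apply Finset.sum_le_sum
          intro i _
          rw [Ex_add]
          have h1 := hmom i lam
          have h2 := hmom i (-lam)
          rw [neg_sq] at h2
          exact add_le_add h1 h2
      _ = _ := by
          rw [Finset.sum_const, card_univ, nsmul_eq_mul]
          ring
  obtain ⟨ω, hω, hω2⟩ := Ex_exists_le p hp hp1 _ _ htot
  refine ⟨ω, hω, fun i => ?_⟩
  have e2 : ∑ j ∈ Js i, f i j ω - ∑ j ∈ Js i, ∑ ω' : Γ → Ω, (∏ g, p g (ω' g)) * f i j ω' =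
      ∑ j ∈ Js i, X i j ω := by
    rw [← Finset.sum_sub_distrib]
    rfl
  rw [e2]
  set Y := ∑ j ∈ Js i, X i j ω with hY
  by_contra hcon
  push Not at hcon
  have h1 : Real.exp (lam * |Y|) ≤ Real.exp (lam * Y) + Real.exp (-lam * Y) := by
    rcases abs_cases Y with ⟨h, _⟩ | ⟨h, _⟩
    · rw [h]
      linarith [Real.exp_pos (-lam * Y)]
    · rw [h]
      have : lam * -Y = -lam * Y := by ring
      rw [this]
      linarith [Real.exp_pos (lam * Y)]
  have h2 : Real.exp (lam * Y) + Real.exp (-lam * Y) ≤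
      2 * (Fintype.card I : ℝ) * Real.exp (M * (lam ^ 2 / 2)) :=
    le_trans (Finset.single_le_sum (f := fun i : I => Real.exp (lam * ∑ j ∈ Js i, X i j ω) +
      Real.exp (-lam * ∑ j ∈ Js i, X i j ω)) (fun i _ => by positivity) (mem_univ i)) hω2
  have h3 : Real.exp (lam * (ξ * M)) ≤ Real.exp (lam * |Y|) := by
    apply Real.exp_le_exp.2
    exact mul_le_mul_of_nonneg_left hcon.le hξ0.le
  have h5 := h3.trans (h1.trans h2)
  have h6 : Real.exp (lam * (ξ * M)) = Real.exp (ξ ^ 2 * M / 2) * Real.exp (M * (lam ^ 2 / 2)) := by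
    rw [← Real.exp_add]
    congr 1
    rw [hlam]
    ring
  rw [h6] at h5
  have h7 := le_of_mul_le_mul_right h5 (Real.exp_pos _)
  have h8 : Real.exp (ξ ^ 2 * M / 2) * Real.exp (-(ξ ^ 2 * M / 2)) = 1 := by
    rw [← Real.exp_add, add_neg_cancel, Real.exp_zero]
  have h9 := mul_le_mul_of_nonneg_right h7 (Real.exp_pos (-(ξ ^ 2 * M / 2))).le
  linarith

end Pool.Agent.OBW
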