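import Mathlib
import Pool.Agent.OBW.TlHf

set_option autoImplicit false

/-!
OBW tools: random subsets (`rs : RsStmt`), equipartitions (`part : PartStmt`), subsets of exact size
(`sub : SubStmt`).
-/

namespace Pool.Agent.OBW

open Finset

/-- expectation of a product over the coordinates -/
theorem Ex_coord_prod {Γ Ω : Type} [Fintype Γ] [Fintype Ω] [DecidableEq Γ] (p h : Γ → Ω → ℝ) :
    Ex p (fun ω => ∏ g, h g (ω g)) = ∏ g, ∑ a, p g a * h g a := by
  classical
  unfold Ex
  have h1 := Finset.prod_univ_sum (fun _ : Γ => (Finset.univ : Finset Ω)) (fun g a => p g a * h g a)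
  rw [Fintype.piFinset_univ] at h1
  rw [h1]
  apply Finset.sum_congr rfl
  intro ω _
  rw [Finset.prod_mul_distrib]

theorem rs : RsStmt := by
  intro Ω I κ _ _ _ _ q Js B M ξ hq hB hM hM0 hξ0 hprob
  classical
  set p : Ω → Bool → ℝ := fun a b => if b then q a else 1 - q a with hp
  set f : I → κ → (Ω → Bool) → ℝ := fun i j ω => if ∀ a ∈ B i j, ω a = true then 1 else 0 with hfdef
  obtain ⟨ω, hω, hω2⟩ := hf Ω Bool I κ p Js B f M ξ
    (by
      intro a b
      simp only [hp]
      split_ifs
      · exact (hq a).1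
      · linarith [(hq a).2])
    (by
      intro a
      rw [Fintype.sum_bool]
      simp [hp])
    hB
    (by
      intro i j _ ω ω' h
      simp only [hfdef]
      have : (∀ a ∈ B i j, ω a = true) ↔ (∀ a ∈ B i j, ω' a = true) := by
        constructor
        · intro h1 a ha
          rw [← h a ha]; exact h1 a ha
        · intro h1 a ha
          rw [h a ha]; exact h1 a ha
      simp only [this])
    (by
      intro i j ω
      simp only [hfdef]
      split_ifs <;> norm_num)
    hM hM0 hξ0 hprob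
  have hexp : ∀ i j, ∑ ω' : Ω → Bool, (∏ g, p g (ω' g)) * f i j ω' = ∏ a ∈ B i j, q a := by
    intro i j
    have h1 := Ex_coord_prod p (fun a (b : Bool) => if a ∈ B i j then (if b then (1 : ℝ) else 0) else 1)
    have h2 : (fun ω : Ω → Bool => ∏ g, (if g ∈ B i j then (if ω g then (1 : ℝ) else 0) else 1)) =
        f i j := by
      funext ω
      simp only [hfdef]
      by_cases hall : ∀ a ∈ B i j, ω a = true
      · rw [if_pos hall]
        apply Finset.prod_eq_one
        intro g _
        by_cases hg : g ∈ B i j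
        · simp [hg, hall g hg]
        · simp [hg]
      · rw [if_neg hall]
        push Not at hall
        obtain ⟨a, ha, ha2⟩ := hall
        apply Finset.prod_eq_zero (mem_univ a)
        simp [ha, ha2]
    rw [h2] at h1
    unfold Ex at h1
    rw [h1]
    have h3 : ∀ g, ∑ b : Bool, p g b * (if g ∈ B i j then (if b then (1 : ℝ) else 0) else 1) =
        if g ∈ B i j then q g else 1 := by
      intro g
      rw [Fintype.sum_bool]
      by_cases hg : g ∈ B i j
      · simp [hg, hp]
      · simp [hg, hp]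
    rw [Finset.prod_congr rfl fun g _ => h3 g, Finset.prod_ite_mem, Finset.univ_inter]
  refine ⟨univ.filter fun a => ω a = true, ?_, ?_⟩
  · intro a ha
    have h1 := hω a
    have h2 : ω a = true := (mem_filter.1 ha).2
    rw [h2] at h1
    simpa [hp] using h1
  · intro i
    have h1 := hω2 i
    rw [Finset.sum_congr rfl fun j _ => hexp i j] at h1
    have h2 : ∑ j ∈ Js i, f i j ω =
        (((Js i).filter (fun j => B i j ⊆ univ.filter fun a => ω a = true)).card : ℝ) := by
      rw [Finset.card_filter]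
      push_cast
      apply Finset.sum_congr rfl
      intro j _
      simp only [hfdef]
      have : (∀ a ∈ B i j, ω a = true) ↔ B i j ⊆ univ.filter fun a => ω a = true := by
        constructor
        · intro h a ha
          exact mem_filter.2 ⟨mem_univ _, h a ha⟩
        · intro h a ha
          exact (mem_filter.1 (h ha)).2
      simp only [this]
    rw [h2] at h1
    exact h1

/-- core of the equipartition: the tests are pairs (test set, class) -/
theorem part_core (V Θ : Type) [DecidableEq V] [Fintype Θ] (W : Finset V) (l k : ℕ)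
    (T : Θ → Finset V) (c : Θ → ℕ) (ξ : ℝ) (hl : 0 < l) (hk : 0 < k) (hW : W.card = l * k)
    (hc : ∀ θ, c θ < l) (hξ : 0 < ξ)
    (hprob : 2 * (Fintype.card Θ : ℝ) * Real.exp (-(ξ ^ 2 * k / 2)) < 1) :
    ∃ f : V → ℕ, (∀ v ∈ W, f v < l) ∧ (∀ a < l, (W.filter (fun v => f v = a)).card = k) ∧
      ∀ θ, |((W.filter (fun v => f v = c θ ∧ v ∈ T θ)).card : ℝ) - ((W ∩ T θ).card : ℝ) / l| ≤
        ξ * k := by
  classical
  have : NeZero l := ⟨hl.ne'⟩
  -- enumeration of W by Fin k × Fin l
  have hcard : Fintype.card W = Fintype.card (Fin k × Fin l) := by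
    rw [Fintype.card_coe, Fintype.card_prod, Fintype.card_fin, Fintype.card_fin, hW, mul_comm]
  let e : W ≃ Fin k × Fin l := Fintype.equivOfCardEq hcard
  -- element with coordinates (j, b) gets the class b + s j
  set F : Θ → Fin k → (Fin k → Fin l) → ℝ := fun θ j s =>
    if ((e.symm (j, (Fin.ofNat l (c θ)) - s j) : W) : V) ∈ T θ then 1 else 0 with hF
  obtain ⟨s, -, hs⟩ := hf (Fin k) (Fin l) Θ (Fin k) (fun _ _ => 1 / (l : ℝ)) (fun _ => univ)
    (fun _ j => {j}) F k ξ
    (by intro _ _; positivity)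
    (by
      intro _
      rw [Finset.sum_const, card_univ, Fintype.card_fin, nsmul_eq_mul]
      field_simp)
    (by
      intro _ j _ j' _ hjj
      rw [Finset.disjoint_singleton]
      exact hjj)
    (by
      intro θ j _ ω ω' h
      simp only [hF]
      rw [h j (mem_singleton_self j)])
    (by
      intro θ j ω
      simp only [hF]
      split_ifs <;> norm_num)
    (by intro _; simp)
    (by exact_mod_cast hk) hξ hprob
  have hexp : ∀ θ, ∑ j ∈ (univ : Finset (Fin k)),
      ∑ ω' : Fin k → Fin l, (∏ g, (fun (_ : Fin k) (_ : Fin l) => 1 / (l : ℝ)) g (ω' g)) *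
      F θ j ω' = ((W ∩ T θ).card : ℝ) / l := by
    intro θ
    have h1 : ∀ j : Fin k, ∑ ω' : Fin k → Fin l,
        (∏ g, (fun (_ : Fin k) (_ : Fin l) => 1 / (l : ℝ)) g (ω' g)) * F θ j ω' =
        ∑ b : Fin l, 1 / (l : ℝ) * (if ((e.symm (j, b) : W) : V) ∈ T θ then (1 : ℝ) else 0) := by
      intro j
      have h2 := Ex_coord_prod (fun (_ : Fin k) (_ : Fin l) => 1 / (l : ℝ))
        (fun g a => if g = j then (if ((e.symm (j, (Fin.ofNat l (c θ)) - a) : W) : V) ∈ T θ then
          (1 : ℝ) else 0) else 1)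
      have h3 : (fun ω : Fin k → Fin l => ∏ g, (if g = j then
          (if ((e.symm (j, (Fin.ofNat l (c θ)) - ω g) : W) : V) ∈ T θ then (1 : ℝ) else 0) else 1)) =
          F θ j := by
        funext ω
        rw [Finset.prod_ite_eq' univ j]
        simp [hF]
      rw [h3] at h2
      unfold Ex at h2
      rw [h2]
      have h4 : ∀ g : Fin k, ∑ a : Fin l, 1 / (l : ℝ) * (if g = j then
          (if ((e.symm (j, (Fin.ofNat l (c θ)) - a) : W) : V) ∈ T θ then (1 : ℝ) else 0) else 1) =
          if g = j then ∑ a : Fin l, 1 / (l : ℝ) *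
            (if ((e.symm (j, (Fin.ofNat l (c θ)) - a) : W) : V) ∈ T θ then (1 : ℝ) else 0)
            else 1 := by
        intro g
        by_cases hg : g = j
        · simp [hg]
        · simp only [hg, if_false, mul_one]
          rw [Finset.sum_const, card_univ, Fintype.card_fin, nsmul_eq_mul]
          field_simp
      rw [Finset.prod_congr rfl fun g _ => h4 g, Finset.prod_ite_eq' univ j]
      simp only [mem_univ, if_true]
      exact Fintype.sum_equiv (Equiv.subLeft (Fin.ofNat l (c θ))) _ _ (fun a => rfl)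
    rw [Finset.sum_congr rfl fun j _ => h1 j]
    have h5 : ∑ j : Fin k, ∑ b : Fin l, 1 / (l : ℝ) *
        (if ((e.symm (j, b) : W) : V) ∈ T θ then (1 : ℝ) else 0) =
        1 / (l : ℝ) * ∑ w : W, (if (w : V) ∈ T θ then (1 : ℝ) else 0) := by
      rw [← Fintype.sum_prod_type' (f := fun (j : Fin k) (b : Fin l) => 1 / (l : ℝ) *
        (if ((e.symm (j, b) : W) : V) ∈ T θ then (1 : ℝ) else 0)), ← Finset.mul_sum]
      congr 1
      exact Equiv.sum_comp e.symm (fun w : W => if (w : V) ∈ T θ then (1 : ℝ) else 0)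
    rw [h5]
    have h6 : ∑ w : W, (if (w : V) ∈ T θ then (1 : ℝ) else 0) = ((W ∩ T θ).card : ℝ) := by
      rw [Finset.sum_coe_sort W (fun v => if v ∈ T θ then (1 : ℝ) else 0), Finset.sum_boole,
        Finset.filter_mem_eq_inter]
    rw [h6]
    ring
  -- the classes
  set f : V → ℕ := fun v => if h : v ∈ W then (((e ⟨v, h⟩).2 + s (e ⟨v, h⟩).1 : Fin l) : ℕ) else 0
    with hfd
  have hfw : ∀ (v : V) (h : v ∈ W), f v = (((e ⟨v, h⟩).2 + s (e ⟨v, h⟩).1 : Fin l) : ℕ) := by
    intro v h
    simp only [hfd, h, dif_pos]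
  -- counting in a class
  have hcount : ∀ (P : V → Prop) [DecidablePred P] (a : ℕ) (ha : a < l),
      (W.filter (fun v => f v = a ∧ P v)).card =
      ((univ : Finset (Fin k)).filter fun j => P (e.symm (j, (⟨a, ha⟩ : Fin l) - s j) : W)).card := by
    intro P _ a ha
    symm
    apply Finset.card_bij (fun j _ => ((e.symm (j, (⟨a, ha⟩ : Fin l) - s j) : W) : V))
    · intro j hj
      rw [mem_filter] at hj ⊢
      refine ⟨(e.symm (j, (⟨a, ha⟩ : Fin l) - s j)).2, ?_, hj.2⟩
      rw [hfw _ (e.symm (j, (⟨a, ha⟩ : Fin l) - s j)).2]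
      simp
    · intro j _ j' _ h
      have h1 := Subtype.ext h
      have h2 := e.symm.injective h1
      exact (Prod.ext_iff.1 h2).1
    · intro v hv
      rw [mem_filter] at hv
      obtain ⟨hvW, hva, hvP⟩ := hv
      rw [hfw v hvW] at hva
      have h1 : (e ⟨v, hvW⟩).2 = (⟨a, ha⟩ : Fin l) - s (e ⟨v, hvW⟩).1 := by
        rw [eq_sub_iff_add_eq]
        apply Fin.ext
        exact hva
      have h2 : e.symm ((e ⟨v, hvW⟩).1, (⟨a, ha⟩ : Fin l) - s (e ⟨v, hvW⟩).1) = ⟨v, hvW⟩ := by
        rw [← h1]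
        simp
      refine ⟨(e ⟨v, hvW⟩).1, ?_, ?_⟩
      · rw [mem_filter]
        refine ⟨mem_univ _, ?_⟩
        rw [h2]
        exact hvP
      · rw [h2]
  refine ⟨f, ?_, ?_, ?_⟩
  · intro v hv
    rw [hfw v hv]
    exact Fin.is_lt _
  · intro a ha
    have h1 := hcount (fun _ => True) a ha
    simpa using h1
  · intro θ
    have h1 := hs θ
    rw [hexp θ] at h1
    have h2 : ∑ j ∈ (univ : Finset (Fin k)), F θ j s =
        ((W.filter (fun v => f v = c θ ∧ v ∈ T θ)).card : ℝ) := by
      rw [hcount (fun v => v ∈ T θ) (c θ) (hc θ), Finset.card_filter]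
      push_cast
      apply Finset.sum_congr rfl
      intro j _
      simp only [hF]
      have : Fin.ofNat l (c θ) = (⟨c θ, hc θ⟩ : Fin l) := by
        apply Fin.ext
        simp [Nat.mod_eq_of_lt (hc θ)]
      rw [this]
    rw [h2] at h1
    exact h1

theorem part : PartStmt := by
  intro V I _ _ W l k T ξ hl hk hW hξ hprob
  obtain ⟨f, h1, h2, h3⟩ := part_core V (I × Fin l) W l k (fun θ => T θ.1) (fun θ => θ.2) ξ hl hk hW
    (fun θ => θ.2.2) hξ (by
      rw [Fintype.card_prod, Fintype.card_fin]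
      push_cast
      refine lt_of_eq_of_lt ?_ hprob
      ring)
  exact ⟨f, h1, h2, fun i a ha => h3 (i, ⟨a, ha⟩)⟩

theorem sub : SubStmt := by
  intro V I _ _ W g T ξ hg hξ hlarge hprob
  classical
  set k := W.card / g with hk
  have hgR : (0 : ℝ) < g := by exact_mod_cast hg
  have hk0 : 0 < k := by
    have h1 : (0 : ℝ) < (g : ℝ) / ξ := by positivity
    have h2 : (0 : ℝ) < (k : ℝ) := lt_of_lt_of_le h1 hlarge
    exact_mod_cast h2
  have hgk : g * k ≤ W.card := by
    rw [hk]; exact Nat.mul_div_le _ _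
  obtain ⟨W0, hW0, hW0c⟩ := Finset.exists_subset_card_eq hgk
  obtain ⟨f, h1, h2, h3⟩ := part_core V I W0 g k T (fun _ => 0) ξ hg hk0 hW0c (fun _ => hg) hξ hprob
  have hcard : (W0.filter (fun v => f v = 0)).card = k := h2 0 hg
  refine ⟨W0.filter (fun v => f v = 0), (filter_subset _ _).trans hW0, hcard, fun i => ?_⟩
  have h4 := h3 i
  have e1 : (W0.filter (fun v => f v = 0)) ∩ T i = W0.filter (fun v => f v = 0 ∧ v ∈ T i) := by
    ext v
    simp only [mem_inter, mem_filter]
    tauto
  rw [e1, hcard]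
  -- the difference of the two intersections
  have h5 : (W0 ∩ T i).card ≤ (W ∩ T i).card :=
    card_le_card (inter_subset_inter_right hW0)
  have h6 : (W ∩ T i).card ≤ (W0 ∩ T i).card + (W.card - W0.card) := by
    have h7 : W ∩ T i ⊆ (W0 ∩ T i) ∪ (W \ W0) := by
      intro v hv
      rw [mem_inter] at hv
      rw [mem_union, mem_inter, mem_sdiff]
      by_cases h : v ∈ W0
      · exact Or.inl ⟨h, hv.2⟩
      · exact Or.inr ⟨hv.1, h⟩
    refine (card_le_card h7).trans ((card_union_le _ _).trans ?_)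
    rw [card_sdiff_of_subset hW0]
  have h8 : W.card - W0.card < g := by
    rw [hW0c, hk]
    have := Nat.div_add_mod W.card g
    have h9 := Nat.mod_lt W.card hg
    omega
  have h10 : ((W ∩ T i).card : ℝ) ≤ (W0 ∩ T i).card + g := by
    have : (W ∩ T i).card ≤ (W0 ∩ T i).card + g := by omega
    exact_mod_cast this
  have h11 : ((W0 ∩ T i).card : ℝ) ≤ (W ∩ T i).card := by exact_mod_cast h5
  have h12 : (1 : ℝ) ≤ ξ * k := by
    have h13 : (g : ℝ) ≤ ξ * k := by
      rw [div_le_iff₀ hξ] at hlarge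
      linarith
    have h14 : (1 : ℝ) ≤ g := by exact_mod_cast hg
    linarith
  have h15 : ((W ∩ T i).card : ℝ) / g ≤ ((W0 ∩ T i).card : ℝ) / g + 1 := by
    rw [div_add_one hgR.ne']
    exact div_le_div_of_nonneg_right h10 hgR.le
  have h16 : ((W0 ∩ T i).card : ℝ) / g ≤ ((W ∩ T i).card : ℝ) / g :=
    div_le_div_of_nonneg_right h11 hgR.le
  rw [abs_le] at h4 ⊢
  constructor
  · linarith [h4.1]
  · linarith [h4.2]

end Pool.Agent.OBW
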