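import Mathlib
import Pool.Agent.OBW.RsD
import Pool.Agent.OBW.TlRs

set_option autoImplicit false

/-!
OBW: the reservation statement `res : ResStmt`.
-/

namespace Pool.Agent.OBW

theorem res : ResStmt := res_of_rs rs

end Pool.Agent.OBW
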