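import Pool.Agent.OBW.Basic
import Pool.Agent.OBW.Stmts

set_option autoImplicit false
set_option linter.unusedSectionVars false

/-! OBW, part RES: tests with vertex-indexed and colour-indexed blocks. -/

namespace Pool.Agent.OBW

open Finset

section
variable {V C : Type} [Fintype V] [DecidableEq V] [Fintype C] [DecidableEq C]

/-- block of the vertex `v`: edges to `X0`, pairs with `C0` -/
def blkV (X0 : Finset V) (C0 : Finset C) (v : V) : Finset (Item V C) :=
  X0.image (fun x => (Sum.inl s(x, v) : Item V C)) ∪ C0.image (fun c => (Sum.inr (v, c) : Item V C))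

/-- block of the colour `c`: pairs with `X0` -/
def blkC (X0 : Finset V) (c : C) : Finset (Item V C) :=
  X0.image (fun x => (Sum.inr (x, c) : Item V C))

theorem blkV_sub (R : Finset (Item V C)) (X0 : Finset V) (C0 : Finset C) (v : V) :
    blkV X0 C0 v ⊆ R ↔ (∀ x ∈ X0, v ∈ nb R x) ∧ (∀ c ∈ C0, v ∈ vt R c) := by
  unfold blkV
  rw [Finset.union_subset_iff, Finset.image_subset_iff, Finset.image_subset_iff]
  simp only [mem_nb, mem_vt]

theorem blkC_sub (R : Finset (Item V C)) (X0 : Finset V) (c : C) :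
    blkC X0 c ⊆ R ↔ (∀ x ∈ X0, c ∈ cl R x) := by
  unfold blkC
  rw [Finset.image_subset_iff]
  simp only [mem_cl]

theorem blkV_disj (S : Finset (Item V C)) (hl : ∀ u v, (Sum.inl s(u, v) : Item V C) ∈ S → u ≠ v)
    (X0 : Finset V) (C0 : Finset C) (v v' : V) (hv : ∀ x ∈ X0, v ∈ nb S x) (hvv : v ≠ v') :
    Disjoint (blkV X0 C0 v) (blkV X0 C0 v') := by
  rw [Finset.disjoint_left]
  intro a ha ha'
  unfold blkV at ha ha'
  simp only [Finset.mem_union, Finset.mem_image] at ha ha'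
  rcases ha with ⟨x, hx, rfl⟩ | ⟨c, hc, rfl⟩
  · rcases ha' with ⟨x', hx', h⟩ | ⟨c', hc', h⟩
    · have h1 := Sum.inl.inj h
      rw [Sym2.eq_iff] at h1
      rcases h1 with ⟨_, h2⟩ | ⟨h2, h3⟩
      · exact hvv h2.symm
      · -- x' = v, v' = x
        have h4 := hv x' hx'
        rw [h2, mem_nb] at h4
        exact hl _ _ h4 rfl
    · simp at h
  · rcases ha' with ⟨x', hx', h⟩ | ⟨c', hc', h⟩
    · simp at h
    · have h1 := Sum.inr.inj h
      exact hvv (Prod.ext_iff.1 h1).1.symm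

theorem blkC_disj (X0 : Finset V) (c c' : C) (hcc : c ≠ c') :
    Disjoint (blkC X0 c) (blkC X0 c') := by
  rw [Finset.disjoint_left]
  intro a ha ha'
  unfold blkC at ha ha'
  simp only [Finset.mem_image] at ha ha'
  obtain ⟨x, hx, rfl⟩ := ha
  obtain ⟨x', hx', h⟩ := ha'
  have h1 := Sum.inr.inj h
  exact hcc (Prod.ext_iff.1 h1).2.symm

theorem blkV_prod (q : Item V C → ℝ) (X0 : Finset V) (C0 : Finset C) (v : V) :
    ∏ a ∈ blkV X0 C0 v, q a = (∏ x ∈ X0, q (Sum.inl s(x, v))) * ∏ c ∈ C0, q (Sum.inr (v, c)) := by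
  unfold blkV
  rw [Finset.prod_union]
  · congr 1
    · rw [Finset.prod_image]
      intro x _ x' _ h
      have h1 := Sum.inl.inj h
      rw [Sym2.eq_iff] at h1
      rcases h1 with ⟨h2, _⟩ | ⟨h2, h3⟩
      · exact h2
      · exact h2.trans h3
    · rw [Finset.prod_image]
      intro c _ c' _ h
      have h1 := Sum.inr.inj h
      exact (Prod.ext_iff.1 h1).2
  · rw [Finset.disjoint_left]
    intro a ha ha'
    simp only [Finset.mem_image] at ha ha'
    obtain ⟨x, _, rfl⟩ := ha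
    obtain ⟨c, _, h⟩ := ha'
    simp at h

theorem blkC_prod (q : Item V C → ℝ) (X0 : Finset V) (c : C) :
    ∏ a ∈ blkC X0 c, q a = ∏ x ∈ X0, q (Sum.inr (x, c)) := by
  unfold blkC
  rw [Finset.prod_image]
  intro x _ x' _ h
  have h1 := Sum.inr.inj h
  exact (Prod.ext_iff.1 h1).1

/-- index sets of the tests -/
def JsT {I1 I2 : Type} (Z1 : I1 → Finset V) (Z2 : I2 → Finset C) : I1 ⊕ I2 → Finset (V ⊕ C)
  | Sum.inl i => (Z1 i).map ⟨Sum.inl, Sum.inl_injective⟩
  | Sum.inr i => (Z2 i).map ⟨Sum.inr, Sum.inr_injective⟩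

/-- blocks of the tests -/
def BT {I1 I2 : Type} (X1 : I1 → Finset V) (C1 : I1 → Finset C) (X2 : I2 → Finset V) :
    I1 ⊕ I2 → V ⊕ C → Finset (Item V C)
  | Sum.inl i, Sum.inl v => blkV (X1 i) (C1 i) v
  | Sum.inl _, Sum.inr _ => ∅
  | Sum.inr _, Sum.inl _ => ∅
  | Sum.inr i, Sum.inr c => blkC (X2 i) c

/-- random set of items with vertex-indexed tests and colour-indexed tests -/
theorem rs_tests (hRs : RsStmt) (S : Finset (Item V C))
    (hl : ∀ u v, (Sum.inl s(u, v) : Item V C) ∈ S → u ≠ v)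
    (q : Item V C → ℝ) (hq : ∀ a, 0 ≤ q a ∧ q a ≤ 1)
    (I1 I2 : Type) [Fintype I1] [Fintype I2]
    (X1 : I1 → Finset V) (C1 : I1 → Finset C) (Z1 : I1 → Finset V)
    (X2 : I2 → Finset V) (Z2 : I2 → Finset C)
    (hZ1 : ∀ i, ∀ x ∈ X1 i, Z1 i ⊆ nb S x)
    (M ξ : ℝ) (hc1 : ∀ i, ((Z1 i).card : ℝ) ≤ M) (hc2 : ∀ i, ((Z2 i).card : ℝ) ≤ M)
    (hM : 0 < M) (hξ : 0 < ξ)
    (hcard : 2 * ((Fintype.card I1 : ℝ) + Fintype.card I2) * Real.exp (-(ξ ^ 2 * M / 2)) < 1) :
    ∃ R : Finset (Item V C), (∀ a ∈ R, 0 < q a) ∧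
      (∀ i, |(((Z1 i).filter (fun v => (∀ x ∈ X1 i, v ∈ nb R x) ∧ (∀ c ∈ C1 i, v ∈ vt R c))).card : ℝ) -
        ∑ v ∈ Z1 i, (∏ x ∈ X1 i, q (Sum.inl s(x, v))) * ∏ c ∈ C1 i, q (Sum.inr (v, c))| ≤ ξ * M) ∧
      (∀ i, |(((Z2 i).filter (fun c => ∀ x ∈ X2 i, c ∈ cl R x)).card : ℝ) -
        ∑ c ∈ Z2 i, ∏ x ∈ X2 i, q (Sum.inr (x, c))| ≤ ξ * M) := by
  have hd : ∀ i, ∀ j ∈ JsT Z1 Z2 i, ∀ j' ∈ JsT Z1 Z2 i, j ≠ j' →
      Disjoint (BT X1 C1 X2 i j) (BT X1 C1 X2 i j') := by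
    intro i
    cases i with
    | inl i =>
      intro j hj j' hj' hjj
      simp only [JsT, Finset.mem_map, Function.Embedding.coeFn_mk] at hj hj'
      obtain ⟨v, hv, rfl⟩ := hj
      obtain ⟨v', hv', rfl⟩ := hj'
      simp only [BT]
      exact blkV_disj S hl _ _ _ _ (fun x hx => hZ1 i x hx hv) (fun h => hjj (by rw [h]))
    | inr i =>
      intro j hj j' hj' hjj
      simp only [JsT, Finset.mem_map, Function.Embedding.coeFn_mk] at hj hj'
      obtain ⟨c, hc, rfl⟩ := hj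
      obtain ⟨c', hc', rfl⟩ := hj'
      simp only [BT]
      exact blkC_disj _ _ _ (fun h => hjj (by rw [h]))
  have hcM : ∀ i, ((JsT Z1 Z2 i).card : ℝ) ≤ M := by
    intro i
    cases i with
    | inl i => simp only [JsT, Finset.card_map]; exact hc1 i
    | inr i => simp only [JsT, Finset.card_map]; exact hc2 i
  have hcard' : 2 * (Fintype.card (I1 ⊕ I2) : ℝ) * Real.exp (-(ξ ^ 2 * M / 2)) < 1 := by
    rw [Fintype.card_sum]
    push_cast
    exact hcard
  obtain ⟨R, hR, hT⟩ := hRs (Item V C) (I1 ⊕ I2) (V ⊕ C) q (JsT Z1 Z2) (BT X1 C1 X2) M ξ hq hd hcM hM hξ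
    hcard'
  refine ⟨R, hR, fun i => ?_, fun i => ?_⟩
  · have h := hT (Sum.inl i)
    have e1 : ((JsT Z1 Z2 (Sum.inl i)).filter (fun j => BT X1 C1 X2 (Sum.inl i) j ⊆ R)).card =
        ((Z1 i).filter (fun v => (∀ x ∈ X1 i, v ∈ nb R x) ∧ (∀ c ∈ C1 i, v ∈ vt R c))).card := by
      symm
      refine Finset.card_bij (fun v _ => Sum.inl v) ?_ ?_ ?_
      · intro v hv
        rw [Finset.mem_filter] at hv ⊢
        refine ⟨?_, ?_⟩
        · simp only [JsT, Finset.mem_map, Function.Embedding.coeFn_mk]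
          exact ⟨v, hv.1, rfl⟩
        · simp only [BT]
          rw [blkV_sub]
          exact hv.2
      · intro v _ v' _ h
        exact Sum.inl_injective h
      · intro j hj
        rw [Finset.mem_filter] at hj
        obtain ⟨hj1, hj2⟩ := hj
        simp only [JsT, Finset.mem_map, Function.Embedding.coeFn_mk] at hj1
        obtain ⟨v, hv, rfl⟩ := hj1
        simp only [BT] at hj2
        rw [blkV_sub] at hj2
        exact ⟨v, Finset.mem_filter.mpr ⟨hv, hj2⟩, rfl⟩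
    have e2 : ∑ j ∈ JsT Z1 Z2 (Sum.inl i), ∏ a ∈ BT X1 C1 X2 (Sum.inl i) j, q a =
        ∑ v ∈ Z1 i, (∏ x ∈ X1 i, q (Sum.inl s(x, v))) * ∏ c ∈ C1 i, q (Sum.inr (v, c)) := by
      simp only [JsT]
      rw [Finset.sum_map]
      refine Finset.sum_congr rfl (fun v _ => ?_)
      simp only [Function.Embedding.coeFn_mk, BT]
      exact blkV_prod q _ _ _
    rw [e1, e2] at h
    exact h
  · have h := hT (Sum.inr i)
    have e1 : ((JsT Z1 Z2 (Sum.inr i)).filter (fun j => BT X1 C1 X2 (Sum.inr i) j ⊆ R)).card =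
        ((Z2 i).filter (fun c => ∀ x ∈ X2 i, c ∈ cl R x)).card := by
      symm
      refine Finset.card_bij (fun v _ => Sum.inr v) ?_ ?_ ?_
      · intro v hv
        rw [Finset.mem_filter] at hv ⊢
        refine ⟨?_, ?_⟩
        · simp only [JsT, Finset.mem_map, Function.Embedding.coeFn_mk]
          exact ⟨v, hv.1, rfl⟩
        · simp only [BT]
          rw [blkC_sub]
          exact hv.2
      · intro v _ v' _ h
        exact Sum.inr_injective h
      · intro j hj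
        rw [Finset.mem_filter] at hj
        obtain ⟨hj1, hj2⟩ := hj
        simp only [JsT, Finset.mem_map, Function.Embedding.coeFn_mk] at hj1
        obtain ⟨v, hv, rfl⟩ := hj1
        simp only [BT] at hj2
        rw [blkC_sub] at hj2
        exact ⟨v, Finset.mem_filter.mpr ⟨hv, hj2⟩, rfl⟩
    have e2 : ∑ j ∈ JsT Z1 Z2 (Sum.inr i), ∏ a ∈ BT X1 C1 X2 (Sum.inr i) j, q a =
        ∑ c ∈ Z2 i, ∏ x ∈ X2 i, q (Sum.inr (x, c)) := by
      simp only [JsT]
      rw [Finset.sum_map]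
      refine Finset.sum_congr rfl (fun v _ => ?_)
      simp only [Function.Embedding.coeFn_mk, BT]
      exact blkC_prod q _ _
    rw [e1, e2] at h
    exact h

end

end Pool.Agent.OBW
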