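import Pool.Agent.OBW.RsA

set_option autoImplicit false
set_option linter.unusedSectionVars false

/-! OBW, part RES: the random reserve and all its tests. -/

namespace Pool.Agent.OBW

open Finset

section
variable {V C : Type} [Fintype V] [DecidableEq V] [Fintype C] [DecidableEq C]

/-- outcome of the random choice -/
structure RsOut (p t : ℝ) (qx : V → ℝ) (U U' U'' : Finset V) (D D' D'' : Finset C)
    (S R : Finset (Item V C)) : Prop where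
  sub : R ⊆ S
  kE : ∀ u v, (Sum.inl s(u, v) : Item V C) ∈ R → (u ∈ U' ∧ v ∉ U') ∨ (v ∈ U' ∧ u ∉ U')
  kP : ∀ v c, (Sum.inr (v, c) : Item V C) ∈ R → (v ∉ U' ∧ c ∈ D') ∨ (v ∈ U' ∧ c ∉ D')
  o0 : ∀ x ∈ U \ U', |((nb R x).card : ℝ) - p * ((nb S x ∩ U').card : ℝ)| ≤ t
  o1 : ∀ c ∈ D \ D', |((vt R c).card : ℝ) - p * ((vt S c ∩ U').card : ℝ)| ≤ t
  o2 : ∀ u ∈ U', |((nb R u).card : ℝ) - p * ((nb S u \ U').card : ℝ)| ≤ t
  o3 : ∀ c ∈ D', |((vt R c).card : ℝ) - ∑ x ∈ vt S c \ U', qx x| ≤ t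
  o4 : ∀ x ∈ U \ U', ∀ y ∈ U \ U', x ≠ y →
    |((nb R x ∩ nb R y).card : ℝ) - p ^ 2 * ((nb S x ∩ nb S y ∩ U').card : ℝ)| ≤ t
  o5 : ∀ x ∈ U \ U', ∀ y ∈ U \ U', x ≠ y →
    |(((nb R x ∩ nb R y) \ U'').card : ℝ) - p ^ 2 * (((nb S x ∩ nb S y ∩ U') \ U'').card : ℝ)| ≤ t
  o6 : ∀ c ∈ D \ D', ∀ d ∈ D \ D', c ≠ d →
    |((vt R c ∩ vt R d).card : ℝ) - p ^ 2 * ((vt S c ∩ vt S d ∩ U').card : ℝ)| ≤ t
  o7 : ∀ x ∈ U \ U', ∀ c ∈ D \ D',
    |((nb R x ∩ vt R c).card : ℝ) - p ^ 2 * ((nb S x ∩ vt S c ∩ U').card : ℝ)| ≤ t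
  o8 : ∀ u ∈ U', ∀ c ∈ D \ D',
    |((nb S u ∩ vt R c).card : ℝ) - p * ((nb S u ∩ vt S c ∩ U').card : ℝ)| ≤ t
  o9 : ∀ u ∈ U', ∀ x ∈ U \ U',
    |((nb S u ∩ nb R x).card : ℝ) - p * ((nb S u ∩ nb S x ∩ U').card : ℝ)| ≤ t
  o10 : ∀ x ∈ U \ U', |((nb R x ∩ U'').card : ℝ) - p * ((nb S x ∩ U'').card : ℝ)| ≤ t
  o11 : ∀ c ∈ D \ D', |((vt R c ∩ U'').card : ℝ) - p * ((vt S c ∩ U'').card : ℝ)| ≤ t
  o12 : ∀ u ∈ U', ∀ x ∈ U \ U', ∀ c ∈ D \ D',
    |(((nb S u ∩ nb R x ∩ vt R c) \ U'').card : ℝ) -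
      p ^ 2 * (((nb S u ∩ nb S x ∩ vt S c ∩ U') \ U'').card : ℝ)| ≤ t
  o13 : ∀ u ∈ U', ∀ v ∈ U', ∀ c ∈ D \ D',
    |(((nb S u ∩ nb S v ∩ vt R c) \ U'').card : ℝ) -
      p * (((nb S u ∩ nb S v ∩ vt S c ∩ U') \ U'').card : ℝ)| ≤ t
  c0 : ∀ x ∈ U \ U', |((cl R x).card : ℝ) - qx x * ((cl S x ∩ D').card : ℝ)| ≤ t
  c1 : ∀ u ∈ U', |((cl R u).card : ℝ) - p * ((cl S u \ D').card : ℝ)| ≤ t
  c2 : ∀ x ∈ U \ U', ∀ y ∈ U \ U', x ≠ y →
    |((cl R x ∩ cl R y).card : ℝ) - qx x * qx y * ((cl S x ∩ cl S y ∩ D').card : ℝ)| ≤ t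
  c3 : ∀ x ∈ U \ U', |((cl R x ∩ D'').card : ℝ) - qx x * ((cl S x ∩ D'').card : ℝ)| ≤ t

/-- inclusion probabilities -/
noncomputable def rsq (p : ℝ) (qx : V → ℝ) (U' : Finset V) (D' : Finset C) (S : Finset (Item V C)) :
    Item V C → ℝ := by
  classical exact fun a => match a with
    | Sum.inl e => if (Sum.inl e : Item V C) ∈ S ∧ (∃ u v, e = s(u, v) ∧ u ∈ U' ∧ v ∉ U') then p else 0
    | Sum.inr (v, c) => if (Sum.inr (v, c) : Item V C) ∈ S then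
        (if v ∈ U' then (if c ∈ D' then 0 else p) else (if c ∈ D' then qx v else 0)) else 0

theorem rsq_E (p : ℝ) (qx : V → ℝ) (U' : Finset V) (D' : Finset C) (S : Finset (Item V C))
    (x v : V) (hx : x ∉ U') (hv : v ∈ U') (h : v ∈ nb S x) :
    rsq p qx U' D' S (Sum.inl s(x, v)) = p := by
  classical
  unfold rsq
  simp only
  rw [if_pos]
  rw [mem_nb] at h
  exact ⟨h, v, x, Sym2.eq_swap, hv, hx⟩

theorem rsq_E' (p : ℝ) (qx : V → ℝ) (U' : Finset V) (D' : Finset C) (S : Finset (Item V C))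
    (x v : V) (hx : x ∈ U') (hv : v ∉ U') (h : v ∈ nb S x) :
    rsq p qx U' D' S (Sum.inl s(x, v)) = p := by
  classical
  unfold rsq
  simp only
  rw [if_pos]
  rw [mem_nb] at h
  exact ⟨h, x, v, rfl, hx, hv⟩

theorem rsq_P (p : ℝ) (qx : V → ℝ) (U' : Finset V) (D' : Finset C) (S : Finset (Item V C))
    (v : V) (c : C) (hv : v ∈ U') (hc : c ∉ D') (h : v ∈ vt S c) :
    rsq p qx U' D' S (Sum.inr (v, c)) = p := by
  classical
  rw [mem_vt] at h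
  unfold rsq
  simp only
  rw [if_pos h, if_pos hv, if_neg hc]

theorem rsq_X (p : ℝ) (qx : V → ℝ) (U' : Finset V) (D' : Finset C) (S : Finset (Item V C))
    (v : V) (c : C) (hv : v ∉ U') (hc : c ∈ D') (h : (Sum.inr (v, c) : Item V C) ∈ S) :
    rsq p qx U' D' S (Sum.inr (v, c)) = qx v := by
  classical
  unfold rsq
  simp only
  rw [if_pos h, if_neg hv, if_pos hc]

theorem rsq_bounds (p : ℝ) (qx : V → ℝ) (U' : Finset V) (D' : Finset C) (S : Finset (Item V C))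
    (hp : 0 ≤ p ∧ p ≤ 1) (hqx : ∀ v, 0 ≤ qx v ∧ qx v ≤ 1) (a : Item V C) :
    0 ≤ rsq p qx U' D' S a ∧ rsq p qx U' D' S a ≤ 1 := by
  classical
  unfold rsq
  rcases a with e | ⟨v, c⟩
  · simp only
    split_ifs
    · exact hp
    · exact ⟨le_rfl, zero_le_one⟩
  · simp only
    split_ifs
    · exact ⟨le_rfl, zero_le_one⟩
    · exact hp
    · exact hqx v
    · exact ⟨le_rfl, zero_le_one⟩
    · exact ⟨le_rfl, zero_le_one⟩

theorem rsq_pos (p : ℝ) (qx : V → ℝ) (U' : Finset V) (D' : Finset C) (S : Finset (Item V C))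
    (a : Item V C) (h : 0 < rsq p qx U' D' S a) : a ∈ S ∧
    (∀ u v, a = Sum.inl s(u, v) → (u ∈ U' ∧ v ∉ U') ∨ (v ∈ U' ∧ u ∉ U')) ∧
    (∀ v c, a = Sum.inr (v, c) → (v ∉ U' ∧ c ∈ D') ∨ (v ∈ U' ∧ c ∉ D')) := by
  classical
  unfold rsq at h
  rcases a with e | ⟨v, c⟩
  · simp only at h
    split_ifs at h with h1
    · obtain ⟨h2, u, v, rfl, hu, hv⟩ := h1
      refine ⟨h2, ?_, ?_⟩
      · intro u' v' he
        have h3 := Sum.inl.inj he
        rw [Sym2.eq_iff] at h3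
        rcases h3 with ⟨rfl, rfl⟩ | ⟨rfl, rfl⟩
        · exact Or.inl ⟨hu, hv⟩
        · exact Or.inr ⟨hu, hv⟩
      · intro v' c' he
        simp at he
    · exact absurd h (lt_irrefl _)
  · simp only at h
    split_ifs at h with h1 h2 h3 h3
    · exact absurd h (lt_irrefl _)
    · refine ⟨h1, ?_, ?_⟩
      · intro u' v' he
        simp at he
      · intro v' c' he
        have h4 := Sum.inr.inj he
        rw [Prod.ext_iff] at h4
        obtain ⟨h5, h6⟩ := h4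
        simp only at h5 h6
        subst h5 h6
        exact Or.inr ⟨h2, h3⟩
    · refine ⟨h1, ?_, ?_⟩
      · intro u' v' he
        simp at he
      · intro v' c' he
        have h4 := Sum.inr.inj he
        rw [Prod.ext_iff] at h4
        obtain ⟨h5, h6⟩ := h4
        simp only at h5 h6
        subst h5 h6
        exact Or.inl ⟨h2, h3⟩
    · exact absurd h (lt_irrefl _)
    · exact absurd h (lt_irrefl _)

def X1f (k : Fin 14) (x y : V) : Finset V := match k with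
  | 0 => {x} | 1 => ∅ | 2 => {x} | 3 => ∅ | 4 => {x, y} | 5 => {x, y} | 6 => ∅ | 7 => {x} | 8 => ∅
  | 9 => {y} | 10 => {x} | 11 => ∅ | 12 => {y} | 13 => ∅

def C1f (k : Fin 14) (c d : C) : Finset C := match k with
  | 0 => ∅ | 1 => {c} | 2 => ∅ | 3 => {c} | 4 => ∅ | 5 => ∅ | 6 => {c, d} | 7 => {c} | 8 => {c}
  | 9 => ∅ | 10 => ∅ | 11 => {c} | 12 => {c} | 13 => {c}

def Z1f (U' U'' : Finset V) (S : Finset (Item V C)) (k : Fin 14) (x y : V) (c d : C) : Finset V :=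
  match k with
  | 0 => nb S x ∩ U'
  | 1 => vt S c ∩ U'
  | 2 => nb S x \ U'
  | 3 => vt S c \ U'
  | 4 => nb S x ∩ nb S y ∩ U'
  | 5 => (nb S x ∩ nb S y ∩ U') \ U''
  | 6 => vt S c ∩ vt S d ∩ U'
  | 7 => nb S x ∩ vt S c ∩ U'
  | 8 => nb S x ∩ vt S c ∩ U'
  | 9 => nb S x ∩ nb S y ∩ U'
  | 10 => nb S x ∩ U''
  | 11 => vt S c ∩ U''
  | 12 => (nb S x ∩ nb S y ∩ vt S c ∩ U') \ U''
  | 13 => (nb S x ∩ nb S y ∩ vt S c ∩ U') \ U''

def X2f (k : Fin 4) (x y : V) : Finset V := match k with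
  | 0 => {x} | 1 => {x} | 2 => {x, y} | 3 => {x}

def Z2f (D' D'' : Finset C) (S : Finset (Item V C)) (k : Fin 4) (x y : V) : Finset C := match k with
  | 0 => cl S x ∩ D'
  | 1 => cl S x \ D'
  | 2 => cl S x ∩ cl S y ∩ D'
  | 3 => cl S x ∩ D''

theorem Z1f_sub (U' U'' : Finset V) (S : Finset (Item V C)) (k : Fin 14) (x y : V) (c d : C) :
    ∀ z ∈ X1f k x y, Z1f U' U'' S k x y c d ⊆ nb S z := by
  intro z hz v hv
  fin_cases k <;> simp only [X1f, Z1f, Finset.mem_singleton, Finset.mem_insert, Finset.notMem_empty,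
    Finset.mem_inter, Finset.mem_sdiff, mem_nb] at hz hv ⊢ <;>
    first
      | (subst hz; tauto)
      | (rcases hz with rfl | rfl <;> tauto)

theorem Z1f_card (U U' U'' : Finset V) (D : Finset C) (S : Finset (Item V C)) (hin : Inside U D S)
    (k : Fin 14) (x y : V) (c d : C) : Z1f U' U'' S k x y c d ⊆ U := by
  have hn : ∀ x, nb S x ⊆ U := by
    intro x v hv
    rw [mem_nb] at hv
    exact (hin.1 _ _ hv).2.2
  have hv : ∀ c, vt S c ⊆ U := by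
    intro c v hv
    rw [mem_vt] at hv
    exact (hin.2 _ _ hv).1
  intro v hv'
  have h1 := hn x
  have h2 := hv c
  fin_cases k <;> simp only [Z1f, Finset.mem_inter, Finset.mem_sdiff] at hv' <;>
    first
      | exact h1 hv'.1
      | exact h2 hv'.1
      | exact h1 hv'.1.1
      | exact h2 hv'.1.1
      | exact h1 hv'.1.1.1
      | exact h1 hv'.1.1.1.1

theorem Z2f_card (U : Finset V) (D D' D'' : Finset C) (S : Finset (Item V C)) (hin : Inside U D S)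
    (k : Fin 4) (x y : V) : Z2f D' D'' S k x y ⊆ D := by
  have hn : ∀ x, cl S x ⊆ D := by
    intro x v hv
    rw [mem_cl] at hv
    exact (hin.2 _ _ hv).2
  intro v hv'
  have h1 := hn x
  fin_cases k <;> simp only [Z2f, Finset.mem_inter, Finset.mem_sdiff] at hv' <;>
    first
      | exact h1 hv'.1
      | exact h1 hv'.1.1

end

end Pool.Agent.OBW
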