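import Pool.Agent.OBW.RsB

set_option autoImplicit false
set_option linter.unusedSectionVars false

/-! OBW, part RES: existence of the random reserve with all its tests. -/

namespace Pool.Agent.OBW

open Finset

section
variable {V C : Type} [Fintype V] [DecidableEq V] [Fintype C] [DecidableEq C]

theorem rs_sum_const {ι : Type} (Z : Finset ι) (f : ι → ℝ) (a : ℝ) (h : ∀ v ∈ Z, f v = a) :
    ∑ v ∈ Z, f v = a * Z.card := by
  rw [Finset.sum_congr rfl h, Finset.sum_const, nsmul_eq_mul]; ring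

theorem rs_out (hRs : RsStmt) (p t : ℝ) (qx : V → ℝ) (U U' U'' : Finset V) (D D' D'' : Finset C)
    (S : Finset (Item V C)) (hin : Inside U D S) (hU' : U' ⊆ U) (hU'' : U'' ⊆ U') (hD' : D' ⊆ D)
    (hD'' : D'' ⊆ D') (hUn : U.Nonempty) (hDn : D.Nonempty) (hDU : D.card ≤ U.card)
    (hp : 0 ≤ p ∧ p ≤ 1) (hqx : ∀ v, 0 ≤ qx v ∧ qx v ≤ 1) (ξ : ℝ) (hξ : 0 < ξ)
    (ht : ξ * U.card ≤ t)
    (hcard : 40 * (U.card : ℝ) ^ 4 * Real.exp (-(ξ ^ 2 * (U.card : ℝ) / 2)) < 1) :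
    ∃ R : Finset (Item V C), RsOut p t qx U U' U'' D D' D'' S R := by
  classical
  have hU0 : (0 : ℝ) < U.card := by exact_mod_cast Finset.card_pos.mpr hUn
  have hU1 : (1 : ℝ) ≤ U.card := by exact_mod_cast Finset.card_pos.mpr hUn
  have hl : ∀ u v, (Sum.inl s(u, v) : Item V C) ∈ S → u ≠ v := fun u v h => (hin.1 u v h).1
  have hcI : 2 * ((Fintype.card (Fin 14 × ({x // x ∈ U} × {x // x ∈ U} × {c // c ∈ D} × {c // c ∈ D})) : ℝ) +
      Fintype.card (Fin 4 × ({x // x ∈ U} × {x // x ∈ U}))) *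
      Real.exp (-(ξ ^ 2 * (U.card : ℝ) / 2)) < 1 := by
    refine lt_of_le_of_lt ?_ hcard
    have e1 : (Fintype.card (Fin 14 × ({x // x ∈ U} × {x // x ∈ U} × {c // c ∈ D} × {c // c ∈ D})) : ℝ) ≤
        14 * (U.card : ℝ) ^ 4 := by
      simp only [Fintype.card_prod, Fintype.card_fin, Fintype.card_coe]
      push_cast
      have h1 : (D.card : ℝ) ≤ U.card := by exact_mod_cast hDU
      have h2 : (0 : ℝ) ≤ D.card := Nat.cast_nonneg _
      calc (14 : ℝ) * ((U.card : ℝ) * ((U.card : ℝ) * ((D.card : ℝ) * D.card)))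
          ≤ 14 * ((U.card : ℝ) * ((U.card : ℝ) * ((U.card : ℝ) * U.card))) := by gcongr
        _ = _ := by ring
    have e2 : (Fintype.card (Fin 4 × ({x // x ∈ U} × {x // x ∈ U})) : ℝ) ≤ 4 * (U.card : ℝ) ^ 4 := by
      simp only [Fintype.card_prod, Fintype.card_fin, Fintype.card_coe]
      push_cast
      have h3 : (U.card : ℝ) ^ 2 ≤ (U.card : ℝ) ^ 4 := pow_le_pow_right₀ hU1 (by norm_num)
      nlinarith
    have e3 : (0 : ℝ) ≤ (U.card : ℝ) ^ 4 := by positivity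
    have e4 : 2 * ((Fintype.card (Fin 14 × ({x // x ∈ U} × {x // x ∈ U} × {c // c ∈ D} × {c // c ∈ D})) : ℝ) +
      Fintype.card (Fin 4 × ({x // x ∈ U} × {x // x ∈ U}))) ≤ 40 * (U.card : ℝ) ^ 4 := by linarith
    have e5 := Real.exp_pos (-(ξ ^ 2 * (U.card : ℝ) / 2))
    gcongr
  obtain ⟨R, hR, hT1, hT2⟩ := rs_tests hRs S hl (rsq p qx U' D' S) (rsq_bounds p qx U' D' S hp hqx)
    (Fin 14 × ({x // x ∈ U} × {x // x ∈ U} × {c // c ∈ D} × {c // c ∈ D}))
    (Fin 4 × ({x // x ∈ U} × {x // x ∈ U}))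
    (fun i => X1f i.1 i.2.1.1 i.2.2.1.1) (fun i => C1f i.1 i.2.2.2.1.1 i.2.2.2.2.1)
    (fun i => Z1f U' U'' S i.1 i.2.1.1 i.2.2.1.1 i.2.2.2.1.1 i.2.2.2.2.1)
    (fun i => X2f i.1 i.2.1.1 i.2.2.1) (fun i => Z2f D' D'' S i.1 i.2.1.1 i.2.2.1)
    (fun i => Z1f_sub U' U'' S _ _ _ _ _) (U.card : ℝ) ξ
    (fun i => by exact_mod_cast Finset.card_le_card (Z1f_card U U' U'' D S hin _ _ _ _ _))
    (fun i => by
      exact_mod_cast (Finset.card_le_card (Z2f_card U D D' D'' S hin _ _ _)).trans hDU)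
    hU0 hξ hcI
  obtain ⟨x0, hx0⟩ := hUn
  obtain ⟨d0, hd0⟩ := hDn
  have hpos := fun a ha => rsq_pos p qx U' D' S a (hR a ha)
  have hsub : R ⊆ S := fun a ha => (hpos a ha).1
  have hkE : ∀ u v, (Sum.inl s(u, v) : Item V C) ∈ R → (u ∈ U' ∧ v ∉ U') ∨ (v ∈ U' ∧ u ∉ U') :=
    fun u v h => (hpos _ h).2.1 u v rfl
  have hkP : ∀ v c, (Sum.inr (v, c) : Item V C) ∈ R → (v ∉ U' ∧ c ∈ D') ∨ (v ∈ U' ∧ c ∉ D') :=
    fun v c h => (hpos _ h).2.2 v c rfl
  have T1 : ∀ (k : Fin 14) (x y : V) (c d : C), x ∈ U → y ∈ U → c ∈ D → d ∈ D →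
      |(((Z1f U' U'' S k x y c d).filter (fun v => (∀ z ∈ X1f k x y, v ∈ nb R z) ∧
        (∀ e ∈ C1f k c d, v ∈ vt R e))).card : ℝ) -
        ∑ v ∈ Z1f U' U'' S k x y c d, (∏ z ∈ X1f k x y, rsq p qx U' D' S (Sum.inl s(z, v))) *
          ∏ e ∈ C1f k c d, rsq p qx U' D' S (Sum.inr (v, e))| ≤ t :=
    fun k x y c d hx hy hc hd => (hT1 (k, ⟨x, hx⟩, ⟨y, hy⟩, ⟨c, hc⟩, ⟨d, hd⟩)).trans ht
  have T2 : ∀ (k : Fin 4) (x y : V), x ∈ U → y ∈ U →
      |(((Z2f D' D'' S k x y).filter (fun c => ∀ z ∈ X2f k x y, c ∈ cl R z)).card : ℝ) -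
        ∑ c ∈ Z2f D' D'' S k x y, ∏ z ∈ X2f k x y, rsq p qx U' D' S (Sum.inr (z, c))| ≤ t :=
    fun k x y hx hy => (hT2 (k, ⟨x, hx⟩, ⟨y, hy⟩)).trans ht
  -- location of neighbourhoods
  have nbU' : ∀ x, x ∉ U' → ∀ v, v ∈ nb R x → v ∈ nb S x ∧ v ∈ U' := by
    intro x hx v hv
    rw [mem_nb] at hv
    refine ⟨(mem_nb S x v).mpr (hsub hv), ?_⟩
    rcases hkE _ _ hv with h | h
    · exact absurd h.1 hx
    · exact h.1
  have nbU : ∀ x, x ∈ U' → ∀ v, v ∈ nb R x → v ∈ nb S x ∧ v ∉ U' := by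
    intro x hx v hv
    rw [mem_nb] at hv
    refine ⟨(mem_nb S x v).mpr (hsub hv), ?_⟩
    rcases hkE _ _ hv with h | h
    · exact h.2
    · exact absurd hx h.2
  have vtU' : ∀ c, c ∉ D' → ∀ v, v ∈ vt R c → v ∈ vt S c ∧ v ∈ U' := by
    intro c hc v hv
    rw [mem_vt] at hv
    refine ⟨(mem_vt S v c).mpr (hsub hv), ?_⟩
    rcases hkP _ _ hv with h | h
    · exact absurd h.2 hc
    · exact h.1
  have vtX : ∀ c, c ∈ D' → ∀ v, v ∈ vt R c → v ∈ vt S c ∧ v ∉ U' := by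
    intro c hc v hv
    rw [mem_vt] at hv
    refine ⟨(mem_vt S v c).mpr (hsub hv), ?_⟩
    rcases hkP _ _ hv with h | h
    · exact h.1
    · exact absurd hc h.2
  have clX : ∀ x, x ∉ U' → ∀ c, c ∈ cl R x → c ∈ cl S x ∧ c ∈ D' := by
    intro x hx c hc
    rw [mem_cl] at hc
    refine ⟨(mem_cl S x c).mpr (hsub hc), ?_⟩
    rcases hkP _ _ hc with h | h
    · exact h.2
    · exact absurd h.1 hx
  have clU : ∀ x, x ∈ U' → ∀ c, c ∈ cl R x → c ∈ cl S x ∧ c ∉ D' := by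
    intro x hx c hc
    rw [mem_cl] at hc
    refine ⟨(mem_cl S x c).mpr (hsub hc), ?_⟩
    rcases hkP _ _ hc with h | h
    · exact absurd hx h.1
    · exact h.2
  refine ⟨R, hsub, hkE, hkP, ?_, ?_, ?_, ?_, ?_, ?_, ?_, ?_, ?_, ?_, ?_, ?_, ?_, ?_, ?_, ?_, ?_, ?_⟩
  · intro x hx
    rw [Finset.mem_sdiff] at hx
    have h := T1 0 x x d0 d0 hx.1 hx.1 hd0 hd0
    have e1 : (Z1f U' U'' S 0 x x d0 d0).filter (fun v => (∀ z ∈ X1f 0 x x, v ∈ nb R z) ∧
        (∀ e ∈ C1f 0 d0 d0, v ∈ vt R e)) = nb R x := by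
      ext v
      simp only [X1f, C1f, Z1f, Finset.mem_filter, Finset.mem_inter, Finset.mem_singleton, forall_eq, Finset.notMem_empty,
        IsEmpty.forall_iff, implies_true, and_true]
      exact ⟨fun h => h.2, fun h => ⟨nbU' x hx.2 v h, h⟩⟩
    rw [e1] at h
    simp only [X1f, C1f, Z1f] at h
    rw [rs_sum_const _ _ p (by
      intro v hv
      rw [Finset.mem_inter] at hv
      simp only [Finset.prod_singleton, Finset.prod_empty, mul_one]
      exact rsq_E p qx U' D' S x v hx.2 hv.2 hv.1)] at h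
    exact h
  · intro c hc
    rw [Finset.mem_sdiff] at hc
    have h := T1 1 x0 x0 c c hx0 hx0 hc.1 hc.1
    have e1 : (Z1f U' U'' S 1 x0 x0 c c).filter (fun v => (∀ z ∈ X1f 1 x0 x0, v ∈ nb R z) ∧
        (∀ e ∈ C1f 1 c c, v ∈ vt R e)) = vt R c := by
      ext v
      simp only [X1f, C1f, Z1f, Finset.mem_filter, Finset.mem_inter, Finset.mem_singleton, forall_eq, Finset.notMem_empty,
        IsEmpty.forall_iff, implies_true, true_and]
      exact ⟨fun h => h.2, fun h => ⟨vtU' c hc.2 v h, h⟩⟩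
    rw [e1] at h
    simp only [X1f, C1f, Z1f] at h
    rw [rs_sum_const _ _ p (by
      intro v hv
      rw [Finset.mem_inter] at hv
      simp only [Finset.prod_singleton, Finset.prod_empty, one_mul]
      exact rsq_P p qx U' D' S v c hv.2 hc.2 hv.1)] at h
    exact h
  · intro u hu
    have h := T1 2 u u d0 d0 (hU' hu) (hU' hu) hd0 hd0
    have e1 : (Z1f U' U'' S 2 u u d0 d0).filter (fun v => (∀ z ∈ X1f 2 u u, v ∈ nb R z) ∧
        (∀ e ∈ C1f 2 d0 d0, v ∈ vt R e)) = nb R u := by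
      ext v
      simp only [X1f, C1f, Z1f, Finset.mem_filter, Finset.mem_sdiff, Finset.mem_singleton, forall_eq, Finset.notMem_empty,
        IsEmpty.forall_iff, implies_true, and_true]
      exact ⟨fun h => h.2, fun h => ⟨nbU u hu v h, h⟩⟩
    rw [e1] at h
    simp only [X1f, C1f, Z1f] at h
    rw [rs_sum_const _ _ p (by
      intro v hv
      rw [Finset.mem_sdiff] at hv
      simp only [Finset.prod_singleton, Finset.prod_empty, mul_one]
      exact rsq_E' p qx U' D' S u v hu hv.2 hv.1)] at h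
    exact h
  · intro c hc
    have h := T1 3 x0 x0 c c hx0 hx0 (hD' hc) (hD' hc)
    have e1 : (Z1f U' U'' S 3 x0 x0 c c).filter (fun v => (∀ z ∈ X1f 3 x0 x0, v ∈ nb R z) ∧
        (∀ e ∈ C1f 3 c c, v ∈ vt R e)) = vt R c := by
      ext v
      simp only [X1f, C1f, Z1f, Finset.mem_filter, Finset.mem_sdiff, Finset.mem_singleton, forall_eq, Finset.notMem_empty,
        IsEmpty.forall_iff, implies_true, true_and]
      exact ⟨fun h => h.2, fun h => ⟨vtX c hc v h, h⟩⟩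
    rw [e1] at h
    simp only [X1f, C1f, Z1f] at h
    rw [Finset.sum_congr (g := fun v => qx v) rfl (by
      intro v hv
      rw [Finset.mem_sdiff] at hv
      simp only [Finset.prod_singleton, Finset.prod_empty, one_mul]
      exact rsq_X p qx U' D' S v c hv.2 hc ((mem_vt S v c).mp hv.1))] at h
    exact h
  · intro x hx y hy hxy
    rw [Finset.mem_sdiff] at hx hy
    have h := T1 4 x y d0 d0 hx.1 hy.1 hd0 hd0
    have e1 : (Z1f U' U'' S 4 x y d0 d0).filter (fun v => (∀ z ∈ X1f 4 x y, v ∈ nb R z) ∧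
        (∀ e ∈ C1f 4 d0 d0, v ∈ vt R e)) = nb R x ∩ nb R y := by
      ext v
      simp only [X1f, C1f, Z1f, Finset.mem_filter, Finset.mem_inter, Finset.mem_insert, Finset.mem_singleton,
        forall_eq_or_imp, forall_eq, Finset.notMem_empty,
        IsEmpty.forall_iff, implies_true, and_true]
      exact ⟨fun h => h.2, fun h => ⟨⟨⟨(nbU' x hx.2 v h.1).1, (nbU' y hy.2 v h.2).1⟩,
        (nbU' x hx.2 v h.1).2⟩, h⟩⟩
    rw [e1] at h
    simp only [X1f, C1f, Z1f] at h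
    rw [rs_sum_const _ _ (p ^ 2) (by
      intro v hv
      rw [Finset.mem_inter, Finset.mem_inter] at hv
      simp only [Finset.prod_empty, mul_one]
      rw [Finset.prod_pair hxy, rsq_E p qx U' D' S x v hx.2 hv.2 hv.1.1,
        rsq_E p qx U' D' S y v hy.2 hv.2 hv.1.2, sq])] at h
    exact h
  · intro x hx y hy hxy
    rw [Finset.mem_sdiff] at hx hy
    have h := T1 5 x y d0 d0 hx.1 hy.1 hd0 hd0
    have e1 : (Z1f U' U'' S 5 x y d0 d0).filter (fun v => (∀ z ∈ X1f 5 x y, v ∈ nb R z) ∧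
        (∀ e ∈ C1f 5 d0 d0, v ∈ vt R e)) = (nb R x ∩ nb R y) \ U'' := by
      ext v
      simp only [X1f, C1f, Z1f, Finset.mem_filter, Finset.mem_sdiff, Finset.mem_inter, Finset.mem_insert,
        Finset.mem_singleton, forall_eq_or_imp, forall_eq, Finset.notMem_empty,
        IsEmpty.forall_iff, implies_true, and_true]
      exact ⟨fun h => ⟨h.2, h.1.2⟩, fun h => ⟨⟨⟨⟨(nbU' x hx.2 v h.1.1).1, (nbU' y hy.2 v h.1.2).1⟩,
        (nbU' x hx.2 v h.1.1).2⟩, h.2⟩, h.1⟩⟩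
    rw [e1] at h
    simp only [X1f, C1f, Z1f] at h
    rw [rs_sum_const _ _ (p ^ 2) (by
      intro v hv
      rw [Finset.mem_sdiff, Finset.mem_inter, Finset.mem_inter] at hv
      simp only [Finset.prod_empty, mul_one]
      rw [Finset.prod_pair hxy, rsq_E p qx U' D' S x v hx.2 hv.1.2 hv.1.1.1,
        rsq_E p qx U' D' S y v hy.2 hv.1.2 hv.1.1.2, sq])] at h
    exact h
  · intro c hc d hd hcd
    rw [Finset.mem_sdiff] at hc hd
    have h := T1 6 x0 x0 c d hx0 hx0 hc.1 hd.1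
    have e1 : (Z1f U' U'' S 6 x0 x0 c d).filter (fun v => (∀ z ∈ X1f 6 x0 x0, v ∈ nb R z) ∧
        (∀ e ∈ C1f 6 c d, v ∈ vt R e)) = vt R c ∩ vt R d := by
      ext v
      simp only [X1f, C1f, Z1f, Finset.mem_filter, Finset.mem_inter, Finset.mem_insert, Finset.mem_singleton,
        forall_eq_or_imp, forall_eq, Finset.notMem_empty,
        IsEmpty.forall_iff, implies_true, true_and]
      exact ⟨fun h => h.2, fun h => ⟨⟨⟨(vtU' c hc.2 v h.1).1, (vtU' d hd.2 v h.2).1⟩,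
        (vtU' c hc.2 v h.1).2⟩, h⟩⟩
    rw [e1] at h
    simp only [X1f, C1f, Z1f] at h
    rw [rs_sum_const _ _ (p ^ 2) (by
      intro v hv
      rw [Finset.mem_inter, Finset.mem_inter] at hv
      simp only [Finset.prod_empty, one_mul]
      rw [Finset.prod_pair hcd, rsq_P p qx U' D' S v c hv.2 hc.2 hv.1.1,
        rsq_P p qx U' D' S v d hv.2 hd.2 hv.1.2, sq])] at h
    exact h
  · intro x hx c hc
    rw [Finset.mem_sdiff] at hx hc
    have h := T1 7 x x c c hx.1 hx.1 hc.1 hc.1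
    have e1 : (Z1f U' U'' S 7 x x c c).filter (fun v => (∀ z ∈ X1f 7 x x, v ∈ nb R z) ∧
        (∀ e ∈ C1f 7 c c, v ∈ vt R e)) = nb R x ∩ vt R c := by
      ext v
      simp only [X1f, C1f, Z1f, Finset.mem_filter, Finset.mem_inter, Finset.mem_singleton, forall_eq]
      exact ⟨fun h => h.2, fun h => ⟨⟨⟨(nbU' x hx.2 v h.1).1, (vtU' c hc.2 v h.2).1⟩,
        (nbU' x hx.2 v h.1).2⟩, h⟩⟩
    rw [e1] at h
    simp only [X1f, C1f, Z1f] at h
    rw [rs_sum_const _ _ (p ^ 2) (by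
      intro v hv
      rw [Finset.mem_inter, Finset.mem_inter] at hv
      simp only [Finset.prod_singleton]
      rw [rsq_E p qx U' D' S x v hx.2 hv.2 hv.1.1, rsq_P p qx U' D' S v c hv.2 hc.2 hv.1.2, sq])] at h
    exact h
  · intro u hu c hc
    rw [Finset.mem_sdiff] at hc
    have h := T1 8 u u c c (hU' hu) (hU' hu) hc.1 hc.1
    have e1 : (Z1f U' U'' S 8 u u c c).filter (fun v => (∀ z ∈ X1f 8 u u, v ∈ nb R z) ∧
        (∀ e ∈ C1f 8 c c, v ∈ vt R e)) = nb S u ∩ vt R c := by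
      ext v
      simp only [X1f, C1f, Z1f, Finset.mem_filter, Finset.mem_inter, Finset.mem_singleton, forall_eq,
        Finset.notMem_empty, IsEmpty.forall_iff, implies_true, true_and]
      exact ⟨fun h => ⟨h.1.1.1, h.2⟩, fun h => ⟨⟨⟨h.1, (vtU' c hc.2 v h.2).1⟩,
        (vtU' c hc.2 v h.2).2⟩, h.2⟩⟩
    rw [e1] at h
    simp only [X1f, C1f, Z1f] at h
    rw [rs_sum_const _ _ p (by
      intro v hv
      rw [Finset.mem_inter, Finset.mem_inter] at hv
      simp only [Finset.prod_singleton, Finset.prod_empty, one_mul]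
      exact rsq_P p qx U' D' S v c hv.2 hc.2 hv.1.2)] at h
    exact h
  · intro u hu x hx
    rw [Finset.mem_sdiff] at hx
    have h := T1 9 u x d0 d0 (hU' hu) hx.1 hd0 hd0
    have e1 : (Z1f U' U'' S 9 u x d0 d0).filter (fun v => (∀ z ∈ X1f 9 u x, v ∈ nb R z) ∧
        (∀ e ∈ C1f 9 d0 d0, v ∈ vt R e)) = nb S u ∩ nb R x := by
      ext v
      simp only [X1f, C1f, Z1f, Finset.mem_filter, Finset.mem_inter, Finset.mem_singleton, forall_eq,
        Finset.notMem_empty, IsEmpty.forall_iff, implies_true, and_true]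
      exact ⟨fun h => ⟨h.1.1.1, h.2⟩, fun h => ⟨⟨⟨h.1, (nbU' x hx.2 v h.2).1⟩,
        (nbU' x hx.2 v h.2).2⟩, h.2⟩⟩
    rw [e1] at h
    simp only [X1f, C1f, Z1f] at h
    rw [rs_sum_const _ _ p (by
      intro v hv
      rw [Finset.mem_inter, Finset.mem_inter] at hv
      simp only [Finset.prod_singleton, Finset.prod_empty, mul_one]
      exact rsq_E p qx U' D' S x v hx.2 hv.2 hv.1.2)] at h
    exact h
  · intro x hx
    rw [Finset.mem_sdiff] at hx
    have h := T1 10 x x d0 d0 hx.1 hx.1 hd0 hd0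
    have e1 : (Z1f U' U'' S 10 x x d0 d0).filter (fun v => (∀ z ∈ X1f 10 x x, v ∈ nb R z) ∧
        (∀ e ∈ C1f 10 d0 d0, v ∈ vt R e)) = nb R x ∩ U'' := by
      ext v
      simp only [X1f, C1f, Z1f, Finset.mem_filter, Finset.mem_inter, Finset.mem_singleton, forall_eq, Finset.notMem_empty,
        IsEmpty.forall_iff, implies_true, and_true]
      exact ⟨fun h => ⟨h.2, h.1.2⟩, fun h => ⟨⟨(nbU' x hx.2 v h.1).1, h.2⟩, h.1⟩⟩
    rw [e1] at h
    simp only [X1f, C1f, Z1f] at h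
    rw [rs_sum_const _ _ p (by
      intro v hv
      rw [Finset.mem_inter] at hv
      simp only [Finset.prod_singleton, Finset.prod_empty, mul_one]
      exact rsq_E p qx U' D' S x v hx.2 (hU'' hv.2) hv.1)] at h
    exact h
  · intro c hc
    rw [Finset.mem_sdiff] at hc
    have h := T1 11 x0 x0 c c hx0 hx0 hc.1 hc.1
    have e1 : (Z1f U' U'' S 11 x0 x0 c c).filter (fun v => (∀ z ∈ X1f 11 x0 x0, v ∈ nb R z) ∧
        (∀ e ∈ C1f 11 c c, v ∈ vt R e)) = vt R c ∩ U'' := by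
      ext v
      simp only [X1f, C1f, Z1f, Finset.mem_filter, Finset.mem_inter, Finset.mem_singleton, forall_eq, Finset.notMem_empty,
        IsEmpty.forall_iff, implies_true, true_and]
      exact ⟨fun h => ⟨h.2, h.1.2⟩, fun h => ⟨⟨(vtU' c hc.2 v h.1).1, h.2⟩, h.1⟩⟩
    rw [e1] at h
    simp only [X1f, C1f, Z1f] at h
    rw [rs_sum_const _ _ p (by
      intro v hv
      rw [Finset.mem_inter] at hv
      simp only [Finset.prod_singleton, Finset.prod_empty, one_mul]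
      exact rsq_P p qx U' D' S v c (hU'' hv.2) hc.2 hv.1)] at h
    exact h
  · intro u hu x hx c hc
    rw [Finset.mem_sdiff] at hx hc
    have h := T1 12 u x c c (hU' hu) hx.1 hc.1 hc.1
    have e1 : (Z1f U' U'' S 12 u x c c).filter (fun v => (∀ z ∈ X1f 12 u x, v ∈ nb R z) ∧
        (∀ e ∈ C1f 12 c c, v ∈ vt R e)) = (nb S u ∩ nb R x ∩ vt R c) \ U'' := by
      ext v
      simp only [X1f, C1f, Z1f, Finset.mem_filter, Finset.mem_sdiff, Finset.mem_inter, Finset.mem_singleton, forall_eq]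
      exact ⟨fun h => ⟨⟨⟨h.1.1.1.1.1, h.2.1⟩, h.2.2⟩, h.1.2⟩,
        fun h => ⟨⟨⟨⟨⟨h.1.1.1, (nbU' x hx.2 v h.1.1.2).1⟩, (vtU' c hc.2 v h.1.2).1⟩,
        (nbU' x hx.2 v h.1.1.2).2⟩, h.2⟩, h.1.1.2, h.1.2⟩⟩
    rw [e1] at h
    simp only [X1f, C1f, Z1f] at h
    rw [rs_sum_const _ _ (p ^ 2) (by
      intro v hv
      rw [Finset.mem_sdiff, Finset.mem_inter, Finset.mem_inter, Finset.mem_inter] at hv
      simp only [Finset.prod_singleton]
      rw [rsq_E p qx U' D' S x v hx.2 hv.1.2 hv.1.1.1.2,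
        rsq_P p qx U' D' S v c hv.1.2 hc.2 hv.1.1.2, sq])] at h
    exact h
  · intro u hu v' hv' c hc
    rw [Finset.mem_sdiff] at hc
    have h := T1 13 u v' c c (hU' hu) (hU' hv') hc.1 hc.1
    have e1 : (Z1f U' U'' S 13 u v' c c).filter (fun v => (∀ z ∈ X1f 13 u v', v ∈ nb R z) ∧
        (∀ e ∈ C1f 13 c c, v ∈ vt R e)) = (nb S u ∩ nb S v' ∩ vt R c) \ U'' := by
      ext v
      simp only [X1f, C1f, Z1f, Finset.mem_filter, Finset.mem_sdiff, Finset.mem_inter, Finset.mem_singleton, forall_eq,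
        Finset.notMem_empty, IsEmpty.forall_iff, implies_true, true_and]
      exact ⟨fun h => ⟨⟨h.1.1.1.1, h.2⟩, h.1.2⟩,
        fun h => ⟨⟨⟨⟨h.1.1, (vtU' c hc.2 v h.1.2).1⟩, (vtU' c hc.2 v h.1.2).2⟩, h.2⟩, h.1.2⟩⟩
    rw [e1] at h
    simp only [X1f, C1f, Z1f] at h
    rw [rs_sum_const _ _ p (by
      intro v hv
      rw [Finset.mem_sdiff, Finset.mem_inter, Finset.mem_inter, Finset.mem_inter] at hv
      simp only [Finset.prod_singleton, Finset.prod_empty, one_mul]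
      exact rsq_P p qx U' D' S v c hv.1.2 hc.2 hv.1.1.2)] at h
    exact h
  · intro x hx
    rw [Finset.mem_sdiff] at hx
    have h := T2 0 x x hx.1 hx.1
    have e1 : (Z2f D' D'' S 0 x x).filter (fun c => (∀ z ∈ X2f 0 x x, c ∈ cl R z)) = cl R x := by
      ext c
      simp only [X2f, Z2f, Finset.mem_filter, Finset.mem_inter, Finset.mem_singleton, forall_eq]
      exact ⟨fun h => h.2, fun h => ⟨clX x hx.2 c h, h⟩⟩
    rw [e1] at h
    simp only [X2f, Z2f] at h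
    rw [rs_sum_const _ _ (qx x) (by
      intro c hc
      rw [Finset.mem_inter] at hc
      simp only [Finset.prod_singleton]
      exact rsq_X p qx U' D' S x c hx.2 hc.2 ((mem_cl S x c).mp hc.1))] at h
    exact h
  · intro u hu
    have h := T2 1 u u (hU' hu) (hU' hu)
    have e1 : (Z2f D' D'' S 1 u u).filter (fun c => (∀ z ∈ X2f 1 u u, c ∈ cl R z)) = cl R u := by
      ext c
      simp only [X2f, Z2f, Finset.mem_filter, Finset.mem_sdiff, Finset.mem_singleton, forall_eq]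
      exact ⟨fun h => h.2, fun h => ⟨clU u hu c h, h⟩⟩
    rw [e1] at h
    simp only [X2f, Z2f] at h
    rw [rs_sum_const _ _ p (by
      intro c hc
      rw [Finset.mem_sdiff] at hc
      simp only [Finset.prod_singleton]
      exact rsq_P p qx U' D' S u c hu hc.2 ((mem_vt S u c).mpr ((mem_cl S u c).mp hc.1)))] at h
    exact h
  · intro x hx y hy hxy
    rw [Finset.mem_sdiff] at hx hy
    have h := T2 2 x y hx.1 hy.1
    have e1 : (Z2f D' D'' S 2 x y).filter (fun c => (∀ z ∈ X2f 2 x y, c ∈ cl R z)) = cl R x ∩ cl R y := by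
      ext c
      simp only [X2f, Z2f, Finset.mem_filter, Finset.mem_inter, Finset.mem_insert, Finset.mem_singleton,
        forall_eq_or_imp, forall_eq]
      exact ⟨fun h => h.2, fun h => ⟨⟨⟨(clX x hx.2 c h.1).1, (clX y hy.2 c h.2).1⟩,
        (clX x hx.2 c h.1).2⟩, h⟩⟩
    rw [e1] at h
    simp only [X2f, Z2f] at h
    rw [rs_sum_const _ _ (qx x * qx y) (by
      intro c hc
      rw [Finset.mem_inter, Finset.mem_inter] at hc
      rw [Finset.prod_pair hxy, rsq_X p qx U' D' S x c hx.2 hc.2 ((mem_cl S x c).mp hc.1.1),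
        rsq_X p qx U' D' S y c hy.2 hc.2 ((mem_cl S y c).mp hc.1.2)])] at h
    exact h
  · intro x hx
    rw [Finset.mem_sdiff] at hx
    have h := T2 3 x x hx.1 hx.1
    have e1 : (Z2f D' D'' S 3 x x).filter (fun c => (∀ z ∈ X2f 3 x x, c ∈ cl R z)) = cl R x ∩ D'' := by
      ext c
      simp only [X2f, Z2f, Finset.mem_filter, Finset.mem_inter, Finset.mem_singleton, forall_eq]
      exact ⟨fun h => ⟨h.2, h.1.2⟩, fun h => ⟨⟨(clX x hx.2 c h.1).1, h.2⟩, h.1⟩⟩
    rw [e1] at h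
    simp only [X2f, Z2f] at h
    rw [rs_sum_const _ _ (qx x) (by
      intro c hc
      rw [Finset.mem_inter] at hc
      simp only [Finset.prod_singleton]
      exact rsq_X p qx U' D' S x c hx.2 (hD'' hc.2) ((mem_cl S x c).mp hc.1))] at h
    exact h

end

end Pool.Agent.OBW
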