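import Mathlib
import Pool.Agent.OBW.Stmts

set_option autoImplicit false

/-!
OBW tools: average greedy (`agl : AglStmt`) and many disjoint perfect matchings (`pm : PmStmt`).
-/

namespace Pool.Agent.OBW

open Finset

theorem exp_le_chord {x : ℝ} (h0 : 0 ≤ x) (h1 : x ≤ 1) : Real.exp x ≤ 1 + 2 * x := by
  have hc := convexOn_exp.2 (Set.mem_univ (0 : ℝ)) (Set.mem_univ (1 : ℝ))
    (show 0 ≤ 1 - x by linarith) h0 (by ring)
  simp only [smul_eq_mul, mul_zero, mul_one, zero_add, Real.exp_zero] at hc
  have he := Real.exp_one_lt_d9
  nlinarith

theorem agl : AglStmt := by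
  intro σ I _ T Inv load acc B s₀ hI0 hL0 hA0 hB hstep
  classical
  have hload : ∀ s, ∑ i, Real.exp (load i s - 2 * acc i s) ≤ (Fintype.card I : ℝ) →
      ∀ i, load i s ≤ Real.log (Fintype.card I) + 2 * acc i s := by
    intro s hΦ i
    have h1 : Real.exp (load i s - 2 * acc i s) ≤ (Fintype.card I : ℝ) :=
      le_trans (Finset.single_le_sum (f := fun i => Real.exp (load i s - 2 * acc i s))
        (fun _ _ => (Real.exp_pos _).le) (mem_univ i)) hΦ
    have h2 := (Real.le_log_iff_exp_le (lt_of_lt_of_le (Real.exp_pos _) h1)).2 h1
    linarith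
  have key : ∀ τ ≤ T, ∃ s, Inv τ s ∧
      ∑ i, Real.exp (load i s - 2 * acc i s) ≤ (Fintype.card I : ℝ) := by
    intro τ
    induction τ with
    | zero =>
      intro _
      refine ⟨s₀, hI0, ?_⟩
      simp [hL0, hA0]
    | succ τ ih =>
      intro hτ
      obtain ⟨s, hIs, hΦ⟩ := ih (by omega)
      have hls := hload s hΦ
      obtain ⟨n, o, q, hn, hIo, hinc, hmean, hacc⟩ := hstep τ (by omega) s hIs
        (fun i => (hls i).trans (hB τ (by omega) s hIs i))
      have hnR : (0 : ℝ) < n := by exact_mod_cast hn
      have hsum : ∑ a : Fin n, ∑ i, Real.exp (load i (o a) - 2 * acc i (o a)) ≤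
          n * (Fintype.card I : ℝ) := by
        rw [Finset.sum_comm]
        have h1 : ∀ i, ∑ a : Fin n, Real.exp (load i (o a) - 2 * acc i (o a)) ≤
            n * Real.exp (load i s - 2 * acc i s) := by
          intro i
          have h2 : ∀ a : Fin n, Real.exp (load i (o a) - 2 * acc i (o a)) ≤
              (1 + 2 * (load i (o a) - load i s)) *
                (Real.exp (-(2 * q i)) * Real.exp (load i s - 2 * acc i s)) := by
            intro a
            have h3 := exp_le_chord (hinc a i).1 (hinc a i).2
            have h4 : Real.exp (load i (o a) - 2 * acc i (o a)) ≤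
                Real.exp (load i (o a) - load i s) *
                  (Real.exp (-(2 * q i)) * Real.exp (load i s - 2 * acc i s)) := by
              rw [← Real.exp_add, ← Real.exp_add]
              apply Real.exp_le_exp.2
              linarith [hacc a i]
            refine h4.trans ?_
            exact mul_le_mul_of_nonneg_right h3 (by positivity)
          refine (Finset.sum_le_sum fun a _ => h2 a).trans ?_
          rw [← Finset.sum_mul, Finset.sum_add_distrib, ← Finset.mul_sum]
          simp only [Finset.sum_const, Finset.card_univ, Fintype.card_fin, nsmul_eq_mul, mul_one]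
          have h5 : (n : ℝ) + 2 * ∑ a : Fin n, (load i (o a) - load i s) ≤
              n * Real.exp (2 * q i) := by
            have h6 := Real.add_one_le_exp (2 * q i)
            have h7 := hmean i
            nlinarith
          calc ((n : ℝ) + 2 * ∑ a : Fin n, (load i (o a) - load i s)) *
                (Real.exp (-(2 * q i)) * Real.exp (load i s - 2 * acc i s))
              ≤ (n * Real.exp (2 * q i)) *
                (Real.exp (-(2 * q i)) * Real.exp (load i s - 2 * acc i s)) :=
                mul_le_mul_of_nonneg_right h5 (by positivity)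
            _ = n * Real.exp (load i s - 2 * acc i s) *
                (Real.exp (2 * q i) * Real.exp (-(2 * q i))) := by ring
            _ = _ := by rw [← Real.exp_add, add_neg_cancel, Real.exp_zero, mul_one]
        refine (Finset.sum_le_sum fun i _ => h1 i).trans ?_
        rw [← Finset.mul_sum]
        exact mul_le_mul_of_nonneg_left hΦ hnR.le
      have hex : ∃ a : Fin n, ∑ i, Real.exp (load i (o a) - 2 * acc i (o a)) ≤
          (Fintype.card I : ℝ) := by
        by_contra hcon
        push Not at hcon
        have : Nonempty (Fin n) := ⟨⟨0, hn⟩⟩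
        have h1 : ∑ _a : Fin n, (Fintype.card I : ℝ) <
            ∑ a : Fin n, ∑ i, Real.exp (load i (o a) - 2 * acc i (o a)) :=
          Finset.sum_lt_sum_of_nonempty univ_nonempty fun a _ => hcon a
        simp only [Finset.sum_const, Finset.card_univ, Fintype.card_fin, nsmul_eq_mul] at h1
        linarith
      obtain ⟨a, ha⟩ := hex
      exact ⟨o a, hIo a, ha⟩
  obtain ⟨s, hIs, hΦ⟩ := key T le_rfl
  exact ⟨s, hIs, fun i => (hload s hΦ i).trans (hB T le_rfl s hIs i)⟩

/-- one perfect matching above the density `1/2` -/
theorem pm_one {α β : Type} [DecidableEq α] [DecidableEq β] (A : Finset α) (B : Finset β)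
    (R : α → β → Prop) [DecidableRel R] (k : ℕ) (hk : 0 < k) (hA : A.card = k) (hB : B.card = k)
    (h1 : ∀ a ∈ A, k ≤ 2 * (B.filter (fun b => R a b)).card)
    (h2 : ∀ b ∈ B, k < 2 * (A.filter (fun a => R a b)).card) :
    ∃ f : α → β, (∀ a ∈ A, f a ∈ B ∧ R a (f a)) ∧ Set.InjOn f A := by
  classical
  have hhall : ∀ S : Finset A, S.card ≤ (S.biUnion fun a => B.filter fun b => R a b).card := by
    intro S
    rcases S.eq_empty_or_nonempty with rfl | hS
    · simp
    obtain ⟨a0, ha0⟩ := hS
    by_cases hbig : 2 * S.card ≤ k
    · have h3 : (B.filter fun b => R a0 b) ⊆ S.biUnion fun a => B.filter fun b => R a b :=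
        Finset.subset_biUnion_of_mem (fun a : A => B.filter fun b => R a b) ha0
      have h4 := card_le_card h3
      have h5 := h1 a0 a0.2
      omega
    · have h3 : B ⊆ S.biUnion fun a => B.filter fun b => R a b := by
        intro b hb
        rw [mem_biUnion]
        by_contra hcon
        push Not at hcon
        have h4 : (A.filter fun a => R a b).card + S.card ≤ A.card := by
          have h5 : Disjoint (A.filter fun a => R a b) (S.map ⟨Subtype.val, Subtype.val_injective⟩) := by
            rw [Finset.disjoint_left]
            intro a ha ha2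
            rw [mem_map] at ha2
            obtain ⟨a', ha', rfl⟩ := ha2
            apply hcon a' ha'
            rw [mem_filter]
            exact ⟨hb, (mem_filter.1 ha).2⟩
          have h6 := card_union_of_disjoint h5
          rw [card_map] at h6
          rw [← h6]
          apply card_le_card
          intro a ha
          rw [mem_union] at ha
          rcases ha with ha | ha
          · exact (mem_filter.1 ha).1
          · rw [mem_map] at ha
            obtain ⟨a', _, rfl⟩ := ha
            exact a'.2
        have h7 := h2 b hb
        omega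
      have h4 := card_le_card h3
      have h5 : S.card ≤ A.card := by
        have := card_le_univ S
        rwa [Fintype.card_coe] at this
      omega
  obtain ⟨g, hg, hg2⟩ := (Finset.all_card_le_biUnion_card_iff_exists_injective
    (fun a : A => B.filter fun b => R a b)).1 hhall
  have hBne : B.Nonempty := by
    rw [← Finset.card_pos, hB]
    exact hk
  obtain ⟨b0, -⟩ := hBne
  refine ⟨fun a => if h : a ∈ A then g ⟨a, h⟩ else b0, ?_, ?_⟩
  · intro a ha
    simp only [ha, dif_pos]
    have := hg2 ⟨a, ha⟩
    rw [mem_filter] at this
    exact this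
  · intro a ha a' ha' h
    have ha1 : a ∈ A := ha
    have ha2 : a' ∈ A := ha'
    simp only [ha1, ha2, dif_pos] at h
    have := hg h
    exact Subtype.ext_iff.1 this

/-- `n` disjoint perfect matchings -/
theorem pm_many {α β : Type} [DecidableEq α] [DecidableEq β] (A : Finset α) (B : Finset β)
    (R : α → β → Prop) [DecidableRel R] (k : ℕ) (hk : 0 < k) (hA : A.card = k) (hB : B.card = k)
    (n : ℕ) (h1 : ∀ a ∈ A, k + 2 * n ≤ 2 * (B.filter (fun b => R a b)).card + 1)
    (h2 : ∀ b ∈ B, k + 2 * n ≤ 2 * (A.filter (fun a => R a b)).card + 1) :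
    ∃ f : Fin n → α → β, (∀ i, ∀ a ∈ A, f i a ∈ B ∧ R a (f i a)) ∧
      (∀ i, Set.InjOn (f i) A) ∧ (∀ i j, ∀ a ∈ A, i ≠ j → f i a ≠ f j a) := by
  classical
  induction n with
  | zero => exact ⟨fun i => i.elim0, fun i => i.elim0, fun i => i.elim0, fun i => i.elim0⟩
  | succ n ih =>
    obtain ⟨f, hf1, hf2, hf3⟩ := ih (fun a ha => by have := h1 a ha; omega)
      (fun b hb => by have := h2 b hb; omega)
    obtain ⟨g, hg1, hg2⟩ := pm_one A B (fun a b => R a b ∧ ∀ i, f i a ≠ b) k hk hA hB
      (by
        intro a ha
        have h3 : (B.filter fun b => R a b) ⊆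
            (B.filter fun b => R a b ∧ ∀ i, f i a ≠ b) ∪ (univ : Finset (Fin n)).image fun i => f i a := by
          intro b hb
          rw [mem_filter] at hb
          rw [mem_union, mem_filter, mem_image]
          by_cases h : ∀ i, f i a ≠ b
          · exact Or.inl ⟨hb.1, hb.2, h⟩
          · push Not at h
            obtain ⟨i, hi⟩ := h
            exact Or.inr ⟨i, mem_univ _, hi⟩
        have h4 := (card_le_card h3).trans (card_union_le _ _)
        have h5 : ((univ : Finset (Fin n)).image fun i => f i a).card ≤ n := by
          refine card_image_le.trans ?_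
          simp
        have h6 := h1 a ha
        omega)
      (by
        intro b hb
        have h3 : (A.filter fun a => R a b) ⊆
            (A.filter fun a => R a b ∧ ∀ i, f i a ≠ b) ∪
              (univ : Finset (Fin n)).biUnion fun i => A.filter fun a => f i a = b := by
          intro a ha
          rw [mem_filter] at ha
          rw [mem_union, mem_filter, mem_biUnion]
          by_cases h : ∀ i, f i a ≠ b
          · exact Or.inl ⟨ha.1, ha.2, h⟩
          · push Not at h
            obtain ⟨i, hi⟩ := h
            exact Or.inr ⟨i, mem_univ _, mem_filter.2 ⟨ha.1, hi⟩⟩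
        have h4 := (card_le_card h3).trans (card_union_le _ _)
        have h5 : ((univ : Finset (Fin n)).biUnion fun i => A.filter fun a => f i a = b).card ≤ n := by
          have h6 : ∀ i ∈ (univ : Finset (Fin n)), (A.filter fun a => f i a = b).card ≤ 1 := by
            intro i _
            rw [Finset.card_le_one]
            intro a ha a' ha'
            rw [mem_filter] at ha ha'
            exact hf2 i ha.1 ha'.1 (ha.2.trans ha'.2.symm)
          have h7 := Finset.card_biUnion_le_card_mul (univ : Finset (Fin n))
            (fun i => A.filter fun a => f i a = b) 1 h6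
          simpa using h7
        have h6 := h2 b hb
        omega)
    refine ⟨Fin.snoc f g, ?_, ?_, ?_⟩
    · intro i a ha
      induction i using Fin.lastCases with
      | last =>
        rw [Fin.snoc_last]
        exact ⟨(hg1 a ha).1, (hg1 a ha).2.1⟩
      | cast i =>
        rw [Fin.snoc_castSucc]
        exact hf1 i a ha
    · intro i
      induction i using Fin.lastCases with
      | last =>
        rw [Fin.snoc_last]
        exact hg2
      | cast i =>
        rw [Fin.snoc_castSucc]
        exact hf2 i
    · intro i j a ha hij
      induction i using Fin.lastCases with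
      | last =>
        rw [Fin.snoc_last]
        induction j using Fin.lastCases with
        | last => exact absurd rfl hij
        | cast j =>
          rw [Fin.snoc_castSucc]
          exact ((hg1 a ha).2.2 j).symm
      | cast i =>
        rw [Fin.snoc_castSucc]
        induction j using Fin.lastCases with
        | last =>
          rw [Fin.snoc_last]
          exact (hg1 a ha).2.2 i
        | cast j =>
          rw [Fin.snoc_castSucc]
          exact hf3 i j a ha (fun h => hij (by rw [h]))

theorem pm : PmStmt := by
  intro α β _ _ A B R _ k ε hε hA hB h1 h2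
  rcases Nat.eq_zero_or_pos k with hk | hk
  · subst hk
    exact ⟨0, fun i => i.elim0, by simp, fun i => i.elim0, fun i => i.elim0, fun i => i.elim0⟩
  have hkR : (0 : ℝ) < k := by exact_mod_cast hk
  set n := ⌈ε * (k : ℝ)⌉₊ with hn
  have hnlt : (n : ℝ) < ε * k + 1 := Nat.ceil_lt_add_one (by positivity)
  have hconv : ∀ d : ℕ, (1/2 + ε) * (k : ℝ) ≤ d → k + 2 * n ≤ 2 * d + 1 := by
    intro d hd
    have h3 : ((k + 2 * n : ℕ) : ℝ) < ((2 * d + 2 : ℕ) : ℝ) := by
      push_cast
      linarith
    have h4 : k + 2 * n < 2 * d + 2 := by exact_mod_cast h3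
    omega
  obtain ⟨f, hf1, hf2, hf3⟩ := pm_many A B R k hk hA hB n (fun a ha => hconv _ (h1 a ha))
    (fun b hb => hconv _ (h2 b hb))
  exact ⟨n, f, Nat.le_ceil _, hf1, hf2, hf3⟩

end Pool.Agent.OBW
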