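import Mathlib
import Pool.Agent.TFA.Tau
import Pool.Agent.OBW.GrdB

set_option autoImplicit false

/-!
OBW, translation part A: 2-regular graphs are given by permutations; isomorphism by cycle type.
-/

namespace Pool.Agent.OBW

open Finset Equiv

/-- `σ` is an orientation of the 2-regular graph `F` -/
def IsOri {V : Type} (F : SimpleGraph V) (σ : Perm V) : Prop :=
  (∀ u v, F.Adj u v ↔ (v = σ u ∨ u = σ v)) ∧ (∀ u, σ u ≠ u)

theorem isOri_iso {V : Type} [Fintype V] [DecidableEq V] {F H : SimpleGraph V} {σ τ : Perm V}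
    (hF : IsOri F σ) (hH : IsOri H τ) (h : σ.cycleType = τ.cycleType) : Nonempty (F ≃g H) := by
  obtain ⟨π, hπ⟩ := isConj_iff.1 (Equiv.Perm.isConj_iff_cycleType_eq.2 h)
  have hπ2 : ∀ v, τ (π v) = π (σ v) := by
    intro v
    rw [← hπ]
    simp
  refine ⟨⟨π, ?_⟩⟩
  intro u v
  rw [hH.1, hF.1, hπ2, hπ2]
  constructor
  · rintro (h | h)
    · exact Or.inl (π.injective h)
    · exact Or.inr (π.injective h)
  · rintro (h | h)
    · left; rw [h]
    · right; rw [h]

/-- every 2-regular graph has an orientation -/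
theorem exists_ori {V : Type} [Fintype V] [DecidableEq V] (F : SimpleGraph V)
    (hF : ∀ v, Nat.card (F.neighborSet v) = 2) :
    ∃ σ : Perm V, IsOri F σ ∧ ∀ u, σ (σ u) ≠ u := by
  classical
  have hdeg : ∀ x, (F.edgeFinset.filter (fun e => x ∈ e)).card =
      2 * (univ.filter (fun k : V => (id k : V) = x)).card := by
    intro x
    have h1 : (univ.filter (fun k : V => (id k : V) = x)) = {x} := by
      ext k; simp
    rw [h1, card_singleton, mul_one]
    have h2 : F.edgeFinset.filter (fun e => x ∈ e) = F.incidenceFinset x := by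
      rw [SimpleGraph.incidenceFinset_eq_filter]
    rw [h2, SimpleGraph.card_incidenceFinset_eq_degree]
    have h3 := hF x
    rw [Nat.card_eq_fintype_card, SimpleGraph.card_neighborSet_eq_degree] at h3
    exact h3
  obtain ⟨σ, hσ1, hσ2⟩ := TFA.tau F.edgeFinset (by
    intro e he
    rw [SimpleGraph.mem_edgeFinset] at he
    exact F.not_isDiag_of_mem_edgeSet he) (id : V → V) hdeg
  simp only [id] at hσ1 hσ2
  have hedge : ∀ u, F.Adj u (σ u) := by
    intro u
    rw [← SimpleGraph.mem_edgeSet, ← SimpleGraph.mem_edgeFinset, ← hσ2]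
    exact mem_image.2 ⟨u, mem_univ _, rfl⟩
  have hne : ∀ u, σ u ≠ u := fun u h => by
    have := hedge u
    rw [h] at this
    exact F.loopless.irrefl u this
  refine ⟨σ, ⟨?_, hne⟩, ?_⟩
  · intro u v
    constructor
    · intro h
      rw [← SimpleGraph.mem_edgeSet, ← SimpleGraph.mem_edgeFinset, ← hσ2, mem_image] at h
      obtain ⟨k, _, hk⟩ := h
      rw [Sym2.eq_iff] at hk
      rcases hk with ⟨h1, h2⟩ | ⟨h1, h2⟩
      · left; rw [← h2, h1]
      · right; rw [← h2, h1]
    · rintro (h | h)
      · rw [h]; exact hedge u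
      · rw [h]; exact (hedge v).symm
  · intro u h
    have h1 : s(σ u, σ (σ u)) = s(u, σ u) := by rw [h]; exact Sym2.eq_swap
    exact hne u (hσ1 h1)

/-- all cycles of an orientation have length at least 3 -/
theorem ori_three_le {V : Type} [Fintype V] [DecidableEq V] {σ : Perm V} (h2 : ∀ u, σ (σ u) ≠ u)
    {l : ℕ} (hl : l ∈ σ.cycleType) : 3 ≤ l := by
  have h := Equiv.Perm.two_le_of_mem_cycleType hl
  by_contra hcon
  have hl2 : l = 2 := by omega
  subst hl2
  rw [Equiv.Perm.mem_cycleType_iff] at hl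
  obtain ⟨c, τ, hσ, hd, hc, hcard⟩ := hl
  have hsw : c.IsSwap := by
    rw [← Equiv.Perm.card_support_eq_two]
    exact hcard
  obtain ⟨x, y, hxy, rfl⟩ := hsw
  have hx : x ∈ (swap x y).support := by
    rw [Equiv.Perm.mem_support]; simp [hxy.symm]
  have hy : y ∈ (swap x y).support := by
    rw [Equiv.Perm.mem_support]; simp [hxy]
  have hτx : τ x = x := by
    rcases hd x with h1 | h1
    · exact absurd h1 (Equiv.Perm.mem_support.1 hx)
    · exact h1
  have hτy : τ y = y := by
    rcases hd y with h1 | h1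
    · exact absurd h1 (Equiv.Perm.mem_support.1 hy)
    · exact h1
  apply h2 x
  rw [hσ, Equiv.Perm.mul_apply, Equiv.Perm.mul_apply, hτx, swap_apply_left, hτy, swap_apply_right]

theorem ori_sum {V : Type} [Fintype V] [DecidableEq V] {σ : Perm V} (h1 : ∀ u, σ u ≠ u)
    (h2 : ∀ u, σ (σ u) ≠ u) (Ls : Finset ℕ) (hLs : ∀ l ∈ σ.cycleType, l ∈ Ls) :
    ∑ l ∈ Ls, l * σ.cycleType.count l = Fintype.card V := by
  have h3 : σ.cycleType.sum = Fintype.card V := by
    rw [Equiv.Perm.sum_cycleType]
    have : σ.support = univ := by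
      ext v
      simp [Equiv.Perm.mem_support, h1 v]
    rw [this, card_univ]
  rw [← h3, Finset.sum_multiset_count]
  rw [← Finset.sum_subset (s₁ := σ.cycleType.toFinset)]
  · apply Finset.sum_congr rfl
    intro l _
    rw [smul_eq_mul, mul_comm]
  · intro l hl
    exact hLs l (Multiset.mem_toFinset.1 hl)
  · intro l _ hl
    rw [Multiset.mem_toFinset] at hl
    rw [Multiset.count_eq_zero_of_notMem hl, mul_zero]

/-- a cycle of the orientation lives in one component -/
theorem ori_component {V : Type} [Fintype V] [DecidableEq V] {F : SimpleGraph V} {σ : Perm V}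
    (hF : IsOri F σ) {L : ℕ} (hL : ∀ v, Nat.card {u | F.Reachable v u} ≤ L) {l : ℕ}
    (hl : l ∈ σ.cycleType) : l ≤ L := by
  classical
  rw [Equiv.Perm.cycleType_def, Multiset.mem_map] at hl
  obtain ⟨c, hc, rfl⟩ := hl
  rw [← Finset.mem_def, Equiv.Perm.mem_cycleFactorsFinset_iff] at hc
  obtain ⟨hcyc, hag⟩ := hc
  obtain ⟨v, hv⟩ := hcyc.nonempty_support
  have hreach : ∀ (i : ℕ), F.Reachable v ((c ^ i) v) := by
    intro i
    induction i with
    | zero => simp
    | succ i ih =>
      refine ih.trans ?_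
      rw [pow_succ', Equiv.Perm.mul_apply]
      have hsup : (c ^ i) v ∈ c.support := by
        rw [Equiv.Perm.pow_apply_mem_support]
        exact hv
      rw [hag _ hsup]
      apply SimpleGraph.Adj.reachable
      rw [hF.1]
      exact Or.inl rfl
  have hsub : (c.support : Set V) ⊆ {u | F.Reachable v u} := by
    intro u hu
    have hsc := hcyc.sameCycle (Equiv.Perm.mem_support.1 hv) (Equiv.Perm.mem_support.1 hu)
    obtain ⟨i, hi⟩ := hsc.exists_pow_eq'
    rw [Set.mem_setOf_eq, ← hi.2]
    exact hreach i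
  have h1 : (c.support : Set V).ncard ≤ ({u | F.Reachable v u} : Set V).ncard :=
    Set.ncard_le_ncard hsub (Set.toFinite _)
  rw [Set.ncard_coe_finset] at h1
  refine le_trans h1 ?_
  exact hL v

end Pool.Agent.OBW
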