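import Mathlib
import Pool.Agent.OBW.TransA

set_option autoImplicit false

/-!
OBW, translation part B: pieces of one colour give an orientation; the final decomposition.
-/

namespace Pool.Agent.OBW

open Finset Equiv

section
variable {V C : Type} [Fintype V] [DecidableEq V] [Fintype C] [DecidableEq C]

omit [Fintype C] in
theorem trans_mem_vt {S : Finset (Item V C)} {v : V} {c : C} :
    v ∈ vt S c ↔ (Sum.inr (v, c) : Item V C) ∈ S := by
  unfold vt; simp

theorem trans_vt_card {l : ℕ} {c : C} {p : Finset (Item V C)} (h : IsPiece l c p) :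
    (vt p c).card = l := by
  obtain ⟨_, z, hz, rfl⟩ := h
  have : vt (cyc l z c) c = (range l).image z := by
    ext v
    unfold vt
    rw [mem_filter, grd_mem_cyc_inr, mem_image]
    constructor
    · rintro ⟨_, ⟨i, hi, h⟩, _⟩
      exact ⟨i, mem_range.2 hi, h⟩
    · rintro ⟨i, hi, h⟩
      exact ⟨mem_univ _, ⟨i, mem_range.1 hi, h⟩, rfl⟩
  rw [this, Finset.card_image_of_injOn, card_range]
  intro a ha b hb hab
  rw [Finset.coe_range] at ha hb
  exact hz ha hb hab

/-- the cyclic permutation of a piece -/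
theorem trans_piece_perm {l : ℕ} {c : C} {p : Finset (Item V C)} (h : IsPiece l c p) :
    ∃ f : Perm V, f.IsCycle ∧ f.support = vt p c ∧
      ∀ u v, (Sum.inl s(u, v) : Item V C) ∈ p ↔
        ((u ∈ f.support ∧ v = f u) ∨ (v ∈ f.support ∧ u = f v)) := by
  obtain ⟨hl, z, hz, rfl⟩ := h
  set xs : List V := (List.range l).map z with hxs
  have hlen : xs.length = l := by simp [hxs]
  have hnd : xs.Nodup := by
    rw [hxs]
    apply List.Nodup.map_on _ List.nodup_range
    intro a ha b hb hab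
    rw [List.mem_range] at ha hb
    exact hz ha hb hab
  have hget : ∀ i (hi : i < xs.length), xs[i] = z i := by
    intro i hi
    simp [hxs]
  have hnotsing : ∀ x : V, xs ≠ [x] := by
    intro x hx
    rw [hx] at hlen
    simp at hlen
    omega
  have hsup : xs.formPerm.support = xs.toFinset := List.support_formPerm_of_nodup xs hnd hnotsing
  have hsup2 : ∀ v, v ∈ xs.formPerm.support ↔ ∃ i < l, z i = v := by
    intro v
    rw [hsup, List.mem_toFinset, hxs, List.mem_map]
    constructor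
    · rintro ⟨i, hi, h⟩
      exact ⟨i, List.mem_range.1 hi, h⟩
    · rintro ⟨i, hi, h⟩
      exact ⟨i, List.mem_range.2 hi, h⟩
  have happ : ∀ i < l, xs.formPerm (z i) = z ((i + 1) % l) := by
    intro i hi
    have h1 := List.formPerm_apply_getElem xs hnd i (by rw [hlen]; exact hi)
    rw [hget, hget] at h1
    rw [h1, hlen]
  refine ⟨xs.formPerm, List.isCycle_formPerm hnd (by omega), ?_, ?_⟩
  · ext v
    rw [hsup2, trans_mem_vt, grd_mem_cyc_inr]
    simp
  · intro u v
    rw [grd_mem_cyc_inl, hsup2, hsup2]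
    constructor
    · rintro ⟨i, hi, h⟩
      rw [← happ i hi, Sym2.eq_iff] at h
      rcases h with ⟨h1, h2⟩ | ⟨h1, h2⟩
      · left
        exact ⟨⟨i, hi, h1⟩, by rw [← h2, h1]⟩
      · right
        exact ⟨⟨i, hi, h1⟩, by rw [← h2, h1]⟩
    · rintro (⟨⟨i, hi, h1⟩, h2⟩ | ⟨⟨i, hi, h1⟩, h2⟩)
      · refine ⟨i, hi, ?_⟩
        rw [← happ i hi, h1, ← h2]
      · refine ⟨i, hi, ?_⟩
        rw [← happ i hi, h1, ← h2, Sym2.eq_swap]

/-- the graph of the pieces of colour `c` -/
def colGraph (Fm : Finset (Finset (Item V C))) (c : C) : SimpleGraph V where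
  Adj u v := u ≠ v ∧ ∃ p ∈ Fm, (∃ l, IsPiece l c p) ∧ (Sum.inl s(u, v) : Item V C) ∈ p
  symm := ⟨by
    rintro u v ⟨hne, p, hp, hl, h⟩
    refine ⟨hne.symm, p, hp, hl, ?_⟩
    rw [Sym2.eq_swap]
    exact h⟩
  loopless := ⟨fun u h => h.1 rfl⟩

/-- the pieces of a colour that cover all the vertices orient a 2-regular graph of known type -/
theorem trans_colour (Fm : Finset (Finset (Item V C))) (c : C) (hPD : PD Fm)
    (hcov : ∀ v, ∃ p ∈ Fm, (∃ l, IsPiece l c p) ∧ (Sum.inr (v, c) : Item V C) ∈ p) :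
    ∃ σ : Perm V, IsOri (colGraph Fm c) σ ∧ ∀ l, σ.cycleType.count l = cnt Fm l c := by
  classical
  set P : Finset (Finset (Item V C)) := Fm.filter fun p => ∃ l, IsPiece l c p with hP
  have hPm : ∀ p, p ∈ P ↔ p ∈ Fm ∧ ∃ l, IsPiece l c p := fun p => by rw [hP, mem_filter]
  have hex : ∀ p ∈ P, ∃ f : Perm V, f.IsCycle ∧ f.support = vt p c ∧
      ∀ u v, (Sum.inl s(u, v) : Item V C) ∈ p ↔
        ((u ∈ f.support ∧ v = f u) ∨ (v ∈ f.support ∧ u = f v)) := by
    intro p hp
    obtain ⟨_, l, hl⟩ := (hPm p).1 hp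
    exact trans_piece_perm hl
  choose! f hf1 hf2 hf3 using hex
  -- disjointness
  have hdis : ∀ p ∈ P, ∀ q ∈ P, p ≠ q → (f p).Disjoint (f q) := by
    intro p hp q hq hpq
    rw [Equiv.Perm.disjoint_iff_disjoint_support, hf2 p hp, hf2 q hq, Finset.disjoint_left]
    intro v hv hv2
    rw [trans_mem_vt] at hv hv2
    exact (Finset.disjoint_left.1 (hPD p ((hPm p).1 hp).1 q ((hPm q).1 hq).1 hpq)) hv hv2
  have hinj : ∀ p ∈ P, ∀ q ∈ P, f p = f q → p = q := by
    intro p hp q hq h
    by_contra hpq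
    have h1 := hdis p hp q hq hpq
    rw [← h, Equiv.Perm.disjoint_refl_iff] at h1
    exact (hf1 p hp).ne_one h1
  set s : Finset (Perm V) := P.image f with hs
  have h1 : ∀ g : Perm V, g ∈ s → g.IsCycle := by
    intro g hg
    rw [hs, mem_image] at hg
    obtain ⟨p, hp, rfl⟩ := hg
    exact hf1 p hp
  have h2 : (s : Set (Perm V)).Pairwise Equiv.Perm.Disjoint := by
    intro g hg g' hg' hne
    rw [Finset.mem_coe, hs, mem_image] at hg hg'
    obtain ⟨p, hp, rfl⟩ := hg
    obtain ⟨q, hq, rfl⟩ := hg'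
    exact hdis p hp q hq (fun h => hne (by rw [h]))
  set σ : Perm V := s.noncommProd id (h2.mono' fun _ _ => Equiv.Perm.Disjoint.commute) with hσ
  have hfac : σ.cycleFactorsFinset = s := by
    rw [Equiv.Perm.cycleFactorsFinset_eq_finset]
    exact ⟨h1, h2, rfl⟩
  have hag : ∀ p ∈ P, ∀ a ∈ (f p).support, f p a = σ a := by
    intro p hp a ha
    have h3 : f p ∈ σ.cycleFactorsFinset := by
      rw [hfac, hs]
      exact mem_image_of_mem f hp
    exact (Equiv.Perm.mem_cycleFactorsFinset_iff.1 h3).2 a ha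
  refine ⟨σ, ⟨?_, ?_⟩, ?_⟩
  · intro u v
    constructor
    · rintro ⟨_, p, hp, hl, h⟩
      have hpP : p ∈ P := (hPm p).2 ⟨hp, hl⟩
      rw [hf3 p hpP] at h
      rcases h with ⟨h3, h4⟩ | ⟨h3, h4⟩
      · left; rw [h4, hag p hpP u h3]
      · right; rw [h4, hag p hpP v h3]
    · have key : ∀ u v, v = σ u → (colGraph Fm c).Adj u v := by
        intro u v h
        obtain ⟨p, hp, hl, hup⟩ := hcov u
        have hpP : p ∈ P := (hPm p).2 ⟨hp, hl⟩
        have hus : u ∈ (f p).support := by
          rw [hf2 p hpP, trans_mem_vt]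
          exact hup
        have h5 : v = f p u := by rw [h, hag p hpP u hus]
        refine ⟨?_, p, hp, hl, ?_⟩
        · intro huv
          rw [← huv] at h5
          exact (Equiv.Perm.mem_support.1 hus) h5.symm
        · rw [hf3 p hpP]
          exact Or.inl ⟨hus, h5⟩
      rintro (h | h)
      · exact key u v h
      · exact (key v u h).symm
  · intro u h
    obtain ⟨p, hp, hl, hup⟩ := hcov u
    have hpP : p ∈ P := (hPm p).2 ⟨hp, hl⟩
    have hus : u ∈ (f p).support := by
      rw [hf2 p hpP, trans_mem_vt]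
      exact hup
    rw [← hag p hpP u hus] at h
    exact (Equiv.Perm.mem_support.1 hus) h
  · intro l
    rw [Equiv.Perm.cycleType_def, hfac, Multiset.count_map]
    have h3 : (Multiset.filter (fun a : Perm V => l = (Finset.card ∘ Equiv.Perm.support) a) s.1) =
        (s.filter fun a => l = (Finset.card ∘ Equiv.Perm.support) a).1 := by
      rw [Finset.filter_val]
    rw [h3, Finset.card_val]
    unfold cnt
    symm
    apply Finset.card_bij (fun p _ => f p)
    · intro p hp
      rw [mem_filter] at hp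
      have hpP : p ∈ P := (hPm p).2 ⟨hp.1, l, hp.2⟩
      rw [mem_filter]
      refine ⟨mem_image_of_mem f hpP, ?_⟩
      rw [Function.comp_apply, hf2 p hpP, trans_vt_card hp.2]
    · intro p hp q hq h
      rw [mem_filter] at hp hq
      exact hinj p ((hPm p).2 ⟨hp.1, l, hp.2⟩) q ((hPm q).2 ⟨hq.1, l, hq.2⟩) h
    · intro g hg
      rw [mem_filter, hs, mem_image] at hg
      obtain ⟨⟨p, hp, rfl⟩, hcard⟩ := hg
      refine ⟨p, ?_, rfl⟩
      rw [mem_filter]
      obtain ⟨hpF, l', hl'⟩ := (hPm p).1 hp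
      rw [Function.comp_apply, hf2 p hp, trans_vt_card hl'] at hcard
      rw [hcard]
      exact ⟨hpF, hl'⟩

end

end Pool.Agent.OBW
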