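import Mathlib
import Pool.Agent.OBW.TransB

set_option autoImplicit false

/-!
OBW, translation: item form => decomposition into copies of `F`.
-/

namespace Pool.Agent.OBW

open Finset Equiv

theorem trans_mem_full_inl {V C : Type} [Fintype V] [DecidableEq V] [Fintype C] [DecidableEq C]
    {G : SimpleGraph V} {u v : V} : (Sum.inl s(u, v) : Item V C) ∈ full C G ↔ G.Adj u v := by
  classical
  simp [full]

theorem trans_mem_full_inr {V C : Type} [Fintype V] [DecidableEq V] [Fintype C] [DecidableEq C]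
    {G : SimpleGraph V} {v : V} {c : C} : (Sum.inr (v, c) : Item V C) ∈ full C G := by
  classical
  simp [full]

/-- **translation** -/
theorem trans_main {V : Type} [Fintype V] [DecidableEq V] (F G : SimpleGraph V) (k : ℕ)
    (σ : Perm V) (hσ : IsOri F σ) (Ls : Finset ℕ) (hLs : ∀ l ∈ σ.cycleType, l ∈ Ls)
    (Fm : Finset (Finset (Item V (Fin k))))
    (hp : ∀ p ∈ Fm, ∃ l ∈ Ls, ∃ c, IsPiece l c p) (hPD : PD Fm) (hun : un Fm = full (Fin k) G)
    (hcnt : ∀ c, ∀ l ∈ Ls, cnt Fm l c = σ.cycleType.count l) :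
    ∃ H : Fin k → SimpleGraph V,
      (∀ i, Nonempty (F ≃g H i)) ∧ (∀ i j, i ≠ j → Disjoint (H i) (H j)) ∧ (⨆ i, H i) = G := by
  classical
  have hmem : ∀ i : Item V (Fin k), i ∈ full (Fin k) G ↔ ∃ p ∈ Fm, i ∈ p := by
    intro i
    rw [← hun]
    unfold un
    rw [mem_biUnion]
    rfl
  refine ⟨fun c => colGraph Fm c, ?_, ?_, ?_⟩
  · intro c
    obtain ⟨τ, hτ, hτc⟩ := trans_colour Fm c hPD (by
      intro v
      have h1 : (Sum.inr (v, c) : Item V (Fin k)) ∈ full (Fin k) G := trans_mem_full_inr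
      obtain ⟨p, hpF, hvp⟩ := (hmem _).1 h1
      obtain ⟨l, _, c', hpc⟩ := hp p hpF
      have hc : c = c' := by
        obtain ⟨_, z, _, rfl⟩ := hpc
        exact (grd_mem_cyc_inr.1 hvp).2
      exact ⟨p, hpF, ⟨l, hc ▸ hpc⟩, hvp⟩)
    apply isOri_iso hσ hτ
    ext l
    rw [hτc]
    by_cases hl : l ∈ Ls
    · exact (hcnt c l hl).symm
    · rw [Multiset.count_eq_zero_of_notMem (fun h => hl (hLs l h))]
      symm
      unfold cnt
      rw [Finset.card_eq_zero, Finset.filter_eq_empty_iff]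
      intro p hpF hpl
      obtain ⟨l', hl', c', hpc⟩ := hp p hpF
      exact hl ((grd_piece_unique hpl hpc).1 ▸ hl')
  · intro i j hij
    rw [disjoint_iff_inf_le]
    intro u v huv
    obtain ⟨⟨_, p, hpF, ⟨l, hpl⟩, hp2⟩, ⟨_, q, hqF, ⟨l', hql⟩, hq2⟩⟩ := huv
    exfalso
    by_cases hpq : p = q
    · subst hpq
      exact hij (grd_piece_unique hpl hql).2
    · exact (Finset.disjoint_left.1 (hPD p hpF q hqF hpq)) hp2 hq2
  · ext u v
    rw [SimpleGraph.iSup_adj]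
    constructor
    · rintro ⟨c, _, p, hpF, _, hp2⟩
      rw [← trans_mem_full_inl (C := Fin k), hmem]
      exact ⟨p, hpF, hp2⟩
    · intro h
      have h1 : (Sum.inl s(u, v) : Item V (Fin k)) ∈ full (Fin k) G := trans_mem_full_inl.2 h
      obtain ⟨p, hpF, hp2⟩ := (hmem _).1 h1
      obtain ⟨l, _, c, hpc⟩ := hp p hpF
      exact ⟨c, h.ne, p, hpF, ⟨l, hpc⟩, hp2⟩

/-- ItemMain for arbitrary cycle lengths. -/
def ItemAll : Prop :=
  ∀ (ε : ℝ), 0 < ε → ∃ n₀ : ℕ,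
    ∀ (V C : Type) [Fintype V] [DecidableEq V] [Fintype C] [DecidableEq C]
      (G : SimpleGraph V) (N : ℕ → ℕ),
      n₀ ≤ Fintype.card V →
      (∀ v, Nat.card (G.neighborSet v) = 2 * Fintype.card C) →
      (3/8 + ε) * (Fintype.card V : ℝ) ≤ Fintype.card C →
      (∑ l ∈ Icc 3 (Fintype.card V), l * N l = Fintype.card V) →
      ∃ F : Finset (Finset (Item V C)),
        (∀ p ∈ F, ∃ l ∈ Icc 3 (Fintype.card V), ∃ c, IsPiece l c p) ∧ PD F ∧ un F = full C G ∧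
        (∀ c, ∀ l ∈ Icc 3 (Fintype.card V), cnt F l c = N l)

theorem m1 (h : ItemMain) : M1Stmt := by
  intro ε L hε
  obtain ⟨n₀, hn₀⟩ := h (ε / 2) L (by linarith)
  refine ⟨n₀, ?_⟩
  intro n hn F G d hF hL hG hd hdn
  obtain ⟨k, hk⟩ := hd
  obtain ⟨σ, hσ, hσ2⟩ := exists_ori F hF
  have hLs : ∀ l ∈ σ.cycleType, l ∈ Icc 3 L := by
    intro l hl
    rw [mem_Icc]
    exact ⟨ori_three_le hσ2 hl, ori_component hσ hL hl⟩
  have hkn : (3/8 + ε / 2) * ((Fintype.card (Fin n) : ℕ) : ℝ) ≤ ((Fintype.card (Fin k) : ℕ) : ℝ) := by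
    rw [Fintype.card_fin, Fintype.card_fin]
    have h1 : (d : ℝ) = k + k := by rw [hk]; push_cast; ring
    rw [h1] at hdn
    linarith
  obtain ⟨Fm, h1, h2, h3, h4⟩ := hn₀ (Fin n) (Fin k) G (fun l => σ.cycleType.count l)
    (by rw [Fintype.card_fin]; exact hn)
    (by
      intro v
      rw [hG v, Fintype.card_fin, hk]
      ring)
    hkn
    (ori_sum hσ.2 hσ2 _ hLs)
  obtain ⟨H, hH1, hH2, hH3⟩ := trans_main F G k σ hσ (Icc 3 L) hLs Fm h1 h2 h3 h4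
  exact ⟨k, H, hH1, hH2, hH3⟩

theorem final (h : ItemAll) :
    ∀ ε : ℝ, 0 < ε → ∃ n₀ : ℕ, ∀ n : ℕ, n₀ ≤ n →
      ∀ (F G : SimpleGraph (Fin n)) (d : ℕ),
        (∀ v, Nat.card (F.neighborSet v) = 2) →
        (∀ v, Nat.card (G.neighborSet v) = d) →
        Even d →
        (3 / 4 + ε) * (n : ℝ) ≤ (d : ℝ) →
        ∃ (k : ℕ) (H : Fin k → SimpleGraph (Fin n)),
          (∀ i, Nonempty (F ≃g H i)) ∧
          (∀ i j, i ≠ j → Disjoint (H i) (H j)) ∧
          (⨆ i, H i) = G := by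
  intro ε hε
  obtain ⟨n₀, hn₀⟩ := h (ε / 2) (by linarith)
  refine ⟨n₀, ?_⟩
  intro n hn F G d hF hG hd hdn
  obtain ⟨k, hk⟩ := hd
  obtain ⟨σ, hσ, hσ2⟩ := exists_ori F hF
  have hLs : ∀ l ∈ σ.cycleType, l ∈ Icc 3 (Fintype.card (Fin n)) := by
    intro l hl
    rw [mem_Icc]
    refine ⟨ori_three_le hσ2 hl, ?_⟩
    exact (Multiset.le_sum_of_mem hl).trans (Equiv.Perm.sum_cycleType_le σ)
  have hkn : (3/8 + ε / 2) * ((Fintype.card (Fin n) : ℕ) : ℝ) ≤ ((Fintype.card (Fin k) : ℕ) : ℝ) := by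
    rw [Fintype.card_fin, Fintype.card_fin]
    have h1 : (d : ℝ) = k + k := by rw [hk]; push_cast; ring
    rw [h1] at hdn
    linarith
  obtain ⟨Fm, h1, h2, h3, h4⟩ := hn₀ (Fin n) (Fin k) G (fun l => σ.cycleType.count l)
    (by rw [Fintype.card_fin]; exact hn)
    (by
      intro v
      rw [hG v, Fintype.card_fin, hk]
      ring)
    hkn
    (ori_sum hσ.2 hσ2 _ hLs)
  obtain ⟨H, hH1, hH2, hH3⟩ := trans_main F G k σ hσ (Icc 3 (Fintype.card (Fin n))) hLs Fm h1 h2 h3 h4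
  exact ⟨k, H, hH1, hH2, hH3⟩

end Pool.Agent.OBW
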