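import Mathlib
import Pool.Agent.OBW.Stmts

/-!
# VORTEX: nested vertex and colour sets
-/

set_option autoImplicit false

namespace Pool.Agent.OBW

open Finset

/-- VORTEX sets: `Us 0 = univ ⊇ Us 1 ⊇ … ⊇ Us J`, each of size `⌊|previous| / g⌋`, the last one of size
between `m₀` and `g (m₀+1)`; nested colour sets `Cs j` of size `δ |Us j| ± 1`; every test set `T v`,
`v ∈ Us j`, has the right density in `Us (j+1)`. -/
def VtxStmt : Prop :=
  ∀ (g : ℕ) (ξ : ℝ), 2 ≤ g → 0 < ξ → ∃ m₁ : ℕ, ∀ m₀ : ℕ, m₁ ≤ m₀ →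
    ∀ (V C : Type) [Fintype V] [DecidableEq V] [Fintype C] [DecidableEq C]
      (T : V → Finset V) (δ : ℝ),
      m₀ ≤ Fintype.card V → 3/8 ≤ δ → δ ≤ 1/2 → (Fintype.card C : ℝ) = δ * Fintype.card V →
      (∀ v, (T v).card = 2 * Fintype.card C) →
      ∃ (J : ℕ) (Us : ℕ → Finset V) (Cs : ℕ → Finset C),
        Us 0 = univ ∧ Cs 0 = univ ∧
        (∀ j < J, Us (j + 1) ⊆ Us j ∧ (Us (j + 1)).card = (Us j).card / g ∧ Cs (j + 1) ⊆ Cs j) ∧
        (∀ j ≤ J, m₀ ≤ (Us j).card) ∧ (Us J).card ≤ g * (m₀ + 1) ∧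
        (∀ j ≤ J, |((Cs j).card : ℝ) - δ * ((Us j).card : ℝ)| ≤ 1) ∧
        (∀ j < J, ∀ v ∈ Us j,
          |((T v ∩ Us (j + 1)).card : ℝ) - 2 * δ * ((Us (j + 1)).card : ℝ)| ≤ ξ * ((Us (j + 1)).card : ℝ))

lemma mem_nb_full {V C : Type} [Fintype V] [DecidableEq V] [Fintype C] [DecidableEq C]
    (G : SimpleGraph V) (u v : V) : u ∈ nb (full C G) v ↔ G.Adj v u := by
  classical
  unfold nb full
  simp

lemma card_nb_full {V C : Type} [Fintype V] [DecidableEq V] [Fintype C] [DecidableEq C]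
    (G : SimpleGraph V) (v : V) : (nb (full C G) v).card = Nat.card (G.neighborSet v) := by
  classical
  rw [Nat.card_eq_fintype_card, ← Set.toFinset_card]
  congr 1
  ext u
  rw [mem_nb_full]
  simp

/-- `(k)^{-1/4}` -/
noncomputable def vtxPhi (k : ℕ) : ℝ := (Real.sqrt (Real.sqrt (k : ℝ)))⁻¹

lemma vtx_analytic (g : ℕ) (ξ : ℝ) (_hg : 2 ≤ g) (hξ : 0 < ξ) :
    ∃ m₁ : ℕ, 10 ≤ m₁ ∧ ∀ k : ℕ, m₁ ≤ k →
      0 < vtxPhi k ∧ (g : ℝ) / vtxPhi k ≤ (k : ℝ) ∧
      2 * ((g : ℝ) * (k + 1)) * Real.exp (-(vtxPhi k ^ 2 * (k : ℝ) / 2)) < 1 ∧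
      30 * vtxPhi k ≤ ξ ∧ 26 * vtxPhi k + 1 ≤ 2.5 * (vtxPhi k * k) := by
  -- thresholds on  s = sqrt (sqrt k)
  set S : ℝ := max (max 10 (30 / ξ)) (400 * (g : ℝ)) with hS
  have hS10 : (10 : ℝ) ≤ S := (le_max_left _ _).trans (le_max_left _ _)
  have hSx : 30 / ξ ≤ S := (le_max_right _ _).trans (le_max_left _ _)
  have hSg : 400 * (g : ℝ) ≤ S := le_max_right _ _
  refine ⟨⌈S ^ 4⌉₊ + 10, by omega, ?_⟩
  intro k hk
  have hkS : S ^ 4 ≤ (k : ℝ) := by
    have h1 : S ^ 4 ≤ (⌈S ^ 4⌉₊ : ℝ) := Nat.le_ceil _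
    have h2 : ((⌈S ^ 4⌉₊ : ℕ) : ℝ) ≤ (k : ℝ) := by
      have : ⌈S ^ 4⌉₊ ≤ k := by omega
      exact_mod_cast this
    linarith
  set s : ℝ := Real.sqrt (Real.sqrt (k : ℝ)) with hs
  have hk0 : (0 : ℝ) ≤ (k : ℝ) := by positivity
  have hs2 : s ^ 2 = Real.sqrt (k : ℝ) := Real.sq_sqrt (Real.sqrt_nonneg _)
  have hs4 : s ^ 4 = (k : ℝ) := by
    have : s ^ 4 = (s ^ 2) ^ 2 := by ring
    rw [this, hs2, Real.sq_sqrt hk0]
  have hs0 : 0 ≤ s := Real.sqrt_nonneg _
  have hSs : S ≤ s := by
    by_contra h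
    push Not at h
    have : s ^ 4 < S ^ 4 := by
      apply pow_lt_pow_left₀ h hs0 (by norm_num)
    rw [hs4] at this
    linarith
  have hspos : 0 < s := by linarith
  have hphi : vtxPhi k = s⁻¹ := rfl
  have hg0 : (0 : ℝ) ≤ (g : ℝ) := by positivity
  refine ⟨by rw [hphi]; positivity, ?_, ?_, ?_, ?_⟩
  · rw [hphi, div_inv_eq_mul, ← hs4]
    have h1 : (g : ℝ) ≤ s := by linarith
    have h2 : (1 : ℝ) ≤ s := by linarith
    have h3 : (g : ℝ) * s ≤ s * s := mul_le_mul_of_nonneg_right h1 hs0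
    have h4 : s * s ≤ s ^ 4 := by
      have : s ^ 4 = (s * s) * (s * s) := by ring
      rw [this]
      have h5 : 1 ≤ s * s := by nlinarith
      nlinarith
    linarith
  · have e1 : vtxPhi k ^ 2 * (k : ℝ) / 2 = s ^ 2 / 2 := by
      rw [hphi, ← hs4]
      field_simp
    rw [e1]
    have hexp : (s ^ 2 / 2) ^ 3 / (Nat.factorial 3 : ℝ) ≤ Real.exp (s ^ 2 / 2) :=
      Real.pow_div_factorial_le_exp _ (by positivity) 3
    have hf : (Nat.factorial 3 : ℝ) = 6 := by norm_num [Nat.factorial]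
    rw [hf] at hexp
    have hE : 0 < Real.exp (s ^ 2 / 2) := Real.exp_pos _
    rw [Real.exp_neg, ← div_eq_mul_inv, div_lt_one hE]
    refine lt_of_lt_of_le ?_ hexp
    rw [← hs4]
    -- 2 g (s^4+1) < s^6/48
    have h1 : (1 : ℝ) ≤ s := by linarith
    have h2 : (1 : ℝ) ≤ s ^ 4 := one_le_pow₀ h1
    have h3 : 400 * (g : ℝ) ≤ s ^ 2 := by nlinarith
    have h4 : 0 < s ^ 4 := by positivity
    have h5 : (s ^ 2 / 2) ^ 3 / 6 = s ^ 2 * s ^ 4 / 48 := by ring
    rw [h5]
    have h6 : 400 * (g : ℝ) * s ^ 4 ≤ s ^ 2 * s ^ 4 := mul_le_mul_of_nonneg_right h3 h4.le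
    have h7 : 2 * ((g : ℝ) * (s ^ 4 + 1)) ≤ 4 * (g : ℝ) * s ^ 4 := by nlinarith
    have hgpos : 0 < (g : ℝ) := by
      have : 0 < g := by omega
      exact_mod_cast this
    have h8 : 4 * (g : ℝ) * s ^ 4 < 400 * (g : ℝ) * s ^ 4 / 48 := by
      have : 0 < (g : ℝ) * s ^ 4 := by positivity
      linarith
    linarith
  · rw [hphi]
    have h1 : 30 / ξ ≤ s := by linarith
    rw [div_le_iff₀ hξ] at h1
    rw [← div_eq_mul_inv, div_le_iff₀ hspos]
    linarith
  · rw [hphi, ← hs4]
    have e1 : s⁻¹ * s ^ 4 = s ^ 3 := by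
      field_simp
    rw [e1]
    have h1 : s⁻¹ ≤ 1 := by
      rw [inv_le_one₀ hspos]
      linarith
    have h2 : (1000 : ℝ) ≤ s ^ 3 := by
      have : (10 : ℝ) ^ 3 ≤ s ^ 3 := pow_le_pow_left₀ (by norm_num) (by linarith) 3
      linarith
    linarith

lemma vtx_phi_mono (k k' : ℕ) (hk' : 0 < k') (h : 2 * k' ≤ k) : vtxPhi k ≤ 0.85 * vtxPhi k' := by
  unfold vtxPhi
  have h1 : (0 : ℝ) < Real.sqrt (Real.sqrt (k' : ℝ)) := by
    have : (0 : ℝ) < (k' : ℝ) := by exact_mod_cast hk'
    positivity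
  have h2 : (1 / 0.85 : ℝ) * Real.sqrt (Real.sqrt (k' : ℝ)) ≤ Real.sqrt (Real.sqrt (k : ℝ)) := by
    apply Real.le_sqrt_of_sq_le
    rw [mul_pow, Real.sq_sqrt (Real.sqrt_nonneg _)]
    apply Real.le_sqrt_of_sq_le
    rw [mul_pow, Real.sq_sqrt (by positivity)]
    have h3 : (2 : ℝ) * (k' : ℝ) ≤ (k : ℝ) := by exact_mod_cast h
    have h4 : ((1 / 0.85 : ℝ) ^ 2) ^ 2 ≤ 2 := by norm_num
    have h5 : (0 : ℝ) ≤ (k' : ℝ) := by positivity
    nlinarith
  have h3 : (0 : ℝ) < Real.sqrt (Real.sqrt (k : ℝ)) := by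
    have : 0 < (1 / 0.85 : ℝ) * Real.sqrt (Real.sqrt (k' : ℝ)) := by positivity
    linarith
  rw [inv_eq_one_div, inv_eq_one_div, mul_one_div, div_le_div_iff₀ h3 h1]
  have := h2
  rw [div_mul_eq_mul_div, one_mul, div_le_iff₀ (by norm_num)] at this
  linarith

theorem vtx (hsub : SubStmt) : VtxStmt := by
  intro g ξ hg hξ
  obtain ⟨m₁, hm10, hA⟩ := vtx_analytic g ξ hg hξ
  refine ⟨m₁, ?_⟩
  intro m₀ hm₀ V C _ _ _ _ T δ hV hδ1 hδ2 hC hT
  have hg0 : 0 < g := by omega
  -- strong induction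
  have key : ∀ N : ℕ, ∀ (U : Finset V) (C' : Finset C), U.card = N → m₀ ≤ U.card →
      |((C'.card : ℝ)) - δ * (U.card : ℝ)| ≤ 1 →
      (∀ v ∈ U, |((T v ∩ U).card : ℝ) - 2 * δ * (U.card : ℝ)| ≤ 30 * vtxPhi U.card * U.card) →
      ∃ (J : ℕ) (Us : ℕ → Finset V) (Cs : ℕ → Finset C),
        Us 0 = U ∧ Cs 0 = C' ∧
        (∀ j < J, Us (j + 1) ⊆ Us j ∧ (Us (j + 1)).card = (Us j).card / g ∧ Cs (j + 1) ⊆ Cs j) ∧
        (∀ j ≤ J, m₀ ≤ (Us j).card) ∧ (Us J).card ≤ g * (m₀ + 1) ∧
        (∀ j ≤ J, |((Cs j).card : ℝ) - δ * ((Us j).card : ℝ)| ≤ 1) ∧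
        (∀ j < J, ∀ v ∈ Us j,
          |((T v ∩ Us (j + 1)).card : ℝ) - 2 * δ * ((Us (j + 1)).card : ℝ)| ≤ ξ * ((Us (j + 1)).card : ℝ)) := by
    intro N
    induction N using Nat.strong_induction_on with
    | _ N ih =>
      intro U C' hUN hUm hC' hTU
      by_cases hstop : U.card ≤ g * (m₀ + 1)
      · refine ⟨0, fun _ => U, fun _ => C', rfl, rfl, by simp, ?_, hstop, ?_, by simp⟩
        · intro j _; exact hUm
        · intro j _; exact hC'
      · push Not at hstop
        set k := U.card / g with hk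
        have hkm : m₀ + 1 ≤ k := by
          rw [hk, Nat.le_div_iff_mul_le hg0, mul_comm]
          exact hstop.le
        have hk1 : m₁ ≤ k := by omega
        obtain ⟨a1, a2, a3, a4, a5⟩ := hA k hk1
        have hgk : g * k ≤ U.card := Nat.mul_div_le _ _
        have hgk' : U.card < g * (k + 1) := by
          have := Nat.lt_mul_div_succ U.card hg0
          rw [← hk] at this
          exact this
        have h2k : 2 * k ≤ U.card := le_trans (Nat.mul_le_mul_right k hg) hgk
        have hkpos : 0 < k := by omega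
        have hkR : (0 : ℝ) < (k : ℝ) := by exact_mod_cast hkpos
        have hgR : (0 : ℝ) < (g : ℝ) := by exact_mod_cast hg0
        have hcardI : (Fintype.card {v // v ∈ U} : ℝ) ≤ (g : ℝ) * (k + 1) := by
          rw [Fintype.card_coe]
          exact_mod_cast hgk'.le
        obtain ⟨W, hW1, hW2, hW3⟩ := hsub V {v // v ∈ U} U g (fun v => T v.1) (vtxPhi k) hg0 a1
          (by rw [← hk]; exact a2) (by
            rw [← hk]
            refine lt_of_le_of_lt ?_ a3
            apply mul_le_mul_of_nonneg_right _ (Real.exp_pos _).le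
            linarith)
        rw [← hk] at hW2
        -- colour set
        have hδk : (0 : ℝ) ≤ δ * (W.card : ℝ) := by
          have : (0 : ℝ) ≤ (W.card : ℝ) := by positivity
          nlinarith
        set s := ⌊δ * (W.card : ℝ)⌋₊ with hs
        have hs1 : (s : ℝ) ≤ δ * (W.card : ℝ) := Nat.floor_le hδk
        have hs2 : δ * (W.card : ℝ) < s + 1 := Nat.lt_floor_add_one _
        have hUr : (2 : ℝ) * (k : ℝ) ≤ (U.card : ℝ) := by exact_mod_cast h2k
        have hk10 : (10 : ℝ) ≤ (k : ℝ) := by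
          have : 10 ≤ k := by omega
          exact_mod_cast this
        have hsC : s ≤ C'.card := by
          have h1 := (abs_le.1 hC').1
          have h2 : (s : ℝ) ≤ (C'.card : ℝ) := by
            rw [hW2] at hs1
            nlinarith
          exact_mod_cast h2
        obtain ⟨C1, hC1, hC1c⟩ := Finset.exists_subset_card_eq hsC
        have hC1' : |((C1.card : ℝ)) - δ * (W.card : ℝ)| ≤ 1 := by
          rw [hC1c, abs_le]
          constructor <;> linarith
        -- densities
        have hTW : ∀ v ∈ U, |((T v ∩ W).card : ℝ) - 2 * δ * (W.card : ℝ)| ≤ 30 * vtxPhi W.card * W.card := by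
          intro v hv
          have h1 := hW3 ⟨v, hv⟩
          have h2 := hTU v hv
          simp only at h1
          rw [Finset.inter_comm W (T v), Finset.inter_comm U (T v)] at h1
          rw [hW2] at h1 ⊢
          have hph := vtx_phi_mono U.card k hkpos h2k
          have hU0 : (0 : ℝ) ≤ (U.card : ℝ) := by positivity
          -- |U|/g between k and k+1
          have hq1 : (k : ℝ) ≤ (U.card : ℝ) / g := by
            rw [le_div_iff₀ hgR]
            have : ((g * k : ℕ) : ℝ) ≤ (U.card : ℝ) := by exact_mod_cast hgk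
            push_cast at this
            linarith
          have hq2 : (U.card : ℝ) / g ≤ (k : ℝ) + 1 := by
            rw [div_le_iff₀ hgR]
            have : (U.card : ℝ) ≤ ((g * (k + 1) : ℕ) : ℝ) := by exact_mod_cast hgk'.le
            push_cast at this
            linarith
          -- second: divide by g
          have h3 : |((T v ∩ U).card : ℝ) / g - 2 * δ * ((U.card : ℝ) / g)| ≤
              30 * vtxPhi U.card * ((U.card : ℝ) / g) := by
            have e1 : ((T v ∩ U).card : ℝ) / g - 2 * δ * ((U.card : ℝ) / g)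
                = (((T v ∩ U).card : ℝ) - 2 * δ * (U.card : ℝ)) / g := by ring
            have e2 : 30 * vtxPhi U.card * ((U.card : ℝ) / g) = (30 * vtxPhi U.card * (U.card : ℝ)) / g := by
              ring
            rw [e1, e2, abs_div, abs_of_pos hgR]
            exact div_le_div_of_nonneg_right h2 hgR.le
          have h4 : |((T v ∩ U).card : ℝ) / g - 2 * δ * ((U.card : ℝ) / g)| ≤
              25.5 * vtxPhi k * ((k : ℝ) + 1) := by
            refine h3.trans ?_
            have e1 : 30 * vtxPhi U.card ≤ 25.5 * vtxPhi k := by linarith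
            have e2 : (0 : ℝ) ≤ (U.card : ℝ) / g := by positivity
            calc 30 * vtxPhi U.card * ((U.card : ℝ) / g) ≤ 25.5 * vtxPhi k * ((U.card : ℝ) / g) :=
                  mul_le_mul_of_nonneg_right e1 e2
              _ ≤ 25.5 * vtxPhi k * ((k : ℝ) + 1) :=
                  mul_le_mul_of_nonneg_left hq2 (by positivity)
          have h5 : |2 * δ * ((U.card : ℝ) / g) - 2 * δ * (k : ℝ)| ≤ 1 := by
            rw [abs_le]
            constructor <;> nlinarith
          have h6 : ((T v ∩ W).card : ℝ) - 2 * δ * (k : ℝ) =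
              (((T v ∩ W).card : ℝ) - ((T v ∩ U).card : ℝ) / g) +
              (((T v ∩ U).card : ℝ) / g - 2 * δ * ((U.card : ℝ) / g)) +
              (2 * δ * ((U.card : ℝ) / g) - 2 * δ * (k : ℝ)) := by ring
          rw [h6]
          refine (abs_add_three _ _ _).trans ?_
          have : 2 * vtxPhi k * (k : ℝ) + 25.5 * vtxPhi k * ((k : ℝ) + 1) + 1 ≤
              30 * vtxPhi k * (k : ℝ) := by nlinarith
          linarith
        have hWlt : W.card < N := by
          rw [hW2, ← hUN]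
          omega
        obtain ⟨J, Us, Cs, b1, b2, b3, b4, b5, b6, b7⟩ := ih W.card hWlt W C1 rfl
          (by rw [hW2]; omega) hC1' (fun v hv => hTW v (hW1 hv))
        refine ⟨J + 1, fun j => if j = 0 then U else Us (j - 1),
          fun j => if j = 0 then C' else Cs (j - 1), by simp, by simp, ?_, ?_, ?_, ?_, ?_⟩
        · intro j hj
          rcases Nat.eq_zero_or_pos j with h0 | h0
          · subst h0
            simp only [zero_add, one_ne_zero, if_false, if_true, Nat.sub_self, b1, b2]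
            exact ⟨hW1, hW2, hC1⟩
          · have hj0 : j ≠ 0 := by omega
            have hj1 : j + 1 ≠ 0 := by omega
            simp only [hj0, hj1, if_false, Nat.add_sub_cancel]
            have := b3 (j - 1) (by omega)
            rw [Nat.sub_add_cancel h0] at this
            exact this
        · intro j hj
          rcases Nat.eq_zero_or_pos j with h0 | h0
          · subst h0
            simpa using hUm
          · have hj0 : j ≠ 0 := by omega
            simp only [hj0, if_false]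
            exact b4 (j - 1) (by omega)
        · simpa using b5
        · intro j hj
          rcases Nat.eq_zero_or_pos j with h0 | h0
          · subst h0
            simpa using hC'
          · have hj0 : j ≠ 0 := by omega
            simp only [hj0, if_false]
            exact b6 (j - 1) (by omega)
        · intro j hj
          rcases Nat.eq_zero_or_pos j with h0 | h0
          · subst h0
            simp only [zero_add, one_ne_zero, if_false, if_true, Nat.sub_self, b1]
            intro v hv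
            refine (hTW v hv).trans ?_
            rw [hW2]
            apply mul_le_mul_of_nonneg_right a4 hkR.le
          · have hj0 : j ≠ 0 := by omega
            have hj1 : j + 1 ≠ 0 := by omega
            simp only [hj0, hj1, if_false, Nat.add_sub_cancel]
            have := b7 (j - 1) (by omega)
            rw [Nat.sub_add_cancel h0] at this
            exact this
  have hcu : (Finset.univ : Finset V).card = Fintype.card V := Finset.card_univ
  refine key (univ : Finset V).card univ univ rfl (by rw [hcu]; exact hV) ?_ ?_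
  · rw [Finset.card_univ, hcu, hC]
    simp
  · intro v _
    rw [Finset.inter_univ, hT v, hcu]
    push_cast
    rw [hC]
    have e1 : 2 * (δ * (Fintype.card V : ℝ)) - 2 * δ * (Fintype.card V : ℝ) = 0 := by ring
    rw [e1, abs_zero]
    have : 0 ≤ vtxPhi (Fintype.card V) := by unfold vtxPhi; positivity
    positivity

end Pool.Agent.OBW
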