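import Mathlib
import Pool.Agent.OBW.Stmts
import Pool.Agent.OBW.Pcs
import Pool.Agent.OBW.Vtx

set_option autoImplicit false
set_option linter.unusedSectionVars false

/-!
OBW: the vortex induction, generic in the bound `LB L |V|` for the cycle lengths
(`LB L n = L`: milestone 1; `LB L n = n`: Case A of milestone 2).
-/

namespace Pool.Agent.OBW

open Finset

/-- cover down with lengths up to `LB L |U|` -/
def CdlG (LB : ℕ → ℕ → ℕ) : Prop :=
  ∀ (ε α : ℝ) (L : ℕ), 0 < ε → 0 < α → ∃ μ₀ : ℝ, 0 < μ₀ ∧ ∀ μ : ℝ, 0 < μ → μ ≤ μ₀ →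
    ∃ η₀ : ℝ, 0 < η₀ ∧ ∀ η : ℝ, 0 < η → η ≤ η₀ → ∃ ξ : ℝ, 0 < ξ ∧ ∃ m₀ : ℕ,
    ∀ (V C : Type) [Fintype V] [DecidableEq V] [Fintype C] [DecidableEq C]
      (δ : ℝ) (U U' U'' : Finset V) (D D' D'' : Finset C) (S : Finset (Item V C)) (ls : ℕ) (N : ℕ → ℕ),
      m₀ ≤ U.card → Stage δ ε η ξ μ U U' D D' S → (∀ v, (nb S v).card = 2 * (cl S v).card) →
      U'' ⊆ U' → D'' ⊆ D' → (U''.card : ℝ) ≤ μ * U'.card → (D''.card : ℝ) ≤ μ * U'.card →
      3 ≤ ls → ls ≤ L →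
      (∑ l ∈ (Icc 3 (LB L U.card)).erase ls, (l : ℝ) * (N l : ℝ) ≤ (1 - α) * U.card) →
      (∀ c ∈ D, ∃ k : ℕ, (vt S c).card = ls * k + ∑ l ∈ (Icc 3 (LB L U.card)).erase ls, l * N l) →
      ∃ F : Finset (Finset (Item V C)),
        (∀ p ∈ F, p ⊆ S ∧ ∃ l ∈ Icc 3 (LB L U.card), ∃ c ∈ D, IsPiece l c p) ∧ PD F ∧
        (∀ c ∈ D, ∀ l ∈ (Icc 3 (LB L U.card)).erase ls, cnt F l c = N l) ∧
        Inside U' D' (S \ un F) ∧
        (∀ v ∈ U', ((nb (un F) v ∩ U').card : ℝ) ≤ η * μ * U'.card / 2) ∧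
        (∀ v ∈ U', ((cl (un F) v ∩ D').card : ℝ) ≤ η * μ * U'.card / 2) ∧
        (∀ c ∈ D', ((vt (un F) c ∩ U').card : ℝ) ≤ η * μ * U'.card / 2) ∧
        (∀ u ∈ U'', ∀ v ∈ U'', (Sum.inl s(u, v) : Item V C) ∉ un F) ∧
        (∀ u ∈ U'', ∀ c ∈ D'', (Sum.inr (u, c) : Item V C) ∉ un F)

/-- main theorem with lengths up to `LB L |V|` -/
def MainG (LB : ℕ → ℕ → ℕ) : Prop :=
  ∀ (ε : ℝ) (L : ℕ), 0 < ε → ∃ n₀ : ℕ,
    ∀ (V C : Type) [Fintype V] [DecidableEq V] [Fintype C] [DecidableEq C]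
      (G : SimpleGraph V) (N : ℕ → ℕ),
      n₀ ≤ Fintype.card V →
      (∀ v, Nat.card (G.neighborSet v) = 2 * Fintype.card C) →
      (3/8 + ε) * (Fintype.card V : ℝ) ≤ Fintype.card C →
      (∑ l ∈ Icc 3 (LB L (Fintype.card V)), l * N l = Fintype.card V) →
      Fintype.card V ≤ 2 * ∑ l ∈ Icc 3 L, l * N l →
      ∃ F : Finset (Finset (Item V C)),
        (∀ p ∈ F, ∃ l ∈ Icc 3 (LB L (Fintype.card V)), ∃ c, IsPiece l c p) ∧ PD F ∧
        un F = full C G ∧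
        (∀ c, ∀ l ∈ Icc 3 (LB L (Fintype.card V)), cnt F l c = N l)

section
variable {V C : Type} [Fintype V] [DecidableEq V] [Fintype C] [DecidableEq C]

lemma vi_full_inr (G : SimpleGraph V) (v : V) (c : C) : (Sum.inr (v, c) : Item V C) ∈ full C G := by
  classical
  unfold full
  simp

lemma vi_full_inl (G : SimpleGraph V) (u v : V) :
    (Sum.inl s(u, v) : Item V C) ∈ full C G ↔ G.Adj u v := by
  rw [← mem_nb_full (C := C) G v u, pcs_mem_nb]

/-- the data of one level form a `Stage` -/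
lemma vi_stage (G : SimpleGraph V) (δ ε η ξ ξ' μ : ℝ) (U U' : Finset V) (D D' : Finset C)
    (Z : Finset (Item V C))
    (hsubU : U' ⊆ U) (hsubD : D' ⊆ D) (hins : Inside U D (full C G \ Z))
    (hδlo : 3/8 + ε ≤ δ) (hδhi : δ ≤ 1/2)
    (dD : |(D.card : ℝ) - δ * U.card| ≤ 1) (dD' : |(D'.card : ℝ) - δ * U'.card| ≤ 1)
    (Ulo : μ * U.card - 1 ≤ U'.card) (Uhi : (U'.card : ℝ) ≤ μ * U.card)
    (hZ1 : ∀ u ∈ U', ∀ v ∈ U', (Sum.inl s(u, v) : Item V C) ∉ Z)
    (hZ2 : ∀ u ∈ U', ∀ c ∈ D', (Sum.inr (u, c) : Item V C) ∉ Z)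
    (hl1 : ∀ v ∈ U, ((nb Z v ∩ U).card : ℝ) ≤ η * μ / 2 * U.card)
    (hl2 : ∀ v ∈ U, ((cl Z v ∩ D).card : ℝ) ≤ η * μ / 2 * U.card)
    (hl3 : ∀ c ∈ D, ((vt Z c ∩ U).card : ℝ) ≤ η * μ / 2 * U.card)
    (hT : ∀ v ∈ U, |((nb (full C G) v ∩ U').card : ℝ) - 2 * δ * (U'.card : ℝ)| ≤ ξ' * U'.card)
    (hη : 0 < η) (hμ1 : μ ≤ 1) (hU2 : 2 ≤ μ * U.card)
    (hξε : ξ' + η ≤ ε) (hξξ : 2 * ξ' ≤ ξ) (hξU : 2 ≤ ξ' * U'.card) :
    Stage δ ε η ξ μ U U' D D' (full C G \ Z) := by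
  have hU0 : (0 : ℝ) ≤ (U.card : ℝ) := Nat.cast_nonneg _
  have hU'0 : (0 : ℝ) ≤ (U'.card : ℝ) := Nat.cast_nonneg _
  have hhalf : μ * U.card / 2 ≤ (U'.card : ℝ) := by linarith
  have hκ : η * μ / 2 * U.card ≤ η * U'.card := by
    have := mul_le_mul_of_nonneg_left hhalf hη.le
    linarith
  have hκ2 : η * μ / 2 * U.card ≤ η * U.card := by
    have h1 : η * μ ≤ η * 1 := mul_le_mul_of_nonneg_left hμ1 hη.le
    have h2 : η * μ * U.card ≤ η * U.card := by
      have := mul_le_mul_of_nonneg_right h1 hU0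
      linarith
    have h3 : 0 ≤ η * U.card := mul_nonneg hη.le hU0
    linarith
  have hcl : ∀ v, D \ cl (full C G \ Z) v ⊆ cl Z v ∩ D := by
    intro v c hc
    rw [mem_sdiff, pcs_mem_cl, mem_sdiff] at hc
    rw [mem_inter, pcs_mem_cl]
    refine ⟨?_, hc.1⟩
    by_contra h
    exact hc.2 ⟨vi_full_inr G v c, h⟩
  have hvt : ∀ c, U \ vt (full C G \ Z) c ⊆ vt Z c ∩ U := by
    intro c v hv
    rw [mem_sdiff, pcs_mem_vt, mem_sdiff] at hv
    rw [mem_inter, pcs_mem_vt]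
    refine ⟨?_, hv.1⟩
    by_contra h
    exact hv.2 ⟨vi_full_inr G v c, h⟩
  refine ⟨hsubU, hsubD, hins, hδlo, hδhi, dD, dD', Ulo, Uhi, ?_, ?_, ?_, ?_, ?_, ?_, ?_⟩
  · intro v hv
    have h1 : ((D \ cl (full C G \ Z) v).card : ℝ) ≤ ((cl Z v ∩ D).card : ℝ) := by
      exact_mod_cast Finset.card_le_card (hcl v)
    have := hl2 v hv
    linarith
  · intro v hv
    have h0 : D' \ cl (full C G \ Z) v ⊆ cl Z v ∩ D := by
      intro c hc
      apply hcl v
      rw [mem_sdiff] at hc ⊢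
      exact ⟨hsubD hc.1, hc.2⟩
    have h1 : ((D' \ cl (full C G \ Z) v).card : ℝ) ≤ ((cl Z v ∩ D).card : ℝ) := by
      exact_mod_cast Finset.card_le_card h0
    have := hl2 v hv
    linarith
  · intro c hc
    have h1 : ((U \ vt (full C G \ Z) c).card : ℝ) ≤ ((vt Z c ∩ U).card : ℝ) := by
      exact_mod_cast Finset.card_le_card (hvt c)
    have := hl3 c hc
    linarith
  · intro c hc
    have h0 : U' \ vt (full C G \ Z) c ⊆ vt Z c ∩ U := by
      intro v hv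
      apply hvt c
      rw [mem_sdiff] at hv ⊢
      exact ⟨hsubU hv.1, hv.2⟩
    have h1 : ((U' \ vt (full C G \ Z) c).card : ℝ) ≤ ((vt Z c ∩ U).card : ℝ) := by
      exact_mod_cast Finset.card_le_card h0
    have := hl3 c hc
    linarith
  · intro v hv
    have h0 : nb (full C G) v ∩ U' ⊆ (nb (full C G \ Z) v ∩ U') ∪ (nb Z v ∩ U) := by
      intro u hu
      rw [mem_inter, pcs_mem_nb] at hu
      rw [mem_union, mem_inter, mem_inter, pcs_mem_nb, pcs_mem_nb, mem_sdiff]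
      by_cases h : (Sum.inl s(v, u) : Item V C) ∈ Z
      · exact Or.inr ⟨h, hsubU hu.2⟩
      · exact Or.inl ⟨⟨hu.1, h⟩, hu.2⟩
    have h1 : ((nb (full C G) v ∩ U').card : ℝ) ≤
        ((nb (full C G \ Z) v ∩ U').card : ℝ) + ((nb Z v ∩ U).card : ℝ) := by
      exact_mod_cast (Finset.card_le_card h0).trans (Finset.card_union_le _ _)
    have h2 := hl1 v hv
    have h3 := (abs_le.1 (hT v hv)).1
    have h4 : 2 * (3/8 + ε) * (U'.card : ℝ) ≤ 2 * δ * (U'.card : ℝ) := by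
      apply mul_le_mul_of_nonneg_right _ hU'0
      linarith
    have h5 : (ξ' + η) * (U'.card : ℝ) ≤ ε * U'.card := mul_le_mul_of_nonneg_right hξε hU'0
    nlinarith
  · intro v hv c hc
    rw [mem_sdiff]
    exact ⟨vi_full_inr G v c, hZ2 v hv c hc⟩
  · intro v hv
    have h0 : nb (full C G \ Z) v ∩ U' = nb (full C G) v ∩ U' := by
      ext u
      rw [mem_inter, mem_inter, pcs_mem_nb, pcs_mem_nb, mem_sdiff]
      constructor
      · rintro ⟨⟨h1, _⟩, h2⟩; exact ⟨h1, h2⟩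
      · rintro ⟨h1, h2⟩; exact ⟨⟨h1, hZ1 v hv u h2⟩, h2⟩
    rw [h0]
    have h1 := abs_le.1 (hT v (hsubU hv))
    have h2 := abs_le.1 dD'
    have h3 : 2 * ξ' * (U'.card : ℝ) ≤ ξ * U'.card := mul_le_mul_of_nonneg_right hξξ hU'0
    rw [abs_le]
    constructor <;> linarith [h1.1, h1.2, h2.1, h2.2]

/-- invariant after the levels `< j` (`A, B` = the current sets, `A', B'` = the next sets) -/
structure VP (LM ls : ℕ) (N : ℕ → ℕ) (κ : ℝ) (Fu R : Finset (Item V C)) (A A' : Finset V)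
    (B B' : Finset C) (F : Finset (Finset (Item V C))) : Prop where
  pc : ∀ p ∈ F, ∃ l ∈ Icc 3 LM, ∃ c, IsPiece l c p
  pd : PD F
  sub : un F ⊆ Fu \ R
  ct : ∀ c, ∀ l ∈ (Icc 3 LM).erase ls, cnt F l c = N l
  ins : Inside A B ((Fu \ R) \ un F)
  n1 : ∀ u ∈ A', ∀ v ∈ A', (Sum.inl s(u, v) : Item V C) ∉ un F
  n2 : ∀ u ∈ A', ∀ c ∈ B', (Sum.inr (u, c) : Item V C) ∉ un F
  l1 : ∀ v ∈ A, ((nb (un F) v ∩ A).card : ℝ) ≤ κ * A.card
  l2 : ∀ v ∈ A, ((cl (un F) v ∩ B).card : ℝ) ≤ κ * A.card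
  l3 : ∀ c ∈ B, ((vt (un F) c ∩ A).card : ℝ) ≤ κ * A.card

/-- counting: the rest is balanced and `ls`-divisible -/
lemma vi_count (G : SimpleGraph V) (LM ls : ℕ) (N : ℕ → ℕ) (R : Finset (Item V C))
    (F : Finset (Finset (Item V C)))
    (hreg : ∀ v, Nat.card (G.neighborSet v) = 2 * Fintype.card C)
    (hR : R ⊆ full C G) (hdec : Dec ls R) (hls : ls ∈ Icc 3 LM)
    (hsum : ∑ l ∈ Icc 3 LM, l * N l = Fintype.card V)
    (hpc : ∀ p ∈ F, ∃ l ∈ Icc 3 LM, ∃ c, IsPiece l c p) (hpd : PD F) (hsub : un F ⊆ full C G \ R)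
    (hct : ∀ c, ∀ l ∈ (Icc 3 LM).erase ls, cnt F l c = N l) :
    (∀ v, (nb ((full C G \ R) \ un F) v).card = 2 * (cl ((full C G \ R) \ un F) v).card) ∧
    (∀ c, ls ∣ (vt ((full C G \ R) \ un F) c).card) := by
  classical
  obtain ⟨FR, hFR1, hFR2, hFR3⟩ := hdec
  constructor
  · intro v
    have e1 := pcs_nb_sdiff hsub v
    have e2 := pcs_nb_sdiff hR v
    have e3 := pcs_cl_sdiff hsub v
    have e4 := pcs_cl_sdiff hR v
    have e5 : (nb R v).card = 2 * (cl R v).card := by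
      rw [← hFR3]
      exact pcs_bal_un hFR2 (fun q hq => by
        obtain ⟨c, hc⟩ := hFR1 q hq
        exact ⟨ls, c, hc⟩) v
    have e6 : (nb (un F) v).card = 2 * (cl (un F) v).card :=
      pcs_bal_un hpd (fun q hq => by
        obtain ⟨l, _, c, hc⟩ := hpc q hq
        exact ⟨l, c, hc⟩) v
    have e7 : (nb (full C G) v).card = 2 * (cl (full C G) v).card := by
      rw [card_nb_full, hreg v]
      have : cl (full C G) v = univ := by
        ext c
        rw [pcs_mem_cl]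
        simp [vi_full_inr]
      rw [this, Finset.card_univ]
    omega
  · intro c
    have e1 := pcs_vt_sdiff hsub c
    have e2 := pcs_vt_sdiff hR c
    have e3 : (vt (full C G) c).card = Fintype.card V := by
      have : vt (full C G) c = univ := by
        ext v
        rw [pcs_mem_vt]
        simp [vi_full_inr]
      rw [this, Finset.card_univ]
    have e4 : ls ∣ (vt R c).card := by
      rw [← hFR3, pcs_vt_cnt hFR2 {ls} (fun q hq => by
        obtain ⟨c, hc⟩ := hFR1 q hq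
        exact ⟨ls, Finset.mem_singleton_self _, c, hc⟩)]
      rw [Finset.sum_singleton]
      exact Dvd.intro _ rfl
    have e5 := pcs_vt_cnt hpd (Icc 3 LM) hpc c
    rw [← Finset.add_sum_erase _ _ hls] at e5 hsum
    have e6 : ∑ l ∈ (Icc 3 LM).erase ls, l * cnt F l c = ∑ l ∈ (Icc 3 LM).erase ls, l * N l :=
      Finset.sum_congr rfl (fun l hl => by rw [hct c l hl])
    have e7 : (vt ((full C G \ R) \ un F) c).card + ((vt R c).card + ls * cnt F ls c) = ls * N ls := by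
      omega
    have e8 : ls ∣ (vt R c).card + ls * cnt F ls c := Dvd.dvd.add e4 (Dvd.intro _ rfl)
    exact (Nat.dvd_add_iff_left e8).2 (e7 ▸ Dvd.intro _ rfl)

/-- one level: the invariant passes to the next level -/
lemma vi_step {LM ls : ℕ} {N₁ N₂ : ℕ → ℕ} {κ : ℝ} {Fu R : Finset (Item V C)} {A A' A'' : Finset V}
    {B B' B'' : Finset C} {F F' : Finset (Finset (Item V C))}
    (h : VP LM ls N₁ κ Fu R A A' B B' F) (hAA : A'' ⊆ A') (hBB : B'' ⊆ B')
    (q1 : ∀ p ∈ F', p ⊆ (Fu \ R) \ un F ∧ ∃ l ∈ Icc 3 LM, ∃ c, IsPiece l c p) (q2 : PD F')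
    (q3 : ∀ c, ∀ l ∈ (Icc 3 LM).erase ls, cnt F' l c = N₂ l)
    (q4 : Inside A' B' (((Fu \ R) \ un F) \ un F'))
    (q5 : ∀ v ∈ A', ((nb (un F') v ∩ A').card : ℝ) ≤ κ * A'.card)
    (q6 : ∀ v ∈ A', ((cl (un F') v ∩ B').card : ℝ) ≤ κ * A'.card)
    (q7 : ∀ c ∈ B', ((vt (un F') c ∩ A').card : ℝ) ≤ κ * A'.card)
    (q8 : ∀ u ∈ A'', ∀ v ∈ A'', (Sum.inl s(u, v) : Item V C) ∉ un F')
    (q9 : ∀ u ∈ A'', ∀ c ∈ B'', (Sum.inr (u, c) : Item V C) ∉ un F') :
    VP LM ls (fun l => N₁ l + N₂ l) κ Fu R A' A'' B' B'' (F ∪ F') := by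
  have hsub' : un F' ⊆ (Fu \ R) \ un F := by
    intro i hi
    obtain ⟨q, hq, hiq⟩ := pcs_mem_un.1 hi
    exact (q1 q hq).1 hiq
  have hdis : Disjoint (un F) (un F') := by
    rw [Finset.disjoint_left]
    intro i hi hi'
    exact (mem_sdiff.1 (hsub' hi')).2 hi
  refine ⟨?_, pcs_pd_union h.pd q2 hdis, ?_, ?_, ?_, ?_, ?_, ?_, ?_, ?_⟩
  · intro p hp
    rcases mem_union.1 hp with hp | hp
    · exact h.pc p hp
    · exact (q1 p hp).2
  · rw [pcs_un_union]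
    apply Finset.union_subset h.sub
    exact hsub'.trans Finset.sdiff_subset
  · intro c l hl
    rw [pcs_cnt_union hdis, h.ct c l hl, q3 c l hl]
  · have : (Fu \ R) \ un (F ∪ F') = ((Fu \ R) \ un F) \ un F' := by
      rw [pcs_un_union]
      ext i
      simp only [mem_sdiff, mem_union]
      tauto
    rw [this]
    exact q4
  · intro u hu v hv hh
    rw [pcs_un_union, mem_union] at hh
    rcases hh with hh | hh
    · exact h.n1 u (hAA hu) v (hAA hv) hh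
    · exact q8 u hu v hv hh
  · intro u hu c hc hh
    rw [pcs_un_union, mem_union] at hh
    rcases hh with hh | hh
    · exact h.n2 u (hAA hu) c (hBB hc) hh
    · exact q9 u hu c hc hh
  · intro v hv
    refine le_trans ?_ (q5 v hv)
    have : nb (un (F ∪ F')) v ∩ A' ⊆ nb (un F') v ∩ A' := by
      intro u hu
      rw [mem_inter, pcs_mem_nb, pcs_un_union, mem_union] at hu
      rw [mem_inter, pcs_mem_nb]
      refine ⟨?_, hu.2⟩
      rcases hu.1 with h1 | h1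
      · exact absurd h1 (h.n1 v hv u hu.2)
      · exact h1
    exact_mod_cast Finset.card_le_card this
  · intro v hv
    refine le_trans ?_ (q6 v hv)
    have : cl (un (F ∪ F')) v ∩ B' ⊆ cl (un F') v ∩ B' := by
      intro u hu
      rw [mem_inter, pcs_mem_cl, pcs_un_union, mem_union] at hu
      rw [mem_inter, pcs_mem_cl]
      refine ⟨?_, hu.2⟩
      rcases hu.1 with h1 | h1
      · exact absurd h1 (h.n2 v hv u hu.2)
      · exact h1
    exact_mod_cast Finset.card_le_card this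
  · intro c hc
    refine le_trans ?_ (q7 c hc)
    have : vt (un (F ∪ F')) c ∩ A' ⊆ vt (un F') c ∩ A' := by
      intro u hu
      rw [mem_inter, pcs_mem_vt, pcs_un_union, mem_union] at hu
      rw [mem_inter, pcs_mem_vt]
      refine ⟨?_, hu.2⟩
      rcases hu.1 with h1 | h1
      · exact absurd h1 (h.n2 u hu.2 c hc)
      · exact h1
    exact_mod_cast Finset.card_le_card this

/-- final level: absorb the rest -/
lemma vi_final (G : SimpleGraph V) (LM ls : ℕ) (N : ℕ → ℕ) (κ : ℝ) (R : Finset (Item V C))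
    (A A' : Finset V) (B B' : Finset C) (F : Finset (Finset (Item V C)))
    (hR : R ⊆ full C G) (hls : ls ∈ Icc 3 LM)
    (hsum : ∑ l ∈ Icc 3 LM, l * N l = Fintype.card V)
    (h : VP LM ls N κ (full C G) R A A' B B' F)
    (hdec : Dec ls (R ∪ ((full C G \ R) \ un F))) :
    ∃ F : Finset (Finset (Item V C)),
      (∀ p ∈ F, ∃ l ∈ Icc 3 LM, ∃ c, IsPiece l c p) ∧ PD F ∧ un F = full C G ∧
      (∀ c, ∀ l ∈ Icc 3 LM, cnt F l c = N l) := by
  classical
  obtain ⟨FR, hFR1, hFR2, hFR3⟩ := hdec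
  have hdis : Disjoint (un F) (un FR) := by
    rw [Finset.disjoint_left]
    intro i hi hi'
    rw [hFR3, mem_union] at hi'
    rcases hi' with h1 | h1
    · exact (mem_sdiff.1 (h.sub hi)).2 h1
    · exact (mem_sdiff.1 h1).2 hi
  have hpd := pcs_pd_union h.pd hFR2 hdis
  have hpc : ∀ p ∈ F ∪ FR, ∃ l ∈ Icc 3 LM, ∃ c, IsPiece l c p := by
    intro p hp
    rcases mem_union.1 hp with hp | hp
    · exact h.pc p hp
    · obtain ⟨c, hc⟩ := hFR1 p hp
      exact ⟨ls, hls, c, hc⟩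
  have hun : un (F ∪ FR) = full C G := by
    rw [pcs_un_union, hFR3]
    ext i
    simp only [mem_union, mem_sdiff]
    constructor
    · rintro (h1 | h1 | h1)
      · exact (mem_sdiff.1 (h.sub h1)).1
      · exact hR h1
      · exact h1.1.1
    · intro h1
      by_cases h2 : i ∈ un F
      · exact Or.inl h2
      · by_cases h3 : i ∈ R
        · exact Or.inr (Or.inl h3)
        · exact Or.inr (Or.inr ⟨⟨h1, h3⟩, h2⟩)
  have hct : ∀ c, ∀ l ∈ (Icc 3 LM).erase ls, cnt (F ∪ FR) l c = N l := by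
    intro c l hl
    rw [pcs_cnt_union hdis, h.ct c l hl]
    have : cnt FR l c = 0 := by
      unfold cnt
      rw [Finset.card_eq_zero, Finset.filter_eq_empty_iff]
      intro q hq hq'
      obtain ⟨c', hc'⟩ := hFR1 q hq
      exact (Finset.mem_erase.1 hl).1 (grd_piece_unique hq' hc').1
    omega
  refine ⟨F ∪ FR, hpc, hpd, hun, ?_⟩
  intro c l hl
  by_cases hlls : l = ls
  · subst hlls
    have e1 := pcs_vt_cnt hpd (Icc 3 LM) hpc c
    rw [hun] at e1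
    have e3 : (vt (full C G) c).card = Fintype.card V := by
      have : vt (full C G) c = univ := by
        ext v
        rw [pcs_mem_vt]
        simp [vi_full_inr]
      rw [this, Finset.card_univ]
    rw [e3, ← hsum, ← Finset.add_sum_erase _ _ hl, ← Finset.add_sum_erase _ _ hl] at e1
    have e4 : ∑ l' ∈ (Icc 3 LM).erase l, l' * cnt (F ∪ FR) l' c = ∑ l' ∈ (Icc 3 LM).erase l, l' * N l' :=
      Finset.sum_congr rfl (fun l' hl' => by rw [hct c l' hl'])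
    have e5 : l * cnt (F ∪ FR) l c = l * N l := by omega
    have hl0 : 0 < l := by
      have := (Finset.mem_Icc.1 hl).1
      omega
    exact Nat.eq_of_mul_eq_mul_left hl0 e5
  · exact hct c l (Finset.mem_erase.2 ⟨hlls, hl⟩)

end

end Pool.Agent.OBW
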