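import Mathlib
import Pool.Agent.OBW.Vind

set_option autoImplicit false
set_option linter.unusedSectionVars false

/-!
OBW: the vortex induction, main theorem.
-/

namespace Pool.Agent.OBW

open Finset

section
variable {V C : Type} [Fintype V] [DecidableEq V] [Fintype C] [DecidableEq C]

lemma vm_card_nb (R : Finset (Item V C)) (v : V) : (nb R v).card ≤ R.card := by
  apply Finset.card_le_card_of_injOn (fun u => (Sum.inl s(v, u) : Item V C))
  · intro u hu
    exact pcs_mem_nb.1 hu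
  · intro u _ u' _ h
    exact Sym2.congr_right.1 (Sum.inl.inj h)

lemma vm_card_cl (R : Finset (Item V C)) (v : V) : (cl R v).card ≤ R.card := by
  apply Finset.card_le_card_of_injOn (fun c => (Sum.inr (v, c) : Item V C))
  · intro u hu
    exact pcs_mem_cl.1 hu
  · intro u _ u' _ h
    exact (Prod.ext_iff.1 (Sum.inr.inj h)).2

lemma vm_card_vt (R : Finset (Item V C)) (c : C) : (vt R c).card ≤ R.card := by
  apply Finset.card_le_card_of_injOn (fun v => (Sum.inr (v, c) : Item V C))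
  · intro u hu
    exact pcs_mem_vt.1 hu
  · intro u _ u' _ h
    exact (Prod.ext_iff.1 (Sum.inr.inj h)).1

lemma vm_sdiff (X R F : Finset (Item V C)) : X \ (R ∪ F) = (X \ R) \ F := by
  ext i
  simp only [mem_sdiff, mem_union]
  tauto

lemma vm_pigeon (L n : ℕ) (N : ℕ → ℕ) (hL : 3 ≤ L) (_hn : 0 < n)
    (h : n ≤ 2 * ∑ l ∈ Icc 3 L, l * N l) : ∃ ls ∈ Icc 3 L, n ≤ 2 * L * (ls * N ls) := by
  by_contra hcon
  push Not at hcon
  have hne : (Icc 3 L).Nonempty := ⟨3, Finset.mem_Icc.2 ⟨le_rfl, hL⟩⟩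
  have h1 : ∑ l ∈ Icc 3 L, 2 * L * (l * N l) < ∑ _l ∈ Icc 3 L, n :=
    Finset.sum_lt_sum_of_nonempty hne hcon
  rw [← Finset.mul_sum, Finset.sum_const, smul_eq_mul, Nat.card_Icc] at h1
  have h2 : (L + 1 - 3) * n ≤ L * n := Nat.mul_le_mul_right n (by omega)
  have h3 : L * n ≤ L * (2 * ∑ l ∈ Icc 3 L, l * N l) := Nat.mul_le_mul_left L h
  have h4 : L * (2 * ∑ l ∈ Icc 3 L, l * N l) = 2 * L * ∑ l ∈ Icc 3 L, l * N l := by ring
  omega

end

theorem vi_main (LB : ℕ → ℕ → ℕ) (hLB : ∀ L n, L ≤ n → L ≤ LB L n)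
    (h0 : CdlG LB) (h1 : CdlStmt) (hAbs : AbsStmt) (hVtx : VtxStmt) : MainG LB := by
  classical
  intro ε L hε
  by_cases hL3 : L < 3
  · refine ⟨1, ?_⟩
    intro V C _ _ _ _ G N hn _ _ _ hhalf
    exfalso
    have : Icc 3 L = ∅ := Finset.Icc_eq_empty (by omega)
    rw [this, Finset.sum_empty] at hhalf
    omega
  push Not at hL3
  have hLpos : (0 : ℝ) < (L : ℝ) := by
    have : 0 < L := by omega
    exact_mod_cast this
  have hL1 : (1 : ℝ) ≤ (L : ℝ) := by
    have : 1 ≤ L := by omega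
    exact_mod_cast this
  obtain ⟨α, hα⟩ : ∃ α : ℝ, α = 1 / (2 * L) := ⟨_, rfl⟩
  have hαpos : 0 < α := by rw [hα]; positivity
  have hα1 : α ≤ 1 := by
    rw [hα, div_le_one (by positivity)]
    linarith
  obtain ⟨μA, hμA, HA⟩ := h0 ε α L hε hαpos
  obtain ⟨μB, hμB, HB⟩ := h1 ε α L hε hαpos
  obtain ⟨g, hg⟩ := exists_nat_gt (max (max (1/μA) (1/μB)) (max (1/ε) 8))
  have hg1 : 1/μA < g := lt_of_le_of_lt ((le_max_left _ _).trans (le_max_left _ _)) hg
  have hg2 : 1/μB < g := lt_of_le_of_lt ((le_max_right _ _).trans (le_max_left _ _)) hg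
  have hg3 : 1/ε < g := lt_of_le_of_lt ((le_max_left _ _).trans (le_max_right _ _)) hg
  have hg4 : (8 : ℝ) < g := lt_of_le_of_lt ((le_max_right _ _).trans (le_max_right _ _)) hg
  have hgN : 8 < g := by exact_mod_cast hg4
  have hgpos : (0 : ℝ) < (g : ℝ) := by linarith
  obtain ⟨μ, hμ⟩ : ∃ μ : ℝ, μ = 1 / (g : ℝ) := ⟨_, rfl⟩
  have hμpos : 0 < μ := by rw [hμ]; positivity
  have hμg : μ * g = 1 := by rw [hμ]; field_simp
  have hμ8 : μ ≤ 1/8 := by
    rw [hμ, div_le_div_iff₀ hgpos (by norm_num)]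
    linarith
  have hμμA : μ ≤ μA := by
    rw [hμ, div_le_iff₀ hgpos]
    rw [div_lt_iff₀ hμA] at hg1
    linarith
  have hμμB : μ ≤ μB := by
    rw [hμ, div_le_iff₀ hgpos]
    rw [div_lt_iff₀ hμB] at hg2
    linarith
  have hμε : μ ≤ ε := by
    rw [hμ, div_le_iff₀ hgpos]
    rw [div_lt_iff₀ hε] at hg3
    linarith
  obtain ⟨ηA, hηA, HA⟩ := HA μ hμpos hμμA
  obtain ⟨ηB, hηB, HB⟩ := HB μ hμpos hμμB
  obtain ⟨η, hη⟩ : ∃ η : ℝ, η = min (min ηA ηB) (ε/2) := ⟨_, rfl⟩
  have hηpos : 0 < η := by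
    rw [hη]
    exact lt_min (lt_min hηA hηB) (by linarith)
  have hη1 : η ≤ ηA := by rw [hη]; exact (min_le_left _ _).trans (min_le_left _ _)
  have hη2 : η ≤ ηB := by rw [hη]; exact (min_le_left _ _).trans (min_le_right _ _)
  have hη3 : η ≤ ε/2 := by rw [hη]; exact min_le_right _ _
  obtain ⟨ξA, hξA, mA, HA⟩ := HA η hηpos hη1
  obtain ⟨ξB, hξB, mB, HB⟩ := HB η hηpos hη2
  obtain ⟨ξ', hξ'⟩ : ∃ ξ' : ℝ, ξ' = min (min (ξA/2) (ξB/2)) (ε/2) := ⟨_, rfl⟩
  have hξpos : 0 < ξ' := by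
    rw [hξ']
    exact lt_min (lt_min (by linarith) (by linarith)) (by linarith)
  have hξ1 : 2 * ξ' ≤ ξA := by
    have : ξ' ≤ ξA/2 := by rw [hξ']; exact (min_le_left _ _).trans (min_le_left _ _)
    linarith
  have hξ2 : 2 * ξ' ≤ ξB := by
    have : ξ' ≤ ξB/2 := by rw [hξ']; exact (min_le_left _ _).trans (min_le_right _ _)
    linarith
  have hξ3 : ξ' + η ≤ ε := by
    have : ξ' ≤ ε/2 := by rw [hξ']; exact min_le_right _ _
    linarith
  obtain ⟨m₁, HV⟩ := hVtx g ξ' (by omega) hξpos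
  obtain ⟨m₀, hm₀⟩ : ∃ m₀ : ℕ, m₀ = max (max mA mB) (max m₁ (max (2 * g) ⌈2 / ξ'⌉₊)) := ⟨_, rfl⟩
  have hmA : mA ≤ m₀ := by rw [hm₀]; exact (le_max_left _ _).trans (le_max_left _ _)
  have hmB : mB ≤ m₀ := by rw [hm₀]; exact (le_max_right _ _).trans (le_max_left _ _)
  have hm1 : m₁ ≤ m₀ := by rw [hm₀]; exact (le_max_left _ _).trans (le_max_right _ _)
  have hmg : 2 * g ≤ m₀ := by
    rw [hm₀]; exact ((le_max_left _ _).trans (le_max_right _ _)).trans (le_max_right _ _)
  have hmξ : ⌈2 / ξ'⌉₊ ≤ m₀ := by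
    rw [hm₀]; exact ((le_max_right _ _).trans (le_max_right _ _)).trans (le_max_right _ _)
  have hmξ' : 2 / ξ' ≤ (m₀ : ℝ) := (Nat.le_ceil _).trans (by exact_mod_cast hmξ)
  have hMg : 2 * (g : ℝ) ≤ (m₀ : ℝ) := by exact_mod_cast hmg
  have hm2 : ∀ k : ℕ, m₀ ≤ k → 2 ≤ μ * (k : ℝ) ∧ 2 ≤ ξ' * (k : ℝ) := by
    intro k hk
    have hk' : (m₀ : ℝ) ≤ (k : ℝ) := by exact_mod_cast hk
    constructor
    · have h2 : μ * (2 * (g : ℝ)) ≤ μ * (k : ℝ) := mul_le_mul_of_nonneg_left (by linarith) hμpos.le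
      linarith
    · rw [div_le_iff₀ hξpos] at hmξ'
      have h2 : ξ' * (m₀ : ℝ) ≤ ξ' * (k : ℝ) := mul_le_mul_of_nonneg_left hk' hξpos.le
      linarith
  have hAb : ∀ l : ℕ, ∃ n₀ B : ℕ, 3 ≤ l → ∀ (V C : Type) [Fintype V] [DecidableEq V] [Fintype C]
      [DecidableEq C] (G : SimpleGraph V) [DecidableRel G.Adj] (U₁ U : Finset V) (C₁ CJ : Finset C),
      n₀ ≤ Fintype.card V →
      (∀ v, (3/4 + ε) * (Fintype.card V : ℝ) ≤ ((univ.filter (fun u => G.Adj v u)).card : ℝ)) →
      (U₁.card : ℝ) ≤ ε * Fintype.card V →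
      (Fintype.card V : ℝ) / 4 ≤ ((univ \ C₁ : Finset C).card : ℝ) →
      U ⊆ U₁ → CJ ⊆ C₁ → U.card ≤ g * (m₀ + 1) → CJ.card ≤ g * (m₀ + 1) →
      ∃ R : Finset (Item V C), R.card ≤ B ∧
        (∀ u v, (Sum.inl s(u, v) : Item V C) ∈ R → G.Adj u v ∧ ¬ (u ∈ U₁ ∧ v ∈ U₁)) ∧
        (∀ v c, (Sum.inr (v, c) : Item V C) ∈ R → ¬ (v ∈ U₁ ∧ c ∈ C₁)) ∧
        (∀ Lo : Finset (Item V C), Inside U CJ Lo → Bal l Lo →
          (∀ u v, (Sum.inl s(u, v) : Item V C) ∈ Lo → G.Adj u v) → Dec l (R ∪ Lo)) := by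
    intro l
    by_cases hl : 3 ≤ l
    · obtain ⟨n₀, B, h⟩ := hAbs ε l (g * (m₀ + 1)) hε hl
      exact ⟨n₀, B, fun _ => h⟩
    · exact ⟨0, 0, fun h => absurd h hl⟩
  choose nA BA HAb using hAb
  obtain ⟨Bm, hBm⟩ : ∃ Bm : ℕ, Bm = (Icc 3 L).sup BA := ⟨_, rfl⟩
  obtain ⟨nm, hnm⟩ : ∃ nm : ℕ, nm = (Icc 3 L).sup nA := ⟨_, rfl⟩
  refine ⟨max (max nm (g * (m₀ + 1) + 1)) (max (max m₀ L) (max (2 * L * Bm) (max 16 ⌈2 * Bm / (η * μ)⌉₊))), ?_⟩
  intro V C _ _ _ _ G N hn hreg hd hsum hhalf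
  have hn1 : nm ≤ Fintype.card V := ((le_max_left _ _).trans (le_max_left _ _)).trans hn
  have hn2 : g * (m₀ + 1) + 1 ≤ Fintype.card V := ((le_max_right _ _).trans (le_max_left _ _)).trans hn
  have hn3 : m₀ ≤ Fintype.card V :=
    (((le_max_left _ _).trans (le_max_left _ _)).trans (le_max_right _ _)).trans hn
  have hn4 : L ≤ Fintype.card V :=
    (((le_max_right _ _).trans (le_max_left _ _)).trans (le_max_right _ _)).trans hn
  have hn5 : 2 * L * Bm ≤ Fintype.card V :=
    (((le_max_left _ _).trans (le_max_right _ _)).trans (le_max_right _ _)).trans hn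
  have hn6 : 16 ≤ Fintype.card V :=
    ((((le_max_left _ _).trans (le_max_right _ _)).trans (le_max_right _ _)).trans
      (le_max_right _ _)).trans hn
  have hn7 : ⌈2 * Bm / (η * μ)⌉₊ ≤ Fintype.card V :=
    ((((le_max_right _ _).trans (le_max_right _ _)).trans (le_max_right _ _)).trans
      (le_max_right _ _)).trans hn
  have hn7' : (Bm : ℝ) ≤ η * μ / 2 * Fintype.card V := by
    have h2 : 2 * (Bm : ℝ) / (η * μ) ≤ (Fintype.card V : ℝ) :=
      (Nat.le_ceil _).trans (by exact_mod_cast hn7)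
    rw [div_le_iff₀ (by positivity)] at h2
    linarith
  have hnR : (16 : ℝ) ≤ (Fintype.card V : ℝ) := by exact_mod_cast hn6
  have hnpos : (0 : ℝ) < (Fintype.card V : ℝ) := by linarith
  -- δ
  obtain ⟨δ, hδ⟩ : ∃ δ : ℝ, δ = (Fintype.card C : ℝ) / (Fintype.card V : ℝ) := ⟨_, rfl⟩
  have hδC : (Fintype.card C : ℝ) = δ * Fintype.card V := by rw [hδ]; field_simp
  have hδlo : 3/8 + ε ≤ δ := by rw [hδ, le_div_iff₀ hnpos]; exact hd
  have hδhi : δ ≤ 1/2 := by
    rw [hδ, div_le_div_iff₀ hnpos (by norm_num)]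
    have hne : Nonempty V := by
      rw [← Fintype.card_pos_iff]; omega
    obtain ⟨v⟩ := hne
    have h2 := hreg v
    have h3 : Nat.card (G.neighborSet v) ≤ Nat.card V :=
      Nat.card_le_card_of_injective (fun x => x.1) Subtype.val_injective
    rw [h2, Nat.card_eq_fintype_card] at h3
    have h4 : (2 * Fintype.card C : ℝ) ≤ (Fintype.card V : ℝ) := by exact_mod_cast h3
    linarith
  have hδ0 : 0 ≤ δ := by linarith
  obtain ⟨LM, hLM⟩ : ∃ LM : ℕ, LM = LB L (Fintype.card V) := ⟨_, rfl⟩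
  have hLLM : L ≤ LM := by rw [hLM]; exact hLB L _ hn4
  rw [← hLM] at hsum
  rw [← hLM]
  -- ls
  obtain ⟨ls, hls, hlsN⟩ := vm_pigeon L (Fintype.card V) N hL3 (by omega) hhalf
  have hls3 := (Finset.mem_Icc.1 hls).1
  have hlsL := (Finset.mem_Icc.1 hls).2
  have hlsLM : ls ∈ Icc 3 LM := Finset.mem_Icc.2 ⟨hls3, hlsL.trans hLLM⟩
  -- vortex sets
  obtain ⟨J, Us, Cs, b1, b2, b3, b4, b5, b6, b7⟩ := HV m₀ hm1 V C (fun v => nb (full C G) v) δ
    hn3 (by linarith) hδhi hδC (fun v => by rw [card_nb_full, hreg v])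
  have hJ : 1 ≤ J := by
    by_contra h
    have hJ0 : J = 0 := by omega
    subst hJ0
    rw [b1, Finset.card_univ] at b5
    omega
  obtain ⟨A, hA⟩ : ∃ A : ℕ → Finset V, A = fun i => if i ≤ J then Us i else ∅ := ⟨_, rfl⟩
  obtain ⟨B, hB⟩ : ∃ B : ℕ → Finset C, B = fun i => if i ≤ J then Cs i else ∅ := ⟨_, rfl⟩
  have hAi : ∀ i ≤ J, A i = Us i := fun i hi => by rw [hA]; simp [hi]
  have hBi : ∀ i ≤ J, B i = Cs i := fun i hi => by rw [hB]; simp [hi]
  have hAo : ∀ i, J < i → A i = ∅ := fun i hi => by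
    rw [hA]; simp [Nat.not_le.2 hi]
  have hBo : ∀ i, J < i → B i = ∅ := fun i hi => by
    rw [hB]; simp [Nat.not_le.2 hi]
  have f1 : ∀ i, A (i + 1) ⊆ A i := by
    intro i
    rcases Nat.lt_or_ge i J with h | h
    · rw [hAi (i + 1) h, hAi i h.le]
      exact (b3 i h).1
    · rw [hAo (i + 1) (by omega)]
      exact Finset.empty_subset _
  have f2 : ∀ i, B (i + 1) ⊆ B i := by
    intro i
    rcases Nat.lt_or_ge i J with h | h
    · rw [hBi (i + 1) h, hBi i h.le]
      exact (b3 i h).2.2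
    · rw [hBo (i + 1) (by omega)]
      exact Finset.empty_subset _
  have f3 : ∀ i < J, μ * (A i).card - 1 ≤ (A (i + 1)).card ∧ ((A (i + 1)).card : ℝ) ≤ μ * (A i).card := by
    intro i h
    rw [hAi (i + 1) h, hAi i h.le, (b3 i h).2.1]
    have e1 : g * ((Us i).card / g) ≤ (Us i).card := Nat.mul_div_le _ _
    have e2 : (Us i).card < g * ((Us i).card / g + 1) := by
      have := Nat.lt_mul_div_succ (Us i).card (show 0 < g by omega)
      exact this
    have e1' : (g : ℝ) * (((Us i).card / g : ℕ) : ℝ) ≤ ((Us i).card : ℝ) := by exact_mod_cast e1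
    have e2' : ((Us i).card : ℝ) ≤ (g : ℝ) * ((((Us i).card / g : ℕ) : ℝ) + 1) := by
      exact_mod_cast e2.le
    constructor
    · have := mul_le_mul_of_nonneg_left e2' hμpos.le
      have e3 : μ * ((g : ℝ) * ((((Us i).card / g : ℕ) : ℝ) + 1)) = (((Us i).card / g : ℕ) : ℝ) + 1 := by
        rw [← mul_assoc, hμg, one_mul]
      linarith
    · have := mul_le_mul_of_nonneg_left e1' hμpos.le
      have e3 : μ * ((g : ℝ) * (((Us i).card / g : ℕ) : ℝ)) = (((Us i).card / g : ℕ) : ℝ) := by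
        rw [← mul_assoc, hμg, one_mul]
      linarith
  have f4 : ∀ i, ((A (i + 1)).card : ℝ) ≤ μ * (A i).card := by
    intro i
    rcases Nat.lt_or_ge i J with h | h
    · exact (f3 i h).2
    · rw [hAo (i + 1) (by omega)]
      simp only [Finset.card_empty, Nat.cast_zero]
      exact mul_nonneg hμpos.le (Nat.cast_nonneg _)
  have f5 : ∀ i ≤ J, ((B (i + 1)).card : ℝ) ≤ μ * (A i).card := by
    intro i hi
    rcases Nat.lt_or_ge i J with h | h
    · have e1 := (abs_le.1 (b6 (i + 1) h)).2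
      have e2 := f4 i
      rw [hAi (i + 1) h] at e2
      rw [hBi (i + 1) h]
      have e3 : m₀ ≤ (A i).card := by rw [hAi i hi]; exact b4 i hi
      have e4 := (hm2 _ e3).1
      have e5 : δ * ((Us (i + 1)).card : ℝ) ≤ 1/2 * ((Us (i + 1)).card : ℝ) :=
        mul_le_mul_of_nonneg_right hδhi (Nat.cast_nonneg _)
      linarith
    · rw [hBo (i + 1) (by omega)]
      simp only [Finset.card_empty, Nat.cast_zero]
      exact mul_nonneg hμpos.le (Nat.cast_nonneg _)
  have f6 : ∀ i, A (i + 1) ⊆ Us 1 := by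
    intro i
    induction i with
    | zero => rw [hAi 1 hJ]
    | succ i ih => exact (f1 (i + 1)).trans ih
  have f7 : ∀ i, B (i + 1) ⊆ Cs 1 := by
    intro i
    induction i with
    | zero => rw [hBi 1 hJ]
    | succ i ih => exact (f2 (i + 1)).trans ih
  -- absorber
  have hdeg : ∀ v, (3/4 + ε) * (Fintype.card V : ℝ) ≤ ((univ.filter (fun u => G.Adj v u)).card : ℝ) := by
    intro v
    have e1 : univ.filter (fun u => G.Adj v u) = nb (full C G) v := by
      ext u
      rw [mem_nb_full]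
      simp
    rw [e1, card_nb_full, hreg v]
    push_cast
    rw [hδC]
    nlinarith
  have hU1 : ((Us 1).card : ℝ) ≤ ε * Fintype.card V := by
    have e1 := f4 0
    rw [zero_add, hAi 1 hJ, hAi 0 (by omega), b1, Finset.card_univ] at e1
    have e2 : μ * (Fintype.card V : ℝ) ≤ ε * Fintype.card V := mul_le_mul_of_nonneg_right hμε hnpos.le
    linarith
  have hC1 : (Fintype.card V : ℝ) / 4 ≤ ((univ \ Cs 1 : Finset C).card : ℝ) := by
    have e1 := f5 0 (by omega)
    rw [zero_add, hBi 1 hJ, hAi 0 (by omega), b1, Finset.card_univ] at e1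
    have e2 : ((univ \ Cs 1 : Finset C).card : ℝ) = (Fintype.card C : ℝ) - ((Cs 1).card : ℝ) := by
      rw [Finset.card_sdiff_of_subset (Finset.subset_univ _), Finset.card_univ, Nat.cast_sub]
      exact Finset.card_le_univ _
    rw [e2, hδC]
    have e3 : μ * (Fintype.card V : ℝ) ≤ 1/8 * Fintype.card V := mul_le_mul_of_nonneg_right hμ8 hnpos.le
    have e4 : (3/8 : ℝ) * (Fintype.card V : ℝ) ≤ δ * Fintype.card V :=
      mul_le_mul_of_nonneg_right (by linarith) hnpos.le
    linarith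
  have hUJ1 : Us J ⊆ Us 1 := by
    have := f6 (J - 1)
    rw [Nat.sub_add_cancel hJ, hAi J le_rfl] at this
    exact this
  have hCJ1 : Cs J ⊆ Cs 1 := by
    have := f7 (J - 1)
    rw [Nat.sub_add_cancel hJ, hBi J le_rfl] at this
    exact this
  have hCJc : (Cs J).card ≤ g * (m₀ + 1) := by
    refine le_trans ?_ b5
    have e1 := (abs_le.1 (b6 J le_rfl)).2
    have e2 : m₀ ≤ (Us J).card := b4 J le_rfl
    have e3 : (16 : ℝ) ≤ ((Us J).card : ℝ) := by
      have : (m₀ : ℝ) ≤ ((Us J).card : ℝ) := by exact_mod_cast e2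
      linarith
    have e4 : δ * ((Us J).card : ℝ) ≤ 1/2 * ((Us J).card : ℝ) :=
      mul_le_mul_of_nonneg_right hδhi (Nat.cast_nonneg _)
    have e5 : ((Cs J).card : ℝ) ≤ ((Us J).card : ℝ) := by linarith
    exact_mod_cast e5
  have hnA : nA ls ≤ Fintype.card V := by
    refine le_trans ?_ hn1
    rw [hnm]
    exact Finset.le_sup (f := nA) hls
  obtain ⟨R, hRc, hR1, hR2, hR3⟩ := HAb ls hls3 V C G (Us 1) (Us J) (Cs 1) (Cs J) hnA hdeg hU1 hC1
    hUJ1 hCJ1 b5 hCJc
  have hRB : R.card ≤ Bm := by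
    refine hRc.trans ?_
    rw [hBm]
    exact Finset.le_sup (f := BA) hls
  have hRsub : R ⊆ full C G := by
    intro i hi
    rcases i with e | ⟨v, c⟩
    · induction e using Sym2.ind with
      | _ u v => exact (vi_full_inl G u v).2 (hR1 u v hi).1
    · exact vi_full_inr G v c
  have hRdec : Dec ls R := by
    have := hR3 ∅ ⟨by simp, by simp⟩ ⟨by simp [nb, cl], by simp [vt]⟩ (by simp)
    rwa [Finset.union_empty] at this
  -- stage lemma
  have hstg : ∀ j < J, ∀ ξ0 : ℝ, 2 * ξ' ≤ ξ0 → ∀ F : Finset (Finset (Item V C)),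
      Inside (A j) (B j) ((full C G \ R) \ un F) →
      (∀ u ∈ A (j + 1), ∀ v ∈ A (j + 1), (Sum.inl s(u, v) : Item V C) ∉ un F) →
      (∀ u ∈ A (j + 1), ∀ c ∈ B (j + 1), (Sum.inr (u, c) : Item V C) ∉ un F) →
      (∀ v ∈ A j, ((nb (R ∪ un F) v ∩ A j).card : ℝ) ≤ η * μ / 2 * (A j).card) →
      (∀ v ∈ A j, ((cl (R ∪ un F) v ∩ B j).card : ℝ) ≤ η * μ / 2 * (A j).card) →
      (∀ c ∈ B j, ((vt (R ∪ un F) c ∩ A j).card : ℝ) ≤ η * μ / 2 * (A j).card) →
      Stage δ ε η ξ0 μ (A j) (A (j + 1)) (B j) (B (j + 1)) ((full C G \ R) \ un F) := by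
    intro j hj ξ0 hξ0 F hin hF1 hF2 hl1 hl2 hl3
    rw [← vm_sdiff] at hin ⊢
    have eA1 : A j = Us j := hAi j hj.le
    have eA2 : A (j + 1) = Us (j + 1) := hAi (j + 1) hj
    have eB1 : B j = Cs j := hBi j hj.le
    have eB2 : B (j + 1) = Cs (j + 1) := hBi (j + 1) hj
    refine vi_stage G δ ε η ξ0 ξ' μ (A j) (A (j + 1)) (B j) (B (j + 1)) (R ∪ un F) (f1 j) (f2 j) hin
      hδlo hδhi ?_ ?_ (f3 j hj).1 (f3 j hj).2 ?_ ?_ hl1 hl2 hl3 ?_ hηpos (by linarith) ?_ hξ3 hξ0 ?_
    · rw [eA1, eB1]; exact b6 j hj.le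
    · rw [eA2, eB2]; exact b6 (j + 1) hj
    · intro u hu v hv h
      rcases mem_union.1 h with h | h
      · exact (hR1 u v h).2 ⟨f6 j hu, f6 j hv⟩
      · exact hF1 u hu v hv h
    · intro u hu c hc h
      rcases mem_union.1 h with h | h
      · exact hR2 u c h ⟨f6 j hu, f7 j hc⟩
      · exact hF2 u hu c hc h
    · intro v hv
      rw [eA1] at hv
      rw [eA2]
      exact b7 j hj v hv
    · have : m₀ ≤ (A j).card := by rw [eA1]; exact b4 j hj.le
      exact (hm2 _ this).1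
    · have : m₀ ≤ (A (j + 1)).card := by rw [eA2]; exact b4 (j + 1) hj
      exact (hm2 _ this).2
  have hκ : η * μ / 2 = η * μ / 2 := rfl
  -- level 0
  have hempty : ∀ (l : ℕ) (c : C), cnt (∅ : Finset (Finset (Item V C))) l c = 0 := by
    intro l c
    unfold cnt
    simp
  have hunempty : un (∅ : Finset (Finset (Item V C))) = ∅ := by simp [un]
  have hA0 : A 0 = univ := by rw [hAi 0 (by omega), b1]
  have hB0 : B 0 = univ := by rw [hBi 0 (by omega), b2]
  have hAc0 : (A 0).card = Fintype.card V := by rw [hA0, Finset.card_univ]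
  have VP0 : VP LM ls (fun _ => 0) (η * μ / 2) (full C G) R (A 0) (A 1) (B 0) (B 1) ∅ := by
    have hnn : (0 : ℝ) ≤ η * μ / 2 * ((A 0).card : ℝ) :=
      mul_nonneg (by positivity) (Nat.cast_nonneg _)
    refine ⟨by simp, ?_, ?_, ?_, ?_, ?_, ?_, ?_, ?_, ?_⟩
    · intro p hp
      simp at hp
    · rw [hunempty]; exact Finset.empty_subset _
    · intro c l _
      exact hempty l c
    · rw [hA0, hB0]
      constructor
      · intro u v huv
        have h2 : (Sum.inl s(u, v) : Item V C) ∈ full C G := (mem_sdiff.1 (mem_sdiff.1 huv).1).1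
        exact ⟨((vi_full_inl G u v).1 h2).ne, mem_univ _, mem_univ _⟩
      · intro v c _
        exact ⟨mem_univ _, mem_univ _⟩
    · rw [hunempty]; intro u _ v _; simp
    · rw [hunempty]; intro u _ v _; simp
    · intro v _
      have : nb (un (∅ : Finset (Finset (Item V C)))) v ∩ A 0 = ∅ := by
        rw [hunempty]; simp [nb]
      rw [this]; simpa using hnn
    · intro v _
      have : cl (un (∅ : Finset (Finset (Item V C)))) v ∩ B 0 = ∅ := by
        rw [hunempty]; simp [cl]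
      rw [this]; simpa using hnn
    · intro c _
      have : vt (un (∅ : Finset (Finset (Item V C)))) c ∩ A 0 = ∅ := by
        rw [hunempty]; simp [vt]
      rw [this]; simpa using hnn
  have VP1 : ∃ F, VP LM ls N (η * μ / 2) (full C G) R (A 1) (A 2) (B 1) (B 2) F := by
    have hst : Stage δ ε η ξA μ (A 0) (A 1) (B 0) (B 1) ((full C G \ R) \ un ∅) := by
      refine hstg 0 (by omega) ξA hξ1 ∅ VP0.ins ?_ ?_ ?_ ?_ ?_
      · rw [hunempty]; intro u _ v _; simp
      · rw [hunempty]; intro u _ v _; simp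
      · intro v _
        rw [hunempty, Finset.union_empty, hAc0]
        have e1 : (nb R v ∩ A 0).card ≤ Bm :=
          ((Finset.card_le_card Finset.inter_subset_left).trans (vm_card_nb R v)).trans hRB
        have e2 : ((nb R v ∩ A 0).card : ℝ) ≤ (Bm : ℝ) := by exact_mod_cast e1
        linarith
      · intro v _
        rw [hunempty, Finset.union_empty, hAc0]
        have e1 : (cl R v ∩ B 0).card ≤ Bm :=
          ((Finset.card_le_card Finset.inter_subset_left).trans (vm_card_cl R v)).trans hRB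
        have e2 : ((cl R v ∩ B 0).card : ℝ) ≤ (Bm : ℝ) := by exact_mod_cast e1
        linarith
      · intro c _
        rw [hunempty, Finset.union_empty, hAc0]
        have e1 : (vt R c ∩ A 0).card ≤ Bm :=
          ((Finset.card_le_card Finset.inter_subset_left).trans (vm_card_vt R c)).trans hRB
        have e2 : ((vt R c ∩ A 0).card : ℝ) ≤ (Bm : ℝ) := by exact_mod_cast e1
        linarith
    have hsum1 : ls * N ls + ∑ l ∈ (Icc 3 LM).erase ls, l * N l = Fintype.card V :=
      (Finset.add_sum_erase _ (fun l => l * N l) hlsLM).trans hsum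
    obtain ⟨cbal, cdiv⟩ : (∀ v, (nb ((full C G \ R) \ un ∅) v).card =
        2 * (cl ((full C G \ R) \ un ∅) v).card) ∧
        (∀ c, ∃ k : ℕ, (vt ((full C G \ R) \ un ∅) c).card =
          ls * k + ∑ l ∈ (Icc 3 LM).erase ls, l * N l) := by
      constructor
      · -- use the counting lemma with the trivial family and the numbers `N := 0`-type
        intro v
        obtain ⟨FR, hFR1, hFR2, hFR3⟩ := hRdec
        rw [hunempty, Finset.sdiff_empty]
        have e2 := pcs_nb_sdiff hRsub v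
        have e4 := pcs_cl_sdiff hRsub v
        have e5 : (nb R v).card = 2 * (cl R v).card := by
          rw [← hFR3]
          exact pcs_bal_un hFR2 (fun q hq => by
            obtain ⟨c, hc⟩ := hFR1 q hq
            exact ⟨ls, c, hc⟩) v
        have e7 : (nb (full C G) v).card = 2 * (cl (full C G) v).card := by
          rw [card_nb_full, hreg v]
          have : cl (full C G) v = univ := by
            ext c
            rw [pcs_mem_cl]
            simp [vi_full_inr]
          rw [this, Finset.card_univ]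
        omega
      · intro c
        obtain ⟨FR, hFR1, hFR2, hFR3⟩ := hRdec
        rw [hunempty, Finset.sdiff_empty]
        have e2 := pcs_vt_sdiff hRsub c
        have e3 : (vt (full C G) c).card = Fintype.card V := by
          have : vt (full C G) c = univ := by
            ext v
            rw [pcs_mem_vt]
            simp [vi_full_inr]
          rw [this, Finset.card_univ]
        have e4 : (vt R c).card = ls * cnt FR ls c := by
          rw [← hFR3, pcs_vt_cnt hFR2 {ls} (fun q hq => by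
            obtain ⟨c, hc⟩ := hFR1 q hq
            exact ⟨ls, Finset.mem_singleton_self _, c, hc⟩)]
          rw [Finset.sum_singleton]
        have e5 : (vt R c).card ≤ Bm := (vm_card_vt R c).trans hRB
        have e6 : Bm ≤ ls * N ls := by
          have e7 : 2 * L * Bm ≤ 2 * L * (ls * N ls) := hn5.trans hlsN
          exact Nat.le_of_mul_le_mul_left e7 (by omega)
        have e8 : ls * cnt FR ls c ≤ ls * N ls := by omega
        have e9 : cnt FR ls c ≤ N ls := Nat.le_of_mul_le_mul_left e8 (by omega)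
        refine ⟨N ls - cnt FR ls c, ?_⟩
        rw [Nat.mul_sub]
        omega
    have hsumR : (∑ l ∈ (Icc 3 (LB L (A 0).card)).erase ls, (l : ℝ) * (N l : ℝ) ≤ (1 - α) * (A 0).card) := by
      rw [hAc0, ← hLM]
      have e1 : (∑ l ∈ (Icc 3 LM).erase ls, (l : ℝ) * (N l : ℝ)) =
          ((∑ l ∈ (Icc 3 LM).erase ls, l * N l : ℕ) : ℝ) := by push_cast; rfl
      rw [e1]
      have e2 : ((ls * N ls : ℕ) : ℝ) + ((∑ l ∈ (Icc 3 LM).erase ls, l * N l : ℕ) : ℝ) =
          (Fintype.card V : ℝ) := by exact_mod_cast hsum1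
      have e3 : (Fintype.card V : ℝ) ≤ 2 * L * ((ls * N ls : ℕ) : ℝ) := by exact_mod_cast hlsN
      have e4 : α * (Fintype.card V : ℝ) ≤ ((ls * N ls : ℕ) : ℝ) := by
        rw [hα, div_mul_eq_mul_div, one_mul, div_le_iff₀ (by positivity)]
        linarith
      linarith
    obtain ⟨F', q1, q2, q3, q4, q5, q6, q7, q8, q9⟩ := HA V C δ (A 0) (A 1) (A 2) (B 0) (B 1) (B 2)
      ((full C G \ R) \ un ∅) ls N (by rw [hAc0]; exact hmA.trans hn3) hst cbal (f1 1) (f2 1) (f4 1)
      (f5 1 hJ) hls3 hlsL hsumR (by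
        intro c _
        rw [hAc0, ← hLM]
        exact cdiv c)
    rw [hAc0, ← hLM] at q1 q3
    have key := vi_step (N₂ := N) VP0 (f1 1) (f2 1)
      (fun p hp => ⟨(q1 p hp).1, by
        obtain ⟨l, hl, c, _, h⟩ := (q1 p hp).2
        exact ⟨l, hl, c, h⟩⟩) q2
      (fun c l hl => q3 c (by rw [hB0]; exact mem_univ _) l hl) q4
      (fun v hv => (q5 v hv).trans (by linarith))
      (fun v hv => (q6 v hv).trans (by linarith))
      (fun v hv => (q7 v hv).trans (by linarith)) q8 q9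
    refine ⟨∅ ∪ F', ?_⟩
    simpa using key
  -- later levels
  have VPj : ∀ j, j + 1 ≤ J → ∃ F, VP LM ls N (η * μ / 2) (full C G) R (A (j + 1)) (A (j + 2))
      (B (j + 1)) (B (j + 2)) F := by
    intro j
    induction j with
    | zero => intro _; exact VP1
    | succ j ih =>
      intro hj
      obtain ⟨F, hF⟩ := ih (by omega)
      have hjJ : j + 1 < J := hj
      obtain ⟨cbal, cdiv⟩ := vi_count G LM ls N R F hreg hRsub hRdec hlsLM hsum hF.pc hF.pd hF.sub hF.ct
      have hst : Stage δ ε η ξB μ (A (j + 1)) (A (j + 2)) (B (j + 1)) (B (j + 2))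
          ((full C G \ R) \ un F) := by
        refine hstg (j + 1) hjJ ξB hξ2 F hF.ins hF.n1 hF.n2 ?_ ?_ ?_
        · intro v hv
          refine le_trans ?_ (hF.l1 v hv)
          have : nb (R ∪ un F) v ∩ A (j + 1) ⊆ nb (un F) v ∩ A (j + 1) := by
            intro u hu
            rw [mem_inter, pcs_mem_nb, mem_union] at hu
            rw [mem_inter, pcs_mem_nb]
            refine ⟨?_, hu.2⟩
            rcases hu.1 with h2 | h2
            · exact absurd ⟨f6 j hv, f6 j hu.2⟩ (hR1 v u h2).2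
            · exact h2
          exact_mod_cast Finset.card_le_card this
        · intro v hv
          refine le_trans ?_ (hF.l2 v hv)
          have : cl (R ∪ un F) v ∩ B (j + 1) ⊆ cl (un F) v ∩ B (j + 1) := by
            intro u hu
            rw [mem_inter, pcs_mem_cl, mem_union] at hu
            rw [mem_inter, pcs_mem_cl]
            refine ⟨?_, hu.2⟩
            rcases hu.1 with h2 | h2
            · exact absurd ⟨f6 j hv, f7 j hu.2⟩ (hR2 v u h2)
            · exact h2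
          exact_mod_cast Finset.card_le_card this
        · intro c hc
          refine le_trans ?_ (hF.l3 c hc)
          have : vt (R ∪ un F) c ∩ A (j + 1) ⊆ vt (un F) c ∩ A (j + 1) := by
            intro u hu
            rw [mem_inter, pcs_mem_vt, mem_union] at hu
            rw [mem_inter, pcs_mem_vt]
            refine ⟨?_, hu.2⟩
            rcases hu.1 with h2 | h2
            · exact absurd ⟨f6 j hu.2, f7 j hc⟩ (hR2 u c h2)
            · exact h2
          exact_mod_cast Finset.card_le_card this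
      have hmj : mB ≤ (A (j + 1)).card := by
        rw [hAi (j + 1) hjJ.le]
        exact hmB.trans (b4 (j + 1) hjJ.le)
      obtain ⟨F', q1, q2, q3, q4, q5, q6, q7, q8, q9⟩ := HB V C δ (A (j + 1)) (A (j + 2)) (A (j + 3))
        (B (j + 1)) (B (j + 2)) (B (j + 3)) ((full C G \ R) \ un F) ls (fun _ => 0) hmj hst cbal
        (f1 (j + 2)) (f2 (j + 2)) (f4 (j + 2)) (f5 (j + 2) hj) hls3 hlsL (by
          simp only [Nat.cast_zero, mul_zero, Finset.sum_const_zero]
          exact mul_nonneg (by linarith) (Nat.cast_nonneg _)) (by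
          intro c _
          obtain ⟨k, hk⟩ := cdiv c
          exact ⟨k, by simp [hk]⟩)
      have hzero : ∀ q ∈ F', ∀ l c, IsPiece l c q → l = ls := by
        intro q hq l c hlc
        obtain ⟨l', hl', c', hc', h'⟩ := (q1 q hq).2
        obtain ⟨e1, e2⟩ := grd_piece_unique hlc h'
        subst e1
        subst e2
        by_contra hne
        have := q3 c hc' l (Finset.mem_erase.2 ⟨hne, hl'⟩)
        unfold cnt at this
        rw [Finset.card_eq_zero, Finset.filter_eq_empty_iff] at this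
        exact this hq hlc
      have key := vi_step (N₂ := fun _ => 0) hF (f1 (j + 2)) (f2 (j + 2))
        (fun p hp => ⟨(q1 p hp).1, by
          obtain ⟨l, hl, c, _, h⟩ := (q1 p hp).2
          have := hzero p hp l c h
          subst this
          exact ⟨l, hlsLM, c, h⟩⟩) q2
        (fun c l hl => by
          unfold cnt
          rw [Finset.card_eq_zero, Finset.filter_eq_empty_iff]
          intro q hq hlc
          exact (Finset.mem_erase.1 hl).1 (hzero q hq l c hlc)) q4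
        (fun v hv => (q5 v hv).trans (by linarith))
        (fun v hv => (q6 v hv).trans (by linarith))
        (fun v hv => (q7 v hv).trans (by linarith)) q8 q9
      exact ⟨F ∪ F', by simpa using key⟩
  -- end
  obtain ⟨F, hF⟩ := VPj (J - 1) (by omega)
  have hJ1 : J - 1 + 1 = J := by omega
  rw [hJ1] at hF
  obtain ⟨cbal, cdiv⟩ := vi_count G LM ls N R F hreg hRsub hRdec hlsLM hsum hF.pc hF.pd hF.sub hF.ct
  refine vi_final G LM ls N (η * μ / 2) R _ _ _ _ F hRsub hlsLM hsum hF ?_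
  apply hR3
  · have := hF.ins
    rw [hAi J le_rfl, hBi J le_rfl] at this
    exact this
  · exact ⟨cbal, cdiv⟩
  · intro u v huv
    exact (vi_full_inl G u v).1 (mem_sdiff.1 (mem_sdiff.1 huv).1).1

/-- milestone 1 -/
theorem itemMain (hC : CdlStmt) (hA : AbsStmt) (hV : VtxStmt) : ItemMain := by
  have hG : CdlG (fun L _ => L) := hC
  have h := vi_main (fun L _ => L) (fun _ _ _ => le_rfl) hG hC hA hV
  intro ε L hε
  obtain ⟨n₀, hn₀⟩ := h ε L hε
  refine ⟨n₀, ?_⟩
  intro V C _ _ _ _ G N hn hreg hd hsum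
  exact hn₀ V C G N hn hreg hd hsum (by rw [hsum]; omega)

end Pool.Agent.OBW
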